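import Pool.Agent.Lib.MP_66ef6b_al.PL.SpecC

set_option autoImplicit false

/-!
# MP_66ef6b_al, THEOREM L2 (helper14): classical groups, definitions and basic lemmas

Uniform treatment of symplectic, unitary and orthogonal groups (Bak, Tits): a form parameter
`F = (σ, ε, Λ)` of the field `K`, a sesquilinear form `β` on `V`, the `ε`-hermitian form
`B v w = β v w + ε σ (β w v)` and the quadratic form `q v = β v v` modulo `Λ`.
Types: orthogonal (`σ = 1`, `ε = 1`, `Λ = 0`), symplectic (`σ = 1`, `ε = -1`, `Λ = K`), unitary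
(`σ ≠ 1`, `ε = -1`, `Λ` = the fixed field of `σ`).
-/

namespace Pool.Agent.Lib.MP66ef6b.CL

universe u

/-- A form parameter of orthogonal, symplectic or unitary type. -/
structure FD (K : Type) [Field K] where
  /-- the automorphism -/
  σ : K →+* K
  /-- the sign -/
  ε : K
  /-- the form parameter -/
  Λ : AddSubgroup K
  inv : ∀ a, σ (σ a) = a
  typ : ((∀ a, σ a = a) ∧ ε = 1 ∧ Λ = ⊥) ∨ ((∀ a, σ a = a) ∧ ε = -1 ∧ Λ = ⊤) ∨
    ((∃ a, σ a ≠ a) ∧ ε = -1 ∧ ∀ a, a ∈ Λ ↔ σ a = a)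

/-- A sesquilinear form (linear in the first variable). -/
structure Sq {K : Type} [Field K] (F : FD K) (V : Type) [AddCommGroup V] [Module K V] where
  /-- the form -/
  β : V → V → K
  add_left : ∀ u v w, β (u + v) w = β u w + β v w
  smul_left : ∀ (c : K) v w, β (c • v) w = c * β v w
  add_right : ∀ u v w, β u (v + w) = β u v + β u w
  smul_right : ∀ (c : K) v w, β v (c • w) = F.σ c * β v w

section field

variable {K : Type} [Field K] (F : FD K)

theorem FD.ee : F.ε * F.ε = 1 := by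
  rcases F.typ with ⟨_, h, _⟩ | ⟨_, h, _⟩ | ⟨_, h, _⟩ <;> rw [h] <;> ring

theorem FD.se : F.σ F.ε = F.ε := by
  rcases F.typ with ⟨_, h, _⟩ | ⟨_, h, _⟩ | ⟨_, h, _⟩ <;> rw [h] <;> simp

theorem FD.e0 : F.ε ≠ 0 := by
  intro h
  have := F.ee
  rw [h] at this
  simp at this

/-- elements of `Λ` are skew. -/
theorem FD.skew {a : K} (h : a ∈ F.Λ) : F.ε * F.σ a = -a := by
  rcases F.typ with ⟨h1, h2, h3⟩ | ⟨h1, h2, h3⟩ | ⟨h1, h2, h3⟩
  · rw [h3, AddSubgroup.mem_bot] at h
    rw [h]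
    simp
  · rw [h2, h1]
    ring
  · rw [h3] at h
    rw [h2, h]
    ring

theorem FD.tr (a : K) : a - F.ε * F.σ a ∈ F.Λ := by
  rcases F.typ with ⟨h1, h2, h3⟩ | ⟨h1, h2, h3⟩ | ⟨h1, h2, h3⟩
  · rw [h3, h1, h2, AddSubgroup.mem_bot]
    ring
  · rw [h3]
    trivial
  · rw [h3, h2]
    simp only [map_sub, map_mul, map_neg, map_one, F.inv]
    ring

theorem FD.sc {a : K} (h : a ∈ F.Λ) (c : K) : c * F.σ c * a ∈ F.Λ := by
  rcases F.typ with ⟨h1, h2, h3⟩ | ⟨h1, h2, h3⟩ | ⟨h1, h2, h3⟩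
  · rw [h3, AddSubgroup.mem_bot] at h ⊢
    rw [h]
    ring
  · rw [h3]
    trivial
  · rw [h3] at h ⊢
    simp only [map_mul, F.inv, h]
    ring

theorem FD.sl {a : K} (h : a ∈ F.Λ) : F.σ a ∈ F.Λ := by
  rcases F.typ with ⟨h1, h2, h3⟩ | ⟨h1, h2, h3⟩ | ⟨h1, h2, h3⟩
  · rw [h1]
    exact h
  · rw [h1]
    exact h
  · rw [h3] at h ⊢
    rw [h, h]

end field

section space

variable {K : Type} [Field K] {F : FD K} {V : Type} [AddCommGroup V] [Module K V] (S : Sq F V)

/-- the `ε`-hermitian form -/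
def Sq.B (v w : V) : K := S.β v w + F.ε * F.σ (S.β w v)

/-- the quadratic form (a representative modulo `Λ`) -/
def Sq.q (v : V) : K := S.β v v

theorem Sq.zero_left (w : V) : S.β 0 w = 0 := by
  have := S.smul_left 0 0 w
  simpa using this

theorem Sq.zero_right (w : V) : S.β w 0 = 0 := by
  have := S.smul_right 0 w 0
  simpa using this

theorem Sq.neg_left (v w : V) : S.β (-v) w = -S.β v w := by
  have := S.smul_left (-1) v w
  simpa using this

theorem Sq.neg_right (v w : V) : S.β v (-w) = -S.β v w := by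
  have := S.smul_right (-1) v w
  simpa using this

theorem Sq.B_add_left (u v w : V) : S.B (u + v) w = S.B u w + S.B v w := by
  simp only [Sq.B, S.add_left, S.add_right, map_add]
  ring

theorem Sq.B_add_right (u v w : V) : S.B u (v + w) = S.B u v + S.B u w := by
  simp only [Sq.B, S.add_left, S.add_right, map_add]
  ring

theorem Sq.B_smul_left (c : K) (v w : V) : S.B (c • v) w = c * S.B v w := by
  simp only [Sq.B, S.smul_left, S.smul_right, map_mul, F.inv]
  ring

theorem Sq.B_smul_right (c : K) (v w : V) : S.B v (c • w) = F.σ c * S.B v w := by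
  simp only [Sq.B, S.smul_left, S.smul_right, map_mul]
  ring

theorem Sq.B_neg_left (v w : V) : S.B (-v) w = -S.B v w := by
  have := S.B_smul_left (-1) v w
  simpa using this

theorem Sq.B_neg_right (v w : V) : S.B v (-w) = -S.B v w := by
  have := S.B_smul_right (-1) v w
  simpa using this

theorem Sq.B_sub_left (u v w : V) : S.B (u - v) w = S.B u w - S.B v w := by
  rw [sub_eq_add_neg, S.B_add_left, S.B_neg_left, sub_eq_add_neg]

theorem Sq.B_sub_right (u v w : V) : S.B u (v - w) = S.B u v - S.B u w := by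
  rw [sub_eq_add_neg, S.B_add_right, S.B_neg_right, sub_eq_add_neg]

theorem Sq.B_zero_left (w : V) : S.B 0 w = 0 := by
  have := S.B_smul_left 0 0 w
  simpa using this

theorem Sq.B_zero_right (w : V) : S.B w 0 = 0 := by
  have := S.B_smul_right 0 w 0
  simpa using this

theorem Sq.B_swap (v w : V) : S.B w v = F.ε * F.σ (S.B v w) := by
  simp only [Sq.B, map_add, map_mul, F.inv, F.se]
  linear_combination (-S.β w v) * F.ee

theorem Sq.B_self (v : V) : S.B v v = S.q v + F.ε * F.σ (S.q v) := rfl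

theorem Sq.B_eq_zero_swap {v w : V} (h : S.B v w = 0) : S.B w v = 0 := by
  rw [S.B_swap v w, h]
  simp

theorem Sq.q_add (v w : V) : S.q (v + w) - (S.q v + S.q w + S.B v w) ∈ F.Λ := by
  have h : S.q (v + w) - (S.q v + S.q w + S.B v w) = S.β w v - F.ε * F.σ (S.β w v) := by
    simp only [Sq.q, Sq.B, S.add_left, S.add_right]
    ring
  rw [h]
  exact F.tr _

theorem Sq.q_smul (c : K) (v : V) : S.q (c • v) = c * F.σ c * S.q v := by
  simp only [Sq.q, S.smul_left, S.smul_right]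
  ring

theorem Sq.q_neg (v : V) : S.q (-v) = S.q v := by
  simp only [Sq.q, S.neg_left, S.neg_right]
  ring

theorem Sq.q_zero : S.q 0 = 0 := by
  simp only [Sq.q, S.zero_left]

/-- `x` is singular (`x = 0` is allowed). -/
def Sq.Sg (x : V) : Prop := S.q x ∈ F.Λ

theorem Sq.Sg.self {S : Sq F V} {x : V} (h : S.Sg x) : S.B x x = 0 := by
  rw [S.B_self, F.skew h]
  ring

theorem Sq.Sg.smul {S : Sq F V} {x : V} (h : S.Sg x) (c : K) : S.Sg (c • x) := by
  rw [Sq.Sg, S.q_smul]
  exact F.sc h c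

theorem Sq.Sg.neg {S : Sq F V} {x : V} (h : S.Sg x) : S.Sg (-x) := by
  rw [Sq.Sg, S.q_neg]
  exact h

theorem Sq.Sg.add {S : Sq F V} {x y : V} (h : S.Sg x) (h' : S.Sg y) (hxy : S.B x y = 0) :
    S.Sg (x + y) := by
  have h1 := S.q_add x y
  rw [hxy, add_zero] at h1
  have h2 := F.Λ.add_mem h1 (F.Λ.add_mem h h')
  rwa [sub_add_cancel] at h2

/-- The isometries of the form space. -/
def Sq.Iso : Subgroup (V ≃ₗ[K] V) where
  carrier := {g | (∀ v w, S.B (g v) (g w) = S.B v w) ∧ ∀ v, S.q (g v) - S.q v ∈ F.Λ}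
  mul_mem' := by
    rintro g h ⟨hg1, hg2⟩ ⟨hh1, hh2⟩
    refine ⟨fun v w => ?_, fun v => ?_⟩
    · rw [LinearEquiv.mul_apply, LinearEquiv.mul_apply, hg1, hh1]
    · rw [LinearEquiv.mul_apply]
      have := F.Λ.add_mem (hg2 (h v)) (hh2 v)
      rwa [sub_add_sub_cancel] at this
  one_mem' := ⟨fun _ _ => rfl, fun v => by
    rw [LinearEquiv.coe_one, id_eq, sub_self]
    exact F.Λ.zero_mem⟩
  inv_mem' := by
    rintro g ⟨hg1, hg2⟩
    have h : ∀ v, g (g⁻¹ v) = v := fun v => by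
      rw [← LinearEquiv.mul_apply, mul_inv_cancel, LinearEquiv.coe_one, id_eq]
    refine ⟨fun v w => ?_, fun v => ?_⟩
    · rw [← hg1, h, h]
    · have := F.Λ.neg_mem (hg2 (g⁻¹ v))
      rwa [h, neg_sub] at this

theorem Sq.mem_Iso {g : V ≃ₗ[K] V} :
    g ∈ S.Iso ↔ (∀ v w, S.B (g v) (g w) = S.B v w) ∧ ∀ v, S.q (g v) - S.q v ∈ F.Λ := Iff.rfl

/-- Admissible parameters of a Siegel transformation. -/
structure Sq.Adm (x w : V) (a : K) : Prop where
  sg : S.Sg x
  orth : S.B x w = 0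
  par : a - S.q w ∈ F.Λ

/-- The linear map `T_{x,w,a}`. -/
def Sq.tv (x w : V) (a : K) : V →ₗ[K] V where
  toFun v := v + S.B v x • w - (F.ε * (S.B v w + a * S.B v x)) • x
  map_add' u v := by
    simp only [S.B_add_left, add_smul, mul_add]
    abel
  map_smul' c v := by
    simp only [S.B_smul_left, RingHom.id_apply]
    module

theorem Sq.tv_apply (x w : V) (a : K) (v : V) :
    S.tv x w a v = v + S.B v x • w - (F.ε * (S.B v w + a * S.B v x)) • x := rfl

variable {S}

theorem Sq.Adm.orth' {x w : V} {a : K} (h : S.Adm x w a) : S.B w x = 0 :=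
  S.B_eq_zero_swap h.orth

theorem Sq.Adm.self {x w : V} {a : K} (h : S.Adm x w a) : S.B w w = a + F.ε * F.σ a := by
  have h1 := F.skew h.par
  rw [S.B_self]
  rw [map_sub, mul_sub] at h1
  linear_combination -h1

theorem Sq.Adm.add {x w z : V} {a b : K} (h : S.Adm x w a) (h' : S.Adm x z b) :
    S.Adm x (w + z) (a + b + S.B z w) where
  sg := h.sg
  orth := by rw [S.B_add_right, h.orth, h'.orth, add_zero]
  par := by
    have h1 := F.Λ.add_mem h.par h'.par
    have h2 := S.q_add w z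
    have h3 := F.tr (S.B w z)
    rw [← S.B_swap w z] at h3
    have h4 := F.Λ.sub_mem (F.Λ.sub_mem h1 h2) h3
    convert h4 using 1
    ring

theorem Sq.Adm.inv {x w : V} {a : K} (h : S.Adm x w a) : S.Adm x (-w) (F.ε * F.σ a) where
  sg := h.sg
  orth := by rw [S.B_neg_right, h.orth, neg_zero]
  par := by
    rw [S.q_neg]
    have h4 := F.Λ.sub_mem h.par (F.tr a)
    convert h4 using 1
    ring

theorem Sq.tv_mul {x w z : V} {a b : K} (h : S.Adm x w a) (h' : S.Adm x z b) (v : V) :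
    S.tv x w a (S.tv x z b v) = S.tv x (w + z) (a + b + S.B z w) v := by
  simp only [Sq.tv_apply, S.B_add_left, S.B_sub_left, S.B_smul_left, S.B_add_right, h.sg.self,
    h'.orth', h.orth, smul_add, mul_zero, add_zero, sub_zero]
  module

/-- The Siegel transformation `T_{x,w,a}` (the identity if the parameters are not
admissible). -/
noncomputable def Sq.T (S : Sq F V) (x w : V) (a : K) : V ≃ₗ[K] V :=
  open Classical in
  if h : S.Adm x w a then
    LinearEquiv.ofLinearMap (S.tv x w a) (S.tv x (-w) (F.ε * F.σ a))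
      (by
        ext v
        have h1 : a + F.ε * F.σ a + S.B (-w) w = 0 := by
          rw [S.B_neg_left, h.self]
          ring
        rw [LinearMap.comp_apply, Sq.tv_mul h h.inv, h1, add_neg_cancel, LinearMap.id_apply,
          Sq.tv_apply, S.B_zero_right]
        simp)
      (by
        ext v
        have h1 : F.ε * F.σ a + a + S.B w (-w) = 0 := by
          rw [S.B_neg_right, h.self]
          ring
        rw [LinearMap.comp_apply, Sq.tv_mul h.inv h, h1, neg_add_cancel, LinearMap.id_apply,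
          Sq.tv_apply, S.B_zero_right]
        simp)
  else 1

theorem Sq.T_apply {x w : V} {a : K} (h : S.Adm x w a) (v : V) :
    S.T x w a v = v + S.B v x • w - (F.ε * (S.B v w + a * S.B v x)) • x := by
  rw [Sq.T, dif_pos h]
  rfl

theorem Sq.T_mul {x w z : V} {a b : K} (h : S.Adm x w a) (h' : S.Adm x z b) :
    S.T x w a * S.T x z b = S.T x (w + z) (a + b + S.B z w) := by
  ext v
  have h2 := Sq.tv_mul h h' v
  simp only [Sq.tv_apply] at h2
  rw [LinearEquiv.mul_apply, Sq.T_apply h', Sq.T_apply h, Sq.T_apply (h.add h')]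
  exact h2

theorem Sq.Adm.zero {x : V} (h : S.Sg x) : S.Adm x 0 0 where
  sg := h
  orth := S.B_zero_right x
  par := by
    rw [S.q_zero, sub_zero]
    exact F.Λ.zero_mem

theorem Sq.T_zero {x : V} : S.T x 0 0 = 1 := by
  by_cases h : S.Adm x 0 0
  · ext v
    rw [Sq.T_apply h, S.B_zero_right]
    simp
  · rw [Sq.T, dif_neg h]

theorem Sq.T_inv {x w : V} {a : K} (h : S.Adm x w a) :
    (S.T x w a)⁻¹ = S.T x (-w) (F.ε * F.σ a) := by
  rw [inv_eq_iff_mul_eq_one, Sq.T_mul h h.inv, add_neg_cancel, S.B_neg_left, h.self]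
  have : a + F.ε * F.σ a + -(a + F.ε * F.σ a) = 0 := by ring
  rw [this, Sq.T_zero]

theorem Sq.T_mem_Iso {x w : V} {a : K} (h : S.Adm x w a) : S.T x w a ∈ S.Iso := by
  have key : ∀ v u, S.B (S.T x w a v) (S.T x w a u) = S.B v u := by
    intro v u
    have h1 : S.B x u = F.ε * F.σ (S.B u x) := S.B_swap u x
    have h2 : S.B w u = F.ε * F.σ (S.B u w) := S.B_swap u w
    have hs := F.se
    have he := F.ee
    simp only [Sq.T_apply h, S.B_add_left, S.B_sub_left, S.B_smul_left, S.B_add_right,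
      S.B_sub_right, S.B_smul_right, h.sg.self, h.orth, h.orth', h.self, h1, h2, map_mul, map_add,
      hs]
    linear_combination (-(S.B v w * F.σ (S.B u x)) - a * S.B v x * F.σ (S.B u x)) * he
  refine ⟨key, fun v => ?_⟩
  have h0 : S.T x w a v = v + (S.B v x • w + (-(F.ε * (S.B v w + a * S.B v x))) • x) := by
    rw [Sq.T_apply h]
    module
  have h1 := S.q_add v (S.B v x • w + (-(F.ε * (S.B v w + a * S.B v x))) • x)
  have h2 := S.q_add (S.B v x • w) ((-(F.ε * (S.B v w + a * S.B v x))) • x)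
  have h3 := F.sc h.sg (-(F.ε * (S.B v w + a * S.B v x)))
  have h4 := F.sc h.par (S.B v x)
  have h5 := F.sc (F.tr a) (S.B v x)
  have h6 := F.tr (F.σ (S.B v x) * S.B v w)
  rw [h0]
  simp only [S.q_smul, S.B_add_right, S.B_smul_right, S.B_smul_left, h.orth', map_neg, map_mul,
    map_add, F.se, mul_zero, add_zero] at h1 h2 h3 h4 h5 h6 ⊢
  have hx : S.B w x = 0 := h.orth'
  have h7 := F.Λ.add_mem h1 (F.Λ.add_mem h2 h3)
  have h8 := F.Λ.add_mem (F.Λ.add_mem (F.Λ.neg_mem h4) h5) h6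
  have h9 := F.Λ.add_mem h7 h8
  rw [F.inv] at h9
  convert h9 using 1
  ring

theorem Sq.Adm.map {x w : V} {a : K} (h : S.Adm x w a) {g : V ≃ₗ[K] V} (hg : g ∈ S.Iso) :
    S.Adm (g x) (g w) a where
  sg := by
    have := F.Λ.add_mem (hg.2 x) h.sg
    rwa [sub_add_cancel] at this
  orth := by rw [hg.1, h.orth]
  par := by
    have := F.Λ.sub_mem h.par (hg.2 w)
    convert this using 1
    ring

theorem Sq.T_conj {x w : V} {a : K} (h : S.Adm x w a) {g : V ≃ₗ[K] V} (hg : g ∈ S.Iso) :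
    g * S.T x w a * g⁻¹ = S.T (g x) (g w) a := by
  have h0 : ∀ v, g (g⁻¹ v) = v := fun v => by
    rw [← LinearEquiv.mul_apply, mul_inv_cancel, LinearEquiv.coe_one, id_eq]
  have h1 : ∀ v u, S.B (g⁻¹ v) u = S.B v (g u) := fun v u => by
    rw [← hg.1, h0]
  ext v
  rw [LinearEquiv.mul_apply, LinearEquiv.mul_apply, Sq.T_apply h, Sq.T_apply (h.map hg), map_sub,
    map_add, h0, map_smul, map_smul, h1, h1]

/-- commutators in the group of the `T_{x,w,a}` (`x` fixed). -/
theorem Sq.T_comm {x w z : V} {a b : K} (h : S.Adm x w a) (h' : S.Adm x z b) :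
    S.T x w a * S.T x z b * (S.T x w a)⁻¹ * (S.T x z b)⁻¹ = S.T x 0 (S.B z w - S.B w z) := by
  have h1 : S.T x w a * S.T x z b = S.T x 0 (S.B z w - S.B w z) * (S.T x z b * S.T x w a) := by
    have h3 : S.Adm x 0 (S.B z w - S.B w z) := ⟨h.sg, S.B_zero_right x, by
      rw [S.q_zero, sub_zero, S.B_swap z w]
      exact F.tr _⟩
    rw [Sq.T_mul h h', Sq.T_mul h' h, Sq.T_mul h3 (h'.add h), S.B_zero_right]
    congr 1
    · abel
    · ring
  rw [h1]
  group

theorem Sq.Adm.smul {x w : V} {a : K} {c : K} (h : S.Adm (c • x) w a) (hx : S.Sg x)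
    (hxw : S.B x w = 0) : S.Adm x (F.σ c • w) (c * F.σ c * a) where
  sg := hx
  orth := by rw [S.B_smul_right, hxw, mul_zero]
  par := by
    rw [S.q_smul, F.inv]
    have := F.sc h.par c
    convert this using 1
    ring

theorem Sq.T_smul {x w : V} {a : K} {c : K} (h : S.Adm (c • x) w a) (hx : S.Sg x)
    (hxw : S.B x w = 0) : S.T (c • x) w a = S.T x (F.σ c • w) (c * F.σ c * a) := by
  ext v
  rw [Sq.T_apply h, Sq.T_apply (h.smul hx hxw)]
  simp only [S.B_smul_right, F.inv]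
  module

/-- the group generated by the Siegel transformations with parameters in `W`. -/
def Sq.D (S : Sq F V) (W : Submodule K V) : Subgroup (V ≃ₗ[K] V) :=
  Subgroup.closure {g | ∃ x ∈ W, ∃ w ∈ W, ∃ a : K, S.Adm x w a ∧ g = S.T x w a}

theorem Sq.T_mem_D {W : Submodule K V} {x w : V} {a : K} (hx : x ∈ W) (hw : w ∈ W)
    (h : S.Adm x w a) : S.T x w a ∈ S.D W :=
  Subgroup.subset_closure ⟨x, hx, w, hw, a, h, rfl⟩

theorem Sq.D_le_Iso (W : Submodule K V) : S.D W ≤ S.Iso := by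
  rw [Sq.D, Subgroup.closure_le]
  rintro g ⟨x, -, w, -, a, h, rfl⟩
  exact Sq.T_mem_Iso h

theorem Sq.D_mono {W W' : Submodule K V} (h : W ≤ W') : S.D W ≤ S.D W' := by
  apply Subgroup.closure_mono
  rintro g ⟨x, hx, w, hw, a, ha⟩
  exact ⟨x, h hx, w, h hw, a, ha⟩

theorem Sq.T_mem_G {x w : V} {a : K} (h : S.Adm x w a) : S.T x w a ∈ S.D ⊤ :=
  Sq.T_mem_D trivial trivial h

/-- isometries normalise the group `D ⊤`. -/
theorem Sq.conj_mem_D {g h : V ≃ₗ[K] V} (hg : g ∈ S.Iso) (hh : h ∈ S.D ⊤) :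
    g * h * g⁻¹ ∈ S.D ⊤ := by
  have h1 : (S.D ⊤).map (MulAut.conj g).toMonoidHom ≤ S.D ⊤ := by
    rw [Sq.D, MonoidHom.map_closure, Subgroup.closure_le]
    rintro _ ⟨_, ⟨x, -, w, -, a, ha, rfl⟩, rfl⟩
    simp only [MulEquiv.coe_toMonoidHom, MulAut.conj_apply]
    rw [Sq.T_conj ha hg]
    exact Sq.T_mem_G (ha.map hg)
  apply h1
  exact ⟨h, hh, by simp⟩

end space

end Pool.Agent.Lib.MP66ef6b.CL
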