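import Mathlib

set_option autoImplicit false

/-!
# MP_66ef6b_al, THEOREM L3 (helper14): finitary linear groups over prime fields
-/

namespace Pool.Agent.Lib.MP66ef6b.CL

universe u

/-- `G` is finitary linear over a prime field: for some prime `p`, `G` acts non-trivially by
automorphisms on an elementary abelian `p`-group `V` and all sets `{g v - v | v ∈ V}` are finite. -/
def FinLin (G : Type u) [Group G] : Prop :=
  ∃ (p : ℕ) (V : Type u) (_ : AddCommGroup V) (_ : DistribMulAction G V), p.Prime ∧
    (∀ v : V, p • v = 0) ∧ (∀ g : G, (Set.range fun v : V => g • v - v).Finite) ∧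
    ∃ (g : G) (v : V), g • v ≠ v

end Pool.Agent.Lib.MP66ef6b.CL
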