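import Pool.Agent.Lib.MP_66ef6b_al.CL.Base

set_option autoImplicit false

/-!
# MP_66ef6b_al, THEOREM L2 (helper14): the standard space `K^m ⊕ K^m ⊕ V₀`
-/

namespace Pool.Agent.Lib.MP66ef6b.CL

universe u

open Matrix

/-- the standard space: `E ⊕ E' ⊕ V₀`, `E = K^m`, `E' = K^m`. -/
abbrev SV (K V₀ : Type) (m : ℕ) : Type := (Fin m → K) × (Fin m → K) × V₀

section std

variable {K : Type} [Field K] {F : FD K} {V₀ : Type} [AddCommGroup V₀] [Module K V₀]

/-- the orthogonal sum of `m` hyperbolic planes and the form space `V₀`. -/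
def Sq.std (S₀ : Sq F V₀) (m : ℕ) : Sq F (SV K V₀ m) where
  β v w := v.1 ⬝ᵥ (fun i => F.σ (w.2.1 i)) + S₀.β v.2.2 w.2.2
  add_left u v w := by
    simp only [Prod.fst_add, Prod.snd_add, add_dotProduct, S₀.add_left]
    ring
  smul_left c v w := by
    simp only [Prod.smul_fst, Prod.smul_snd, smul_dotProduct, S₀.smul_left, smul_eq_mul]
    ring
  add_right u v w := by
    have h : (fun i => F.σ ((v + w).2.1 i)) = (fun i => F.σ (v.2.1 i)) + fun i => F.σ (w.2.1 i) := by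
      ext i
      simp
    rw [h, dotProduct_add]
    simp only [Prod.snd_add, S₀.add_right]
    ring
  smul_right c v w := by
    have h : (fun i => F.σ ((c • w).2.1 i)) = F.σ c • fun i => F.σ (w.2.1 i) := by
      ext i
      simp
    rw [h, dotProduct_smul]
    simp only [Prod.smul_snd, S₀.smul_right, smul_eq_mul]
    ring

variable {S₀ : Sq F V₀} {m : ℕ}

theorem std_β (v w : SV K V₀ m) : (S₀.std m).β v w =
    v.1 ⬝ᵥ (fun i => F.σ (w.2.1 i)) + S₀.β v.2.2 w.2.2 := rfl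

theorem std_q (v : SV K V₀ m) : (S₀.std m).q v =
    v.1 ⬝ᵥ (fun i => F.σ (v.2.1 i)) + S₀.q v.2.2 := rfl

theorem std_B (v w : SV K V₀ m) : (S₀.std m).B v w =
    v.1 ⬝ᵥ (fun i => F.σ (w.2.1 i)) + F.ε * (v.2.1 ⬝ᵥ fun i => F.σ (w.1 i)) +
      S₀.B v.2.2 w.2.2 := by
  simp only [Sq.B, std_β, map_add, dotProduct, map_sum, map_mul, F.inv]
  have : ∑ x, F.σ (w.1 x) * v.2.1 x = ∑ x, v.2.1 x * F.σ (w.1 x) :=
    Finset.sum_congr rfl fun i _ => mul_comm _ _
  rw [this]
  ring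

/-- the basis vector `e_i` of `E`. -/
def eV (K V₀ : Type) [Field K] [AddCommGroup V₀] {m : ℕ} (i : Fin m) : SV K V₀ m :=
  (Pi.single i 1, 0, 0)

/-- the basis vector `f_i` of `E'`. -/
def fV (K V₀ : Type) [Field K] [AddCommGroup V₀] {m : ℕ} (i : Fin m) : SV K V₀ m :=
  (0, Pi.single i 1, 0)

/-- the action of `SL_m(K)` on the standard space: `g` on `E`, the contragredient on `E'`. -/
def lamL (F : FD K) (V₀ : Type) [AddCommGroup V₀] [Module K V₀] {m : ℕ} (g : PL.SLn m K) :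
    SV K V₀ m →ₗ[K] SV K V₀ m where
  toFun v := (g.1 *ᵥ v.1, ((g⁻¹ : PL.SLn m K).1.map F.σ)ᵀ *ᵥ v.2.1, v.2.2)
  map_add' u v := by
    simp only [Prod.fst_add, Prod.snd_add, mulVec_add, Prod.mk_add_mk]
  map_smul' c v := by
    simp only [Prod.smul_fst, Prod.smul_snd, mulVec_smul, RingHom.id_apply, Prod.smul_mk]

theorem lamL_mul (F : FD K) (g h : PL.SLn m K) (v : SV K V₀ m) :
    lamL F V₀ (g * h) v = lamL F V₀ g (lamL F V₀ h v) := by
  have h1 : (((g * h)⁻¹ : PL.SLn m K).1.map F.σ)ᵀ =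
      ((g⁻¹ : PL.SLn m K).1.map F.σ)ᵀ * ((h⁻¹ : PL.SLn m K).1.map F.σ)ᵀ := by
    rw [← transpose_mul, ← Matrix.map_mul, _root_.mul_inv_rev]
    rfl
  simp only [lamL, LinearMap.coe_mk, AddHom.coe_mk, mulVec_mulVec, h1]
  rfl

theorem lamL_one (F : FD K) (v : SV K V₀ m) : lamL F V₀ (1 : PL.SLn m K) v = v := by
  have h1 : (((1 : PL.SLn m K)⁻¹ : PL.SLn m K).1.map F.σ)ᵀ = 1 := by
    rw [inv_one]
    have : (1 : PL.SLn m K).1 = (1 : Matrix (Fin m) (Fin m) K) := rfl
    rw [this, Matrix.map_one _ (map_zero _) (map_one _), transpose_one]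
  simp only [lamL, LinearMap.coe_mk, AddHom.coe_mk, h1, one_mulVec]
  have : (1 : PL.SLn m K).1 = (1 : Matrix (Fin m) (Fin m) K) := rfl
  rw [this, one_mulVec]

/-- the homomorphism `SL_m(K) → GL(V)`. -/
def lam (F : FD K) (V₀ : Type) [AddCommGroup V₀] [Module K V₀] (m : ℕ) :
    PL.SLn m K →* (SV K V₀ m ≃ₗ[K] SV K V₀ m) where
  toFun g := LinearEquiv.ofLinearMap (lamL F V₀ g) (lamL F V₀ g⁻¹)
    (LinearMap.ext fun v => by
      rw [LinearMap.comp_apply, ← lamL_mul, mul_inv_cancel, lamL_one, LinearMap.id_apply])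
    (LinearMap.ext fun v => by
      rw [LinearMap.comp_apply, ← lamL_mul, inv_mul_cancel, lamL_one, LinearMap.id_apply])
  map_one' := by
    refine LinearEquiv.ext fun v => ?_
    exact lamL_one F v
  map_mul' g h := by
    refine LinearEquiv.ext fun v => ?_
    exact lamL_mul F g h v

theorem lam_apply (g : PL.SLn m K) (v : SV K V₀ m) :
    lam F V₀ m g v = (g.1 *ᵥ v.1, ((g⁻¹ : PL.SLn m K).1.map F.σ)ᵀ *ᵥ v.2.1, v.2.2) := rfl

/-- the linear map `a ↦ a + D a'`. -/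
def zEL (V₀ : Type) [AddCommGroup V₀] [Module K V₀] {m : ℕ} (D : Matrix (Fin m) (Fin m) K) :
    SV K V₀ m →ₗ[K] SV K V₀ m where
  toFun v := (v.1 + D *ᵥ v.2.1, v.2.1, v.2.2)
  map_add' u v := by
    simp only [Prod.fst_add, Prod.snd_add, mulVec_add, Prod.mk_add_mk, Prod.mk.injEq, and_true]
    abel
  map_smul' c v := by
    simp only [Prod.smul_fst, Prod.smul_snd, mulVec_smul, RingHom.id_apply, Prod.smul_mk, smul_add]

/-- the linear map `a' ↦ a' + D a`. -/
def zFL (V₀ : Type) [AddCommGroup V₀] [Module K V₀] {m : ℕ} (D : Matrix (Fin m) (Fin m) K) :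
    SV K V₀ m →ₗ[K] SV K V₀ m where
  toFun v := (v.1, v.2.1 + D *ᵥ v.1, v.2.2)
  map_add' u v := by
    simp only [Prod.fst_add, Prod.snd_add, mulVec_add, Prod.mk_add_mk, Prod.mk.injEq, and_true,
      true_and]
    abel
  map_smul' c v := by
    simp only [Prod.smul_fst, Prod.smul_snd, mulVec_smul, RingHom.id_apply, Prod.smul_mk, smul_add]

/-- `z_D`: `(a, a', v) ↦ (a + D a', a', v)`. -/
def zE (V₀ : Type) [AddCommGroup V₀] [Module K V₀] {m : ℕ} (D : Matrix (Fin m) (Fin m) K) :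
    SV K V₀ m ≃ₗ[K] SV K V₀ m :=
  LinearEquiv.ofLinearMap (zEL V₀ D) (zEL V₀ (-D))
    (LinearMap.ext fun v => by simp [zEL, neg_mulVec])
    (LinearMap.ext fun v => by simp [zEL, neg_mulVec])

/-- `z'_D`: `(a, a', v) ↦ (a, a' + D a, v)`. -/
def zF (V₀ : Type) [AddCommGroup V₀] [Module K V₀] {m : ℕ} (D : Matrix (Fin m) (Fin m) K) :
    SV K V₀ m ≃ₗ[K] SV K V₀ m :=
  LinearEquiv.ofLinearMap (zFL V₀ D) (zFL V₀ (-D))
    (LinearMap.ext fun v => by simp [zFL, neg_mulVec])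
    (LinearMap.ext fun v => by simp [zFL, neg_mulVec])

theorem zE_apply (D : Matrix (Fin m) (Fin m) K) (v : SV K V₀ m) :
    zE V₀ D v = (v.1 + D *ᵥ v.2.1, v.2.1, v.2.2) := rfl

theorem zF_apply (D : Matrix (Fin m) (Fin m) K) (v : SV K V₀ m) :
    zF V₀ D v = (v.1, v.2.1 + D *ᵥ v.1, v.2.2) := rfl

/-- the exchange of `E` and `E'`. -/
def swp (F : FD K) (V₀ : Type) [AddCommGroup V₀] [Module K V₀] (m : ℕ) :
    SV K V₀ m ≃ₗ[K] SV K V₀ m where
  toFun v := (F.ε • v.2.1, v.1, v.2.2)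
  invFun v := (v.2.1, F.ε • v.1, v.2.2)
  map_add' u v := by simp
  map_smul' c v := by
    simp only [Prod.smul_fst, Prod.smul_snd, RingHom.id_apply, Prod.smul_mk, Prod.mk.injEq,
      and_true]
    exact smul_comm _ _ _
  left_inv v := by
    simp only [smul_smul, F.ee, one_smul]
  right_inv v := by
    simp only [smul_smul, F.ee, one_smul]

theorem swp_apply (v : SV K V₀ m) : swp F V₀ m v = (F.ε • v.2.1, v.1, v.2.2) := rfl

/-- `ε`-alternating (skew) matrices with diagonal entries in `Λ`. -/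
def DM (F : FD K) {m : ℕ} (D : Matrix (Fin m) (Fin m) K) : Prop :=
  (∀ i j, D i j = -(F.ε * F.σ (D j i))) ∧ ∀ i, D i i ∈ F.Λ

end std

/-- The conditions on the standard space: `K` finite, `V₀` non-degenerate of dimension at most `2`,
at least three hyperbolic planes, and dimension at least `7` in the orthogonal case. -/
structure Cls {K : Type} [Field K] {F : FD K} {V₀ : Type} [AddCommGroup V₀] [Module K V₀]
    (S₀ : Sq F V₀) (m : ℕ) : Prop where
  finK : Finite K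
  finV : Module.Finite K V₀
  nd : ∀ v, (∀ w, S₀.B v w = 0) → v = 0
  dim : Module.finrank K V₀ ≤ 2
  rk : 3 ≤ m
  big : F.Λ ≠ ⊥ ∨ 7 ≤ 2 * m + Module.finrank K V₀

/-- `P` is a classical group: the quotient by the scalars of the group generated by the Siegel
transformations of a symplectic, unitary or orthogonal space over a finite field, the orthogonal
sum of at least three hyperbolic planes and a non-degenerate space of dimension at most two. -/
def IsCl (P : Type u) [Group P] : Prop :=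
  ∃ (K : Type) (_ : Field K) (F : FD K) (V₀ : Type) (_ : AddCommGroup V₀) (_ : Module K V₀)
    (S₀ : Sq F V₀) (m : ℕ) (π : (S₀.std m).D ⊤ →* P), Cls S₀ m ∧ Function.Surjective π ∧
    ∀ g : (S₀.std m).D ⊤, π g = 1 ↔ ∃ c : K, ∀ v, (g : SV K V₀ m ≃ₗ[K] SV K V₀ m) v = c • v

end Pool.Agent.Lib.MP66ef6b.CL
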