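import Pool.Agent.Lib.MP_66ef6b_al.CL.SpecD
import Pool.Agent.Lib.MP_66ef6b_al.CL.Std
import Pool.Agent.Lib.MP_66ef6b_al.PL.CBK

section
set_option autoImplicit false

/-! # MP_66ef6b_al, THEOREM L2: module A2F -/

namespace Pool.Agent.Lib.MP66ef6b.CL

theorem specA2F (hAT2 : SpecAT2) (hBAS : SpecBAS) (hPK2 : SpecPK2) (hCNJ : SpecCNJ) : SpecA2F := by
  intro δ hδ hδ1
  have hδ' : 0 < δ ^ 2 / 2 := by positivity
  have hδ'1 : δ ^ 2 / 2 ≤ 1 := by nlinarith
  obtain ⟨q₁, R₁, hB⟩ := hBAS (δ ^ 2 / 2) hδ' hδ'1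
  obtain ⟨k₀, hk₀⟩ := pow_unbounded_of_one_lt (2 / δ ^ 2) (one_lt_two : (1 : ℝ) < 2)
  set k : ℕ := k₀ + R₁ + 1 with hk
  refine ⟨10 * k + 5, ?_⟩
  intro K _ F V₀ _ _ S₀ m hC f hf hrank
  obtain ⟨T₀, hT₀, hcard, hT⟩ := hAT2 K F V₀ S₀ m k hC (by omega) f hf hrank
  have := hC.finK
  have h2K : 2 ≤ Nat.card K := by
    have : Nontrivial K := inferInstance
    exact Finite.one_lt_card
  have hfin : Finite T₀ := by
    apply Nat.finite_of_card_ne_zero
    rw [hcard]
    exact pow_ne_zero _ (by omega)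
  refine hPK2 K F V₀ S₀ m δ hδ hδ1 f hf T₀ hT₀ hfin ?_ ?_
  · rw [hcard]
    have h1 : (2 : ℝ) ^ k₀ ≤ ((Nat.card K ^ k : ℕ) : ℝ) := by
      have h2 : 2 ^ k₀ ≤ Nat.card K ^ k :=
        (Nat.pow_le_pow_right (by norm_num) (by omega)).trans (Nat.pow_le_pow_left h2K k)
      exact_mod_cast h2
    have h3 : 0 < δ ^ 2 := by positivity
    have h4 : 2 / δ ^ 2 < ((Nat.card K ^ k : ℕ) : ℝ) := hk₀.trans_le h1
    rw [div_lt_iff₀ h3] at h4
    linarith
  · intro t ht ht1
    obtain ⟨g, hg, h, hgh, hcen, hr⟩ := hT t ht ht1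
    refine (hCNJ K F V₀ S₀ m (δ ^ 2 / 2) _ g).1 hg ?_
    rw [hgh]
    refine hB K F V₀ S₀ m hC h hcen (Or.inr fun a => ?_)
    have := hr a
    omega

end Pool.Agent.Lib.MP66ef6b.CL
end

section
set_option autoImplicit false

/-!
# MP_66ef6b_al, THEOREM L2 (helper14): the hypothesis on the composition factors
-/

namespace Pool.Agent.Lib.MP66ef6b.CL

universe u

/-- `T` is an alternating group, a group `PSL_n(q)` or a classical group `IsCl`. -/
def IsAC (T : Type u) [Group T] : Prop :=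
  (∃ n : ℕ, Nonempty (T ≃* alternatingGroup (Fin n))) ∨ PL.IsPSL T ∨ IsCl T

/-- Every non-abelian composition factor `T` of `K` such that `E₀` embeds in the automorphism group of
`T` is an alternating group, a group `PSL_n(q)` or a classical group. -/
def ACFactors {G : Type u} [Group G] (E₀ : Subgroup G) (K : Type u) [Group K] : Prop :=
  ∀ (A : Subgroup K) (B : Subgroup A) [B.Normal], A.IsSubnormal → IsSimpleGroup (A ⧸ B) →
    (∃ x y : A ⧸ B, x * y ≠ y * x) →
    (∃ φ : E₀ →* MulAut (A ⧸ B), Function.Injective φ) → IsAC (A ⧸ B)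

/-- For some finite subgroup `E₀`, every finite subgroup of `G` is contained in a finite subgroup
`K` such that every non-abelian composition factor `T` of `K` for which `E₀` embeds in `Aut(T)` is
an alternating group, a group `PSL_n(q)` or a classical group. -/
def LocAC (G : Type u) [Group G] : Prop :=
  ∃ E₀ : Subgroup G, Finite E₀ ∧
    ∀ E : Subgroup G, Finite E → ∃ K : Subgroup G, Finite K ∧ E ≤ K ∧ ACFactors E₀ K

end Pool.Agent.Lib.MP66ef6b.CL
end

section
set_option autoImplicit false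

/-!
# MP_66ef6b_al, THEOREM L2, module AT2 (helper21)
-/

namespace Pool.Agent.Lib.MP66ef6b.CL

namespace AT2M

open Matrix
open PL (SLn)

section mat

variable {K : Type} [Field K] {k m : ℕ}

/-- the 0-1 matrix of a map of indices. -/
def J (K : Type) [Field K] {k m : ℕ} (r : Fin k → Fin m) : Matrix (Fin m) (Fin k) K :=
  Matrix.of fun p i => if p = r i then 1 else 0

theorem J_apply (r : Fin k → Fin m) (p : Fin m) (i : Fin k) :
    J K r p i = if p = r i then 1 else 0 := rfl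

theorem Jt_J_zero {r s : Fin k → Fin m} (h : ∀ i j, r i ≠ s j) : (J K r)ᵀ * J K s = 0 := by
  ext i j
  rw [Matrix.mul_apply, Matrix.zero_apply]
  refine Finset.sum_eq_zero fun p _ => ?_
  rw [transpose_apply, J_apply, J_apply]
  by_cases h1 : p = r i
  · rw [if_neg (fun h2 => h i j (h1.symm.trans h2)), mul_zero]
  · rw [if_neg h1, zero_mul]

theorem Jt_J_one {r : Fin k → Fin m} (h : Function.Injective r) : (J K r)ᵀ * J K r = 1 := by
  ext i j
  rw [Matrix.mul_apply, Matrix.one_apply]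
  rw [Finset.sum_eq_single (r i)]
  · rw [transpose_apply, J_apply, J_apply, if_pos rfl, one_mul]
    by_cases h1 : i = j
    · rw [if_pos h1, if_pos (by rw [h1])]
    · rw [if_neg h1, if_neg (fun h2 => h1 (h h2))]
  · intro p _ hp
    rw [transpose_apply, J_apply, if_neg hp, zero_mul]
  · intro h1
    exact absurd (Finset.mem_univ _) h1

/-- `R A Sᵀ` -/
def N (r s : Fin k → Fin m) (A : Matrix (Fin k) (Fin k) K) : Matrix (Fin m) (Fin m) K :=
  J K r * A * (J K s)ᵀ

theorem N_mul {r s r' s' : Fin k → Fin m} (h : ∀ i j, s i ≠ r' j)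
    (A B : Matrix (Fin k) (Fin k) K) : N r s A * N r' s' B = 0 := by
  have h1 : N r s A * N r' s' B = J K r * A * ((J K s)ᵀ * J K r') * (B * (J K s')ᵀ) := by
    simp only [N, Matrix.mul_assoc]
  rw [h1, Jt_J_zero h, Matrix.mul_zero, Matrix.zero_mul]

theorem N_add (r s : Fin k → Fin m) (A B : Matrix (Fin k) (Fin k) K) :
    N r s (A + B) = N r s A + N r s B := by
  rw [N, N, N, Matrix.mul_add, Matrix.add_mul]

theorem N_neg (r s : Fin k → Fin m) (A : Matrix (Fin k) (Fin k) K) :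
    N r s (-A) = -N r s A := by
  rw [N, N, Matrix.mul_neg, Matrix.neg_mul]

theorem N_zero (r s : Fin k → Fin m) : N r s (0 : Matrix (Fin k) (Fin k) K) = 0 := by
  rw [N, Matrix.mul_zero, Matrix.zero_mul]

theorem N_det {r s : Fin k → Fin m} (h : ∀ i j, s i ≠ r j) (A : Matrix (Fin k) (Fin k) K) :
    (1 + N r s A).det = 1 := by
  rw [N, Matrix.mul_assoc, Matrix.det_one_add_mul_comm, Matrix.mul_assoc, Jt_J_zero h,
    Matrix.mul_zero, add_zero, det_one]

/-- the elements `τ_A`. -/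
def tau {r s : Fin k → Fin m} (h : ∀ i j, s i ≠ r j) (A : Matrix (Fin k) (Fin k) K) :
    SLn m K := ⟨1 + N r s A, N_det h A⟩

theorem tau_coe {r s : Fin k → Fin m} (h : ∀ i j, s i ≠ r j) (A : Matrix (Fin k) (Fin k) K) :
    (tau h A).1 = 1 + N r s A := rfl

theorem tau_mul {r s : Fin k → Fin m} (h : ∀ i j, s i ≠ r j)
    (A B : Matrix (Fin k) (Fin k) K) : tau h A * tau h B = tau h (A + B) := by
  apply Subtype.ext
  have h1 : (tau h A * tau h B).1 = (tau h A).1 * (tau h B).1 := rfl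
  rw [h1, tau_coe, tau_coe, tau_coe, N_add, mul_add, add_mul, add_mul, N_mul h]
  simp only [one_mul, mul_one]
  abel

theorem tau_zero {r s : Fin k → Fin m} (h : ∀ i j, s i ≠ r j) :
    tau h (0 : Matrix (Fin k) (Fin k) K) = 1 := by
  apply Subtype.ext
  rw [tau_coe, N_zero, add_zero]
  rfl

theorem tau_inv {r s : Fin k → Fin m} (h : ∀ i j, s i ≠ r j)
    (A : Matrix (Fin k) (Fin k) K) : (tau h A)⁻¹ = tau h (-A) := by
  rw [inv_eq_iff_mul_eq_one, tau_mul, add_neg_cancel, tau_zero]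

theorem tau_inj {r s : Fin k → Fin m} (h : ∀ i j, s i ≠ r j) (hr : Function.Injective r)
    (hs : Function.Injective s) {A : Matrix (Fin k) (Fin k) K} (hA : tau h A = 1) : A = 0 := by
  have h1 : (1 : Matrix (Fin m) (Fin m) K) + N r s A = 1 := by
    rw [← tau_coe h A, hA]
    rfl
  have h2 : N r s A = 0 := by
    have := h1
    rwa [add_eq_left] at this
  have h3 : (J K r)ᵀ * N r s A * J K s = A := by
    have : (J K r)ᵀ * N r s A * J K s = ((J K r)ᵀ * J K r) * A * ((J K s)ᵀ * J K s) := by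
      simp only [N, Matrix.mul_assoc]
    rw [this, Jt_J_one hr, Jt_J_one hs, Matrix.one_mul, Matrix.mul_one]
  rw [← h3, h2, Matrix.mul_zero, Matrix.zero_mul]

end mat

section sp

variable {K : Type} [Field K] {F : FD K} {V₀ : Type} [AddCommGroup V₀] [Module K V₀]
  {S₀ : Sq F V₀} {k m : ℕ}

theorem J_mulVec (r : Fin k → Fin m) (c : Fin k → K) :
    J K r *ᵥ c = ∑ i, c i • (Pi.single (r i) (1 : K) : Fin m → K) := by
  ext p
  rw [Matrix.mulVec, dotProduct, Finset.sum_apply]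
  refine Finset.sum_congr rfl fun i _ => ?_
  rw [J_apply, Pi.smul_apply, Pi.single_apply, smul_eq_mul, mul_comm]

theorem Jt_mulVec (r : Fin k → Fin m) (a : Fin m → K) (i : Fin k) :
    ((J K r)ᵀ *ᵥ a) i = a (r i) := by
  rw [Matrix.mulVec, dotProduct, Finset.sum_eq_single (r i)]
  · rw [transpose_apply, J_apply, if_pos rfl, one_mul]
  · intro p _ hp
    rw [transpose_apply, J_apply, if_neg hp, zero_mul]
  · intro h1
    exact absurd (Finset.mem_univ _) h1

theorem B_eV (v : SV K V₀ m) (i : Fin m) : (S₀.std m).B v (eV K V₀ i) = F.ε * v.2.1 i := by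
  rw [std_B]
  simp only [eV, Pi.zero_apply, map_zero, S₀.B_zero_right, add_zero]
  have h1 : (fun j => F.σ ((Pi.single i (1 : K) : Fin m → K) j)) = Pi.single i 1 := by
    ext j
    by_cases h : j = i
    · subst h
      simp
    · simp [Pi.single_eq_of_ne h]
  rw [h1]
  have h2 : (fun _ : Fin m => (0 : K)) = 0 := rfl
  rw [h2, dotProduct_zero, zero_add, dotProduct_single, mul_one]

theorem B_fV (v : SV K V₀ m) (i : Fin m) : (S₀.std m).B v (fV K V₀ i) = v.1 i := by
  rw [std_B]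
  simp only [fV, Pi.zero_apply, map_zero, S₀.B_zero_right, add_zero]
  have h1 : (fun j => F.σ ((Pi.single i (1 : K) : Fin m → K) j)) = Pi.single i 1 := by
    ext j
    by_cases h : j = i
    · subst h
      simp
    · simp [Pi.single_eq_of_ne h]
  rw [h1]
  have h2 : (fun _ : Fin m => (0 : K)) = 0 := rfl
  rw [h2, dotProduct_zero, mul_zero, add_zero, dotProduct_single, mul_one]

/-- the vector `β(y)` -/
def be (S₀ : Sq F V₀) (s : Fin k → Fin m) (y : SV K V₀ m) : Fin k → K :=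
  fun j => (S₀.std m).B y (fV K V₀ (s j))

/-- the vector `γ(y)` -/
def ga (S₀ : Sq F V₀) (r : Fin k → Fin m) (y : SV K V₀ m) : Fin k → K :=
  fun j => F.ε * (S₀.std m).B y (eV K V₀ (r j))

theorem map_J (r : Fin k → Fin m) : (J K r).map F.σ = J K r := by
  ext p i
  rw [Matrix.map_apply, J_apply]
  split_ifs <;> simp

theorem lam_tau {r s : Fin k → Fin m} (h : ∀ i j, s i ≠ r j) (A : Matrix (Fin k) (Fin k) K)
    (y : SV K V₀ m) : lam F V₀ m (tau h A) y =
      y + ∑ i, (A *ᵥ be S₀ s y) i • eV K V₀ (r i) -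
        ∑ j, (((A.map F.σ)ᵀ) *ᵥ ga S₀ r y) j • fV K V₀ (s j) := by
  have hb : be S₀ s y = (J K s)ᵀ *ᵥ y.1 := by
    ext j
    rw [Jt_mulVec, be, B_fV]
  have hg : ga S₀ r y = (J K r)ᵀ *ᵥ y.2.1 := by
    ext j
    rw [Jt_mulVec, ga, B_eV, ← mul_assoc, F.ee, one_mul]
  have h1 : ∑ i, (A *ᵥ be S₀ s y) i • eV K V₀ (r i) = ((N r s A) *ᵥ y.1, 0, 0) := by
    rw [N, ← mulVec_mulVec, ← mulVec_mulVec, ← hb, J_mulVec]
    refine Prod.ext ?_ (Prod.ext ?_ ?_)
    · simp only [Prod.fst_sum, Prod.smul_fst, eV]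
    · simp only [Prod.snd_sum, Prod.fst_sum, Prod.smul_fst, Prod.smul_snd, eV, smul_zero,
        Finset.sum_const_zero]
    · simp only [Prod.snd_sum, Prod.smul_snd, eV, smul_zero,
        Finset.sum_const_zero]
  have h2 : ∑ j, (((A.map F.σ)ᵀ) *ᵥ ga S₀ r y) j • fV K V₀ (s j) =
      (0, ((N r s A).map F.σ)ᵀ *ᵥ y.2.1, 0) := by
    have h3 : ((N r s A).map F.σ)ᵀ = J K s * ((A.map F.σ)ᵀ * (J K r)ᵀ) := by
      rw [N, Matrix.map_mul, Matrix.map_mul, transpose_map, map_J, map_J, transpose_mul,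
        transpose_mul, transpose_transpose]
    rw [h3, ← mulVec_mulVec, ← mulVec_mulVec, ← hg, J_mulVec]
    refine Prod.ext ?_ (Prod.ext ?_ ?_)
    · simp only [Prod.fst_sum, Prod.smul_fst, fV, smul_zero, Finset.sum_const_zero]
    · simp only [Prod.snd_sum, Prod.fst_sum, Prod.smul_fst, Prod.smul_snd, fV]
    · simp only [Prod.snd_sum, Prod.smul_snd, fV, smul_zero,
        Finset.sum_const_zero]
  rw [lam_apply, tau_inv, tau_coe, tau_coe, h1, h2, N_neg]
  have h4 : ((1 + -N r s A).map F.σ)ᵀ = 1 - ((N r s A).map F.σ)ᵀ := by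
    ext p q
    simp only [transpose_apply, Matrix.map_apply, Matrix.add_apply, Matrix.neg_apply, map_add,
      map_neg, Matrix.sub_apply, Matrix.one_apply]
    by_cases hpq : q = p
    · rw [if_pos hpq, if_pos hpq.symm, map_one]
      ring
    · rw [if_neg hpq, if_neg (Ne.symm hpq), map_zero]
      ring
  rw [h4, add_mulVec, sub_mulVec, one_mulVec, one_mulVec]
  refine Prod.ext ?_ (Prod.ext ?_ ?_)
  · simp
  · simp
  · simp

theorem conj_tau {r s r' s' : Fin k → Fin m} (h : ∀ i j, s i ≠ r j) (h' : ∀ i j, s' i ≠ r' j)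
    (A : Matrix (Fin k) (Fin k) K) {f : SV K V₀ m ≃ₗ[K] SV K V₀ m} (hf : f ∈ (S₀.std m).Iso)
    (hr : ∀ i, f (eV K V₀ (r i)) = eV K V₀ (r' i)) (hs : ∀ i, f (fV K V₀ (s i)) = fV K V₀ (s' i)) :
    f * lam F V₀ m (tau h A) * f⁻¹ = lam F V₀ m (tau h' A) := by
  have h0 : ∀ v, f (f⁻¹ v) = v := fun v => by
    rw [← LinearEquiv.mul_apply, mul_inv_cancel, LinearEquiv.coe_one, id_eq]
  have h1 : ∀ v u, (S₀.std m).B (f⁻¹ v) u = (S₀.std m).B v (f u) := fun v u => by
    rw [← hf.1, h0]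
  refine LinearEquiv.ext fun y => ?_
  rw [LinearEquiv.mul_apply, LinearEquiv.mul_apply, lam_tau (S₀ := S₀) h, lam_tau (S₀ := S₀) h',
    map_sub, map_add, h0, map_sum, map_sum]
  have hb : be S₀ s (f⁻¹ y) = be S₀ s' y := by
    ext j
    rw [be, be, h1, hs]
  have hg : ga S₀ r (f⁻¹ y) = ga S₀ r' y := by
    ext j
    rw [ga, ga, h1, hr]
  simp only [map_smul, hr, hs, hb, hg]

theorem lam_inj {g : SLn m K} (h : lam F V₀ m g = 1) : g = 1 := by
  apply Subtype.ext
  have h1 : ∀ a : Fin m → K, g.1 *ᵥ a = a := by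
    intro a
    have h2 : lam F V₀ m g (a, 0, 0) = (a, 0, 0) := by
      rw [h]
      rfl
    rw [lam_apply] at h2
    exact congrArg Prod.fst h2
  have h3 : (g.1 : Matrix (Fin m) (Fin m) K) = 1 := by
    apply Matrix.toLin'.injective
    refine LinearMap.ext fun a => ?_
    rw [toLin'_apply, h1, toLin'_apply, one_mulVec]
  exact h3

end sp

/-! ### the two tuples -/

section two

variable {K : Type} [Field K] {F : FD K} {V₀ : Type} [AddCommGroup V₀] [Module K V₀]
  {S₀ : Sq F V₀} {k m : ℕ}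

theorem wtn_gen (hWTN : SpecWTN) (hnd : S₀.Nd) {ι : Type} [Fintype ι]
    (hι : Fintype.card ι + 1 ≤ m) (u u' : ι → SV K V₀ m)
    (h1 : ∀ i, (S₀.std m).Sg (u i)) (h2 : ∀ i j, (S₀.std m).B (u i) (u j) = 0)
    (h3 : LinearIndependent K u)
    (h1' : ∀ i, (S₀.std m).Sg (u' i)) (h2' : ∀ i j, (S₀.std m).B (u' i) (u' j) = 0)
    (h3' : LinearIndependent K u') :
    ∃ g ∈ (S₀.std m).D ⊤, ∀ i, g (u i) = u' i := by
  classical
  let e := Fintype.equivFin ι
  obtain ⟨g, hg, hgu⟩ := hWTN K F V₀ S₀ m (Fintype.card ι) hι hnd (fun i => u (e.symm i))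
    (fun i => h1 _) (fun i j => h2 _ _) (h3.comp _ e.symm.injective)
  obtain ⟨g', hg', hgu'⟩ := hWTN K F V₀ S₀ m (Fintype.card ι) hι hnd (fun i => u' (e.symm i))
    (fun i => h1' _) (fun i j => h2' _ _) (h3'.comp _ e.symm.injective)
  refine ⟨g'⁻¹ * g, mul_mem (inv_mem hg') hg, fun i => ?_⟩
  have h4 := hgu (e i)
  have h5 := hgu' (e i)
  simp only [Equiv.symm_apply_apply] at h4 h5
  rw [LinearEquiv.mul_apply, h4, ← h5, ← LinearEquiv.mul_apply, inv_mul_cancel,
    LinearEquiv.coe_one, id_eq]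

/-- the standard tuple -/
def st (K V₀ : Type) [Field K] [AddCommGroup V₀] {m k : ℕ}
    (α : (Fin k ⊕ Fin k) ⊕ (Fin k ⊕ Fin k) → Fin m) :
    (Fin k ⊕ Fin k) ⊕ (Fin k ⊕ Fin k) → SV K V₀ m
  | Sum.inl (Sum.inl i) => eV K V₀ (α (Sum.inl (Sum.inl i)))
  | Sum.inl (Sum.inr i) => fV K V₀ (α (Sum.inl (Sum.inr i)))
  | Sum.inr (Sum.inl i) => eV K V₀ (α (Sum.inr (Sum.inl i)))
  | Sum.inr (Sum.inr i) => fV K V₀ (α (Sum.inr (Sum.inr i)))

theorem st_cases (α : (Fin k ⊕ Fin k) ⊕ (Fin k ⊕ Fin k) → Fin m)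
    (x : (Fin k ⊕ Fin k) ⊕ (Fin k ⊕ Fin k)) :
    (st K V₀ α x = eV K V₀ (α x)) ∨ (st K V₀ α x = fV K V₀ (α x)) := by
  rcases x with (i | i) | (i | i)
  · exact Or.inl rfl
  · exact Or.inr rfl
  · exact Or.inl rfl
  · exact Or.inr rfl

/-- the sum of the two components. -/
def Phi (K V₀ : Type) [Field K] [AddCommGroup V₀] [Module K V₀] (m : ℕ) :
    SV K V₀ m →ₗ[K] (Fin m → K) where
  toFun v := v.1 + v.2.1
  map_add' u v := by
    simp only [Prod.fst_add, Prod.snd_add]
    abel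
  map_smul' c v := by
    simp only [Prod.smul_fst, Prod.smul_snd, RingHom.id_apply, smul_add]

theorem st_li {α : (Fin k ⊕ Fin k) ⊕ (Fin k ⊕ Fin k) → Fin m} (hα : Function.Injective α) :
    LinearIndependent K (st K V₀ α) := by
  apply LinearIndependent.of_comp (Phi K V₀ m)
  have h1 : (Phi K V₀ m) ∘ (st K V₀ α) = (Pi.basisFun K (Fin m)) ∘ α := by
    funext x
    rw [Function.comp_apply, Function.comp_apply, Pi.basisFun_apply]
    rcases st_cases (K := K) (V₀ := V₀) α x with h | h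
    · rw [h]
      exact add_zero _
    · rw [h]
      exact zero_add _
  rw [h1]
  exact (Pi.basisFun K (Fin m)).linearIndependent.comp _ hα

theorem sg_e (i : Fin m) : (S₀.std m).Sg (eV K V₀ i) := by
  rw [Sq.Sg, std_q]
  have h1 : (fun j => F.σ ((eV K V₀ i : SV K V₀ m).2.1 j)) = 0 := by
    funext j
    exact map_zero _
  rw [h1, dotProduct_zero, zero_add]
  have h2 : (eV K V₀ i : SV K V₀ m).2.2 = 0 := rfl
  rw [h2, S₀.q_zero]
  exact F.Λ.zero_mem

theorem sg_f (i : Fin m) : (S₀.std m).Sg (fV K V₀ i) := by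
  rw [Sq.Sg, std_q]
  have h1 : (fV K V₀ i : SV K V₀ m).1 = 0 := rfl
  rw [h1, zero_dotProduct, zero_add]
  have h2 : (fV K V₀ i : SV K V₀ m).2.2 = 0 := rfl
  rw [h2, S₀.q_zero]
  exact F.Λ.zero_mem

theorem st_sg (α : (Fin k ⊕ Fin k) ⊕ (Fin k ⊕ Fin k) → Fin m)
    (x : (Fin k ⊕ Fin k) ⊕ (Fin k ⊕ Fin k)) : (S₀.std m).Sg (st K V₀ α x) := by
  rcases st_cases (K := K) (V₀ := V₀) α x with h | h
  · rw [h]
    exact sg_e _
  · rw [h]
    exact sg_f _

theorem st_B {α : (Fin k ⊕ Fin k) ⊕ (Fin k ⊕ Fin k) → Fin m} (hα : Function.Injective α)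
    (x y : (Fin k ⊕ Fin k) ⊕ (Fin k ⊕ Fin k)) :
    (S₀.std m).B (st K V₀ α x) (st K V₀ α y) = 0 := by
  by_cases hxy : x = y
  · subst hxy
    exact (st_sg α x).self
  · have h1 : α y ≠ α x := fun h => hxy (hα h.symm)
    rcases st_cases (K := K) (V₀ := V₀) α y with h | h
    · rw [h, B_eV]
      rcases st_cases (K := K) (V₀ := V₀) α x with h' | h'
      · rw [h']
        exact mul_zero _
      · rw [h']
        have h2 : (fV K V₀ (α x) : SV K V₀ m).2.1 (α y) = 0 := Pi.single_eq_of_ne h1 _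
        rw [h2, mul_zero]
    · rw [h, B_fV]
      rcases st_cases (K := K) (V₀ := V₀) α x with h' | h'
      · rw [h']
        exact Pi.single_eq_of_ne h1 _
      · rw [h']
        rfl

end two

/-! ### ranks -/

section rk

variable {K : Type} [Field K] {k m : ℕ}

theorem rank_ge {r s r' s' : Fin k → Fin m} (hr : Function.Injective r)
    (hs : Function.Injective s) (hr' : Function.Injective r') (hs' : Function.Injective s')
    (h1 : ∀ i j, r i ≠ r' j) (h2 : ∀ i j, s i ≠ s' j)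
    {A : Matrix (Fin k) (Fin k) K} (hA : IsUnit A) :
    2 * k ≤ (N r' s' A - N r s A).rank := by
  let P : Matrix (Fin m) (Fin k ⊕ Fin k) K := Matrix.fromCols (J K r') (J K r)
  let Q : Matrix (Fin m) (Fin k ⊕ Fin k) K := Matrix.fromCols (J K s') (J K s)
  have h3 : Pᵀ * (N r' s' A - N r s A) * Q = Matrix.fromBlocks A 0 0 (-A) := by
    have h4 : Pᵀ = Matrix.fromRows (J K r')ᵀ (J K r)ᵀ := Matrix.transpose_fromCols _ _
    rw [h4, Matrix.fromRows_mul, Matrix.fromRows_mul_fromCols]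
    have e1 : (J K r')ᵀ * (N r' s' A - N r s A) = A * (J K s')ᵀ := by
      rw [Matrix.mul_sub, N, N, ← Matrix.mul_assoc, ← Matrix.mul_assoc, ← Matrix.mul_assoc,
        ← Matrix.mul_assoc, Jt_J_one hr', Jt_J_zero (fun i j => (h1 j i).symm), Matrix.one_mul,
        Matrix.zero_mul, Matrix.zero_mul, sub_zero]
    have e2 : (J K r)ᵀ * (N r' s' A - N r s A) = -(A * (J K s)ᵀ) := by
      rw [Matrix.mul_sub, N, N, ← Matrix.mul_assoc, ← Matrix.mul_assoc, ← Matrix.mul_assoc,
        ← Matrix.mul_assoc, Jt_J_one hr, Jt_J_zero h1, Matrix.one_mul,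
        Matrix.zero_mul, Matrix.zero_mul, zero_sub]
    rw [e1, e2, Matrix.neg_mul, Matrix.neg_mul, Matrix.mul_assoc, Matrix.mul_assoc,
      Matrix.mul_assoc, Matrix.mul_assoc, Jt_J_one hs', Jt_J_one hs, Jt_J_zero h2,
      Jt_J_zero (fun i j => (h2 j i).symm), Matrix.mul_one, Matrix.mul_zero, neg_zero]
  have h5 : IsUnit (Matrix.fromBlocks A 0 0 (-A)) := by
    rw [Matrix.isUnit_iff_isUnit_det, Matrix.det_fromBlocks_zero₂₁]
    have h6 : IsUnit A.det := (Matrix.isUnit_iff_isUnit_det A).1 hA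
    have h7 : IsUnit (-A).det := (Matrix.isUnit_iff_isUnit_det (-A)).1 hA.neg
    exact h6.mul h7
  have h6 := Matrix.rank_of_isUnit _ h5
  rw [← h3, Fintype.card_sum, Fintype.card_fin] at h6
  have h7 := Matrix.rank_mul_le_left (Pᵀ * (N r' s' A - N r s A)) Q
  have h8 := Matrix.rank_mul_le_right Pᵀ (N r' s' A - N r s A)
  omega

theorem rank_full {n : ℕ} {M : Matrix (Fin n) (Fin n) K} (hM : M * M = 0) {c : K} (hc : c ≠ 0) :
    (c • (1 : Matrix (Fin n) (Fin n) K) + M).rank = n := by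
  have h1 : IsUnit (c • (1 : Matrix (Fin n) (Fin n) K) + M) := by
    have h2 : (c • (1 : Matrix (Fin n) (Fin n) K) + M) * (c⁻¹ • (1 - c⁻¹ • M)) = 1 := by
      rw [mul_smul_comm, add_mul, mul_sub, mul_sub, mul_one, mul_one, mul_smul_comm,
        mul_smul_comm, hM, smul_zero, sub_zero, smul_mul_assoc, one_mul, smul_smul,
        inv_mul_cancel₀ hc, one_smul, sub_add_cancel, smul_smul, inv_mul_cancel₀ hc, one_smul]
    exact IsUnit.of_mul_eq_one _ h2
  rw [Matrix.rank_of_isUnit _ h1, Fintype.card_fin]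

end rk

theorem exists_alpha {k m : ℕ} (h : 4 * k ≤ m) :
    ∃ α : (Fin k ⊕ Fin k) ⊕ (Fin k ⊕ Fin k) → Fin m, Function.Injective α := by
  have h1 : Fintype.card ((Fin k ⊕ Fin k) ⊕ (Fin k ⊕ Fin k)) ≤ Fintype.card (Fin m) := by
    simp only [Fintype.card_sum, Fintype.card_fin]
    omega
  obtain ⟨e⟩ := Function.Embedding.nonempty_of_card_le h1
  exact ⟨e, e.injective⟩

end AT2M

open AT2M in
theorem specAT2 (hGRF : SpecGRF) (hWTN : SpecWTN) (hLMD : SpecLMD) (hEXT : PL.SpecEXT) :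
    SpecAT2 := by
  intro K _ F V₀ _ _ S₀ m k hC hk f hf hrk
  classical
  haveI := hC.finK
  haveI := hC.finV
  have hfI : f ∈ (S₀.std m).Iso := Sq.D_le_Iso ⊤ hf
  have hm : 4 * k + 1 ≤ m := by
    have h1 := hrk 0
    have h2 := Submodule.finrank_le (LinearMap.range (f.toLinearMap - (0 : K) • LinearMap.id))
    have h3 : Module.finrank K (SV K V₀ m) = m + (m + Module.finrank K V₀) := by
      rw [Module.finrank_prod, Module.finrank_prod, Module.finrank_fin_fun]
    have h4 := hC.dim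
    omega
  obtain ⟨u, hu, hu2⟩ := hGRF K F V₀ S₀ m k hC f hfI hrk
  let e : Fin k ⊕ Fin k ≃ Fin (2 * k) := finSumFinEquiv.trans (finCongr (by omega))
  let p : (Fin k ⊕ Fin k) ⊕ (Fin k ⊕ Fin k) → SV K V₀ m :=
    Sum.elim (fun x => u (e x)) (fun x => f (u (e x)))
  have hp : LinearIndependent K p := by
    have h1 := hu.comp _ (Equiv.sumCongr e e).injective
    have h2 : (Sum.elim u fun i => f (u i)) ∘ (Equiv.sumCongr e e) = p := by
      funext x
      rcases x with x | x <;> rfl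
    rw [h2] at h1
    exact h1
  have hpS : ∀ x, (S₀.std m).Sg (p x) := by
    rintro (x | x)
    · exact (hu2 (e x) (e x)).1
    · have h1 := F.Λ.add_mem (hfI.2 (u (e x))) (hu2 (e x) (e x)).1
      rwa [sub_add_cancel] at h1
  have hpB : ∀ x y, (S₀.std m).B (p x) (p y) = 0 := by
    rintro (x | x) (y | y)
    · exact (hu2 (e x) (e y)).2.1
    · exact (hu2 (e x) (e y)).2.2
    · exact Sq.B_eq_zero_swap _ (hu2 (e y) (e x)).2.2
    · exact (hfI.1 (u (e x)) (u (e y))).trans (hu2 (e x) (e y)).2.1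
  obtain ⟨α, hα⟩ := exists_alpha (k := k) (m := m) (by omega)
  obtain ⟨g, hg, hgp⟩ := wtn_gen hWTN hC.nd (m := m)
    (by simp only [Fintype.card_sum, Fintype.card_fin]; omega) p (st K V₀ α) hpS hpB hp
    (st_sg α) (st_B hα) (st_li hα)
  have hgI : g ∈ (S₀.std m).Iso := Sq.D_le_Iso ⊤ hg
  let r : Fin k → Fin m := fun i => α (Sum.inl (Sum.inl i))
  let s : Fin k → Fin m := fun i => α (Sum.inl (Sum.inr i))
  let r' : Fin k → Fin m := fun i => α (Sum.inr (Sum.inl i))
  let s' : Fin k → Fin m := fun i => α (Sum.inr (Sum.inr i))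
  have hr : Function.Injective r := fun i j h => by simpa using hα h
  have hs : Function.Injective s := fun i j h => by simpa using hα h
  have hr' : Function.Injective r' := fun i j h => by simpa using hα h
  have hs' : Function.Injective s' := fun i j h => by simpa using hα h
  have hsr : ∀ i j, s i ≠ r j := fun i j h => by simpa using hα h
  have hsr' : ∀ i j, s' i ≠ r' j := fun i j h => by simpa using hα h
  have hs'r : ∀ i j, s' i ≠ r j := fun i j h => by simpa using hα h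
  have hs_r' : ∀ i j, s i ≠ r' j := fun i j h => by simpa using hα h
  have hrr' : ∀ i j, r i ≠ r' j := fun i j h => by simpa using hα h
  have hss' : ∀ i j, s i ≠ s' j := fun i j h => by simpa using hα h
  -- the conjugate of `f`
  have hf1 : g * f * g⁻¹ ∈ (S₀.std m).Iso := mul_mem (mul_mem hgI hfI) (inv_mem hgI)
  have hginv : ∀ x, g⁻¹ (st K V₀ α x) = p x := fun x => by
    rw [← hgp, ← LinearEquiv.mul_apply, inv_mul_cancel, LinearEquiv.coe_one, id_eq]
  have hfr : ∀ i, (g * f * g⁻¹) (eV K V₀ (r i)) = eV K V₀ (r' i) := by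
    intro i
    have h1 : (eV K V₀ (r i) : SV K V₀ m) = st K V₀ α (Sum.inl (Sum.inl i)) := rfl
    rw [LinearEquiv.mul_apply, LinearEquiv.mul_apply, h1, hginv]
    exact hgp (Sum.inr (Sum.inl i))
  have hfs : ∀ i, (g * f * g⁻¹) (fV K V₀ (s i)) = fV K V₀ (s' i) := by
    intro i
    have h1 : (fV K V₀ (s i) : SV K V₀ m) = st K V₀ α (Sum.inl (Sum.inr i)) := rfl
    rw [LinearEquiv.mul_apply, LinearEquiv.mul_apply, h1, hginv]
    exact hgp (Sum.inr (Sum.inr i))
  -- the extension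
  obtain ⟨L, _, _, hLf, hLk⟩ := hEXT K k hk
  haveI : Module.Finite K L := Module.finite_of_finrank_pos (by omega)
  let b : Module.Basis (Fin k) K L := Module.finBasisOfFinrankEq K L hLk
  let φ : Multiplicative L →* (SV K V₀ m ≃ₗ[K] SV K V₀ m) :=
    { toFun := fun x => g⁻¹ * lam F V₀ m (tau hsr (Algebra.leftMulMatrix b x.toAdd)) * g
      map_one' := by
        rw [toAdd_one, map_zero, tau_zero, map_one, mul_one, inv_mul_cancel]
      map_mul' := fun x y => by
        rw [toAdd_mul, map_add, ← tau_mul, map_mul]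
        group }
  have hφ : Function.Injective φ := by
    rw [injective_iff_map_eq_one]
    intro x hx
    have h1 : g⁻¹ * lam F V₀ m (tau hsr (Algebra.leftMulMatrix b x.toAdd)) * g = 1 := hx
    have h2 : lam F V₀ m (tau hsr (Algebra.leftMulMatrix b x.toAdd)) = 1 := by
      have h3 := congrArg (fun z => g * z * g⁻¹) h1
      simp only [mul_one, mul_inv_cancel] at h3
      rw [← h3]
      group
    have h3 := tau_inj hsr hr hs (lam_inj h2)
    have h4 : x.toAdd = 0 := Algebra.leftMulMatrix_injective b (by rw [h3, map_zero])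
    exact h4
  have hlam : ∀ h : PL.SLn m K, lam F V₀ m h ∈ (S₀.std m).D ⊤ := fun h =>
    (hLMD K F V₀ S₀ m).2.1.1 ⟨h, rfl⟩
  refine ⟨φ.range, ?_, ?_, ?_⟩
  · rintro _ ⟨x, rfl⟩
    exact mul_mem (mul_mem (inv_mem hg) (hlam _)) hg
  · rw [← Nat.card_congr (MonoidHom.ofInjective hφ).toEquiv]
    have h1 : Nat.card (Multiplicative L) = Nat.card L := Nat.card_congr Multiplicative.toAdd
    rw [h1, Module.natCard_eq_pow_finrank (K := K), hLk]
  · rintro _ ⟨x, rfl⟩ hx
    have hx0 : x.toAdd ≠ 0 := by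
      intro h
      apply hx
      have : x = 1 := h
      rw [this, map_one]
    have hA : IsUnit (Algebra.leftMulMatrix b x.toAdd) :=
      (IsUnit.mk0 _ hx0).map (Algebra.leftMulMatrix b)
    set A := Algebra.leftMulMatrix b x.toAdd with hAdef
    have hh : (tau hsr' A * (tau hsr A)⁻¹).1 =
        (1 : Matrix (Fin m) (Fin m) K) + (N r' s' A - N r s A) := by
      have h1 : (tau hsr' A * (tau hsr A)⁻¹).1 = (tau hsr' A).1 * ((tau hsr A)⁻¹).1 := rfl
      have h2 : (1 + N r' s' A) * (1 + -N r s A) =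
          (1 : Matrix (Fin m) (Fin m) K) + (N r' s' A - N r s A) - N r' s' A * N r s A := by
        noncomm_ring
      rw [h1, tau_inv, tau_coe, tau_coe, N_neg, h2, N_mul hs'r, sub_zero]
    have hM : (N r' s' A - N r s A) * (N r' s' A - N r s A) = 0 := by
      rw [mul_sub, sub_mul, sub_mul, N_mul hsr', N_mul hs_r', N_mul hs'r, N_mul hsr]
      simp
    have hrank : ∀ a : K, 2 * k ≤ ((tau hsr' A * (tau hsr A)⁻¹).1 -
        a • (1 : Matrix (Fin m) (Fin m) K)).rank := by
      intro a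
      rw [hh]
      by_cases ha : a = 1
      · rw [ha, one_smul, add_sub_cancel_left]
        exact rank_ge hr hs hr' hs' hrr' hss' hA
      · have h1 : (1 : Matrix (Fin m) (Fin m) K) + (N r' s' A - N r s A) - a • 1 =
            (1 - a) • (1 : Matrix (Fin m) (Fin m) K) + (N r' s' A - N r s A) := by
          rw [sub_smul, one_smul]
          abel
        rw [h1, rank_full hM (sub_ne_zero.2 (Ne.symm ha))]
        omega
    refine ⟨g, hg, tau hsr' A * (tau hsr A)⁻¹, ?_, ?_, hrank⟩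
    · have h1 : φ x = g⁻¹ * lam F V₀ m (tau hsr A) * g := rfl
      rw [h1, map_mul, map_inv, ← conj_tau (S₀ := S₀) hsr hsr' A hf1 hfr hfs]
      group
    · intro hc
      obtain ⟨c, -, hc1⟩ := Matrix.SpecialLinearGroup.mem_center_iff.1 hc
      have h2 := hrank c
      have h3 : (tau hsr' A * (tau hsr A)⁻¹).1 - c • (1 : Matrix (Fin m) (Fin m) K) = 0 := by
        have h4 : (tau hsr' A * (tau hsr A)⁻¹).1 = Matrix.scalar (Fin m) c := hc1.symm
        rw [h4, Matrix.smul_one_eq_diagonal]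
        exact sub_self _
      rw [h3, Matrix.rank_zero] at h2
      omega

end Pool.Agent.Lib.MP66ef6b.CL
end

section
/-!
# CL, module AVS: a subspace avoiding `q + 1` subspaces
-/
set_option autoImplicit false

namespace Pool.Agent.Lib.MP66ef6b.CL

namespace AVSM

variable {K V : Type} [Field K] [Finite K] [AddCommGroup V] [Module K V] [Module.Finite K V]

lemma exists_avoid (W : Submodule K V) (Y : Option K → Submodule K V)
    (h : ∀ i, Module.finrank K (Y i) + 2 ≤ Module.finrank K W) : ∃ x ∈ W, ∀ i, x ∉ Y i := by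
  classical
  by_contra hcon
  push Not at hcon
  haveI : Finite V := Module.finite_of_finite K
  haveI : Fintype K := Fintype.ofFinite K
  choose! i hi using hcon
  have h1 : Nat.card W ≤ Nat.card (Σ j : Option K, Y j) :=
    Nat.card_le_card_of_injective (fun x : W => (⟨i x.1, ⟨x.1, hi x.1 x.2⟩⟩ : Σ j : Option K, Y j))
      (fun x y hxy => by
        have h2 : ∀ (p q : Σ j : Option K, Y j), p = q → (p.2 : V) = (q.2 : V) := by
          rintro p q rfl; rfl
        exact Subtype.ext (h2 _ _ hxy))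
  rw [Nat.card_sigma] at h1
  have hq : 2 ≤ Nat.card K := Finite.one_lt_card
  have h3 : ∀ j : Option K, Nat.card (Y j) ≤ Nat.card K ^ (Module.finrank K W - 2) := fun j => by
    rw [Module.natCard_eq_pow_finrank (K := K) (V := Y j)]
    exact Nat.pow_le_pow_right (by omega) (by have := h j; omega)
  have h4 : ∑ j : Option K, Nat.card (Y j) ≤ (Nat.card K + 1) * Nat.card K ^ (Module.finrank K W - 2) := by
    refine (Finset.sum_le_card_nsmul _ _ _ (fun j _ => h3 j)).trans (le_of_eq ?_)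
    rw [Finset.card_univ, Fintype.card_option, smul_eq_mul, ← Nat.card_eq_fintype_card]
  have h5 : Nat.card W = Nat.card K ^ 2 * Nat.card K ^ (Module.finrank K W - 2) := by
    rw [Module.natCard_eq_pow_finrank (K := K) (V := W), ← pow_add]
    congr 1
    have := h none
    omega
  have h6 : 0 < Nat.card K ^ (Module.finrank K W - 2) := Nat.pow_pos (by omega)
  rw [h5] at h1
  have h7 := Nat.le_of_mul_le_mul_right (h1.trans h4) h6
  nlinarith

lemma step (W : Submodule K V) (B : Option K → Submodule K V)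
    (hB : ∀ i, Module.finrank K (B i) + 6 ≤ Module.finrank K W) (j : ℕ) (hj : j ≤ 5) :
    ∃ X : Submodule K V, X ≤ W ∧ Module.finrank K X = j ∧ ∀ i, Disjoint X (B i) := by
  induction j with
  | zero => exact ⟨⊥, bot_le, by simp, fun i => disjoint_bot_left⟩
  | succ j ih =>
    obtain ⟨X, hXW, hXj, hXB⟩ := ih (by omega)
    obtain ⟨x, hxW, hx⟩ := exists_avoid W (fun i => X ⊔ B i) (fun i => by
      have h1 := Submodule.finrank_add_le_finrank_add_finrank X (B i)
      have h2 := hB i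
      omega)
    have hxX : x ∉ X := fun h => hx none (Submodule.mem_sup_left h)
    refine ⟨X ⊔ Submodule.span K {x}, sup_le hXW ((Submodule.span_singleton_le_iff_mem x W).2 hxW),
      ?_, fun i => ?_⟩
    · have hx0 : x ≠ 0 := fun h => hxX (h ▸ X.zero_mem)
      have hdis : X ⊓ Submodule.span K {x} = ⊥ := by
        rw [eq_bot_iff]
        rintro y ⟨hy1, hy2⟩
        obtain ⟨c, rfl⟩ := Submodule.mem_span_singleton.1 hy2
        by_cases hc : c = 0
        · simp [hc]
        · exact absurd ((Submodule.smul_mem_iff X hc).1 hy1) hxX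
      have h1 := Submodule.finrank_sup_add_finrank_inf_eq X (Submodule.span K {x})
      rw [hdis, finrank_bot, finrank_span_singleton hx0] at h1
      omega
    · rw [Submodule.disjoint_def]
      intro y hy hyB
      obtain ⟨u, hu, v, hv, rfl⟩ := Submodule.mem_sup.1 hy
      obtain ⟨c, rfl⟩ := Submodule.mem_span_singleton.1 hv
      by_cases hc : c = 0
      · subst hc
        rw [zero_smul, add_zero] at hyB ⊢
        exact (Submodule.disjoint_def.1 (hXB i)) u hu hyB
      · exfalso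
        apply hx i
        have h1 : c • x = (-u) + (u + c • x) := by abel
        have h2 : c • x ∈ X ⊔ B i := by
          rw [h1]
          exact Submodule.add_mem_sup (X.neg_mem hu) hyB
        exact (Submodule.smul_mem_iff _ hc).1 h2

end AVSM

theorem specAVS : SpecAVS := by
  intro K V _ _ _ _ _ W B hB
  exact AVSM.step W B hB 5 le_rfl

end Pool.Agent.Lib.MP66ef6b.CL
end

section
set_option autoImplicit false

/-!
# MP_66ef6b_al, THEOREM L2, module BAS: elements of `SL_m(K)`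
-/

namespace Pool.Agent.Lib.MP66ef6b.CL

open PL (SLn fx)

namespace BASM

/-- `SL_m(K)` as a subgroup of `Γ`. -/
def hom {K : Type} [Field K] {F : FD K} {V₀ : Type} [AddCommGroup V₀] [Module K V₀]
    (m : ℕ) (Γ : Subgroup (SV K V₀ m ≃ₗ[K] SV K V₀ m)) (h : lamS F V₀ m ≤ Γ) : SLn m K →* Γ :=
  (lam F V₀ m).codRestrict Γ (fun g => h ⟨g, rfl⟩)

theorem hom_coe {K : Type} [Field K] {F : FD K} {V₀ : Type} [AddCommGroup V₀] [Module K V₀]
    (m : ℕ) (Γ : Subgroup (SV K V₀ m ≃ₗ[K] SV K V₀ m)) (h : lamS F V₀ m ≤ Γ) (g : SLn m K) :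
    (hom m Γ h g : SV K V₀ m ≃ₗ[K] SV K V₀ m) = lam F V₀ m g := rfl

theorem fx_single {K : Type} [Field K] {F : FD K} {V₀ : Type} [AddCommGroup V₀] [Module K V₀]
    (m : ℕ) (Γ : Subgroup (SV K V₀ m ≃ₗ[K] SV K V₀ m)) (h : lamS F V₀ m ≤ Γ) (Ω : Type)
    [MulAction Γ Ω] (f : SLn m K) :
    letI := MulAction.compHom Ω (hom m Γ h)
    fx Ω {f} = fy Γ Ω {lam F V₀ m f} := by
  letI := MulAction.compHom Ω (hom m Γ h)
  ext ω
  constructor
  · intro hω γ hγ
    have h1 : γ = hom m Γ h f := Subtype.ext hγ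
    rw [h1]
    exact hω f rfl
  · intro hω a ha
    rw [Set.mem_singleton_iff] at ha
    rw [ha]
    exact hω (hom m Γ h f) rfl

theorem fx_univ {K : Type} [Field K] {F : FD K} {V₀ : Type} [AddCommGroup V₀] [Module K V₀]
    (m : ℕ) (Γ : Subgroup (SV K V₀ m ≃ₗ[K] SV K V₀ m)) (h : lamS F V₀ m ≤ Γ) (Ω : Type)
    [MulAction Γ Ω] :
    letI := MulAction.compHom Ω (hom m Γ h)
    fx Ω (Set.univ : Set (SLn m K)) = fy Γ Ω (lamS F V₀ m : Set (SV K V₀ m ≃ₗ[K] SV K V₀ m)) := by
  letI := MulAction.compHom Ω (hom m Γ h)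
  ext ω
  constructor
  · intro hω γ hγ
    obtain ⟨g, hg⟩ := hγ
    have h1 : γ = hom m Γ h g := Subtype.ext hg.symm
    rw [h1]
    exact hω g trivial
  · intro hω a _
    exact hω (hom m Γ h a) ⟨a, rfl⟩

end BASM

open BASM in
theorem specBAS (hFXR : SpecFXR) (hCLI : SpecCLI) (hLMD : SpecLMD) : SpecBAS := by
  intro δ hδ hδ1
  obtain ⟨q1, R1, h1⟩ := hFXR (δ / 2) (by linarith) (by linarith)
  obtain ⟨N, hN⟩ := exists_nat_gt (12 / δ)
  refine ⟨max q1 N, max R1 N, ?_⟩
  intro K _ F V₀ _ _ S₀ m hC f hf hor Ω _ _ _ hfix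
  have := hC.finK
  have hK : 2 ≤ Nat.card K := Finite.one_lt_card
  obtain ⟨-, ⟨hΓ, -⟩, -⟩ := hLMD K F V₀ S₀ m
  letI := MulAction.compHom Ω (hom m ((S₀.std m).D ⊤) hΓ)
  have h2 := h1 m K Ω f hf (by
    rcases hor with h | h
    · exact Or.inl ((le_max_left _ _).trans h)
    · exact Or.inr fun a => (le_max_left _ _).trans_lt (h a))
  rw [fx_single m _ hΓ Ω f, fx_univ m _ hΓ Ω] at h2
  have h3 := hCLI K F V₀ S₀ m hC Ω
  rw [hfix, Set.ncard_empty, mul_zero, zero_add] at h3
  have hpow : N ≤ Nat.card K ^ m := by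
    rcases hor with h | h
    · calc N ≤ Nat.card K := (le_max_right _ _).trans h
        _ = Nat.card K ^ 1 := (pow_one _).symm
        _ ≤ Nat.card K ^ m := Nat.pow_le_pow_right (by omega) (by have := hC.rk; omega)
    · have h4 := h 0
      have h5 : (f.1 - (0 : K) • (1 : Matrix (Fin m) (Fin m) K)).rank ≤ m := Matrix.rank_le_width _
      have h6 : N ≤ m := by
        have := le_max_right R1 N
        omega
      calc N ≤ m := h6
        _ ≤ 2 ^ m := Nat.lt_two_pow_self.le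
        _ ≤ Nat.card K ^ m := Nat.pow_le_pow_left hK m
  have hΩ : (0 : ℝ) < Nat.card Ω := by exact_mod_cast Nat.card_pos
  have h3' : (Nat.card K ^ m : ℝ) * ((fy ((S₀.std m).D ⊤) Ω
      (lamS F V₀ m : Set (SV K V₀ m ≃ₗ[K] SV K V₀ m))).ncard : ℝ) ≤ 6 * Nat.card Ω := by
    exact_mod_cast h3
  have hpow' : 12 / δ < (Nat.card K ^ m : ℝ) := by
    refine hN.trans_le ?_
    exact_mod_cast hpow
  have hlt : ((fy ((S₀.std m).D ⊤) Ω
      (lamS F V₀ m : Set (SV K V₀ m ≃ₗ[K] SV K V₀ m))).ncard : ℝ) < δ / 2 * Nat.card Ω := by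
    by_contra hcon
    rw [not_lt] at hcon
    have h7 : (12 / δ) * (δ / 2 * Nat.card Ω) < (Nat.card K ^ m : ℝ) * (δ / 2 * Nat.card Ω) :=
      mul_lt_mul_of_pos_right hpow' (by positivity)
    have h8 : (12 / δ) * (δ / 2 * Nat.card Ω) = 6 * Nat.card Ω := by
      field_simp
      ring
    have h9 : (Nat.card K ^ m : ℝ) * (δ / 2 * Nat.card Ω) ≤ (Nat.card K ^ m : ℝ) *
        ((fy ((S₀.std m).D ⊤) Ω (lamS F V₀ m : Set (SV K V₀ m ≃ₗ[K] SV K V₀ m))).ncard : ℝ) :=
      mul_le_mul_of_nonneg_left hcon (by positivity)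
    linarith
  linarith

end Pool.Agent.Lib.MP66ef6b.CL
end

section
set_option autoImplicit false

/-! # Skew matrices are generated by the elementary ones. -/

namespace Pool.Agent.Lib.MP66ef6b.CL

namespace DMGM

open Matrix

theorem dm_gen' {K : Type} [Field K] (F : FD K) {m : ℕ}
    (H : AddSubgroup (Matrix (Fin m) (Fin m) K))
    (h1 : ∀ (i j : Fin m) (y : K), i ≠ j →
      Matrix.single i j y - Matrix.single j i (F.ε * F.σ y) ∈ H)
    (X : Matrix (Fin m) (Fin m) K) (hX : ∀ i j, X i j = -(F.ε * F.σ (X j i)))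
    (h2 : ∀ (i : Fin m), Matrix.single i i (X i i) ∈ H) : X ∈ H := by
  have e1 : X = ∑ i, ∑ j, ((if i < j then (Matrix.single i j (X i j) : Matrix (Fin m) (Fin m) K)
      else 0) + (if i = j then Matrix.single i j (X i j) else 0) +
      (if j < i then Matrix.single i j (X i j) else 0)) := by
    conv_lhs => rw [Matrix.matrix_eq_sum_single X]
    refine Finset.sum_congr rfl fun i _ => Finset.sum_congr rfl fun j _ => ?_
    rcases lt_trichotomy i j with h | h | h
    · rw [if_pos h, if_neg h.ne, if_neg h.not_gt, add_zero, add_zero]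
    · rw [if_neg h.not_lt, if_pos h, if_neg h.not_gt, zero_add, add_zero]
    · rw [if_neg h.not_gt, if_neg h.ne', if_pos h, zero_add, zero_add]
  have e2 : ∑ i, ∑ j, (if j < i then (Matrix.single i j (X i j) : Matrix (Fin m) (Fin m) K)
      else 0) = ∑ i, ∑ j, (if i < j then (Matrix.single j i (X j i) : Matrix (Fin m) (Fin m) K)
      else 0) := Finset.sum_comm
  have e3 : X = ∑ i, ∑ j, ((if i < j then (Matrix.single i j (X i j) -
      Matrix.single j i (F.ε * F.σ (X i j)) : Matrix (Fin m) (Fin m) K)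
      else 0) + (if i = j then Matrix.single i j (X i j) else 0)) := by
    conv_lhs => rw [e1]
    simp only [Finset.sum_add_distrib]
    rw [e2]
    simp only [← Finset.sum_add_distrib]
    refine Finset.sum_congr rfl fun i _ => Finset.sum_congr rfl fun j _ => ?_
    by_cases h : i < j
    · rw [if_pos h, if_pos h, if_pos h, if_neg h.ne, add_zero, add_zero, hX j i,
        ← Matrix.single_neg, sub_eq_add_neg]
    · rw [if_neg h, if_neg h, if_neg h, add_zero]
  rw [e3]
  refine AddSubgroup.sum_mem _ fun i _ => AddSubgroup.sum_mem _ fun j _ => ?_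
  refine AddSubgroup.add_mem _ ?_ ?_
  · split_ifs with h
    · exact h1 i j _ h.ne
    · exact H.zero_mem
  · split_ifs with h
    · subst h
      exact h2 i
    · exact H.zero_mem

theorem dm_gen {K : Type} [Field K] (F : FD K) {m : ℕ}
    (H : AddSubgroup (Matrix (Fin m) (Fin m) K))
    (h1 : ∀ (i j : Fin m) (y : K), i ≠ j →
      Matrix.single i j y - Matrix.single j i (F.ε * F.σ y) ∈ H)
    (h2 : ∀ (i : Fin m) (l : K), l ∈ F.Λ → Matrix.single i i l ∈ H)
    (X : Matrix (Fin m) (Fin m) K) (hX : DM F X) : X ∈ H :=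
  dm_gen' F H h1 X hX.1 fun i => h2 i _ (hX.2 i)

end DMGM

end Pool.Agent.Lib.MP66ef6b.CL
end

section
set_option autoImplicit false

/-! # Module LMD. -/

namespace Pool.Agent.Lib.MP66ef6b.CL

namespace LMDM

open Matrix

variable {K : Type} [Field K] {F : FD K} {V₀ : Type} [AddCommGroup V₀] [Module K V₀]
  {S₀ : Sq F V₀} {m : ℕ}

/-- induction over transvections. -/
theorem tv_ind (P : PL.SLn m K → Prop) (h1 : P 1)
    (ht : ∀ (i j : Fin m) (hij : i ≠ j) (a : K), P (SpecialLinearGroup.transvection hij a))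
    (hm : ∀ A B, P A → P B → P (A * B)) (g : PL.SLn m K) : P g := by
  rcases Nat.lt_or_ge 1 m with h | h
  · have : Nontrivial (Fin m) := Fin.nontrivial_iff_two_le.2 h
    refine Matrix.SpecialLinearGroup.diagonal_transvection_induction' P g ?_ ht hm
    intro i j hij c hc
    rw [PL.FULM.diag_dec hij c hc]
    exact hm _ _ (ht _ _ _ _) (hm _ _ (ht _ _ _ _) (hm _ _ (ht _ _ _ _)
      (hm _ _ (ht _ _ _ _) (hm _ _ (ht _ _ _ _) (ht _ _ _ _)))))
  · have : Subsingleton (Fin m) := Fin.subsingleton_iff_le_one.2 h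
    have h2 : g = 1 := by
      apply Subtype.ext
      ext i j
      have hij : i = j := Subsingleton.elim _ _
      subst hij
      have hd := g.2
      rw [Matrix.det_eq_elem_of_subsingleton g.1 i] at hd
      rw [hd]
      simp
    rw [h2]
    exact h1

theorem B_e (y : SV K V₀ m) (i : Fin m) (c : K) :
    (S₀.std m).B y (c • eV K V₀ i) = F.ε * (F.σ c * y.2.1 i) := by
  rw [Sq.B_smul_right, std_B]
  have h1 : (fun k => F.σ ((eV K V₀ i).1 k)) = Pi.single i 1 := by
    funext k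
    simp only [eV]
    rw [Pi.single_apply]
    split_ifs <;> simp
  have h2 : (fun k => F.σ ((eV K V₀ i).2.1 k)) = 0 := by
    funext k
    simp [eV]
  rw [h1, h2]
  simp only [eV, dotProduct_zero, dotProduct_single, Sq.B_zero_right]
  ring

theorem B_f (y : SV K V₀ m) (i : Fin m) (c : K) :
    (S₀.std m).B y (c • fV K V₀ i) = F.σ c * y.1 i := by
  rw [Sq.B_smul_right, std_B]
  have h1 : (fun k => F.σ ((fV K V₀ i).2.1 k)) = Pi.single i 1 := by
    funext k
    simp only [fV]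
    rw [Pi.single_apply]
    split_ifs <;> simp
  have h2 : (fun k => F.σ ((fV K V₀ i).1 k)) = 0 := by
    funext k
    simp [fV]
  rw [h1, h2]
  simp only [fV, dotProduct_zero, dotProduct_single, Sq.B_zero_right]
  ring

theorem B_e1 (y : SV K V₀ m) (i : Fin m) :
    (S₀.std m).B y (eV K V₀ i) = F.ε * y.2.1 i := by
  have := B_e (S₀ := S₀) y i 1
  simpa using this

theorem B_f1 (y : SV K V₀ m) (i : Fin m) :
    (S₀.std m).B y (fV K V₀ i) = y.1 i := by
  have := B_f (S₀ := S₀) y i 1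
  simpa using this

theorem q_e (i : Fin m) : (S₀.std m).q (eV K V₀ i) = 0 := by
  rw [std_q]
  simp [eV, Sq.q_zero, dotProduct]

theorem q_f (i : Fin m) : (S₀.std m).q (fV K V₀ i) = 0 := by
  rw [std_q]
  simp [fV, Sq.q_zero]

theorem sg_e (i : Fin m) : (S₀.std m).Sg (eV K V₀ i) := by
  rw [Sq.Sg, q_e]
  exact F.Λ.zero_mem

theorem sg_f (i : Fin m) : (S₀.std m).Sg (fV K V₀ i) := by
  rw [Sq.Sg, q_f]
  exact F.Λ.zero_mem

theorem lam_tv {i j : Fin m} (hij : i ≠ j) (t : K) :
    lam F V₀ m (SpecialLinearGroup.transvection hij t) =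
      (S₀.std m).T (eV K V₀ i) ((-(F.ε * F.σ t)) • fV K V₀ j) 0 := by
  have had : (S₀.std m).Adm (eV K V₀ i) ((-(F.ε * F.σ t)) • fV K V₀ j) 0 := by
    refine ⟨sg_e i, ?_, ?_⟩
    · rw [B_f]
      simp [eV, hij.symm]
    · rw [Sq.q_smul, q_f]
      simp only [mul_zero, sub_zero]
      exact F.Λ.zero_mem
  refine LinearEquiv.ext fun y => ?_
  rw [Sq.T_apply had, B_e1, B_f, lam_apply, SpecialLinearGroup.transvection_inv]
  have h1 : F.σ (-(F.ε * F.σ t)) = -(F.ε * t) := by
    rw [map_neg, map_mul, F.se, F.inv]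
  have h2 : F.ε * F.ε = 1 := F.ee
  refine Prod.ext ?_ (Prod.ext ?_ ?_)
  · rw [SpecialLinearGroup.transvection_coe, add_mulVec, one_mulVec, single_mulVec]
    funext k
    simp only [eV, fV, Prod.fst_sub, Prod.fst_add, Prod.smul_fst, Pi.sub_apply, Pi.add_apply,
      Pi.smul_apply, smul_eq_mul, h1, Function.update_apply, Pi.zero_apply, Pi.single_apply]
    split_ifs with h
    · linear_combination (-t * y.1 j) * h2
    · ring
  · have h3 : ((SpecialLinearGroup.transvection hij (-t) : PL.SLn m K).1.map F.σ)ᵀ =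
        1 + Matrix.single j i (-F.σ t) := by
      rw [SpecialLinearGroup.transvection_coe]
      ext a b
      simp only [transpose_apply, map_apply, Matrix.add_apply, map_add, one_apply, single_apply]
      by_cases hab : a = b
      · subst hab
        by_cases hj : j = a
        · subst hj
          by_cases hi : i = j
          · simp [hi]
          · simp [hi]
        · simp [hj]
      · have hba : b ≠ a := fun h => hab h.symm
        by_cases hj : j = a
        · by_cases hi : i = b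
          · simp [hi, hj, hab, hba]
          · simp [hi, hj, hab, hba]
        · simp [hj, hab, hba]
    rw [h3, add_mulVec, one_mulVec, single_mulVec]
    funext k
    simp only [eV, fV, Prod.snd_sub, Prod.snd_add, Prod.smul_snd, Prod.smul_fst, Prod.fst_sub,
      Prod.fst_add, Pi.sub_apply, Pi.add_apply,
      Pi.smul_apply, smul_eq_mul, Function.update_apply, Pi.zero_apply, Pi.single_apply]
    split_ifs with h
    · linear_combination (F.σ t * y.2.1 i) * h2
    · ring
  · simp [eV, fV]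

theorem lam_mem (g : PL.SLn m K) : lam F V₀ m g ∈ (S₀.std m).D ⊤ := by
  refine tv_ind (fun g => lam F V₀ m g ∈ (S₀.std m).D ⊤) ?_ ?_ ?_ g
  · rw [map_one]
    exact one_mem _
  · intro i j hij a
    rw [lam_tv (S₀ := S₀) hij a]
    refine Sq.T_mem_G ⟨sg_e i, ?_, ?_⟩
    · rw [B_f]
      simp [eV, hij.symm]
    · rw [Sq.q_smul, q_f]
      simp only [mul_zero, sub_zero]
      exact F.Λ.zero_mem
  · intro A B hA hB
    rw [map_mul]
    exact mul_mem hA hB

theorem zE_mul (D D' : Matrix (Fin m) (Fin m) K) : zE V₀ (D + D') = zE V₀ D * zE V₀ D' := by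
  refine LinearEquiv.ext fun y => ?_
  rw [LinearEquiv.mul_apply, zE_apply, zE_apply, zE_apply]
  simp only [add_mulVec, Prod.mk.injEq, and_true]
  abel

theorem zF_mul (D D' : Matrix (Fin m) (Fin m) K) : zF V₀ (D + D') = zF V₀ D * zF V₀ D' := by
  refine LinearEquiv.ext fun y => ?_
  rw [LinearEquiv.mul_apply, zF_apply, zF_apply, zF_apply]
  simp only [add_mulVec, Prod.mk.injEq, and_true, true_and]
  abel

theorem zE_zero : zE V₀ (0 : Matrix (Fin m) (Fin m) K) = 1 := by
  refine LinearEquiv.ext fun y => ?_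
  rw [zE_apply, zero_mulVec, add_zero]
  rfl

theorem zF_zero : zF V₀ (0 : Matrix (Fin m) (Fin m) K) = 1 := by
  refine LinearEquiv.ext fun y => ?_
  rw [zF_apply, zero_mulVec, add_zero]
  rfl

/-- the additive group of the `D` with `z_D ∈ Γ`. -/
def ZG (Γ : Subgroup (SV K V₀ m ≃ₗ[K] SV K V₀ m)) : AddSubgroup (Matrix (Fin m) (Fin m) K) where
  carrier := {D | zE V₀ D ∈ Γ}
  add_mem' := by
    intro D D' h h'
    rw [Set.mem_ofPred_eq, zE_mul]
    exact mul_mem h h'
  zero_mem' := by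
    rw [Set.mem_ofPred_eq, zE_zero]
    exact one_mem _
  neg_mem' := by
    intro D h
    have h1 : zE V₀ (-D) = (zE V₀ D)⁻¹ := by
      rw [eq_inv_iff_mul_eq_one, ← zE_mul, neg_add_cancel, zE_zero]
    rw [Set.mem_ofPred_eq, h1]
    exact inv_mem h

/-- the additive group of the `D` with `z'_D ∈ Γ`. -/
def ZG' (Γ : Subgroup (SV K V₀ m ≃ₗ[K] SV K V₀ m)) : AddSubgroup (Matrix (Fin m) (Fin m) K) where
  carrier := {D | zF V₀ D ∈ Γ}
  add_mem' := by
    intro D D' h h'
    rw [Set.mem_ofPred_eq, zF_mul]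
    exact mul_mem h h'
  zero_mem' := by
    rw [Set.mem_ofPred_eq, zF_zero]
    exact one_mem _
  neg_mem' := by
    intro D h
    have h1 : zF V₀ (-D) = (zF V₀ D)⁻¹ := by
      rw [eq_inv_iff_mul_eq_one, ← zF_mul, neg_add_cancel, zF_zero]
    rw [Set.mem_ofPred_eq, h1]
    exact inv_mem h

theorem zE_elm {i j : Fin m} (hij : i ≠ j) (t : K) :
    zE V₀ (Matrix.single i j t - Matrix.single j i (F.ε * F.σ t)) ∈ (S₀.std m).D ⊤ := by
  have had : (S₀.std m).Adm ((F.ε * F.σ t) • eV K V₀ j) (eV K V₀ i) 0 := by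
    refine ⟨(sg_e j).smul _, ?_, ?_⟩
    · rw [Sq.B_smul_left, B_e1]
      simp [eV]
    · rw [q_e, sub_zero]
      exact F.Λ.zero_mem
  have h : zE V₀ (Matrix.single i j t - Matrix.single j i (F.ε * F.σ t)) =
      (S₀.std m).T ((F.ε * F.σ t) • eV K V₀ j) (eV K V₀ i) 0 := by
    refine LinearEquiv.ext fun y => ?_
    rw [Sq.T_apply had, B_e1, B_e, zE_apply]
    have h1 : F.σ (F.ε * F.σ t) = F.ε * t := by
      rw [map_mul, F.se, F.inv]
    have h2 : F.ε * F.ε = 1 := F.ee
    refine Prod.ext ?_ (Prod.ext ?_ ?_)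
    · rw [sub_mulVec, single_mulVec, single_mulVec]
      funext k
      simp only [eV, Prod.fst_sub, Prod.fst_add, Prod.smul_fst, Pi.sub_apply, Pi.add_apply,
        Pi.smul_apply, smul_eq_mul, h1, Function.update_apply, Pi.zero_apply, Pi.single_apply]
      split_ifs with hi hj
      · exact absurd (hi.symm.trans hj) hij
      · linear_combination (-t * y.2.1 j) * h2
      · linear_combination (F.ε * F.σ t * y.2.1 i) * h2
      · ring
    · simp [eV]
    · simp [eV]
  rw [h]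
  exact Sq.T_mem_G had

theorem zE_diag (i : Fin m) {l : K} (hl : l ∈ F.Λ) :
    zE V₀ (Matrix.single i i l) ∈ (S₀.std m).D ⊤ := by
  have had : (S₀.std m).Adm (eV K V₀ i) 0 (-l) := by
    refine ⟨sg_e i, Sq.B_zero_right _ _, ?_⟩
    rw [Sq.q_zero, sub_zero]
    exact F.Λ.neg_mem hl
  have h : zE V₀ (Matrix.single i i l) = (S₀.std m).T (eV K V₀ i) 0 (-l) := by
    refine LinearEquiv.ext fun y => ?_
    rw [Sq.T_apply had, B_e1, Sq.B_zero_right, zE_apply]
    have h2 : F.ε * F.ε = 1 := F.ee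
    refine Prod.ext ?_ (Prod.ext ?_ ?_)
    · rw [single_mulVec]
      funext k
      simp only [eV, Prod.fst_sub, Prod.fst_add, Prod.smul_fst, Pi.sub_apply, Pi.add_apply,
        Pi.smul_apply, smul_eq_mul, Function.update_apply, Pi.zero_apply, Pi.single_apply,
        smul_zero, Prod.fst_zero]
      split_ifs with hi
      · linear_combination (-l * y.2.1 i) * h2
      · ring
    · simp [eV]
    · simp [eV]
  rw [h]
  exact Sq.T_mem_G had

theorem zF_elm {i j : Fin m} (hij : i ≠ j) (t : K) :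
    zF V₀ (Matrix.single i j t - Matrix.single j i (F.ε * F.σ t)) ∈ (S₀.std m).D ⊤ := by
  have had : (S₀.std m).Adm ((F.σ t) • fV K V₀ j) (fV K V₀ i) 0 := by
    refine ⟨(sg_f j).smul _, ?_, ?_⟩
    · rw [Sq.B_smul_left, B_f1]
      simp [fV]
    · rw [q_f, sub_zero]
      exact F.Λ.zero_mem
  have h : zF V₀ (Matrix.single i j t - Matrix.single j i (F.ε * F.σ t)) =
      (S₀.std m).T ((F.σ t) • fV K V₀ j) (fV K V₀ i) 0 := by
    refine LinearEquiv.ext fun y => ?_
    rw [Sq.T_apply had, B_f1, B_f, zF_apply]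
    have h1 : F.σ (F.σ t) = t := F.inv t
    refine Prod.ext ?_ (Prod.ext ?_ ?_)
    · simp [fV]
    · rw [sub_mulVec, single_mulVec, single_mulVec]
      funext k
      simp only [fV, Prod.snd_sub, Prod.snd_add, Prod.smul_snd, Prod.smul_fst, Prod.fst_sub,
        Prod.fst_add, Pi.sub_apply, Pi.add_apply,
        Pi.smul_apply, smul_eq_mul, h1, Function.update_apply, Pi.zero_apply, Pi.single_apply]
      split_ifs with hi hj
      · exact absurd (hi.symm.trans hj) hij
      · ring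
      · ring
      · ring
    · simp [fV]
  rw [h]
  exact Sq.T_mem_G had

theorem zF_diag (i : Fin m) {l : K} (hl : l ∈ F.Λ) :
    zF V₀ (Matrix.single i i l) ∈ (S₀.std m).D ⊤ := by
  have had : (S₀.std m).Adm (fV K V₀ i) 0 (-(F.ε * l)) := by
    refine ⟨sg_f i, Sq.B_zero_right _ _, ?_⟩
    rw [Sq.q_zero, sub_zero]
    rcases F.typ with ⟨_, h, _⟩ | ⟨_, h, _⟩ | ⟨_, h, _⟩ <;> rw [h]
    · rw [one_mul]
      exact F.Λ.neg_mem hl
    · simpa using hl
    · simpa using hl
  have h : zF V₀ (Matrix.single i i l) = (S₀.std m).T (fV K V₀ i) 0 (-(F.ε * l)) := by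
    refine LinearEquiv.ext fun y => ?_
    rw [Sq.T_apply had, B_f1, Sq.B_zero_right, zF_apply]
    have h2 : F.ε * F.ε = 1 := F.ee
    refine Prod.ext ?_ (Prod.ext ?_ ?_)
    · simp [fV]
    · rw [single_mulVec]
      funext k
      simp only [fV, Prod.snd_sub, Prod.snd_add, Prod.smul_snd, Prod.smul_fst, Prod.fst_sub,
        Prod.fst_add, Pi.sub_apply, Pi.add_apply,
        Pi.smul_apply, smul_eq_mul, Function.update_apply, Pi.zero_apply, Pi.single_apply,
        smul_zero, Prod.snd_zero, Prod.fst_zero]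
      split_ifs with hi
      · linear_combination (-l * y.1 i) * h2
      · ring
    · simp [fV]
  rw [h]
  exact Sq.T_mem_G had

theorem ZE_mem {D : Matrix (Fin m) (Fin m) K} (hD : DM F D) :
    zE V₀ D ∈ (S₀.std m).D ⊤ :=
  DMGM.dm_gen F (ZG ((S₀.std m).D ⊤)) (fun _ _ y hij => zE_elm hij y)
    (fun i _ hl => zE_diag i hl) D hD

theorem ZF_mem {D : Matrix (Fin m) (Fin m) K} (hD : DM F D) :
    zF V₀ D ∈ (S₀.std m).D ⊤ :=
  DMGM.dm_gen F (ZG' ((S₀.std m).D ⊤)) (fun _ _ y hij => zF_elm hij y)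
    (fun i _ hl => zF_diag i hl) D hD

theorem swp_iso : swp F V₀ m ∈ (S₀.std m).Iso := by
  have h2 : F.ε * F.ε = 1 := F.ee
  refine ⟨fun v w => ?_, fun v => ?_⟩
  · rw [std_B, std_B, swp_apply, swp_apply]
    have h1 : (fun i => F.σ ((F.ε • w.2.1) i)) = F.ε • fun i => F.σ (w.2.1 i) := by
      funext i
      simp [F.se]
    simp only [h1, smul_dotProduct, dotProduct_smul, smul_eq_mul]
    linear_combination (v.1 ⬝ᵥ fun i => F.σ (w.2.1 i)) * h2
  · rw [std_q, std_q, swp_apply]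
    simp only [smul_dotProduct, smul_eq_mul]
    have h3 : (v.2.1 ⬝ᵥ fun i => F.σ (v.1 i)) = F.σ (v.1 ⬝ᵥ fun i => F.σ (v.2.1 i)) := by
      simp only [dotProduct, map_sum, map_mul, F.inv]
      exact Finset.sum_congr rfl fun i _ => mul_comm _ _
    rw [h3]
    have h4 := F.Λ.neg_mem (F.tr (v.1 ⬝ᵥ fun i => F.σ (v.2.1 i)))
    have h5 : F.ε * F.σ (v.1 ⬝ᵥ fun i => F.σ (v.2.1 i)) + S₀.q v.2.2 -
        ((v.1 ⬝ᵥ fun i => F.σ (v.2.1 i)) + S₀.q v.2.2) =
        -((v.1 ⬝ᵥ fun i => F.σ (v.2.1 i)) - F.ε * F.σ (v.1 ⬝ᵥ fun i => F.σ (v.2.1 i))) := by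
      ring
    rw [h5]
    exact h4

end LMDM

open LMDM in
theorem specLMD : SpecLMD := by
  intro K _ F V₀ _ _ S₀ m
  have h1 : lamS F V₀ m ≤ (S₀.std m).D ⊤ := by
    rintro _ ⟨g, rfl⟩
    exact lam_mem g
  have h2 : ZES F V₀ m ⊆ (S₀.std m).D ⊤ := by
    rintro _ ⟨D, hD, rfl⟩
    exact ZE_mem hD
  have h3 : ZFS F V₀ m ⊆ (S₀.std m).D ⊤ := by
    rintro _ ⟨D, hD, rfl⟩
    exact ZF_mem hD
  have h4 : NVE S₀ m ⊆ (S₀.std m).D ⊤ := by
    rintro _ ⟨a, v, c, h, rfl⟩
    exact Sq.T_mem_G h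
  have h5 : NVF S₀ m ⊆ (S₀.std m).D ⊤ := by
    rintro _ ⟨a, v, c, h, rfl⟩
    exact Sq.T_mem_G h
  refine ⟨?_, ⟨h1, h2, h3, h4, h5⟩, swp_iso⟩
  rintro g ((((h | h) | h) | h) | h)
  · exact h1 h
  · exact h2 h
  · exact h3 h
  · exact h4 h
  · exact h5 h

end Pool.Agent.Lib.MP66ef6b.CL
end

section
set_option autoImplicit false

/-!
# MP_66ef6b_al, THEOREM L2: module PRU
-/

namespace Pool.Agent.Lib.MP66ef6b.CL

open Matrix

namespace PRUM

section

variable {K : Type} [Field K] {F : FD K} {V₀ : Type} [AddCommGroup V₀] [Module K V₀]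
  {S₀ : Sq F V₀} {m : ℕ}

theorem B_ee (i j : Fin m) : (S₀.std m).B (eV K V₀ i) (eV K V₀ j) = 0 := by
  simp only [std_B, eV, single_dotProduct, zero_dotProduct, S₀.B_zero_left, Pi.zero_apply, map_zero,
    mul_zero, add_zero]

theorem B_ef (i j : Fin m) : (S₀.std m).B (eV K V₀ i) (fV K V₀ j) = if i = j then 1 else 0 := by
  simp only [std_B, eV, fV, single_dotProduct, zero_dotProduct, S₀.B_zero_left, mul_zero, add_zero,
    one_mul, Pi.single_apply]
  split_ifs <;> simp

theorem B_fe (i j : Fin m) : (S₀.std m).B (fV K V₀ i) (eV K V₀ j) = if i = j then F.ε else 0 := by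
  simp only [std_B, eV, fV, single_dotProduct, zero_dotProduct, S₀.B_zero_left, add_zero,
    zero_add, one_mul, Pi.single_apply]
  split_ifs <;> simp

theorem q_e (i : Fin m) : (S₀.std m).q (eV K V₀ i) = 0 := by
  simp only [std_q, eV, single_dotProduct, S₀.q_zero, Pi.zero_apply, map_zero, mul_zero, add_zero]

theorem sg_e (i : Fin m) : (S₀.std m).Sg (eV K V₀ i) := by
  rw [Sq.Sg, q_e]
  exact F.Λ.zero_mem

theorem sg_map {V : Type} [AddCommGroup V] [Module K V] {S : Sq F V} {g : V ≃ₗ[K] V}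
    (hg : g ∈ S.Iso) {x : V} (h : S.Sg x) : S.Sg (g x) := by
  have := F.Λ.add_mem (hg.2 x) h
  rwa [sub_add_cancel] at this

theorem li_map {V : Type} [AddCommGroup V] [Module K V] (g : V ≃ₗ[K] V) {x y : V}
    (h : LinearIndependent K ![x, y]) : LinearIndependent K ![g x, g y] := by
  rw [LinearIndependent.pair_iff] at h ⊢
  intro s t hst
  apply h s t
  apply g.injective
  rw [map_add, map_smul, map_smul, hst, map_zero]

theorem tps_map {V : Type} [AddCommGroup V] [Module K V] {S : Sq F V} {g : V ≃ₗ[K] V}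
    (hg : g ∈ S.Iso) {x y : V} (h : (x, y) ∈ S.TPs) : (g x, g y) ∈ S.TPs := by
  obtain ⟨h1, h2, h3, h4⟩ := h
  refine ⟨sg_map hg h1, sg_map hg h2, ?_, li_map g h4⟩
  change S.B (g x) (g y) = 0
  rw [hg.1]
  exact h3

theorem li_ee {i j : Fin m} (hij : i ≠ j) : LinearIndependent K ![eV K V₀ i, eV K V₀ j] := by
  rw [LinearIndependent.pair_iff]
  intro s t hst
  have h1 := congrArg (fun v : SV K V₀ m => v.1 i) hst
  have h2 := congrArg (fun v : SV K V₀ m => v.1 j) hst
  simp only [eV, Prod.fst_add, Prod.smul_fst, Prod.fst_zero, Pi.add_apply, Pi.smul_apply,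
    Pi.zero_apply, Pi.single_eq_same, Pi.single_eq_of_ne hij, Pi.single_eq_of_ne hij.symm,
    smul_eq_mul, mul_one, mul_zero, add_zero, zero_add] at h1 h2
  exact ⟨h1, h2⟩

/-- the second vector of the pair. -/
def zz (K V₀ : Type) [Field K] [AddCommGroup V₀] [Module K V₀] {m : ℕ} (j : Fin m) (a : K) :
    SV K V₀ m := a • eV K V₀ j + fV K V₀ j

theorem q_zz (j : Fin m) (a : K) : (S₀.std m).q (zz K V₀ j a) = a := by
  have h1 : (zz K V₀ j a).1 = Pi.single j a := by
    simp only [zz, eV, fV, Prod.fst_add, Prod.smul_fst, add_zero]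
    rw [← Pi.single_smul, smul_eq_mul, mul_one]
  have h2 : (zz K V₀ j a).2.1 = Pi.single j 1 := by
    simp only [zz, eV, fV, Prod.snd_add, Prod.smul_snd, Prod.fst_add, Prod.smul_fst, smul_zero,
      zero_add]
  have h3 : (zz K V₀ j a).2.2 = 0 := by
    simp only [zz, eV, fV, Prod.snd_add, Prod.smul_snd, smul_zero, zero_add]
  rw [std_q, h1, h2, h3, single_dotProduct, S₀.q_zero, Pi.single_eq_same, map_one, mul_one,
    add_zero]

theorem li_ez {i j : Fin m} (hij : i ≠ j) (a : K) :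
    LinearIndependent K ![eV K V₀ i, zz K V₀ j a] := by
  rw [LinearIndependent.pair_iff]
  intro s t hst
  have h1 := congrArg (fun v : SV K V₀ m => v.1 i) hst
  have h2 := congrArg (fun v : SV K V₀ m => v.2.1 j) hst
  simp only [zz, eV, fV, Prod.fst_add, Prod.snd_add, Prod.smul_fst, Prod.smul_snd, Prod.fst_zero,
    Prod.snd_zero, Pi.add_apply, Pi.smul_apply, Pi.zero_apply, Pi.single_eq_same,
    Pi.single_eq_of_ne hij, smul_eq_mul, mul_one, mul_zero, add_zero, zero_add] at h1 h2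
  exact ⟨h1, h2⟩

end

end PRUM

open PRUM

theorem specPRU (hWT2 : SpecWT2) : SpecPRU := by
  intro K _ F V₀ _ _ S₀ m hm hN x z hx hxz hli
  obtain ⟨k, rfl⟩ : ∃ k, m = k + 3 := ⟨m - 3, by omega⟩
  have h01 : (0 : Fin (k + 3)) ≠ 1 := by
    intro h
    have := congrArg Fin.val h
    simp at this
  have h02 : (0 : Fin (k + 3)) ≠ 2 := by
    intro h
    have := congrArg Fin.val h
    rw [show ((2 : Fin (k + 3)).val) = 2 from rfl] at this
    simp at this
  have h12 : (1 : Fin (k + 3)) ≠ 2 := by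
    intro h
    have := congrArg Fin.val h
    rw [show ((2 : Fin (k + 3)).val) = 2 from rfl, show ((1 : Fin (k + 3)).val) = 1 from rfl] at this
    omega
  obtain ⟨g, hg, hgx, hgz⟩ := hWT2 K F V₀ S₀ (k + 3) hm hN x z (eV K V₀ 0)
    (zz K V₀ 1 ((S₀.std (k + 3)).q z)) hx (sg_e _) hxz (by
      rw [zz, Sq.B_add_right, Sq.B_smul_right, B_ee, B_ef, if_neg h01]
      simp) hli (li_ez h01 _) (by
      rw [q_zz, sub_self]
      exact F.Λ.zero_mem)
  have hgi : g ∈ (S₀.std (k + 3)).Iso := Sq.D_le_Iso _ hg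
  have hgi' : g⁻¹ ∈ (S₀.std (k + 3)).Iso := inv_mem hgi
  have hgg : ∀ v, g⁻¹ (g v) = v := fun v => by
    rw [← LinearEquiv.mul_apply, inv_mul_cancel, LinearEquiv.coe_one, id_eq]
  have hxe : g⁻¹ (eV K V₀ 0) = x := by rw [← hgx, hgg]
  have hze : g⁻¹ (zz K V₀ 1 ((S₀.std (k + 3)).q z)) = z := by rw [← hgz, hgg]
  have hTP : (F.ε • eV K V₀ (1 : Fin (k + 3)), eV K V₀ 2) ∈ (S₀.std (k + 3)).TPs := by
    refine ⟨(sg_e _).smul _, sg_e _, ?_, ?_⟩
    · change (S₀.std (k + 3)).B (F.ε • eV K V₀ (1 : Fin (k + 3))) (eV K V₀ 2) = 0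
      rw [Sq.B_smul_left, B_ee, mul_zero]
    · change LinearIndependent K ![F.ε • eV K V₀ (1 : Fin (k + 3)), eV K V₀ 2]
      have h := li_ee (K := K) (V₀ := V₀) h12
      rw [LinearIndependent.pair_iff] at h ⊢
      intro s t hst
      have h2 := h (s * F.ε) t (by rw [← smul_smul]; exact hst)
      exact ⟨(mul_eq_zero.1 h2.1).resolve_right F.e0, h2.2⟩
  refine ⟨g⁻¹ (F.ε • eV K V₀ 1), g⁻¹ (eV K V₀ 2), tps_map hgi' hTP, ?_, ?_, ?_, ?_⟩
  · rw [← hxe]
    exact tps_map hgi' ⟨sg_e _, sg_e _, B_ee _ _, li_ee h02⟩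
  · rw [← hxe, hgi'.1, Sq.B_smul_right, B_ee, mul_zero]
  · rw [← hze, hgi'.1, Sq.B_smul_right, zz, Sq.B_add_left, Sq.B_smul_left, B_ee, B_fe, if_pos rfl,
      F.se, mul_zero, zero_add, F.ee]
  · rw [← hze, hgi'.1, zz, Sq.B_add_left, Sq.B_smul_left, B_ee, B_fe, if_neg h12, mul_zero,
      add_zero]

end Pool.Agent.Lib.MP66ef6b.CL
end

section
set_option autoImplicit false

/-! # MP_66ef6b_al, THEOREM L2: module C0 -/

namespace Pool.Agent.Lib.MP66ef6b.CL

open Matrix

theorem specC0 (hBAS : SpecBAS) (hWT2 : SpecWT2) (_ : SpecLMD) (hCNJ : SpecCNJ) : SpecC0 := by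
  intro δ hδ hδ1
  obtain ⟨q, R, hB⟩ := hBAS δ hδ hδ1
  refine ⟨q, ?_⟩
  intro K _ F V₀ _ _ S₀ m hC hq τ hτ
  have hm : 3 ≤ m := hC.rk
  let i : Fin m := ⟨0, by omega⟩
  let j : Fin m := ⟨1, by omega⟩
  have hij : i ≠ j := by
    intro h
    have := congrArg Fin.val h
    simp [i, j] at this
  have h1 : (-(F.ε * F.σ (-F.ε))) • fV K V₀ j = fV K V₀ (m := m) j := by
    rw [map_neg, F.se, mul_neg, F.ee, neg_neg, one_smul]
  have hBef : (S₀.std m).B (eV K V₀ i) (fV K V₀ j) = 0 := by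
    rw [PRUM.B_ef, if_neg hij]
  have hLI : LinearIndependent K ![eV K V₀ i, fV K V₀ (m := m) j] := by
    rw [LinearIndependent.pair_iff]
    intro s t hst
    have h2 := congrArg (fun v : SV K V₀ m => v.1 i) hst
    have h3 := congrArg (fun v : SV K V₀ m => v.2.1 j) hst
    simp [eV, fV] at h2 h3
    exact ⟨h2, h3⟩
  obtain ⟨g, hg, hg1, hg2⟩ := hWT2 K F V₀ S₀ m hm hC.nd τ.1 τ.2 (eV K V₀ i) (fV K V₀ j) hτ.1
    (LMDM.sg_e i) hτ.2.2.1 hBef hτ.2.2.2 hLI (F.Λ.sub_mem hτ.2.1 (LMDM.sg_f j))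
  have hadm : (S₀.std m).Adm τ.1 τ.2 0 := ⟨hτ.1, hτ.2.2.1, by
    rw [zero_sub]
    exact F.Λ.neg_mem hτ.2.1⟩
  refine (hCNJ K F V₀ S₀ m δ _ g).1 hg ?_
  rw [Sq.T_conj hadm (Sq.D_le_Iso _ hg), hg1, hg2, ← h1, ← LMDM.lam_tv hij]
  refine hB K F V₀ S₀ m hC _ ?_ (Or.inl hq)
  rw [Matrix.SpecialLinearGroup.mem_center_iff]
  rintro ⟨r, -, hr⟩
  have h2 := congrArg (fun M : Matrix (Fin m) (Fin m) K => M i j) hr
  rw [SpecialLinearGroup.transvection_coe] at h2
  simp [hij, Matrix.scalar_apply] at h2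
  exact F.e0 h2

end Pool.Agent.Lib.MP66ef6b.CL
end

section
set_option autoImplicit false

/-!
# MP_66ef6b_al, THEOREM L2, module C1: elements `T x z a`, `z ∉ K x`
-/

namespace Pool.Agent.Lib.MP66ef6b.CL

namespace C1M

theorem li_smul {K V : Type} [Field K] [AddCommGroup V] [Module K V] {x v : V} {c : K}
    (hc : c ≠ 0) (h : LinearIndependent K ![x, v]) : LinearIndependent K ![x, c • v] := by
  rw [LinearIndependent.pair_iff] at h ⊢
  intro s t hst
  rw [smul_smul] at hst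
  obtain ⟨h1, h2⟩ := h s (t * c) hst
  exact ⟨h1, (mul_eq_zero.1 h2).resolve_right hc⟩

end C1M

theorem specC1 (hC0 : SpecC0) (hPRU : SpecPRU) (hTXC : SpecTXC) (hPK2 : SpecPK2)
    (hCNJ : SpecCNJ) : SpecC1 := by
  intro δ hδ hδ1
  have hd2 : 0 < δ ^ 2 / 2 := by positivity
  have hd21 : δ ^ 2 / 2 ≤ 1 := by nlinarith
  obtain ⟨q0, hq0⟩ := hC0 (δ ^ 2 / 2) hd2 hd21
  refine ⟨max q0 ⌈2 / δ ^ 2⌉₊, ?_⟩
  intro K _ F V₀ _ _ S₀ m hcls hq x z a hadm hli
  haveI := hcls.finK
  obtain ⟨u, v, huv, hxv, hxu, hzu, hzv⟩ :=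
    hPRU K F V₀ S₀ m hcls.rk hcls.nd x z hadm.sg hadm.orth hli
  obtain ⟨T₀, hT1, hT2, hT3⟩ := hTXC K F V₀ S₀ m hcls.nd (u, v) huv
  have hKpos : 0 < Nat.card K := Nat.card_pos
  have hfin : Finite T₀ := Nat.finite_of_card_ne_zero (by rw [hT2]; exact hKpos.ne')
  refine hPK2 K F V₀ S₀ m δ hδ hδ1 _ (Sq.T_mem_G hadm) T₀ hT1 hfin ?_ ?_
  · rw [hT2]
    have h1 : (⌈2 / δ ^ 2⌉₊ : ℝ) ≤ (Nat.card K : ℝ) := by
      exact_mod_cast (le_max_right q0 ⌈2 / δ ^ 2⌉₊).trans hq
    have h2 : 2 / δ ^ 2 ≤ (Nat.card K : ℝ) := (Nat.le_ceil _).trans h1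
    have h3 : 0 < δ ^ 2 := by positivity
    rw [div_le_iff₀ h3] at h2
    linarith
  · intro t ht ht1
    obtain ⟨c, hc, rfl⟩ := hT3 t ht ht1
    simp only
    have hus : (S₀.std m).Adm u (c • v) 0 :=
      ⟨huv.1, by rw [Sq.B_smul_right, huv.2.2.1, mul_zero], by
        rw [zero_sub]
        exact F.Λ.neg_mem (Sq.Sg.smul huv.2.1 c)⟩
    have hIso := Sq.T_mem_Iso hus
    have hx : (S₀.std m).T u (c • v) 0 x = x := by
      rw [Sq.T_apply hus, hxu, Sq.B_smul_right, hxv.2.2.1]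
      simp
    have hz : (S₀.std m).T u (c • v) 0 z = z + c • v := by
      rw [Sq.T_apply hus, hzu, Sq.B_smul_right, hzv]
      simp
    have hadm2 : (S₀.std m).Adm x (z + c • v) a := by
      have := hadm.map hIso
      rwa [hx, hz] at this
    have key : (S₀.std m).T u (c • v) 0 * (S₀.std m).T x z a * ((S₀.std m).T u (c • v) 0)⁻¹ *
        ((S₀.std m).T x z a)⁻¹ = (S₀.std m).T x (c • v) 0 := by
      rw [Sq.T_conj hadm hIso, hx, hz, Sq.T_inv hadm, Sq.T_mul hadm2 hadm.inv]
      congr 1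
      · abel
      · rw [Sq.B_neg_left, Sq.B_add_right, hadm.self, Sq.B_smul_right, hzv]
        ring
    have hinv : ((S₀.std m).T x z a * (S₀.std m).T u (c • v) 0 * ((S₀.std m).T x z a)⁻¹ *
        ((S₀.std m).T u (c • v) 0)⁻¹)⁻¹ = (S₀.std m).T x (c • v) 0 := by
      rw [← key]
      group
    apply (hCNJ K F V₀ S₀ m (δ ^ 2 / 2) _ 1).2
    rw [hinv]
    have hmem : ((x, c • v) : SV K V₀ m × SV K V₀ m) ∈ (S₀.std m).TPs :=
      ⟨hadm.sg, Sq.Sg.smul huv.2.1 c, by
        change (S₀.std m).B x (c • v) = 0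
        rw [Sq.B_smul_right, hxv.2.2.1, mul_zero], C1M.li_smul hc hxv.2.2.2⟩
    exact hq0 K F V₀ S₀ m hcls ((le_max_left _ _).trans hq) (x, c • v) hmem

end Pool.Agent.Lib.MP66ef6b.CL
end

section
set_option autoImplicit false

/-!
# MP_66ef6b_al, THEOREM L2, module C2 (helper18): transvections `T x 0 l`
-/

namespace Pool.Agent.Lib.MP66ef6b.CL

namespace C2M

variable {K : Type} [Field K] {F : FD K} {V : Type} [AddCommGroup V] [Module K V] {S : Sq F V}

/-- the parameters of a transvection. -/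
theorem adm0 {x : V} {l : K} (hx : S.Sg x) (hl : l ∈ F.Λ) : S.Adm x 0 l where
  sg := hx
  orth := S.B_zero_right x
  par := by
    rw [S.q_zero, sub_zero]
    exact hl

/-- the parameters of the commutator. -/
theorem admw {x v : V} {l c : K} (hx : S.Sg x) (hv : S.Sg v) (hxv : S.B x v = 0)
    (hl : l ∈ F.Λ) : S.Adm v ((-(F.ε * l * F.σ c)) • x) (c * F.σ c * l) where
  sg := hv
  orth := by rw [S.B_smul_right, S.B_eq_zero_swap hxv, mul_zero]
  par := by
    apply F.Λ.sub_mem (F.sc hl c)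
    rw [S.q_smul]
    exact F.sc hx _

/-- the commutator. -/
theorem comm {x u v : V} {l c : K} (hx : S.Sg x) (hu : S.Sg u) (hv : S.Sg v)
    (hxv : S.B x v = 0) (huv : S.B u v = 0) (hxu : S.B x u = 1) (hl : l ∈ F.Λ) :
    (S.T x 0 l * S.T u (c • v) 0 * (S.T x 0 l)⁻¹ * (S.T u (c • v) 0)⁻¹)⁻¹ =
      S.T v ((-(F.ε * l * F.σ c)) • x) (c * F.σ c * l) := by
  have hg := adm0 hx hl
  have ht : S.Adm u (c • v) 0 := ⟨hu, by rw [S.B_smul_right, huv, mul_zero], by
    rw [zero_sub]
    exact F.Λ.neg_mem (hv.smul c)⟩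
  have h1 : (S.T x 0 l * S.T u (c • v) 0 * (S.T x 0 l)⁻¹ * (S.T u (c • v) 0)⁻¹)⁻¹ =
      (S.T u (c • v) 0 * S.T x 0 l * (S.T u (c • v) 0)⁻¹) * (S.T x 0 l)⁻¹ := by group
  have h2 : S.T u (c • v) 0 x = x + c • v := by
    rw [Sq.T_apply ht, hxu, S.B_smul_right, hxv]
    simp
  have h3 : S.T u (c • v) 0 (0 : V) = 0 := map_zero _
  have hmap := hg.map (Sq.T_mem_Iso ht)
  rw [h2, h3] at hmap
  rw [h1, Sq.T_conj hg (Sq.T_mem_Iso ht), h2, h3, Sq.T_inv hg]
  have hinv := hg.inv
  have hsk := F.skew hl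
  rw [neg_zero, hsk] at hinv
  rw [neg_zero, hsk]
  ext y
  rw [LinearEquiv.mul_apply, Sq.T_apply hinv, Sq.T_apply hmap, Sq.T_apply (admw hx hv hxv hl)]
  have hvx : S.B v x = 0 := S.B_eq_zero_swap hxv
  simp only [S.B_zero_right, smul_zero, add_zero, zero_add, S.B_sub_left, S.B_add_right,
    S.B_smul_left, S.B_smul_right, hx.self, hxv, mul_zero, sub_zero, map_neg, map_mul, F.inv,
    F.se]
  have h5 : -(F.ε * F.σ l * c) * S.B y x = l * c * S.B y x := by
    linear_combination (-c * S.B y x) * hsk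
  rw [h5]
  module

theorem indep {x v : V} {l c : K} (h : LinearIndependent K ![x, v]) (hl : l ≠ 0) (hc : c ≠ 0) :
    LinearIndependent K ![v, (-(F.ε * l * F.σ c)) • x] := by
  have hr : -(F.ε * l * F.σ c) ≠ 0 := by
    rw [neg_ne_zero]
    refine mul_ne_zero (mul_ne_zero F.e0 hl) ?_
    intro h0
    apply hc
    have := F.inv c
    rw [h0, map_zero] at this
    exact this.symm
  rw [LinearIndependent.pair_iff] at h ⊢
  intro s t hst
  have h1 := h (t * -(F.ε * l * F.σ c)) s (by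
    rw [← hst]
    module)
  refine ⟨h1.2, ?_⟩
  rcases mul_eq_zero.1 h1.1 with h2 | h2
  · exact h2
  · exact absurd h2 hr

end C2M

theorem specC2 (hC1 : SpecC1) (hPRV : SpecPRV) (hTXC : SpecTXC) (hPK2 : SpecPK2)
    (hCNJ : SpecCNJ) : SpecC2 := by
  intro δ hδ hδ1
  obtain ⟨q, hq⟩ := hC1 (δ ^ 2 / 2) (by positivity) (by nlinarith)
  refine ⟨max q ⌈2 / δ ^ 2⌉₊, ?_⟩
  intro K _ F V₀ _ _ S₀ m hCls hK x l hx hx0 hl hl0
  haveI := hCls.finK
  have hnd : S₀.Nd := hCls.nd
  have hm : 2 ≤ m := le_trans (by norm_num) hCls.rk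
  obtain ⟨u, v, huv, hxv, hxu⟩ := hPRV K F V₀ S₀ m hm hnd x hx hx0
  obtain ⟨T₀, hT1, hT2, hT3⟩ := hTXC K F V₀ S₀ m hnd (u, v) huv
  have hg := C2M.adm0 (S := S₀.std m) hx hl
  have hKpos : 0 < Nat.card K := Nat.card_pos
  have hfin : Finite T₀ := Nat.finite_of_card_ne_zero (by rw [hT2]; exact hKpos.ne')
  refine hPK2 K F V₀ S₀ m δ hδ hδ1 _ (Sq.T_mem_G hg) T₀ hT1 hfin ?_ ?_
  · rw [hT2]
    have h1 : 2 / δ ^ 2 ≤ (Nat.card K : ℝ) :=
      le_trans (Nat.le_ceil _) (by exact_mod_cast le_trans (le_max_right _ _) hK)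
    rw [div_le_iff₀ (by positivity)] at h1
    linarith
  · intro t ht ht1
    obtain ⟨c, hc, rfl⟩ := hT3 t ht ht1
    apply (hCNJ K F V₀ S₀ m (δ ^ 2 / 2) _ 1).2
    rw [C2M.comm hx huv.1 huv.2.1 hxv.2.2.1 huv.2.2.1 hxu hl]
    exact hq K F V₀ S₀ m hCls (le_trans (le_max_left _ _) hK) _ _ _
      (C2M.admw hx huv.2.1 hxv.2.2.1 hl) (C2M.indep hxv.2.2.2 hl0 hc)

end Pool.Agent.Lib.MP66ef6b.CL
end

section
set_option autoImplicit false

/-!
# MP_66ef6b_al, THEOREM L2, module C3 (helper20): elements which fix a singular vector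
-/

namespace Pool.Agent.Lib.MP66ef6b.CL

namespace C3M

variable {K : Type} [Field K] {F : FD K} {V : Type} [AddCommGroup V] [Module K V] {S : Sq F V}

theorem indep_of {x z : V} (hx : x ≠ 0) (h : ∀ c : K, z ≠ c • x) :
    LinearIndependent K ![x, z] := by
  rw [LinearIndependent.pair_iff]
  intro s t hst
  have ht : t = 0 := by
    by_contra ht
    apply h (-(t⁻¹ * s))
    have h1 : t • z = -(s • x) := by
      rw [eq_neg_iff_add_eq_zero, add_comm]
      exact hst
    have h2 : z = t⁻¹ • (t • z) := by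
      rw [smul_smul, inv_mul_cancel₀ ht, one_smul]
    rw [h2, h1, smul_neg, smul_smul, neg_smul]
  rw [ht, zero_smul, add_zero] at hst
  exact ⟨(smul_eq_zero.1 hst).resolve_right hx, ht⟩

theorem adm_cu {x u : V} (hx : S.Sg x) (hu : S.Sg u) (h : S.B x u = 0) (c : K) :
    S.Adm x (c • u) 0 where
  sg := hx
  orth := by rw [S.B_smul_right, h, mul_zero]
  par := by
    rw [zero_sub]
    exact F.Λ.neg_mem (hu.smul c)

/-- the subspace of the `u` with `g u - u ∈ K x`. -/
def Wg (g : V ≃ₗ[K] V) (x : V) : Submodule K V where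
  carrier := {u | ∃ c : K, g u = u + c • x}
  add_mem' := by
    rintro u v ⟨c, hc⟩ ⟨d, hd⟩
    refine ⟨c + d, ?_⟩
    rw [map_add, hc, hd]
    module
  zero_mem' := ⟨0, by simp⟩
  smul_mem' := by
    rintro a u ⟨c, hc⟩
    refine ⟨a * c, ?_⟩
    rw [map_smul, hc]
    module

theorem T_cx {x : V} {c a : K} (h : S.Adm x (c • x) a) :
    a + F.σ c - F.ε * c ∈ F.Λ ∧ S.T x (c • x) a = S.T x 0 (a + F.σ c - F.ε * c) := by
  have hl : a + F.σ c - F.ε * c ∈ F.Λ := by
    have h1 : a ∈ F.Λ := by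
      have := F.Λ.add_mem h.par (h.sg.smul c)
      rwa [sub_add_cancel] at this
    have h2 := F.tr (F.σ c)
    rw [F.inv] at h2
    have h3 := F.Λ.add_mem h1 h2
    convert h3 using 1
    ring
  refine ⟨hl, ?_⟩
  have h' : S.Adm x 0 (a + F.σ c - F.ε * c) := ⟨h.sg, S.B_zero_right x, by
    rw [S.q_zero, sub_zero]
    exact hl⟩
  ext y
  rw [Sq.T_apply h, Sq.T_apply h', S.B_smul_right, S.B_zero_right]
  have he := F.ee
  have key : S.B y x • c • x - (F.ε * (F.σ c * S.B y x + a * S.B y x)) • x =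
      -(F.ε * (0 + (a + F.σ c - F.ε * c) * S.B y x)) • x := by
    rw [smul_smul, ← sub_smul]
    congr 1
    linear_combination (-(c * S.B y x)) * he
  rw [add_sub_assoc, key]
  module

end C3M

open C3M in
theorem specC3 (hC1 : SpecC1) (hC2 : SpecC2) (hNXC : SpecNXC) (hSPX : SpecSPX) (hTXC : SpecTXC)
    (hPK2 : SpecPK2) : SpecC3 := by
  intro δ hδ hδ1
  have hδ2 : 0 < δ ^ 2 / 2 := by positivity
  have hδ3 : δ ^ 2 / 2 ≤ 1 := by nlinarith
  obtain ⟨q1, hq1⟩ := hC1 δ hδ hδ1
  obtain ⟨q1', hq1'⟩ := hC1 (δ ^ 2 / 2) hδ2 hδ3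
  obtain ⟨q2, hq2⟩ := hC2 δ hδ hδ1
  refine ⟨q1 + q1' + q2 + ⌈2 / δ ^ 2⌉₊, ?_⟩
  intro K _ F V₀ _ _ S₀ m hc hq x hx hx0 g hg hg1 hgx
  haveI := hc.finK
  have hm2 : 2 ≤ m := le_trans (by norm_num) hc.rk
  have hcard : 2 ≤ δ ^ 2 * Nat.card K := by
    have h1 : (2 / δ ^ 2 : ℝ) ≤ Nat.card K := by
      refine (Nat.le_ceil _).trans ?_
      exact_mod_cast (by omega : ⌈2 / δ ^ 2⌉₊ ≤ Nat.card K)
    rw [div_le_iff₀ (by positivity)] at h1
    linarith
  have hgI : g ∈ (S₀.std m).Iso := Sq.D_le_Iso _ hg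
  by_cases hcase : ∃ u, (S₀.std m).Sg u ∧ (S₀.std m).B u x = 0 ∧ ∀ c : K, g u ≠ u + c • x
  · obtain ⟨u, hu, hux, hne⟩ := hcase
    have hxu : (S₀.std m).B x u = 0 := (S₀.std m).B_eq_zero_swap hux
    have hind : LinearIndependent K ![x, u] := by
      apply indep_of hx0
      intro c h
      apply hne 0
      rw [h, map_smul, hgx, zero_smul, add_zero]
    obtain ⟨T₀, hT1, hT2, hT3⟩ := hTXC K F V₀ S₀ m hc.nd (x, u) ⟨hx, hu, hxu, hind⟩
    have hfin : Finite T₀ := by
      apply Nat.finite_of_card_ne_zero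
      rw [hT2]
      exact Nat.card_pos.ne'
    refine hPK2 K F V₀ S₀ m δ hδ hδ1 g hg T₀ hT1 hfin (by rw [hT2]; exact hcard) ?_
    intro t ht ht1
    obtain ⟨c, hc0, rfl⟩ := hT3 t ht ht1
    have hA := adm_cu hx hu hxu c
    have hAg := hA.map hgI
    rw [hgx] at hAg
    have e1 : g * (S₀.std m).T x (c • u) 0 * g⁻¹ = (S₀.std m).T x (g (c • u)) 0 := by
      rw [Sq.T_conj hA hgI, hgx]
    show Bd S₀ m (δ ^ 2 / 2) (g * (S₀.std m).T x (c • u) 0 * g⁻¹ * ((S₀.std m).T x (c • u) 0)⁻¹)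
    rw [e1, Sq.T_inv hA, Sq.T_mul hAg hA.inv]
    apply hq1' K F V₀ S₀ m hc (by omega) _ _ _ (hAg.add hA.inv)
    apply indep_of hx0
    intro d hd
    apply hne (c⁻¹ * d)
    rw [map_smul] at hd
    have h1 : c • (g u - u) = d • x := by
      rw [← hd]
      module
    have h2 : g u - u = c⁻¹ • (c • (g u - u)) := by
      rw [smul_smul, inv_mul_cancel₀ hc0, one_smul]
    rw [h1, smul_smul] at h2
    rw [← h2]
    abel
  · push Not at hcase
    have hall : ∀ u, (S₀.std m).B u x = 0 → ∃ c : K, g u = u + c • x :=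
      hSPX K F V₀ S₀ m hm2 hc.nd x hx hx0 (Wg g x) (fun u hu hux => hcase u hu hux)
    obtain ⟨z, a, hadm, hgT⟩ := hNXC K F V₀ S₀ m hm2 hc.nd x hx hx0 g hgI hgx hall
    by_cases hz : ∃ c : K, z = c • x
    · obtain ⟨c, rfl⟩ := hz
      obtain ⟨hl, hT⟩ := T_cx hadm
      rw [hgT, hT]
      apply hq2 K F V₀ S₀ m hc (by omega) x _ hx hx0 hl
      intro h0
      apply hg1
      rw [hgT, hT, h0, Sq.T_zero]
    · push Not at hz
      rw [hgT]
      exact hq1 K F V₀ S₀ m hc (by omega) x z a hadm (indep_of hx0 hz)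

end Pool.Agent.Lib.MP66ef6b.CL
end

section
set_option autoImplicit false

/-!
# MP_66ef6b_al, THEOREM L2, module C4: large fields
-/

namespace Pool.Agent.Lib.MP66ef6b.CL

namespace C4M

open Matrix

section

variable {K : Type} [Field K] {F : FD K} {V₀ : Type} [AddCommGroup V₀] [Module K V₀]
  {S₀ : Sq F V₀} {m : ℕ}

/-- the standard space is non-degenerate. -/
theorem nd_std (hnd : ∀ v, (∀ w, S₀.B v w = 0) → v = 0) (v : SV K V₀ m)
    (h : ∀ w, (S₀.std m).B v w = 0) : v = 0 := by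
  have h1 : v.2.1 = 0 := by
    funext i
    have h2 := h (eV K V₀ i)
    rw [std_B] at h2
    have h3 : v.1 ⬝ᵥ (fun j => F.σ ((eV K V₀ i : SV K V₀ m).2.1 j)) = 0 := by
      simp [eV, dotProduct]
    have h4 : v.2.1 ⬝ᵥ (fun j => F.σ ((eV K V₀ i : SV K V₀ m).1 j)) = v.2.1 i := by
      simp only [eV, dotProduct, Pi.single_apply]
      rw [Finset.sum_eq_single i]
      · simp
      · intro b _ hb
        simp [hb]
      · intro hi
        exact absurd (Finset.mem_univ _) hi
    have h5 : S₀.B v.2.2 (eV K V₀ i : SV K V₀ m).2.2 = 0 := S₀.B_zero_right _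
    rw [h3, h4, h5, zero_add, add_zero] at h2
    exact (mul_eq_zero.1 h2).resolve_left F.e0
  have h1' : v.1 = 0 := by
    funext i
    have h2 := h (fV K V₀ i)
    rw [std_B] at h2
    have h3 : v.2.1 ⬝ᵥ (fun j => F.σ ((fV K V₀ i : SV K V₀ m).1 j)) = 0 := by
      simp [fV, dotProduct]
    have h4 : v.1 ⬝ᵥ (fun j => F.σ ((fV K V₀ i : SV K V₀ m).2.1 j)) = v.1 i := by
      simp only [fV, dotProduct, Pi.single_apply]
      rw [Finset.sum_eq_single i]
      · simp
      · intro b _ hb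
        simp [hb]
      · intro hi
        exact absurd (Finset.mem_univ _) hi
    have h5 : S₀.B v.2.2 (fV K V₀ i : SV K V₀ m).2.2 = 0 := S₀.B_zero_right _
    rw [h3, h4, h5, mul_zero, add_zero, add_zero] at h2
    exact h2
  have h2 : v.2.2 = 0 := by
    apply hnd
    intro w
    have h3 := h ((0, 0, w) : SV K V₀ m)
    rw [std_B] at h3
    simpa [dotProduct] using h3
  exact Prod.ext h1' (Prod.ext h1 h2)

theorem nd_right (hnd : ∀ v, (∀ w, S₀.B v w = 0) → v = 0) (v : SV K V₀ m)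
    (h : ∀ w, (S₀.std m).B w v = 0) : v = 0 :=
  nd_std hnd v (fun w => (S₀.std m).B_eq_zero_swap (h w))

/-- a vector orthogonal to `x` and not to `w`. -/
theorem exists_sep (hnd : ∀ v, (∀ w, S₀.B v w = 0) → v = 0) {x w : SV K V₀ m} (hx : x ≠ 0)
    (hw : ∀ c : K, w ≠ c • x) :
    ∃ y, (S₀.std m).B y x = 0 ∧ (S₀.std m).B y w ≠ 0 := by
  by_contra hcon
  have hcon' : ∀ y, (S₀.std m).B y x = 0 → (S₀.std m).B y w = 0 := by
    intro y hy
    by_contra h
    exact hcon ⟨y, hy, h⟩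
  obtain ⟨y0, hy0⟩ : ∃ y, (S₀.std m).B y x ≠ 0 := by
    by_contra h
    apply hx
    apply nd_right hnd
    intro y
    by_contra h'
    exact h ⟨y, h'⟩
  obtain ⟨c, hc⟩ : ∃ c, c = (S₀.std m).B y0 w / (S₀.std m).B y0 x := ⟨_, rfl⟩
  apply hw (F.σ c)
  rw [← sub_eq_zero]
  apply nd_right hnd
  intro y
  have h1 := hcon' (y - ((S₀.std m).B y x / (S₀.std m).B y0 x) • y0) (by
    rw [Sq.B_sub_left, Sq.B_smul_left, div_mul_cancel₀ _ hy0, sub_self])
  rw [Sq.B_sub_left, Sq.B_smul_left] at h1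
  rw [Sq.B_sub_right, Sq.B_smul_right, F.inv, hc]
  have h2 : (S₀.std m).B y0 w / (S₀.std m).B y0 x * (S₀.std m).B y x =
      (S₀.std m).B y x / (S₀.std m).B y0 x * (S₀.std m).B y0 w := by
    ring
  rw [h2]
  exact h1

/-- the orthogonal complement of a vector is not contained in the span of two vectors. -/
theorem exists_perp [Module.Finite K V₀] (hm : 3 ≤ m) (x a b : SV K V₀ m) :
    ∃ u, (S₀.std m).B u x = 0 ∧ u ∉ Submodule.span K {a, b} := by
  by_contra hcon
  have hcon' : ∀ u, (S₀.std m).B u x = 0 → u ∈ Submodule.span K {a, b} := by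
    intro u hu
    by_contra h
    exact hcon ⟨u, hu, h⟩
  let φ : SV K V₀ m →ₗ[K] K :=
    { toFun := fun u => (S₀.std m).B u x
      map_add' := fun u v => (S₀.std m).B_add_left u v x
      map_smul' := fun c u => (S₀.std m).B_smul_left c u x }
  have h1 : LinearMap.ker φ ≤ Submodule.span K {a, b} := fun u hu => hcon' u (LinearMap.mem_ker.1 hu)
  have h2 := Submodule.finrank_mono h1
  have h3 := LinearMap.finrank_range_add_finrank_ker φ
  have h4 : Module.finrank K (LinearMap.range φ) ≤ 1 := by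
    have := Submodule.finrank_le (LinearMap.range φ)
    rwa [Module.finrank_self] at this
  have h5 : Module.finrank K (SV K V₀ m) = m + (m + Module.finrank K V₀) := by
    rw [Module.finrank_prod, Module.finrank_prod, Module.finrank_fin_fun]
  have h6 : Module.finrank K (Submodule.span K ({a, b} : Set (SV K V₀ m))) ≤ 2 := by
    classical
    have h7 := finrank_span_finset_le_card (R := K) ({a, b} : Finset (SV K V₀ m))
    have h8 : (({a, b} : Finset (SV K V₀ m)) : Set (SV K V₀ m)) = {a, b} := by simp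
    rw [Set.finrank, h8] at h7
    exact h7.trans Finset.card_le_two
  omega

end

end C4M

open C4M in
theorem specC4 (hC3 : SpecC3) (hSCA : SpecSCA) (hSPX : SpecSPX) (hSGY : SpecSGY)
    (hTXC : SpecTXC) (hPK2 : SpecPK2) : SpecC4 := by
  intro δ h0 h1
  have hδ2 : 0 < δ ^ 2 / 2 := by positivity
  have hδ1 : δ ^ 2 / 2 ≤ 1 := by nlinarith
  obtain ⟨q3, hq3⟩ := hC3 (δ ^ 2 / 2) hδ2 hδ1
  refine ⟨max q3 ⌈2 / δ ^ 2⌉₊, ?_⟩
  intro K _ F V₀ _ _ S₀ m hcls hq f hf hsc
  have hnd := hcls.nd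
  have hfin := hcls.finK
  have hfinV := hcls.finV
  have hm := hcls.rk
  have hfI : f ∈ (S₀.std m).Iso := Sq.D_le_Iso _ hf
  -- a singular vector which is not an eigenvector
  obtain ⟨x0, hx0s, hx0f⟩ : ∃ x0, (S₀.std m).Sg x0 ∧ ∀ c : K, f x0 ≠ c • x0 := by
    by_contra hcon
    apply hsc
    apply hSCA K F V₀ S₀ m (by omega) f
    intro x hx
    by_contra h
    exact hcon ⟨x, hx, fun c hc => h ⟨c, hc⟩⟩
  have hx0 : x0 ≠ 0 := by
    rintro rfl
    exact hx0f 0 (by simp)
  -- a second vector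
  obtain ⟨w0, hw0s, hw0x, hw0⟩ : ∃ w0, (S₀.std m).Sg w0 ∧ (S₀.std m).B w0 x0 = 0 ∧
      w0 ∉ Submodule.span K {x0, f x0} := by
    by_contra hcon
    obtain ⟨u, hu1, hu2⟩ := exists_perp (S₀ := S₀) hm x0 x0 (f x0)
    apply hu2
    apply hSPX K F V₀ S₀ m (by omega) hnd x0 hx0s hx0 _ _ u hu1
    intro w hw1 hw2
    by_contra h
    exact hcon ⟨w, hw1, hw2, h⟩
  have hw0c : ∀ c : K, w0 ≠ c • x0 := by
    rintro c rfl
    exact hw0 (Submodule.smul_mem _ _ (Submodule.subset_span (by simp)))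
  have hτ : (x0, w0) ∈ (S₀.std m).TPs := by
    refine ⟨hx0s, hw0s, (S₀.std m).B_eq_zero_swap hw0x, ?_⟩
    rw [LinearIndependent.pair_iff' hx0]
    intro a h
    exact hw0c a h.symm
  obtain ⟨T0, hT0le, hT0card, hT0⟩ := hTXC K F V₀ S₀ m hnd _ hτ
  have hcard0 : Nat.card T0 ≠ 0 := by
    rw [hT0card]
    exact Nat.card_ne_zero.2 ⟨⟨0⟩, hfin⟩
  have hT0fin : Finite T0 := (Nat.card_ne_zero.1 hcard0).2
  apply hPK2 K F V₀ S₀ m δ h0 h1 f hf T0 hT0le hT0fin
  · rw [hT0card]
    have h2 : (⌈2 / δ ^ 2⌉₊ : ℝ) ≤ (Nat.card K : ℝ) := by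
      exact_mod_cast (le_max_right _ _).trans hq
    have h3 : 2 / δ ^ 2 ≤ (Nat.card K : ℝ) := (Nat.le_ceil _).trans h2
    rw [div_le_iff₀ (by positivity)] at h3
    linarith
  intro t ht ht1
  obtain ⟨c, hc, htc⟩ := hT0 t ht ht1
  simp only at htc
  have hadm : (S₀.std m).Adm x0 (c • w0) 0 := by
    refine ⟨hx0s, ?_, ?_⟩
    · rw [Sq.B_smul_right, (S₀.std m).B_eq_zero_swap hw0x, mul_zero]
    · have := hw0s.smul c
      rw [zero_sub]
      exact F.Λ.neg_mem this
  have hadmf := hadm.map hfI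
  have hconj := Sq.T_conj hadm hfI
  obtain ⟨x, hx, hxs, hxB⟩ := hSGY K F V₀ S₀ m hcls ![x0, w0, f x0, f w0]
  have b0 : (S₀.std m).B x x0 = 0 := (S₀.std m).B_eq_zero_swap (by simpa using hxB 0)
  have b1 : (S₀.std m).B x w0 = 0 := (S₀.std m).B_eq_zero_swap (by simpa using hxB 1)
  have b2 : (S₀.std m).B x (f x0) = 0 := (S₀.std m).B_eq_zero_swap (by simpa using hxB 2)
  have b3 : (S₀.std m).B x (f w0) = 0 := (S₀.std m).B_eq_zero_swap (by simpa using hxB 3)
  have htx : t x = x := by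
    rw [htc, Sq.T_apply hadm, b0, Sq.B_smul_right, b1]
    simp
  have htx' : t⁻¹ x = x := by
    have h2 : t⁻¹ (t x) = x := by
      rw [← LinearEquiv.mul_apply, inv_mul_cancel, LinearEquiv.coe_one, id_eq]
    rwa [htx] at h2
  have hgx : (f * t * f⁻¹ * t⁻¹) x = x := by
    rw [LinearEquiv.mul_apply, htx', htc, hconj, Sq.T_apply hadmf, b2, map_smul, Sq.B_smul_right, b3]
    simp
  have hg1 : f * t * f⁻¹ * t⁻¹ ≠ 1 := by
    intro heq
    have hcomm : f * t = t * f := by
      have h2 : f * t * f⁻¹ * t⁻¹ * t * f = t * f := by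
        rw [heq, one_mul]
      rw [← h2]
      group
    obtain ⟨y, hy1, hy2⟩ := exists_sep hnd hx0 hw0c
    have h3 : t y - y = (-(F.ε * (F.σ c * (S₀.std m).B y w0))) • x0 := by
      rw [htc, Sq.T_apply hadm, hy1, Sq.B_smul_right]
      module
    have h4 : f (t y - y) = t (f y) - f y := by
      rw [map_sub, ← LinearEquiv.mul_apply, hcomm, LinearEquiv.mul_apply]
    have h5 : t (f y) - f y = ((S₀.std m).B (f y) x0 * c) • w0 +
        (-(F.ε * (F.σ c * (S₀.std m).B (f y) w0))) • x0 := by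
      rw [htc, Sq.T_apply hadm, Sq.B_smul_right]
      module
    rw [h3, h5, map_smul] at h4
    obtain ⟨l, hl⟩ : ∃ l, l = -(F.ε * (F.σ c * (S₀.std m).B y w0)) := ⟨_, rfl⟩
    have hl0 : l ≠ 0 := by
      rw [hl]
      have hsc0 : F.σ c ≠ 0 := by
        intro h
        apply hc
        have := F.inv c
        rw [h, map_zero] at this
        exact this.symm
      exact neg_ne_zero.2 (mul_ne_zero F.e0 (mul_ne_zero hsc0 hy2))
    rw [← hl] at h4
    obtain ⟨α, hα⟩ : ∃ α, α = (S₀.std m).B (f y) x0 * c := ⟨_, rfl⟩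
    obtain ⟨γ, hγ⟩ : ∃ γ, γ = -(F.ε * (F.σ c * (S₀.std m).B (f y) w0)) := ⟨_, rfl⟩
    rw [← hα, ← hγ] at h4
    by_cases hα0 : α = 0
    · rw [hα0, zero_smul, zero_add] at h4
      apply hx0f (l⁻¹ * γ)
      rw [mul_smul, ← h4, smul_smul, inv_mul_cancel₀ hl0, one_smul]
    · apply hw0
      have h6 : w0 = (α⁻¹ * l) • f x0 + (-(α⁻¹ * γ)) • x0 := by
        have h7 : α • w0 = l • f x0 - γ • x0 := by
          rw [h4]
          abel
        calc w0 = α⁻¹ • (α • w0) := by rw [smul_smul, inv_mul_cancel₀ hα0, one_smul]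
          _ = _ := by
            rw [h7, smul_sub, smul_smul, smul_smul, neg_smul, sub_eq_add_neg]
      rw [h6]
      exact Submodule.add_mem _ (Submodule.smul_mem _ _ (Submodule.subset_span (by simp)))
        (Submodule.smul_mem _ _ (Submodule.subset_span (by simp)))
  have htD : t ∈ (S₀.std m).D ⊤ := hT0le ht
  have hgD : f * t * f⁻¹ * t⁻¹ ∈ (S₀.std m).D ⊤ :=
    Subgroup.mul_mem _ (Subgroup.mul_mem _ (Subgroup.mul_mem _ hf htD) (Subgroup.inv_mem _ hf))
      (Subgroup.inv_mem _ htD)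
  exact hq3 K F V₀ S₀ m hcls ((le_max_left _ _).trans hq) x hxs hx _ hgD hg1 hgx

end Pool.Agent.Lib.MP66ef6b.CL
end

section
/-!
# MP_66ef6b_al, THEOREM L2, module FXR (helper94): linear groups

Double counting of the pairs `(ω, y)` with `y f y⁻¹ ω = ω`.
-/
set_option autoImplicit false

namespace Pool.Agent.Lib.MP66ef6b.CL

open PL (SLn fx)

namespace FXRM

open Classical in
theorem ncard_sum {α : Type} [Fintype α] (p : α → Prop) :
    ((({x | p x} : Set α).ncard : ℕ) : ℝ) = ∑ x, if p x then (1 : ℝ) else 0 := by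
  have h : ({x | p x} : Set α) = ↑(Finset.univ.filter p) := by
    ext x
    simp
  rw [h, Set.ncard_coe_finset, Finset.sum_boole]

open Classical in
/-- the double counting -/
theorem dbl {G Ω : Type} [Group G] [MulAction G Ω] [Fintype G] [Fintype Ω] (f : G) :
    ∑ ω : Ω, ((({y : G | y * f * y⁻¹ ∈ MulAction.stabilizer G ω} : Set G).ncard : ℕ) : ℝ) =
      Nat.card G * (((fx Ω ({f} : Set G)).ncard : ℕ) : ℝ) := by
  have h1 : ∀ ω : Ω,
      ((({y : G | y * f * y⁻¹ ∈ MulAction.stabilizer G ω} : Set G).ncard : ℕ) : ℝ) =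
        ∑ y : G, if f • (y⁻¹ • ω) = y⁻¹ • ω then (1 : ℝ) else 0 := by
    intro ω
    rw [ncard_sum]
    refine Finset.sum_congr rfl fun y _ => ?_
    have h2 : y * f * y⁻¹ ∈ MulAction.stabilizer G ω ↔ f • (y⁻¹ • ω) = y⁻¹ • ω := by
      rw [MulAction.mem_stabilizer_iff, mul_smul, mul_smul, smul_eq_iff_eq_inv_smul]
    simp only [h2]
  simp only [h1]
  rw [Finset.sum_comm]
  have h3 : ∀ y : G, (∑ ω : Ω, if f • (y⁻¹ • ω) = y⁻¹ • ω then (1 : ℝ) else 0) =
      (((fx Ω ({f} : Set G)).ncard : ℕ) : ℝ) := by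
    intro y
    have h4 : fx Ω ({f} : Set G) = {ω : Ω | f • ω = ω} := by
      ext ω
      simp [fx]
    rw [h4, ncard_sum]
    exact Equiv.sum_comp (MulAction.toPerm y⁻¹ : Equiv.Perm Ω)
      (fun ω : Ω => if f • ω = ω then (1 : ℝ) else 0)
  simp only [h3]
  rw [Finset.sum_const, Finset.card_univ, Nat.card_eq_fintype_card, nsmul_eq_mul]

end FXRM

open Classical FXRM in
/-- **FXR.** -/
theorem specFXR (hTHA : PL.SpecTHA) : SpecFXR := by
  intro δ hδ hδ1
  obtain ⟨q, R, hqR⟩ := hTHA δ hδ hδ1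
  refine ⟨q, R, ?_⟩
  intro m K _ _ Ω _ _ f hf hor
  let _ := Fintype.ofFinite (SLn m K)
  let _ := Fintype.ofFinite Ω
  have hG : (0 : ℝ) < (Nat.card (SLn m K) : ℝ) := by
    have : 0 < Nat.card (SLn m K) := Nat.card_pos
    exact_mod_cast this
  have hU : fx Ω (Set.univ : Set (SLn m K)) =
      {ω : Ω | MulAction.stabilizer (SLn m K) ω = ⊤} := by
    ext ω
    simp only [fx, Set.mem_univ, forall_true_left, Set.mem_ofPred_eq, Subgroup.eq_top_iff',
      MulAction.mem_stabilizer_iff]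
  have key : ∀ ω : Ω,
      ((({y : SLn m K | y * f * y⁻¹ ∈ MulAction.stabilizer (SLn m K) ω} :
        Set (SLn m K)).ncard : ℕ) : ℝ) ≤
        Nat.card (SLn m K) * ((if MulAction.stabilizer (SLn m K) ω = ⊤ then (1 : ℝ) else 0) + δ) := by
    intro ω
    by_cases hω : MulAction.stabilizer (SLn m K) ω = ⊤
    · rw [if_pos hω]
      have h1 : ((({y : SLn m K | y * f * y⁻¹ ∈ MulAction.stabilizer (SLn m K) ω} :
          Set (SLn m K)).ncard : ℕ) : ℝ) ≤ Nat.card (SLn m K) := by
        have := Set.ncard_le_card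
          ({y : SLn m K | y * f * y⁻¹ ∈ MulAction.stabilizer (SLn m K) ω} : Set (SLn m K))
        exact_mod_cast this
      refine h1.trans ?_
      nlinarith
    · rw [if_neg hω, zero_add]
      by_contra hcon
      push Not at hcon
      have h2 := hqR m K (MulAction.stabilizer (SLn m K) ω) hω f hf
        (by rw [mul_comm]; exact hcon.le)
      rcases hor with hor | hor
      · exact absurd h2.1 (not_lt.2 hor)
      · obtain ⟨a, ha⟩ := h2.2
        exact absurd ha (not_le.2 (hor a))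
  have hsum := Finset.sum_le_sum fun (ω : Ω) (_ : ω ∈ Finset.univ) => key ω
  rw [dbl, ← Finset.mul_sum, Finset.sum_add_distrib, Finset.sum_const, Finset.card_univ,
    nsmul_eq_mul] at hsum
  have h5 := le_of_mul_le_mul_left hsum hG
  rw [hU, ncard_sum, Nat.card_eq_fintype_card, mul_comm δ]
  exact h5

end Pool.Agent.Lib.MP66ef6b.CL
end

section
/-!
# MP_66ef6b_al, THEOREM L2, module GENC (helper94): generation
-/
set_option autoImplicit false

namespace Pool.Agent.Lib.MP66ef6b.CL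

namespace GENCM

theorem T_zero_vec {K : Type} [Field K] {F : FD K} {V : Type} [AddCommGroup V] [Module K V]
    {S : Sq F V} {w : V} {a : K} (h : S.Adm 0 w a) : S.T 0 w a = 1 := by
  ext v
  rw [Sq.T_apply h, S.B_zero_right, smul_zero, sub_zero, zero_smul, add_zero]
  rfl

end GENCM

/-- **GENC.** -/
theorem specGENC (hOREB : SpecOREB) (hNE1 : SpecNE1) (hLMD : SpecLMD) : SpecGENC := by
  intro K _ F V₀ _ _ S₀ m hm hNd
  have hle : Subgroup.closure (GS S₀ m) ≤ (S₀.std m).D ⊤ :=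
    (Subgroup.closure_le _).2 (hLMD K F V₀ S₀ m).1
  refine le_antisymm ?_ hle
  rw [Sq.D, Subgroup.closure_le]
  rintro _ ⟨x, -, w, -, c, h, rfl⟩
  by_cases hx : x = 0
  · subst hx
    rw [GENCM.T_zero_vec h]
    exact (Subgroup.closure (GS S₀ m)).one_mem
  · obtain ⟨g, hg, a, -, hgx⟩ := hOREB K F V₀ S₀ m hm hNd x h.sg hx
    have hgI : g ∈ (S₀.std m).Iso := Sq.D_le_Iso _ (hle hg)
    have h0 := h.map hgI
    rw [hgx] at h0
    have h1 := hNE1 K F V₀ S₀ m hm a (g w) c h0
    rw [← hgx, ← Sq.T_conj h hgI] at h1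
    have h2 := (Subgroup.closure (GS S₀ m)).mul_mem
      ((Subgroup.closure (GS S₀ m)).mul_mem ((Subgroup.closure (GS S₀ m)).inv_mem hg) h1) hg
    have e : g⁻¹ * (g * (S₀.std m).T x w c * g⁻¹) * g = (S₀.std m).T x w c := by group
    rw [e] at h2
    exact h2

end Pool.Agent.Lib.MP66ef6b.CL
end

section
set_option autoImplicit false

/-!
# MP_66ef6b_al, THEOREM L2, module GRF: the greedy choice
-/

namespace Pool.Agent.Lib.MP66ef6b.CL

open Matrix

namespace GRFM

theorem finrank_comap_le {K V V' : Type} [Field K] [AddCommGroup V] [Module K V]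
    [Module.Finite K V] [AddCommGroup V'] [Module K V'] (g : V →ₗ[K] V') (U : Submodule K V')
    [Module.Finite K U] :
    Module.finrank K (U.comap g) ≤ Module.finrank K (LinearMap.ker g) + Module.finrank K U := by
  have h1 := LinearMap.finrank_range_add_finrank_ker (g.domRestrict (U.comap g))
  have h2 : Module.finrank K (LinearMap.range (g.domRestrict (U.comap g))) ≤
      Module.finrank K U := by
    apply Submodule.finrank_mono
    rintro _ ⟨x, rfl⟩
    exact x.2
  have h3 : Module.finrank K (LinearMap.ker (g.domRestrict (U.comap g))) ≤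
      Module.finrank K (LinearMap.ker g) := by
    rw [← Submodule.finrank_map_subtype_eq]
    apply Submodule.finrank_mono
    rintro _ ⟨x, hx, rfl⟩
    exact hx
  omega

theorem finrank_ker_ge {K V : Type} [Field K] [AddCommGroup V] [Module K V]
    [Module.Finite K V] {j : ℕ} (L : V →ₗ[K] ((Fin j → K) × (Fin j → K) × (Fin j → K))) :
    Module.finrank K V ≤ Module.finrank K (LinearMap.ker L) + 3 * j := by
  have h1 := LinearMap.finrank_range_add_finrank_ker L
  have h2 := Submodule.finrank_le (LinearMap.range L)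
  rw [Module.finrank_prod, Module.finrank_prod, Module.finrank_fin_fun] at h2
  omega

end GRFM

open GRFM

theorem specGRF (hAVS : SpecAVS) (hCWQ : SpecCWQ) : SpecGRF := by
  intro K _ F V₀ _ _ S₀ m k hcls f hf hrk
  have := hcls.finK
  have := hcls.finV
  set S := S₀.std m with hS
  -- the induction
  have key : ∀ j : ℕ, j ≤ 2 * k → ∃ u : Fin j → SV K V₀ m,
      LinearIndependent K (Sum.elim u (fun i => f (u i))) ∧
      ∀ i i', S.Sg (u i) ∧ S.B (u i) (u i') = 0 ∧ S.B (u i) (f (u i')) = 0 := by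
    intro j
    induction j with
    | zero =>
      intro _
      refine ⟨fun i => i.elim0, ?_, fun i => i.elim0⟩
      have : IsEmpty (Fin 0 ⊕ Fin 0) := inferInstance
      exact linearIndependent_empty_type
    | succ j ih =>
      intro hj
      obtain ⟨u, hli, hu⟩ := ih (by omega)
      let U : Submodule K (SV K V₀ m) :=
        Submodule.span K (Set.range (Sum.elim u (fun i => f (u i))))
      have hUdim : Module.finrank K U ≤ 2 * j := by
        have h1 := finrank_range_le_card (R := K) (Sum.elim u (fun i => f (u i)))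
        rw [Fintype.card_sum, Fintype.card_fin] at h1
        have h2 : Module.finrank K U = Set.finrank K (Set.range (Sum.elim u (fun i => f (u i)))) :=
          rfl
        rw [h2]
        omega
      let L : SV K V₀ m →ₗ[K] ((Fin j → K) × (Fin j → K) × (Fin j → K)) :=
        { toFun := fun v => (fun i => S.B v (u i), fun i => S.B v (f (u i)),
            fun i => S.B (f v) (u i))
          map_add' := by
            intro v w
            refine Prod.ext ?_ (Prod.ext ?_ ?_) <;> funext i <;>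
              simp [S.B_add_left]
          map_smul' := by
            intro c v
            refine Prod.ext ?_ (Prod.ext ?_ ?_) <;> funext i <;>
              simp [S.B_smul_left] }
      let W : Submodule K (SV K V₀ m) := LinearMap.ker L
      have hW : ∀ v ∈ W, ∀ i, S.B v (u i) = 0 ∧ S.B v (f (u i)) = 0 ∧ S.B (f v) (u i) = 0 := by
        intro v hv i
        have hv' : L v = 0 := hv
        refine ⟨?_, ?_, ?_⟩
        · exact congrFun (congrArg Prod.fst hv') i
        · exact congrFun (congrArg (fun z => z.2.1) hv') i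
        · exact congrFun (congrArg (fun z => z.2.2) hv') i
      have hWdim := finrank_ker_ge L
      let B : Option K → Submodule K (SV K V₀ m) := fun o =>
        match o with
        | none => U
        | some a => U.comap (f.toLinearMap - a • LinearMap.id)
      have hBdim : ∀ o, Module.finrank K (B o) + 6 ≤ Module.finrank K W := by
        intro o
        rcases o with _ | a
        · have h1 := hrk 0
          have h2 : Module.finrank K (LinearMap.range (f.toLinearMap -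
              (0 : K) • LinearMap.id)) ≤ Module.finrank K (SV K V₀ m) := Submodule.finrank_le _
          change Module.finrank K U + 6 ≤ Module.finrank K (LinearMap.ker L)
          omega
        · have h1 := hrk a
          have h2 := finrank_comap_le (f.toLinearMap - a • LinearMap.id) U
          have h3 := LinearMap.finrank_range_add_finrank_ker (f.toLinearMap - a • LinearMap.id)
          change Module.finrank K (U.comap (f.toLinearMap - a • LinearMap.id)) + 6 ≤
            Module.finrank K (LinearMap.ker L)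
          omega
      obtain ⟨X, hXW, hX5, hXB⟩ := hAVS K (SV K V₀ m) W B hBdim
      -- the quadratic map
      obtain ⟨p, hp⟩ : ∃ p, CharP K p := CharP.exists K
      have hpp : p.Prime := by
        have : Fintype K := Fintype.ofFinite K
        exact CharP.char_is_prime K p
      have : Finite X := Module.finite_of_finite K
      have : Finite (K ⧸ F.Λ) := inferInstance
      let φ : X → (K ⧸ F.Λ) × K := fun v => (QuotientAddGroup.mk (S.q v.1), S.B v.1 (f v.1))
      let b : X → X → (K ⧸ F.Λ) × K := fun v w =>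
        (QuotientAddGroup.mk (S.B v.1 w.1), S.B v.1 (f w.1) + S.B w.1 (f v.1))
      have hpK : ∀ y : K, p • y = 0 := fun y => by
        rw [nsmul_eq_mul, CharP.cast_eq_zero, zero_mul]
      obtain ⟨v, hv0, hvφ⟩ := hCWQ p X ((K ⧸ F.Λ) × K) φ b hpp
        (fun x => by
          apply Subtype.ext
          change p • x.1 = 0
          rw [← Nat.cast_smul_eq_nsmul K, CharP.cast_eq_zero, zero_smul])
        (fun y => by
          rcases y with ⟨y1, y2⟩
          refine Prod.ext ?_ (hpK y2)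
          induction y1 using QuotientAddGroup.induction_on with
          | H z =>
            change ((p • z : K) : K ⧸ F.Λ) = 0
            rw [hpK z]
            rfl)
        (fun v w z => by
          refine Prod.ext ?_ ?_
          · change ((S.B (v.1 + w.1) z.1 : K) : K ⧸ F.Λ) = _
            rw [S.B_add_left]
            rfl
          · change S.B (v.1 + w.1) (f z.1) + S.B z.1 (f (v.1 + w.1)) =
              (S.B v.1 (f z.1) + S.B z.1 (f v.1)) + (S.B w.1 (f z.1) + S.B z.1 (f w.1))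
            rw [S.B_add_left, map_add, S.B_add_right]
            ring)
        (fun v w z => by
          refine Prod.ext ?_ ?_
          · change ((S.B v.1 (w.1 + z.1) : K) : K ⧸ F.Λ) = _
            rw [S.B_add_right]
            rfl
          · change S.B v.1 (f (w.1 + z.1)) + S.B (w.1 + z.1) (f v.1) =
              (S.B v.1 (f w.1) + S.B w.1 (f v.1)) + (S.B v.1 (f z.1) + S.B z.1 (f v.1))
            rw [S.B_add_left, map_add, S.B_add_right]
            ring)
        (fun v w => by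
          refine Prod.ext ?_ ?_
          · change ((S.q (v.1 + w.1) : K) : K ⧸ F.Λ) =
              ((S.q v.1 + S.q w.1 + S.B v.1 w.1 : K) : K ⧸ F.Λ)
            rw [QuotientAddGroup.eq_iff_sub_mem]
            exact S.q_add _ _
          · change S.B (v.1 + w.1) (f (v.1 + w.1)) =
              S.B v.1 (f v.1) + S.B w.1 (f w.1) + (S.B v.1 (f w.1) + S.B w.1 (f v.1))
            rw [S.B_add_left, map_add, S.B_add_right, S.B_add_right]
            ring)
        (by
          rw [Nat.card_prod, Module.natCard_eq_pow_finrank (K := K) (V := X), hX5]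
          have h1 : Nat.card (K ⧸ F.Λ) ≤ Nat.card K :=
            Nat.card_le_card_of_surjective _ (QuotientAddGroup.mk_surjective)
          have h2 : 1 < Nat.card K := Finite.one_lt_card
          calc (Nat.card (K ⧸ F.Λ) * Nat.card K) ^ 2 ≤ (Nat.card K * Nat.card K) ^ 2 :=
                Nat.pow_le_pow_left (Nat.mul_le_mul_right _ h1) 2
            _ = Nat.card K ^ 4 := by ring
            _ < Nat.card K ^ 5 := Nat.pow_lt_pow_right h2 (by norm_num))
      have hvq : S.Sg v.1 := by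
        have h1 : ((S.q v.1 : K) : K ⧸ F.Λ) = 0 := congrArg Prod.fst hvφ
        exact (QuotientAddGroup.eq_zero_iff _).1 h1
      have hvf : S.B v.1 (f v.1) = 0 := congrArg Prod.snd hvφ
      have hv1 : v.1 ≠ 0 := fun h => hv0 (Subtype.ext h)
      have hvW := hW v.1 (hXW v.2)
      have hnU : v.1 ∉ U := by
        intro h
        exact hv1 ((Submodule.disjoint_def.1 (hXB none)) v.1 v.2 h)
      have hnB : ∀ a : K, f v.1 - a • v.1 ∉ U := by
        intro a h
        exact hv1 ((Submodule.disjoint_def.1 (hXB (some a))) v.1 v.2 h)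
      refine ⟨Fin.cons v.1 u, ?_, ?_⟩
      · rw [Fintype.linearIndependent_iff] at hli ⊢
        intro g hg
        rw [Fintype.sum_sum_type, Fin.sum_univ_succ, Fin.sum_univ_succ] at hg
        simp only [Sum.elim_inl, Sum.elim_inr, Fin.cons_zero, Fin.cons_succ] at hg
        have hU1 : (∑ i : Fin j, g (Sum.inl i.succ) • u i) +
            ∑ i : Fin j, g (Sum.inr i.succ) • f (u i) ∈ U := by
          refine U.add_mem (Submodule.sum_mem _ (fun i _ => U.smul_mem _ ?_))
            (Submodule.sum_mem _ (fun i _ => U.smul_mem _ ?_))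
          · exact Submodule.subset_span ⟨Sum.inl i, rfl⟩
          · exact Submodule.subset_span ⟨Sum.inr i, rfl⟩
        have hU2 : g (Sum.inl 0) • v.1 + g (Sum.inr 0) • f v.1 ∈ U := by
          have h1 : g (Sum.inl 0) • v.1 + g (Sum.inr 0) • f v.1 =
              -((∑ i : Fin j, g (Sum.inl i.succ) • u i) +
                ∑ i : Fin j, g (Sum.inr i.succ) • f (u i)) := by
            rw [eq_neg_iff_add_eq_zero, ← hg]
            abel
          rw [h1]
          exact U.neg_mem hU1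
        have hd : g (Sum.inr 0) = 0 := by
          by_contra hne
          apply hnB (-(g (Sum.inl 0)) / g (Sum.inr 0))
          have h1 := U.smul_mem (g (Sum.inr 0))⁻¹ hU2
          convert h1 using 1
          rw [smul_add, smul_smul, smul_smul, inv_mul_cancel₀ hne, one_smul]
          module
        have hc : g (Sum.inl 0) = 0 := by
          by_contra hne
          apply hnU
          rw [hd, zero_smul, add_zero] at hU2
          have h1 := U.smul_mem (g (Sum.inl 0))⁻¹ hU2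
          rwa [smul_smul, inv_mul_cancel₀ hne, one_smul] at h1
        rw [hc, hd, zero_smul, zero_smul, zero_add, zero_add] at hg
        have h5 := hli (Sum.elim (fun i => g (Sum.inl i.succ)) (fun i => g (Sum.inr i.succ)))
          (by
            rw [Fintype.sum_sum_type]
            simpa only [Sum.elim_inl, Sum.elim_inr] using hg)
        intro i
        rcases i with i | i
        · refine Fin.cases hc (fun i => ?_) i
          exact h5 (Sum.inl i)
        · refine Fin.cases hd (fun i => ?_) i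
          exact h5 (Sum.inr i)
      · intro i i'
        refine Fin.cases ?_ (fun i => ?_) i
        · refine Fin.cases ?_ (fun i' => ?_) i'
          · simp only [Fin.cons_zero]
            exact ⟨hvq, hvq.self, hvf⟩
          · simp only [Fin.cons_zero, Fin.cons_succ]
            exact ⟨hvq, (hvW i').1, (hvW i').2.1⟩
        · refine Fin.cases ?_ (fun i' => ?_) i'
          · simp only [Fin.cons_zero, Fin.cons_succ]
            exact ⟨(hu i i).1, S.B_eq_zero_swap (hvW i).1, S.B_eq_zero_swap (hvW i).2.2⟩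
          · simp only [Fin.cons_succ]
            exact hu i i'
  exact key (2 * k) le_rfl

end Pool.Agent.Lib.MP66ef6b.CL
end

section
set_option autoImplicit false

/-!
# MP_66ef6b_al, THEOREM L2, module PK2: commutators with a subgroup
-/

namespace Pool.Agent.Lib.MP66ef6b.CL

open PL (SLn fx)

namespace PK2M

theorem fy_singleton {A : Type} [Group A] (Γ : Subgroup A) (Ω : Type) [MulAction Γ Ω] (g : A)
    (hg : g ∈ Γ) : fy Γ Ω {g} = fx Ω ({⟨g, hg⟩} : Set Γ) := by
  ext ω
  simp only [fy, fx, Set.mem_setOf_eq, Set.mem_singleton_iff, forall_eq]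
  constructor
  · intro h
    exact h ⟨g, hg⟩ rfl
  · intro h γ hγ
    have h1 : γ = ⟨g, hg⟩ := Subtype.ext hγ
    rw [h1]
    exact h

end PK2M

open PK2M in
/-- **PK2**. -/
theorem specPK2 : SpecPK2 := by
  intro K _ F V₀ _ _ S₀ m δ hδ hδ1 g hg T₀ hT₀ hfin hcard hall
  intro Ω _ _ _ hΩ
  by_contra hcon
  push Not at hcon
  have e : (T₀.subgroupOf ((S₀.std m).D ⊤)) ≃* T₀ := Subgroup.subgroupOfEquivOfLe hT₀
  haveI : Finite (T₀.subgroupOf ((S₀.std m).D ⊤)) := Finite.of_equiv T₀ e.symm.toEquiv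
  have hc : Nat.card (T₀.subgroupOf ((S₀.std m).D ⊤)) = Nat.card T₀ := Nat.card_congr e.toEquiv
  rw [fy_singleton ((S₀.std m).D ⊤) Ω g hg] at hcon
  obtain ⟨t, htT, ht1, ht⟩ := (PL.specPICK PL.specAVG ((S₀.std m).D ⊤) Ω
    (T₀.subgroupOf ((S₀.std m).D ⊤)) ⟨g, hg⟩ δ hδ hδ1 hcon).1 (by rw [hc]; exact hcard)
  have htT' : (t : SV K V₀ m ≃ₗ[K] SV K V₀ m) ∈ T₀ := Subgroup.mem_subgroupOf.1 htT
  have ht1' : (t : SV K V₀ m ≃ₗ[K] SV K V₀ m) ≠ 1 := by
    intro h
    exact ht1 (Subtype.ext h)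
  have h1 := hall t htT' ht1' Ω hΩ
  have hmem : g * (t : SV K V₀ m ≃ₗ[K] SV K V₀ m) * g⁻¹ *
      (t : SV K V₀ m ≃ₗ[K] SV K V₀ m)⁻¹ ∈ (S₀.std m).D ⊤ :=
    mul_mem (mul_mem (mul_mem hg t.2) (inv_mem hg)) (inv_mem t.2)
  rw [fy_singleton ((S₀.std m).D ⊤) Ω _ hmem] at h1
  exact absurd ht (not_le.2 h1)

end Pool.Agent.Lib.MP66ef6b.CL
end

section
set_option autoImplicit false

/-!
# MP_66ef6b_al, THEOREM L2, module SGY (helper56): singular vectors orthogonal to four vectors

`X = {x | B(y_i, x) = 0, i = 0, .., 3}` is the kernel of an additive map `V → K⁴`, so `|X| q⁴ ≥ |V|`;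
Chevalley-Warning (CWQ) for `q : X → K / Λ`.
-/

namespace Pool.Agent.Lib.MP66ef6b.CL

namespace SGYM

variable {K : Type} [Field K] {F : FD K} {V : Type} [AddCommGroup V] [Module K V]

/-- evaluation of the form against four vectors, as an additive map. -/
def ev (S : Sq F V) (y : Fin 4 → V) : V →+ (Fin 4 → K) where
  toFun x := fun i => S.B (y i) x
  map_zero' := by
    ext i
    exact S.B_zero_right _
  map_add' u v := by
    ext i
    exact S.B_add_right _ _ _

theorem mem_ker (S : Sq F V) (y : Fin 4 → V) (x : V) :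
    x ∈ (ev S y).ker ↔ ∀ i, S.B (y i) x = 0 := by
  rw [AddMonoidHom.mem_ker]
  exact funext_iff

omit [Module K V] in
/-- the kernel of an additive map to `K⁴`. -/
theorem card_ker [Finite K] (f : V →+ (Fin 4 → K)) :
    Nat.card V ≤ Nat.card f.ker * Nat.card K ^ 4 := by
  have h1 : Nat.card V = Nat.card f.ker * Nat.card f.range := by
    rw [← AddSubgroup.card_mul_index f.ker, AddSubgroup.index_ker]
  have h2 : Nat.card f.range ≤ Nat.card K ^ 4 := by
    have h3 : Nat.card f.range ≤ Nat.card (Fin 4 → K) :=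
      Nat.card_le_card_of_injective (fun z : f.range => (z : Fin 4 → K)) Subtype.val_injective
    have h4 : Nat.card (Fin 4 → K) = Nat.card K ^ 4 := by
      rw [Nat.card_fun, Nat.card_fin]
    rwa [h4] at h3
  rw [h1]
  exact Nat.mul_le_mul_left _ h2

end SGYM

open SGYM

theorem specSGY (hCWQ : SpecCWQ) (hQSZ : SpecQSZ) : SpecSGY := by
  intro K _ F V₀ _ _ S₀ m hC y
  have := hC.finK
  have := hC.finV
  have : Finite V₀ := Module.finite_of_finite K
  have hq := hQSZ K F V₀ S₀ m hC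
  obtain ⟨S, hS⟩ : ∃ S : Sq F (SV K V₀ m), S = S₀.std m := ⟨_, rfl⟩
  rw [← hS]
  have h3 : Nat.card (K ⧸ F.Λ) ^ 2 < Nat.card (ev S y).ker := by
    by_contra h
    rw [not_lt] at h
    have h1 := card_ker (ev S y)
    have h2 := Nat.mul_le_mul_right (Nat.card K ^ 4) h
    omega
  obtain ⟨p, hp⟩ := CharP.exists K
  have hpp : p.Prime := by
    rcases CharP.char_is_prime_or_zero K p with h | h
    · exact h
    · exfalso
      subst h
      have : CharZero K := CharP.charP_to_charZero K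
      exact not_finite K
  have hpv : ∀ v : SV K V₀ m, p • v = 0 := by
    intro v
    have h1 : p • v = (p : K) • v := (Nat.cast_smul_eq_nsmul K p v).symm
    rw [h1, CharP.cast_eq_zero, zero_smul]
  have hpk : ∀ v : K, p • v = 0 := by
    intro v
    rw [nsmul_eq_mul, CharP.cast_eq_zero, zero_mul]
  obtain ⟨u, hu0, hu⟩ := hCWQ p (ev S y).ker (K ⧸ F.Λ)
    (fun x => (QuotientAddGroup.mk (S.q x.1) : K ⧸ F.Λ))
    (fun x z => (QuotientAddGroup.mk (S.B x.1 z.1) : K ⧸ F.Λ)) hpp
    (fun x => Subtype.ext (hpv x.1))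
    (fun z => by
      induction z using QuotientAddGroup.induction_on with
      | H z =>
        have h1 : p • (QuotientAddGroup.mk z : K ⧸ F.Λ) = QuotientAddGroup.mk (p • z) := rfl
        rw [h1, hpk]
        rfl)
    (fun u v w => by
      have h1 : S.B (u + v : (ev S y).ker).1 w.1 = S.B u.1 w.1 + S.B v.1 w.1 :=
        S.B_add_left _ _ _
      show (QuotientAddGroup.mk (S.B (u + v : (ev S y).ker).1 w.1) : K ⧸ F.Λ) = _
      rw [h1]
      rfl)
    (fun u v w => by
      have h1 : S.B u.1 (v + w : (ev S y).ker).1 = S.B u.1 v.1 + S.B u.1 w.1 :=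
        S.B_add_right _ _ _
      show (QuotientAddGroup.mk (S.B u.1 (v + w : (ev S y).ker).1) : K ⧸ F.Λ) = _
      rw [h1]
      rfl)
    (fun u v => by
      have h1 := S.q_add u.1 v.1
      have h2 : (QuotientAddGroup.mk (S.q u.1 + S.q v.1 + S.B u.1 v.1) : K ⧸ F.Λ) =
          QuotientAddGroup.mk (S.q (u.1 + v.1)) := by
        rw [QuotientAddGroup.eq]
        have h4 : -(S.q u.1 + S.q v.1 + S.B u.1 v.1) + S.q (u.1 + v.1) =
            S.q (u.1 + v.1) - (S.q u.1 + S.q v.1 + S.B u.1 v.1) := by ring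
        rw [h4]
        exact h1
      exact h2.symm)
    h3
  refine ⟨u.1, ?_, ?_, ?_⟩
  · intro h
    exact hu0 (Subtype.ext h)
  · exact (QuotientAddGroup.eq_zero_iff (N := F.Λ) (S.q u.1)).1 hu
  · exact (mem_ker S y u.1).1 u.2

end Pool.Agent.Lib.MP66ef6b.CL
end
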