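import Pool.Agent.Lib.MP_66ef6b_al.CL.Std

set_option autoImplicit false

/-!
# MP_66ef6b_al, THEOREM L2 (helper14). Part D: fixed point ratios of classical groups

`V = E ⊕ E' ⊕ V₀` the standard space, `Γ = D ⊤` the group generated by the Siegel transformations,
`𝒢 = GL(V)`. Basic lemmas (proved): `CL/Base.lean` (`Sq.T_apply`, `Sq.T_mul`, `Sq.T_inv`, `Sq.T_comm`,
`Sq.T_conj`, `Sq.T_smul`, `Sq.T_mem_Iso`, `Sq.B_swap`, `FD.skew`, ..), `CL/Std.lean`.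

TARGET (THC): for every `δ > 0` there are `q`, `R` such that every element `f ∈ Γ` with at least `δ |Ω|` fixed
points in an action of `Γ` without global fixed points is scalar, or `|K| < q` and `rank (f - a) ≤ R` for
some `a ∈ K`. Deduced from the linear THEOREM A (`PL.SpecTHA`, proved: `PL/Main.lean`, `PL.thA`).

Notation in the proofs: `T x w a`, `[g, h] = g h g⁻¹ h⁻¹`, `q = |K|`, `n = dim V = 2 m + dim V₀`, `e_i = eV i`, `f_i = fV i`,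
`B(e_i, f_i) = 1`, `B(f_i, e_i) = ε`, `B(v, e_i) = ε (v.2.1 i)`, `B(v, f_i) = v.1 i`, `B(e_i, v) = σ (v.2.1 i)`,
`B(f_i, v) = ε σ (v.1 i)`.

Module `XXX` = file `CL/XXX.lean`, `import Pool.Agent.Lib.MP_66ef6b_al.CL.SpecD` (or `SpecE`), namespace
`Pool.Agent.Lib.MP66ef6b.CL`, own lemmas in the namespace `...CL.XXXM`, theorem
`specXXX (hYYY : SpecYYY) .. : SpecXXX` (hypotheses in the order of the list in the docstring).
-/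

namespace Pool.Agent.Lib.MP66ef6b.CL

open PL (SLn fx)

/-- the points fixed by the elements of `Γ` which lie in `M`. -/
def fy {A : Type} [Group A] (Γ : Subgroup A) (Ω : Type) [MulAction Γ Ω] (M : Set A) : Set Ω :=
  {ω | ∀ γ : Γ, (γ : A) ∈ M → γ • ω = ω}

section defs

variable {K : Type} [Field K] (F : FD K) (V₀ : Type) [AddCommGroup V₀] [Module K V₀]

/-- `SL_m(K)` acting on `V`. -/
def lamS (m : ℕ) : Subgroup (SV K V₀ m ≃ₗ[K] SV K V₀ m) := (lam F V₀ m).range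

/-- the group of the `z_D`. -/
def ZES (m : ℕ) : Set (SV K V₀ m ≃ₗ[K] SV K V₀ m) :=
  {g | ∃ D : Matrix (Fin m) (Fin m) K, DM F D ∧ g = zE V₀ D}

/-- the group of the `z'_D`. -/
def ZFS (m : ℕ) : Set (SV K V₀ m ≃ₗ[K] SV K V₀ m) :=
  {g | ∃ D : Matrix (Fin m) (Fin m) K, DM F D ∧ g = zF V₀ D}

variable {F V₀} (S₀ : Sq F V₀)

/-- the `T_{u,v,c}` with `u ∈ E` and the given `v ∈ V₀`. -/
def NV1 (m : ℕ) (v : V₀) : Set (SV K V₀ m ≃ₗ[K] SV K V₀ m) :=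
  {g | ∃ (a : Fin m → K) (c : K), (S₀.std m).Adm (a, 0, 0) (0, 0, v) c ∧
    g = (S₀.std m).T (a, 0, 0) (0, 0, v) c}

/-- the `T_{u,v,c}` with `u ∈ E`, `v ∈ V₀`. -/
def NVE (m : ℕ) : Set (SV K V₀ m ≃ₗ[K] SV K V₀ m) :=
  {g | ∃ (a : Fin m → K) (v : V₀) (c : K), (S₀.std m).Adm (a, 0, 0) (0, 0, v) c ∧
    g = (S₀.std m).T (a, 0, 0) (0, 0, v) c}

/-- the `T_{u,v,c}` with `u ∈ E'`, `v ∈ V₀`. -/
def NVF (m : ℕ) : Set (SV K V₀ m ≃ₗ[K] SV K V₀ m) :=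
  {g | ∃ (a : Fin m → K) (v : V₀) (c : K), (S₀.std m).Adm (0, a, 0) (0, 0, v) c ∧
    g = (S₀.std m).T (0, a, 0) (0, 0, v) c}

/-- generators of `Γ`. -/
def GS (m : ℕ) : Set (SV K V₀ m ≃ₗ[K] SV K V₀ m) :=
  (lamS F V₀ m : Set (SV K V₀ m ≃ₗ[K] SV K V₀ m)) ∪ ZES F V₀ m ∪ ZFS F V₀ m ∪ NVE S₀ m ∪ NVF S₀ m

/-- `g` has less than `δ |Ω|` fixed points in every action of `Γ` without global fixed points. -/
def Bd (m : ℕ) (δ : ℝ) (g : SV K V₀ m ≃ₗ[K] SV K V₀ m) : Prop :=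
  ∀ (Ω : Type) [MulAction ((S₀.std m).D ⊤) Ω] [Finite Ω] [Nonempty Ω],
    fy ((S₀.std m).D ⊤) Ω (Set.univ : Set (SV K V₀ m ≃ₗ[K] SV K V₀ m)) = ∅ →
    ((fy ((S₀.std m).D ⊤) Ω {g}).ncard : ℝ) < δ * Nat.card Ω

/-- the subspace `⟨e_0, f_0⟩^⊥` of the standard space. -/
def Wr (K V₀ : Type) [Field K] [AddCommGroup V₀] [Module K V₀] (m : ℕ) :
    Submodule K (SV K V₀ (m + 1)) where
  carrier := {v | v.1 0 = 0 ∧ v.2.1 0 = 0}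
  add_mem' := by
    rintro u v ⟨h1, h2⟩ ⟨h3, h4⟩
    constructor
    · simp [h1, h3]
    · simp [h2, h4]
  zero_mem' := ⟨rfl, rfl⟩
  smul_mem' := by
    rintro c v ⟨h1, h2⟩
    constructor
    · simp [h1]
    · simp [h2]

/-- the isometry of the standard spaces onto `⟨e_0, f_0⟩^⊥`. -/
def jW {K V₀ : Type} [Field K] {m : ℕ} (v : SV K V₀ m) : SV K V₀ (m + 1) :=
  (Fin.cons 0 v.1, Fin.cons 0 v.2.1, v.2.2)

/-- the form is non-degenerate. -/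
def Sq.Nd {V : Type} [AddCommGroup V] [Module K V] (S : Sq F V) : Prop :=
  ∀ v, (∀ w, S.B v w = 0) → v = 0

/-- the pairs of singular orthogonal independent vectors. -/
def Sq.TPs {V : Type} [AddCommGroup V] [Module K V] (S : Sq F V) : Set (V × V) :=
  {τ | S.Sg τ.1 ∧ S.Sg τ.2 ∧ S.B τ.1 τ.2 = 0 ∧ LinearIndependent K ![τ.1, τ.2]}

end defs

/-! ## Part 1: climbing from `SL_m(K)` to `Γ` -/

/-- LMD [150 lines]. The generators are in `Γ`, and everything consists of isometries.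

Proof. `SL_m(K)` is generated by transvections (`Matrix.SpecialLinearGroup.diagonal_transvection_induction'`
and `Matrix.diag2_decompose`, or `PL.specFUL`; see `PL/FUL.lean`); for `i ≠ j`: `B(y, e_i) = ε b'_i`, `B(y, c f_j) = σ(c) b_j`
for `y = (b, b', w)`, so `T (e_i) (c f_j) 0 = lam (1 - ε σ(c) E_ij)`: `y ↦ y + ε b'_i c f_j - ε σ(c) b_j e_i`. `z_D` with
`D = y E_ij - ε σ(y) E_ji` (`i ≠ j`): `T (e_j) (-y... e_i) 0`-type: `T (c e_j) (e_i) 0 : y ↦ y + ε σ(c) b'_j e_i - ε (ε b'_i) c e_j`, which is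
`z_D` with `D_ij = ε σ(c)`, `D_ji = -c = -ε σ(ε σ(c))`. `D = λ E_ii`, `λ ∈ Λ`: `T (e_i) 0 a : y ↦ y - ε a (ε b'_i) e_i`, `λ = -a`.
Every `D` with `DM` is a sum of these, `z_(D + D') = z_D z_D'`. The same for `z'_D`. -/
def SpecLMD : Prop := ∀ (K : Type) [Field K] (F : FD K) (V₀ : Type) [AddCommGroup V₀] [Module K V₀]
  (S₀ : Sq F V₀) (m : ℕ), GS S₀ m ⊆ (S₀.std m).D ⊤ ∧
  (lamS F V₀ m ≤ (S₀.std m).D ⊤ ∧ ZES F V₀ m ⊆ (S₀.std m).D ⊤ ∧ ZFS F V₀ m ⊆ (S₀.std m).D ⊤ ∧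
    NVE S₀ m ⊆ (S₀.std m).D ⊤ ∧ NVF S₀ m ⊆ (S₀.std m).D ⊤) ∧ swp F V₀ m ∈ (S₀.std m).Iso

/-- MAU2 [120 lines]. The Mautner step.

Proof. `R` = representatives of the cosets `u Z` in `N`, `|R| = |N| / |Z|`. `A_u = u • fy M`, `C = fy (M ∪ N)`, `C ⊆ A_u`. For
`u ≠ u'` in `R`: `A_u ∩ A_u' ⊆ C`. Let `ω` be in it, `ω' = u'⁻¹ ω`, `d = u'⁻¹ u ∉ Z`; the stabiliser of `ω'` (image in `A`) contains
`M` and `d M d⁻¹` (`d⁻¹ ω' = u⁻¹ ω ∈ fy M`), so it contains `N`, `ω = u' ω' = ω' ∈ C`. So `|R| (|fy M| - |C|) ≤ |Ω|`. -/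
def SpecMAU2 : Prop := ∀ (A Ω : Type) [Group A] (Γ M N Z : Subgroup A) [MulAction Γ Ω] [Finite Ω],
  M ≤ Γ → N ≤ Γ → Finite N → Z ≤ N →
  (∀ d ∈ N, d ∉ Z → ∀ H : Subgroup A, M ≤ H → (∀ m ∈ M, d * m * d⁻¹ ∈ H) → N ≤ H) →
  Nat.card N * (fy Γ Ω (M : Set A)).ncard ≤
    Nat.card N * (fy Γ Ω ((M : Set A) ∪ (N : Set A))).ncard + Nat.card Z * Nat.card Ω

/-- ZEL [200 lines]. Additive groups of skew matrices invariant under `D ↦ g D σ(g)ᵀ`.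

`H` is such a group which contains all `g D σ(g)ᵀ - D` for the given matrix `D ≠ 0` with `DM F D`.
(1) `H` contains all `elm i j y = y E_ij - ε σ(y) E_ji`, `i ≠ j`, and all `(y - ε σ(y)) E_ii`. (2) In the symplectic case, if
a diagonal entry of `D` is not zero, then `H` contains everything.

Proof. For `g = 1 + c E_ij`: `g X σ(g)ᵀ - X` has row `i` = `c` (row `j` of `X`), column `i` = `σ(c)` (column `j` of `X`), the
entry `(i, i)` is `c X_ji + σ(c) X_ij + c σ(c) X_jj`, and all other entries are zero. From one `elm i j y ∈ H`, `y ≠ 0`: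
`1 + c E_ki` (`k ≠ i, j`) gives `elm k j (c y)`; so by moving first one index and then the other (`m ≥ 3`) all `elm k l z`;
`1 + c E_ji` gives `(c y - ε σ(c y)) E_jj`. To get one: if `D` has an entry `D_ab ≠ 0`, `a ≠ b`: choose `k ≠ a, b`,
`Δ = (1 + E_ka) D σ(1 + E_ka)ᵀ - D ∈ H` is supported in row and column `k`, `Δ_kb = D_ab ≠ 0`; with `l = a`: `(1 + E_ab)` applied to
`Δ`: row `a` gets row `b` of `Δ`, which has only the entry `(b, k)`; the difference is `elm k a (Δ_kb)` up to sign and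
conjugation. If `D` is diagonal, `D_aa ≠ 0`: `Δ = (1 + E_ka) D σ(..)ᵀ - D` has the entries `(k, a)`: `D_aa`, and `(k, k)`: `D_aa`;
it is in `H` and not diagonal, and `H` contains its differences. (2) `Δ = (1 + c E_ka) D σ(..)ᵀ - D` is modulo the matrices
in (1) equal to `c² D_aa E_kk`; squares generate `K` additively. -/
def SpecZEL : Prop := ∀ (K : Type) [Field K] [Finite K] (F : FD K) (m : ℕ), 3 ≤ m →
  ∀ (D : Matrix (Fin m) (Fin m) K), DM F D → D ≠ 0 →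
  ∀ H : AddSubgroup (Matrix (Fin m) (Fin m) K),
  (∀ X ∈ H, ∀ g : SLn m K, g.1 * X * (g.1.map F.σ).transpose ∈ H) →
  (∀ g : SLn m K, g.1 * D * (g.1.map F.σ).transpose - D ∈ H) →
  (∀ (i j : Fin m) (y : K), i ≠ j →
    Matrix.single i j y - Matrix.single j i (F.ε * F.σ y) ∈ H ∧
    Matrix.single i i (y - F.ε * F.σ y) ∈ H) ∧
  ((∀ a, F.σ a = a) → F.Λ = ⊤ → (∃ a, D a a ≠ 0) → ∀ X, DM F X → X ∈ H)

/-- SZE [200 lines] (MAU2, ZEL, LMD). From `SL_m(K)` to the group of the `z_D`.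

Proof. `N = {z_D | DM F D}` (a subgroup, `z_D z_D' = z_(D + D')`, `D ↦ z_D` injective). `lam g z_D (lam g)⁻¹ = z_(g D σ(g)ᵀ)`.
If `H ≥ lamS` and `H ∋ d (lam g) d⁻¹` for all `g`, `d = z_D`, then `H ∋ lam g · d (lam g)⁻¹ d⁻¹ = z_(g D σ(g)ᵀ - D)`, and ZEL applies to
`{X | DM F X, z_X ∈ H}`. Orthogonal case (`Λ = 0`, so `X_ii = 0`) and unitary case (`Λ = {y + σ(y)}`: if `y + σ(y) ≠ 0` then
every `c = σ(c)` is a multiple `k (y + σ(y)) = k y + σ(k y)`, `k = σ(k)`; there is such a `y`, otherwise `σ(y) = -y` for all `y`,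
`y = 1`: characteristic 2, `σ = 1`): `Z = 1`, `N ≤ H` by (1), `|N| ≥ q^(m (m - 1) / 2) ≥ q^m`. Symplectic case: `Z = {z_D | all D_ii = 0}`,
(2), `|N : Z| = q^m`. MAU2. -/
def SpecSZE : Prop := ∀ (K : Type) [Field K] [Finite K] (F : FD K) (V₀ : Type) [AddCommGroup V₀]
  [Module K V₀] [Module.Finite K V₀] (m : ℕ), 3 ≤ m →
  ∀ (Γ : Subgroup (SV K V₀ m ≃ₗ[K] SV K V₀ m)) (Ω : Type) [MulAction Γ Ω] [Finite Ω],
  lamS F V₀ m ≤ Γ → ZES F V₀ m ⊆ Γ →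
  Nat.card K ^ m * (fy Γ Ω (lamS F V₀ m : Set (SV K V₀ m ≃ₗ[K] SV K V₀ m))).ncard ≤
    Nat.card K ^ m * (fy Γ Ω ((lamS F V₀ m : Set (SV K V₀ m ≃ₗ[K] SV K V₀ m)) ∪
      ZES F V₀ m)).ncard + Nat.card Ω

/-- NVV [250 lines] (MAU2). Adding the `T_{u,v,c}` for one `v ∈ V₀`.

Proof. `v = 0`: `T (a,0,0) 0 c` is a `z_D` (`D = -ε.. c a a^*`), nothing to show. Let `v ≠ 0`. `N = {T_{u,v,c} z | u ∈ E, c, z ∈ ZES}`,
`Z = ZES`. Products: `T_{u,v,c} T_{u',v,c'} = T_{u+u',v,c''} z` with `z ∈ ZES`: (for any admissible `c''`) both sides fix `E`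
pointwise, map `V₀` to `V₀ + E` in the same way and `E'` to `E' + V₀ + E` with the same part in `V₀`; an isometry `h` with
`h = 1` on `E ⊕ V₀` and `(h - 1) E' ⊆ E` is a `z_D`, `DM F D` (`h` an isometry); if `h = 1` on `E`, `(h - 1) V₀ ⊆ E`, `(h - 1) E' ⊆ E` then
`h = 1` on `V₀` (`B(h v, h e') = 0`). So `N` is a subgroup and `N / Z ≅ E`: `q^m` cosets (for `u ≠ 0` `T_{u,v,c}` is not in `Z`; `c`
exists for every `u`). `d = T_{u,v,c} z`, `u ≠ 0`, `H ≥ M₁`, `H ≥ d M₁ d⁻¹`: `H ∋ lam g d (lam g)⁻¹ d⁻¹ ∈ T_{gu,v,c} T_{u,v,c}⁻¹ ZES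
= T_{gu-u,v,..} ZES`, and the `g u - u` generate `E` additively (`m ≥ 2`: `g = 1 + c E_ij`). -/
def SpecNVV : Prop := ∀ (K : Type) [Field K] [Finite K] (F : FD K) (V₀ : Type) [AddCommGroup V₀]
  [Module K V₀] [Module.Finite K V₀] (S₀ : Sq F V₀) (m : ℕ), 3 ≤ m → S₀.Nd → ∀ v : V₀,
  ∀ (Γ M₁ : Subgroup (SV K V₀ m ≃ₗ[K] SV K V₀ m)) (Ω : Type) [MulAction Γ Ω] [Finite Ω],
  lamS F V₀ m ≤ M₁ → ZES F V₀ m ⊆ M₁ → M₁ ≤ Γ → NV1 S₀ m v ⊆ Γ →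
  Nat.card K ^ m * (fy Γ Ω (M₁ : Set (SV K V₀ m ≃ₗ[K] SV K V₀ m))).ncard ≤
    Nat.card K ^ m * (fy Γ Ω ((M₁ : Set (SV K V₀ m ≃ₗ[K] SV K V₀ m)) ∪ NV1 S₀ m v)).ncard +
      Nat.card Ω

/-- CLE [150 lines] (SZE, NVV). The radical of the stabiliser of `E`.

Proof. SZE, then NVV for the (at most two) elements `v₁, v₂` of a basis of `V₀`, with `M₁` = the subgroup generated by
what is fixed so far (`fy` of a set = `fy` of the generated subgroup, if it is contained in `Γ`). A point fixed by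
`lamS, ZES, NV1 v₁, NV1 v₂` is fixed by all `T_{u,v,c}`: `T_{u,c₁v₁,·} = T_{σ(c₁) u, v₁, ·}` (`Sq.T_smul`), `T_{u,c₁v₁+c₂v₂,c}` is a product
`T_{u,c₁v₁,·} T_{u,c₂v₂,·}` (`Sq.T_mul`) up to `T_{u,0,λ} ∈ ZES`. -/
def SpecCLE : Prop := ∀ (K : Type) [Field K] (F : FD K) (V₀ : Type) [AddCommGroup V₀]
  [Module K V₀] (S₀ : Sq F V₀) (m : ℕ), Cls S₀ m →
  ∀ (Γ : Subgroup (SV K V₀ m ≃ₗ[K] SV K V₀ m)) (Ω : Type) [MulAction Γ Ω] [Finite Ω],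
  lamS F V₀ m ≤ Γ → ZES F V₀ m ⊆ Γ → NVE S₀ m ⊆ Γ →
  Nat.card K ^ m * (fy Γ Ω (lamS F V₀ m : Set (SV K V₀ m ≃ₗ[K] SV K V₀ m))).ncard ≤
    Nat.card K ^ m * (fy Γ Ω ((lamS F V₀ m : Set (SV K V₀ m ≃ₗ[K] SV K V₀ m)) ∪ ZES F V₀ m ∪
      NVE S₀ m)).ncard + 3 * Nat.card Ω

/-- OREB [200 lines]. Singular vectors are moved into `E` by the generators.

Proof. `x = (a, a', v)`. Step 1: if `a' ≠ 0`: use `lam g` (contragredient action) to get `a' = e_0` (`a'_0 = 1`, others `0`).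
`T (e_0) (0,0,w) c` with `w = -ε v`, `c = q₀(w)`: `B(x, e_0) = ε`, so `x ↦ x + ε w + .. e_0`: now `v = 0`. Singular: `a_0 ∈ Λ`. `z_D` with
`D_i0 = -a_i`, `D_0i = ε σ(a_i)` (`i ≠ 0`), other entries `0`: now `a = 0`, `x = f_0`. `z_D` with `D_10 = 1`, `D_01 = -ε`: `x = e_1 + f_0`. `z'_D`
with `D_01 = -1`, `D_10 = ε`: `x = e_1 ∈ E`. Step 2: if `a' = 0`, `a ≠ 0`: `a = e_0` by `lam g`; `v`: `T (f_0) (0,0,w) c`: `B(x, f_0) = 1`: `w = -v`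
kills `v`, `x ↦ (e_0, * f_0, 0)`; if the new `a'` is `0` we are done, otherwise Step 1. Step 3: `a = a' = 0`, `v ≠ 0`: choose `w`
with `B(v, w) ≠ 0`, `T (e_0) (0,0,w) c`: `x ↦ v - ε B(v,w) e_0`; Step 2. -/
def SpecOREB : Prop := ∀ (K : Type) [Field K] (F : FD K) (V₀ : Type) [AddCommGroup V₀]
  [Module K V₀] (S₀ : Sq F V₀) (m : ℕ), 2 ≤ m → S₀.Nd → ∀ x : SV K V₀ m, (S₀.std m).Sg x → x ≠ 0 →
  ∃ g ∈ Subgroup.closure (GS S₀ m), ∃ a : Fin m → K, a ≠ 0 ∧ g x = (a, 0, 0)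

/-- NE1 [150 lines]. The `T_{u,w,c}` with `u ∈ E` are products of generators.

Proof. `u = (a,0,0)`, `a ≠ 0`; by conjugation with `lam g` we may assume `u = e_0`. `w = (b, b', v)`, `b'_0 = 0`. By `Sq.T_mul`
`T_{e_0,w,c}` is a product of `T_{e_0,(b,0,0),0}` (a `z_D`), `T_{e_0,(0,b',0),0}` (`= lam g` with `g = 1 - ε ∑_j σ(b'_j) E_0j`), `T_{e_0,(0,0,v),q(v)}`
(in `NVE`) and some `T_{e_0,0,λ}`, `λ ∈ Λ` (a `z_D`). -/
def SpecNE1 : Prop := ∀ (K : Type) [Field K] (F : FD K) (V₀ : Type) [AddCommGroup V₀]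
  [Module K V₀] (S₀ : Sq F V₀) (m : ℕ), 2 ≤ m → ∀ (a : Fin m → K) (w : SV K V₀ m) (c : K),
  (S₀.std m).Adm (a, 0, 0) w c → (S₀.std m).T (a, 0, 0) w c ∈ Subgroup.closure (GS S₀ m)

/-- GENC [80 lines] (OREB, NE1, LMD). Generation.

Proof. `g T_{x,w,c} g⁻¹ = T_{gx,gw,c}` (`Sq.T_conj`; `x = 0`: the identity). -/
def SpecGENC : Prop := ∀ (K : Type) [Field K] (F : FD K) (V₀ : Type) [AddCommGroup V₀]
  [Module K V₀] (S₀ : Sq F V₀) (m : ℕ), 2 ≤ m → S₀.Nd →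
  (S₀.std m).D ⊤ = Subgroup.closure (GS S₀ m)

/-- CLI [120 lines] (CLE, GENC, LMD). The climb.

Proof. CLE for the given action, and CLE for the action `γ * ω = (s γ s⁻¹) • ω`, `s = swp` (`Sq.conj_mem_D`): `s (lamS) s⁻¹ = lamS`
(`s (lam g) s⁻¹ = lam (σ(g)^-T)`), `s ZES s⁻¹ = ZFS` up to a factor (`s z_D s⁻¹ = z'_(ε D)`, the set of the `D` with `DM` is closed under
`ε`), `s NVE s⁻¹ = NVF` (`Sq.T_conj`). Both fixed point sets are subsets of `fy lamS`, with at most `3 |Ω| / q^m` points less;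
the intersection is fixed by `Γ` (GENC). -/
def SpecCLI : Prop := ∀ (K : Type) [Field K] (F : FD K) (V₀ : Type) [AddCommGroup V₀]
  [Module K V₀] (S₀ : Sq F V₀) (m : ℕ), Cls S₀ m →
  ∀ (Ω : Type) [MulAction ((S₀.std m).D ⊤) Ω] [Finite Ω],
  Nat.card K ^ m * (fy ((S₀.std m).D ⊤) Ω
      (lamS F V₀ m : Set (SV K V₀ m ≃ₗ[K] SV K V₀ m))).ncard ≤
    Nat.card K ^ m * (fy ((S₀.std m).D ⊤) Ω
      (Set.univ : Set (SV K V₀ m ≃ₗ[K] SV K V₀ m))).ncard + 6 * Nat.card Ω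

/-- FXR [120 lines] (PL.THA). Linear groups.

Proof. Let `Ω' = ` the points not fixed by everything; `Ω'` is a union of orbits `≅ SL_m(K) ⧸ S`, `S ≠ ⊤`; the number of
fixed points of `f` in this orbit is `|{y | y⁻¹ f y ∈ S}| / |S|`. THA for `δ`: it is less than `δ` times the length of the
orbit. `|fx {f}| ≤ |fx univ| + δ |Ω'|`. (`q` and `R` of THA.) -/
def SpecFXR : Prop := ∀ δ : ℝ, 0 < δ → δ ≤ 1 → ∃ q R : ℕ, ∀ (m : ℕ) (K : Type) [Field K] [Finite K]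
  (Ω : Type) [MulAction (SLn m K) Ω] [Finite Ω] (f : SLn m K), f ∉ Subgroup.center (SLn m K) →
  (q ≤ Nat.card K ∨ ∀ a : K, R < (f.1 - a • (1 : Matrix (Fin m) (Fin m) K)).rank) →
  ((fx Ω {f}).ncard : ℝ) ≤ (fx Ω (Set.univ : Set (SLn m K))).ncard + δ * Nat.card Ω

/-- BAS [100 lines] (FXR, CLI, LMD). Elements of `SL_m(K)`.

Proof. FXR for `δ / 2` for the action of `SL_m(K)` through `lam`; `|fy lamS| ≤ 6 |Ω| / q^m < (δ / 2) |Ω|` if `q^m > 12 / δ`: if `q`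
or `m` is large (`m ≥ rank (f - a) > R`). -/
def SpecBAS : Prop := ∀ δ : ℝ, 0 < δ → δ ≤ 1 → ∃ q R : ℕ, ∀ (K : Type) [Field K] (F : FD K)
  (V₀ : Type) [AddCommGroup V₀] [Module K V₀] (S₀ : Sq F V₀) (m : ℕ), Cls S₀ m →
  ∀ f : SLn m K, f ∉ Subgroup.center (SLn m K) →
  (q ≤ Nat.card K ∨ ∀ a : K, R < (f.1 - a • (1 : Matrix (Fin m) (Fin m) K)).rank) →
  Bd S₀ m δ (lam F V₀ m f)

/-! ## Part 2: transitivity -/

/-- EMB [150 lines]. The group of `⟨e_0, f_0⟩^⊥`.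

Proof. Closure induction for `g`: `T x w a ↦ T (jW x) (jW w) a`, `B (jW x) (jW y) = B x y`, and this fixes `e_0`, `f_0`. -/
def SpecEMB : Prop := ∀ (K : Type) [Field K] (F : FD K) (V₀ : Type) [AddCommGroup V₀]
  [Module K V₀] (S₀ : Sq F V₀) (m : ℕ), ∀ g ∈ (S₀.std m).D ⊤,
  ∃ g' ∈ (S₀.std (m + 1)).D (Wr K V₀ m), (∀ y : SV K V₀ m, g' (jW y) = jW (g y)) ∧
    g' (eV K V₀ 0) = eV K V₀ 0 ∧ g' (fV K V₀ 0) = fV K V₀ 0

/-- WT1 [150 lines] (LMD). Transitivity on vectors.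

Proof. As OREB: every `z ≠ 0` is moved by the generators to `(b e_0) + f_0`: `z = (a, a', v)`; first make `a' ≠ 0` (if `a ≠ 0`, `a' = 0`:
`a = e_0` by `lam g`, then `z'_D` with `D_10 = 1`, `D_01 = -ε`: `a' = e_1`; if `a = a' = 0`: `T (e_0) (0,0,w) c` with `B(v, w) ≠ 0`), then
`a' = e_0`, `v = 0`, `a_i = 0` for `i ≠ 0` as in OREB, and `a_0 ≡ q(z)` modulo `Λ`; `z_D` with `D = λ E_00`, `λ ∈ Λ`, changes `a_0` by `λ`. So
`z` and `z'` are moved to the same vector. -/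
def SpecWT1 : Prop := ∀ (K : Type) [Field K] (F : FD K) (V₀ : Type) [AddCommGroup V₀]
  [Module K V₀] (S₀ : Sq F V₀) (m : ℕ), 2 ≤ m → S₀.Nd → ∀ z z' : SV K V₀ m, z ≠ 0 → z' ≠ 0 →
  (S₀.std m).q z - (S₀.std m).q z' ∈ F.Λ → ∃ g ∈ (S₀.std m).D ⊤, g z = z'

/-- WT2 [150 lines] (WT1, EMB). Transitivity on pairs.

Proof. By WT1 we may assume `y = y' = e_0` (`q(y) ≡ 0 ≡ q(e_0)`). `z = (b, b', v)`, `b'_0 = 0` (`B(e_0, z) = σ(b'_0)`), `z₁ = z - b_0 e_0 =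
jW(..) ≠ 0`, `q(z₁) ≡ q(z)`, the same for `z'`. WT1 for `m - 1` and EMB: `g z₁ = z'₁`, `g e_0 = e_0`. So `g z = z'₁ + b_0 e_0`. Choose `w ∈ Wr` with
`ε B(z'₁, w) = b_0 - b'_0` where `b'_0` is the coordinate of `z'` (`z'₁ ≠ 0`, `Wr` non-degenerate), `c = q(w)`: `T (e_0) w c` fixes `e_0` and
maps `z'₁ + b_0 e_0` to `z'`. -/
def SpecWT2 : Prop := ∀ (K : Type) [Field K] (F : FD K) (V₀ : Type) [AddCommGroup V₀]
  [Module K V₀] (S₀ : Sq F V₀) (m : ℕ), 3 ≤ m → S₀.Nd → ∀ y z y' z' : SV K V₀ m,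
  (S₀.std m).Sg y → (S₀.std m).Sg y' → (S₀.std m).B y z = 0 → (S₀.std m).B y' z' = 0 →
  LinearIndependent K ![y, z] → LinearIndependent K ![y', z'] →
  (S₀.std m).q z - (S₀.std m).q z' ∈ F.Λ → ∃ g ∈ (S₀.std m).D ⊤, g y = y' ∧ g z = z'

/-- WT3 [80 lines] (WT1). Transitivity on hyperbolic pairs.

Proof. WT1: `x = e_0`. `y = (b, b', v)`, `b'_0 = 1`. `w = ε (y - f_0 - b_0 e_0) ∈ Wr`, `c = -b_0`: `T (e_0) w c f_0 = f_0 + ε w - c e_0 = y`;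
admissible because `q(y) ≡ b_0 + q(w)`. -/
def SpecWT3 : Prop := ∀ (K : Type) [Field K] (F : FD K) (V₀ : Type) [AddCommGroup V₀]
  [Module K V₀] (S₀ : Sq F V₀) (m : ℕ), 2 ≤ m + 1 → S₀.Nd → ∀ x y : SV K V₀ (m + 1),
  (S₀.std (m + 1)).Sg x → (S₀.std (m + 1)).Sg y → (S₀.std (m + 1)).B x y = 1 →
  ∃ g ∈ (S₀.std (m + 1)).D ⊤, g x = eV K V₀ 0 ∧ g y = fV K V₀ 0

/-- WTN [200 lines] (WT1, EMB, LMD). Transitivity on bases of totally singular subspaces.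

Proof. Induction over `r` for all `m`. `r + 1`: WT1: `u_0 ↦ e_0`; the vectors `u_i - (coordinate) e_0`, `i ≥ 1`, are in `Wr = jW(..)`,
singular, orthogonal, independent; by induction (`m - 1`) and EMB they are moved to `e_1, .., e_r` with `e_0` fixed. Now `u_i =
e_i + c_i e_0`; `lam g` with `g = 1 - ∑_(i ≥ 1) c_i E_0i`. -/
def SpecWTN : Prop := ∀ (K : Type) [Field K] (F : FD K) (V₀ : Type) [AddCommGroup V₀]
  [Module K V₀] (S₀ : Sq F V₀) (m r : ℕ) (hr : r + 1 ≤ m), S₀.Nd → ∀ u : Fin r → SV K V₀ m,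
  (∀ i, (S₀.std m).Sg (u i)) → (∀ i j, (S₀.std m).B (u i) (u j) = 0) → LinearIndependent K u →
  ∃ g ∈ (S₀.std m).D ⊤, ∀ i : Fin r, g (u i) = eV K V₀ (Fin.castLE (by omega) i)

/-- SPX [80 lines] (WT1). Singular vectors generate `x^⊥`.

Proof. WT1: `x = e_0`, `x^⊥ = {v.2.1 0 = 0}`. It is spanned by the `e_i`, the `f_i` (`i ≥ 1`) and the `(0,0,v) = u + q₀(v) e_1 - f_1`, where
`u = (0,0,v) - q₀(v) e_1 + f_1` is singular. -/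
def SpecSPX : Prop := ∀ (K : Type) [Field K] (F : FD K) (V₀ : Type) [AddCommGroup V₀]
  [Module K V₀] (S₀ : Sq F V₀) (m : ℕ), 2 ≤ m → S₀.Nd → ∀ x : SV K V₀ m, (S₀.std m).Sg x → x ≠ 0 →
  ∀ W : Submodule K (SV K V₀ m),
  (∀ u, (S₀.std m).Sg u → (S₀.std m).B u x = 0 → u ∈ W) → ∀ u, (S₀.std m).B u x = 0 → u ∈ W

/-- SCA [80 lines]. Maps fixing all singular points are scalar.

Proof. `f e_i = c_i e_i`, `f f_i = c'_i f_i`; `e_i + e_j`, `e_i + f_j` (`i ≠ j`) are singular: all these are equal to one `c`. For `v ∈ V₀`: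
`f (v - q₀(v) e_i + f_i) = d (..)`, so `f v = d v + (c - d) (q₀(v) e_i - f_i)` for `i = 0, 1` (with `d` depending on `i`); comparing the
coordinates at `f_0`: `c = d`. -/
def SpecSCA : Prop := ∀ (K : Type) [Field K] (F : FD K) (V₀ : Type) [AddCommGroup V₀]
  [Module K V₀] (S₀ : Sq F V₀) (m : ℕ), 2 ≤ m → ∀ f : SV K V₀ m ≃ₗ[K] SV K V₀ m,
  (∀ x, (S₀.std m).Sg x → ∃ c : K, f x = c • x) → ∃ c : K, ∀ v, f v = c • v

/-- PRU [80 lines] (WT2). A pair of vectors.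

Proof. WT2: `x = e_0`, `z = q(z) e_1 + f_1`. `u = ε e_1`, `v = e_2`. -/
def SpecPRU : Prop := ∀ (K : Type) [Field K] (F : FD K) (V₀ : Type) [AddCommGroup V₀]
  [Module K V₀] (S₀ : Sq F V₀) (m : ℕ), 3 ≤ m → S₀.Nd → ∀ x z : SV K V₀ m, (S₀.std m).Sg x →
  (S₀.std m).B x z = 0 → LinearIndependent K ![x, z] → ∃ u v : SV K V₀ m,
  (u, v) ∈ (S₀.std m).TPs ∧ (x, v) ∈ (S₀.std m).TPs ∧ (S₀.std m).B x u = 0 ∧
  (S₀.std m).B z u = 1 ∧ (S₀.std m).B z v = 0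

/-- PRV [60 lines] (WT1). The same for one vector.

Proof. WT1: `x = e_0`. `u = f_0`, `v = e_1`. -/
def SpecPRV : Prop := ∀ (K : Type) [Field K] (F : FD K) (V₀ : Type) [AddCommGroup V₀]
  [Module K V₀] (S₀ : Sq F V₀) (m : ℕ), 2 ≤ m → S₀.Nd → ∀ x : SV K V₀ m, (S₀.std m).Sg x → x ≠ 0 →
  ∃ u v : SV K V₀ m, (u, v) ∈ (S₀.std m).TPs ∧ (x, v) ∈ (S₀.std m).TPs ∧ (S₀.std m).B x u = 1

/-- NXC [120 lines] (WT1, WT3). Isometries trivial on `x^⊥ / x`.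

Proof. By conjugation (WT1) `x = e_0`; `y = g f_0`, `B(e_0, y) = 1`. As in WT3 there are `w ∈ Wr` and `c` with `T (e_0) w c f_0 = y`. `h = T⁻¹ g`
fixes `e_0`, `f_0`, and `h u - u ∈ K e_0` for `u ∈ Wr`, `B(h u, f_0) = B(u, f_0)`; so `h u = u`, `h = 1`. -/
def SpecNXC : Prop := ∀ (K : Type) [Field K] (F : FD K) (V₀ : Type) [AddCommGroup V₀]
  [Module K V₀] (S₀ : Sq F V₀) (m : ℕ), 2 ≤ m → S₀.Nd → ∀ x : SV K V₀ m, (S₀.std m).Sg x → x ≠ 0 →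
  ∀ g ∈ (S₀.std m).Iso, g x = x → (∀ u, (S₀.std m).B u x = 0 → ∃ c : K, g u = u + c • x) →
  ∃ (z : SV K V₀ m) (a : K), (S₀.std m).Adm x z a ∧ g = (S₀.std m).T x z a

/-! ## Part 3: quadratic equations -/

/-- CWQ [200 lines]. Zeros of quadratic maps (Chevalley, Warning).

Proof. `X` has an `𝔽_p`-basis of `N` elements, `Y` one of `r` elements, `2 r < N`. The coordinates of `φ` are polynomials of
degree at most `2` in the coordinates of `X` (`φ (∑ c_i u_i) = ∑ (c_i φ(u_i) + (c_i (c_i - 1) / 2) b(u_i, u_i)) + ∑_(i < j) c_i c_j b(u_i, u_j)`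
for integers `0 ≤ c_i < p`; for `p = 2` the second term is not there), `φ 0 = 0`. `char_dvd_card_solutions_of_sum_lt`: the number of
zeros is divisible by `p`. -/
def SpecCWQ : Prop := ∀ (p : ℕ) (X Y : Type) [AddCommGroup X] [AddCommGroup Y] [Finite X]
  [Finite Y] (φ : X → Y) (b : X → X → Y), p.Prime → (∀ x : X, p • x = 0) → (∀ y : Y, p • y = 0) →
  (∀ u v w, b (u + v) w = b u w + b v w) → (∀ u v w, b u (v + w) = b u v + b u w) →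
  (∀ u v, φ (u + v) = φ u + φ v + b u v) → Nat.card Y ^ 2 < Nat.card X → ∃ u : X, u ≠ 0 ∧ φ u = 0

/-- QSZ [80 lines]. The size of `K / Λ`.

Proof. Symplectic: `1`. Orthogonal: `q`, so the square is `q²`, `n ≥ 7`. Unitary: `c ↦ c - σ(c)` has kernel `Λ` and its values `y`
satisfy `σ(y) = -y`; if `y₀ ≠ 0` is one of them then `y ↦ y / y₀` maps them injectively to `Λ`: `|K / Λ| ≤ |Λ|`, `|K / Λ|² ≤ q`. -/
def SpecQSZ : Prop := ∀ (K : Type) [Field K] (F : FD K) (V₀ : Type) [AddCommGroup V₀]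
  [Module K V₀] (S₀ : Sq F V₀) (m : ℕ), Cls S₀ m →
  Nat.card (K ⧸ F.Λ) ^ 2 * Nat.card K ^ 4 < Nat.card (SV K V₀ m)

/-- SGY [120 lines] (CWQ, QSZ). Singular vectors orthogonal to four vectors.

Proof. `X = {x | B(y_i, x) = 0 for i = 0, .., 3}`, `|X| ≥ |V| / q⁴`. CWQ for `φ = q : X → K / Λ`, `b = B`. -/
def SpecSGY : Prop := ∀ (K : Type) [Field K] (F : FD K) (V₀ : Type) [AddCommGroup V₀]
  [Module K V₀] (S₀ : Sq F V₀) (m : ℕ), Cls S₀ m → ∀ y : Fin 4 → SV K V₀ m,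
  ∃ x : SV K V₀ m, x ≠ 0 ∧ (S₀.std m).Sg x ∧ ∀ i, (S₀.std m).B (y i) x = 0

/-! ## Part 4: large fields -/

/-- PK2 [80 lines] (PL.PICK). Commutators with a subgroup.

Proof. PICK (1) (`PL.specPICK PL.specAVG`) for `Γ` acting on `Ω`, the subgroup of `Γ` corresponding to `T₀` and `f = g`. -/
def SpecPK2 : Prop := ∀ (K : Type) [Field K] (F : FD K) (V₀ : Type) [AddCommGroup V₀]
  [Module K V₀] (S₀ : Sq F V₀) (m : ℕ) (δ : ℝ), 0 < δ → δ ≤ 1 → ∀ g ∈ (S₀.std m).D ⊤,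
  ∀ T₀ : Subgroup (SV K V₀ m ≃ₗ[K] SV K V₀ m), T₀ ≤ (S₀.std m).D ⊤ → Finite T₀ →
  2 ≤ δ ^ 2 * Nat.card T₀ → (∀ t ∈ T₀, t ≠ 1 → Bd S₀ m (δ ^ 2 / 2) (g * t * g⁻¹ * t⁻¹)) → Bd S₀ m δ g

/-- CNJ [60 lines]. Conjugates and inverses. -/
def SpecCNJ : Prop := ∀ (K : Type) [Field K] (F : FD K) (V₀ : Type) [AddCommGroup V₀]
  [Module K V₀] (S₀ : Sq F V₀) (m : ℕ) (δ : ℝ) (g h : SV K V₀ m ≃ₗ[K] SV K V₀ m),
  (h ∈ (S₀.std m).D ⊤ → Bd S₀ m δ (h * g * h⁻¹) → Bd S₀ m δ g) ∧ (Bd S₀ m δ g⁻¹ → Bd S₀ m δ g)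

/-- TXC [80 lines]. Root subgroups.

Proof. `c ↦ T x (c w) 0` is an injective homomorphism from the additive group of `K` (`Sq.T_mul`, `B(c w, c' w) = 0`; injective:
there is a `v` with `B(v, x) ≠ 0`). -/
def SpecTXC : Prop := ∀ (K : Type) [Field K] [Finite K] (F : FD K) (V₀ : Type) [AddCommGroup V₀]
  [Module K V₀] (S₀ : Sq F V₀) (m : ℕ), S₀.Nd → ∀ τ ∈ (S₀.std m).TPs,
  ∃ T₀ : Subgroup (SV K V₀ m ≃ₗ[K] SV K V₀ m), T₀ ≤ (S₀.std m).D ⊤ ∧ Nat.card T₀ = Nat.card K ∧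
    ∀ t ∈ T₀, t ≠ 1 → ∃ c : K, c ≠ 0 ∧ t = (S₀.std m).T τ.1 (c • τ.2) 0

/-- C0 [80 lines] (BAS, WT2, LMD, CNJ). Elements `T x v 0`, `x, v` singular.

Proof. WT2: `T x v 0` is conjugate to `T (e_0) (f_1) 0 = lam (1 - ε E_01)` (see LMD), not central. -/
def SpecC0 : Prop := ∀ δ : ℝ, 0 < δ → δ ≤ 1 → ∃ q : ℕ, ∀ (K : Type) [Field K] (F : FD K)
  (V₀ : Type) [AddCommGroup V₀] [Module K V₀] (S₀ : Sq F V₀) (m : ℕ), Cls S₀ m → q ≤ Nat.card K →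
  ∀ τ ∈ (S₀.std m).TPs, Bd S₀ m δ ((S₀.std m).T τ.1 τ.2 0)

/-- C1 [100 lines] (C0, PRU, TXC, PK2, CNJ). Elements `T x z a`, `z ∉ K x`.

Proof. `u, v` from PRU, `s_c = T u (c v) 0`: `s_c z = z + c v`, `s_c x = x`, so `s_c (T x z a) s_c⁻¹ (T x z a)⁻¹ = T x (z + c v) a · T x (-z) (ε σ(a)) =
T x (c v) 0` (`Sq.T_mul`, `Sq.Adm.self`). PK2 with TXC for `(u, v)`, C0 for `δ² / 2`, `q ≥ 2 / δ²`. -/
def SpecC1 : Prop := ∀ δ : ℝ, 0 < δ → δ ≤ 1 → ∃ q : ℕ, ∀ (K : Type) [Field K] (F : FD K)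
  (V₀ : Type) [AddCommGroup V₀] [Module K V₀] (S₀ : Sq F V₀) (m : ℕ), Cls S₀ m → q ≤ Nat.card K →
  ∀ (x z : SV K V₀ m) (a : K), (S₀.std m).Adm x z a → LinearIndependent K ![x, z] →
  Bd S₀ m δ ((S₀.std m).T x z a)

/-- C2 [100 lines] (C1, PRV, TXC, PK2, CNJ). Transvections `T x 0 λ`.

Proof. `u, v` from PRV, `s_c = T u (c v) 0`: `s_c x = x + c v`. `s_c (T x 0 λ) s_c⁻¹ (T x 0 λ)⁻¹ = T (x + c v) 0 λ · T x 0 (-λ) =
T v (-ε λ σ(c) x) (λ c σ(c))`: both sides map `y` to `y - ε λ (c B(y,x) v + σ(c) B(y,v) x + c σ(c) B(y,v) v)` (`ε σ(λ) = -λ`). C1. -/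
def SpecC2 : Prop := ∀ δ : ℝ, 0 < δ → δ ≤ 1 → ∃ q : ℕ, ∀ (K : Type) [Field K] (F : FD K)
  (V₀ : Type) [AddCommGroup V₀] [Module K V₀] (S₀ : Sq F V₀) (m : ℕ), Cls S₀ m → q ≤ Nat.card K →
  ∀ (x : SV K V₀ m) (l : K), (S₀.std m).Sg x → x ≠ 0 → l ∈ F.Λ → l ≠ 0 →
  Bd S₀ m δ ((S₀.std m).T x 0 l)

/-- C3 [120 lines] (C1, C2, NXC, SPX, TXC, PK2). Elements which fix a singular vector.

Proof. If there is a singular `u` with `B(u, x) = 0`, `g u - u ∉ K x`: then `u ∉ K x`, TXC for `(x, u)`; `g T_{x,cu,0} g⁻¹ T_{x,cu,0}⁻¹ =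
T_{x,cgu,0} T_{x,-cu,0} = T_{x,c(gu-u),..}`, PK2, C1. Otherwise `g u - u ∈ K x` for all `u ∈ x^⊥` (SPX for the subspace of these `u`), by NXC
`g = T x z a`; `x, z` independent: C1; `z = c x`: `T x (c x) a = T x 0 l` with `l ∈ Λ`, `l ≠ 0`: C2. (`z = c x`: `T x (c x) a y = y + (σ-terms) x`.) -/
def SpecC3 : Prop := ∀ δ : ℝ, 0 < δ → δ ≤ 1 → ∃ q : ℕ, ∀ (K : Type) [Field K] (F : FD K)
  (V₀ : Type) [AddCommGroup V₀] [Module K V₀] (S₀ : Sq F V₀) (m : ℕ), Cls S₀ m → q ≤ Nat.card K →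
  ∀ (x : SV K V₀ m), (S₀.std m).Sg x → x ≠ 0 → ∀ g ∈ (S₀.std m).D ⊤, g ≠ 1 → g x = x →
  Bd S₀ m δ g

/-- C4 [150 lines] (C3, SCA, SPX, SGY, TXC, PK2). Large fields.

Proof. SCA: a singular `x₀` with `f x₀ ∉ K x₀`. SPX: a singular `w₀ ∈ x₀^⊥` not in `⟨x₀, f x₀⟩` (`x₀^⊥` has dimension at least 5). TXC for
`(x₀, w₀)`, `t = T_{x₀,cw₀,0}`, `c ≠ 0`, `g = [f, t] = T_{fx₀,cfw₀,0} T_{x₀,cw₀,0}⁻¹`. `g ≠ 1`: otherwise `f` commutes with `t` and preserves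
`range (t - 1) = ⟨x₀, w₀⟩`, so `f x₀ ∈ ⟨x₀, w₀⟩`, `w₀ ∈ ⟨x₀, f x₀⟩`. SGY: a singular `x ≠ 0` orthogonal to `x₀, w₀, f x₀, f w₀`: `g x = x`. PK2, C3. -/
def SpecC4 : Prop := ∀ δ : ℝ, 0 < δ → δ ≤ 1 → ∃ q : ℕ, ∀ (K : Type) [Field K] (F : FD K)
  (V₀ : Type) [AddCommGroup V₀] [Module K V₀] (S₀ : Sq F V₀) (m : ℕ), Cls S₀ m → q ≤ Nat.card K →
  ∀ f ∈ (S₀.std m).D ⊤, (¬ ∃ c : K, ∀ v, f v = c • v) → Bd S₀ m δ f

/-! ## Part 5: large support -/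

/-- AVS [120 lines]. A subspace avoiding `q + 1` subspaces.

Proof. Choose `x_0, .., x_4 ∈ W` one after the other, `x_(j+1) ∉ X_j ⊔ B_i` for all `i`, `X_j = span (x_0, .., x_j)`: the
`q + 1` subspaces `X_j ⊔ B_i` have dimension at most `dim W - 2` (intersected with `W`), together at most `(q + 1) q^(w-2) < q^w`
vectors. Then `X ⊓ B_i = ⊥`. -/
def SpecAVS : Prop := ∀ (K V : Type) [Field K] [Finite K] [AddCommGroup V] [Module K V]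
  [Module.Finite K V] (W : Submodule K V) (B : Option K → Submodule K V),
  (∀ i, Module.finrank K (B i) + 6 ≤ Module.finrank K W) → ∃ X : Submodule K V, X ≤ W ∧
    Module.finrank K X = 5 ∧ ∀ i, Disjoint X (B i)

/-- GRF [250 lines] (AVS, CWQ). The greedy choice.

Proof. Choose `u_0, u_1, ..` one after the other. Given `u_0, .., u_(j-1)` (`j < 2 k`) let `U` = the span of the `u_i`, `f u_i` (dimension
`2 j`), `W = {u | B(u, u_i) = B(u, f u_i) = B(f u, u_i) = 0}`, of dimension at least `n - 3 j`; `B_a = {u | f u - a u ∈ U}`, `B_none = U`: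
`dim B_a ≤ 2 j + n - rank (f - a) ≤ n - 3 j - 6` (`rank > 10 k + 5`; `n = rank (f - 0)`). AVS: `X`. CWQ on `X` (`q⁵` elements) for
`φ u = (q(u) mod Λ, B(u, f u)) ∈ (K / Λ) × K` (at most `q²` elements, square `< q⁵`), `b(u, v) = (B(u,v), B(u, f v) + B(v, f u))`: `u ≠ 0`
in `X`, singular, `B(u, f u) = 0`. As `u ∉ B_a, U`, the `2 j + 2` vectors are independent. -/
def SpecGRF : Prop := ∀ (K : Type) [Field K] (F : FD K) (V₀ : Type) [AddCommGroup V₀]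
  [Module K V₀] (S₀ : Sq F V₀) (m k : ℕ), Cls S₀ m → ∀ f ∈ (S₀.std m).Iso,
  (∀ a : K, 10 * k + 5 < Module.finrank K (LinearMap.range (f.toLinearMap - a • LinearMap.id))) →
  ∃ u : Fin (2 * k) → SV K V₀ m, LinearIndependent K (Sum.elim u (fun i => f (u i))) ∧
    ∀ i j, (S₀.std m).Sg (u i) ∧ (S₀.std m).B (u i) (u j) = 0 ∧ (S₀.std m).B (u i) (f (u j)) = 0

/-- AT2 [300 lines] (GRF, WTN, LMD, PL.EXT). The subgroup `T₀`.

Proof. GRF: `v_i = u_i`, `z_j = u_(k+j)` (`i, j < k`). The `4 k` vectors `v_i, z_j, f v_i, f z_j` are independent, singular, mutually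
orthogonal, and so are `e_i, f_(2k+j), e_(k+i), f_(3k+j)` (`4 k < m` because `2 m + 2 ≥ n > 10 k + 5`). WTN twice: `g ∈ Γ` maps the first tuple
to the second one. For a matrix `b`, `τ_b = 1 + ∑ b_ij E_(i, 2k+j) ∈ SL_m(K)`, `lam τ_b y = y + ∑ b_ij B(y, f_(2k+j)) e_i -
ε ∑ σ(b_ij) B(y, e_i) f_(2k+j)`. `f₁ = g f g⁻¹` maps `e_i ↦ e_(k+i)`, `f_(2k+j) ↦ f_(3k+j)`, so `f₁ (lam τ_b) f₁⁻¹ = lam τ'_b`, `τ'_b =
1 + ∑ b_ij E_(k+i, 3k+j)`, and `[f₁, lam τ_b] = lam (τ'_b τ_b⁻¹) = lam (1 + N)`, `N = ∑ b_ij (E_(k+i,3k+j) - E_(i,2k+j))`, `N² = 0`, of rank `2 rank b`.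
Let `b` run through the regular representation of an extension `L` of `K` of degree `k` (PL.EXT): `q^k` matrices, invertible
for `b ≠ 0`. `T₀ = g⁻¹ (lam τ_b) g`. `h = 1 + N`: `rank (h - 1) = 2 k`, and `h - a` is invertible for `a ≠ 1` (rank `m ≥ 2 k`). -/
def SpecAT2 : Prop := ∀ (K : Type) [Field K] (F : FD K) (V₀ : Type) [AddCommGroup V₀]
  [Module K V₀] (S₀ : Sq F V₀) (m k : ℕ), Cls S₀ m → 1 ≤ k → ∀ f ∈ (S₀.std m).D ⊤,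
  (∀ a : K, 10 * k + 5 < Module.finrank K (LinearMap.range (f.toLinearMap - a • LinearMap.id))) →
  ∃ T₀ : Subgroup (SV K V₀ m ≃ₗ[K] SV K V₀ m), T₀ ≤ (S₀.std m).D ⊤ ∧
    Nat.card T₀ = Nat.card K ^ k ∧ ∀ t ∈ T₀, t ≠ 1 → ∃ g ∈ (S₀.std m).D ⊤, ∃ h : SLn m K,
      g * (f * t * f⁻¹ * t⁻¹) * g⁻¹ = lam F V₀ m h ∧ h ∉ Subgroup.center (SLn m K) ∧
      ∀ a : K, 2 * k ≤ (h.1 - a • (1 : Matrix (Fin m) (Fin m) K)).rank

/-- A2F [100 lines] (AT2, BAS, PK2, CNJ). Large support.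

Proof. Choose `k ≥ 1` with `2^k ≥ 2 / δ²` and `2 k >` the number `R` of BAS for `δ² / 2`; `R = 10 k + 5`. -/
def SpecA2F : Prop := ∀ δ : ℝ, 0 < δ → δ ≤ 1 → ∃ R : ℕ, ∀ (K : Type) [Field K] (F : FD K)
  (V₀ : Type) [AddCommGroup V₀] [Module K V₀] (S₀ : Sq F V₀) (m : ℕ), Cls S₀ m →
  ∀ f ∈ (S₀.std m).D ⊤,
  (∀ a : K, R < Module.finrank K (LinearMap.range (f.toLinearMap - a • LinearMap.id))) →
  Bd S₀ m δ f

/-- THC [60 lines] (C4, A2F). THEOREM A for classical groups. -/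
def SpecTHC : Prop := ∀ δ : ℝ, 0 < δ → δ ≤ 1 → ∃ q R : ℕ, ∀ (K : Type) [Field K] (F : FD K)
  (V₀ : Type) [AddCommGroup V₀] [Module K V₀] (S₀ : Sq F V₀) (m : ℕ), Cls S₀ m →
  ∀ f ∈ (S₀.std m).D ⊤, (¬ ∃ c : K, ∀ v, f v = c • v) →
  ¬ (Nat.card K < q ∧ ∃ a : K,
    Module.finrank K (LinearMap.range (f.toLinearMap - a • LinearMap.id)) ≤ R) → Bd S₀ m δ f

end Pool.Agent.Lib.MP66ef6b.CL
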