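import Pool.Agent.Lib.MP_66ef6b_al.CL.SpecE
import Pool.Agent.Lib.MP_66ef6b_al.CL.SGY
import Pool.Agent.Lib.MP_66ef6b_al.CL.SpecD
import Pool.Agent.Lib.MP_66ef6b_al.PL.CBK

section
set_option autoImplicit false

/-!
# MP_66ef6b_al, THEOREM L2: module CL0
-/

namespace Pool.Agent.Lib.MP66ef6b.CL

universe u

namespace CL0M

theorem adm_tps {K : Type} [Field K] {F : FD K} {V : Type} [AddCommGroup V] [Module K V]
    {S : Sq F V} {x w : V} (h : (x, w) ∈ S.TPs) : S.Adm x w 0 where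
  sg := h.1
  orth := h.2.2.1
  par := by
    rw [zero_sub]
    exact F.Λ.neg_mem h.2.1

variable {K : Type} [Field K] {F : FD K} {V₀ : Type} [AddCommGroup V₀] [Module K V₀]
  {S₀ : Sq F V₀} {m : ℕ} {P : Type u} [Group P]

/-- conjugation of a pair `Mp` by a pair `Mp`. -/
theorem mp_conj {π : (S₀.std m).D ⊤ →* P} {e : P ≃* P} {g g' h h' : SV K V₀ m ≃ₗ[K] SV K V₀ m}
    (hg : Mp π e g g') (hh : Mp π e h h') : Mp π e (g * h * g⁻¹) (g' * h' * g'⁻¹) := by
  obtain ⟨h1, h1', h2⟩ := hg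
  obtain ⟨h3, h3', h4⟩ := hh
  refine ⟨mul_mem (mul_mem h1 h3) (inv_mem h1), mul_mem (mul_mem h1' h3') (inv_mem h1'), ?_⟩
  have h5 : (⟨g * h * g⁻¹, mul_mem (mul_mem h1 h3) (inv_mem h1)⟩ : (S₀.std m).D ⊤) =
    ⟨g, h1⟩ * ⟨h, h3⟩ * ⟨g, h1⟩⁻¹ := rfl
  have h6 : (⟨g' * h' * g'⁻¹, mul_mem (mul_mem h1' h3') (inv_mem h1')⟩ : (S₀.std m).D ⊤) =
    ⟨g', h1'⟩ * ⟨h', h3'⟩ * ⟨g', h1'⟩⁻¹ := rfl
  rw [h5, h6]
  simp only [map_mul, map_inv]
  rw [h2, h4]

end CL0M

open CL0M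

theorem specCL0 (hWT2 : SpecWT2) : SpecCL0.{u} := by
  intro K _ F V₀ _ _ S₀ m hm hN P _ π e hK h0 τ hτ
  obtain ⟨τ₀, hτ₀, hT⟩ := h0
  obtain ⟨g, hg, hg1, hg2⟩ := hWT2 K F V₀ S₀ m hm hN τ₀.1 τ₀.2 τ.1 τ.2 hτ₀.1 hτ.1 hτ₀.2.2.1
    hτ.2.2.1 hτ₀.2.2.2 hτ.2.2.2 (F.Λ.sub_mem hτ₀.2.1 hτ.2.1)
  obtain ⟨⟨g', hg'⟩, hgg⟩ := hK.1 (e (π ⟨g, hg⟩))
  have h1 : Mp π e g g' := ⟨hg, hg', hgg.symm⟩
  have h2 := mp_conj h1 hT
  have ha : (S₀.std m).Adm τ₀.1 τ₀.2 0 := adm_tps hτ₀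
  rw [Sq.T_conj ha (Sq.D_le_Iso _ hg), Sq.T_conj ha (Sq.D_le_Iso _ hg'), hg1, hg2] at h2
  exact ⟨(g' τ₀.1, g' τ₀.2), PRUM.tps_map (Sq.D_le_Iso _ hg') hτ₀, h2⟩

end Pool.Agent.Lib.MP66ef6b.CL
end

section
set_option autoImplicit false

/-!
# MP_66ef6b_al, THEOREM L2: CLE, the radical of the stabiliser of `E`
-/

namespace Pool.Agent.Lib.MP66ef6b.CL

open Matrix

namespace CLEM

section gen

variable {A : Type} [Group A] {Γ : Subgroup A} {Ω : Type} [MulAction Γ Ω]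

/-- the stabiliser as a subgroup of the large group. -/
def St (Γ : Subgroup A) [MulAction Γ Ω] (ω : Ω) : Subgroup A :=
  (MulAction.stabilizer Γ ω).map Γ.subtype

theorem mem_St {ω : Ω} {γ : Γ} (h : (γ : A) ∈ St Γ ω) : γ • ω = ω := by
  obtain ⟨γ', h1, h2⟩ := h
  have : γ' = γ := Subtype.ext h2
  rw [← this]
  exact h1

theorem sub_St {M : Set A} (hM : M ⊆ Γ) {ω : Ω} (h : ω ∈ fy Γ Ω M) : M ⊆ St Γ ω := by
  intro g hg
  exact ⟨⟨g, hM hg⟩, h ⟨g, hM hg⟩ hg, rfl⟩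

theorem fy_of_sub {M : Set A} {ω : Ω} (h : M ⊆ St Γ ω) : ω ∈ fy Γ Ω M :=
  fun _ hγ => mem_St (h hγ)

theorem fy_mono {M M' : Set A} (h : M ⊆ M') : fy Γ Ω M' ⊆ fy Γ Ω M :=
  fun _ hω γ hγ => hω γ (h hγ)

theorem fy_closure {M : Set A} (hM : M ⊆ Γ) :
    fy Γ Ω (Subgroup.closure M : Set A) = fy Γ Ω M := by
  apply Set.Subset.antisymm
  · exact fy_mono Subgroup.subset_closure
  · intro ω hω
    apply fy_of_sub
    exact (Subgroup.closure_le _).2 (sub_St hM hω)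

end gen

theorem two_span (K V : Type) [Field K] [AddCommGroup V] [Module K V] [Module.Finite K V]
    (h : Module.finrank K V ≤ 2) :
    ∃ v₁ v₂ : V, ∀ v, ∃ c₁ c₂ : K, v = c₁ • v₁ + c₂ • v₂ := by
  obtain ⟨n, hn⟩ : ∃ n, Module.finrank K V = n := ⟨_, rfl⟩
  let b := Module.finBasisOfFinrankEq K V hn
  rw [hn] at h
  interval_cases n
  · refine ⟨0, 0, fun v => ⟨0, 0, ?_⟩⟩
    have := b.sum_repr v
    rw [← this]
    simp
  · refine ⟨b 0, 0, fun v => ⟨b.repr v 0, 0, ?_⟩⟩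
    have := b.sum_repr v
    rw [Fin.sum_univ_one] at this
    simp [this]
  · refine ⟨b 0, b 1, fun v => ⟨b.repr v 0, b.repr v 1, ?_⟩⟩
    have := b.sum_repr v
    rw [Fin.sum_univ_two] at this
    exact this.symm

section sp

variable {K : Type} [Field K] {F : FD K} {V₀ : Type} [AddCommGroup V₀] [Module K V₀]
  {S₀ : Sq F V₀} {m : ℕ}

theorem q_E (a : Fin m → K) : (S₀.std m).q (a, 0, 0) = 0 := by
  rw [std_q]
  simp only [Pi.zero_apply, map_zero, S₀.q_zero, add_zero]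
  exact dotProduct_zero _

theorem q_V (v : V₀) : (S₀.std m).q (0, 0, v) = S₀.q v := by
  rw [std_q]
  simp only [zero_dotProduct, zero_add]

theorem B_EV (a : Fin m → K) (v : V₀) : (S₀.std m).B (a, 0, 0) (0, 0, v) = 0 := by
  rw [std_B]
  simp only [Pi.zero_apply, map_zero, S₀.B_zero_left, add_zero, zero_dotProduct, mul_zero]
  exact dotProduct_zero _

theorem B_E (y : SV K V₀ m) (a : Fin m → K) :
    (S₀.std m).B y (a, 0, 0) = F.ε * (y.2.1 ⬝ᵥ fun i => F.σ (a i)) := by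
  rw [std_B]
  simp only [Pi.zero_apply, map_zero, S₀.B_zero_right, add_zero]
  have : y.1 ⬝ᵥ (fun _ => (0 : K)) = 0 := dotProduct_zero _
  rw [this, zero_add]

theorem sg_E (a : Fin m → K) : (S₀.std m).Sg (a, 0, 0) := by
  rw [Sq.Sg, q_E]
  exact F.Λ.zero_mem

theorem T_zero_mem (a : Fin m → K) {l : K} (hl : l ∈ F.Λ) :
    (S₀.std m).T (a, 0, 0) 0 l ∈ ZES F V₀ m := by
  have hadm : (S₀.std m).Adm (a, 0, 0) 0 l := by
    refine ⟨sg_E a, Sq.B_zero_right _ _, ?_⟩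
    rw [Sq.q_zero, sub_zero]
    exact hl
  refine ⟨fun i j => -(l * (a i * F.σ (a j))), ⟨fun i j => ?_, fun i => ?_⟩, ?_⟩
  · have h1 := F.skew hl
    simp only [map_neg, map_mul, F.inv]
    linear_combination (a i * F.σ (a j)) * (-h1)
  · have := F.Λ.neg_mem (F.sc hl (a i))
    convert this using 1
    ring
  · refine LinearEquiv.ext fun y => ?_
    rw [Sq.T_apply hadm, zE_apply, B_E, Sq.B_zero_right]
    refine Prod.ext ?_ (Prod.ext ?_ ?_)
    · ext i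
      simp only [Prod.fst_sub, Prod.fst_add, Prod.smul_fst, smul_zero, Prod.fst_zero, add_zero,
        zero_add, Pi.sub_apply, Pi.add_apply, Pi.smul_apply, smul_eq_mul, mulVec, dotProduct]
      have h2 : ∑ j, -(l * (a i * F.σ (a j))) * y.2.1 j =
          -(l * a i * ∑ j, y.2.1 j * F.σ (a j)) := by
        rw [Finset.mul_sum, ← Finset.sum_neg_distrib]
        exact Finset.sum_congr rfl fun j _ => by ring
      rw [h2]
      linear_combination (-(l * a i * ∑ j, y.2.1 j * F.σ (a j))) * F.ee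
    · simp
    · simp

theorem T_smul_mem (a : Fin m → K) (v : V₀) (c : K) (H : Subgroup (SV K V₀ m ≃ₗ[K] SV K V₀ m))
    (h : NV1 S₀ m v ⊆ H) : ∃ d : K, (S₀.std m).Adm (a, 0, 0) (0, 0, c • v) d ∧
      (S₀.std m).T (a, 0, 0) (0, 0, c • v) d ∈ H := by
  have hs : F.σ c • ((a, 0, 0) : SV K V₀ m) = (F.σ c • a, 0, 0) := by simp
  have hadm : (S₀.std m).Adm (F.σ c • ((a, 0, 0) : SV K V₀ m)) (0, 0, v) (S₀.q v) := by
    rw [hs]
    refine ⟨sg_E _, B_EV _ _, ?_⟩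
    rw [q_V, sub_self]
    exact F.Λ.zero_mem
  have h1 := Sq.T_smul hadm (sg_E a) (B_EV a v)
  have h2 := hadm.smul (sg_E a) (B_EV a v)
  have hv : F.σ (F.σ c) • ((0, 0, v) : SV K V₀ m) = (0, 0, c • v) := by
    rw [F.inv]
    simp
  rw [hv] at h1 h2
  refine ⟨_, h2, ?_⟩
  rw [← h1]
  apply h
  rw [hs]
  refine ⟨F.σ c • a, S₀.q v, ?_, rfl⟩
  rw [← hs]
  exact hadm

theorem key (H : Subgroup (SV K V₀ m ≃ₗ[K] SV K V₀ m)) (hZ : ZES F V₀ m ⊆ H) (v₁ v₂ : V₀)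
    (h1 : NV1 S₀ m v₁ ⊆ H) (h2 : NV1 S₀ m v₂ ⊆ H)
    (hsp : ∀ v, ∃ c₁ c₂ : K, v = c₁ • v₁ + c₂ • v₂) : NVE S₀ m ⊆ H := by
  rintro _ ⟨a, v, c, hadm, rfl⟩
  obtain ⟨c₁, c₂, hv⟩ := hsp v
  obtain ⟨d₁, ha1, hm1⟩ := T_smul_mem a v₁ c₁ H h1
  obtain ⟨d₂, ha2, hm2⟩ := T_smul_mem a v₂ c₂ H h2
  have h3 := mul_mem hm1 hm2
  rw [Sq.T_mul ha1 ha2] at h3
  have h4 := ha1.add ha2
  have hw : ((0, 0, c₁ • v₁) : SV K V₀ m) + (0, 0, c₂ • v₂) = (0, 0, v) := by
    rw [hv]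
    simp
  rw [hw] at h3 h4
  set d := d₁ + d₂ + (S₀.std m).B (0, 0, c₂ • v₂) (0, 0, c₁ • v₁) with hd
  have hl : c - d ∈ F.Λ := by
    have := F.Λ.sub_mem hadm.par h4.par
    rwa [sub_sub_sub_cancel_right] at this
  have h5 : (S₀.std m).Adm (a, 0, 0) 0 (c - d) := by
    refine ⟨sg_E a, Sq.B_zero_right _ _, ?_⟩
    rw [Sq.q_zero, sub_zero]
    exact hl
  have h6 : (S₀.std m).T (a, 0, 0) (0, 0, v) c =
      (S₀.std m).T (a, 0, 0) 0 (c - d) * (S₀.std m).T (a, 0, 0) (0, 0, v) d := by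
    rw [Sq.T_mul h5 h4, Sq.B_zero_right, zero_add, add_zero, sub_add_cancel]
  rw [h6]
  exact mul_mem (hZ (T_zero_mem a hl)) h3

end sp

end CLEM

open CLEM in
theorem specCLE (hSZE : SpecSZE) (hNVV : SpecNVV) : SpecCLE := by
  intro K _ F V₀ _ _ S₀ m hC Γ Ω _ _ hl hZ hN
  have := hC.finK
  have := hC.finV
  obtain ⟨v₁, v₂, hsp⟩ := two_span K V₀ hC.dim
  have hNV : ∀ v, NV1 S₀ m v ⊆ Γ := by
    rintro v _ ⟨a, c, ha, rfl⟩
    exact hN ⟨a, v, c, ha, rfl⟩
  have e1 := hSZE K F V₀ m hC.rk Γ Ω hl hZ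
  have hs1 : ((lamS F V₀ m : Set (SV K V₀ m ≃ₗ[K] SV K V₀ m)) ∪ ZES F V₀ m) ⊆ Γ :=
    Set.union_subset hl hZ
  set M₁ := Subgroup.closure ((lamS F V₀ m : Set (SV K V₀ m ≃ₗ[K] SV K V₀ m)) ∪ ZES F V₀ m)
    with hM₁
  have hM₁Γ : M₁ ≤ Γ := (Subgroup.closure_le _).2 hs1
  have hl1 : lamS F V₀ m ≤ M₁ := fun g hg => Subgroup.subset_closure (Or.inl hg)
  have hZ1 : ZES F V₀ m ⊆ M₁ := fun g hg => Subgroup.subset_closure (Or.inr hg)
  have e2 := hNVV K F V₀ S₀ m hC.rk hC.nd v₁ Γ M₁ Ω hl1 hZ1 hM₁Γ (hNV v₁)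
  rw [hM₁, fy_closure hs1, ← hM₁] at e2
  have hs2 : ((M₁ : Set (SV K V₀ m ≃ₗ[K] SV K V₀ m)) ∪ NV1 S₀ m v₁) ⊆ Γ :=
    Set.union_subset hM₁Γ (hNV v₁)
  set M₂ := Subgroup.closure ((M₁ : Set (SV K V₀ m ≃ₗ[K] SV K V₀ m)) ∪ NV1 S₀ m v₁) with hM₂
  have hM₂Γ : M₂ ≤ Γ := (Subgroup.closure_le _).2 hs2
  have h12 : M₁ ≤ M₂ := fun g hg => Subgroup.subset_closure (Or.inl hg)
  have hv1 : NV1 S₀ m v₁ ⊆ M₂ := fun g hg => Subgroup.subset_closure (Or.inr hg)
  have e3 := hNVV K F V₀ S₀ m hC.rk hC.nd v₂ Γ M₂ Ω (hl1.trans h12)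
    (hZ1.trans h12) hM₂Γ (hNV v₂)
  rw [hM₂, fy_closure hs2, ← hM₂] at e3
  have h4 : fy Γ Ω ((M₂ : Set (SV K V₀ m ≃ₗ[K] SV K V₀ m)) ∪ NV1 S₀ m v₂) ⊆
      fy Γ Ω ((lamS F V₀ m : Set (SV K V₀ m ≃ₗ[K] SV K V₀ m)) ∪ ZES F V₀ m ∪ NVE S₀ m) := by
    intro ω hω
    have h5 := sub_St (Set.union_subset hM₂Γ (hNV v₂)) hω
    have h6 : (M₂ : Set (SV K V₀ m ≃ₗ[K] SV K V₀ m)) ⊆ St Γ ω :=
      Set.subset_union_left.trans h5
    have h7 : NV1 S₀ m v₂ ⊆ St Γ ω := Set.subset_union_right.trans h5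
    apply fy_of_sub
    refine Set.union_subset (Set.union_subset ?_ ?_) ?_
    · exact fun g hg => h6 (h12 (hl1 hg))
    · exact fun g hg => h6 (h12 (hZ1 hg))
    · exact key _ (fun g hg => h6 (h12 (hZ1 hg))) v₁ v₂ (hv1.trans h6) h7 hsp
  have h8 := Set.ncard_le_ncard h4 (Set.toFinite _)
  have h9 := Nat.mul_le_mul_left (Nat.card K ^ m) h8
  omega

end Pool.Agent.Lib.MP66ef6b.CL
end

section
set_option autoImplicit false

/-!
# MP_66ef6b_al, THEOREM L2, module CLI (helper20): the climb from `SL_m(K)` to `Γ`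
-/

namespace Pool.Agent.Lib.MP66ef6b.CL

namespace CLIM

open Matrix

variable {K : Type} [Field K] {F : FD K} {V₀ : Type} [AddCommGroup V₀] [Module K V₀] {m : ℕ}

theorem swp_inv_apply (v : SV K V₀ m) : (swp F V₀ m)⁻¹ v = (v.2.1, F.ε • v.1, v.2.2) := rfl

theorem swp_inv_swp (v : SV K V₀ m) : swp F V₀ m ((swp F V₀ m)⁻¹ v) = v :=
  (swp F V₀ m).apply_symm_apply v

/-- the contragredient of `g`, as a matrix of determinant one -/
def cg (F : FD K) (g : PL.SLn m K) : PL.SLn m K :=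
  ⟨((g⁻¹ : PL.SLn m K).1.map F.σ)ᵀ, by
    rw [det_transpose]
    have h : ((g⁻¹ : PL.SLn m K).1.map F.σ).det = F.σ ((g⁻¹ : PL.SLn m K).1.det) :=
      (RingHom.map_det F.σ _).symm
    rw [h, (g⁻¹ : PL.SLn m K).2, map_one]⟩

theorem cg_inv (F : FD K) (g : PL.SLn m K) : (cg F g)⁻¹ = cg F g⁻¹ := by
  rw [inv_eq_iff_mul_eq_one]
  apply Subtype.ext
  show ((g⁻¹ : PL.SLn m K).1.map F.σ)ᵀ * (((g⁻¹)⁻¹ : PL.SLn m K).1.map F.σ)ᵀ = 1
  rw [← transpose_mul, ← Matrix.map_mul, inv_inv]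
  have h : g.1 * (g⁻¹ : PL.SLn m K).1 = 1 := by
    have : (g * g⁻¹ : PL.SLn m K).1 = (1 : PL.SLn m K).1 := by rw [mul_inv_cancel]
    exact this
  rw [h, Matrix.map_one _ (map_zero _) (map_one _), transpose_one]

theorem conj_lam (g : PL.SLn m K) :
    swp F V₀ m * lam F V₀ m g * (swp F V₀ m)⁻¹ = lam F V₀ m (cg F g) := by
  ext1 v
  rw [LinearEquiv.mul_apply, LinearEquiv.mul_apply, lam_apply, lam_apply, swp_inv_apply,
    swp_apply, cg_inv]
  have h2 : (((cg F g⁻¹ : PL.SLn m K).1).map F.σ)ᵀ = g.1 := by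
    show ((((g⁻¹)⁻¹ : PL.SLn m K).1.map F.σ)ᵀ.map F.σ)ᵀ = g.1
    rw [inv_inv]
    ext i j
    simp only [transpose_apply, map_apply, F.inv]
  rw [h2]
  refine Prod.ext ?_ (Prod.ext rfl rfl)
  show F.ε • (((g⁻¹ : PL.SLn m K).1.map F.σ)ᵀ *ᵥ (F.ε • v.1)) = _
  rw [mulVec_smul, smul_smul, F.ee, one_smul]
  rfl

theorem lamS_conj {γ : SV K V₀ m ≃ₗ[K] SV K V₀ m} (h : γ ∈ lamS F V₀ m) :
    swp F V₀ m * γ * (swp F V₀ m)⁻¹ ∈ lamS F V₀ m := by
  obtain ⟨g, rfl⟩ := h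
  rw [conj_lam]
  exact ⟨_, rfl⟩

theorem DM_eps {D : Matrix (Fin m) (Fin m) K} (h : DM F D) : DM F (F.ε • D) := by
  refine ⟨fun i j => ?_, fun i => ?_⟩
  · rw [Matrix.smul_apply, Matrix.smul_apply, smul_eq_mul, smul_eq_mul, map_mul, F.se, h.1 i j]
    ring
  · rw [Matrix.smul_apply, smul_eq_mul]
    rcases F.typ with ⟨_, h1, _⟩ | ⟨_, h1, _⟩ | ⟨_, h1, _⟩
    · rw [h1, one_mul]
      exact h.2 i
    · rw [h1, neg_one_mul]
      exact F.Λ.neg_mem (h.2 i)
    · rw [h1, neg_one_mul]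
      exact F.Λ.neg_mem (h.2 i)

theorem ZFS_conj {γ : SV K V₀ m ≃ₗ[K] SV K V₀ m} (h : γ ∈ ZFS F V₀ m) :
    (swp F V₀ m)⁻¹ * γ * swp F V₀ m ∈ ZES F V₀ m := by
  obtain ⟨D, hD, rfl⟩ := h
  refine ⟨F.ε • D, DM_eps hD, ?_⟩
  ext1 v
  rw [LinearEquiv.mul_apply, LinearEquiv.mul_apply, zF_apply, zE_apply, swp_inv_apply, swp_apply]
  refine Prod.ext ?_ (Prod.ext ?_ rfl)
  · show v.1 + D *ᵥ (F.ε • v.2.1) = v.1 + (F.ε • D) *ᵥ v.2.1
    rw [mulVec_smul, smul_mulVec]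
  · show F.ε • (F.ε • v.2.1) = v.2.1
    rw [smul_smul, F.ee, one_smul]

theorem NVF_conj {S₀ : Sq F V₀} (hs : swp F V₀ m ∈ (S₀.std m).Iso)
    {γ : SV K V₀ m ≃ₗ[K] SV K V₀ m} (h : γ ∈ NVF S₀ m) :
    (swp F V₀ m)⁻¹ * γ * swp F V₀ m ∈ NVE S₀ m := by
  obtain ⟨a, v, c, hadm, rfl⟩ := h
  have hs' := inv_mem hs
  have e1 : (swp F V₀ m)⁻¹ ((0, a, 0) : SV K V₀ m) = (a, 0, 0) := by
    rw [swp_inv_apply]
    simp
  have e2 : (swp F V₀ m)⁻¹ ((0, 0, v) : SV K V₀ m) = (0, 0, v) := by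
    rw [swp_inv_apply]
    simp
  have h1 := Sq.T_conj hadm hs'
  have h2 := hadm.map hs'
  rw [inv_inv, e1, e2] at h1
  rw [e1, e2] at h2
  exact ⟨a, v, c, h2, h1⟩

end CLIM

open CLIM in
theorem specCLI (hCLE : SpecCLE) (hGENC : SpecGENC) (hLMD : SpecLMD) : SpecCLI := by
  intro K _ F V₀ _ _ S₀ m hc Ω _ _
  obtain ⟨-, ⟨hl1, hl2, hl3, hl4, hl5⟩, hs⟩ := hLMD K F V₀ S₀ m
  have hm2 : 2 ≤ m := le_trans (by norm_num) hc.rk
  have hgen := hGENC K F V₀ S₀ m hm2 hc.nd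
  have hs' := inv_mem hs
  -- conjugation by the swap
  let φ : (S₀.std m).D ⊤ →* (S₀.std m).D ⊤ :=
    { toFun := fun γ => ⟨swp F V₀ m * γ.1 * (swp F V₀ m)⁻¹, Sq.conj_mem_D hs γ.2⟩
      map_one' := by
        apply Subtype.ext
        simp
      map_mul' := fun a b => by
        apply Subtype.ext
        simp [mul_assoc] }
  have h1 := hCLE K F V₀ S₀ m hc ((S₀.std m).D ⊤) Ω hl1 hl2 hl4
  have h2 := @hCLE K _ F V₀ _ _ S₀ m hc ((S₀.std m).D ⊤) Ω (MulAction.compHom Ω φ) _ hl1 hl2 hl4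
  set q := Nat.card K ^ m
  set Fx := fy ((S₀.std m).D ⊤) Ω (lamS F V₀ m : Set (SV K V₀ m ≃ₗ[K] SV K V₀ m)) with hFx
  set A1 := fy ((S₀.std m).D ⊤) Ω ((lamS F V₀ m : Set (SV K V₀ m ≃ₗ[K] SV K V₀ m)) ∪ ZES F V₀ m ∪
      NVE S₀ m) with hA1
  set Fx' := @fy _ _ ((S₀.std m).D ⊤) Ω (MulAction.compHom Ω φ)
    (lamS F V₀ m : Set (SV K V₀ m ≃ₗ[K] SV K V₀ m)) with hFx'
  set A2 := @fy _ _ ((S₀.std m).D ⊤) Ω (MulAction.compHom Ω φ)
    ((lamS F V₀ m : Set (SV K V₀ m ≃ₗ[K] SV K V₀ m)) ∪ ZES F V₀ m ∪ NVE S₀ m) with hA2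
  set U := fy ((S₀.std m).D ⊤) Ω (Set.univ : Set (SV K V₀ m ≃ₗ[K] SV K V₀ m)) with hU
  have mem2 : ∀ (M : Set (SV K V₀ m ≃ₗ[K] SV K V₀ m)) (ω : Ω),
      ω ∈ @fy _ _ ((S₀.std m).D ⊤) Ω (MulAction.compHom Ω φ) M ↔
        ∀ γ : (S₀.std m).D ⊤, (γ : SV K V₀ m ≃ₗ[K] SV K V₀ m) ∈ M → φ γ • ω = ω :=
    fun M ω => Iff.rfl
  have hA1F : A1 ⊆ Fx := by
    intro ω hω γ hγ
    exact hω γ (Or.inl (Or.inl hγ))
  have hA2F : A2 ⊆ Fx' := by
    intro ω hω
    rw [hA2, mem2] at hω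
    rw [hFx', mem2]
    intro γ hγ
    exact hω γ (Or.inl (Or.inl hγ))
  have hFF : Fx ⊆ Fx' := by
    intro ω hω
    rw [hFx', mem2]
    intro γ hγ
    exact hω (φ γ) (lamS_conj hγ)
  have hAU : A1 ∩ A2 ⊆ U := by
    rintro ω ⟨hω1, hω2⟩
    rw [hA2, mem2] at hω2
    -- the generators fix `ω`
    have hg : ∀ γ : (S₀.std m).D ⊤, (γ : SV K V₀ m ≃ₗ[K] SV K V₀ m) ∈ GS S₀ m → γ • ω = ω := by
      intro γ hγ
      have hback : ∀ δ : SV K V₀ m ≃ₗ[K] SV K V₀ m, (swp F V₀ m)⁻¹ * γ.1 * swp F V₀ m = δ →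
          δ ∈ (lamS F V₀ m : Set (SV K V₀ m ≃ₗ[K] SV K V₀ m)) ∪ ZES F V₀ m ∪ NVE S₀ m →
          γ • ω = ω := by
        intro δ hδ hmem
        have hδD : δ ∈ (S₀.std m).D ⊤ := by
          have := Sq.conj_mem_D hs' γ.2
          rw [inv_inv, hδ] at this
          exact this
        have h3 := hω2 ⟨δ, hδD⟩ hmem
        have h4 : φ ⟨δ, hδD⟩ = γ := by
          apply Subtype.ext
          show swp F V₀ m * δ * (swp F V₀ m)⁻¹ = γ.1
          rw [← hδ]
          group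
        rwa [h4] at h3
      rcases hγ with (((h | h) | h) | h) | h
      · exact hω1 γ (Or.inl (Or.inl h))
      · exact hω1 γ (Or.inl (Or.inr h))
      · exact hback _ rfl (Or.inl (Or.inr (ZFS_conj h)))
      · exact hω1 γ (Or.inr h)
      · exact hback _ rfl (Or.inr (NVF_conj hs h))
    -- the subgroup fixing `ω`
    intro γ _
    let St : Subgroup (SV K V₀ m ≃ₗ[K] SV K V₀ m) :=
      (MulAction.stabilizer ((S₀.std m).D ⊤) ω).map ((S₀.std m).D ⊤).subtype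
    have hle : Subgroup.closure (GS S₀ m) ≤ St := by
      rw [Subgroup.closure_le]
      intro δ hδ
      have hδD : δ ∈ (S₀.std m).D ⊤ := by
        rw [hgen]
        exact Subgroup.subset_closure hδ
      exact ⟨⟨δ, hδD⟩, hg ⟨δ, hδD⟩ hδ, rfl⟩
    have h5 : (γ : SV K V₀ m ≃ₗ[K] SV K V₀ m) ∈ St := by
      apply hle
      rw [← hgen]
      exact γ.2
    obtain ⟨γ', hγ', he⟩ := h5
    have h6 : γ' = γ := Subtype.ext he
    rw [← h6]
    exact hγ'
  -- counting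
  have c1 : (Fx \ A1).ncard + A1.ncard = Fx.ncard := Set.ncard_sdiff_add_ncard_of_subset hA1F
  have c2 : (Fx' \ A2).ncard + A2.ncard = Fx'.ncard := Set.ncard_sdiff_add_ncard_of_subset hA2F
  have c3 : Fx.ncard ≤ U.ncard + ((Fx \ A1).ncard + (Fx' \ A2).ncard) := by
    have hsub : Fx ⊆ U ∪ ((Fx \ A1) ∪ (Fx' \ A2)) := by
      intro ω hω
      by_cases ha : ω ∈ A1
      · by_cases hb : ω ∈ A2
        · exact Or.inl (hAU ⟨ha, hb⟩)
        · exact Or.inr (Or.inr ⟨hFF hω, hb⟩)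
      · exact Or.inr (Or.inl ⟨hω, ha⟩)
    calc Fx.ncard ≤ (U ∪ ((Fx \ A1) ∪ (Fx' \ A2))).ncard :=
          Set.ncard_le_ncard hsub (Set.toFinite _)
      _ ≤ U.ncard + ((Fx \ A1) ∪ (Fx' \ A2)).ncard := Set.ncard_union_le _ _
      _ ≤ U.ncard + ((Fx \ A1).ncard + (Fx' \ A2).ncard) :=
          Nat.add_le_add_left (Set.ncard_union_le _ _) _
  have d1 : q * (Fx \ A1).ncard ≤ 3 * Nat.card Ω := by
    have := h1
    rw [← c1] at this
    nlinarith
  have d2 : q * (Fx' \ A2).ncard ≤ 3 * Nat.card Ω := by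
    have := h2
    rw [← c2] at this
    nlinarith
  calc q * Fx.ncard ≤ q * (U.ncard + ((Fx \ A1).ncard + (Fx' \ A2).ncard)) :=
        Nat.mul_le_mul_left _ c3
    _ = q * U.ncard + (q * (Fx \ A1).ncard + q * (Fx' \ A2).ncard) := by ring
    _ ≤ q * U.ncard + 6 * Nat.card Ω := by omega

end Pool.Agent.Lib.MP66ef6b.CL
end

section
set_option autoImplicit false

/-!
# MP_66ef6b_al, THEOREM L2 (helper14). CM0: additive maps commuting with `Γ` are scalars (helper67)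
-/

namespace Pool.Agent.Lib.MP66ef6b.CL

open Matrix

namespace CM0M

variable {K : Type} [Field K] {F : FD K} {V₀ : Type} [AddCommGroup V₀] [Module K V₀]
  {S₀ : Sq F V₀} {m : ℕ}

theorem B_ev (y : SV K V₀ m) (i : Fin m) : (S₀.std m).B y (eV K V₀ i) = F.ε * y.2.1 i := by
  rw [std_B]
  have h1 : (fun k => F.σ ((eV K V₀ i).1 k)) = Pi.single i 1 := by
    funext k
    by_cases hk : k = i
    · subst hk
      simp [eV]
    · simp [eV, hk]
  rw [h1, dotProduct_single, mul_one]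
  simp [eV, S₀.B_zero_right]

theorem B_fv (y : SV K V₀ m) (i : Fin m) : (S₀.std m).B y (fV K V₀ i) = y.1 i := by
  rw [std_B]
  have h1 : (fun k => F.σ ((fV K V₀ i).2.1 k)) = Pi.single i 1 := by
    funext k
    by_cases hk : k = i
    · subst hk
      simp [fV]
    · simp [fV, hk]
  rw [h1, dotProduct_single, mul_one]
  simp [fV, S₀.B_zero_right]

theorem sg_ev (i : Fin m) : (S₀.std m).Sg (eV K V₀ i) := by
  have h : (S₀.std m).q (eV K V₀ i) = 0 := by
    rw [std_q]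
    simp [eV, S₀.q_zero]
  rw [Sq.Sg, h]
  exact F.Λ.zero_mem

theorem adm_e {i j : Fin m} : (S₀.std m).Adm (eV K V₀ i) (eV K V₀ j) 0 where
  sg := sg_ev i
  orth := by
    rw [B_ev]
    simp [eV]
  par := by
    rw [std_q]
    simp only [eV, Pi.zero_apply, map_zero, S₀.q_zero, add_zero, dotProduct, mul_zero,
      Finset.sum_const_zero, sub_zero]
    exact F.Λ.zero_mem

theorem adm_f {i j : Fin m} (hij : i ≠ j) :
    (S₀.std m).Adm (eV K V₀ i) (fV K V₀ j) 0 where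
  sg := sg_ev i
  orth := by
    rw [B_fv]
    simp [eV, hij.symm]
  par := by
    rw [std_q]
    simp only [fV, S₀.q_zero, add_zero, zero_dotProduct, sub_zero]
    exact F.Λ.zero_mem

/-- `θ e_0` is a multiple of `e_0`. -/
theorem core {θ : SV K V₀ m → SV K V₀ m} (hadd : ∀ u v, θ (u + v) = θ u + θ v)
    (hΓ : ∀ g ∈ (S₀.std m).D ⊤, ∀ v, θ (g v) = g (θ v)) {i j : Fin m} (hij : i ≠ j) :
    ∃ c : K, θ (eV K V₀ i) = c • eV K V₀ i := by
  have h1 := hΓ _ (Sq.T_mem_G (adm_e (S₀ := S₀) (i := i) (j := j))) (fV K V₀ j)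
  have h2 := hΓ _ (Sq.T_mem_G (adm_f (S₀ := S₀) hij)) (F.ε • eV K V₀ j)
  rw [Sq.T_apply adm_e, Sq.T_apply adm_e] at h1
  rw [Sq.T_apply (adm_f hij), Sq.T_apply (adm_f hij)] at h2
  simp only [B_ev, B_fv, zero_mul, add_zero] at h1 h2
  have e1 : (fV K V₀ j).2.1 i = (0 : K) := by simp [fV, hij]
  have e2 : (fV K V₀ j).2.1 j = (1 : K) := by simp [fV]
  have e3 : (F.ε • eV K V₀ j).2.1 i = (0 : K) := by simp [eV]
  have e4 : (F.ε • eV K V₀ j).1 j = F.ε := by simp [eV]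
  have hneg : ∀ v, θ (-v) = -θ v := by
    intro v
    have h0 : θ 0 = 0 := by
      have := hadd 0 0
      rw [add_zero] at this
      exact left_eq_add.1 this
    have := hadd v (-v)
    rw [add_neg_cancel, h0] at this
    exact (neg_eq_of_add_eq_zero_right this.symm).symm
  rw [e1, e2, mul_zero, zero_smul, add_zero, mul_one, F.ee, one_smul, sub_eq_add_neg, hadd,
    hneg, add_sub_assoc] at h1
  rw [e3, e4, mul_zero, zero_smul, add_zero, F.ee, one_smul, sub_eq_add_neg, hadd, hneg,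
    add_sub_assoc] at h2
  have h1' := add_left_cancel h1
  have h2' := add_left_cancel h2
  -- the coordinate at `e_j`
  have h3 := h1'.symm.trans h2'
  have h4 : F.ε * (θ (fV K V₀ j)).2.1 i = 0 := by
    have := congrFun (congrArg Prod.fst h3) j
    simpa [eV, fV, hij, hij.symm] using this
  rw [h4, zero_smul, zero_sub] at h1'
  exact ⟨_, neg_injective h1'⟩

end CM0M

open CM0M in
/-- CM0. -/
theorem specCM0 (hWT1 : SpecWT1) (_hWT3 : SpecWT3) (_hSPX : SpecSPX) : SpecCM0 := by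
  intro K _ F V₀ _ _ S₀ m hm hnd θ hadd hΓ
  have hij : (⟨0, by omega⟩ : Fin m) ≠ ⟨1, by omega⟩ := by
    intro h
    have := congrArg Fin.val h
    simp at this
  obtain ⟨c, hc⟩ := core hadd hΓ hij
  have hne : (eV K V₀ (⟨0, by omega⟩ : Fin m)) ≠ 0 := by
    intro h
    have h1 := congrFun (congrArg Prod.fst h) ⟨0, by omega⟩
    simp [eV] at h1
  have h0 : θ 0 = 0 := by
    have := hadd 0 0
    rw [add_zero] at this
    exact left_eq_add.1 this
  have key : ∀ u, (S₀.std m).Sg u → θ u = c • u := by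
    intro u hu
    by_cases hu0 : u = 0
    · rw [hu0, h0, smul_zero]
    · obtain ⟨g, hg, hgu⟩ := hWT1 K F V₀ S₀ m hm hnd (eV K V₀ ⟨0, by omega⟩) u hne hu0
        (F.Λ.sub_mem (sg_ev _) hu)
      rw [← hgu, hΓ g hg, hc, map_smul]
  refine ⟨c, fun u => ?_⟩
  let d : K := S₀.q u.2.2
  let i1 : Fin m := ⟨1, by omega⟩
  have hE : ∀ a : Fin m → K, (S₀.std m).Sg ((a, 0, 0) : SV K V₀ m) := by
    intro a
    rw [Sq.Sg, std_q]
    simp only [Pi.zero_apply, map_zero, S₀.q_zero, add_zero]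
    have : a ⬝ᵥ (fun _ : Fin m => (0 : K)) = 0 := by simp [dotProduct]
    rw [this]
    exact F.Λ.zero_mem
  have hF : ∀ a : Fin m → K, (S₀.std m).Sg ((0, a, 0) : SV K V₀ m) := by
    intro a
    rw [Sq.Sg, std_q]
    simp only [S₀.q_zero, add_zero, zero_dotProduct]
    exact F.Λ.zero_mem
  have hS : (S₀.std m).Sg ((Pi.single i1 (-d), Pi.single i1 1, u.2.2) : SV K V₀ m) := by
    rw [Sq.Sg, std_q]
    have : (Pi.single i1 (-d) : Fin m → K) ⬝ᵥ
        (fun i => F.σ ((Pi.single i1 (1 : K) : Fin m → K) i)) = -d := by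
      rw [single_dotProduct]
      simp
    simp only [this]
    have h2 : -d + S₀.q u.2.2 = 0 := by
      simp [d]
    rw [h2]
    exact F.Λ.zero_mem
  have hsum : u = (Pi.single i1 (-d), Pi.single i1 1, u.2.2) +
      ((u.1 + Pi.single i1 d, 0, 0) + (0, u.2.1 - Pi.single i1 1, 0)) := by
    refine Prod.ext ?_ (Prod.ext ?_ ?_)
    · simp only [Prod.fst_add, add_zero, Pi.single_neg]
      abel
    · simp only [Prod.snd_add, Prod.fst_add, zero_add]
      abel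
    · simp
  rw [hsum, hadd, hadd, key _ hS, key _ (hE _), key _ (hF _), smul_add, smul_add]

end Pool.Agent.Lib.MP66ef6b.CL
end

section
set_option autoImplicit false

/-!
# MP_66ef6b_al, THEOREM L2, module EMB (helper82): the group of `⟨e_0, f_0⟩^⊥`
-/

namespace Pool.Agent.Lib.MP66ef6b.CL

open Matrix

namespace EMBM

variable {K : Type} [Field K] {F : FD K} {V₀ : Type} [AddCommGroup V₀] [Module K V₀]
  {S₀ : Sq F V₀} {m : ℕ}

theorem jW_add (x y : SV K V₀ m) : jW (x + y) = jW x + jW y := by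
  refine Prod.ext ?_ (Prod.ext ?_ ?_)
  · funext i
    refine Fin.cases ?_ (fun j => ?_) i
    · simp [jW]
    · simp [jW]
  · funext i
    refine Fin.cases ?_ (fun j => ?_) i
    · simp [jW]
    · simp [jW]
  · simp [jW]

theorem jW_smul (c : K) (x : SV K V₀ m) : jW (c • x) = c • jW x := by
  refine Prod.ext ?_ (Prod.ext ?_ ?_)
  · funext i
    refine Fin.cases ?_ (fun j => ?_) i
    · simp [jW]
    · simp [jW]
  · funext i
    refine Fin.cases ?_ (fun j => ?_) i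
    · simp [jW]
    · simp [jW]
  · simp [jW]

theorem jW_sub (x y : SV K V₀ m) : jW (x - y) = jW x - jW y := by
  have h : jW (-y) = -jW y := by
    have := jW_smul (-1) y
    simpa using this
  rw [sub_eq_add_neg, jW_add, h, ← sub_eq_add_neg]

theorem jW_mem (x : SV K V₀ m) : jW x ∈ Wr K V₀ m := by
  constructor
  · simp [jW]
  · simp [jW]

theorem β_jW (x y : SV K V₀ m) :
    (S₀.std (m + 1)).β (jW x) (jW y) = (S₀.std m).β x y := by
  rw [std_β, std_β]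
  simp only [dotProduct, Fin.sum_univ_succ, jW, Fin.cons_zero, Fin.cons_succ, zero_mul, zero_add]

theorem B_jW (x y : SV K V₀ m) :
    (S₀.std (m + 1)).B (jW x) (jW y) = (S₀.std m).B x y := by
  rw [Sq.B, Sq.B, β_jW, β_jW]

theorem q_jW (x : SV K V₀ m) : (S₀.std (m + 1)).q (jW x) = (S₀.std m).q x :=
  β_jW x x

theorem adm_jW {x w : SV K V₀ m} {a : K} (h : (S₀.std m).Adm x w a) :
    (S₀.std (m + 1)).Adm (jW x) (jW w) a where
  sg := by
    have := h.sg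
    rw [Sq.Sg] at this ⊢
    rw [q_jW]
    exact this
  orth := by
    rw [B_jW]
    exact h.orth
  par := by
    rw [q_jW]
    exact h.par

theorem B_eV (x : SV K V₀ m) : (S₀.std (m + 1)).B (eV K V₀ 0) (jW x) = 0 := by
  rw [std_B]
  simp [eV, jW, S₀.B_zero_left]

theorem B_fV (x : SV K V₀ m) : (S₀.std (m + 1)).B (fV K V₀ 0) (jW x) = 0 := by
  rw [std_B]
  simp [fV, jW, S₀.B_zero_left]

theorem T_fix {x w : SV K V₀ m} {a : K} (h : (S₀.std m).Adm x w a) (u : SV K V₀ (m + 1))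
    (hu : ∀ y : SV K V₀ m, (S₀.std (m + 1)).B u (jW y) = 0) :
    (S₀.std (m + 1)).T (jW x) (jW w) a u = u := by
  rw [Sq.T_apply (adm_jW h), hu, hu]
  simp

end EMBM

open EMBM in
theorem specEMB : SpecEMB := by
  intro K _ F V₀ _ _ S₀ m g hg
  rw [Sq.D] at hg
  induction hg using Subgroup.closure_induction with
  | mem g hg =>
    obtain ⟨x, -, w, -, a, h, rfl⟩ := hg
    refine ⟨(S₀.std (m + 1)).T (jW x) (jW w) a, Sq.T_mem_D (jW_mem x) (jW_mem w) (adm_jW h),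
      fun y => ?_, T_fix h _ B_eV, T_fix h _ B_fV⟩
    rw [Sq.T_apply (adm_jW h), Sq.T_apply h, B_jW, B_jW, jW_sub, jW_add, jW_smul, jW_smul]
  | one =>
    exact ⟨1, one_mem _, fun y => rfl, rfl, rfl⟩
  | mul g h _ _ ihg ihh =>
    obtain ⟨g', hg', h1, h2, h3⟩ := ihg
    obtain ⟨h', hh', h4, h5, h6⟩ := ihh
    refine ⟨g' * h', mul_mem hg' hh', fun y => ?_, ?_, ?_⟩
    · rw [LinearEquiv.mul_apply, LinearEquiv.mul_apply, h4, h1]
    · rw [LinearEquiv.mul_apply, h5, h2]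
    · rw [LinearEquiv.mul_apply, h6, h3]
  | inv g _ ihg =>
    obtain ⟨g', hg', h1, h2, h3⟩ := ihg
    have h0 : ∀ u, g'⁻¹ (g' u) = u := fun u => by
      rw [← LinearEquiv.mul_apply, inv_mul_cancel, LinearEquiv.coe_one, id_eq]
    have h0' : ∀ u, g (g⁻¹ u) = u := fun u => by
      rw [← LinearEquiv.mul_apply, mul_inv_cancel, LinearEquiv.coe_one, id_eq]
    refine ⟨g'⁻¹, inv_mem hg', fun y => ?_, ?_, ?_⟩
    · rw [← h0' y, ← h1, h0, h0']
    · nth_rewrite 1 [← h2]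
      rw [h0]
    · nth_rewrite 1 [← h3]
      rw [h0]

end Pool.Agent.Lib.MP66ef6b.CL
end

section
set_option autoImplicit false

/-!
# MP_66ef6b_al, THEOREM L2: module CMM
-/

namespace Pool.Agent.Lib.MP66ef6b.CL

open Matrix

namespace CMMM

section

variable {K : Type} [Field K] {F : FD K} {V₀ : Type} [AddCommGroup V₀] [Module K V₀]
  {S₀ : Sq F V₀} {m : ℕ}

/-- the projection onto the small space. -/
def pW {K V₀ : Type} {m : ℕ} (v : SV K V₀ (m + 1)) : SV K V₀ m :=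
  (Fin.tail v.1, Fin.tail v.2.1, v.2.2)

theorem pW_jW (v : SV K V₀ m) : pW (jW v) = v := by
  refine Prod.ext ?_ (Prod.ext ?_ ?_) <;> rfl

theorem pW_add (x y : SV K V₀ (m + 1)) : pW (x + y) = pW x + pW y := by
  refine Prod.ext ?_ (Prod.ext ?_ ?_) <;> rfl

theorem B_e0 (v : SV K V₀ (m + 1)) : (S₀.std (m + 1)).B v (eV K V₀ 0) = F.ε * v.2.1 0 := by
  rw [std_B]
  have h : (fun i => F.σ ((eV K V₀ (0 : Fin (m + 1))).1 i)) = Pi.single 0 1 := by
    funext i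
    simp only [eV, Pi.single_apply]
    split_ifs <;> simp
  rw [h, dotProduct_single]
  simp only [eV, Pi.zero_apply, map_zero, mul_one, S₀.B_zero_right, add_zero]
  simp [dotProduct]

theorem B_f0 (v : SV K V₀ (m + 1)) : (S₀.std (m + 1)).B v (fV K V₀ 0) = v.1 0 := by
  rw [std_B]
  have h : (fun i => F.σ ((fV K V₀ (0 : Fin (m + 1))).2.1 i)) = Pi.single 0 1 := by
    funext i
    simp only [fV, Pi.single_apply]
    split_ifs <;> simp
  rw [h, dotProduct_single]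
  simp only [fV, Pi.zero_apply, map_zero, mul_one, S₀.B_zero_right, add_zero]
  simp [dotProduct]

theorem jW_pW {v : SV K V₀ (m + 1)} (h1 : (S₀.std (m + 1)).B v (eV K V₀ 0) = 0)
    (h2 : (S₀.std (m + 1)).B v (fV K V₀ 0) = 0) : jW (pW v) = v := by
  rw [B_e0] at h1
  rw [B_f0] at h2
  have h3 : v.2.1 0 = 0 := (mul_eq_zero.1 h1).resolve_left F.e0
  refine Prod.ext ?_ (Prod.ext ?_ rfl)
  · funext i
    refine Fin.cases ?_ (fun j => ?_) i
    · rw [h2]
      rfl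
    · rfl
  · funext i
    refine Fin.cases ?_ (fun j => ?_) i
    · rw [h3]
      rfl
    · rfl

theorem B_jW_e (v : SV K V₀ m) : (S₀.std (m + 1)).B (jW v) (eV K V₀ 0) = 0 := by
  rw [B_e0]
  simp [jW]

theorem B_jW_f (v : SV K V₀ m) : (S₀.std (m + 1)).B (jW v) (fV K V₀ 0) = 0 := by
  rw [B_f0]
  simp [jW]

theorem conj_D {V : Type} [AddCommGroup V] [Module K V] {S : Sq F V} {g h : V ≃ₗ[K] V}
    (hg : g ∈ S.Iso) {W W' : Submodule K V} (hW : ∀ w ∈ W, g w ∈ W') (hh : h ∈ S.D W) :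
    g * h * g⁻¹ ∈ S.D W' := by
  have h1 : (S.D W).map (MulAut.conj g).toMonoidHom ≤ S.D W' := by
    rw [Sq.D, MonoidHom.map_closure, Subgroup.closure_le]
    rintro _ ⟨_, ⟨x, hx, w, hw, a, ha, rfl⟩, rfl⟩
    simp only [MulEquiv.coe_toMonoidHom, MulAut.conj_apply]
    rw [Sq.T_conj ha hg]
    exact Sq.T_mem_D (hW x hx) (hW w hw) (ha.map hg)
  apply h1
  exact ⟨h, hh, by simp⟩

end

end CMMM

open CMMM in
theorem specCMM (hCM0 : SpecCM0) (hWT3 : SpecWT3) (hEMB : SpecEMB) : SpecCMM := by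
  intro K _ F V₀ _ _ S₀ m hm hN x y hx hy hxy θ hθW hθa hθc
  obtain ⟨k, rfl⟩ : ∃ k, m = k + 1 := ⟨m - 1, by omega⟩
  obtain ⟨g, hg, hgx, hgy⟩ := hWT3 K F V₀ S₀ k (by omega) hN x
    (F.σ ((S₀.std (k + 1)).B x y)⁻¹ • y) hx (hy.smul _) (by
      rw [Sq.B_smul_right, F.inv, inv_mul_cancel₀ hxy])
  have hgi : g ∈ (S₀.std (k + 1)).Iso := Sq.D_le_Iso _ hg
  have hgi' : g⁻¹ ∈ (S₀.std (k + 1)).Iso := inv_mem hgi
  have hgg : ∀ v, g⁻¹ (g v) = v := fun v => by
    rw [← LinearEquiv.mul_apply, inv_mul_cancel, LinearEquiv.coe_one, id_eq]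
  have hgg' : ∀ v, g (g⁻¹ v) = v := fun v => by
    rw [← LinearEquiv.mul_apply, mul_inv_cancel, LinearEquiv.coe_one, id_eq]
  have hb : (S₀.std (k + 1)).B x y ≠ 0 := hxy
  -- `g⁻¹` maps `Wr` to `W`
  have hW1 : ∀ v : SV K V₀ (k + 1), (S₀.std (k + 1)).B v (eV K V₀ 0) = 0 →
      (S₀.std (k + 1)).B v (fV K V₀ 0) = 0 → g⁻¹ v ∈ Wp (S₀.std (k + 1)) x y := by
    intro v h1 h2
    rw [← hgx, ← hgg' v, hgi.1] at h1
    rw [← hgy, ← hgg' v, hgi.1, Sq.B_smul_right, F.inv] at h2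
    exact ⟨h1, (mul_eq_zero.1 h2).resolve_left (inv_ne_zero hb)⟩
  have hW2 : ∀ v ∈ Wp (S₀.std (k + 1)) x y, (S₀.std (k + 1)).B (g v) (eV K V₀ 0) = 0 ∧
      (S₀.std (k + 1)).B (g v) (fV K V₀ 0) = 0 := by
    rintro v ⟨h1, h2⟩
    rw [← hgx, ← hgy, hgi.1, hgi.1, Sq.B_smul_right, h1, h2, mul_zero]
    exact ⟨rfl, rfl⟩
  have hW3 : ∀ u : SV K V₀ k, g⁻¹ (jW u) ∈ Wp (S₀.std (k + 1)) x y := fun u =>
    hW1 _ (B_jW_e u) (B_jW_f u)
  have hW4 : ∀ v ∈ Wp (S₀.std (k + 1)) x y, jW (pW (g v)) = g v := fun v hv =>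
    jW_pW (S₀ := S₀) (hW2 v hv).1 (hW2 v hv).2
  have hjadd : ∀ u v : SV K V₀ k, g⁻¹ (jW (u + v)) = g⁻¹ (jW u) + g⁻¹ (jW v) := by
    intro u v
    rw [EMBM.jW_add, map_add]
  obtain ⟨c, hc⟩ := hCM0 K F V₀ S₀ k (by omega) hN (fun u => pW (g (θ (g⁻¹ (jW u))))) (by
    intro u v
    rw [hjadd, hθa _ (hW3 u) _ (hW3 v), map_add, pW_add]) (by
    intro h hh u
    obtain ⟨h', hh', h1, h2, h3⟩ := hEMB K F V₀ S₀ k h hh
    have h4 : g⁻¹ * h' * g⁻¹⁻¹ ∈ (S₀.std (k + 1)).D (Wp (S₀.std (k + 1)) x y) := by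
      apply conj_D hgi' (W := Wr K V₀ k) _ hh'
      intro w hw
      apply hW1
      · rw [B_e0, hw.2, mul_zero]
      · rw [B_f0, hw.1]
    rw [inv_inv] at h4
    have h5 := hθc _ h4 _ (hW3 u)
    have h6 : (g⁻¹ * h' * g) (g⁻¹ (jW u)) = g⁻¹ (jW (h u)) := by
      rw [LinearEquiv.mul_apply, LinearEquiv.mul_apply, hgg', h1]
    rw [h6] at h5
    change pW (g (θ (g⁻¹ (jW (h u))))) = h (pW (g (θ (g⁻¹ (jW u)))))
    rw [h5, LinearEquiv.mul_apply, LinearEquiv.mul_apply, hgg', ← hW4 _ (hθW _ (hW3 u)), h1,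
      pW_jW, pW_jW])
  refine ⟨c, fun v hv => ?_⟩
  have h1 := hc (pW (g v))
  change pW (g (θ (g⁻¹ (jW (pW (g v)))))) = c • pW (g v) at h1
  rw [hW4 v hv, hgg] at h1
  have h2 := congrArg jW h1
  rw [hW4 _ (hθW v hv), EMBM.jW_smul, hW4 v hv, ← map_smul] at h2
  exact g.injective h2

end Pool.Agent.Lib.MP66ef6b.CL
end

section
/-! CNJ: conjugates and inverses. -/
set_option autoImplicit false

namespace Pool.Agent.Lib.MP66ef6b.CL

theorem specCNJ : SpecCNJ := by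
  intro K _ F V₀ _ _ S₀ m δ g h
  refine ⟨fun hh hb => ?_, fun hb => ?_⟩
  · intro Ω _ _ _ h0
    have h1 := hb Ω h0
    refine lt_of_le_of_lt ?_ h1
    have h2 : (fy ((S₀.std m).D ⊤) Ω {g}).ncard ≤
        (fy ((S₀.std m).D ⊤) Ω {h * g * h⁻¹}).ncard := by
      refine Set.ncard_le_ncard_of_injOn
        (fun ω : Ω => (⟨h, hh⟩ : (S₀.std m).D ⊤) • ω) ?_ ?_ (Set.toFinite _)
      · intro ω hω γ hγ
        have h3 := hω ((⟨h, hh⟩ : (S₀.std m).D ⊤)⁻¹ * γ * ⟨h, hh⟩) (by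
          rw [Set.mem_singleton_iff] at hγ ⊢
          simp only [Subgroup.coe_mul, Subgroup.coe_inv, hγ]
          group)
        rw [mul_smul, mul_smul, inv_smul_eq_iff] at h3
        exact h3
      · intro a _ b _ hab
        exact MulAction.injective _ hab
    exact_mod_cast h2
  · intro Ω _ _ _ h0
    have h1 := hb Ω h0
    have h2 : fy ((S₀.std m).D ⊤) Ω {g} = fy ((S₀.std m).D ⊤) Ω {g⁻¹} := by
      ext ω
      constructor
      · intro hω γ hγ
        have h3 := hω γ⁻¹ (by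
          rw [Set.mem_singleton_iff] at hγ ⊢
          rw [Subgroup.coe_inv, hγ, inv_inv])
        rw [inv_smul_eq_iff] at h3
        exact h3.symm
      · intro hω γ hγ
        have h3 := hω γ⁻¹ (by
          rw [Set.mem_singleton_iff] at hγ ⊢
          rw [Subgroup.coe_inv, hγ])
        rw [inv_smul_eq_iff] at h3
        exact h3.symm
    rw [h2]
    exact h1

end Pool.Agent.Lib.MP66ef6b.CL
end

section
set_option autoImplicit false

/-!
# Module CRK: images of elements of small rank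
-/

namespace Pool.Agent.Lib.MP66ef6b.CL

universe u

theorem specCRK (hRKN : SpecRKN) : SpecCRK.{u} := by
  intro K _ F V₀ _ _ S₀ m R hC P _ π
  classical
  have := hC.finK
  have := hC.finV
  have hfin : Finite (SV K V₀ m) := Module.finite_of_finite K
  have hfinL : Finite (SV K V₀ m →ₗ[K] SV K V₀ m) := Module.finite_of_finite K
  have hdim : Module.finrank K (SV K V₀ m) ≤ 2 * m + 2 := by
    have h1 : Module.finrank K (SV K V₀ m) = m + (m + Module.finrank K V₀) := by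
      rw [Module.finrank_prod, Module.finrank_prod, Module.finrank_fin_fun]
    have := hC.dim
    omega
  set X : Set (SV K V₀ m →ₗ[K] SV K V₀ m) :=
    {f | Module.finrank K (LinearMap.range f) ≤ R} with hX
  have hXc : X.ncard ≤ Nat.card K ^ (2 * R * Module.finrank K (SV K V₀ m)) :=
    hRKN K (SV K V₀ m) R
  let G : (SV K V₀ m →ₗ[K] SV K V₀ m) × K → P := fun fa =>
    if h : ∃ g : (S₀.std m).D ⊤, g.1.toLinearMap = fa.1 + fa.2 • LinearMap.id then π h.choose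
    else 1
  have hsub : {p : P | ∃ g : (S₀.std m).D ⊤, π g = p ∧ ∃ a : K,
      Module.finrank K (LinearMap.range (g.1.toLinearMap - a • LinearMap.id)) ≤ R} ⊆
      G '' (X ×ˢ (Set.univ : Set K)) := by
    rintro p ⟨g, rfl, a, hg⟩
    refine ⟨(g.1.toLinearMap - a • LinearMap.id, a), ⟨hg, Set.mem_univ _⟩, ?_⟩
    have h : ∃ g' : (S₀.std m).D ⊤, g'.1.toLinearMap =
        (g.1.toLinearMap - a • LinearMap.id) + a • LinearMap.id :=
      ⟨g, (sub_add_cancel _ _).symm⟩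
    have h1 : G (g.1.toLinearMap - a • LinearMap.id, a) = π h.choose := dif_pos h
    rw [h1]
    congr 1
    apply Subtype.ext
    apply LinearEquiv.toLinearMap_injective
    rw [h.choose_spec, sub_add_cancel]
  refine (Set.ncard_le_ncard hsub (Set.toFinite _)).trans ?_
  refine (Set.ncard_image_le (Set.toFinite _)).trans ?_
  rw [Set.ncard_prod, Set.ncard_univ, pow_succ]
  refine Nat.mul_le_mul_right _ (hXc.trans ?_)
  exact Nat.pow_le_pow_right Nat.card_pos (Nat.mul_le_mul_left _ hdim)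

end Pool.Agent.Lib.MP66ef6b.CL
end

section
set_option autoImplicit false

/-!
# Module CS2: one element for all finite subgroups
-/

namespace Pool.Agent.Lib.MP66ef6b.CL

universe u

namespace CS2M

theorem mono {G : Type u} [Group G] {q₀ r m m₁ : ℕ} {f : G} {E E' : Subgroup G} (hm : m₁ ≤ m)
    (hE : E' ≤ E) (h : CData q₀ r m f E) : CData q₀ r m₁ f E' := by
  obtain ⟨X, Y, iY, ρ, P, x, K, iK, F, V₀, i1, i2, S₀, m', π, h1, h2, h3, h4, h5, h6, h7, h8, h9,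
    h10, h11, h12⟩ := h
  exact ⟨X, Y, iY, ρ, P, x, K, iK, F, V₀, i1, i2, S₀, m', π, h1, hE.trans h2, h3,
    fun y hy => h4 y (hE hy), h5, h6, h7, h8, lt_of_le_of_lt hm h9, h10, h11, h12⟩

end CS2M

open CS2M PL.CSTM in
theorem specCS2 : SpecCS2.{u} := by
  classical
  intro G _ _ hG F hF q₀ r h
  by_contra hcon
  push Not at hcon
  -- for every `f` a bad pair
  have h1 : ∀ f : F, ∃ (m : ℕ) (E : Subgroup G), Finite E ∧ F ≤ E ∧
      ((f : G) ≠ 1 → ¬ CData q₀ r m (f : G) E) := by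
    intro f
    by_cases hf : (f : G) = 1
    · exact ⟨0, F, hF, le_rfl, fun h => absurd hf h⟩
    · obtain ⟨m, E, hE, hFE, hn⟩ := hcon f f.2 hf
      exact ⟨m, E, hE, hFE, fun _ => hn⟩
  choose m E hE hFE hn using h1
  have := Fintype.ofFinite F
  obtain ⟨B, hB⟩ := h (Finset.univ.sup m)
  obtain ⟨E₁, hE₁, h2⟩ := exists_fin hG (⋃ f : F, (E f : Set G))
    (Set.finite_iUnion fun f => Set.toFinite _)
  obtain ⟨E₂, hE₂, h3, h4⟩ := exists_large hG E₁ hE₁ B
  have h5 : ∀ f : F, E f ≤ E₂ := fun f e he => h3 (h2 (Set.mem_iUnion.2 ⟨f, he⟩))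
  obtain ⟨f, hfF, hf1, hfd⟩ := hB E₂ hE₂ ((hFE 1).trans (h5 1)) h4
  refine hn ⟨f, hfF⟩ hf1 (mono ?_ (h5 _) hfd)
  exact Finset.le_sup (Finset.mem_univ _)

end Pool.Agent.Lib.MP66ef6b.CL
end

section
/-!
# MP_66ef6b_al, THEOREM L2, module CWQ (helper94): zeros of quadratic maps (Chevalley, Warning)
-/
set_option autoImplicit false

namespace Pool.Agent.Lib.MP66ef6b.CL

namespace CWQM

open MvPolynomial

section poly

variable {p N : ℕ} [Fact p.Prime]

/-- the functions given by polynomials of degree at most two -/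
def Q2 (p N : ℕ) (g : (Fin N → ZMod p) → ZMod p) : Prop :=
  ∃ P : MvPolynomial (Fin N) (ZMod p), P.totalDegree ≤ 2 ∧ ∀ x, eval x P = g x

theorem q2_add {g h : (Fin N → ZMod p) → ZMod p} (hg : Q2 p N g) (hh : Q2 p N h) :
    Q2 p N fun x => g x + h x := by
  obtain ⟨P, hP, hP'⟩ := hg
  obtain ⟨R, hR, hR'⟩ := hh
  refine ⟨P + R, (totalDegree_add _ _).trans (max_le hP hR), fun x => ?_⟩
  rw [eval_add, hP', hR']

theorem q2_zero : Q2 p N fun _ => 0 :=
  ⟨0, by rw [totalDegree_zero]; exact Nat.zero_le _, fun x => by rw [map_zero]⟩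

theorem q2_lin (c : ZMod p) (i : Fin N) : Q2 p N fun x => x i * c := by
  refine ⟨X i * C c, ?_, fun x => by rw [map_mul, eval_X, eval_C]⟩
  refine (totalDegree_mul _ _).trans ?_
  rw [totalDegree_X, totalDegree_C]
  norm_num

theorem q2_mul (c : ZMod p) (i j : Fin N) : Q2 p N fun x => x i * x j * c := by
  refine ⟨X i * X j * C c, ?_, fun x => by rw [map_mul, map_mul, eval_X, eval_X, eval_C]⟩
  refine (totalDegree_mul _ _).trans ?_
  have h := totalDegree_mul (X i : MvPolynomial (Fin N) (ZMod p)) (X j)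
  rw [totalDegree_X, totalDegree_X] at h
  rw [totalDegree_C]
  omega

theorem q2_sum {ι : Type} (s : Finset ι) {g : ι → (Fin N → ZMod p) → ZMod p}
    (hg : ∀ i ∈ s, Q2 p N (g i)) : Q2 p N fun x => ∑ i ∈ s, g i x := by
  classical
  induction s using Finset.induction_on with
  | empty =>
    simp only [Finset.sum_empty]
    exact q2_zero
  | insert i s hi ih =>
    simp only [Finset.sum_insert hi]
    exact q2_add (hg i (Finset.mem_insert_self i s))
      (ih fun j hj => hg j (Finset.mem_insert_of_mem hj))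

theorem q2_congr {g h : (Fin N → ZMod p) → ZMod p} (hg : Q2 p N g) (e : ∀ x, g x = h x) :
    Q2 p N h := by
  obtain ⟨P, hP, hP'⟩ := hg
  exact ⟨P, hP, fun x => (hP' x).trans (e x)⟩

end poly

section vec

variable {p : ℕ} [Fact p.Prime] {X Y : Type} [AddCommGroup X] [AddCommGroup Y]
  [Module (ZMod p) X] [Module (ZMod p) Y] {φ : X → Y} {b : X → X → Y}

theorem smul_left (hb1 : ∀ u v w, b (u + v) w = b u w + b v w) (t : ZMod p) (u v : X) :
    b (t • u) v = t • b u v := by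
  have h := (AddMonoidHom.toZModLinearMap p
    (AddMonoidHom.mk' (fun u => b u v) fun u w => hb1 u w v)).map_smul t u
  exact h

theorem smul_right (hb2 : ∀ u v w, b u (v + w) = b u v + b u w) (t : ZMod p) (u v : X) :
    b u (t • v) = t • b u v := by
  have h := (AddMonoidHom.toZModLinearMap p
    (AddMonoidHom.mk' (fun v => b u v) fun v w => hb2 u v w)).map_smul t v
  exact h

theorem zero_right (hb2 : ∀ u v w, b u (v + w) = b u v + b u w) (u : X) : b u 0 = 0 := by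
  have h := hb2 u 0 0
  rw [add_zero] at h
  exact left_eq_add.1 h

theorem phi_zero (hb2 : ∀ u v w, b u (v + w) = b u v + b u w)
    (hφ : ∀ u v, φ (u + v) = φ u + φ v + b u v) : φ 0 = 0 := by
  have h1 : b 0 0 = 0 := by
    have h := hb2 0 0 0
    rw [add_zero] at h
    exact left_eq_add.1 h
  have h := hφ 0 0
  rw [add_zero, h1, add_zero] at h
  exact left_eq_add.1 h

/-- one half, or zero for `p = 2`. -/
theorem half (hφ : ∀ u v, φ (u + v) = φ u + φ v + b u v)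
    (hb2 : ∀ u v w, b u (v + w) = b u v + b u w) :
    ∃ h : ZMod p, ∀ u : X, (h + h) • b u u = b u u := by
  have hp := (Fact.out : p.Prime)
  by_cases h2 : (2 : ZMod p) = 0
  · refine ⟨0, fun u => ?_⟩
    rw [add_zero, zero_smul]
    have h3 : ∀ x : X, x + x = 0 := fun x => by
      rw [← two_smul (ZMod p) x, h2, zero_smul]
    have h4 : ∀ y : Y, y + y = 0 := fun y => by
      rw [← two_smul (ZMod p) y, h2, zero_smul]
    have h5 := hφ u u
    rw [h3, h4, zero_add, phi_zero hb2 hφ] at h5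
    exact h5
  · refine ⟨(2 : ZMod p)⁻¹, fun u => ?_⟩
    have h3 : (2 : ZMod p)⁻¹ + (2 : ZMod p)⁻¹ = 1 := by
      rw [← two_mul, mul_inv_cancel₀ h2]
    rw [h3, one_smul]

theorem phi_smul (hb1 : ∀ u v w, b (u + v) w = b u w + b v w)
    (hb2 : ∀ u v w, b u (v + w) = b u v + b u w)
    (hφ : ∀ u v, φ (u + v) = φ u + φ v + b u v) {h : ZMod p}
    (hh : ∀ u : X, (h + h) • b u u = b u u) (t : ZMod p) (u : X) :
    φ (t • u) = t • (φ u - h • b u u) + (t * t * h) • b u u := by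
  have hadd : ∀ s t : ZMod p, φ ((s + t) • u) - ((s + t) * (s + t) * h) • b u u =
      (φ (s • u) - (s * s * h) • b u u) + (φ (t • u) - (t * t * h) • b u u) := by
    intro s t
    have h1 : ((s + t) * (s + t) * h) • b u u =
        (s * s * h) • b u u + (t * t * h) • b u u + (s * t) • b u u := by
      have h2 : (s + t) * (s + t) * h = s * s * h + t * t * h + s * t * (h + h) := by ring
      rw [h2, add_smul, add_smul, mul_smul (s * t) (h + h), hh]
    rw [add_smul, hφ, h1, smul_left hb1, smul_right hb2, smul_smul]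
    abel
  have h3 := (AddMonoidHom.toZModLinearMap p
    (AddMonoidHom.mk' (fun t : ZMod p => φ (t • u) - (t * t * h) • b u u) hadd)).map_smul t 1
  have h4 : φ (t • u) - (t * t * h) • b u u = t • (φ u - h • b u u) := by
    have h5 : φ ((t • (1 : ZMod p)) • u) - ((t • (1 : ZMod p)) * (t • (1 : ZMod p)) * h) • b u u =
        t • (φ ((1 : ZMod p) • u) - ((1 : ZMod p) * 1 * h) • b u u) := h3
    rw [smul_eq_mul, mul_one, one_smul, one_mul, one_mul] at h5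
    exact h5
  rw [← h4, sub_add_cancel]

theorem q2_phi (hb1 : ∀ u v w, b (u + v) w = b u w + b v w)
    (hb2 : ∀ u v w, b u (v + w) = b u v + b u w)
    (hφ : ∀ u v, φ (u + v) = φ u + φ v + b u v) {N : ℕ} (e : Fin N → X) (w : Y →ₗ[ZMod p] ZMod p)
    (s : Finset (Fin N)) : Q2 p N fun x => w (φ (∑ i ∈ s, x i • e i)) := by
  classical
  obtain ⟨h, hh⟩ := half (p := p) hφ hb2
  induction s using Finset.induction_on with
  | empty =>
    refine q2_congr q2_zero fun x => ?_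
    rw [Finset.sum_empty, phi_zero hb2 hφ, map_zero]
  | insert i s hi ih =>
    have h1 : Q2 p N fun x => x i * w (φ (e i) - h • b (e i) (e i)) :=
      q2_lin _ i
    have h2 : Q2 p N fun x => x i * x i * (h * w (b (e i) (e i))) := q2_mul _ i i
    have h3 : Q2 p N fun x => ∑ j ∈ s, x i * x j * w (b (e i) (e j)) :=
      q2_sum s fun j _ => q2_mul _ i j
    refine q2_congr (q2_add (q2_add (q2_add h1 h2) ih) h3) fun x => ?_
    have h4 : ∀ r : Finset (Fin N), b (x i • e i) (∑ j ∈ r, x j • e j) =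
        ∑ j ∈ r, (x i * x j) • b (e i) (e j) := by
      intro r
      induction r using Finset.induction_on with
      | empty => rw [Finset.sum_empty, Finset.sum_empty, zero_right hb2]
      | insert j r hj ihr =>
        rw [Finset.sum_insert hj, Finset.sum_insert hj, hb2, ihr, smul_left hb1, smul_right hb2,
          smul_smul]
    rw [Finset.sum_insert hi, hφ, h4, phi_smul hb1 hb2 hφ hh]
    simp only [map_add, map_sum, map_smul, smul_eq_mul]
    ring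

end vec

theorem exists_zero (p : ℕ) [Fact p.Prime] {X Y : Type} [AddCommGroup X] [AddCommGroup Y]
    [Module (ZMod p) X] [Module (ZMod p) Y] {φ : X → Y} {b : X → X → Y} [Finite X] [Finite Y]
    (hb1 : ∀ u v w, b (u + v) w = b u w + b v w)
    (hb2 : ∀ u v w, b u (v + w) = b u v + b u w)
    (hφ : ∀ u v, φ (u + v) = φ u + φ v + b u v)
    (hcard : Nat.card Y ^ 2 < Nat.card X) : ∃ x : X, x ≠ 0 ∧ φ x = 0 := by
  have hp := (Fact.out : p.Prime)
  have : Module.Finite (ZMod p) X := Module.Finite.of_finite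
  have : Module.Finite (ZMod p) Y := Module.Finite.of_finite
  obtain ⟨e⟩ : Nonempty (Module.Basis (Fin (Module.finrank (ZMod p) X)) (ZMod p) X) :=
    ⟨Module.finBasis (ZMod p) X⟩
  obtain ⟨w⟩ : Nonempty (Module.Basis (Fin (Module.finrank (ZMod p) Y)) (ZMod p) Y) :=
    ⟨Module.finBasis (ZMod p) Y⟩
  have hN : Nat.card X = p ^ Module.finrank (ZMod p) X := by
    rw [Module.natCard_eq_pow_finrank (K := ZMod p), Nat.card_zmod]
  have hr : Nat.card Y = p ^ Module.finrank (ZMod p) Y := by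
    rw [Module.natCard_eq_pow_finrank (K := ZMod p), Nat.card_zmod]
  rw [hN, hr, ← pow_mul] at hcard
  have hlt := (Nat.pow_lt_pow_iff_right hp.one_lt).1 hcard
  choose P hP hP' using fun k : Fin (Module.finrank (ZMod p) Y) =>
    q2_phi (p := p) hb1 hb2 hφ (fun i => e i) (w.coord k) Finset.univ
  have hdeg : ∑ k, (P k).totalDegree < Fintype.card (Fin (Module.finrank (ZMod p) X)) := by
    refine lt_of_le_of_lt (Finset.sum_le_sum fun k _ => hP k) ?_
    rw [Finset.sum_const, Finset.card_univ, Fintype.card_fin, Fintype.card_fin, smul_eq_mul]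
    exact hlt
  have hdvd := char_dvd_card_solutions_of_fintype_sum_lt p hdeg
  rw [Fintype.card_eq_nat_card] at hdvd
  have h0 : ∀ k, MvPolynomial.eval (0 : Fin (Module.finrank (ZMod p) X) → ZMod p) (P k) = 0 := by
    intro k
    refine (hP' k 0).trans ?_
    have h1 : ∑ i, (0 : Fin (Module.finrank (ZMod p) X) → ZMod p) i • e i = 0 := by
      simp
    beta_reduce
    rw [h1, phi_zero hb2 hφ, map_zero]
  have hne : Nonempty {x : Fin (Module.finrank (ZMod p) X) → ZMod p //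
      ∀ k, MvPolynomial.eval x (P k) = 0} := ⟨⟨0, h0⟩⟩
  have hone := lt_of_lt_of_le hp.one_lt (Nat.le_of_dvd Nat.card_pos hdvd)
  have hnt := Finite.one_lt_card_iff_nontrivial.1 hone
  obtain ⟨x, hx⟩ := exists_ne (⟨0, h0⟩ : {x : Fin (Module.finrank (ZMod p) X) → ZMod p //
      ∀ k, MvPolynomial.eval x (P k) = 0})
  have hx0 : x.1 ≠ 0 := fun h => hx (Subtype.ext h)
  refine ⟨∑ i, x.1 i • e i, ?_, ?_⟩
  · intro h
    apply hx0
    have h1 := e.repr_sum_self x.1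
    rw [h, map_zero] at h1
    exact h1.symm
  · refine w.ext_elem fun k => ?_
    rw [map_zero, Finsupp.zero_apply]
    have h1 := x.2 k
    rw [hP' k] at h1
    exact h1

end CWQM

open CWQM in
/-- **CWQ.** -/
theorem specCWQ : SpecCWQ := by
  intro p X Y _ _ _ _ φ b hp hX hY hb1 hb2 hφ hcard
  have : Fact p.Prime := ⟨hp⟩
  let iX : Module (ZMod p) X := AddCommGroup.zmodModule hX
  let iY : Module (ZMod p) Y := AddCommGroup.zmodModule hY
  exact exists_zero p hb1 hb2 hφ hcard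

end Pool.Agent.Lib.MP66ef6b.CL
end

section
set_option autoImplicit false

/-!
# MP_66ef6b_al, THEOREM L2: module DEN (a positive proportion)
-/

namespace Pool.Agent.Lib.MP66ef6b.CL

open PL (SLn fx)

open Pointwise

universe u

namespace DENM

/-- transitive actions: the proportion of the group elements mapping `τ₀` into `A`. -/
theorem prop_count {Γ X : Type} [Group Γ] [Fintype Γ] [MulAction Γ X] (S A : Finset X) (τ₀ : X)
    [DecidableEq X] (hS : ∀ g : Γ, g • τ₀ ∈ S) (htr : ∀ τ ∈ S, ∃ g : Γ, g • τ₀ = τ) (hA : A ⊆ S) :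
    (Finset.univ.filter (fun g : Γ => g • τ₀ ∈ A)).card * S.card = Fintype.card Γ * A.card := by
  set n := (Finset.univ.filter (fun g : Γ => g • τ₀ = τ₀)).card with hn
  have hfib : ∀ τ ∈ S, (Finset.univ.filter (fun g : Γ => g • τ₀ = τ)).card = n := by
    intro τ hτ
    obtain ⟨h, hh⟩ := htr τ hτ
    rw [hn]
    refine Finset.card_nbij' (fun g => h⁻¹ * g) (fun g => h * g) ?_ ?_ ?_ ?_
    · intro g hg
      simp only [Finset.coe_filter, Finset.mem_univ, true_and, Set.mem_ofPred_eq] at hg ⊢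
      rw [mul_smul, hg, ← hh, inv_smul_smul]
    · intro g hg
      simp only [Finset.coe_filter, Finset.mem_univ, true_and, Set.mem_ofPred_eq] at hg ⊢
      rw [mul_smul, hg, hh]
    · intro g _
      simp
    · intro g _
      simp
  have h1 : ∀ B : Finset X, B ⊆ S →
      (Finset.univ.filter (fun g : Γ => g • τ₀ ∈ B)).card = B.card * n := by
    intro B hB
    rw [Finset.card_eq_sum_card_fiberwise (f := fun g : Γ => g • τ₀) (t := B)]
    · rw [Finset.sum_congr rfl (g := fun _ => n), Finset.sum_const, smul_eq_mul]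
      intro τ hτ
      rw [← hfib τ (hB hτ)]
      congr 1
      ext g
      simp only [Finset.mem_filter, Finset.mem_univ, true_and]
      exact ⟨fun h => h.2, fun h => ⟨h ▸ hτ, h⟩⟩
    · intro g hg
      simpa using hg
  have h2 := h1 A hA
  have h3 := h1 S (Finset.Subset.refl S)
  have h4 : (Finset.univ.filter (fun g : Γ => g • τ₀ ∈ S)).card = Fintype.card Γ := by
    rw [Finset.filter_true_of_mem (fun g _ => hS g), Finset.card_univ]
  rw [h4] at h3
  rw [h2, h3]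
  ring

section

variable {K : Type} [Field K] {F : FD K} {V₀ : Type} [AddCommGroup V₀] [Module K V₀]
  {S₀ : Sq F V₀} {m : ℕ}

theorem q_ix {k : ℕ} (u : Fin k → K) : (S₀.std m).q (ix (m := m) V₀ u) = 0 := by
  rw [std_q]
  simp [ix, S₀.q_zero]

theorem q_iy {k : ℕ} (u : Fin k → K) : (S₀.std m).q (iy (m := m) V₀ u) = 0 := by
  rw [std_q]
  simp [iy, S₀.q_zero]

theorem B_ixy {k : ℕ} (u w : Fin k → K) :
    (S₀.std m).B (ix (m := m) V₀ u) (iy V₀ w) = 0 := by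
  rw [std_B]
  simp [ix, iy, S₀.B_zero_left]

theorem adm {k : ℕ} (u w : Fin k → K) : (S₀.std m).Adm (ix (m := m) V₀ u) (iy V₀ w) 0 where
  sg := by
    rw [Sq.Sg, q_ix]
    exact F.Λ.zero_mem
  orth := B_ixy u w
  par := by
    rw [q_iy, sub_zero]
    exact F.Λ.zero_mem

theorem tps {k : ℕ} (hk : 2 * k < m) (u w : Fin k → K) (hu : u ≠ 0) (hw : w ≠ 0) :
    ((ix (m := m) V₀ u, iy V₀ w) : SV K V₀ m × SV K V₀ m) ∈ (S₀.std m).TPs := by
  refine ⟨?_, ?_, B_ixy u w, ?_⟩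
  · change (S₀.std m).Sg (ix (m := m) V₀ u)
    rw [Sq.Sg, q_ix]
    exact F.Λ.zero_mem
  · change (S₀.std m).Sg (iy (m := m) V₀ w)
    rw [Sq.Sg, q_iy]
    exact F.Λ.zero_mem
  · change LinearIndependent K ![ix (m := m) V₀ u, iy (m := m) V₀ w]
    rw [LinearIndependent.pair_iff]
    intro s t hst
    obtain ⟨i, hi⟩ := Function.ne_iff.1 hu
    obtain ⟨j, hj⟩ := Function.ne_iff.1 hw
    have hik := i.2
    have hjk := j.2
    have h1 := congrArg (fun v : SV K V₀ m => v.1 ⟨i.val, by omega⟩) hst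
    have h2 := congrArg (fun v : SV K V₀ m => v.1 ⟨k + j.val, by omega⟩) hst
    have e1 : ¬ (k ≤ i.val ∧ i.val < 2 * k) := by omega
    have e2 : ¬ (k + j.val < k) := by omega
    have e3 : k ≤ k + j.val ∧ k + j.val < 2 * k := by omega
    have e4 : (⟨k + j.val - k, by omega⟩ : Fin k) = j := Fin.ext (by simp)
    simp only [ix, iy, Prod.fst_add, Prod.smul_fst, Prod.fst_zero, Pi.add_apply, Pi.smul_apply,
      Pi.zero_apply, smul_eq_mul, dif_pos hik, dif_neg e1, mul_zero, add_zero] at h1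
    simp only [ix, iy, Prod.fst_add, Prod.smul_fst, Prod.fst_zero, Pi.add_apply, Pi.smul_apply,
      Pi.zero_apply, smul_eq_mul, dif_neg e2, dif_pos e3, e4, mul_zero, zero_add] at h2
    exact ⟨(mul_eq_zero.1 h1).resolve_right hi, (mul_eq_zero.1 h2).resolve_right hj⟩

end

end DENM

theorem specDEN (hPRS : SpecPRS) (hWT2 : SpecWT2) : SpecDEN := by
  classical
  intro K _ F V₀ _ _ S₀ m t hCls hkm C hC hidx
  obtain ⟨hfK, hfV, hnd, -, hm3, -⟩ := hCls
  haveI := hfK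
  haveI := hfV
  haveI : Finite V₀ := Module.finite_of_finite K
  haveI : Finite (SV K V₀ m) := inferInstance
  haveI : Finite (SV K V₀ m ≃ₗ[K] SV K V₀ m) :=
    Finite.of_injective (fun g => (g : SV K V₀ m → SV K V₀ m)) DFunLike.coe_injective
  set Γ := (S₀.std m).D ⊤ with hΓ
  haveI : Fintype Γ := Fintype.ofFinite _
  haveI : Fintype K := Fintype.ofFinite _
  haveI : Fintype (SV K V₀ m × SV K V₀ m) := Fintype.ofFinite _
  have hq2 : 2 ≤ Nat.card K := by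
    rw [Nat.card_eq_fintype_card]
    exact Fintype.one_lt_card
  set q := Nat.card K with hq
  -- the group acts on the pairs
  have hiso : ∀ g ∈ Γ, g ∈ (S₀.std m).Iso := fun g hg => Sq.D_le_Iso _ hg
  have hmapT : ∀ g ∈ Γ, ∀ τ ∈ (S₀.std m).TPs, ((g τ.1, g τ.2) : SV K V₀ m × SV K V₀ m) ∈
      (S₀.std m).TPs := by
    rintro g hg ⟨x, y⟩ ⟨h1, h2, h3, h4⟩
    have hgi := hiso g hg
    refine ⟨?_, ?_, ?_, ?_⟩
    · have := F.Λ.add_mem (hgi.2 x) h1
      rwa [sub_add_cancel] at this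
    · have := F.Λ.add_mem (hgi.2 y) h2
      rwa [sub_add_cancel] at this
    · change (S₀.std m).B (g x) (g y) = 0
      rw [hgi.1]
      exact h3
    · change LinearIndependent K ![g x, g y]
      change LinearIndependent K ![x, y] at h4
      rw [LinearIndependent.pair_iff] at h4 ⊢
      intro s t hst
      apply h4 s t
      apply g.injective
      rw [map_add, map_smul, map_smul, hst, map_zero]
  -- finite sets
  set ST : Finset (SV K V₀ m × SV K V₀ m) := Finset.univ.filter (fun τ => τ ∈ (S₀.std m).TPs) with hST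
  set SA : Finset (SV K V₀ m × SV K V₀ m) :=
    Finset.univ.filter (fun τ => τ ∈ (S₀.std m).TPs ∧ (S₀.std m).T τ.1 τ.2 0 ∈ C) with hSA
  have hST' : (S₀.std m).TPs.ncard = ST.card := by
    rw [← Set.ncard_coe_finset]
    congr 1
    ext τ
    simp [hST]
  have hSA' : {τ | τ ∈ (S₀.std m).TPs ∧ (S₀.std m).T τ.1 τ.2 0 ∈ C}.ncard = SA.card := by
    rw [← Set.ncard_coe_finset]
    congr 1
    ext τ
    simp [hSA]
  rw [hST', hSA']
  have hAS : SA ⊆ ST := by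
    intro τ hτ
    rw [hSA, Finset.mem_filter] at hτ
    rw [hST, Finset.mem_filter]
    exact ⟨Finset.mem_univ _, hτ.2.1⟩
  set k := t + 2 with hk
  -- the pairs of non-zero vectors
  set P : Finset ((Fin k → K) × (Fin k → K)) := Finset.univ.filter (fun p => p.1 ≠ 0 ∧ p.2 ≠ 0) with hP
  have hcardF : Fintype.card (Fin k → K) = q ^ k := by
    rw [Fintype.card_fun, Fintype.card_fin, hq, Nat.card_eq_fintype_card]
  have hPcard : P.card ≤ q ^ (2 * k) := by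
    refine (Finset.card_le_univ _).trans ?_
    rw [Fintype.card_prod, hcardF, ← pow_add, two_mul]
  -- the count for one `g`
  have hone : ∀ g : Γ, q ^ (t + 3) ≤
      (P.filter (fun p => (S₀.std m).T (g.1 (ix (m := m) V₀ p.1)) (g.1 (iy V₀ p.2)) 0 ∈ C)).card := by
    intro g
    set Cg : Subgroup (SV K V₀ m ≃ₗ[K] SV K V₀ m) := MulAut.conj (g.1⁻¹) • C with hCg
    have hΓg : MulAut.conj (g.1⁻¹) • Γ = Γ := Subgroup.conj_smul_eq_self_of_mem (Γ.inv_mem g.2)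
    have h1 : Cg ≤ Γ := by
      rw [← hΓg, hCg]
      exact Subgroup.pointwise_smul_le_pointwise_smul_iff.2 hC
    have h2 : Cg.relIndex Γ = C.relIndex Γ := by
      conv_lhs => rw [← hΓg, hCg]
      exact Subgroup.relIndex_pointwise_smul _ _ _
    have h3 := hPRS K F V₀ S₀ m k t hkm Cg h1 (by rw [← hΓ, h2]; exact hidx)
    have h4 : {p : (Fin k → K) × (Fin k → K) |
        (S₀.std m).T (ix (m := m) V₀ p.1) (iy V₀ p.2) 0 ∈ Cg}.ncard =
        (Finset.univ.filter (fun p : (Fin k → K) × (Fin k → K) =>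
          (S₀.std m).T (g.1 (ix (m := m) V₀ p.1)) (g.1 (iy V₀ p.2)) 0 ∈ C)).card := by
      rw [← Set.ncard_coe_finset]
      congr 1
      ext p
      simp only [Set.mem_ofPred_eq, Finset.coe_filter, Finset.mem_univ, true_and]
      rw [hCg, Subgroup.mem_pointwise_smul_iff_inv_smul_mem, ← map_inv, inv_inv, MulAut.smul_def,
        MulAut.conj_apply, Sq.T_conj (DENM.adm p.1 p.2) (hiso g.1 g.2)]
    rw [h4] at h3
    -- the pairs with a zero entry
    have h5 : (Finset.univ.filter (fun p : (Fin k → K) × (Fin k → K) =>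
          (S₀.std m).T (g.1 (ix (m := m) V₀ p.1)) (g.1 (iy V₀ p.2)) 0 ∈ C)) ⊆
        (P.filter (fun p => (S₀.std m).T (g.1 (ix (m := m) V₀ p.1)) (g.1 (iy V₀ p.2)) 0 ∈ C)) ∪
          ((Finset.univ.image (fun w : Fin k → K => ((0 : Fin k → K), w))) ∪
            (Finset.univ.image (fun u : Fin k → K => (u, (0 : Fin k → K))))) := by
      rintro ⟨u, w⟩ hp
      rw [Finset.mem_filter] at hp
      rw [Finset.mem_union, Finset.mem_union, Finset.mem_filter]
      by_cases hu : u = 0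
      · right; left
        rw [Finset.mem_image]
        exact ⟨w, Finset.mem_univ _, by rw [hu]⟩
      · by_cases hw : w = 0
        · right; right
          rw [Finset.mem_image]
          exact ⟨u, Finset.mem_univ _, by rw [hw]⟩
        · left
          refine ⟨?_, hp.2⟩
          rw [hP, Finset.mem_filter]
          exact ⟨Finset.mem_univ _, hu, hw⟩
    have h6 := Finset.card_le_card h5
    have h7 : (Finset.univ.image (fun w : Fin k → K => ((0 : Fin k → K), w))).card ≤ q ^ k :=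
      Finset.card_image_le.trans (by rw [Finset.card_univ, hcardF])
    have h8 : (Finset.univ.image (fun u : Fin k → K => (u, (0 : Fin k → K)))).card ≤ q ^ k :=
      Finset.card_image_le.trans (by rw [Finset.card_univ, hcardF])
    have h9 := (h6.trans (Finset.card_union_le _ _)).trans
      (Nat.add_le_add_left ((Finset.card_union_le _ _).trans (Nat.add_le_add h7 h8)) _)
    -- numbers
    have h10 : q ^ (t + 4) ≤ (Finset.univ.filter (fun p : (Fin k → K) × (Fin k → K) =>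
          (S₀.std m).T (g.1 (ix (m := m) V₀ p.1)) (g.1 (iy V₀ p.2)) 0 ∈ C)).card := by
      have e : q ^ (2 * k) = q ^ t * q ^ (t + 4) := by
        rw [← pow_add]; congr 1; omega
      rw [e] at h3
      exact Nat.le_of_mul_le_mul_left h3 (by positivity)
    have h11 : q ^ (t + 3) + (q ^ k + q ^ k) ≤ q ^ (t + 4) := by
      rw [hk]
      have e1 : q ^ (t + 3) = q ^ (t + 2) * q := by rw [← pow_succ]
      have e2 : q ^ (t + 4) = q ^ (t + 2) * (q * q) := by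
        rw [← mul_assoc, ← pow_succ, ← pow_succ]
      rw [e1, e2]
      have : q ^ (t + 2) * q + (q ^ (t + 2) + q ^ (t + 2)) = q ^ (t + 2) * (q + 2) := by ring
      rw [this]
      exact Nat.mul_le_mul_left _ (by nlinarith)
    omega
  -- the count for one pair
  letI : MulAction Γ (SV K V₀ m × SV K V₀ m) :=
    { smul := fun g τ => (g.1 τ.1, g.1 τ.2)
      one_smul := fun τ => rfl
      mul_smul := fun g h τ => rfl }
  have hsm : ∀ (g : Γ) (τ : SV K V₀ m × SV K V₀ m), g • τ = (g.1 τ.1, g.1 τ.2) := fun g τ => rfl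
  have hpair : ∀ p ∈ P, (Finset.univ.filter (fun g : Γ =>
      (S₀.std m).T (g.1 (ix (m := m) V₀ p.1)) (g.1 (iy V₀ p.2)) 0 ∈ C)).card * ST.card =
        Fintype.card Γ * SA.card := by
    intro p hp
    rw [hP, Finset.mem_filter] at hp
    have hτ := DENM.tps (V₀ := V₀) (S₀ := S₀) (by rw [hk] at *; exact hkm) p.1 p.2 hp.2.1 hp.2.2
    have h1 := DENM.prop_count (Γ := Γ) ST SA (ix (m := m) V₀ p.1, iy V₀ p.2)
      (fun g => by
        rw [hST, Finset.mem_filter]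
        exact ⟨Finset.mem_univ _, hmapT g.1 g.2 _ hτ⟩)
      (fun τ hτ' => by
        rw [hST, Finset.mem_filter] at hτ'
        obtain ⟨-, h1, h2, h3, h4⟩ := hτ'
        obtain ⟨g1, g2, g3, g4⟩ := hτ
        obtain ⟨g, hg, hgy, hgz⟩ := hWT2 K F V₀ S₀ m hm3 hnd (ix (m := m) V₀ p.1) (iy V₀ p.2) τ.1 τ.2
          g1 h1 g3 h3 g4 h4 (F.Λ.sub_mem g2 h2)
        exact ⟨⟨g, hg⟩, by rw [hsm]; exact Prod.ext hgy hgz⟩) hAS
    rw [← h1]
    congr 2
    ext g
    simp only [Finset.mem_filter, Finset.mem_univ, true_and, hSA, hsm]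
    exact ⟨fun h => ⟨hmapT g.1 g.2 _ hτ, h⟩, fun h => h.2⟩
  -- double counting
  have hdc := Finset.sum_card_bipartiteAbove_eq_sum_card_bipartiteBelow
    (s := (Finset.univ : Finset Γ)) (t := P)
    (fun (g : Γ) p => (S₀.std m).T (g.1 (ix (m := m) V₀ p.1)) (g.1 (iy V₀ p.2)) 0 ∈ C)
  have hl : Fintype.card Γ * q ^ (t + 3) ≤ ∑ g : Γ, (P.filter (fun p =>
      (S₀.std m).T (g.1 (ix (m := m) V₀ p.1)) (g.1 (iy V₀ p.2)) 0 ∈ C)).card := by
    have := Finset.sum_le_sum (fun (g : Γ) (_ : g ∈ Finset.univ) => hone g)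
    rwa [Finset.sum_const, Finset.card_univ, smul_eq_mul] at this
  have hr : (∑ p ∈ P, (Finset.univ.filter (fun g : Γ =>
      (S₀.std m).T (g.1 (ix (m := m) V₀ p.1)) (g.1 (iy V₀ p.2)) 0 ∈ C)).card) * ST.card =
      P.card * (Fintype.card Γ * SA.card) := by
    rw [Finset.sum_mul, Finset.sum_congr rfl hpair, Finset.sum_const, smul_eq_mul]
  have hdc' : (∑ g : Γ, (P.filter (fun p =>
      (S₀.std m).T (g.1 (ix (m := m) V₀ p.1)) (g.1 (iy V₀ p.2)) 0 ∈ C)).card) =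
      ∑ p ∈ P, (Finset.univ.filter (fun g : Γ =>
      (S₀.std m).T (g.1 (ix (m := m) V₀ p.1)) (g.1 (iy V₀ p.2)) 0 ∈ C)).card := hdc
  have hfin : Fintype.card Γ * q ^ (t + 3) * ST.card ≤ q ^ (2 * k) * (Fintype.card Γ * SA.card) := by
    calc Fintype.card Γ * q ^ (t + 3) * ST.card
        ≤ (∑ g : Γ, (P.filter (fun p =>
      (S₀.std m).T (g.1 (ix (m := m) V₀ p.1)) (g.1 (iy V₀ p.2)) 0 ∈ C)).card) * ST.card :=
          Nat.mul_le_mul_right _ hl
      _ = P.card * (Fintype.card Γ * SA.card) := by rw [hdc', hr]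
      _ ≤ _ := Nat.mul_le_mul_right _ hPcard
  have hΓ0 : 0 < Fintype.card Γ := Fintype.card_pos
  have e1 : q ^ (2 * k) * (Fintype.card Γ * SA.card) =
      (Fintype.card Γ * q ^ (t + 3)) * (q ^ (t + 1) * SA.card) := by
    have : q ^ (2 * k) = q ^ (t + 3) * q ^ (t + 1) := by
      rw [← pow_add]; congr 1; omega
    rw [this]; ring
  rw [e1] at hfin
  exact Nat.le_of_mul_le_mul_left hfin (by positivity)

end Pool.Agent.Lib.MP66ef6b.CL
end

section
set_option autoImplicit false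

/-!
# MP_66ef6b_al, THEOREM L2, module E1M (helper53): the stabiliser of `x` and `y` is fixed
-/

namespace Pool.Agent.Lib.MP66ef6b.CL

universe u

namespace E1MAux

variable {K : Type} [Field K] {F : FD K} {V : Type} [AddCommGroup V] [Module K V] {S : Sq F V}

theorem ne_of_B {x y : V} (h : S.B x y ≠ 0) : x ≠ 0 := by
  rintro rfl
  exact h (S.B_zero_left y)

theorem swap_ne {x y : V} (h : S.B x y ≠ 0) : S.B y x ≠ 0 := fun h' => h (S.B_eq_zero_swap h')

theorem sc_ne {g : V ≃ₗ[K] V} {x : V} {c : K} (hx : x ≠ 0) (h : g x = c • x) : c ≠ 0 := by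
  rintro rfl
  rw [zero_smul] at h
  exact hx (g.map_eq_zero_iff.1 h)

end E1MAux

open E1MAux in
/-- **Module E1M**: the stabiliser of `x` and `y` is fixed. -/
theorem specE1M (hITW : SpecITW.{u}) (hSTB : SpecSTB.{u}) (hWPS : SpecWPS) : SpecE1M.{u} := by
  intro K _ F V₀ _ _ S₀ m hC P _ π e hK x y hx hy hB hNx hNy hA g hg hgx hgy
  obtain ⟨α, hα⟩ := hgx
  obtain ⟨β, hβ⟩ := hgy
  have hx0 : x ≠ 0 := ne_of_B hB
  have hy0 : y ≠ 0 := ne_of_B (swap_ne hB)
  obtain ⟨⟨g', hg'⟩, he⟩ := hK.1 (e (π ⟨g, hg⟩))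
  have hM : Mp π e g g' := ⟨hg, hg', he.symm⟩
  obtain ⟨α', hα'⟩ := ((hSTB K F V₀ S₀ m hC P π e hK x hx hx0 hNx).2 g g' hM).1 ⟨α, hα⟩
  obtain ⟨β', hβ'⟩ := ((hSTB K F V₀ S₀ m hC P π e hK y hy hy0 hNy).2 g g' hM).1 ⟨β, hβ⟩
  have hI := hITW K F V₀ S₀ m hC P π e hK x y hx hy hB hNx hNy id hA g g' hM α α' hα hα' ⟨β, hβ⟩
  have a0 := sc_ne hx0 hα
  have a0' := sc_ne hx0 hα'
  have b0 := sc_ne hy0 hβ
  have b0' := sc_ne hy0 hβ'
  have sa0 : F.σ α ≠ 0 := (map_ne_zero F.σ).2 a0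
  have sa0' : F.σ α' ≠ 0 := (map_ne_zero F.σ).2 a0'
  obtain ⟨-, -, ⟨w, hw, z, hz, -, -, hzw⟩, -, hdec⟩ := hWPS K F V₀ S₀ m hC.rk hC.nd x y hx hy hB
  -- the element h
  have hI1 : g ∈ (S₀.std m).Iso := Sq.D_le_Iso ⊤ hg
  have hI2 : g' ∈ (S₀.std m).Iso := Sq.D_le_Iso ⊤ hg'
  have hW : ∀ v ∈ Wp (S₀.std m) x y, g' v = (F.σ α * (F.σ α')⁻¹) • g v := by
    intro v hv
    have h1 : F.σ α • g v = F.σ α' • g' v := hI v hv
    rw [mul_comm, mul_smul, h1, smul_smul, inv_mul_cancel₀ sa0', one_smul]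
  have hX : g' x = (α' * α⁻¹) • g x := by
    rw [hα, hα', smul_smul, mul_assoc, inv_mul_cancel₀ a0, mul_one]
  have hY : g' y = (β' * β⁻¹) • g y := by
    rw [hβ, hβ', smul_smul, mul_assoc, inv_mul_cancel₀ b0, mul_one]
  have hνw : (F.σ α * (F.σ α')⁻¹) * F.σ (F.σ α * (F.σ α')⁻¹) = 1 := by
    have h1 := hI2.1 z w
    rw [hW z hz, hW w hw, (S₀.std m).B_smul_left, (S₀.std m).B_smul_right, hI1.1, hzw, mul_one] at h1
    exact h1
  have hν : F.σ α * (F.σ α')⁻¹ = α' * α⁻¹ := by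
    rw [map_mul, map_inv₀, F.inv, F.inv] at hνw
    field_simp at hνw ⊢
    linear_combination hνw
  have hxy : (α' * α⁻¹) * F.σ (β' * β⁻¹) = 1 := by
    have h1 := hI2.1 x y
    rw [hX, hY, (S₀.std m).B_smul_left, (S₀.std m).B_smul_right, hI1.1] at h1
    have h2 : ((α' * α⁻¹) * F.σ (β' * β⁻¹) - 1) * (S₀.std m).B x y = 0 := by
      linear_combination h1
    rcases mul_eq_zero.1 h2 with h3 | h3
    · linear_combination h3
    · exact absurd h3 hB
  have hμ : β' * β⁻¹ = α' * α⁻¹ := by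
    have h1 : F.σ (β' * β⁻¹) = F.σ (α' * α⁻¹) := by
      rw [hν] at hνw
      have h2 : α' * α⁻¹ ≠ 0 := mul_ne_zero a0' (inv_ne_zero a0)
      exact mul_left_cancel₀ h2 (hxy.trans hνw.symm)
    exact F.σ.injective h1
  have hall : ∀ v, g' v = (α' * α⁻¹) • g v := by
    intro v
    obtain ⟨a, b, w, hw, rfl⟩ := hdec v
    rw [map_add, map_add, map_smul, map_smul, map_add, map_add, map_smul, map_smul, hX, hY, hW w hw,
      hν, hμ]
    module
  refine ⟨hg, hg, ?_⟩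
  rw [← he]
  have h1 : π (⟨g, hg⟩⁻¹ * ⟨g', hg'⟩) = 1 := by
    rw [hK.2]
    refine ⟨α' * α⁻¹, fun v => ?_⟩
    change g⁻¹ (g' v) = _
    rw [hall, map_smul]
    congr 1
    exact g.symm_apply_apply v
  rw [map_mul, map_inv, inv_mul_eq_one] at h1
  exact h1.symm

end Pool.Agent.Lib.MP66ef6b.CL
end

section
set_option autoImplicit false

/-!
# MP_66ef6b_al, THEOREM L2: module E1N
-/

namespace Pool.Agent.Lib.MP66ef6b.CL

universe u

namespace E1NM

section gen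

variable {K : Type} [Field K] {F : FD K} {V : Type} [AddCommGroup V] [Module K V] {S : Sq F V}

/-- the commutator of an isometry fixing `x` with `T x w a`. -/
theorem comm_eq {x w : V} {a : K} (h : S.Adm x w a) {g : V ≃ₗ[K] V} (hg : g ∈ S.Iso)
    (hgx : g x = x) :
    g * S.T x w a * g⁻¹ * (S.T x w a)⁻¹ = S.T x (g w + -w) (S.B w w + S.B (-w) (g w)) := by
  have h1 : S.Adm x (g w) a := by
    have := h.map hg
    rwa [hgx] at this
  rw [Sq.T_conj h hg, hgx, Sq.T_inv h, Sq.T_mul h1 h.inv, h.self]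

/-- adding a multiple of `x` to `w`. -/
theorem T_add_x {x w : V} {a c : K} (h : S.Adm x (w + c • x) a) :
    S.Adm x w (a + (F.σ c - F.ε * c)) ∧ S.T x (w + c • x) a = S.T x w (a + (F.σ c - F.ε * c)) := by
  have hxw : S.B x w = 0 := by
    have := h.orth
    rw [S.B_add_right, S.B_smul_right, h.sg.self, mul_zero, add_zero] at this
    exact this
  have h1 : S.Adm x w (a + (F.σ c - F.ε * c)) := by
    refine ⟨h.sg, hxw, ?_⟩
    have h2 := h.par
    have h3 := S.q_add w (c • x)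
    rw [S.B_smul_right, S.B_eq_zero_swap hxw, mul_zero, add_zero] at h3
    have h4 := h.sg.smul (S := S) c
    have h5 := F.tr (F.σ c)
    rw [F.inv] at h5
    have h6 := F.Λ.add_mem (F.Λ.add_mem (F.Λ.add_mem h2 h3) h4) h5
    convert h6 using 1
    ring
  refine ⟨h1, ?_⟩
  ext v
  rw [Sq.T_apply h, Sq.T_apply h1, S.B_add_right, S.B_smul_right]
  have he := F.ee
  have h7 : F.ε * (S.B v w + F.σ c * S.B v x + a * S.B v x) =
      F.ε * (S.B v w + (a + (F.σ c - F.ε * c)) * S.B v x) + c * S.B v x := by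
    linear_combination (c * S.B v x) * he
  rw [h7]
  module

end gen

section mp

variable {K : Type} [Field K] {F : FD K} {V₀ : Type} [AddCommGroup V₀] [Module K V₀]
  {S₀ : Sq F V₀} {m : ℕ} {P : Type u} [Group P] {π : (S₀.std m).D ⊤ →* P} {e : P ≃* P}

theorem Mp.mul {g g' h h' : SV K V₀ m ≃ₗ[K] SV K V₀ m} (H : Mp π e g g') (H' : Mp π e h h') :
    Mp π e (g * h) (g' * h') := by
  obtain ⟨h1, h1', h2⟩ := H
  obtain ⟨h3, h3', h4⟩ := H'
  refine ⟨Subgroup.mul_mem _ h1 h3, Subgroup.mul_mem _ h1' h3', ?_⟩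
  have h5 : (⟨g * h, Subgroup.mul_mem _ h1 h3⟩ : (S₀.std m).D ⊤) = ⟨g, h1⟩ * ⟨h, h3⟩ := rfl
  have h6 : (⟨g' * h', Subgroup.mul_mem _ h1' h3'⟩ : (S₀.std m).D ⊤) = ⟨g', h1'⟩ * ⟨h', h3'⟩ :=
    rfl
  rw [h5, h6, map_mul, map_mul, map_mul, h2, h4]

theorem Mp.inv {g g' : SV K V₀ m ≃ₗ[K] SV K V₀ m} (H : Mp π e g g') : Mp π e g⁻¹ g'⁻¹ := by
  obtain ⟨h1, h1', h2⟩ := H
  refine ⟨Subgroup.inv_mem _ h1, Subgroup.inv_mem _ h1', ?_⟩
  have h5 : (⟨g⁻¹, Subgroup.inv_mem _ h1⟩ : (S₀.std m).D ⊤) = ⟨g, h1⟩⁻¹ := rfl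
  have h6 : (⟨g'⁻¹, Subgroup.inv_mem _ h1'⟩ : (S₀.std m).D ⊤) = ⟨g', h1'⟩⁻¹ := rfl
  rw [h5, h6, map_inv, map_inv, map_inv, h2]

theorem Mp.one : Mp π e 1 1 := by
  refine ⟨Subgroup.one_mem _, Subgroup.one_mem _, ?_⟩
  have h5 : (⟨1, Subgroup.one_mem _⟩ : (S₀.std m).D ⊤) = 1 := rfl
  rw [h5, map_one, map_one]

end mp

end E1NM

open E1NM in
theorem specE1N (hE1M : SpecE1M.{u}) (hTH1 : SpecTH1.{u}) (hWPS : SpecWPS) : SpecE1N.{u} := by
  intro K _ F V₀ _ _ S₀ m hCls P _ π e hπ x y hx hy hxy hNx hNy hAct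
  have hNd : S₀.Nd := hCls.nd
  obtain ⟨W1, W2, W3, W4, W5⟩ := hWPS K F V₀ S₀ m hCls.rk hNd x y hx hy hxy
  have hM := hE1M K F V₀ S₀ m hCls P π e hπ x y hx hy hxy hNx hNy hAct
  have hT := (hTH1 K F V₀ S₀ m hCls P π e hπ x y hx hy hxy hNx hNy).2 id hAct
  -- vectors of `W` are orthogonal to `x`, `y`
  have hWx : ∀ w ∈ Wp (S₀.std m) x y, (S₀.std m).B x w = 0 := fun w hw =>
    (S₀.std m).B_eq_zero_swap hw.1
  have hWy : ∀ w ∈ Wp (S₀.std m) x y, (S₀.std m).B y w = 0 := fun w hw =>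
    (S₀.std m).B_eq_zero_swap hw.2
  have hadm : ∀ w ∈ Wp (S₀.std m) x y, (S₀.std m).Adm x w ((S₀.std m).q w) := fun w hw =>
    ⟨hx, hWx w hw, by rw [sub_self]; exact F.Λ.zero_mem⟩
  -- singular vectors of `W`
  have hsing : ∀ u ∈ Wp (S₀.std m) x y, (S₀.std m).Sg u →
      Mp π e ((S₀.std m).T x u 0) ((S₀.std m).T x u 0) := by
    intro u hu hs
    by_cases hu0 : u = 0
    · rw [hu0, Sq.T_zero]
      exact Mp.one
    obtain ⟨w', hw', w0, hw0, htp, hb0, hb1⟩ := W1 u hu hs hu0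
    have hadu : (S₀.std m).Adm u w' 0 := by
      refine ⟨hs, htp.2.2.1, ?_⟩
      rw [zero_sub]
      exact F.Λ.neg_mem htp.2.1
    have hg0 : (S₀.std m).T u w' 0 ∈ (S₀.std m).D ⊤ := Sq.T_mem_G hadu
    have hgi : (S₀.std m).T u w' 0 ∈ (S₀.std m).Iso := Sq.D_le_Iso _ hg0
    have hgx : (S₀.std m).T u w' 0 x = x := by
      rw [Sq.T_apply hadu, hWx u hu, hWx w' hw']
      simp
    have hgy : (S₀.std m).T u w' 0 y = y := by
      rw [Sq.T_apply hadu, hWy u hu, hWy w' hw']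
      simp
    have hfix := hM _ hg0 ⟨1, by rw [hgx, one_smul]⟩ ⟨1, by rw [hgy, one_smul]⟩
    -- the vector `w`
    have hw : (-F.ε) • w0 ∈ Wp (S₀.std m) x y := Submodule.smul_mem _ _ hw0
    have hgw : (S₀.std m).T u w' 0 ((-F.ε) • w0) = (-F.ε) • w0 + u := by
      rw [Sq.T_apply hadu, Sq.B_smul_left, Sq.B_smul_left, hb0, hb1]
      have he : F.ε * (-F.ε * 1 + 0 * (-F.ε * 0)) = -1 := by
        linear_combination (-1 : K) * F.ee
      rw [he]
      simp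
    obtain ⟨a', ha', hMp⟩ := hT _ hw _ (hadm _ hw)
    rw [id_eq] at ha' hMp
    have hc := Mp.mul (Mp.mul (Mp.mul hfix hMp) (Mp.inv hfix)) (Mp.inv hMp)
    have hwu : (S₀.std m).B ((-F.ε) • w0) u = 0 := by
      rw [Sq.B_smul_left, hb0, mul_zero]
    rw [comm_eq (hadm _ hw) hgi hgx] at hc
    rw [comm_eq ha' hgi hgx, hgw] at hc
    have h8 : (-F.ε) • w0 + u + -((-F.ε) • w0) = u := by abel
    have h9 : (S₀.std m).B ((-F.ε) • w0) ((-F.ε) • w0) +
        (S₀.std m).B (-((-F.ε) • w0)) ((-F.ε) • w0 + u) = 0 := by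
      rw [Sq.B_neg_left, Sq.B_add_right, hwu]
      ring
    rw [h8, h9] at hc
    exact hc
  -- the elements `T x 0 l`
  have hlam : ∀ l ∈ F.Λ, Mp π e ((S₀.std m).T x 0 l) ((S₀.std m).T x 0 l) := by
    intro l hl
    obtain ⟨w, hw, z, hz, hws, hzs, hzw⟩ := W3
    have hlz : l • z ∈ Wp (S₀.std m) x y := Submodule.smul_mem _ _ hz
    have hsum : w + l • z ∈ Wp (S₀.std m) x y := Submodule.add_mem _ hw hlz
    have hs : (S₀.std m).Sg (w + l • z) := by
      have h1 := (S₀.std m).q_add w (l • z)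
      have h2 := hzs.smul (S := S₀.std m) l
      have h3 : (S₀.std m).B w (l • z) = -l := by
        rw [Sq.B_smul_right, Sq.B_swap _ z w, hzw, map_one, mul_one]
        have := F.skew hl
        linear_combination this
      rw [h3] at h1
      have h4 := F.Λ.add_mem (F.Λ.add_mem (F.Λ.add_mem h1 hws) h2) (F.Λ.neg_mem hl)
      rw [Sq.Sg]
      convert h4 using 1
      ring
    have ha0 : ∀ u ∈ Wp (S₀.std m) x y, (S₀.std m).Sg u → (S₀.std m).Adm x u 0 := fun u hu hu' =>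
      ⟨hx, hWx u hu, by rw [zero_sub]; exact F.Λ.neg_mem hu'⟩
    have h1 := Mp.mul (hsing w hw hws) (hsing _ hlz (hzs.smul l))
    rw [Sq.T_mul (ha0 w hw hws) (ha0 _ hlz (hzs.smul l)), Sq.B_smul_left, hzw] at h1
    have h2 := Mp.mul h1 (Mp.inv (hsing _ hsum hs))
    have h3 : (S₀.std m).T x 0 l * (S₀.std m).T x (w + l • z) 0 =
        (S₀.std m).T x (w + l • z) (0 + 0 + l * 1) := by
      have h4 : (S₀.std m).Adm x 0 l := ⟨hx, Sq.B_zero_right _ _, by
        rw [Sq.q_zero, sub_zero]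
        exact hl⟩
      rw [Sq.T_mul h4 (ha0 _ hsum hs), Sq.B_zero_right, zero_add]
      congr 1
      ring
    rw [← h3, mul_inv_cancel_right] at h2
    exact h2
  -- some `T x w a` for every `w ∈ W`
  have hW : ∀ w ∈ Wp (S₀.std m) x y, ∃ a : K, (S₀.std m).Adm x w a ∧
      Mp π e ((S₀.std m).T x w a) ((S₀.std m).T x w a) := by
    let H : AddSubgroup (SV K V₀ m) :=
      { carrier := {w | ∃ a : K, (S₀.std m).Adm x w a ∧
          Mp π e ((S₀.std m).T x w a) ((S₀.std m).T x w a)}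
        add_mem' := by
          rintro u v ⟨a, ha, ha'⟩ ⟨b, hb, hb'⟩
          refine ⟨a + b + (S₀.std m).B v u, ha.add hb, ?_⟩
          rw [← Sq.T_mul ha hb]
          exact Mp.mul ha' hb'
        zero_mem' := by
          refine ⟨0, Sq.Adm.zero hx, ?_⟩
          rw [Sq.T_zero]
          exact Mp.one
        neg_mem' := by
          rintro u ⟨a, ha, ha'⟩
          refine ⟨F.ε * F.σ a, ha.inv, ?_⟩
          rw [← Sq.T_inv ha]
          exact Mp.inv ha' }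
    exact W2 H fun u hu hs => ⟨0, ⟨hx, hWx u hu, by
      rw [zero_sub]
      exact F.Λ.neg_mem hs⟩, hsing u hu hs⟩
  intro w₁ a h1
  obtain ⟨c, b, w, hw, hw1⟩ := W5 w₁
  have hbx : (S₀.std m).B y x ≠ 0 := by
    intro h
    exact hxy ((S₀.std m).B_eq_zero_swap h)
  have hb : b = 0 := by
    have h2 := h1.orth'
    rw [hw1, Sq.B_add_left, Sq.B_add_left, Sq.B_smul_left, Sq.B_smul_left, hx.self, hw.1, mul_zero,
      zero_add, add_zero] at h2
    exact (mul_eq_zero.1 h2).resolve_right hbx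
  have hw2 : w₁ = w + c • x := by
    rw [hw1, hb, zero_smul, add_zero, add_comm]
  rw [hw2] at h1 ⊢
  obtain ⟨h3, h4⟩ := T_add_x h1
  rw [h4]
  obtain ⟨a₀, ha₀, hf⟩ := hW w hw
  have hl : a + (F.σ c - F.ε * c) - a₀ ∈ F.Λ := by
    have h5 := F.Λ.sub_mem h3.par ha₀.par
    convert h5 using 1
    ring
  have h6 := Mp.mul (hlam _ hl) hf
  rw [Sq.T_mul ⟨hx, Sq.B_zero_right _ _, by
    rw [Sq.q_zero, sub_zero]
    exact hl⟩ ha₀, Sq.B_zero_right, zero_add, add_zero, sub_add_cancel] at h6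
  exact h6

end Pool.Agent.Lib.MP66ef6b.CL
end

section
set_option autoImplicit false

/-!
# MP_66ef6b_al, THEOREM L2, module E1Y (helper53): `Act` for `(y, x)`
-/

namespace Pool.Agent.Lib.MP66ef6b.CL

universe u

namespace E1YAux

variable {K : Type} [Field K] {F : FD K} {V : Type} [AddCommGroup V] [Module K V] {S : Sq F V}

theorem swap_ne {x y : V} (h : S.B x y ≠ 0) : S.B y x ≠ 0 := fun h' => h (S.B_eq_zero_swap h')

theorem mem_Wp {x y v : V} : v ∈ Wp S x y ↔ S.B v x = 0 ∧ S.B v y = 0 := Iff.rfl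

theorem Wp_swap {x y v : V} (h : v ∈ Wp S x y) : v ∈ Wp S y x := ⟨h.2, h.1⟩

theorem fix_D {x y : V} {g : V ≃ₗ[K] V} (hg : g ∈ S.D (Wp S x y)) : g x = x ∧ g y = y := by
  induction hg using Subgroup.closure_induction with
  | mem g hg =>
    obtain ⟨u, hu, w, hw, a, ha, rfl⟩ := hg
    have h1 := S.B_eq_zero_swap hu.1
    have h2 := S.B_eq_zero_swap hu.2
    have h3 := S.B_eq_zero_swap hw.1
    have h4 := S.B_eq_zero_swap hw.2
    refine ⟨?_, ?_⟩
    · rw [Sq.T_apply ha, h1, h3]; simp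
    · rw [Sq.T_apply ha, h2, h4]; simp
  | one => exact ⟨rfl, rfl⟩
  | mul g h _ _ ihg ihh =>
    refine ⟨?_, ?_⟩
    · rw [LinearEquiv.mul_apply, ihh.1, ihg.1]
    · rw [LinearEquiv.mul_apply, ihh.2, ihg.2]
  | inv g _ ih =>
    refine ⟨?_, ?_⟩
    · exact g.symm_apply_eq.2 ih.1.symm
    · exact g.symm_apply_eq.2 ih.2.symm

/-- the vectors of the proof -/
structure Cfg (S : Sq F V) (x y z w : V) : Prop where
  sx : S.Sg x
  sy : S.Sg y
  sz : S.Sg z
  sw : S.Sg w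
  xy : S.B x y ≠ 0
  zx : S.B z x = 0
  zy : S.B z y = 0
  wx : S.B w x = 0
  wy : S.B w y = 0
  zw : S.B z w = 0
  z0 : z ≠ 0
  w0 : w ≠ 0
  ind : ∀ a b : K, a • z + b • w = 0 → a = 0 ∧ b = 0

variable {x y z w : V}

theorem Cfg.admxw (h : Cfg S x y z w) : S.Adm x w 0 where
  sg := h.sx
  orth := S.B_eq_zero_swap h.wx
  par := by
    rw [zero_sub]
    exact F.Λ.neg_mem h.sw

theorem Cfg.admyz (h : Cfg S x y z w) (γ : K) {a : K} (ha : a ∈ F.Λ) : S.Adm y (γ • z) a where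
  sg := h.sy
  orth := by rw [S.B_smul_right, S.B_eq_zero_swap h.zy, mul_zero]
  par := F.Λ.sub_mem ha (h.sz.smul γ)

theorem Cfg.admbz (h : Cfg S x y z w) (β γ : K) {a : K} (ha : a ∈ F.Λ) :
    S.Adm (β • w) (γ • z) a where
  sg := h.sw.smul β
  orth := by rw [S.B_smul_left, S.B_smul_right, S.B_eq_zero_swap h.zw, mul_zero, mul_zero]
  par := F.Λ.sub_mem ha (h.sz.smul γ)

theorem Cfg.admyb (h : Cfg S x y z w) (β γ : K) {a : K} (ha : a ∈ F.Λ) :
    S.Adm (y + β • w) (γ • z) a where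
  sg := h.sy.add (h.sw.smul β) (by rw [S.B_smul_right, S.B_eq_zero_swap h.wy, mul_zero])
  orth := by
    rw [S.B_add_left, S.B_smul_left, S.B_smul_right, S.B_smul_right, S.B_eq_zero_swap h.zy,
      S.B_eq_zero_swap h.zw]
    ring
  par := F.Λ.sub_mem ha (h.sz.smul γ)

/-- the image of `T y (γ z) a` under conjugation with `T x w 0` -/
theorem Cfg.conj (h : Cfg S x y z w) (γ : K) {a : K} (ha : a ∈ F.Λ) :
    S.T x w 0 * S.T y (γ • z) a * (S.T x w 0)⁻¹ = S.T (y + S.B y x • w) (γ • z) a := by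
  rw [Sq.T_conj (h.admyz γ ha) (Sq.T_mem_Iso h.admxw)]
  have h1 : S.T x w 0 y = y + S.B y x • w := by
    rw [Sq.T_apply h.admxw, S.B_eq_zero_swap h.wy]
    simp
  have h2 : S.T x w 0 (γ • z) = γ • z := by
    rw [Sq.T_apply h.admxw, S.B_smul_left, S.B_smul_left, h.zx, h.zw]
    simp
  rw [h1, h2]

/-- the commutator for `a = 0` -/
theorem Cfg.comm0 (h : Cfg S x y z w) (γ : K) :
    S.T (y + S.B y x • w) (γ • z) 0 * (S.T y (γ • z) 0)⁻¹ = S.T (S.B y x • w) (γ • z) 0 := by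
  rw [mul_inv_eq_iff_eq_mul]
  ext v
  have l0 : (0 : K) ∈ F.Λ := F.Λ.zero_mem
  have hyz : S.B y z = 0 := S.B_eq_zero_swap h.zy
  have hyw : S.B y w = 0 := S.B_eq_zero_swap h.wy
  rw [LinearEquiv.mul_apply, Sq.T_apply (h.admyb _ γ l0), Sq.T_apply (h.admbz _ γ l0),
    Sq.T_apply (h.admyz γ l0)]
  simp only [S.B_add_left, S.B_sub_left, S.B_smul_left, S.B_add_right, S.B_smul_right, hyz, hyw,
    h.zw, h.sz.self, mul_zero, zero_mul, add_zero, sub_zero]
  module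

/-- the value at `x` -/
theorem Cfg.val (h : Cfg S x y z w) (γ : K) {a : K} (ha : a ∈ F.Λ) :
    (S.T (y + S.B y x • w) (γ • z) a * (S.T y (γ • z) a)⁻¹) x =
      x - (F.ε * a * S.B x y * S.B y x) • w := by
  rw [Sq.T_inv (h.admyz γ ha), F.skew ha, LinearEquiv.mul_apply]
  have hna : -a ∈ F.Λ := F.Λ.neg_mem ha
  have h1 : S.Adm y (-(γ • z)) (-a) := by
    have := h.admyz (-γ) hna
    rwa [neg_smul] at this
  have hyz : S.B y z = 0 := S.B_eq_zero_swap h.zy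
  have hyw : S.B y w = 0 := S.B_eq_zero_swap h.wy
  have hxz : S.B x z = 0 := S.B_eq_zero_swap h.zx
  have hxw : S.B x w = 0 := S.B_eq_zero_swap h.wx
  rw [Sq.T_apply h1, Sq.T_apply (h.admyb _ γ ha)]
  simp only [S.B_add_left, S.B_sub_left, S.B_smul_left, S.B_add_right, S.B_smul_right, hyz, hyw,
    hxz, hxw, S.B_neg_left, S.B_neg_right, h.zy, h.zw, h.sz.self, h.sy.self, mul_zero,
    add_zero, sub_zero, zero_add, neg_zero]
  module

end E1YAux

open E1YAux in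
/-- **Module E1Y**: `Act` for `(y, x)`. -/
theorem specE1Y (hE1M : SpecE1M.{u}) (hE1N : SpecE1N.{u}) (hTH1 : SpecTH1.{u})
    (hITW : SpecITW.{u}) (hCMM : SpecCMM) (hWPS : SpecWPS) : SpecE1Y.{u} := by
  intro K _ F V₀ _ _ S₀ m hC P _ π e hK x y hx hy hB hNx hNy hA
  have hB' : (S₀.std m).B y x ≠ 0 := swap_ne hB
  obtain ⟨⟨θ, hθ⟩, hTH⟩ := hTH1 K F V₀ S₀ m hC P π e hK y x hy hx hB' hNy hNx
  have hTH' := hTH θ hθ
  have hfix : ∀ g ∈ (S₀.std m).D ⊤, g x = x → g y = y → Mp π e g g := fun g hg h1 h2 =>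
    hE1M K F V₀ S₀ m hC P π e hK x y hx hy hB hNx hNy hA g hg ⟨1, by rw [h1, one_smul]⟩
      ⟨1, by rw [h2, one_smul]⟩
  have hcomm : ∀ g ∈ (S₀.std m).D (Wp (S₀.std m) x y), ∀ v ∈ Wp (S₀.std m) x y,
      θ (g v) = g (θ v) := by
    intro g hg v hv
    obtain ⟨h1, h2⟩ := fix_D hg
    have hgT : g ∈ (S₀.std m).D ⊤ := Sq.D_mono le_top hg
    have h3 := hITW K F V₀ S₀ m hC P π e hK y x hy hx hB' hNy hNx θ hθ g g (hfix g hgT h1 h2) 1 1
      (by rw [h2, one_smul]) (by rw [h2, one_smul]) ⟨1, by rw [h1, one_smul]⟩ v (Wp_swap hv)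
    rwa [map_one, one_smul, one_smul] at h3
  obtain ⟨γ, hγ⟩ := hCMM K F V₀ S₀ m hC.rk hC.nd x y hx hy hB θ
    (fun u hu => Wp_swap (hθ.1 u (Wp_swap hu)))
    (fun u hu v hv => hθ.2.1 u (Wp_swap hu) v (Wp_swap hv)) hcomm
  obtain ⟨hW1, -, ⟨z, hz, z', hz', sz, -, hzz'⟩, hW4, -⟩ := hWPS K F V₀ S₀ m hC.rk hC.nd x y hx hy hB
  have hz0 : z ≠ 0 := by
    rintro rfl
    rw [(S₀.std m).B_zero_right] at hzz'
    exact zero_ne_one hzz'
  obtain ⟨w, hw, -, -, hzw, -, -⟩ := hW1 z hz sz hz0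
  have sw : (S₀.std m).Sg w := hzw.2.1
  have ozw : (S₀.std m).B z w = 0 := hzw.2.2.1
  have hli := hzw.2.2.2
  have hind : ∀ a b : K, a • z + b • w = 0 → a = 0 ∧ b = 0 := by
    rw [LinearIndependent.pair_iff] at hli
    exact hli
  have hw0 : w ≠ 0 := by
    rintro rfl
    have := hind 0 1 (by simp)
    exact one_ne_zero this.2
  have cfg : Cfg (S₀.std m) x y z w :=
    ⟨hx, hy, sz, sw, hB, hz.1, hz.2, hw.1, hw.2, ozw, hz0, hw0, hind⟩
  have l0 : (0 : K) ∈ F.Λ := F.Λ.zero_mem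
  -- `T x w 0` is fixed
  have hM1 : Mp π e ((S₀.std m).T x w 0) ((S₀.std m).T x w 0) :=
    hE1N K F V₀ S₀ m hC P π e hK x y hx hy hB hNx hNy hA w 0 cfg.admxw
  -- the image of `T y z 0`
  have hadm : (S₀.std m).Adm y z 0 := by
    have := cfg.admyz 1 l0
    rwa [one_smul] at this
  obtain ⟨a', ha', hM2⟩ := hTH' z (Wp_swap hz) 0 hadm
  rw [hγ z hz] at ha' hM2
  have hal : a' ∈ F.Λ := by
    have h1 := F.Λ.add_mem ha'.par (sz.smul γ)
    rwa [sub_add_cancel] at h1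
  -- the commutator
  set β := (S₀.std m).B y x with hβ
  set g₁ := (S₀.std m).T x w 0 with hg₁
  set g₂ := (S₀.std m).T y z 0 with hg₂
  set g₃ := (S₀.std m).T y (γ • z) a' with hg₃
  obtain ⟨m1, m1', e1⟩ := hM1
  obtain ⟨m2, m2', e2⟩ := hM2
  have hc0 : g₁ * g₂ * g₁⁻¹ * g₂⁻¹ = (S₀.std m).T (β • w) z 0 := by
    have h1 := cfg.conj 1 l0
    have h2 := cfg.comm0 1
    rw [one_smul] at h1 h2
    rw [h1, h2]
  have hc1 : g₁ * g₃ * g₁⁻¹ = (S₀.std m).T (y + β • w) (γ • z) a' := cfg.conj γ hal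
  have hadb : (S₀.std m).Adm (β • w) z 0 := by
    have := cfg.admbz β 1 l0
    rwa [one_smul] at this
  have m3 : (S₀.std m).T (β • w) z 0 ∈ (S₀.std m).D ⊤ := Sq.T_mem_G hadb
  have hxz : (S₀.std m).B x z = 0 := (S₀.std m).B_eq_zero_swap hz.1
  have hyz : (S₀.std m).B y z = 0 := (S₀.std m).B_eq_zero_swap hz.2
  have hxw : (S₀.std m).B x w = 0 := (S₀.std m).B_eq_zero_swap hw.1
  have hyw : (S₀.std m).B y w = 0 := (S₀.std m).B_eq_zero_swap hw.2
  have hTx : (S₀.std m).T (β • w) z 0 x = x := by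
    rw [Sq.T_apply hadb, (S₀.std m).B_smul_right, hxw, hxz]
    simp
  have hTy : (S₀.std m).T (β • w) z 0 y = y := by
    rw [Sq.T_apply hadb, (S₀.std m).B_smul_right, hyw, hyz]
    simp
  obtain ⟨m4, m4', e4⟩ := hfix _ m3 hTx hTy
  -- `e` of the commutator
  have e5 : π ⟨(S₀.std m).T (β • w) z 0, m3⟩ =
      π (⟨g₁, m1⟩ * ⟨g₃, m2'⟩ * ⟨g₁, m1⟩⁻¹ * ⟨g₃, m2'⟩⁻¹) := by
    have h1 : (⟨(S₀.std m).T (β • w) z 0, m3⟩ : (S₀.std m).D ⊤) =
        ⟨g₁, m1⟩ * ⟨g₂, m2⟩ * ⟨g₁, m1⟩⁻¹ * ⟨g₂, m2⟩⁻¹ := Subtype.ext hc0.symm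
    have h2 : e (π ⟨(S₀.std m).T (β • w) z 0, m3⟩) = π ⟨(S₀.std m).T (β • w) z 0, m3⟩ := e4
    rw [← h2, h1]
    simp only [map_mul, map_inv]
    have h3 : e (π ⟨g₁, m1⟩) = π ⟨g₁, m1⟩ := e1
    rw [h3, e2]
  have e6 : π (⟨(S₀.std m).T (β • w) z 0, m3⟩⁻¹ *
      (⟨g₁, m1⟩ * ⟨g₃, m2'⟩ * ⟨g₁, m1⟩⁻¹ * ⟨g₃, m2'⟩⁻¹)) = 1 := by
    rw [map_mul, map_inv, ← e5, inv_mul_cancel]
  obtain ⟨c, hc⟩ := (hK.2 _).1 e6
  have hc2 : ∀ v, (g₁ * g₃ * g₁⁻¹ * g₃⁻¹) v = c • (S₀.std m).T (β • w) z 0 v := by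
    intro v
    have h1 : ((S₀.std m).T (β • w) z 0)⁻¹ ((g₁ * g₃ * g₁⁻¹ * g₃⁻¹) v) = c • v := hc v
    have h2 := congrArg ((S₀.std m).T (β • w) z 0) h1
    rw [map_smul] at h2
    rw [← h2]
    exact (((S₀.std m).T (β • w) z 0).apply_symm_apply _).symm
  rw [hc1] at hc2
  -- apply to `x`
  have hv := hc2 x
  rw [cfg.val γ hal, hTx] at hv
  have hv1 : (1 - c) • x = (F.ε * a' * (S₀.std m).B x y * β) • w := by
    rw [sub_smul, one_smul, ← hv]
    abel
  have hc3 : c = 1 := by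
    have h1 := congrArg (fun v => (S₀.std m).B v y) hv1
    simp only [(S₀.std m).B_smul_left, hw.2, mul_zero] at h1
    rcases mul_eq_zero.1 h1 with h2 | h2
    · linear_combination -h2
    · exact absurd h2 hB
  have ha0 : a' = 0 := by
    rw [hc3, sub_self, zero_smul] at hv1
    rcases smul_eq_zero.1 hv1.symm with h1 | h1
    · have h2 : F.ε * a' * (S₀.std m).B x y * β ≠ 0 ∨ a' = 0 := by
        by_cases h3 : a' = 0
        · exact Or.inr h3
        · exact Or.inl (mul_ne_zero (mul_ne_zero (mul_ne_zero F.e0 h3) hB) hB')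
      rcases h2 with h2 | h2
      · exact absurd h1 h2
      · exact h2
    · exact absurd h1 hw0
  -- `γ = 1`
  have hγ1 : γ = 1 := by
    obtain ⟨u, hu, -, hwu⟩ := hW4 w hw hw0
    have huw : (S₀.std m).B u w ≠ 0 := fun h => hwu ((S₀.std m).B_eq_zero_swap h)
    have h1 := hc2 u
    rw [hg₃, ha0, cfg.comm0 γ, hc3, one_smul, Sq.T_apply (cfg.admbz _ γ l0), Sq.T_apply hadb,
      (S₀.std m).B_smul_right, (S₀.std m).B_smul_right] at h1
    have h2 : (F.σ β * (S₀.std m).B u w * (γ - 1)) • z +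
        (-(F.ε * ((F.σ γ - 1) * (S₀.std m).B u z) * β)) • w = 0 := by
      have h3 := sub_eq_zero.2 h1
      rw [← h3]
      module
    have h4 := (hind _ _ h2).1
    have h5 : F.σ β ≠ 0 := (map_ne_zero F.σ).2 hB'
    rcases mul_eq_zero.1 h4 with h6 | h6
    · exact absurd h6 (mul_ne_zero h5 huw)
    · linear_combination h6
  refine ⟨fun v hv => hv, fun _ _ _ _ => rfl, fun _ _ h => h, ?_⟩
  intro v hv a b hva v' hv' hvb hMv
  have h1 := hθ.2.2.2 v hv a b hva v' hv' hvb hMv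
  rw [h1, hγ v (Wp_swap hv), hγ1, one_smul]
  rfl

end Pool.Agent.Lib.MP66ef6b.CL
end

section
set_option autoImplicit false

/-!
# Module FIB: fibres of the commutator map
-/

namespace Pool.Agent.Lib.MP66ef6b.CL

universe u

theorem specFIB : SpecFIB.{u} := by
  classical
  intro Y _ _ P z A
  set C : Subgroup Y := Subgroup.centralizer ({z} : Set Y) ⊓ P with hC
  have h1 : Nat.card C * (Subgroup.centralizer ({z} : Set Y)).relIndex P = Nat.card P := by
    have h2 := Subgroup.relIndex_mul_relIndex ⊥ C P bot_le inf_le_right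
    rw [Subgroup.relIndex_bot_left, Subgroup.relIndex_bot_left] at h2
    rw [← h2, hC, Subgroup.inf_relIndex_right]
  have hfin : ∀ s : Set Y, s.Finite := fun s => Set.toFinite s
  have h3 : {t | t ∈ P ∧ z * t * z⁻¹ * t⁻¹ ∈ A}.ncard ≤ Nat.card C * A.ncard := by
    rw [Set.ncard_eq_toFinset_card _ (hfin _), Set.ncard_eq_toFinset_card _ (hfin A)]
    refine Finset.card_le_mul_card_image_of_maps_to (f := fun t => z * t * z⁻¹ * t⁻¹) ?_ _ ?_
    · intro t ht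
      rw [Set.Finite.mem_toFinset] at ht ⊢
      exact ht.2
    · intro b _
      rcases (Finset.filter (fun t => z * t * z⁻¹ * t⁻¹ = b)
        (hfin {t | t ∈ P ∧ z * t * z⁻¹ * t⁻¹ ∈ A}).toFinset).eq_empty_or_nonempty with h0 | ⟨t₀, h0⟩
      · rw [h0]
        simp
      · rw [Finset.mem_filter, Set.Finite.mem_toFinset] at h0
        have h4 : Nat.card C = (hfin (C : Set Y)).toFinset.card := by
          rw [← Set.ncard_eq_toFinset_card]
          exact Nat.card_coe_set_eq (C : Set Y)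
        rw [h4]
        refine Finset.card_le_card_of_injOn (fun t => t₀⁻¹ * t) ?_ ?_
        · intro t ht
          rw [Finset.mem_coe, Finset.mem_filter, Set.Finite.mem_toFinset] at ht
          rw [Finset.mem_coe, Set.Finite.mem_toFinset]
          refine ⟨Subgroup.mem_centralizer_singleton_iff.2 ?_,
            P.mul_mem (P.inv_mem h0.1.1) ht.1.1⟩
          have h5 : z * t * z⁻¹ * t⁻¹ = z * t₀ * z⁻¹ * t₀⁻¹ := ht.2.trans h0.2.symm
          have h6 : t * z⁻¹ * t⁻¹ = t₀ * z⁻¹ * t₀⁻¹ := by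
            have h7 : z * (t * z⁻¹ * t⁻¹) = z * (t₀ * z⁻¹ * t₀⁻¹) := by
              simpa only [mul_assoc] using h5
            exact mul_left_cancel h7
          have h8 : t * z * t⁻¹ = t₀ * z * t₀⁻¹ := by
            have h9 := congrArg (fun x => x⁻¹) h6
            simpa only [mul_inv_rev, inv_inv, mul_assoc] using h9
          show t₀⁻¹ * t * z = z * (t₀⁻¹ * t)
          calc t₀⁻¹ * t * z = t₀⁻¹ * (t * z * t⁻¹) * t := by group
            _ = t₀⁻¹ * (t₀ * z * t₀⁻¹) * t := by rw [h8]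
            _ = z * (t₀⁻¹ * t) := by group
        · intro a _ b _ hab
          exact mul_left_cancel hab
  calc _ ≤ (Subgroup.centralizer ({z} : Set Y)).relIndex P * (Nat.card C * A.ncard) :=
        Nat.mul_le_mul_left _ h3
    _ = A.ncard * Nat.card P := by
        rw [← h1]
        ring

end Pool.Agent.Lib.MP66ef6b.CL
end

section
/-! GOO: many good vectors. -/
set_option autoImplicit false

namespace Pool.Agent.Lib.MP66ef6b.CL

universe u

open Finset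

namespace GOOM

/-- the counting argument -/
theorem count {V : Type} [Fintype V] [DecidableEq V] (A : Finset V) (n g : V → ℕ) (N q s : ℕ)
    (hq : 2 ≤ q) (hN : 0 < N) (hA : ∀ x ∈ A, n x = N) (hA' : ∀ x ∉ A, n x = 0)
    (hg : ∀ x, g x ≤ n x) (h : ∑ x, n x ≤ q ^ s * ∑ x, g x) :
    A.card ≤ q ^ (s + 1) * (A.filter fun x => N ≤ q ^ (s + 1) * g x).card := by
  set G := A.filter fun x => N ≤ q ^ (s + 1) * g x with hG
  have h1 : ∑ x, n x = N * A.card := by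
    rw [← Finset.sum_subset (Finset.subset_univ A) (fun x _ hx => hA' x hx),
      Finset.sum_congr rfl hA, Finset.sum_const, smul_eq_mul, mul_comm]
  have h2 : ∀ x, q ^ (s + 1) * g x ≤
      (if x ∈ G then q ^ (s + 1) * N else 0) + (if x ∈ A then N else 0) := by
    intro x
    by_cases hx : x ∈ A
    · by_cases hxG : x ∈ G
      · rw [if_pos hxG]
        have h3 : g x ≤ N := (hg x).trans (hA x hx).le
        exact (Nat.mul_le_mul_left _ h3).trans (Nat.le_add_right _ _)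
      · rw [if_neg hxG, if_pos hx, zero_add]
        by_contra hcon
        apply hxG
        rw [hG, Finset.mem_filter]
        exact ⟨hx, (not_le.1 hcon).le⟩
    · have h3 : g x = 0 := by
        have := hg x
        rw [hA' x hx] at this
        omega
      rw [h3, mul_zero]
      exact Nat.zero_le _
  have h3 : q ^ (s + 1) * ∑ x, g x ≤ G.card * (q ^ (s + 1) * N) + A.card * N := by
    rw [Finset.mul_sum]
    refine (Finset.sum_le_sum fun x _ => h2 x).trans ?_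
    rw [Finset.sum_add_distrib, Finset.sum_ite_mem, Finset.sum_ite_mem, Finset.univ_inter,
      Finset.univ_inter, Finset.sum_const, Finset.sum_const, smul_eq_mul, smul_eq_mul]
  have h4 : q * (N * A.card) ≤ q ^ (s + 1) * ∑ x, g x := by
    rw [← h1, pow_succ, mul_comm (q ^ s) q, mul_assoc]
    exact Nat.mul_le_mul_left _ h
  have h5 : 2 * (N * A.card) ≤ q * (N * A.card) := Nat.mul_le_mul_right _ hq
  have h6 : N * A.card ≤ N * (q ^ (s + 1) * G.card) := by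
    have e1 : G.card * (q ^ (s + 1) * N) = N * (q ^ (s + 1) * G.card) := by ring
    have e2 : A.card * N = N * A.card := mul_comm _ _
    rw [e1, e2] at h3
    omega
  exact Nat.le_of_mul_le_mul_left h6 hN

theorem ncard_filter {V : Type} [Fintype V] (P : V → Prop) [DecidablePred P] :
    {x | P x}.ncard = (univ.filter P).card := by
  rw [← Set.ncard_coe_finset]
  congr 1
  ext x
  simp

theorem card_pairs {V : Type} [Fintype V] [DecidableEq V] (P : V × V → Prop) [DecidablePred P] :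
    {τ | P τ}.ncard = ∑ x, {w | P (x, w)}.ncard := by
  rw [ncard_filter, Finset.card_filter, Fintype.sum_prod_type]
  apply Finset.sum_congr rfl
  intro x _
  rw [ncard_filter, Finset.card_filter]

theorem finV {K : Type} [Field K] {F : FD K} {V₀ : Type} [AddCommGroup V₀] [Module K V₀]
    {S₀ : Sq F V₀} {m : ℕ} (h : Cls S₀ m) : Finite (SV K V₀ m) := by
  have := h.finK
  have := h.finV
  have : Finite V₀ := Module.finite_of_finite K
  infer_instance

end GOOM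

theorem specGOO (hNSG : SpecNSG) : SpecGOO := by
  classical
  intro K _ F V₀ _ _ S₀ m s hC C hT
  have := hC.finK
  have := GOOM.finV hC
  have : Fintype (SV K V₀ m) := Fintype.ofFinite _
  obtain ⟨-, n2, n3⟩ := hNSG K F V₀ S₀ m hC
  set S := S₀.std m with hS
  set q := Nat.card K with hq
  have hq2 : 2 ≤ q := Finite.one_lt_card
  have hVpos : 0 < Nat.card (SV K V₀ m) := Nat.card_pos
  by_cases hne : ∃ x₀, S.Sg x₀ ∧ x₀ ≠ 0
  swap
  · have h0 : {x | S.Sg x ∧ x ≠ 0} = ∅ := by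
      ext x
      simp only [Set.mem_ofPred_eq, Set.mem_empty_iff_false, iff_false]
      exact fun h => hne ⟨x, h⟩
    rw [h0, Set.ncard_empty]
    exact Nat.zero_le _
  obtain ⟨x₀, hx₀, hx₀'⟩ := hne
  set N := {w | (x₀, w) ∈ S.TPs}.ncard with hN
  have hNpos : 0 < N := by
    have h1 := n2 x₀ hx₀ hx₀'
    by_contra hcon
    have h2 : N = 0 := by omega
    rw [← hN, h2, mul_zero] at h1
    omega
  have key := GOOM.count (univ.filter fun x => S.Sg x ∧ x ≠ 0)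
    (fun x => {w | (x, w) ∈ S.TPs}.ncard)
    (fun x => {w | (x, w) ∈ S.TPs ∧ S.T x w 0 ∈ C}.ncard) N q s hq2 hNpos
    (fun x hx => by
      rw [mem_filter] at hx
      exact n3 x x₀ hx.2.1 hx.2.2 hx₀ hx₀')
    (fun x hx => by
      have h0 : {w | (x, w) ∈ S.TPs} = ∅ := by
        ext w
        simp only [Set.mem_ofPred_eq, Set.mem_empty_iff_false, iff_false]
        rintro ⟨h1, -, -, h4⟩
        apply hx
        rw [mem_filter]
        refine ⟨mem_univ _, h1, ?_⟩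
        have := h4.ne_zero 0
        simpa using this
      simp only [h0, Set.ncard_empty])
    (fun x => Set.ncard_le_ncard (fun w hw => hw.1) (Set.toFinite _))
    (by
      have e1 := GOOM.card_pairs (V := SV K V₀ m) (fun τ => τ ∈ S.TPs)
      have e2 := GOOM.card_pairs (V := SV K V₀ m) (fun τ => τ ∈ S.TPs ∧ S.T τ.1 τ.2 0 ∈ C)
      have e3 : S.TPs.ncard = {τ | τ ∈ S.TPs}.ncard := rfl
      rw [e3, e1, e2] at hT
      exact hT)
  rw [GOOM.ncard_filter]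
  refine key.trans (Nat.mul_le_mul_left _ ?_)
  rw [GOOM.ncard_filter]
  apply Finset.card_le_card
  intro x hx
  rw [mem_filter, mem_filter] at hx
  obtain ⟨⟨-, h1, h2⟩, h3⟩ := hx
  rw [mem_filter]
  refine ⟨mem_univ _, h1, h2, ?_⟩
  have h4 := n2 x h1 h2
  rw [n3 x x₀ h1 h2 hx₀ hx₀'] at h4
  have h5 : {w | (x, w) ∈ S.TPs ∧ S.T x w 0 ∈ C}.ncard ≤ (Lx S C x).ncard := by
    apply Set.ncard_le_ncard _ (Set.toFinite _)
    rintro w ⟨⟨g1, g2, g3, -⟩, g5⟩
    refine ⟨0, ⟨g1, g3, ?_⟩, g5⟩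
    rw [zero_sub]
    exact F.Λ.neg_mem g2
  calc Nat.card (SV K V₀ m) ≤ q ^ 3 * N := h4
    _ ≤ q ^ 3 * (q ^ (s + 1) * {w | (x, w) ∈ S.TPs ∧ S.T x w 0 ∈ C}.ncard) :=
      Nat.mul_le_mul_left _ h3
    _ ≤ q ^ 3 * (q ^ (s + 1) * (Lx S C x).ncard) :=
      Nat.mul_le_mul_left _ (Nat.mul_le_mul_left _ h5)
    _ = q ^ (s + 4) * (Lx S C x).ncard := by ring

end Pool.Agent.Lib.MP66ef6b.CL
end

section
set_option autoImplicit false

/-!
# MP_66ef6b_al, THEOREM L2 (helper14): module GXY (helper52). `Γ` is generated by `N_x` and `N_y`.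
-/

namespace Pool.Agent.Lib.MP66ef6b.CL

universe u

namespace GXYM

variable {K : Type} [Field K] {F : FD K} {V : Type} [AddCommGroup V] [Module K V] {S : Sq F V}

/-- an element of `N_x` which maps `c y` to a given singular vector not orthogonal to `x`. -/
theorem move {x y w : V} {α c : K} (hx : S.Sg x) (hy : S.Sg y) (hxy : S.B x y ≠ 0)
    (hwx : S.B w x = 0) (hwy : S.B w y = 0) (hz : S.Sg (α • x + c • y + w)) (hc : c ≠ 0) :
    ∃ (w' : V) (a : K), S.Adm x w' a ∧ S.T x w' a (c • y) = α • x + c • y + w := by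
  have hyx : S.B y x ≠ 0 := fun h => hxy (S.B_eq_zero_swap h)
  have hxw : S.B x w = 0 := S.B_eq_zero_swap hwx
  have hyw : S.B y w = 0 := S.B_eq_zero_swap hwy
  have he := F.ee
  have hs := F.se
  set b := S.B y x with hb
  have hσb : F.σ b ≠ 0 := fun h => hyx ((map_eq_zero F.σ).1 h)
  have hσc : F.σ c ≠ 0 := fun h => hc ((map_eq_zero F.σ).1 h)
  -- the admissible parameters
  have hadm : S.Adm x ((b⁻¹ * c⁻¹) • w) (-(F.ε * c⁻¹ * α * b⁻¹)) := by
    refine ⟨hx, by rw [S.B_smul_right, hxw, mul_zero], ?_⟩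
    -- `q (c⁻¹ z) ∈ Λ`
    have h1 : S.Sg (y + ((c⁻¹ * α) • x + c⁻¹ • w)) := by
      have h := hz.smul c⁻¹
      have e : c⁻¹ • (α • x + c • y + w) = y + ((c⁻¹ * α) • x + c⁻¹ • w) := by
        rw [smul_add, smul_add, smul_smul, smul_smul, inv_mul_cancel₀ hc, one_smul]
        abel
      rwa [e] at h
    have h2 := S.q_add y ((c⁻¹ * α) • x + c⁻¹ • w)
    have h3 := S.q_add ((c⁻¹ * α) • x) (c⁻¹ • w)
    have h4 := hx.smul (c⁻¹ * α)
    simp only [S.B_add_right, S.B_smul_right, S.B_smul_left, hyw, hxw, mul_zero, add_zero,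
      ← hb] at h2 h3
    -- `q (c⁻¹ w) + σ (c⁻¹ α) b ∈ Λ`
    have h5 : S.q (c⁻¹ • w) + F.σ (c⁻¹ * α) * b ∈ F.Λ := by
      have h6 := F.Λ.sub_mem (F.Λ.sub_mem (F.Λ.sub_mem (F.Λ.sub_mem h1 h2) h3) h4) hy
      convert h6 using 1
      simp only [Sq.Sg] at *
      ring
    have h7 := F.sc h5 b⁻¹
    have h8 := F.tr (-(F.ε * c⁻¹ * α * b⁻¹))
    have h9 := F.Λ.sub_mem h8 h7
    convert h9 using 1
    rw [S.q_smul, S.q_smul]
    simp only [map_neg, map_mul, map_inv₀, hs]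
    field_simp
    linear_combination (-(F.σ α * c * b)) * he
  refine ⟨_, _, hadm, ?_⟩
  rw [Sq.T_apply hadm]
  simp only [S.B_smul_left, S.B_smul_right, hyw, mul_zero, zero_add, ← hb, smul_smul]
  have e1 : c * b * (b⁻¹ * c⁻¹) = 1 := by field_simp
  have e2 : F.ε * (-(F.ε * c⁻¹ * α * b⁻¹) * (c * b)) = -α := by
    field_simp
    linear_combination (-α) * he
  rw [e1, e2, one_smul, neg_smul, sub_neg_eq_add]
  abel

/-- transport of `N_y ≤ H`. -/
theorem trans {H : Subgroup (V ≃ₗ[K] V)} {y z : V} {c : K} {h : V ≃ₗ[K] V} (hy : S.Sg y)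
    (hc : c ≠ 0) (hH : ∀ w a, S.Adm y w a → S.T y w a ∈ H) (hh : h ∈ H) (hi : h ∈ S.Iso)
    (hz : h (c • y) = z) : ∀ w a, S.Adm z w a → S.T z w a ∈ H := by
  intro w a ha
  have h0 : ∀ v, h (h⁻¹ v) = v := fun v => by
    rw [← LinearEquiv.mul_apply, mul_inv_cancel, LinearEquiv.coe_one, id_eq]
  have h1 : ∀ v, h⁻¹ (h v) = v := fun v => by
    rw [← LinearEquiv.mul_apply, inv_mul_cancel, LinearEquiv.coe_one, id_eq]
  have h2 : S.Adm (c • y) (h⁻¹ w) a := by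
    have h3 := ha.map (S.Iso.inv_mem hi)
    rwa [← hz, h1] at h3
  have h3 : S.B y (h⁻¹ w) = 0 := by
    have h4 := h2.orth
    rw [S.B_smul_left] at h4
    exact (mul_eq_zero.1 h4).resolve_left hc
  have h4 : S.T (c • y) (h⁻¹ w) a ∈ H := by
    rw [Sq.T_smul h2 hy h3]
    exact hH _ _ (h2.smul hy h3)
  have h5 := Sq.T_conj h2 hi
  rw [h0, hz] at h5
  rw [← h5]
  exact H.mul_mem (H.mul_mem hh h4) (H.inv_mem hh)

theorem case1 {H : Subgroup (V ≃ₗ[K] V)} {x y : V} (hx : S.Sg x) (hy : S.Sg y)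
    (hxy : S.B x y ≠ 0) (hHx : ∀ w a, S.Adm x w a → S.T x w a ∈ H)
    (hHy : ∀ w a, S.Adm y w a → S.T y w a ∈ H)
    (hdec : ∀ v : V, ∃ (a b : K) (w : V), S.B w x = 0 ∧ S.B w y = 0 ∧ v = a • x + b • y + w)
    {z : V} (hz : S.Sg z) (hzx : S.B z x ≠ 0) : ∀ w a, S.Adm z w a → S.T z w a ∈ H := by
  obtain ⟨α, c, w, hwx, hwy, rfl⟩ := hdec z
  have hc : c ≠ 0 := by
    rintro rfl
    apply hzx
    rw [S.B_add_left, S.B_add_left, S.B_smul_left, S.B_smul_left, hx.self, hwx]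
    ring
  obtain ⟨w', a, ha, h⟩ := move hx hy hxy hwx hwy hz hc
  exact trans hy hc hHy (hHx _ _ ha) (Sq.T_mem_Iso ha) h

end GXYM

theorem specGXY (hWPS : SpecWPS) : SpecGXY := by
  intro K _ F V₀ _ _ S₀ m hm hnd x y hx hy hxy H hHx hHy
  obtain ⟨-, -, -, h4, h5⟩ := hWPS K F V₀ S₀ m hm hnd x y hx hy hxy
  have hyx : (S₀.std m).B y x ≠ 0 := fun h => hxy ((S₀.std m).B_eq_zero_swap h)
  have hdec : ∀ v : SV K V₀ m, ∃ (a b : K) (w : SV K V₀ m), (S₀.std m).B w x = 0 ∧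
      (S₀.std m).B w y = 0 ∧ v = a • x + b • y + w := by
    intro v
    obtain ⟨a, b, w, hw, h⟩ := h5 v
    exact ⟨a, b, w, hw.1, hw.2, h⟩
  have hdec' : ∀ v : SV K V₀ m, ∃ (a b : K) (w : SV K V₀ m), (S₀.std m).B w y = 0 ∧
      (S₀.std m).B w x = 0 ∧ v = a • y + b • x + w := by
    intro v
    obtain ⟨a, b, w, hw, h⟩ := h5 v
    exact ⟨b, a, w, hw.2, hw.1, by rw [h, add_comm (a • x)]⟩
  have key1 : ∀ z, (S₀.std m).Sg z → (S₀.std m).B z x ≠ 0 → ∀ w a, (S₀.std m).Adm z w a →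
      (S₀.std m).T z w a ∈ H :=
    fun z hz hzx => GXYM.case1 hx hy hxy hHx hHy hdec hz hzx
  have key2 : ∀ z, (S₀.std m).Sg z → (S₀.std m).B z y ≠ 0 → ∀ w a, (S₀.std m).Adm z w a →
      (S₀.std m).T z w a ∈ H :=
    fun z hz hzy => GXYM.case1 hy hx hyx hHy hHx hdec' hz hzy
  rw [Sq.D, Subgroup.closure_le]
  rintro _ ⟨z, -, w, -, a, ha, rfl⟩
  by_cases hz0 : z = 0
  · subst hz0
    have : (S₀.std m).T 0 w a = 1 := by
      refine LinearEquiv.ext fun v => ?_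
      rw [Sq.T_apply ha, (S₀.std m).B_zero_right, zero_smul, smul_zero, add_zero, sub_zero]
      rfl
    rw [this]
    exact H.one_mem
  by_cases hzx : (S₀.std m).B z x = 0
  swap
  · exact key1 z ha.sg hzx w a ha
  by_cases hzy : (S₀.std m).B z y = 0
  swap
  · exact key2 z ha.sg hzy w a ha
  obtain ⟨w', hw', hsw, hzw⟩ := h4 z ⟨hzx, hzy⟩ hz0
  have hadm : (S₀.std m).Adm y w' 0 := by
    refine ⟨hy, (S₀.std m).B_eq_zero_swap hw'.2, ?_⟩
    rw [zero_sub]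
    exact F.Λ.neg_mem hsw
  set h := (S₀.std m).T y w' 0 with hh
  have hhH : h ∈ H := hHy _ _ hadm
  have hhI : h ∈ (S₀.std m).Iso := Sq.T_mem_Iso hadm
  have e1 : h z = z - (F.ε * (S₀.std m).B z w') • y := by
    rw [hh, Sq.T_apply hadm, hzy, zero_smul, zero_mul, add_zero, add_zero]
  have hsg : (S₀.std m).Sg (h z) := by
    have := F.Λ.add_mem (hhI.2 z) ha.sg
    rwa [sub_add_cancel] at this
  have hne : (S₀.std m).B (h z) x ≠ 0 := by
    rw [e1, (S₀.std m).B_sub_left, hzx, (S₀.std m).B_smul_left, zero_sub]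
    exact neg_ne_zero.2 (mul_ne_zero (mul_ne_zero F.e0 hzw) hyx)
  have e2 : h⁻¹ ((1 : K) • h z) = z := by
    rw [one_smul, ← LinearEquiv.mul_apply, inv_mul_cancel, LinearEquiv.coe_one, id_eq]
  exact GXYM.trans hsg one_ne_zero (key1 _ hsg hne) (H.inv_mem hhH) (Subgroup.inv_mem _ hhI) e2
    w a ha

end Pool.Agent.Lib.MP66ef6b.CL
end
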