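import Mathlib

set_option autoImplicit false

/-!
# MP_66ef6b_al, THEOREM L3 (helper14): elements generated by few conjugates
-/

namespace Pool.Agent.Lib.MP66ef6b.CL

universe u v

variable {T : Type u} [Group T]

/-- `g` is in the subgroup generated by `k` conjugates of `f`. -/
def InW (f : T) (k : ℕ) (g : T) : Prop :=
  ∃ x : Fin k → T, g ∈ Subgroup.closure (Set.range fun i => x i * f * (x i)⁻¹)

/-- For some `k`, some `k` conjugates of `f` generate more than `c ^ k` elements. -/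
def Gro (c : ℕ) (f : T) : Prop :=
  ∃ (k : ℕ) (x : Fin k → T),
    c ^ k < Nat.card (Subgroup.closure (Set.range fun i => x i * f * (x i)⁻¹))

namespace InW

theorem self (f : T) : InW f 1 f :=
  ⟨fun _ => 1, Subgroup.subset_closure ⟨0, by simp⟩⟩

theorem one (f : T) (k : ℕ) : InW f k 1 := ⟨fun _ => 1, Subgroup.one_mem _⟩

theorem inv {f g : T} {k : ℕ} (h : InW f k g) : InW f k g⁻¹ := by
  obtain ⟨x, hx⟩ := h
  exact ⟨x, Subgroup.inv_mem _ hx⟩

theorem mono {f g : T} {k l : ℕ} (h : InW f k g) (hkl : k ≤ l) : InW f l g := by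
  obtain ⟨x, hx⟩ := h
  refine ⟨fun i => if h : i.val < k then x ⟨i.val, h⟩ else 1, ?_⟩
  refine Subgroup.closure_mono ?_ hx
  rintro _ ⟨i, rfl⟩
  refine ⟨⟨i.val, i.2.trans_le hkl⟩, ?_⟩
  simp

theorem mul {f g h : T} {k l : ℕ} (hg : InW f k g) (hh : InW f l h) : InW f (k + l) (g * h) := by
  obtain ⟨x, hx⟩ := hg
  obtain ⟨y, hy⟩ := hh
  refine ⟨Fin.append x y, Subgroup.mul_mem _ ?_ ?_⟩
  · refine Subgroup.closure_mono ?_ hx
    rintro _ ⟨i, rfl⟩
    exact ⟨Fin.castAdd l i, by simp⟩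
  · refine Subgroup.closure_mono ?_ hy
    rintro _ ⟨i, rfl⟩
    exact ⟨Fin.natAdd k i, by simp⟩

/-- images of closures under homomorphisms. -/
theorem map_closure' {S : Type v} [Group S] (φ : T →* S) {k : ℕ} (f : T) (x : Fin k → T) {g : T}
    (hg : g ∈ Subgroup.closure (Set.range fun i => x i * f * (x i)⁻¹)) :
    φ g ∈ Subgroup.closure (Set.range fun i => φ (x i) * φ f * (φ (x i))⁻¹) := by
  have h1 : φ g ∈ (Subgroup.closure (Set.range fun i => x i * f * (x i)⁻¹)).map φ := ⟨g, hg, rfl⟩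
  rw [MonoidHom.map_closure, ← Set.range_comp] at h1
  have h2 : (φ ∘ fun i => x i * f * (x i)⁻¹) = fun i => φ (x i) * φ f * (φ (x i))⁻¹ := by
    funext i
    simp
  rwa [h2] at h1

theorem map {S : Type v} [Group S] (φ : T →* S) {f g : T} {k : ℕ} (h : InW f k g) :
    InW (φ f) k (φ g) := by
  obtain ⟨x, hx⟩ := h
  exact ⟨fun i => φ (x i), map_closure' φ f x hx⟩

theorem conj {f g : T} {k : ℕ} (h : InW f k g) (y : T) : InW f k (y * g * y⁻¹) := by
  obtain ⟨x, hx⟩ := h
  refine ⟨fun i => y * x i, ?_⟩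
  have h1 := map_closure' (MulAut.conj y).toMonoidHom f x hx
  have h2 : (fun i => (MulAut.conj y).toMonoidHom (x i) * (MulAut.conj y).toMonoidHom f *
      ((MulAut.conj y).toMonoidHom (x i))⁻¹) = fun i => y * x i * f * (y * x i)⁻¹ := by
    funext i
    simp only [MulEquiv.coe_toMonoidHom, MulAut.conj_apply]
    group
  rw [h2] at h1
  exact h1

/-- commutators. -/
theorem comm (f t : T) : InW f 2 (f * t * f⁻¹ * t⁻¹) := by
  have h1 : InW f 1 (t * f⁻¹ * t⁻¹) := (InW.self f).inv.conj t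
  have h2 := (InW.self f).mul h1
  have h3 : f * (t * f⁻¹ * t⁻¹) = f * t * f⁻¹ * t⁻¹ := by group
  rwa [h3] at h2

theorem comm' (f t : T) : InW f 2 (t * f * t⁻¹ * f⁻¹) := by
  have h2 := (comm f t).inv
  have h3 : (f * t * f⁻¹ * t⁻¹)⁻¹ = t * f * t⁻¹ * f⁻¹ := by group
  rwa [h3] at h2

/-- finitely many elements at once. -/
theorem family {f : T} {k n : ℕ} {g : Fin n → T} (h : ∀ i, InW f k (g i)) :
    ∃ x : Fin (k * n) → T, Subgroup.closure (Set.range g) ≤
      Subgroup.closure (Set.range fun i => x i * f * (x i)⁻¹) := by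
  choose x hx using h
  let e : Fin k × Fin n ≃ Fin (k * n) := finProdFinEquiv
  refine ⟨fun i => x (e.symm i).2 (e.symm i).1, ?_⟩
  rw [Subgroup.closure_le]
  rintro _ ⟨j, rfl⟩
  refine Subgroup.closure_mono ?_ (hx j)
  rintro _ ⟨i, rfl⟩
  exact ⟨e (i, j), by simp⟩

theorem trans {f g h : T} {k l : ℕ} (hg : InW f k g) (hh : InW g l h) : InW f (k * l) h := by
  obtain ⟨y, hy⟩ := hh
  obtain ⟨x, hx⟩ := family (g := fun i => y i * g * (y i)⁻¹) fun i => hg.conj (y i)
  exact ⟨x, hx hy⟩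

end InW

/-- the conclusion from a family. -/
theorem Gro.of_family [Finite T] {c : ℕ} {f : T} {k n : ℕ} {g : Fin n → T}
    (h : ∀ i, InW f k (g i)) (hc : c ^ (k * n) < Nat.card (Subgroup.closure (Set.range g))) :
    Gro c f := by
  obtain ⟨x, hx⟩ := InW.family h
  exact ⟨k * n, x, hc.trans_le (Subgroup.card_le_of_le hx)⟩

/-- the conclusion from an element of large order. -/
theorem Gro.of_order [Finite T] {c : ℕ} {f : T} {k : ℕ} {g : T} (h : InW f k g)
    (hc : ∀ j : ℕ, 1 ≤ j → j ≤ c ^ k → g ^ j ≠ 1) : Gro c f := by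
  obtain ⟨x, hx⟩ := h
  refine ⟨k, x, ?_⟩
  have h1 : Subgroup.zpowers g ≤ Subgroup.closure (Set.range fun i => x i * f * (x i)⁻¹) := by
    rwa [Subgroup.zpowers_le]
  have h2 : orderOf g ≤
      Nat.card (Subgroup.closure (Set.range fun i => x i * f * (x i)⁻¹)) := by
    rw [← Nat.card_zpowers]
    exact Subgroup.card_le_of_le h1
  refine lt_of_lt_of_le ?_ h2
  by_contra hle
  exact hc (orderOf g) (orderOf_pos g) (not_lt.1 hle) (pow_orderOf_eq_one g)

/-- transfer along a surjective homomorphism: enough to lift. -/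
theorem Gro.equiv {S : Type v} [Group S] (e : T ≃* S) {c : ℕ} {f : T} (h : Gro c f) :
    Gro c (e f) := by
  obtain ⟨k, x, hx⟩ := h
  refine ⟨k, fun i => e (x i), hx.trans_eq ?_⟩
  have h1 : Subgroup.closure (Set.range fun i => e (x i) * e f * (e (x i))⁻¹) =
      (Subgroup.closure (Set.range fun i => x i * f * (x i)⁻¹)).map e.toMonoidHom := by
    rw [MonoidHom.map_closure, ← Set.range_comp]
    congr 1
    ext i
    simp
  rw [h1]
  exact Nat.card_congr ((Subgroup.equivMapOfInjective _ e.toMonoidHom e.injective).toEquiv)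

end Pool.Agent.Lib.MP66ef6b.CL
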