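import Pool.Agent.Lib.MP_66ef6b_al.CL.SpecE
import Pool.Agent.Lib.MP_66ef6b_al.CL.Wd
import Pool.Agent.Lib.MP_66ef6b_al.CL.FinLin

set_option autoImplicit false

/-!
# MP_66ef6b_al, THEOREM L3 (helper14). Part G: growth

TARGET (GRO): for every `c` every element `f ≠ 1` of a large alternating, linear or classical finite simple group
has `k` conjugates (for some `k`) which generate more than `c ^ k` elements (`Gro c f`, see `CL/Wd.lean`: `InW f k g`
= `g` is in the group generated by `k` conjugates of `f`; lemmas `InW.comm`, `InW.mul`, `InW.conj`, `InW.map`, `InW.trans`,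
`Gro.of_family`, `Gro.of_order`, `Gro.equiv`).
TARGET (MN3): under `LocAC G`, `G` is of finite type iff it is finitary linear over a prime field or of
alternating type.
-/

namespace Pool.Agent.Lib.MP66ef6b.CL

open PL (SLn PSLn fx)

open Matrix.SpecialLinearGroup (transvection)

universe u

/-- Some `T τ.1 τ.2 0` is in the group generated by `k` conjugates of `g` in `Γ`. -/
def Rt {K : Type} [Field K] {F : FD K} {V₀ : Type} [AddCommGroup V₀] [Module K V₀] (S₀ : Sq F V₀)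
    (m k : ℕ) (g : (S₀.std m).D ⊤) : Prop :=
  ∃ τ ∈ (S₀.std m).TPs, ∃ h : (S₀.std m).T τ.1 τ.2 0 ∈ (S₀.std m).D ⊤,
    InW g k ⟨(S₀.std m).T τ.1 τ.2 0, h⟩

/-! ## Linear groups -/

/-- LTA [120 lines]. Commutators of small rank.

Proof. Choose `v` with `f v ∉ K v` (`f` is not scalar) and `φ ≠ 0` with `φ · v = 0`, `s = 1 + v φ`. `f s f⁻¹ = 1 + (f v) (φ f⁻¹)`; `[f, s] - 1 =
(f v) (φ f⁻¹) - v φ - (φ f⁻¹ · v) (f v) φ` has rank at most 2 (range in `⟨f v, v⟩`). If `[f, s] = 1` then `(f v) (φ f⁻¹) = v φ`, so `f v ∈ K v`. -/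
def SpecLTA : Prop := ∀ (n : ℕ) (K : Type) [Field K], 3 ≤ n → ∀ f : SLn n K,
  f ∉ Subgroup.center (SLn n K) → ∃ s : SLn n K, f * s * f⁻¹ * s⁻¹ ≠ 1 ∧
    ((f * s * f⁻¹ * s⁻¹ : SLn n K).1 - 1).rank ≤ 2

/-- LTB [150 lines]. A transvection.

Proof. As `PL/TRV.lean`. `N = g - 1`, `I = range N ≠ 0`, `1 ≤ dim I ≤ 2 < n`. There is a `v ≠ 0` with `N v = 0` and `I` not contained in
`K v`: if `dim I = 2` any `v ≠ 0` in the kernel, if `dim I = 1` then `dim ker N = n - 1 ≥ 2` and some `v` in the kernel is not in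
`I`. Choose `ψ` with `ψ · v = 0` and `ψ N ≠ 0`; `s = 1 + v ψ`, `g s g⁻¹ = 1 + v (ψ g⁻¹)`, `[g, s] = 1 + v (ψ g⁻¹ - ψ)`, `ψ g⁻¹ ≠ ψ`. -/
def SpecLTB : Prop := ∀ (n : ℕ) (K : Type) [Field K], 3 ≤ n → ∀ g : SLn n K, g ≠ 1 →
  (g.1 - 1).rank ≤ 2 → ∃ (s : SLn n K) (v φ : Fin n → K), v ≠ 0 ∧ φ ≠ 0 ∧
    PL.IsTv (g * s * g⁻¹ * s⁻¹) v φ

/-- LT1 [60 lines] (LTA, LTB, PL.TCJ). Transvections are generated by four conjugates.

Proof. `InW.comm` twice and `InW.trans` (2 * 2), TCJ (`InW.conj`). (`a = 0`: `InW.one`.) -/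
def SpecLT1 : Prop := ∀ (n : ℕ) (K : Type) [Field K], 3 ≤ n → ∀ f : SLn n K,
  f ∉ Subgroup.center (SLn n K) → ∀ (i j : Fin n) (hij : i ≠ j) (a : K),
  InW f 4 (transvection hij a : SLn n K)

/-- LGU [150 lines]. The order of a group generated by transvections.

Proof. As `PL/GNU.lean`, where only the block matrices with entries `0, 1` are counted: `[1 + E_ik, 1 + E_kj] = 1 + E_ij`. -/
def SpecLGU : Prop := ∀ (n : ℕ) (K : Type) [Field K] [Finite K] (H : Subgroup (PSLn n K)),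
  (∀ (i j : Fin n) (hij : i ≠ j), j.val = i.val + 1 →
    (QuotientGroup.mk (transvection hij (1 : K) : SLn n K) : PSLn n K) ∈ H) →
  2 ^ ((n / 2) ^ 2) ≤ Nat.card H

/-- LBG [120 lines] (LT1, LGU). Large dimension.

Proof. `c^(4 n) < 2^((n/2)²)` for `n ≥ N` (`PL.AFFM.arith` in `PL/AFF.lean`). `g : Fin n → PSL_n(K)`, `g i` = the image of
`1 + E_(i,i+1)` (`1` for the last `i`). `f` = the image of a non-central `f'`; LT1, `InW.map`, `Gro.of_family` (`k = 4`), LGU. -/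
def SpecLBG : Prop := ∀ c : ℕ, 1 ≤ c → ∃ N : ℕ, ∀ (n : ℕ) (K : Type) [Field K] [Finite K], N ≤ n →
  ∀ f : PSLn n K, f ≠ 1 → Gro c f

/-- SJP [150 lines]. Traces of elements of small order.

Proof. `s_0 = 0`, `s_1 = 1`, `s_(j+2) = X s_(j+1) - s_j` in `K[X]`; `s_j` is monic of degree `j - 1` for `j ≥ 1`. `M² = t M - 1`, `t` the trace,
so `M^(j+1) = s_(j+1)(t) M - s_j(t)`. If `M^j` is scalar (`j ≥ 1`) then `s_j(t) M` is scalar, so `s_j(t) = 0` (`M` is not scalar). `B` = the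
roots of `s_1, .., s_N`. -/
def SpecSJP : Prop := ∀ (K : Type) [Field K] (N : ℕ), ∃ B : Finset K, B.card ≤ N ^ 2 ∧
  ∀ M : SLn 2 K, M ∉ Subgroup.center (SLn 2 K) → ∀ j : ℕ, 1 ≤ j → j ≤ N →
  M ^ j ∈ Subgroup.center (SLn 2 K) → Matrix.trace M.1 ∈ B

/-- L2Q [120 lines] (PL.TRC, SJP). `PSL_2` over large fields.

Proof. `N = c²`, `q = 2 N² + 2`. `f` = the image of `g ∉ center`. TRC: `t`. At most `2 N²` elements `a` have `2 + a² ∈ B` (SJP); choose another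
`a ≠ 0`; `h = [g, t a]` is not central and `h^j` is not central for `1 ≤ j ≤ N`. `InW.comm`, `InW.map`, `Gro.of_order` (`k = 2`). -/
def SpecL2Q : Prop := ∀ c : ℕ, 1 ≤ c → ∃ q : ℕ, ∀ (K : Type) [Field K] [Finite K],
  q ≤ Nat.card K → ∀ f : PSLn 2 K, f ≠ 1 → Gro c f

/-- Y2N [200 lines] (SJP). An element of large order.

Proof. `i = 0`, `j = 1`. For `n = 2` let `M_b = (1 + b, 1; b, 1)` be this product: it has trace `2 + b` and is not central. In general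
the matrix `Y_b` is `M_b` on the indices `0, 1` and the identity on the others, and so `Y_b^l` is `M_b^l` on the indices `0, 1`
(induction over `l`: the entries `(a, b')`, `a ≤ 1 < b'` or `b' ≤ 1 < a`, are zero). If `Y_b^l` is scalar then `M_b^l` is scalar. SJP:
`q = N² + 1`, choose `b` with `2 + b ∉ B`. -/
def SpecY2N : Prop := ∀ N : ℕ, ∃ q : ℕ, ∀ (n : ℕ) (K : Type) [Field K] [Finite K], 2 ≤ n →
  q ≤ Nat.card K → ∃ (i j : Fin n) (hij : i ≠ j) (b : K), ∀ l : ℕ, 1 ≤ l → l ≤ N →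
    (transvection hij 1 * transvection hij.symm b : SLn n K) ^ l ∉ Subgroup.center (SLn n K)

/-- L3Q [80 lines] (LT1, Y2N). Large fields, `n ≥ 3`.

Proof. `N = c^8`; LT1, `InW.mul` (4 + 4), `InW.map`, `Gro.of_order` (`k = 8`). -/
def SpecL3Q : Prop := ∀ c : ℕ, 1 ≤ c → ∃ q : ℕ, ∀ (n : ℕ) (K : Type) [Field K] [Finite K], 3 ≤ n →
  q ≤ Nat.card K → ∀ f : PSLn n K, f ≠ 1 → Gro c f

/-- LGR [80 lines] (LBG, L2Q, L3Q). Linear groups.

Proof. `|PSL_n(K)| ≤ |K|^(n n)` (`PL.SUPM.card_PSL_le` in `PL/SUP.lean`): if `|PSL_n(K)| > B` then `n ≥ N` or `|K| ≥ q`. For `n ≤ 1` the group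
is trivial. -/
def SpecLGR : Prop := ∀ c : ℕ, 1 ≤ c → ∃ B : ℕ, ∀ (n : ℕ) (K : Type) [Field K] [Finite K],
  B < Nat.card (PSLn n K) → ∀ f : PSLn n K, f ≠ 1 → Gro c f

/-! ## Classical groups -/

/-- CG1 [100 lines] (PRU). Elements `T x z a`.

Proof. `u, v` from PRU, `s = T u v 0`: `s (T x z a) s⁻¹ (T x z a)⁻¹ = T x v 0` (see `CL/C1.lean`). `InW.comm'`. -/
def SpecCG1 : Prop := ∀ (K : Type) [Field K] (F : FD K) (V₀ : Type) [AddCommGroup V₀]
  [Module K V₀] (S₀ : Sq F V₀) (m : ℕ), Cls S₀ m → ∀ (x z : SV K V₀ m) (a : K),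
  (S₀.std m).Adm x z a → LinearIndependent K ![x, z] → ∀ g : (S₀.std m).D ⊤,
  g.1 = (S₀.std m).T x z a → Rt S₀ m 2 g

/-- CG2 [100 lines] (CG1, PRV). Transvections.

Proof. `u, v` from PRV, `s = T u v 0`: `s (T x 0 l) s⁻¹ (T x 0 l)⁻¹ = T v (-ε l x) l` (see `CL/C2.lean`), CG1, `InW.comm'`, `InW.trans`. -/
def SpecCG2 : Prop := ∀ (K : Type) [Field K] (F : FD K) (V₀ : Type) [AddCommGroup V₀]
  [Module K V₀] (S₀ : Sq F V₀) (m : ℕ), Cls S₀ m → ∀ (x : SV K V₀ m) (l : K), (S₀.std m).Sg x →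
  x ≠ 0 → l ∈ F.Λ → l ≠ 0 → ∀ g : (S₀.std m).D ⊤, g.1 = (S₀.std m).T x 0 l → Rt S₀ m 4 g

/-- CG3 [120 lines] (CG1, CG2, NXC, SPX). Elements which fix a singular vector.

Proof. As `CL/C3.lean`. If there is a singular `u` with `B(u, x) = 0`, `g u - u ∉ K x`: `t = T x u 0`, `g t g⁻¹ t⁻¹ = T x (g u - u) a`, CG1,
`InW.comm`, `InW.trans`: 4. Otherwise `g = T x z a` (SPX, NXC): CG1 (`InW.mono`), or `z ∈ K x`, `g = T x 0 l`: CG2. -/
def SpecCG3 : Prop := ∀ (K : Type) [Field K] (F : FD K) (V₀ : Type) [AddCommGroup V₀]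
  [Module K V₀] (S₀ : Sq F V₀) (m : ℕ), Cls S₀ m → ∀ (x : SV K V₀ m), (S₀.std m).Sg x → x ≠ 0 →
  ∀ g : (S₀.std m).D ⊤, g ≠ 1 → g.1 x = x → Rt S₀ m 4 g

/-- CG4 [150 lines] (CG3, SCA, SPX, SGY). All elements.

Proof. As `CL/C4.lean`: `t = T x₀ w₀ 0`, `g = [f, t] ≠ 1` fixes a singular vector `x ≠ 0`. `InW.comm`, `InW.trans`: 2 * 4. -/
def SpecCG4 : Prop := ∀ (K : Type) [Field K] (F : FD K) (V₀ : Type) [AddCommGroup V₀]
  [Module K V₀] (S₀ : Sq F V₀) (m : ℕ), Cls S₀ m → ∀ f : (S₀.std m).D ⊤,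
  (¬ ∃ c : K, ∀ v, f.1 v = c • v) → Rt S₀ m 8 f

/-- CG5 [100 lines] (CG4, WT2, LMD). Transvections of `SL_m(K)`.

Proof. `a ≠ 0`: `lam (transvection hij a) = T (e_i) (c f_j) 0`, `c ≠ 0` (`LMDM.lam_tv`), `(e_i, c f_j) ∈ TPs` (see `CL/C0.lean`). WT2: it is conjugate to
the element from CG4; `InW.conj`. -/
def SpecCG5 : Prop := ∀ (K : Type) [Field K] (F : FD K) (V₀ : Type) [AddCommGroup V₀]
  [Module K V₀] (S₀ : Sq F V₀) (m : ℕ), Cls S₀ m → ∀ f : (S₀.std m).D ⊤,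
  (¬ ∃ c : K, ∀ v, f.1 v = c • v) → ∀ (i j : Fin m) (hij : i ≠ j) (a : K)
  (h : lam F V₀ m (transvection hij a) ∈ (S₀.std m).D ⊤),
  InW f 8 ⟨lam F V₀ m (transvection hij a), h⟩

/-- CGA [150 lines] (CG5, LGU, LMD). Large dimension.

Proof. `c^(8 m) < 2^((m/2)²)` for `m ≥ N` (`PL.AFFM.arith`). `f = π f'`. `g : Fin m → P`, `g i = π (lam (1 + E_(i,i+1)))` (`1` for the last `i`).
`Gro.of_family` (`k = 8`). `H` = the group generated by the `g i`; `ψ : SL_m(K) → P`, `ψ s = π (lam s)`; the kernel of `ψ` is contained in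
the centre (`lam s` scalar implies `s` scalar). The image in `PSL_m(K)` of `ψ⁻¹ H` satisfies the hypothesis of LGU, and it is
not larger than `H`. (`P` is finite: `Γ` is finite.) -/
def SpecCGA : Prop := ∀ c : ℕ, 1 ≤ c → ∃ N : ℕ, ∀ (K : Type) [Field K] (F : FD K) (V₀ : Type)
  [AddCommGroup V₀] [Module K V₀] (S₀ : Sq F V₀) (m : ℕ), Cls S₀ m → N ≤ m → ∀ (P : Type u)
  [Group P] (π : (S₀.std m).D ⊤ →* P), Ker π → ∀ f : P, f ≠ 1 → Gro c f

/-- CGB [100 lines] (CG5, Y2N, LMD). Large fields.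

Proof. `N = c^16`; `y` from Y2N in `SL_m(K)`, `g = π (lam y)`; `g^l = 1` implies that `lam (y^l)` is scalar, so `y^l` is central. CG5,
`InW.mul` (8 + 8), `InW.map`, `Gro.of_order` (`k = 16`). -/
def SpecCGB : Prop := ∀ c : ℕ, 1 ≤ c → ∃ q : ℕ, ∀ (K : Type) [Field K] (F : FD K) (V₀ : Type)
  [AddCommGroup V₀] [Module K V₀] (S₀ : Sq F V₀) (m : ℕ), Cls S₀ m → q ≤ Nat.card K →
  ∀ (P : Type u) [Group P] (π : (S₀.std m).D ⊤ →* P), Ker π → ∀ f : P, f ≠ 1 → Gro c f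

/-- CGC [80 lines] (CGA, CGB, SZS). Classical groups.

Proof. `|P| ≤ |K|^((2 m + 2)²)` (SZS): if `|P| > B` then `m ≥ N` or `|K| ≥ q`. -/
def SpecCGC : Prop := ∀ c : ℕ, 1 ≤ c → ∃ B : ℕ, ∀ (P : Type u) [Group P], IsCl P →
  B < Nat.card P → ∀ f : P, f ≠ 1 → Gro c f

/-! ## Alternating groups -/

/-- AL1 [200 lines]. Three-cycles are generated by four conjugates.

Proof. Step 1: let `f a = b ≠ a`, `c ∉ {a, b, f b}`, `t = (a b c)`. Then `f t f⁻¹ = (f a  f b  f c) ≠ t` (if `f b = a` then `f t f⁻¹` maps `b` to `a`, and `t` maps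
`b` to `c`; otherwise `f b ∉ {a, b, c}` is moved by `f t f⁻¹`). So `g = [f, t] ≠ 1` and `g` moves at most `6` points. Step 2: `g x = x' ≠ x`, `y, z`
two other points fixed by `g` (`n ≥ 9`), `s = (x y z)`: `g s g⁻¹ s⁻¹ = (x' y z) (x z y) = (x x' y)`, a three-cycle. `InW.comm` twice, `InW.trans`.
All three-cycles are conjugate in `A_n`, `n ≥ 5` (`alternatingGroup.isThreeCycle_isConj`); `InW.conj`. -/
def SpecAL1 : Prop := ∀ n : ℕ, 9 ≤ n → ∀ f : alternatingGroup (Fin n), f ≠ 1 →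
  ∀ g : alternatingGroup (Fin n), (g : Equiv.Perm (Fin n)).IsThreeCycle → InW f 4 g

/-- AL2 [200 lines]. Generation by `n` three-cycles.

Proof. `g_i = (0 1 i)`, `i ≥ 2` (and `g_0 = g_1 = g_2`). They generate all three-cycles, so `A_n`
(`Equiv.Perm.closure_three_cycles_eq_alternating`), of order `n! / 2`. Or, by orbits: let `H_k` be generated by the `g_i`, `i ≤ k`; `H_(k-1)` fixes
the point `k` and the orbit of `k` under `H_k` is `{0, .., k}`, so `|H_k| ≥ (k + 1) |H_(k-1)|`. (Any superexponential bound will do.) -/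
def SpecAL2 : Prop := ∀ n : ℕ, 5 ≤ n → ∃ g : Fin n → alternatingGroup (Fin n),
  (∀ i, (g i : Equiv.Perm (Fin n)).IsThreeCycle) ∧
    (n / 2).factorial ≤ Nat.card (Subgroup.closure (Set.range g))

/-- AL3 [100 lines] (AL1, AL2). Alternating groups.

Proof. `c^(4 n) < (n / 2)!` for `n ≥ N` (`k! ≥ (k / 2)^(k / 2)`, `n / 2 = k`, `c^(4 n) ≤ (c^12)^k`). `Gro.of_family` (`k = 4`). -/
def SpecAL3 : Prop := ∀ c : ℕ, 1 ≤ c → ∃ N : ℕ, ∀ n : ℕ, N ≤ n →
  ∀ f : alternatingGroup (Fin n), f ≠ 1 → Gro c f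

/-! ## The group `G` -/

/-- GRO [100 lines] (LGR, CGC, AL3). Growth.

Proof. The three cases of `IsAC`; `|A_n| ≤ n!`; `Gro.equiv`. -/
def SpecGRO : Prop := ∀ c : ℕ, 1 ≤ c → ∃ B : ℕ, ∀ (T : Type u) [Group T] [Finite T], IsAC T →
  B < Nat.card T → ∀ f : T, f ≠ 1 → Gro c f

/-- KEG [250 lines]. Kegel covers (uses `specTOWER`, proved in the library, see `PL/MNL.lean` for the imports).

Proof. TOWER: `E₁ ≥ E` with `E ≤ ⟨g y g⁻¹ | g ∈ E₁⟩` for all `y ∈ E`, `y ≠ 1`; `E' ≥ E₁` with `E₁ ≤ ⟨g y g⁻¹ | g ∈ E'⟩` for all `y ∈ E₁`, `y ≠ 1`. Let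
`K ≥ E'`. For `y ∈ E₁`, `y ≠ 1`, let `A_y` be the normal closure of `y` in `K`; `E₁ ≤ A_y`, so `A_y ≤ A_z ≤ A_y`: all are equal to one `A`. Let `M`
be maximal among the normal subgroups of `K` properly contained in `A`; `E₁ ⊓ M = 1` (`y ∈ M` implies `A_y ≤ M`). Let `R` be the
intersection of all maximal normal subgroups of `A` containing `M` (there is one: `M < A`, `A` finite): it is normalised by `K`, `M ≤ R < A`,
so `R = M`. So some maximal normal subgroup `B ≥ M` of `A` does not contain `E`. If `y ∈ E ⊓ B`, `y ≠ 1`, then `g y g⁻¹ ∈ B` for `g ∈ E₁ ≤ A`,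
so `E ≤ B`, a contradiction. -/
def SpecKEG : Prop := ∀ (G : Type u) [Group G] [IsSimpleGroup G] [Infinite G], LocFin G →
  ∀ E : Subgroup G, Finite E → E ≠ ⊥ → ∃ E' : Subgroup G, Finite E' ∧ E ≤ E' ∧
  ∀ K : Subgroup G, Finite K → E' ≤ K → ∃ (A : Subgroup K) (B : Subgroup A) (_ : B.Normal),
    A.Normal ∧ IsSimpleGroup (A ⧸ B) ∧ (∀ x ∈ E, ∃ a : A, ((a : K) : G) = x) ∧
    ∀ a : A, ((a : K) : G) ∈ E → a ∈ B → a = 1

/-- FLA [200 lines] (GRO, KEG, PL.SPR). Finitary linear groups are of affine type.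

Proof. `V, p`. `f₀ • v₀ ≠ v₀`, `c` = the number of elements of `{f₀ v - v}` (`≥ 1`). `B` from GRO. `E₀` from `LocAC`. `E` = a finite subgroup which
contains `E₀`, `f₀`, two non-commuting elements (`G` is not commutative, see `PL/PRF.lean`) and has more than `B` elements.
KEG: `E'`; `K ≥ E'` from `LocAC`; `A`, `B'`, `T = A ⧸ B'`. `E` embeds in `T`, so `T` is not commutative, simple, `|T| > B`, and `E₀ → T → MulAut T` is
injective (the centre of `T` is trivial). So `IsAC T`. GRO for the image of `f₀`: `x_i`; lifts `y_i ∈ A`; `g_i = y_i f₀ y_i⁻¹ ∈ G` generate a finite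
group `H` with more than `c^k` elements. As `PL/AFF.lean`: the displacement of `g_i` is that of `f₀`, `PL.specSPR`, `AffineType` with `F = H`. -/
def SpecFLA : Prop := ∀ (G : Type u) [Group G] [IsSimpleGroup G] [Infinite G], LocFin G →
  LocAC G → FinLin G → AffineType G

/-- AFL [120 lines]. The linear part of an affine action.

Proof. `A_g w = g • (v + w) - g • v` (for any `v`) is additive and does not depend on `v`; `A_(g h) = A_g A_h`, `A_1 = 1`; `A_g w - w = (g • (v + w) - (v + w)) -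
(g • v - v)`, so the displacement is finite. If all `A_g = 1` then `g • v = v + c_g`, `g ↦ c_g` is a homomorphism to a commutative group;
`G` is simple and not commutative, so `c_g = 0` for all `g`, a contradiction. -/
def SpecAFL : Prop := ∀ (G : Type u) [Group G] [IsSimpleGroup G] [Infinite G], LocFin G →
  AffineType G → FinLin G

/-- MN3 [20 lines] (MN2, FLA, AFL). THEOREM L3. -/
def SpecMN3 : Prop := ∀ (G : Type u) [Group G] [IsSimpleGroup G] [Infinite G], LocFin G →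
  LocAC G → (FiniteType G ↔ FinLin G ∨ AltType G)

end Pool.Agent.Lib.MP66ef6b.CL
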