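import Pool.Agent.Lib.MP_66ef6b_al.CL.SpecE
import Pool.Agent.Lib.MP_66ef6b_al.CL.SpecD
import Pool.Agent.Lib.MP_66ef6b_al.CL.SpecG
import Pool.Agent.Lib.MP_66ef6b_al.PL.CBK

section
set_option autoImplicit false

/-! # Module HEI. -/

namespace Pool.Agent.Lib.MP66ef6b.CL

namespace HEIM

open Finset

open Classical in
theorem sum_char {W : Type} [AddCommGroup W] [Fintype W] (ψ : AddChar W ℂ) :
    ∑ w, ψ w = if (∀ w, ψ w = 1) then (Fintype.card W : ℂ) else 0 := by
  rw [AddChar.sum_eq_ite]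
  have h : ψ = 0 ↔ ∀ w, ψ w = 1 := by
    constructor
    · rintro rfl w
      rfl
    · intro h
      ext w
      exact h w
  by_cases h1 : ψ = 0
  · rw [if_pos h1, if_pos (h.1 h1)]
  · rw [if_neg h1, if_neg (fun h2 => h1 (h.2 h2))]

/-- the character `χ (f w)`. -/
noncomputable def pb {W A : Type} [AddCommGroup W] [AddCommGroup A] (χ : AddChar A ℂ)
    (f : W →+ A) : AddChar W ℂ := χ.compAddMonoidHom f

theorem pb_apply {W A : Type} [AddCommGroup W] [AddCommGroup A] (χ : AddChar A ℂ)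
    (f : W →+ A) (w : W) : pb χ f w = χ (f w) := rfl

open Classical in
/-- double counting. -/
theorem dc {U W A : Type} [Fintype U] [AddCommGroup W] [Fintype W] [AddCommGroup A] [Fintype A]
    (f : U → W →+ A) : Fintype.card A * (univ.filter fun p : U × W => f p.1 p.2 = 0).card =
      Fintype.card W * ∑ χ : AddChar A ℂ, (univ.filter fun u : U => ∀ w, χ (f u w) = 1).card := by
  have h1 : ∑ p : U × W, ∑ χ : AddChar A ℂ, χ (f p.1 p.2) =
      (Fintype.card A : ℂ) * ((univ.filter fun p : U × W => f p.1 p.2 = 0).card : ℂ) := by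
    have h2 : ∀ p : U × W, ∑ χ : AddChar A ℂ, χ (f p.1 p.2) =
        if f p.1 p.2 = 0 then (Fintype.card A : ℂ) else 0 := fun p =>
      AddChar.sum_apply_eq_ite (f p.1 p.2)
    rw [sum_congr rfl fun p _ => h2 p, ← sum_filter, sum_const, nsmul_eq_mul, mul_comm]
  have h3 : ∑ p : U × W, ∑ χ : AddChar A ℂ, χ (f p.1 p.2) =
      (Fintype.card W : ℂ) * ((∑ χ : AddChar A ℂ,
        (univ.filter fun u : U => ∀ w, χ (f u w) = 1).card : ℕ) : ℂ) := by
    rw [sum_comm, Nat.cast_sum, mul_sum]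
    refine sum_congr rfl fun χ _ => ?_
    rw [Fintype.sum_prod_type]
    have h4 : ∀ u : U, ∑ w, χ (f u w) =
        if (∀ w, χ (f u w) = 1) then (Fintype.card W : ℂ) else 0 := fun u =>
      sum_char (pb χ (f u))
    rw [sum_congr rfl fun u _ => h4 u, ← sum_filter, sum_const, nsmul_eq_mul, mul_comm]
  rw [h1] at h3
  exact_mod_cast h3

open Classical in
/-- the pairing inequality. -/
theorem pair {X Y A : Type} [AddCommGroup X] [Fintype X] [AddCommGroup Y] [Fintype Y]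
    [AddCommGroup A] (f : X →+ Y →+ A) (χ : AddChar A ℂ) (L₁ : AddSubgroup X)
    (L₂ : AddSubgroup Y) (h : ∀ x ∈ L₁, ∀ y ∈ L₂, χ (f x y) = 1) :
    Fintype.card L₁ * Fintype.card L₂ ≤
      Fintype.card Y * (univ.filter fun x : X => ∀ y, χ (f x y) = 1).card := by
  have h1 : ∑ x : L₁, ∑ y : Y, χ (f x y) =
      (Fintype.card Y : ℂ) * ((univ.filter fun x : L₁ => ∀ y, χ (f x y) = 1).card : ℂ) := by
    have h4 : ∀ x : L₁, ∑ y, χ (f x y) =
        if (∀ y, χ (f x y) = 1) then (Fintype.card Y : ℂ) else 0 := fun x =>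
      sum_char (pb χ (f x))
    rw [sum_congr rfl fun u _ => h4 u, ← sum_filter, sum_const, nsmul_eq_mul, mul_comm]
  have h2 : ∑ x : L₁, ∑ y : Y, χ (f x y) =
      (Fintype.card L₁ : ℂ) * ((univ.filter fun y : Y => ∀ x : L₁, χ (f x y) = 1).card : ℂ) := by
    rw [sum_comm]
    have h4 : ∀ y : Y, ∑ x : L₁, χ (f x y) =
        if (∀ x : L₁, χ (f x y) = 1) then (Fintype.card L₁ : ℂ) else 0 := fun y =>
      sum_char (pb χ ((f.flip y).comp L₁.subtype))
    rw [sum_congr rfl fun u _ => h4 u, ← sum_filter, sum_const, nsmul_eq_mul, mul_comm]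
  rw [h2] at h1
  have h3 : Fintype.card L₁ * (univ.filter fun y : Y => ∀ x : L₁, χ (f x y) = 1).card =
    Fintype.card Y * (univ.filter fun x : L₁ => ∀ y, χ (f x y) = 1).card := by
    exact_mod_cast h1
  have h5 : Fintype.card L₂ ≤ (univ.filter fun y : Y => ∀ x : L₁, χ (f x y) = 1).card := by
    rw [← Finset.card_univ]
    refine card_le_card_of_injOn (fun y : L₂ => (y : Y)) ?_ ?_
    · intro y _
      simp only [coe_filter, mem_univ, true_and, Set.mem_ofPred_eq]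
      exact fun x => h x x.2 y y.2
    · intro y _ z _ hyz
      exact Subtype.ext hyz
  have h6 : (univ.filter fun x : L₁ => ∀ y, χ (f x y) = 1).card ≤
      (univ.filter fun x : X => ∀ y, χ (f x y) = 1).card := by
    refine card_le_card_of_injOn (fun y : L₁ => (y : X)) ?_ ?_
    · intro y hy
      simp only [coe_filter, mem_univ, true_and, Set.mem_ofPred_eq] at hy ⊢
      exact hy
    · intro y _ z _ hyz
      exact Subtype.ext hyz
  calc Fintype.card L₁ * Fintype.card L₂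
      ≤ Fintype.card L₁ * (univ.filter fun y : Y => ∀ x : L₁, χ (f x y) = 1).card :=
        Nat.mul_le_mul_left _ h5
    _ = Fintype.card Y * (univ.filter fun x : L₁ => ∀ y, χ (f x y) = 1).card := h3
    _ ≤ _ := Nat.mul_le_mul_left _ h6

section mat

variable {K : Type} [Field K] {k b : ℕ}

/-- the matrix product. -/
def mulH (K : Type) [Field K] (k b : ℕ) : Matrix (Fin k) (Fin b) K →+
    Matrix (Fin b) (Fin k) K →+ Matrix (Fin k) (Fin k) K where
  toFun X :=
    { toFun := fun Y => X * Y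
      map_zero' := Matrix.mul_zero X
      map_add' := fun Y Z => Matrix.mul_add X Y Z }
  map_zero' := by
    ext1 Y
    exact Matrix.zero_mul Y
  map_add' X Z := by
    ext1 Y
    exact Matrix.add_mul X Z Y

/-- the product `u wᵀ`. -/
def vmv (K : Type) [Field K] (k : ℕ) : (Fin k → K) → (Fin k → K) →+
    Matrix (Fin k) (Fin k) K := fun u =>
  { toFun := fun w => Matrix.vecMulVec u w
    map_zero' := by
      ext i j
      simp [Matrix.vecMulVec_apply]
    map_add' := fun w z => by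
      ext i j
      simp [Matrix.vecMulVec_apply, mul_add] }

/-- columns times rows. -/
theorem single_row (X : Matrix (Fin k) (Fin b) K) (l : Fin b) (w : Fin k → K) :
    X * Matrix.of (Function.update (0 : Fin b → Fin k → K) l w) =
      Matrix.vecMulVec (fun i => X i l) w := by
  ext i j
  rw [Matrix.mul_apply, Matrix.vecMulVec_apply, Finset.sum_eq_single l]
  · simp
  · intro l' _ hl
    simp [Function.update_of_ne hl]
  · intro h
    exact absurd (mem_univ l) h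

open Classical in
theorem cols [Fintype K] (χ : AddChar (Matrix (Fin k) (Fin k) K) ℂ) :
    (univ.filter fun X : Matrix (Fin k) (Fin b) K => ∀ Y, χ (mulH K k b X Y) = 1).card ≤
      (univ.filter fun u : Fin k → K => ∀ w, χ (vmv K k u w) = 1).card ^ b := by
  have h1 : (Fintype.piFinset fun _ : Fin b =>
      univ.filter fun u : Fin k → K => ∀ w, χ (vmv K k u w) = 1).card =
      (univ.filter fun u : Fin k → K => ∀ w, χ (vmv K k u w) = 1).card ^ b := by
    rw [Fintype.card_piFinset]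
    simp
  rw [← h1]
  refine card_le_card_of_injOn (fun X l i => X i l) ?_ ?_
  · intro X hX
    simp only [coe_filter, mem_univ, true_and, Set.mem_ofPred_eq] at hX
    rw [Finset.mem_coe, Fintype.mem_piFinset]
    intro l
    rw [mem_filter]
    refine ⟨mem_univ _, fun w => ?_⟩
    have h2 := hX (Matrix.of (Function.update (0 : Fin b → Fin k → K) l w))
    have h3 : mulH K k b X (Matrix.of (Function.update (0 : Fin b → Fin k → K) l w)) =
        vmv K k (fun i => X i l) w := single_row X l w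
    rwa [h3] at h2
  · intro X _ Z _ hXZ
    ext i l
    exact congrFun (congrFun hXZ l) i

theorem card_mat (K : Type) [Finite K] (a b : ℕ) :
    Nat.card (Matrix (Fin a) (Fin b) K) = Nat.card K ^ (a * b) := by
  change Nat.card (Fin a → Fin b → K) = _
  rw [Nat.card_fun, Nat.card_fun, Nat.card_eq_fintype_card (α := Fin a),
    Nat.card_eq_fintype_card (α := Fin b), Fintype.card_fin, Fintype.card_fin, ← pow_mul, mul_comm]

open Classical in
/-- step (1). -/
theorem step1 [Fintype K] (χ : AddChar (Matrix (Fin k) (Fin k) K) ℂ) (t : ℕ) (hb : 1 ≤ b)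
    (L₁ : AddSubgroup (Matrix (Fin k) (Fin b) K))
    (L₂ : AddSubgroup (Matrix (Fin b) (Fin k) K))
    (h : ∀ X ∈ L₁, ∀ Y ∈ L₂, χ (mulH K k b X Y) = 1)
    (hi : L₁.index * L₂.index ≤ Nat.card K ^ (b * t)) :
    Nat.card K ^ k ≤ Nat.card K ^ t *
      (univ.filter fun u : Fin k → K => ∀ w, χ (vmv K k u w) = 1).card := by
  have h1 := pair (mulH K k b) χ L₁ L₂ h
  have h2 := cols (b := b) χ
  have h3 : Fintype.card L₁ * L₁.index = Nat.card K ^ (k * b) := by
    have := L₁.card_mul_index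
    rw [Nat.card_eq_fintype_card] at this
    rw [this, card_mat]
  have h4 : Fintype.card L₂ * L₂.index = Nat.card K ^ (k * b) := by
    have := L₂.card_mul_index
    rw [Nat.card_eq_fintype_card] at this
    rw [this, card_mat, mul_comm]
  have h5 : Fintype.card (Matrix (Fin b) (Fin k) K) = Nat.card K ^ (k * b) := by
    rw [← Nat.card_eq_fintype_card, card_mat, mul_comm]
  have hq : 0 < Nat.card K ^ (k * b) := pow_pos Nat.card_pos _
  have h6 : Nat.card K ^ (k * b) * Nat.card K ^ (k * b) ≤ Nat.card K ^ (k * b) *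
      (Nat.card K ^ (b * t) *
      (univ.filter fun u : Fin k → K => ∀ w, χ (vmv K k u w) = 1).card ^ b) := by
    calc Nat.card K ^ (k * b) * Nat.card K ^ (k * b)
        = (Fintype.card L₁ * Fintype.card L₂) * (L₁.index * L₂.index) := by
          rw [← h3]
          nth_rewrite 2 [h3]
          rw [← h4]
          ring
      _ ≤ (Nat.card K ^ (k * b) *
          (univ.filter fun u : Fin k → K => ∀ w, χ (vmv K k u w) = 1).card ^ b) *
          Nat.card K ^ (b * t) := by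
          refine Nat.mul_le_mul ?_ hi
          rw [h5] at h1
          exact h1.trans (Nat.mul_le_mul_left _ h2)
      _ = _ := by ring
  have h7 := Nat.le_of_mul_le_mul_left h6 hq
  have h8 : (Nat.card K ^ k) ^ b ≤ (Nat.card K ^ t *
      (univ.filter fun u : Fin k → K => ∀ w, χ (vmv K k u w) = 1).card) ^ b := by
    rw [mul_pow, ← pow_mul, ← pow_mul, mul_comm t b]
    exact h7
  exact (Nat.pow_le_pow_iff_left (by omega)).1 h8

end mat

end HEIM

open HEIM in
open Classical in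
theorem specHEI : SpecHEI := by
  intro K _ _ k b t J L₁ L₂ hb hJ hi
  have : Fintype K := Fintype.ofFinite K
  have : Fintype (Matrix (Fin k) (Fin k) K ⧸ J) := Fintype.ofFinite _
  have h1 := dc (U := Fin k → K) (W := Fin k → K) (A := Matrix (Fin k) (Fin k) K ⧸ J)
    fun u => (QuotientAddGroup.mk' J).comp (vmv K k u)
  have h2 : ∀ χ : AddChar (Matrix (Fin k) (Fin k) K ⧸ J) ℂ, Nat.card K ^ k ≤ Nat.card K ^ t *
      (Finset.univ.filter fun u : Fin k → K =>
        ∀ w, χ (((QuotientAddGroup.mk' J).comp (vmv K k u)) w) = 1).card := by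
    intro χ
    refine step1 (pb χ (QuotientAddGroup.mk' J)) t hb L₁ L₂ ?_ hi
    intro X hX Y hY
    rw [pb_apply]
    have h3 : (QuotientAddGroup.mk' J) (mulH K k b X Y) = 0 :=
      (QuotientAddGroup.eq_zero_iff _).2 (hJ X hX Y hY)
    rw [h3, AddChar.map_zero_eq_one]
  have h3 : ∀ d : DecidablePred fun p : (Fin k → K) × (Fin k → K) =>
        ((QuotientAddGroup.mk' J).comp (vmv K k p.1)) p.2 = 0,
      {p : (Fin k → K) × (Fin k → K) | Matrix.vecMulVec p.1 p.2 ∈ J}.ncard =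
      (@Finset.filter _ _ d Finset.univ).card := by
    intro d
    rw [← Set.ncard_coe_finset]
    congr 1
    ext p
    simp only [Set.mem_ofPred_eq, Finset.coe_filter, Finset.mem_univ, true_and]
    exact (QuotientAddGroup.eq_zero_iff _).symm
  rw [← h3] at h1
  have hW : Fintype.card (Fin k → K) = Nat.card K ^ k := by
    rw [Fintype.card_fun, Fintype.card_fin, Nat.card_eq_fintype_card]
  rw [hW] at h1
  have hA : 0 < Fintype.card (Matrix (Fin k) (Fin k) K ⧸ J) := Fintype.card_pos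
  have hX : Fintype.card (AddChar (Matrix (Fin k) (Fin k) K ⧸ J) ℂ) =
      Fintype.card (Matrix (Fin k) (Fin k) K ⧸ J) :=
    AddChar.card_eq (α := Matrix (Fin k) (Fin k) K ⧸ J)
  refine Nat.le_of_mul_le_mul_left ?_ hA
  calc Fintype.card (Matrix (Fin k) (Fin k) K ⧸ J) * Nat.card K ^ (2 * k)
      = Nat.card K ^ k * ∑ _χ : AddChar (Matrix (Fin k) (Fin k) K ⧸ J) ℂ, Nat.card K ^ k := by
        rw [Finset.sum_const, Finset.card_univ, hX, smul_eq_mul]
        ring
    _ ≤ Nat.card K ^ k * ∑ χ : AddChar (Matrix (Fin k) (Fin k) K ⧸ J) ℂ, (Nat.card K ^ t *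
      (Finset.univ.filter fun u : Fin k → K =>
        ∀ w, χ (((QuotientAddGroup.mk' J).comp (vmv K k u)) w) = 1).card) :=
        Nat.mul_le_mul_left _ (Finset.sum_le_sum fun χ _ => h2 χ)
    _ = Nat.card K ^ t * (Nat.card K ^ k * ∑ χ : AddChar (Matrix (Fin k) (Fin k) K ⧸ J) ℂ,
      (Finset.univ.filter fun u : Fin k → K =>
        ∀ w, χ (((QuotientAddGroup.mk' J).comp (vmv K k u)) w) = 1).card) := by
        rw [← Finset.mul_sum]
        ring
    _ = _ := by
        rw [← h1, mul_left_comm]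

end Pool.Agent.Lib.MP66ef6b.CL
end

section
/-! TXC: root subgroups. -/
set_option autoImplicit false

namespace Pool.Agent.Lib.MP66ef6b.CL

open Matrix

namespace TXCM

variable {K : Type} [Field K] {F : FD K} {V₀ : Type} [AddCommGroup V₀] [Module K V₀]

theorem exists_B_ne {S₀ : Sq F V₀} {m : ℕ} (hN : S₀.Nd) {x : SV K V₀ m} (hx : x ≠ 0) :
    ∃ v, (S₀.std m).B v x ≠ 0 := by
  by_contra hcon
  push Not at hcon
  apply hx
  have hσ : ∀ a : K, F.σ a = 0 → a = 0 := fun a ha => by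
    rw [← F.inv a, ha, map_zero]
  have h1 : x.1 = 0 := by
    ext i
    have h := hcon (fV K V₀ i)
    rw [std_B] at h
    simp only [fV, zero_dotProduct, S₀.B_zero_left, zero_add, add_zero,
      single_one_dotProduct] at h
    have h2 := (mul_eq_zero.1 h).resolve_left F.e0
    exact hσ _ h2
  have h2 : x.2.1 = 0 := by
    ext i
    have h := hcon (eV K V₀ i)
    rw [std_B] at h
    simp only [eV, zero_dotProduct, S₀.B_zero_left, add_zero, mul_zero,
      single_one_dotProduct] at h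
    exact hσ _ h
  have h3 : x.2.2 = 0 := by
    apply hN
    intro w
    have h := hcon (0, 0, w)
    rw [std_B] at h
    simp only [zero_dotProduct, mul_zero, zero_add] at h
    exact S₀.B_eq_zero_swap h
  exact Prod.ext h1 (Prod.ext h2 h3)

variable {V : Type} [AddCommGroup V] [Module K V] {S : Sq F V}

theorem adm {x w : V} (hx : S.Sg x) (hw : S.Sg w) (h : S.B x w = 0) (c : K) :
    S.Adm x (c • w) 0 where
  sg := hx
  orth := by rw [S.B_smul_right, h, mul_zero]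
  par := by
    rw [zero_sub]
    exact F.Λ.neg_mem (hw.smul c)

/-- the homomorphism `c ↦ T x (c w) 0`. -/
noncomputable def hom {x w : V} (hx : S.Sg x) (hw : S.Sg w) (h : S.B x w = 0) :
    Multiplicative K →* (V ≃ₗ[K] V) where
  toFun c := S.T x (Multiplicative.toAdd c • w) 0
  map_one' := by
    rw [toAdd_one, zero_smul]
    exact Sq.T_zero
  map_mul' a b := by
    rw [Sq.T_mul (adm hx hw h _) (adm hx hw h _), toAdd_mul, add_smul, S.B_smul_left,
      S.B_smul_right, hw.self]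
    simp

end TXCM

theorem specTXC : SpecTXC := by
  intro K _ _ F V₀ _ _ S₀ m hN τ hτ
  obtain ⟨hx, hw, h, hli⟩ := hτ
  refine ⟨(TXCM.hom hx hw h).range, ?_, ?_, ?_⟩
  · rintro _ ⟨c, rfl⟩
    exact Sq.T_mem_G (TXCM.adm hx hw h _)
  · have hinj : Function.Injective (TXCM.hom hx hw h) := by
      rw [injective_iff_map_eq_one]
      intro c hc
      have hx0 : τ.1 ≠ 0 := by
        have := hli.ne_zero 0
        simpa using this
      obtain ⟨v, hv⟩ := TXCM.exists_B_ne hN hx0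
      have h1 : (S₀.std m).T τ.1 (Multiplicative.toAdd c • τ.2) 0 v = v := by
        have : TXCM.hom hx hw h c v = v := by
          rw [hc]
          rfl
        exact this
      rw [Sq.T_apply (TXCM.adm hx hw h _)] at h1
      have h2 : (-(F.ε * ((S₀.std m).B v (Multiplicative.toAdd c • τ.2) +
          0 * (S₀.std m).B v τ.1))) • τ.1 +
          ((S₀.std m).B v τ.1 * Multiplicative.toAdd c) • τ.2 = 0 := by
        have h3 := sub_eq_zero.2 h1
        rw [← h3]
        module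
      have h4 := (LinearIndependent.pair_iff.1 hli _ _ h2).2
      have h5 := (mul_eq_zero.1 h4).resolve_left hv
      exact h5
    have h1 := Nat.card_congr (Equiv.ofInjective _ hinj)
    rw [Nat.card_congr Multiplicative.toAdd] at h1
    exact h1.symm
  · rintro _ ⟨c, rfl⟩ hne
    refine ⟨Multiplicative.toAdd c, ?_, rfl⟩
    intro h0
    apply hne
    have : c = 1 := h0
    rw [this, map_one]

end Pool.Agent.Lib.MP66ef6b.CL
end

section
set_option autoImplicit false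

/-!
# MP_66ef6b_al, THEOREM L2 (helper14): common lemmas for part E
-/

namespace Pool.Agent.Lib.MP66ef6b.CL

universe u

namespace LibM

section space

variable {K : Type} [Field K] {F : FD K} {V : Type} [AddCommGroup V] [Module K V] {S : Sq F V}

theorem B_sum_right {ι : Type} (s : Finset ι) (v : V) (u : ι → V) :
    S.B v (∑ i ∈ s, u i) = ∑ i ∈ s, S.B v (u i) := by
  classical
  induction s using Finset.induction_on with
  | empty => simp [S.B_zero_right]
  | insert a s ha ih => rw [Finset.sum_insert ha, Finset.sum_insert ha, S.B_add_right, ih]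

/-- **fnl**: functionals given by independent vectors. -/
theorem fnl (h : S.Nd) {ι : Type} [Fintype ι] (u : ι → V) (hu : LinearIndependent K u)
    (c : ι → K) : ∃ v, ∀ i, S.B v (u i) = c i := by
  classical
  let L : V →ₗ[K] (ι → K) :=
    { toFun := fun v i => S.B v (u i)
      map_add' := fun v w => by
        funext i
        simp [S.B_add_left]
      map_smul' := fun d v => by
        funext i
        simp [S.B_smul_left] }
  have hL : LinearMap.range L = ⊤ := by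
    by_contra hne
    obtain ⟨φ, hφ, hle⟩ := Submodule.exists_le_ker_of_lt_top _ (lt_top_iff_ne_top.2 hne)
    apply hφ
    have h1 : ∀ v : V, S.B v (∑ i, F.σ (φ (Pi.single i 1)) • u i) = 0 := by
      intro v
      have h2 : φ (L v) = 0 := hle ⟨v, rfl⟩
      have h3 : L v = ∑ i, S.B v (u i) • (Pi.single i 1 : ι → K) := by
        funext j
        simp [L, Finset.sum_apply, Pi.single_apply]
      rw [h3, map_sum] at h2
      rw [B_sum_right, ← h2]
      refine Finset.sum_congr rfl fun i _ => ?_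
      rw [S.B_smul_right, F.inv, map_smul, smul_eq_mul, mul_comm]
    have h4 : (∑ i, F.σ (φ (Pi.single i 1)) • u i) = 0 :=
      h _ fun w => S.B_eq_zero_swap (h1 w)
    have h5 := Fintype.linearIndependent_iff.1 hu _ h4
    have h6 : ∀ i, φ (Pi.single i 1) = 0 := fun i => by
      have := h5 i
      rwa [map_eq_zero] at this
    refine LinearMap.ext fun w => ?_
    have h7 : w = ∑ i, w i • (Pi.single i 1 : ι → K) := by
      funext j
      simp [Finset.sum_apply, Pi.single_apply]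
    rw [h7, map_sum]
    simp [h6]
  obtain ⟨v, hv⟩ : c ∈ LinearMap.range L := by
    rw [hL]
    trivial
  exact ⟨v, fun i => congrFun hv i⟩

/-- the only eigenvalue of `T x w a` is one. -/
theorem T_eig {x w u : V} {a c : K} (h : S.Adm x w a) (hu : u ≠ 0) (hc : S.T x w a u = c • u) :
    c = 1 := by
  by_contra hne
  have hne' : c - 1 ≠ 0 := sub_ne_zero.2 hne
  have h1 : S.B (S.T x w a u) x = S.B u x := by
    rw [Sq.T_apply h, S.B_sub_left, S.B_add_left, S.B_smul_left, S.B_smul_left, h.orth',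
      h.sg.self]
    ring
  rw [hc, S.B_smul_left] at h1
  have h2 : S.B u x = 0 := by
    have : (c - 1) * S.B u x = 0 := by linear_combination h1
    exact (mul_eq_zero.1 this).resolve_left hne'
  have h3 : S.B (S.T x w a u) w = S.B u w := by
    rw [Sq.T_apply h, S.B_sub_left, S.B_add_left, S.B_smul_left, S.B_smul_left, h.orth, h2]
    ring
  rw [hc, S.B_smul_left] at h3
  have h4 : S.B u w = 0 := by
    have : (c - 1) * S.B u w = 0 := by linear_combination h3
    exact (mul_eq_zero.1 this).resolve_left hne'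
  rw [Sq.T_apply h, h2, h4] at hc
  apply hu
  have h5 : (c - 1) • u = 0 := by
    rw [sub_smul, one_smul, ← hc]
    simp
  exact (smul_eq_zero.1 h5).resolve_left hne'

theorem T_x {x w : V} {a : K} (h : S.Adm x w a) : S.T x w a x = x := by
  rw [Sq.T_apply h, h.sg.self, h.orth]
  simp

/-- if a conjugate of `T x w a` is `c` times `T x' w' a'` then `c = 1`. -/
theorem T_scal {x w x' w' : V} {a a' c : K} (h : S.Adm x w a) (h' : S.Adm x' w' a')
    (hx' : x' ≠ 0) (g : V ≃ₗ[K] V)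
    (hg : ∀ v, g (S.T x w a (g⁻¹ v)) = c • S.T x' w' a' v) : c = 1 := by
  have h1 := hg x'
  rw [T_x h'] at h1
  have h0 : ∀ v, g⁻¹ (g v) = v := fun v => by
    rw [← LinearEquiv.mul_apply, inv_mul_cancel, LinearEquiv.coe_one, id_eq]
  refine T_eig h (u := g⁻¹ x') ?_ ?_
  · intro h2
    apply hx'
    have := congrArg g h2
    rwa [map_zero, ← LinearEquiv.mul_apply, mul_inv_cancel, LinearEquiv.coe_one, id_eq] at this
  · have h2 := congrArg (g⁻¹ : V ≃ₗ[K] V) h1
    rwa [h0, map_smul] at h2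

/-- `g = 1` version. -/
theorem T_scal' {x w x' w' : V} {a a' c : K} (h : S.Adm x w a) (h' : S.Adm x' w' a')
    (hx' : x' ≠ 0) (hg : ∀ v, S.T x w a v = c • S.T x' w' a' v) : c = 1 := by
  refine T_scal h h' hx' 1 fun v => ?_
  rw [inv_one]
  exact hg v

/-- the part of `w` in `K x` is irrelevant. -/
theorem T_shift {x w : V} {a c : K} (h : S.Adm x (w + c • x) a) :
    S.Adm x w (a + F.σ c - F.ε * c) ∧ S.T x (w + c • x) a = S.T x w (a + F.σ c - F.ε * c) := by
  have h0 : S.B x w = 0 := by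
    have := h.orth
    rwa [S.B_add_right, S.B_smul_right, h.sg.self, mul_zero, add_zero] at this
  have h1 : S.Adm x w (a + F.σ c - F.ε * c) := by
    refine ⟨h.sg, h0, ?_⟩
    have h2 := S.q_add w (c • x)
    rw [S.B_smul_right, S.B_eq_zero_swap h0, mul_zero, add_zero] at h2
    have h3 := F.Λ.add_mem h2 (h.sg.smul c)
    have h4 := F.tr (F.σ c)
    rw [F.inv] at h4
    have h5 := F.Λ.add_mem (F.Λ.add_mem h.par h3) h4
    have h6 : a + F.σ c - F.ε * c - S.q w = a - S.q (w + c • x) +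
        (S.q (w + c • x) - (S.q w + S.q (c • x)) + S.q (c • x)) + (F.σ c - F.ε * c) := by ring
    rw [h6]
    exact h5
  refine ⟨h1, LinearEquiv.ext fun v => ?_⟩
  rw [Sq.T_apply h, Sq.T_apply h1, S.B_add_right, S.B_smul_right, smul_add, smul_smul]
  have h7 : ∀ t : K, F.ε * (F.ε * t) = t := fun t => by rw [← mul_assoc, F.ee, one_mul]
  have h8 : (F.ε * (S.B v w + (a + F.σ c - F.ε * c) * S.B v x)) =
      (F.ε * (S.B v w + F.σ c * S.B v x + a * S.B v x)) - S.B v x * c := by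
    linear_combination (-(c * S.B v x)) * F.ee
  rw [h8]
  module

theorem Wp_swap (x y : V) : Wp S x y = Wp S y x := by
  ext v
  exact and_comm

theorem mem_Wp {x y v : V} : v ∈ Wp S x y ↔ S.B v x = 0 ∧ S.B v y = 0 := Iff.rfl

/-- uniqueness of `w` and `a` for `w ∈ Wp`. -/
theorem T_uniq {x y w w' : V} {a a' : K} (hxy : S.B x y ≠ 0) (hw : w ∈ Wp S x y)
    (hw' : w' ∈ Wp S x y) (h : S.Adm x w a) (h' : S.Adm x w' a')
    (hT : S.T x w a = S.T x w' a') : w = w' ∧ a = a' := by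
  have hyx : S.B y x ≠ 0 := fun h0 => hxy (S.B_eq_zero_swap h0)
  have h1 := congrArg (fun g : V ≃ₗ[K] V => g y) hT
  simp only [Sq.T_apply h, Sq.T_apply h', S.B_eq_zero_swap hw.2, S.B_eq_zero_swap hw'.2,
    zero_add] at h1
  have h2 := congrArg (fun v => S.B v y) h1
  simp only [S.B_sub_left, S.B_add_left, S.B_smul_left, hw.2, hw'.2] at h2
  have h3 : (F.ε * S.B y x * S.B x y) * (a - a') = 0 := by linear_combination -h2
  have h4 : a = a' := by
    rcases mul_eq_zero.1 h3 with h5 | h5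
    · exact absurd h5 (mul_ne_zero (mul_ne_zero F.e0 hyx) hxy)
    · exact sub_eq_zero.1 h5
  refine ⟨?_, h4⟩
  subst h4
  have h6 : S.B y x • w = S.B y x • w' := by
    have := sub_left_injective h1
    exact add_left_cancel this
  exact smul_right_injective V hyx h6

/-- the decomposition of `x^⊥`. -/
theorem orth_dec {x y v : V} (hx : S.Sg x) (hxy : S.B x y ≠ 0) (hv : S.B v x = 0) :
    ∃ w ∈ Wp S x y, ∃ c : K, v = w + c • x := by
  refine ⟨v - (S.B v y * (S.B x y)⁻¹) • x, ⟨?_, ?_⟩, S.B v y * (S.B x y)⁻¹, by module⟩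
  · rw [S.B_sub_left, S.B_smul_left, hx.self, hv, mul_zero, sub_zero]
  · rw [S.B_sub_left, S.B_smul_left, mul_assoc, inv_mul_cancel₀ hxy, mul_one, sub_self]

theorem ne_of_B {x y : V} (hxy : S.B x y ≠ 0) : x ≠ 0 ∧ y ≠ 0 :=
  ⟨fun h => hxy (by rw [h, S.B_zero_left]), fun h => hxy (by rw [h, S.B_zero_right])⟩

/-- isometries which preserve `K x` and `K y` preserve `Wp`. -/
theorem Wp_map {x y w : V} {g : V ≃ₗ[K] V} (hg : g ∈ S.Iso) (hx : x ≠ 0) (hy : y ≠ 0)
    (hgx : ∃ c : K, g x = c • x) (hgy : ∃ c : K, g y = c • y) (hw : w ∈ Wp S x y) :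
    g w ∈ Wp S x y := by
  have key : ∀ z : V, z ≠ 0 → (∃ c : K, g z = c • z) → S.B w z = 0 → S.B (g w) z = 0 := by
    rintro z hz ⟨c, hc⟩ h0
    have hc0 : c ≠ 0 := by
      intro h1
      rw [h1, zero_smul] at hc
      exact hz ((LinearEquiv.map_eq_zero_iff g).1 hc)
    have h2 : S.B (g w) (g z) = 0 := by rw [hg.1, h0]
    rw [hc, S.B_smul_right] at h2
    exact (mul_eq_zero.1 h2).resolve_left fun h3 => hc0 ((map_eq_zero _).1 h3)
  exact ⟨key x hx hgx hw.1, key y hy hgy hw.2⟩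

/-- `T x w 0 = T w (-ε x) 0`. -/
theorem T_sw {x w : V} (hx : S.Sg x) (hw : S.Sg w) (h : S.B x w = 0) :
    S.T x w 0 = S.T w (-(F.ε • x)) 0 := by
  have h1 : S.Adm x w 0 := ⟨hx, h, by
    rw [zero_sub]
    exact F.Λ.neg_mem hw⟩
  have h2 : S.Adm w (-(F.ε • x)) 0 := ⟨hw, by
    rw [S.B_neg_right, S.B_smul_right, S.B_eq_zero_swap h, mul_zero, neg_zero], by
    rw [zero_sub, S.q_neg]
    exact F.Λ.neg_mem (hx.smul _)⟩
  refine LinearEquiv.ext fun v => ?_
  rw [Sq.T_apply h1, Sq.T_apply h2, S.B_neg_right, S.B_smul_right, F.se]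
  have h3 : F.ε * (-(F.ε * S.B v x) + 0 * S.B v w) = -S.B v x := by
    linear_combination (-S.B v x) * F.ee
  rw [h3]
  module

/-- `z = T x w a` with `w ∈ Wp` (the general element of `N_x`). -/
theorem T_red {x y w : V} {a : K} (hxy : S.B x y ≠ 0) (h : S.Adm x w a) :
    ∃ w' ∈ Wp S x y, ∃ a' : K, S.Adm x w' a' ∧ S.T x w a = S.T x w' a' := by
  obtain ⟨w', hw', c, hc⟩ := orth_dec h.sg hxy h.orth'
  subst hc
  exact ⟨w', hw', _, (T_shift h).1, (T_shift h).2⟩

/-- `g T x w a g⁻¹` for `g x = c x`. -/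
theorem T_conj_line {x w : V} {a c : K} (h : S.Adm x w a) {g : V ≃ₗ[K] V} (hg : g ∈ S.Iso)
    (hc : g x = c • x) (hc0 : c ≠ 0) :
    S.Adm x (F.σ c • g w) (c * F.σ c * a) ∧
      g * S.T x w a * g⁻¹ = S.T x (F.σ c • g w) (c * F.σ c * a) := by
  have h1 := h.map hg
  rw [hc] at h1
  have h2 : S.B x (g w) = 0 := by
    have := h1.orth
    rw [S.B_smul_left] at this
    exact (mul_eq_zero.1 this).resolve_left hc0
  refine ⟨h1.smul h.sg h2, ?_⟩
  rw [Sq.T_conj h hg, hc, Sq.T_smul h1 h.sg h2]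

end space

section std

variable {K : Type} [Field K] {F : FD K} {V₀ : Type} [AddCommGroup V₀] [Module K V₀]
  {S₀ : Sq F V₀} {m : ℕ}

/-- the standard space is non-degenerate. -/
theorem std_nd (h : S₀.Nd) (m : ℕ) : (S₀.std m).Nd := by
  intro x hx
  by_contra hne
  obtain ⟨v, hv⟩ := TXCM.exists_B_ne h hne
  first
    | exact hv (hx v)
    | exact hv (Sq.B_eq_zero_swap _ (hx v))

theorem finrank_std [Module.Finite K V₀] :
    Module.finrank K (SV K V₀ m) = 2 * m + Module.finrank K V₀ := by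
  rw [Module.finrank_prod, Module.finrank_prod, Module.finrank_fin_fun]
  ring

variable {P : Type u} [Group P] {π : (S₀.std m).D ⊤ →* P} {e : P ≃* P}
  {g g' g'' h h' : SV K V₀ m ≃ₗ[K] SV K V₀ m}

theorem Mp.mul (h1 : Mp π e g g') (h2 : Mp π e h h') : Mp π e (g * h) (g' * h') := by
  obtain ⟨a1, a2, a3⟩ := h1
  obtain ⟨b1, b2, b3⟩ := h2
  refine ⟨Subgroup.mul_mem _ a1 b1, Subgroup.mul_mem _ a2 b2, ?_⟩
  have h5 : (⟨g * h, Subgroup.mul_mem _ a1 b1⟩ : (S₀.std m).D ⊤) = ⟨g, a1⟩ * ⟨h, b1⟩ := rfl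
  have h6 : (⟨g' * h', Subgroup.mul_mem _ a2 b2⟩ : (S₀.std m).D ⊤) = ⟨g', a2⟩ * ⟨h', b2⟩ := rfl
  rw [h5, h6, map_mul, map_mul, map_mul, a3, b3]

theorem Mp.inv (h1 : Mp π e g g') : Mp π e g⁻¹ g'⁻¹ := by
  obtain ⟨a1, a2, a3⟩ := h1
  refine ⟨Subgroup.inv_mem _ a1, Subgroup.inv_mem _ a2, ?_⟩
  have h5 : (⟨g⁻¹, Subgroup.inv_mem _ a1⟩ : (S₀.std m).D ⊤) = ⟨g, a1⟩⁻¹ := rfl
  have h6 : (⟨g'⁻¹, Subgroup.inv_mem _ a2⟩ : (S₀.std m).D ⊤) = ⟨g', a2⟩⁻¹ := rfl
  rw [h5, h6, map_inv, map_inv, map_inv, a3]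

theorem Mp.symm (h1 : Mp π e g g') : Mp π e.symm g' g := by
  obtain ⟨a1, a2, a3⟩ := h1
  exact ⟨a2, a1, by rw [← a3, MulEquiv.symm_apply_apply]⟩

theorem Mp.ex (hπ : Ker π) (e : P ≃* P) (hg : g ∈ (S₀.std m).D ⊤) : ∃ g', Mp π e g g' := by
  obtain ⟨g', hg'⟩ := hπ.1 (e (π ⟨g, hg⟩))
  exact ⟨g'.1, hg, g'.2, hg'.symm⟩

theorem Mp.uniq (hπ : Ker π) (h1 : Mp π e g g') (h2 : Mp π e g g'') :
    ∃ c : K, ∀ v, g'' v = c • g' v := by
  obtain ⟨a1, a2, a3⟩ := h1
  obtain ⟨b1, b2, b3⟩ := h2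
  have h3 : π (⟨g', a2⟩⁻¹ * ⟨g'', b2⟩) = 1 := by
    rw [map_mul, map_inv, ← a3, ← b3, inv_mul_cancel]
  obtain ⟨c, hc⟩ := (hπ.2 _).1 h3
  refine ⟨c, fun v => ?_⟩
  have h4 : g'⁻¹ (g'' v) = c • v := hc v
  have h5 := congrArg g' h4
  rwa [← LinearEquiv.mul_apply, mul_inv_cancel, LinearEquiv.coe_one, id_eq, map_smul] at h5

theorem Mp.one : Mp π e 1 1 := (FxG π e).one_mem

/-- two images of the form `T x w a`, `T x' w' a'` are equal. -/
theorem Mp.uniqT (hπ : Ker π) {x w x' w' : SV K V₀ m} {a a' : K}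
    (hA : (S₀.std m).Adm x w a) (hA' : (S₀.std m).Adm x' w' a') (hx' : x' ≠ 0)
    (h1 : Mp π e g ((S₀.std m).T x' w' a')) (h2 : Mp π e g ((S₀.std m).T x w a)) :
    (S₀.std m).T x w a = (S₀.std m).T x' w' a' := by
  obtain ⟨c, hc⟩ := Mp.uniq hπ h1 h2
  have := T_scal' hA hA' hx' hc
  refine LinearEquiv.ext fun v => ?_
  rw [hc, this, one_smul]

end std

section fin

variable {K : Type} [Field K] {F : FD K} {V₀ : Type} [AddCommGroup V₀] [Module K V₀]
  {S₀ : Sq F V₀} {m : ℕ}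

theorem finite_V (h : Cls S₀ m) : Finite (SV K V₀ m) := by
  have := h.finK
  have := h.finV
  have : Finite V₀ := Module.finite_of_finite K
  infer_instance

theorem finite_GL (h : Cls S₀ m) : Finite (SV K V₀ m ≃ₗ[K] SV K V₀ m) := by
  have := finite_V h
  exact Finite.of_injective (fun g : SV K V₀ m ≃ₗ[K] SV K V₀ m => (g : SV K V₀ m → SV K V₀ m))
    DFunLike.coe_injective

end fin

end LibM

end Pool.Agent.Lib.MP66ef6b.CL
end

section
set_option autoImplicit false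

/-!
# MP_66ef6b_al, THEOREM L2: module IN1 (the isometry for a pair `x, y`)
-/

namespace Pool.Agent.Lib.MP66ef6b.CL

universe u

open LibM

namespace IN1M

section space

variable {K : Type} [Field K] {F : FD K} {V : Type} [AddCommGroup V] [Module K V] {S : Sq F V}

/-- the projection on `⟨x, y⟩^⊥`. -/
def pr (S : Sq F V) (x y : V) : V →ₗ[K] V where
  toFun v := v - ((S.B v y * (S.B x y)⁻¹) • x + (S.B v x * (S.B y x)⁻¹) • y)
  map_add' u v := by
    simp only [S.B_add_left]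
    module
  map_smul' c v := by
    simp only [S.B_smul_left, RingHom.id_apply]
    module

theorem pr_apply (x y v : V) :
    pr S x y v = v - ((S.B v y * (S.B x y)⁻¹) • x + (S.B v x * (S.B y x)⁻¹) • y) := rfl

theorem pr_mem {x y : V} (hx : S.Sg x) (hy : S.Sg y) (hxy : S.B x y ≠ 0) (v : V) :
    pr S x y v ∈ Wp S x y := by
  have hyx : S.B y x ≠ 0 := fun h0 => hxy (S.B_eq_zero_swap h0)
  constructor
  · rw [pr_apply, S.B_sub_left, S.B_add_left, S.B_smul_left, S.B_smul_left, hx.self, mul_assoc,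
      mul_assoc, inv_mul_cancel₀ hyx]
    ring
  · rw [pr_apply, S.B_sub_left, S.B_add_left, S.B_smul_left, S.B_smul_left, hy.self, mul_assoc,
      mul_assoc, inv_mul_cancel₀ hxy]
    ring

theorem pr_of_mem {x y w : V} (hw : w ∈ Wp S x y) : pr S x y w = w := by
  rw [pr_apply, hw.1, hw.2]
  simp

theorem pr_x {x y : V} (hx : S.Sg x) (hxy : S.B x y ≠ 0) : pr S x y x = 0 := by
  rw [pr_apply, hx.self, mul_inv_cancel₀ hxy]
  simp

theorem pr_y {x y : V} (hy : S.Sg y) (hxy : S.B x y ≠ 0) : pr S x y y = 0 := by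
  have hyx : S.B y x ≠ 0 := fun h0 => hxy (S.B_eq_zero_swap h0)
  rw [pr_apply, hy.self, mul_inv_cancel₀ hyx]
  simp

theorem B_u_W {x y : V} (v w : V) (hw : w ∈ Wp S x y) : S.B (v - pr S x y v) w = 0 := by
  rw [pr_apply, sub_sub_cancel, S.B_add_left, S.B_smul_left, S.B_smul_left,
    S.B_eq_zero_swap hw.1, S.B_eq_zero_swap hw.2]
  ring

/-- the isometry defined by an isometry of `⟨x, y⟩^⊥`. -/
theorem exA [Module.Finite K V] {x y : V} (hx : S.Sg x) (hy : S.Sg y) (hxy : S.B x y ≠ 0)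
    (θ : V → V) (hW : ∀ w ∈ Wp S x y, θ w ∈ Wp S x y)
    (hadd : ∀ u ∈ Wp S x y, ∀ v ∈ Wp S x y, θ (u + v) = θ u + θ v)
    (hinj : ∀ w ∈ Wp S x y, θ w = 0 → w = 0)
    (hsm : ∀ (c : K), ∀ w ∈ Wp S x y, θ (c • w) = c • θ w)
    (hB : ∀ v ∈ Wp S x y, ∀ w ∈ Wp S x y, S.B (θ v) (θ w) = S.B v w)
    (hq : ∀ v ∈ Wp S x y, S.q (θ v) - S.q v ∈ F.Λ) :
    ∃ A ∈ S.Iso, A x = x ∧ A y = y ∧ ∀ w ∈ Wp S x y, A w = θ w := by
  have h0 : θ 0 = 0 := by
    have h := hadd 0 (Wp S x y).zero_mem 0 (Wp S x y).zero_mem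
    rw [add_zero] at h
    exact left_eq_add.1 h
  have hm : ∀ v, pr S x y v ∈ Wp S x y := pr_mem hx hy hxy
  let f : V →ₗ[K] V :=
    { toFun := fun v => (v - pr S x y v) + θ (pr S x y v)
      map_add' := fun u v => by
        rw [map_add, hadd _ (hm _) _ (hm _)]
        abel
      map_smul' := fun c v => by
        rw [map_smul, hsm _ _ (hm _), RingHom.id_apply, smul_add, smul_sub] }
  have hf : ∀ v, f v = (v - pr S x y v) + θ (pr S x y v) := fun _ => rfl
  have hfB : ∀ v w, S.B (f v) (f w) = S.B v w := by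
    intro v w
    have h1 : S.B v w = S.B ((v - pr S x y v) + pr S x y v) ((w - pr S x y w) + pr S x y w) := by
      rw [sub_add_cancel, sub_add_cancel]
    rw [h1, hf, hf]
    simp only [S.B_add_left, S.B_add_right]
    rw [B_u_W v _ (hW _ (hm w)), B_u_W v _ (hm w), hB _ (hm v) _ (hm w),
      S.B_eq_zero_swap (B_u_W w _ (hW _ (hm v))), S.B_eq_zero_swap (B_u_W w _ (hm v))]
  have hfq : ∀ v, S.q (f v) - S.q v ∈ F.Λ := by
    intro v
    have h1 := S.q_add (v - pr S x y v) (pr S x y v)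
    have h2 := S.q_add (v - pr S x y v) (θ (pr S x y v))
    rw [sub_add_cancel, B_u_W v _ (hm v)] at h1
    rw [B_u_W v _ (hW _ (hm v)), ← hf] at h2
    have h3 := F.Λ.add_mem (F.Λ.sub_mem h2 h1) (hq _ (hm v))
    convert h3 using 1
    ring
  have hfi : Function.Injective f := by
    rw [injective_iff_map_eq_zero]
    intro v hv
    have hvp : v - pr S x y v = 0 := by
      have h1 : S.B (f v) x = S.B (v - pr S x y v) x := by
        rw [hf, S.B_add_left, (hW _ (hm v)).1, add_zero]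
      have h2 : S.B (f v) y = S.B (v - pr S x y v) y := by
        rw [hf, S.B_add_left, (hW _ (hm v)).2, add_zero]
      rw [hv, S.B_zero_left, S.B_sub_left, (hm v).1, sub_zero] at h1
      rw [hv, S.B_zero_left, S.B_sub_left, (hm v).2, sub_zero] at h2
      rw [pr_apply, ← h1, ← h2]
      simp
    rw [hf, hvp, zero_add] at hv
    rw [sub_eq_zero.1 hvp]
    exact hinj _ (hm v) hv
  refine ⟨LinearEquiv.ofInjectiveEndo f hfi, ⟨fun v w => ?_, fun v => ?_⟩, ?_, ?_, ?_⟩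
  · exact hfB v w
  · exact hfq v
  · change f x = x
    rw [hf, pr_x hx hxy, h0, sub_zero, add_zero]
  · change f y = y
    rw [hf, pr_y hy hxy, h0, sub_zero, add_zero]
  · intro w hw
    change f w = θ w
    rw [hf, pr_of_mem hw, sub_self, zero_add]

end space

section std

variable {K : Type} [Field K] {F : FD K} {V₀ : Type} [AddCommGroup V₀] [Module K V₀]
  {S₀ : Sq F V₀} {m : ℕ} {P : Type u} [Group P] {π : (S₀.std m).D ⊤ →* P} {e κ : P ≃* P}
  {A : SV K V₀ m ≃ₗ[K] SV K V₀ m}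

theorem inv_fix {V : Type} [AddCommGroup V] [Module K V] {A : V ≃ₗ[K] V} {x : V}
    (hx : A x = x) : A⁻¹ x = x := by
  have h : A⁻¹ (A x) = x := by
    rw [← LinearEquiv.mul_apply, inv_mul_cancel, LinearEquiv.coe_one, id_eq]
  rwa [hx] at h

theorem apply_inv {V : Type} [AddCommGroup V] [Module K V] (A : V ≃ₗ[K] V) (x : V) :
    A (A⁻¹ x) = x := by
  rw [← LinearEquiv.mul_apply, mul_inv_cancel, LinearEquiv.coe_one, id_eq]

/-- images under `κ⁻¹ e`. -/
theorem mp_trans {g h g' : SV K V₀ m ≃ₗ[K] SV K V₀ m} (h1 : Mp π e g h) (h2 : Mp π κ g' h) :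
    Mp π (e.trans κ.symm) g g' := by
  obtain ⟨a1, a2, a3⟩ := h1
  obtain ⟨b1, b2, b3⟩ := h2
  refine ⟨a1, b1, ?_⟩
  rw [MulEquiv.trans_apply, a3, ← b3, MulEquiv.symm_apply_apply]

theorem mp_untrans {g h g' : SV K V₀ m ≃ₗ[K] SV K V₀ m} (h1 : Mp π (e.trans κ.symm) g g')
    (h2 : Mp π κ g' h) : Mp π e g h := by
  obtain ⟨a1, a2, a3⟩ := h1
  obtain ⟨b1, b2, b3⟩ := h2
  refine ⟨a1, b2, ?_⟩
  rw [MulEquiv.trans_apply] at a3
  rw [← b3, ← a3, MulEquiv.apply_symm_apply]

theorem nst (hA : A ∈ (S₀.std m).Iso) (hκ : ∀ g ∈ (S₀.std m).D ⊤, Mp π κ g (A * g * A⁻¹))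
    {x : SV K V₀ m} (hx : A x = x) (h : Nst π e x) : Nst π (e.trans κ.symm) x := by
  intro w a hw
  obtain ⟨w', a', hw', hM⟩ := h w a hw
  have h1 := hw'.map (inv_mem hA)
  rw [inv_fix hx] at h1
  refine ⟨A⁻¹ w', a', h1, mp_trans hM ?_⟩
  have h2 := hκ _ (Sq.T_mem_G h1)
  rwa [Sq.T_conj h1 hA, hx, apply_inv] at h2

end std

end IN1M

open IN1M in
theorem specIN1 (hTH1 : SpecTH1.{u}) (hTH2 : SpecTH2.{u}) (hISO : SpecISO.{u})
    (hKAP : SpecKAP.{u}) (hE1N : SpecE1N.{u}) (hE1Y : SpecE1Y.{u}) (hGXY : SpecGXY) :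
    SpecIN1.{u} := by
  intro K _ F V₀ _ _ S₀ m hC P _ π e hπ x y hx hy hxy hNx hNy W₀ hW₀ hne hfix
  have := hC.finV
  have hyx : (S₀.std m).B y x ≠ 0 := fun h0 => hxy ((S₀.std m).B_eq_zero_swap h0)
  obtain ⟨⟨θ, hθ⟩, -⟩ := hTH1 K F V₀ S₀ m hC P π e hπ x y hx hy hxy hNx hNy
  have hθW : ∀ w ∈ W₀, θ w = w := by
    intro w hw
    obtain ⟨a, ha, hM⟩ := hfix w hw
    exact (hθ.2.2.2 w (hW₀ hw) a a ha w (hW₀ hw) ha hM).symm
  have hbot : W₀ ≠ ⊥ := by
    rintro rfl
    obtain ⟨v, hv, w, hw, hvw⟩ := hne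
    rw [(Submodule.mem_bot K).1 hv] at hvw
    exact hvw ((S₀.std m).B_zero_left w)
  have hsm := hTH2 K F V₀ S₀ m hC P π e hπ x y hx hy hxy hNx hNy θ hθ W₀ hW₀ hbot hθW
  obtain ⟨hB, hq⟩ := hISO K F V₀ S₀ m hC P π e hπ x y hx hy hxy hNx hNy θ hθ W₀ hW₀ hθW hne
  obtain ⟨A, hA, hAx, hAy, hAw⟩ := exA hx hy hxy θ hθ.1 hθ.2.1 hθ.2.2.1 hsm hB hq
  obtain ⟨κ, hκ⟩ := hKAP K F V₀ S₀ m P π hπ A hA
  have hN1 := nst (e := e) hA hκ hAx hNx
  have hN2 := nst (e := e) hA hκ hAy hNy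
  have hact : Act π (e.trans κ.symm) x y id := by
    refine ⟨fun w hw => hw, fun _ _ _ _ => rfl, fun _ _ h => h, ?_⟩
    intro w hw a a' ha w' hw' ha' hM
    have h1 := hκ _ (Sq.T_mem_G ha')
    rw [Sq.T_conj ha' hA, hAx] at h1
    have h2 := mp_untrans hM h1
    have h3 := ha'.map hA
    rw [hAx] at h3
    have h4 := hθ.2.2.2 w hw a a' ha (A w') (by
      rw [hAw w' hw']
      exact hθ.1 w' hw') h3 h2
    rw [hAw w' hw'] at h4
    have h5 := hθ.2.1 (w' - w) (Submodule.sub_mem _ hw' hw) w hw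
    rw [sub_add_cancel, h4] at h5
    have h6 := hθ.2.2.1 (w' - w) (Submodule.sub_mem _ hw' hw) (right_eq_add.1 h5)
    exact sub_eq_zero.1 h6
  have h1 := hE1N K F V₀ S₀ m hC P π (e.trans κ.symm) hπ x y hx hy hxy hN1 hN2 hact
  have hact' := hE1Y K F V₀ S₀ m hC P π (e.trans κ.symm) hπ x y hx hy hxy hN1 hN2 hact
  have h2 := hE1N K F V₀ S₀ m hC P π (e.trans κ.symm) hπ y x hy hx hyx hN2 hN1 hact'
  have h3 := hGXY K F V₀ S₀ m hC.rk hC.nd x y hx hy hxy (FxG π (e.trans κ.symm)) h1 h2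
  refine ⟨A, hA, ?_, hAx, hAy, ?_⟩
  · intro w hw
    rw [hAw w (hW₀ hw), hθW w hw]
  · intro g hg
    exact mp_untrans (h3 hg) (hκ g hg)

end Pool.Agent.Lib.MP66ef6b.CL
end

section
set_option autoImplicit false

/-!
# MP_66ef6b_al, THEOREM L2 (helper14): module IN2 (helper52). Automorphisms induced by `z ∈ Y`.
-/

namespace Pool.Agent.Lib.MP66ef6b.CL

universe u

namespace IN2M

variable {K : Type} [Field K] {F : FD K} {V₀ : Type} [AddCommGroup V₀] [Module K V₀]
  {S₀ : Sq F V₀} {m : ℕ}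

/-- the fixed subgroup of the conjugation by `z` is the preimage of the centraliser. -/
theorem fx_eq {Y : Type u} [Group Y] {P : Subgroup Y} [P.Normal] (π : (S₀.std m).D ⊤ →* P)
    (z : Y) : (FxG π (MulAut.conjNormal z)).subgroupOf ((S₀.std m).D ⊤) =
      ((Subgroup.centralizer ({z} : Set Y)).subgroupOf P).comap π := by
  ext g
  rw [Subgroup.mem_subgroupOf, Subgroup.mem_comap, Subgroup.mem_subgroupOf,
    Subgroup.mem_centralizer_singleton_iff]
  constructor
  · rintro ⟨h, h1, h2⟩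
    have h3 := congrArg (Subtype.val) h2
    rw [MulAut.conjNormal_apply] at h3
    exact eq_comm.1 (mul_inv_eq_iff_eq_mul.1 h3)
  · intro h
    refine ⟨g.2, g.2, ?_⟩
    apply Subtype.ext
    rw [MulAut.conjNormal_apply]
    exact mul_inv_eq_iff_eq_mul.2 (eq_comm.1 h)

end IN2M

theorem specIN2 (hINN : SpecINN.{u}) : SpecIN2.{u} := by
  intro q₀ r
  obtain ⟨N, d, hN⟩ := hINN q₀ r
  refine ⟨N, d, ?_⟩
  intro K _ F V₀ _ _ S₀ m hcls hq hm Y _ P π hP hπ z hz
  have := hP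
  have hidx : (FxG π (MulAut.conjNormal z)).relIndex ((S₀.std m).D ⊤) ≤ q₀ ^ (r * m) := by
    rw [Subgroup.relIndex, IN2M.fx_eq, Subgroup.index_comap_of_surjective _ hπ.1]
    exact hz
  obtain ⟨A, hA, hr, hMp⟩ := hN K F V₀ S₀ m hcls hq hm P π (MulAut.conjNormal z) hπ hidx
  refine ⟨A, ⟨hA, fun g h => ?_⟩, hr⟩
  obtain ⟨h1, h2, h3⟩ := hMp g.1 g.2
  have h4 := congrArg (Subtype.val) h3
  rw [MulAut.conjNormal_apply] at h4
  exact h4

end Pool.Agent.Lib.MP66ef6b.CL
end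

section
set_option autoImplicit false

/-!
# MP_66ef6b_al, THEOREM L2: module INA
-/

namespace Pool.Agent.Lib.MP66ef6b.CL

open Matrix

namespace INAM

section

variable {K : Type} [Field K] {F : FD K} {V₀ : Type} [AddCommGroup V₀] [Module K V₀]
  {S₀ : Sq F V₀} {m : ℕ}

theorem B_ee (i j : Fin m) : (S₀.std m).B (eV K V₀ i) (eV K V₀ j) = 0 := by
  simp only [std_B, eV, single_dotProduct, zero_dotProduct, S₀.B_zero_left, Pi.zero_apply, map_zero,
    mul_zero, add_zero]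

theorem sg_e (i : Fin m) : (S₀.std m).Sg (eV K V₀ i) := by
  have h : (S₀.std m).q (eV K V₀ i) = 0 := by
    simp only [std_q, eV, single_dotProduct, S₀.q_zero, Pi.zero_apply, map_zero, mul_zero, add_zero]
  rw [Sq.Sg, h]
  exact F.Λ.zero_mem

theorem li_ee {i j : Fin m} (hij : i ≠ j) : LinearIndependent K ![eV K V₀ i, eV K V₀ j] := by
  rw [LinearIndependent.pair_iff]
  intro s t hst
  have h1 := congrArg (fun v : SV K V₀ m => v.1 i) hst
  have h2 := congrArg (fun v : SV K V₀ m => v.1 j) hst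
  simp only [eV, Prod.fst_add, Prod.smul_fst, Prod.fst_zero, Pi.add_apply, Pi.smul_apply,
    Pi.zero_apply, Pi.single_eq_same, Pi.single_eq_of_ne hij, Pi.single_eq_of_ne hij.symm,
    smul_eq_mul, mul_one, mul_zero, add_zero, zero_add] at h1 h2
  exact ⟨h1, h2⟩

end

end INAM

open INAM

theorem specINA (hDEN : SpecDEN) (hGOO : SpecGOO) (hNOO : SpecNOO) : SpecINA := by
  intro K _ F V₀ _ _ S₀ m t hC ht1 ht2 C hCle hidx
  have hd := hDEN K F V₀ S₀ m t hC ht1 C hCle hidx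
  have hg := hGOO K F V₀ S₀ m (t + 1) hC C hd
  have hn := hNOO K F V₀ S₀ m (t + 1) (t + 5) hC (by omega) C hg
  refine ⟨?_, hn⟩
  have := hC.finK
  have := hC.finV
  have : Finite V₀ := Module.finite_of_finite K
  have : Finite (SV K V₀ m) := by
    unfold SV
    infer_instance
  have hm := hC.rk
  have h01 : (⟨0, by omega⟩ : Fin m) ≠ ⟨1, by omega⟩ := by
    intro h
    have := congrArg Fin.val h
    simp at this
  have hmem : (eV K V₀ (⟨0, by omega⟩ : Fin m), eV K V₀ (⟨1, by omega⟩ : Fin m)) ∈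
      (S₀.std m).TPs := ⟨sg_e _, sg_e _, B_ee _ _, li_ee h01⟩
  have hpos : 0 < (S₀.std m).TPs.ncard :=
    (Set.ncard_pos (Set.toFinite _)).2 ⟨_, hmem⟩
  by_contra hcon
  have hemp : {τ | τ ∈ (S₀.std m).TPs ∧ (S₀.std m).T τ.1 τ.2 0 ∈ C} = ∅ := by
    rw [Set.eq_empty_iff_forall_notMem]
    rintro τ ⟨h1, h2⟩
    exact hcon ⟨τ, h1, h2⟩
  rw [hemp, Set.ncard_empty, mul_zero] at hd
  omega

end Pool.Agent.Lib.MP66ef6b.CL
end

section
set_option autoImplicit false

/-!
# MP_66ef6b_al, THEOREM L2, module INB: the subspace for a good vector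
-/

namespace Pool.Agent.Lib.MP66ef6b.CL

universe u

namespace INBM

variable {K V : Type} [Field K] [AddCommGroup V] [Module K V] {F : FD K}

/-- the set `Lx` as an additive subgroup. -/
def LG (S : Sq F V) (C : Subgroup (V ≃ₗ[K] V)) (x : V) (hx : S.Sg x) : AddSubgroup V where
  carrier := Lx S C x
  zero_mem' := ⟨0, Sq.Adm.zero hx, by rw [Sq.T_zero]; exact C.one_mem⟩
  add_mem' := by
    rintro w z ⟨a, ha, hT⟩ ⟨b, hb, hT'⟩
    exact ⟨_, ha.add hb, by rw [← Sq.T_mul ha hb]; exact C.mul_mem hT hT'⟩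
  neg_mem' := by
    rintro w ⟨a, ha, hT⟩
    exact ⟨_, ha.inv, by rw [← Sq.T_inv ha]; exact C.inv_mem hT⟩

/-- the linear map `v ↦ B v x`. -/
def bl (S : Sq F V) (x : V) : V →ₗ[K] K where
  toFun v := S.B v x
  map_add' u v := S.B_add_left u v x
  map_smul' c v := S.B_smul_left c v x

end INBM

open INBM in
/-- INB. -/
theorem specINB (hLXK : SpecLXK) : SpecINB := by
  intro K V _ _ _ _ _ F S C s x hG
  obtain ⟨hx, -, hcard⟩ := hG
  haveI : Finite V := Module.finite_of_finite K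
  have h1 : ∀ v ∈ LG S C x hx, v ∈ LinearMap.ker (bl S x) := by
    rintro v ⟨a, ha, -⟩
    exact LinearMap.mem_ker.2 ha.orth'
  have h2 : Nat.card (LinearMap.ker (bl S x)) ≤ Nat.card K ^ s * Nat.card (LG S C x hx) := by
    have h3 : Nat.card (LinearMap.ker (bl S x)) ≤ Nat.card V :=
      Nat.card_le_card_of_injective _ Subtype.val_injective
    have h4 : Nat.card (LG S C x hx) = (Lx S C x).ncard := Nat.card_coe_set_eq _
    rw [h4]
    exact h3.trans hcard
  obtain ⟨W₀, hW, hf⟩ := hLXK K V (LG S C x hx) (LinearMap.ker (bl S x)) s h1 h2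
  refine ⟨W₀, fun w hw => hW w hw, ?_⟩
  have h5 := LinearMap.finrank_range_add_finrank_ker (bl S x)
  have h6 : Module.finrank K (LinearMap.range (bl S x)) ≤ 1 := by
    have := Submodule.finrank_le (LinearMap.range (bl S x))
    rwa [Module.finrank_self] at this
  omega

end Pool.Agent.Lib.MP66ef6b.CL
end

section
set_option autoImplicit false

/-!
# MP_66ef6b_al, THEOREM L2, module INN (helper44): automorphisms with large fixed subgroup
-/

namespace Pool.Agent.Lib.MP66ef6b.CL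

open PL (SLn fx)
open LibM

universe u

namespace INNM

section dim

variable {K V : Type} [Field K] [AddCommGroup V] [Module K V] [Module.Finite K V] {F : FD K}
  {S : Sq F V}

/-- A subspace on which `B` vanishes has at most half the dimension. -/
theorem two_mul_finrank_le (h : S.Nd) (U : Submodule K V)
    (hU : ∀ v ∈ U, ∀ w ∈ U, S.B v w = 0) : 2 * Module.finrank K U ≤ Module.finrank K V := by
  have hli : LinearIndependent K (fun i => ((Module.finBasis K U i : U) : V)) := by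
    have h1 := (Module.finBasis K U).linearIndependent
    exact h1.map' U.subtype (Submodule.ker_subtype U)
  let L : V →ₗ[K] (Fin (Module.finrank K U) → K) :=
    { toFun := fun v i => S.B v ((Module.finBasis K U i : U) : V)
      map_add' := fun v w => by
        funext i
        simp [S.B_add_left]
      map_smul' := fun d v => by
        funext i
        simp [S.B_smul_left] }
  have hL : LinearMap.range L = ⊤ := by
    rw [LinearMap.range_eq_top]
    intro c
    obtain ⟨v, hv⟩ := fnl h _ hli c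
    exact ⟨v, funext hv⟩
  have h1 := LinearMap.finrank_range_add_finrank_ker L
  rw [hL, finrank_top, Module.finrank_fin_fun] at h1
  have h2 : U ≤ LinearMap.ker L := by
    intro v hv
    rw [LinearMap.mem_ker]
    funext i
    exact hU v hv _ (Module.finBasis K U i).2
  have h3 := Submodule.finrank_mono h2
  omega

/-- The intersection with `Wp S x y` has codimension at most two. -/
theorem finrank_inf_Wp (W₀ : Submodule K V) (x y : V) :
    Module.finrank K W₀ ≤ Module.finrank K (W₀ ⊓ Wp S x y : Submodule K V) + 2 := by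
  let L : W₀ →ₗ[K] K × K :=
    { toFun := fun v => (S.B v x, S.B v y)
      map_add' := fun v w => by simp [S.B_add_left]
      map_smul' := fun d v => by simp [S.B_smul_left] }
  have h1 := LinearMap.finrank_range_add_finrank_ker L
  have h2 := Submodule.finrank_le (LinearMap.range L)
  rw [Module.finrank_prod, Module.finrank_self] at h2
  have h3 := Submodule.finrank_map_subtype_eq W₀ (LinearMap.ker L)
  have h4 : (LinearMap.ker L).map W₀.subtype ≤ W₀ ⊓ Wp S x y := by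
    rintro _ ⟨v, hv, rfl⟩
    have h5 : L v = 0 := hv
    have h6 : (S.B (v : V) x, S.B (v : V) y) = ((0 : K), (0 : K)) := h5
    rw [Prod.mk.injEq] at h6
    exact ⟨v.2, h6⟩
  have h5 := Submodule.finrank_mono h4
  omega

/-- The rank of `A - 1` if `A = 1` on `W`. -/
theorem rk_add_finrank_le (A : V ≃ₗ[K] V) (W : Submodule K V) (hA : ∀ w ∈ W, A w = w) :
    rk A + Module.finrank K W ≤ Module.finrank K V := by
  have h1 := LinearMap.finrank_range_add_finrank_ker (A.toLinearMap - LinearMap.id)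
  have h2 : W ≤ LinearMap.ker (A.toLinearMap - LinearMap.id) := by
    intro w hw
    rw [LinearMap.mem_ker, LinearMap.sub_apply, LinearMap.id_apply, LinearEquiv.coe_coe, hA w hw,
      sub_self]
  have h3 := Submodule.finrank_mono h2
  unfold rk
  omega

end dim

/-- The numerical estimate. -/
theorem pow_est {q q₀ r m t I : ℕ} (hq : 2 ≤ q) (ht : 4 * r * q₀ ≤ t) (hm : 4 * (t + 2) ≤ m)
    (hI : I ≤ q₀ ^ (r * m)) : I ^ 2 ≤ q ^ ((m - 2 * (t + 2)) * t) := by
  have h1 : m ≤ 2 * (m - 2 * (t + 2)) := by omega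
  have h2 : q₀ * (r * m * 2) ≤ (m - 2 * (t + 2)) * t := by
    calc q₀ * (r * m * 2) = m * (2 * r * q₀) := by ring
      _ ≤ 2 * (m - 2 * (t + 2)) * (2 * r * q₀) := Nat.mul_le_mul_right _ h1
      _ = (m - 2 * (t + 2)) * (4 * r * q₀) := by ring
      _ ≤ (m - 2 * (t + 2)) * t := Nat.mul_le_mul_left _ ht
  calc I ^ 2 ≤ (q₀ ^ (r * m)) ^ 2 := Nat.pow_le_pow_left hI 2
    _ = q₀ ^ (r * m * 2) := by rw [← pow_mul]
    _ ≤ (2 ^ q₀) ^ (r * m * 2) := Nat.pow_le_pow_left (Nat.lt_two_pow_self).le _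
    _ = 2 ^ (q₀ * (r * m * 2)) := by rw [← pow_mul]
    _ ≤ 2 ^ ((m - 2 * (t + 2)) * t) := Nat.pow_le_pow_right (by norm_num) h2
    _ ≤ q ^ ((m - 2 * (t + 2)) * t) := Nat.pow_le_pow_left hq _

end INNM

open INNM in
theorem specINN (hA : SpecINA) (hB : SpecINB) (h0 : SpecCL0.{u}) (hX : SpecNXX.{u})
    (h1 : SpecIN1.{u}) : SpecINN.{u} := by
  intro q₀ r
  obtain ⟨t, ht⟩ : ∃ t, t = 4 * r * q₀ := ⟨_, rfl⟩
  refine ⟨(t + 5) * q₀ + 4 * (t + 2) + 10, (t + 5) * q₀ + 3, ?_⟩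
  intro K _ F V₀ _ _ S₀ m hCls hq hm P _ π e hπ hidx
  have := hCls.finK
  have := hCls.finV
  have hnd : (S₀.std m).Nd := std_nd hCls.nd m
  have hCle : FxG π e ≤ (S₀.std m).D ⊤ := by
    rintro g ⟨hg, -, -⟩
    exact hg
  have hq2 : 2 ≤ Nat.card K := Finite.one_lt_card
  have hest := pow_est hq2 ht.ge (show 4 * (t + 2) ≤ m by omega) hidx
  obtain ⟨hτ, x, y, hx, hy, hxy⟩ := hA K F V₀ S₀ m t hCls (by omega) (by omega) (FxG π e) hCle hest
  have hcl := h0 K F V₀ S₀ m hCls.rk hCls.nd P π e hπ hτ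
  obtain ⟨Wx, hWx, hWxd⟩ := hB K (SV K V₀ m) F (S₀.std m) (FxG π e) (t + 5) x hx
  obtain ⟨Wy, hWy, hWyd⟩ := hB K (SV K V₀ m) F (S₀.std m) (FxG π e) (t + 5) y hy
  have hn : 2 * m ≤ Module.finrank K (SV K V₀ m) := by
    rw [finrank_std]
    omega
  have hqq : (t + 5) * Nat.card K ≤ (t + 5) * q₀ := Nat.mul_le_mul_left _ hq.le
  have hNx : Nst π e x := hX K F V₀ S₀ m hCls (by omega) P π e hπ x hx.1 hx.2.1 Wx (by omega) hWx
    hcl
  have hNy : Nst π e y := hX K F V₀ S₀ m hCls (by omega) P π e hπ y hy.1 hy.2.1 Wy (by omega) hWy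
    hcl
  have hB0 : (S₀.std m).B x y ≠ 0 := by
    rw [hxy]
    exact one_ne_zero
  have hdim := finrank_inf_Wp (S := S₀.std m) Wx x y
  obtain ⟨A, hA1, hA2, -, -, hA3⟩ := h1 K F V₀ S₀ m hCls P π e hπ x y hx.1 hy.1 hB0 hNx hNy
    (Wx ⊓ Wp (S₀.std m) x y) inf_le_right (by
      by_contra hcon
      push Not at hcon
      have := two_mul_finrank_le hnd (Wx ⊓ Wp (S₀.std m) x y) hcon
      omega) (fun w hw => hWx w hw.1)
  refine ⟨A, hA1, ?_, hA3⟩
  have := rk_add_finrank_le A _ hA2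
  omega

end Pool.Agent.Lib.MP66ef6b.CL
end

section
set_option autoImplicit false

/-!
# MP_66ef6b_al, THEOREM L2, module INV: invariant sesquilinear forms
-/

namespace Pool.Agent.Lib.MP66ef6b.CL

universe u

namespace INVM

section space

variable {K : Type} [Field K] {F : FD K} {V : Type} [AddCommGroup V] [Module K V] {S : Sq F V}

theorem T_mem {W : Submodule K V} {x w : V} {a : K} (hx : x ∈ W) (hw : w ∈ W) (h : S.Adm x w a)
    {v : V} (hv : v ∈ W) : S.T x w a v ∈ W := by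
  rw [Sq.T_apply h]
  exact W.sub_mem (W.add_mem hv (W.smul_mem _ hw)) (W.smul_mem _ hx)

/-- the group `D W` preserves `W`. -/
theorem D_mem {W : Submodule K V} {g : V ≃ₗ[K] V} (hg : g ∈ S.D W) :
    (∀ v ∈ W, g v ∈ W) ∧ ∀ v ∈ W, g⁻¹ v ∈ W := by
  induction hg using Subgroup.closure_induction with
  | mem g hg =>
    obtain ⟨x, hx, w, hw, a, h, rfl⟩ := hg
    refine ⟨fun v hv => T_mem hx hw h hv, fun v hv => ?_⟩
    rw [Sq.T_inv h]
    exact T_mem hx (W.neg_mem hw) h.inv hv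
  | one =>
    refine ⟨fun v hv => hv, fun v hv => ?_⟩
    rw [inv_one]
    exact hv
  | mul g h _ _ ihg ihh =>
    refine ⟨fun v hv => ?_, fun v hv => ?_⟩
    · rw [LinearEquiv.mul_apply]
      exact ihg.1 _ (ihh.1 _ hv)
    · rw [mul_inv_rev, LinearEquiv.mul_apply]
      exact ihh.2 _ (ihg.2 _ hv)
  | inv g _ ih =>
    refine ⟨ih.2, fun v hv => ?_⟩
    rw [inv_inv]
    exact ih.1 v hv

theorem B_sum_right {ι : Type} (s : Finset ι) (v : V) (u : ι → V) :
    S.B v (∑ i ∈ s, u i) = ∑ i ∈ s, S.B v (u i) := by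
  classical
  induction s using Finset.induction_on with
  | empty => simp [S.B_zero_right]
  | insert a s ha ih => rw [Finset.sum_insert ha, Finset.sum_insert ha, S.B_add_right, ih]

/-- representation of semilinear functionals on a non-degenerate subspace. -/
theorem repr [Module.Finite K V] (W : Submodule K V)
    (hnd : ∀ w ∈ W, w ≠ 0 → ∃ u ∈ W, S.B w u ≠ 0) (f : V → K)
    (hadd : ∀ u ∈ W, ∀ v ∈ W, f (u + v) = f u + f v)
    (hsmul : ∀ (c : K), ∀ v ∈ W, f (c • v) = F.σ c * f v) :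
    ∃ z ∈ W, ∀ w ∈ W, S.B z w = f w := by
  classical
  let b := Module.finBasis K W
  let L : W →ₗ[K] (Fin (Module.finrank K W) → K) :=
    { toFun := fun v i => S.B (v : V) (b i : V)
      map_add' := fun v w => by
        funext i
        simp [S.B_add_left]
      map_smul' := fun d v => by
        funext i
        simp [S.B_smul_left] }
  have hdec : ∀ w : W, (w : V) = ∑ i, (b.repr w i) • (b i : V) := by
    intro w
    have h1 : ((∑ i, b.repr w i • b i : W) : V) = (w : V) := congrArg Subtype.val (b.sum_repr w)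
    rw [← h1, AddSubmonoidClass.coe_finsetSum]
    rfl
  have hL : Function.Injective L := by
    rw [injective_iff_map_eq_zero]
    intro v hv
    by_contra hne
    obtain ⟨u, hu, hB⟩ := hnd v v.2 (fun h => hne (Subtype.ext h))
    apply hB
    rw [show u = ((⟨u, hu⟩ : W) : V) from rfl, hdec ⟨u, hu⟩, B_sum_right]
    refine Finset.sum_eq_zero (fun i _ => ?_)
    have h2 : S.B (v : V) (b i : V) = 0 := congrFun hv i
    rw [S.B_smul_right, h2, mul_zero]
  have hLs : Function.Surjective L := by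
    rw [← LinearMap.injective_iff_surjective_of_finrank_eq_finrank]
    · exact hL
    · rw [Module.finrank_fin_fun]
  obtain ⟨z, hz⟩ := hLs (fun i => f (b i))
  have hfsum : ∀ (s : Finset (Fin (Module.finrank K W))) (a : Fin (Module.finrank K W) → K),
      f (∑ i ∈ s, a i • (b i : V)) = ∑ i ∈ s, F.σ (a i) * f (b i) := by
    intro s a
    induction s using Finset.induction_on with
    | empty =>
      rw [Finset.sum_empty, Finset.sum_empty]
      have h3 := hsmul 0 0 W.zero_mem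
      rwa [smul_zero, map_zero, zero_mul] at h3
    | insert j s hj ih =>
      rw [Finset.sum_insert hj, Finset.sum_insert hj, hadd _ (W.smul_mem _ (b j).2) _
        (W.sum_mem fun i _ => W.smul_mem _ (b i).2), hsmul _ _ (b j).2, ih]
  refine ⟨z, z.2, fun w hw => ?_⟩
  rw [show w = ((⟨w, hw⟩ : W) : V) from rfl, hdec ⟨w, hw⟩, B_sum_right, hfsum]
  refine Finset.sum_congr rfl (fun i _ => ?_)
  have h2 : S.B (z : V) (b i : V) = f (b i) := congrFun hz i
  rw [S.B_smul_right, h2]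

end space

end INVM

open INVM in
theorem specINV (hCMM : SpecCMM) (hWPS : SpecWPS) : SpecINV := by
  classical
  intro K _ F V₀ _ _ _ S₀ m hm hnd x y hx hy hxy B' hB1 hB2 hB3
  obtain ⟨-, -, -, h4, -⟩ := hWPS K F V₀ S₀ m hm hnd x y hx hy hxy
  obtain ⟨W, hW⟩ : ∃ W, W = Wp (S₀.std m) x y := ⟨_, rfl⟩
  rw [← hW] at hB1 hB2 hB3 h4 ⊢
  have hndW : ∀ w ∈ W, w ≠ 0 → ∃ u ∈ W, (S₀.std m).B w u ≠ 0 := by
    intro w hw hne
    obtain ⟨u, hu, -, hB⟩ := h4 w hw hne
    exact ⟨u, hu, hB⟩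
  have huniq : ∀ z ∈ W, ∀ z' ∈ W, (∀ w ∈ W, (S₀.std m).B z w = (S₀.std m).B z' w) → z = z' := by
    intro z hz z' hz' h
    by_contra hne
    obtain ⟨u, hu, hB⟩ := hndW (z - z') (W.sub_mem hz hz') (sub_ne_zero.2 hne)
    apply hB
    rw [Sq.B_sub_left, h u hu, sub_self]
  have hex : ∀ v : SV K V₀ m, ∃ z : SV K V₀ m, v ∈ W → z ∈ W ∧ ∀ w ∈ W, (S₀.std m).B z w = B' v w := by
    intro v
    by_cases hv : v ∈ W
    · obtain ⟨z, hz, h⟩ := repr W hndW (B' v) (fun u hu w hw => (hB1 v hv u hu w hw).2)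
        (fun c w hw => (hB2 c v hv w hw).2)
      exact ⟨z, fun _ => ⟨hz, h⟩⟩
    · exact ⟨0, fun h => absurd h hv⟩
  choose θ hθ using hex
  obtain ⟨c, hc⟩ := hCMM K F V₀ S₀ m hm hnd x y hx hy hxy θ
    (by
      rw [← hW]
      intro u hu
      exact (hθ u hu).1)
    (by
      rw [← hW]
      intro u hu v hv
      apply huniq _ (hθ _ (W.add_mem hu hv)).1 _ (W.add_mem (hθ u hu).1 (hθ v hv).1)
      intro w hw
      rw [(hθ _ (W.add_mem hu hv)).2 w hw, Sq.B_add_left, (hθ u hu).2 w hw, (hθ v hv).2 w hw]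
      exact (hB1 u hu v hv w hw).1)
    (by
      rw [← hW]
      intro g hg v hv
      obtain ⟨g1, g2⟩ := D_mem hg
      have hgI := Sq.D_le_Iso W hg
      apply huniq _ (hθ _ (g1 v hv)).1 _ (g1 _ (hθ v hv).1)
      intro w hw
      have hgw : g (g⁻¹ w) = w := by
        rw [← LinearEquiv.mul_apply, mul_inv_cancel, LinearEquiv.coe_one, id_eq]
      rw [(hθ _ (g1 v hv)).2 w hw]
      have e1 : B' (g v) w = B' v (g⁻¹ w) := by
        have h5 := hB3 g hg v hv (g⁻¹ w) (g2 w hw)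
        rwa [hgw] at h5
      have e2 : (S₀.std m).B (g (θ v)) w = (S₀.std m).B (θ v) (g⁻¹ w) := by
        have h5 := hgI.1 (θ v) (g⁻¹ w)
        rwa [hgw] at h5
      rw [e1, e2, (hθ v hv).2 _ (g2 w hw)])
  rw [← hW] at hc
  refine ⟨c, fun v hv w hw => ?_⟩
  rw [← (hθ v hv).2 w hw, hc v hv, Sq.B_smul_left]

end Pool.Agent.Lib.MP66ef6b.CL
end

section
set_option autoImplicit false

/-!
# MP_66ef6b_al, THEOREM L2: module ISO, `θ` is an isometry
-/

namespace Pool.Agent.Lib.MP66ef6b.CL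

universe u

namespace ISOM

section gen

variable {K : Type} [Field K] {F : FD K} {V : Type} [AddCommGroup V] [Module K V] {S : Sq F V}

theorem pow_ex {u w : V} {a : K} (h : S.Adm u w a) (k : ℕ) :
    ∃ c : K, S.Adm u ((k : K) • w) c ∧ (S.T u w a) ^ k = S.T u ((k : K) • w) c := by
  induction k with
  | zero =>
    refine ⟨0, ?_, ?_⟩
    · rw [Nat.cast_zero, zero_smul]
      exact Sq.Adm.zero h.sg
    · rw [pow_zero, Nat.cast_zero, zero_smul, Sq.T_zero]
  | succ k ih =>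
    obtain ⟨c, hc, hc2⟩ := ih
    have h1 : ((k + 1 : ℕ) : K) • w = (k : K) • w + w := by
      rw [Nat.cast_succ, add_smul, one_smul]
    refine ⟨c + a + S.B w ((k : K) • w), ?_, ?_⟩
    · rw [h1]
      exact hc.add h
    · rw [h1, pow_succ, hc2, Sq.T_mul hc h]

theorem pow_z {u : V} {c : K} (h : S.Adm u 0 c) (k : ℕ) :
    S.Adm u 0 ((k : K) * c) ∧ (S.T u 0 c) ^ k = S.T u 0 ((k : K) * c) := by
  induction k with
  | zero =>
    rw [pow_zero, Nat.cast_zero, zero_mul, Sq.T_zero]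
    exact ⟨Sq.Adm.zero h.sg, rfl⟩
  | succ k ih =>
    have h1 : ((k + 1 : ℕ) : K) * c = (k : K) * c + c + S.B 0 0 := by
      rw [S.B_zero_left, Nat.cast_succ]
      ring
    have h2 := ih.1.add h
    have h3 := Sq.T_mul ih.1 h
    rw [add_zero] at h2 h3
    rw [h1, pow_succ, ih.2]
    exact ⟨h2, h3⟩

theorem ppow (p : ℕ) [CharP K p] {u w : V} {a : K} (h : S.Adm u w a) :
    (S.T u w a) ^ (p * p) = 1 := by
  obtain ⟨c, hc, hc2⟩ := pow_ex h p
  rw [CharP.cast_eq_zero, zero_smul] at hc hc2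
  rw [pow_mul, hc2, (pow_z hc p).2, CharP.cast_eq_zero, zero_mul, Sq.T_zero]

theorem pow_eig (g : V ≃ₗ[K] V) {x : V} {α : K} (h : g x = α • x) (k : ℕ) :
    (g ^ k) x = α ^ k • x := by
  induction k with
  | zero => rw [pow_zero, pow_zero, LinearEquiv.coe_one, id_eq, one_smul]
  | succ k ih => rw [pow_succ, LinearEquiv.mul_apply, h, map_smul, ih, smul_smul, pow_succ, mul_comm]

theorem frob_one (p : ℕ) [Fact p.Prime] [CharP K p] (z : K) (h : z ^ (p * p) = 1) : z = 1 := by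
  have h0 : ∀ t : K, t ^ p = 1 → t = 1 := by
    intro t ht
    have h2 : (t - 1) ^ p = 0 := by
      rw [sub_pow_char, ht, one_pow, sub_self]
    exact sub_eq_zero.1 (pow_eq_zero_iff (Fact.out : p.Prime).ne_zero |>.1 h2)
  rw [pow_mul] at h
  exact h0 _ (h0 _ h)

end gen

/-- the scalar of `m₁` on `x` has norm one. -/
theorem norm_one (hSTB : SpecSTB.{u}) {K : Type} [Field K] {F : FD K} {V₀ : Type}
    [AddCommGroup V₀] [Module K V₀] {S₀ : Sq F V₀} {m : ℕ} (hC : Cls S₀ m) {P : Type u} [Group P]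
    {π : (S₀.std m).D ⊤ →* P} {e : P ≃* P} (hπ : Ker π) {x y : SV K V₀ m}
    (hx : (S₀.std m).Sg x) (hxy : (S₀.std m).B x y ≠ 0) (hNx : Nst π e x)
    {u v : SV K V₀ m} {a : K} (hA : (S₀.std m).Adm u v a) (hxu : (S₀.std m).B x u = 0)
    (hxv : (S₀.std m).B x v = 0) {g : SV K V₀ m ≃ₗ[K] SV K V₀ m}
    (hM : Mp π e ((S₀.std m).T u v a) g) : ∃ α : K, g x = α • x ∧ α * F.σ α = 1 := by
  obtain ⟨p, hp⟩ := CharP.exists K
  have hfin := hC.finK
  have hpp : p.Prime := CharP.char_is_prime K p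
  have hfp : Fact p.Prime := ⟨hpp⟩
  have hx0 : x ≠ 0 := by
    rintro rfl
    exact hxy ((S₀.std m).B_zero_left y)
  have hfx : (S₀.std m).T u v a x = x := by
    rw [Sq.T_apply hA, hxu, hxv]
    simp
  obtain ⟨α, hα⟩ := ((hSTB K F V₀ S₀ m hC P π e hπ x hx hx0 hNx).2 _ g hM).1
    ⟨1, by rw [hfx, one_smul]⟩
  refine ⟨α, hα, ?_⟩
  obtain ⟨hD1, hD2, hM'⟩ := hM
  have hgI : g ∈ (S₀.std m).Iso := Sq.D_le_Iso ⊤ hD2
  have hgp : π ((⟨g, hD2⟩ : (S₀.std m).D ⊤) ^ (p * p)) = 1 := by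
    rw [map_pow, ← hM', ← map_pow, ← map_pow]
    have h2 : (⟨(S₀.std m).T u v a, hD1⟩ : (S₀.std m).D ⊤) ^ (p * p) = 1 :=
      Subtype.ext (ppow p hA)
    rw [h2, map_one, map_one]
  obtain ⟨d, hd⟩ := (hπ.2 _).1 hgp
  have hpw : ∀ v, (g ^ (p * p)) v = d • v := fun v => by
    have := hd v
    rwa [SubmonoidClass.coe_pow] at this
  have hαd : α ^ (p * p) = d := by
    have h1 := pow_eig g hα (p * p)
    rw [hpw] at h1
    have h2 : (α ^ (p * p) - d) • x = 0 := by rw [sub_smul, ← h1, sub_self]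
    exact sub_eq_zero.1 ((smul_eq_zero.1 h2).resolve_right hx0)
  have hdd : d * F.σ d = 1 := by
    have h1 := (Subgroup.pow_mem _ hgI (p * p)).1 x y
    rw [hpw, hpw, (S₀.std m).B_smul_left, (S₀.std m).B_smul_right, ← mul_assoc] at h1
    exact mul_right_cancel₀ hxy (h1.trans (one_mul _).symm)
  apply frob_one p
  rw [mul_pow, ← map_pow, hαd, hdd]

end ISOM

open ISOM in
theorem specISO (hINV : SpecINV) (hTH2 : SpecTH2.{u}) (hITW : SpecITW.{u}) (hSTB : SpecSTB.{u})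
    (hWPS : SpecWPS) : SpecISO.{u} := by
  intro K _ F V₀ _ _ S₀ m hC P _ π e hK x y hx hy hxy hNx hNy θ hθ W₀ hW₀ hid hB0
  have hfK := hC.finK
  have hfV := hC.finV
  obtain ⟨w1, w2, -, -, -⟩ := hWPS K F V₀ S₀ m hC.rk hC.nd x y hx hy hxy
  have hθ' := hθ
  obtain ⟨hθW, hθadd, hθ0, -⟩ := hθ'
  have hWx : ∀ u ∈ Wp (S₀.std m) x y, (S₀.std m).B x u = 0 := fun u hu => (S₀.std m).B_eq_zero_swap hu.1
  have hWy : ∀ u ∈ Wp (S₀.std m) x y, (S₀.std m).B y u = 0 := fun u hu => (S₀.std m).B_eq_zero_swap hu.2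
  have hzero : θ 0 = 0 := by
    have h := hθadd 0 (Submodule.zero_mem _) 0 (Submodule.zero_mem _)
    rw [add_zero] at h
    exact left_eq_add.1 h
  have hneg : ∀ u ∈ Wp (S₀.std m) x y, θ (-u) = -θ u := by
    intro u hu
    have h := hθadd u hu (-u) (Submodule.neg_mem _ hu)
    rw [add_neg_cancel, hzero] at h
    exact (neg_eq_of_add_eq_zero_right h.symm).symm
  -- a Siegel transformation in `W`
  have key : ∀ u ∈ Wp (S₀.std m) x y, ∀ v ∈ Wp (S₀.std m) x y, ∀ a : K, (S₀.std m).Adm u v a → ∃ g ∈ (S₀.std m).Iso, ∃ α : K, α * F.σ α = 1 ∧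
      ∀ w ∈ Wp (S₀.std m) x y, θ ((S₀.std m).T u v a w) = F.σ α • g (θ w) := by
    intro u hu v hv a hA
    obtain ⟨g, hM⟩ := LibM.Mp.ex hK e (Sq.T_mem_G hA)
    obtain ⟨α, hα, hαα⟩ := norm_one hSTB hC hK hx hxy hNx hA (hWx u hu) (hWx v hv) hM
    refine ⟨g, Sq.D_le_Iso ⊤ hM.2.1, α, hαα, ?_⟩
    intro w hw
    have hfx : (S₀.std m).T u v a x = x := by
      rw [Sq.T_apply hA, hWx u hu, hWx v hv]
      simp
    have hfy : (S₀.std m).T u v a y = y := by
      rw [Sq.T_apply hA, hWy u hu, hWy v hv]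
      simp
    have h := hITW K F V₀ S₀ m hC P π e hK x y hx hy hxy hNx hNy θ hθ _ g hM 1 α
      (by rw [one_smul]; exact hfx) hα ⟨1, by rw [one_smul]; exact hfy⟩ w hw
    rw [map_one, one_smul] at h
    exact h
  have hTW : ∀ u ∈ Wp (S₀.std m) x y, ∀ v ∈ Wp (S₀.std m) x y, ∀ a : K, (S₀.std m).Adm u v a → ∀ w ∈ Wp (S₀.std m) x y, (S₀.std m).T u v a w ∈ Wp (S₀.std m) x y := by
    intro u hu v hv a hA w hw
    rw [Sq.T_apply hA]
    exact Submodule.sub_mem _ (Submodule.add_mem _ hw (Submodule.smul_mem _ _ hv))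
      (Submodule.smul_mem _ _ hu)
  have hbasic : ∀ u ∈ Wp (S₀.std m) x y, ∀ v ∈ Wp (S₀.std m) x y, ∀ a : K, (S₀.std m).Adm u v a → ∀ w ∈ Wp (S₀.std m) x y, ∀ w' ∈ Wp (S₀.std m) x y,
      (S₀.std m).B (θ ((S₀.std m).T u v a w)) (θ ((S₀.std m).T u v a w')) = (S₀.std m).B (θ w) (θ w') := by
    intro u hu v hv a hA w hw w' hw'
    obtain ⟨g, hg, α, hα, h⟩ := key u hu v hv a hA
    rw [h w hw, h w' hw', (S₀.std m).B_smul_left, (S₀.std m).B_smul_right, hg.1, F.inv, ← mul_assoc,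
      mul_comm (F.σ α), hα, one_mul]
  -- invariance under `D W`
  have hinv : ∀ g ∈ (S₀.std m).D (Wp (S₀.std m) x y), (∀ w ∈ Wp (S₀.std m) x y, g w ∈ Wp (S₀.std m) x y ∧ g⁻¹ w ∈ Wp (S₀.std m) x y) ∧ ∀ w ∈ Wp (S₀.std m) x y, ∀ w' ∈ Wp (S₀.std m) x y,
      (S₀.std m).B (θ (g w)) (θ (g w')) = (S₀.std m).B (θ w) (θ w') := by
    intro g hg
    induction hg using Subgroup.closure_induction with
    | mem g hg =>
      obtain ⟨u, hu, v, hv, a, hA, rfl⟩ := hg
      refine ⟨fun w hw => ⟨hTW u hu v hv a hA w hw, ?_⟩, hbasic u hu v hv a hA⟩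
      rw [Sq.T_inv hA]
      exact hTW u hu (-v) (Submodule.neg_mem _ hv) _ hA.inv w hw
    | one =>
      refine ⟨fun w hw => ⟨hw, ?_⟩, fun w _ w' _ => rfl⟩
      rw [inv_one]
      exact hw
    | mul g h _ _ hg hh =>
      refine ⟨fun w hw => ⟨?_, ?_⟩, fun w hw w' hw' => ?_⟩
      · rw [LinearEquiv.mul_apply]
        exact (hg.1 _ (hh.1 w hw).1).1
      · rw [mul_inv_rev, LinearEquiv.mul_apply]
        exact (hh.1 _ (hg.1 w hw).2).2
      · rw [LinearEquiv.mul_apply, LinearEquiv.mul_apply, hg.2 _ (hh.1 w hw).1 _ (hh.1 w' hw').1,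
          hh.2 w hw w' hw']
    | inv g _ hg =>
      have h0 : ∀ v, g (g⁻¹ v) = v := fun v => by
        rw [← LinearEquiv.mul_apply, mul_inv_cancel, LinearEquiv.coe_one, id_eq]
      refine ⟨fun w hw => ⟨(hg.1 w hw).2, ?_⟩, fun w hw w' hw' => ?_⟩
      · rw [inv_inv]
        exact (hg.1 w hw).1
      · have := hg.2 _ (hg.1 w hw).2 _ (hg.1 w' hw').2
        rw [h0, h0] at this
        exact this.symm
  have hW₀b : W₀ ≠ ⊥ := by
    rintro rfl
    obtain ⟨v, hv, w, -, h⟩ := hB0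
    rw [Submodule.mem_bot] at hv
    rw [hv, (S₀.std m).B_zero_left] at h
    exact h rfl
  have hlin := hTH2 K F V₀ S₀ m hC P π e hK x y hx hy hxy hNx hNy θ hθ W₀ hW₀ hW₀b hid
  obtain ⟨c, hc⟩ := hINV K F V₀ S₀ m hC.rk hC.nd x y hx hy hxy (fun v w => (S₀.std m).B (θ v) (θ w))
    (by
      intro u hu v hv w hw
      refine ⟨?_, ?_⟩
      · change (S₀.std m).B (θ (u + v)) (θ w) = (S₀.std m).B (θ u) (θ w) + (S₀.std m).B (θ v) (θ w)
        rw [hθadd u hu v hv, (S₀.std m).B_add_left]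
      · change (S₀.std m).B (θ u) (θ (v + w)) = (S₀.std m).B (θ u) (θ v) + (S₀.std m).B (θ u) (θ w)
        rw [hθadd v hv w hw, (S₀.std m).B_add_right])
    (by
      intro c v hv w hw
      refine ⟨?_, ?_⟩
      · change (S₀.std m).B (θ (c • v)) (θ w) = c * (S₀.std m).B (θ v) (θ w)
        rw [hlin c v hv, (S₀.std m).B_smul_left]
      · change (S₀.std m).B (θ v) (θ (c • w)) = F.σ c * (S₀.std m).B (θ v) (θ w)
        rw [hlin c w hw, (S₀.std m).B_smul_right])
    (fun g hg v hv w hw => (hinv g hg).2 v hv w hw)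
  have hc1 : c = 1 := by
    obtain ⟨v, hv, w, hw, h⟩ := hB0
    have h1 : (S₀.std m).B (θ v) (θ w) = c * (S₀.std m).B v w := hc v (hW₀ hv) w (hW₀ hw)
    rw [hid v hv, hid w hw] at h1
    exact (mul_right_cancel₀ h ((one_mul _).trans h1)).symm
  have hiso : ∀ v ∈ Wp (S₀.std m) x y, ∀ w ∈ Wp (S₀.std m) x y, (S₀.std m).B (θ v) (θ w) = (S₀.std m).B v w := by
    intro v hv w hw
    have h1 : (S₀.std m).B (θ v) (θ w) = c * (S₀.std m).B v w := hc v hv w hw
    rw [h1, hc1, one_mul]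
  refine ⟨hiso, ?_⟩
  -- the quadratic form
  have hadd : ∀ v ∈ Wp (S₀.std m) x y, ∀ w ∈ Wp (S₀.std m) x y, ((S₀.std m).q (θ (v + w)) - (S₀.std m).q (v + w)) -
      (((S₀.std m).q (θ v) - (S₀.std m).q v) + ((S₀.std m).q (θ w) - (S₀.std m).q w)) ∈ F.Λ := by
    intro v hv w hw
    have h1 := (S₀.std m).q_add (θ v) (θ w)
    have h2 := (S₀.std m).q_add v w
    rw [hiso v hv w hw] at h1
    have h3 := F.Λ.sub_mem h1 h2
    rw [hθadd v hv w hw]
    convert h3 using 1
    ring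
  have hTq : ∀ u ∈ Wp (S₀.std m) x y, ∀ v ∈ Wp (S₀.std m) x y, ∀ a : K, (S₀.std m).Adm u v a → ∀ w ∈ Wp (S₀.std m) x y,
      ((S₀.std m).q (θ ((S₀.std m).T u v a w)) - (S₀.std m).q ((S₀.std m).T u v a w)) - ((S₀.std m).q (θ w) - (S₀.std m).q w) ∈ F.Λ := by
    intro u hu v hv a hA w hw
    obtain ⟨g, hg, α, hα, h⟩ := key u hu v hv a hA
    have h1 : (S₀.std m).q (θ ((S₀.std m).T u v a w)) = (S₀.std m).q (g (θ w)) := by
      rw [h w hw, (S₀.std m).q_smul, F.inv, mul_comm (F.σ α), hα, one_mul]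
    have h2 := hg.2 (θ w)
    have h3 := (Sq.T_mem_Iso hA).2 w
    rw [h1]
    have h4 := F.Λ.sub_mem h2 h3
    convert h4 using 1
    ring
  let H : AddSubgroup (SV K V₀ m) :=
    { carrier := {v | v ∈ Wp (S₀.std m) x y ∧ (S₀.std m).q (θ v) - (S₀.std m).q v ∈ F.Λ}
      add_mem' := by
        rintro v w ⟨hv, hv2⟩ ⟨hw, hw2⟩
        refine ⟨Submodule.add_mem _ hv hw, ?_⟩
        have h1 := F.Λ.add_mem (hadd v hv w hw) (F.Λ.add_mem hv2 hw2)
        rwa [sub_add_cancel] at h1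
      zero_mem' := by
        refine ⟨Submodule.zero_mem _, ?_⟩
        rw [hzero, sub_self]
        exact F.Λ.zero_mem
      neg_mem' := by
        rintro v ⟨hv, hv2⟩
        refine ⟨Submodule.neg_mem _ hv, ?_⟩
        rw [hneg v hv, (S₀.std m).q_neg, (S₀.std m).q_neg]
        exact hv2 }
  have hsing : ∀ u ∈ Wp (S₀.std m) x y, (S₀.std m).Sg u → u ∈ H := by
    intro u hu hsu
    by_cases hu0 : u = 0
    · rw [hu0]
      exact H.zero_mem
    · obtain ⟨w', hw', w, hw, hTP, hwu, hww'⟩ := w1 u hu hsu hu0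
      obtain ⟨-, sw', buw', -⟩ := hTP
      have sw'2 : (S₀.std m).Sg w' := sw'
      have buw'2 : (S₀.std m).B u w' = 0 := buw'
      have hA : (S₀.std m).Adm u w' 0 := ⟨hsu, buw'2, by
        rw [zero_sub]
        exact F.Λ.neg_mem sw'2⟩
      set z := (-F.ε) • w with hz
      have hzW : z ∈ Wp (S₀.std m) x y := Submodule.smul_mem _ _ hw
      have hTz : (S₀.std m).T u w' 0 z = z + u := by
        rw [Sq.T_apply hA, hz, (S₀.std m).B_smul_left, (S₀.std m).B_smul_left, hwu, hww']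
        have h1 : F.ε * (-F.ε * 1 + 0 * (-F.ε * 0)) = -1 := by
          linear_combination (-1 : K) * F.ee
        rw [h1, mul_zero, zero_smul, add_zero, neg_smul (1 : K) u, one_smul, sub_neg_eq_add]
      have h1 := hTq u hu w' hw' 0 hA z hzW
      rw [hTz] at h1
      have h2 := hadd z hzW u hu
      have h3 := F.Λ.sub_mem h1 h2
      refine ⟨hu, ?_⟩
      convert h3 using 1
      ring
  intro v hv
  exact (w2 H hsing v hv).2

end Pool.Agent.Lib.MP66ef6b.CL
end

section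
set_option autoImplicit false

/-!
# MP_66ef6b_al, THEOREM L2 (helper14). ITW: the action of the stabiliser of `x` and `y` (helper67)
-/

namespace Pool.Agent.Lib.MP66ef6b.CL

universe u

namespace ITWM

variable {K : Type} [Field K] {F : FD K} {V₀ : Type} [AddCommGroup V₀] [Module K V₀]
  {S₀ : Sq F V₀} {m : ℕ} {P : Type u} [Group P]

/-- `e` maps conjugates to conjugates. -/
theorem mp_conj {π : (S₀.std m).D ⊤ →* P} {e : P ≃* P} {g g' h h' : SV K V₀ m ≃ₗ[K] SV K V₀ m}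
    (hg : Mp π e g g') (hh : Mp π e h h') : Mp π e (g * h * g⁻¹) (g' * h' * g'⁻¹) := by
  obtain ⟨g1, g2, g3⟩ := hg
  obtain ⟨h1, h2, h3⟩ := hh
  refine ⟨Subgroup.mul_mem _ (Subgroup.mul_mem _ g1 h1) (Subgroup.inv_mem _ g1),
    Subgroup.mul_mem _ (Subgroup.mul_mem _ g2 h2) (Subgroup.inv_mem _ g2), ?_⟩
  have e1 : (⟨g * h * g⁻¹, Subgroup.mul_mem _ (Subgroup.mul_mem _ g1 h1)
      (Subgroup.inv_mem _ g1)⟩ : (S₀.std m).D ⊤) = ⟨g, g1⟩ * ⟨h, h1⟩ * ⟨g, g1⟩⁻¹ := rfl
  have e2 : (⟨g' * h' * g'⁻¹, Subgroup.mul_mem _ (Subgroup.mul_mem _ g2 h2)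
      (Subgroup.inv_mem _ g2)⟩ : (S₀.std m).D ⊤) = ⟨g', g2⟩ * ⟨h', h2⟩ * ⟨g', g2⟩⁻¹ := rfl
  rw [e1, e2]
  simp only [map_mul, map_inv, g3, h3]

/-- an isometry which preserves `K x` preserves `x^⊥`. -/
theorem orth {V : Type} [AddCommGroup V] [Module K V] {S : Sq F V} {g : V ≃ₗ[K] V}
    (hg : g ∈ S.Iso) {x w : V} {c : K} (hx : x ≠ 0) (h : g x = c • x) (hw : S.B w x = 0) :
    S.B (g w) x = 0 := by
  have hc : c ≠ 0 := by
    rintro rfl
    rw [zero_smul] at h
    exact hx ((LinearEquiv.map_eq_zero_iff g).1 h)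
  have h1 : S.B (g w) (g x) = 0 := by rw [hg.1, hw]
  rw [h, S.B_smul_right] at h1
  rcases mul_eq_zero.1 h1 with h2 | h2
  · exact absurd ((map_eq_zero_iff F.σ F.σ.injective).1 h2) hc
  · exact h2

/-- an isometry which preserves `K x` and `K y` preserves `⟨x, y⟩^⊥`. -/
theorem mem_Wp {V : Type} [AddCommGroup V] [Module K V] {S : Sq F V} {g : V ≃ₗ[K] V}
    (hg : g ∈ S.Iso) {x y w : V} {c d : K} (hx : x ≠ 0) (hy : y ≠ 0) (h : g x = c • x)
    (h' : g y = d • y) (hw : w ∈ Wp S x y) : g w ∈ Wp S x y :=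
  ⟨orth hg hx h hw.1, orth hg hy h' hw.2⟩

/-- conjugates of Siegel transformations. -/
theorem conj {V : Type} [AddCommGroup V] [Module K V] {S : Sq F V} {g : V ≃ₗ[K] V}
    (hg : g ∈ S.Iso) {x w : V} {a c : K} (hx : x ≠ 0) (h : g x = c • x) (hA : S.Adm x w a) :
    S.Adm x (F.σ c • g w) (c * F.σ c * a) ∧
      g * S.T x w a * g⁻¹ = S.T x (F.σ c • g w) (c * F.σ c * a) := by
  have h1 : S.Adm (g x) (g w) a := hA.map hg
  have h2 : S.B x (g w) = 0 := S.B_eq_zero_swap (orth hg hx h hA.orth')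
  rw [h] at h1
  refine ⟨h1.smul hA.sg h2, ?_⟩
  rw [Sq.T_conj hA hg, h, Sq.T_smul h1 hA.sg h2]

end ITWM

open ITWM in
/-- ITW. -/
theorem specITW (hTH1 : SpecTH1.{u}) (hSTB : SpecSTB.{u}) : SpecITW.{u} := by
  intro K _ F V₀ _ _ S₀ m hC P _ π e hK x y hx hy hxy hNx hNy θ hθ g g' hgg α α' hα hα' hgy w hw
  have hx0 : x ≠ 0 := by
    rintro rfl
    exact hxy ((S₀.std m).B_zero_left y)
  have hy0 : y ≠ 0 := by
    rintro rfl
    exact hxy ((S₀.std m).B_zero_right x)
  obtain ⟨c, hc⟩ := hgy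
  obtain ⟨c', hc'⟩ := (((hSTB K F V₀ S₀ m hC P π e hK y hy hy0 hNy).2 g g' hgg).1 ⟨c, hc⟩)
  have hgI : g ∈ (S₀.std m).Iso := Sq.D_le_Iso _ hgg.choose
  have hgI' : g' ∈ (S₀.std m).Iso := Sq.D_le_Iso _ hgg.choose_spec.choose
  have hA : (S₀.std m).Adm x w ((S₀.std m).q w) :=
    ⟨hx, (S₀.std m).B_eq_zero_swap hw.1, by rw [sub_self]; exact F.Λ.zero_mem⟩
  obtain ⟨a', hA', hM⟩ := (hTH1 K F V₀ S₀ m hC P π e hK x y hx hy hxy hNx hNy).2 θ hθ w hw _ hA
  have hM2 := mp_conj hgg hM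
  obtain ⟨h1, h2⟩ := conj hgI hx0 hα hA
  obtain ⟨h3, h4⟩ := conj hgI' hx0 hα' hA'
  rw [h2, h4] at hM2
  exact (hθ.2.2.2 _ (Submodule.smul_mem _ _ (mem_Wp hgI hx0 hy0 hα hc hw)) _ _ h1 _
    (Submodule.smul_mem _ _ (mem_Wp hgI' hx0 hy0 hα' hc' (hθ.1 w hw))) h3 hM2).symm

end Pool.Agent.Lib.MP66ef6b.CL
end

section
set_option autoImplicit false

/-!
# MP_66ef6b_al, CL, module KAP (helper25): isometries act on `P`
-/

namespace Pool.Agent.Lib.MP66ef6b.CL

universe u

namespace KAPM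

variable {K : Type} [Field K] {F : FD K} {V : Type} [AddCommGroup V] [Module K V] {S : Sq F V}

/-- conjugation by an isometry -/
def conjD {A : V ≃ₗ[K] V} (hA : A ∈ S.Iso) : S.D ⊤ ≃* S.D ⊤ where
  toFun g := ⟨A * g.1 * A⁻¹, Sq.conj_mem_D hA g.2⟩
  invFun g := ⟨A⁻¹ * g.1 * A, by
    have h := Sq.conj_mem_D (S.Iso.inv_mem hA) g.2
    rwa [inv_inv] at h⟩
  left_inv g := by
    apply Subtype.ext
    show A⁻¹ * (A * g.1 * A⁻¹) * A = g.1
    group
  right_inv g := by
    apply Subtype.ext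
    show A * (A⁻¹ * g.1 * A) * A⁻¹ = g.1
    group
  map_mul' g h := by
    apply Subtype.ext
    show A * (g.1 * h.1) * A⁻¹ = A * g.1 * A⁻¹ * (A * h.1 * A⁻¹)
    group

theorem inv_app (A : V ≃ₗ[K] V) (v : V) : A (A⁻¹ v) = v := by
  rw [← LinearEquiv.mul_apply, mul_inv_cancel, LinearEquiv.coe_one, id_eq]

theorem app_inv (A : V ≃ₗ[K] V) (v : V) : A⁻¹ (A v) = v := by
  rw [← LinearEquiv.mul_apply, inv_mul_cancel, LinearEquiv.coe_one, id_eq]

theorem scal (A g : V ≃ₗ[K] V) (c : K) :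
    (∀ v, (A * g * A⁻¹) v = c • v) ↔ ∀ v, g v = c • v := by
  constructor
  · intro h v
    have h1 := h (A v)
    rw [LinearEquiv.mul_apply, LinearEquiv.mul_apply, app_inv, ← map_smul] at h1
    exact A.injective h1
  · intro h v
    rw [LinearEquiv.mul_apply, LinearEquiv.mul_apply, h, map_smul, inv_app]

end KAPM

open KAPM in
theorem specKAP : SpecKAP.{u} := by
  intro K _ F V₀ _ _ S₀ m P _ π hπ A hA
  obtain ⟨hs, hk⟩ := hπ
  have hker : ∀ g : (S₀.std m).D ⊤, conjD hA g ∈ π.ker ↔ g ∈ π.ker := by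
    intro g
    rw [MonoidHom.mem_ker, MonoidHom.mem_ker, hk, hk]
    refine exists_congr fun c => ?_
    exact scal A g.1 c
  have he : π.ker.map (conjD hA).toMonoidHom = π.ker := by
    ext g
    rw [Subgroup.mem_map]
    constructor
    · rintro ⟨h, h1, rfl⟩
      exact (hker h).2 h1
    · intro h
      refine ⟨(conjD hA).symm g, ?_, ?_⟩
      · rw [← hker, MulEquiv.apply_symm_apply]
        exact h
      · exact (conjD hA).apply_symm_apply g
  let φ : (S₀.std m).D ⊤ ⧸ π.ker ≃* P := QuotientGroup.quotientKerEquivOfSurjective π hs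
  have hφ : ∀ g : (S₀.std m).D ⊤, φ (QuotientGroup.mk g) = π g := fun _ => rfl
  let κ : P ≃* P := φ.symm.trans ((QuotientGroup.congr π.ker π.ker (conjD hA) he).trans φ)
  refine ⟨κ, fun g hg => ⟨hg, Sq.conj_mem_D hA hg, ?_⟩⟩
  have h1 : φ.symm (π ⟨g, hg⟩) = QuotientGroup.mk ⟨g, hg⟩ := by
    rw [MulEquiv.symm_apply_eq]
    exact (hφ _).symm
  show φ (QuotientGroup.congr π.ker π.ker (conjD hA) he (φ.symm (π ⟨g, hg⟩))) = _
  rw [h1]
  rfl

end Pool.Agent.Lib.MP66ef6b.CL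
end

section
/-!
# Module LI2: the classical case
-/
set_option autoImplicit false

namespace Pool.Agent.Lib.MP66ef6b.CL

universe u

theorem specLI2 (hSUC : SpecSUC.{u}) (hCS2 : SpecCS2.{u}) (hRP2 : SpecRP2.{u})
    (hAF2 : SpecAF2.{u}) : SpecLI2.{u} := by
  intro G _ _ _ hG F hF h
  obtain ⟨q₀, r, hq⟩ := hSUC G F hF
  have h1 : ∀ m : ℕ, ∃ B : ℕ, ∀ E : Subgroup G, Finite E → F ≤ E → B < Nat.card E →
      ∃ f ∈ F, f ≠ 1 ∧ CData q₀ r m f E := by
    intro m
    obtain ⟨B, hB⟩ := hq m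
    exact ⟨B, fun E hE hFE hBE => hB E hE hFE hBE (h E hE hFE)⟩
  obtain ⟨f, hf, hf1, hCD⟩ := hCS2 G hG F hF q₀ r h1
  obtain ⟨d, hrep, hID⟩ := hRP2 G hG F hF q₀ r f hf hf1 hCD
  exact hAF2 G hG F hF q₀ d f hID hrep

end Pool.Agent.Lib.MP66ef6b.CL
end

section
set_option autoImplicit false

/-!
# MP_66ef6b_al, THEOREM L3, module LTA (helper94)

Commutators of small rank.
-/

namespace Pool.Agent.Lib.MP66ef6b.CL

open PL (SLn PSLn fx)

open Matrix.SpecialLinearGroup (transvection)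

namespace LTAM

open Matrix

/-- a vector which is not an eigenvector. -/
lemma exists_vec {n : ℕ} {K : Type} [Field K] (f : SLn n K)
    (hf : f ∉ Subgroup.center (SLn n K)) :
    ∃ v : Fin n → K, f.1 *ᵥ v ∉ Submodule.span K {v} := by
  by_contra hcon
  push Not at hcon
  apply hf
  rw [Matrix.SpecialLinearGroup.mem_center_iff]
  obtain ⟨a, ha⟩ := (Matrix.toLin' f.1).exists_eq_smul_id_of_forall_notLinearIndependent
    fun (v : Fin n → K) => by
      intro h
      obtain ⟨c, hc⟩ := Submodule.mem_span_singleton.mp (hcon v)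
      have h1 := (LinearIndependent.pair_iff.1 h) c (-1) (by
        rw [Matrix.toLin'_apply, ← hc, neg_smul, one_smul, add_neg_cancel])
      exact one_ne_zero (neg_eq_zero.1 h1.2)
  have hs : Matrix.scalar (Fin n) a = f.1 := by
    apply Matrix.ext_of_mulVec_single
    intro i
    have h1 := LinearMap.congr_fun ha (Pi.single i 1)
    rw [Matrix.toLin'_apply] at h1
    rw [h1]
    funext j
    simp [Matrix.scalar_apply, Matrix.diagonal_apply, Pi.single_apply]
  refine ⟨a, ?_, hs⟩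
  have h2 := f.2
  rw [← hs] at h2
  simpa [Matrix.scalar_apply, Matrix.det_diagonal] using h2

/-- sums of two matrices of rank one. -/
lemma rank_le {n : ℕ} {K : Type} [Field K] (v w α β : Fin n → K) :
    (vecMulVec w α + vecMulVec v β).rank ≤ 2 := by
  classical
  have h1 : LinearMap.range (vecMulVec w α + vecMulVec v β).mulVecLin ≤
      Submodule.span K ((({w, v} : Finset (Fin n → K)) : Set (Fin n → K))) := by
    rintro _ ⟨x, rfl⟩
    rw [mulVecLin_apply, add_mulVec, vecMulVec_mulVec, vecMulVec_mulVec]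
    refine Submodule.add_mem _ ?_ ?_
    · have h2 : w ∈ Submodule.span K ((({w, v} : Finset (Fin n → K)) : Set (Fin n → K))) :=
        Submodule.subset_span (by simp)
      have h3 := Submodule.smul_mem _ (α ⬝ᵥ x) h2
      rwa [← op_smul_eq_smul] at h3
    · have h2 : v ∈ Submodule.span K ((({w, v} : Finset (Fin n → K)) : Set (Fin n → K))) :=
        Submodule.subset_span (by simp)
      have h3 := Submodule.smul_mem _ (β ⬝ᵥ x) h2
      rwa [← op_smul_eq_smul] at h3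
  have h4 := Submodule.finrank_mono h1
  refine h4.trans ((finrank_span_finset_le_card _).trans ?_)
  exact Finset.card_le_two

end LTAM

open Matrix in
theorem specLTA : SpecLTA := by
  intro n K _ hn f hf
  obtain ⟨v, hv⟩ := LTAM.exists_vec f hf
  obtain ⟨ψ, hψv, hψw⟩ := PL.TRVM.exists_psi _ v hv
  obtain ⟨w, hw⟩ : ∃ w : Fin n → K, w = f.1 *ᵥ v := ⟨_, rfl⟩
  rw [← hw] at hψw hv
  have hfinv : f.1 * (f⁻¹).1 = 1 := by
    have h : (f * f⁻¹).1 = (1 : SLn n K).1 := congrArg Subtype.val (mul_inv_cancel f)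
    exact h
  let s : SLn n K := ⟨1 + vecMulVec v ψ, PL.TRVM.det_tv v ψ hψv⟩
  have hψv' : (-ψ) ⬝ᵥ v = 0 := by rw [neg_dotProduct, hψv, neg_zero]
  let s' : SLn n K := ⟨1 + vecMulVec v (-ψ), PL.TRVM.det_tv v (-ψ) hψv'⟩
  have hss : s * s' = 1 := by
    apply Subtype.ext
    change (1 + vecMulVec v ψ) * (1 + vecMulVec v (-ψ)) = 1
    rw [mul_add, mul_one, add_mul, one_mul, vecMulVec_mul_vecMulVec, hψv, zero_smul,
      vecMulVec_zero, add_zero, add_assoc, ← vecMulVec_add, add_neg_cancel, vecMulVec_zero,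
      add_zero]
  have hs' : s⁻¹ = s' := by
    rw [inv_eq_iff_mul_eq_one]
    exact hss
  refine ⟨s, ?_, ?_⟩
  · intro h
    have h1 : f * s = s * f := by
      have h2 : f * s * f⁻¹ * s⁻¹ = 1 := h
      rw [mul_inv_eq_one, mul_inv_eq_iff_eq_mul] at h2
      exact h2
    have h3 : f.1 * (1 + vecMulVec v ψ) = (1 + vecMulVec v ψ) * f.1 := congrArg Subtype.val h1
    rw [mul_add, mul_one, add_mul, one_mul, add_right_inj, mul_vecMulVec, vecMulVec_mul, ← hw]
      at h3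
    obtain ⟨x, hx⟩ : ∃ x : Fin n → K, ψ ⬝ᵥ x ≠ 0 := ⟨w, hψw⟩
    have h4 := congrArg (fun M : Matrix (Fin n) (Fin n) K => M *ᵥ x) h3
    simp only [vecMulVec_mulVec] at h4
    rw [op_smul_eq_smul, op_smul_eq_smul] at h4
    apply hv
    rw [Submodule.mem_span_singleton]
    refine ⟨(ψ ⬝ᵥ x)⁻¹ * ((ψ ᵥ* f.1) ⬝ᵥ x), ?_⟩
    rw [mul_smul, ← h4, smul_smul, inv_mul_cancel₀ hx, one_smul]
  · have h1 : (f * s * f⁻¹ * s⁻¹ : SLn n K).1 =
        f.1 * (1 + vecMulVec v ψ) * (f⁻¹).1 * (1 + vecMulVec v (-ψ)) := by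
      rw [hs']
      rfl
    have h2 : f.1 * (1 + vecMulVec v ψ) * (f⁻¹).1 = 1 + vecMulVec w (ψ ᵥ* (f⁻¹).1) := by
      rw [mul_add, mul_one, add_mul, hfinv, mul_vecMulVec, vecMulVec_mul, ← hw]
    have h3 : (f * s * f⁻¹ * s⁻¹ : SLn n K).1 - 1 =
        vecMulVec w (ψ ᵥ* (f⁻¹).1 + (ψ ᵥ* (f⁻¹).1 ⬝ᵥ v) • (-ψ)) + vecMulVec v (-ψ) := by
      rw [h1, h2, mul_add, mul_one, add_mul, one_mul, vecMulVec_mul_vecMulVec, vecMulVec_add]
      abel
    rw [h3]
    exact LTAM.rank_le _ _ _ _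

end Pool.Agent.Lib.MP66ef6b.CL
end

section
set_option autoImplicit false

/-!
# MP_66ef6b_al, THEOREM L3, module LTB (helper33)

A commutator which is a transvection.
-/

namespace Pool.Agent.Lib.MP66ef6b.CL

open PL (SLn PSLn fx)

open Matrix.SpecialLinearGroup (transvection)

namespace LTBM

open Matrix

/-- A fixed vector `v` of `M + 1` such that the range of `M` is not contained in `K v`. -/
lemma exists_fix {n : ℕ} {K : Type} [Field K] (M : Matrix (Fin n) (Fin n) K)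
    (hn : 3 ≤ n) (hM : M.rank ≤ 2) (hM0 : M ≠ 0) :
    ∃ v w : Fin n → K, v ≠ 0 ∧ M *ᵥ v = 0 ∧ M *ᵥ w ∉ Submodule.span K {v} := by
  obtain ⟨w, hw⟩ : ∃ w : Fin n → K, M *ᵥ w ≠ 0 := by
    by_contra hcon
    push Not at hcon
    apply hM0
    apply Matrix.ext_of_mulVec_single
    intro i
    rw [hcon, zero_mulVec]
  rcases Nat.lt_or_ge M.rank 2 with h | h
  · obtain ⟨v, hv0, hv, hs⟩ := PL.TRVM.exists_fix M 1 hn (by omega) _ hw
    exact ⟨v, w, hv0, hv, hs⟩
  · have h2 : Module.finrank K (LinearMap.range M.mulVecLin) = 2 := le_antisymm hM h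
    have h1 := LinearMap.finrank_range_add_finrank_ker M.mulVecLin
    rw [Module.finrank_fin_fun, h2] at h1
    have h3 : LinearMap.ker M.mulVecLin ≠ ⊥ := by
      intro h4
      rw [h4, finrank_bot] at h1
      omega
    obtain ⟨v, hv, hv0⟩ := Submodule.exists_mem_ne_zero_of_ne_bot h3
    have h5 : ¬ (LinearMap.range M.mulVecLin ≤ Submodule.span K {v}) := by
      intro h6
      have h7 := Submodule.finrank_mono h6
      have h8 : Module.finrank K (Submodule.span K {v}) ≤ 1 := (finrank_span_singleton hv0).le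
      omega
    obtain ⟨u, ⟨w', hw'⟩, hu⟩ := SetLike.not_le_iff_exists.mp h5
    refine ⟨v, w', hv0, by simpa using hv, ?_⟩
    have h9 : M *ᵥ w' = u := by simpa using hw'
    rw [h9]
    exact hu

end LTBM

open Matrix in
theorem specLTB : SpecLTB := by
  intro n K _ hn B hne hrank
  have hM : B.1 - 1 ≠ 0 := by
    intro h
    apply hne
    apply Subtype.ext
    exact sub_eq_zero.mp h
  obtain ⟨v, w, hv0, hv, hspan⟩ := LTBM.exists_fix _ hn hrank hM
  obtain ⟨ψ, hψv, hψu⟩ := PL.TRVM.exists_psi _ v hspan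
  have hBv : B.1 *ᵥ v = v := by
    rw [sub_mulVec, one_mulVec, sub_eq_zero] at hv
    exact hv
  have hBinv : (B⁻¹).1 * B.1 = 1 := by
    have h : (B⁻¹ * B).1 = (1 : SLn n K).1 := congrArg Subtype.val (inv_mul_cancel B)
    exact h
  have hBv' : (B⁻¹).1 *ᵥ v = v := by
    have h : (B⁻¹).1 *ᵥ (B.1 *ᵥ v) = (B⁻¹).1 *ᵥ v := by rw [hBv]
    rw [mulVec_mulVec, hBinv, one_mulVec] at h
    exact h.symm
  obtain ⟨φ', hφ'⟩ : ∃ φ' : Fin n → K, φ' = ψ ᵥ* (B⁻¹).1 := ⟨_, rfl⟩
  obtain ⟨φ, hφ⟩ : ∃ φ : Fin n → K, φ = φ' - ψ := ⟨_, rfl⟩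
  have hφ'v : φ' ⬝ᵥ v = 0 := by
    rw [hφ', ← dotProduct_mulVec, hBv', hψv]
  have hφv : φ ⬝ᵥ v = 0 := by
    rw [hφ, sub_dotProduct, hφ'v, hψv, sub_zero]
  have hφ'B : φ' ᵥ* B.1 = ψ := by
    rw [hφ', vecMul_vecMul, hBinv, vecMul_one]
  have hφ0 : φ ≠ 0 := by
    intro h0
    have h1 : φ' = ψ := by
      rw [hφ, sub_eq_zero] at h0
      exact h0
    rw [h1] at hφ'B
    have h2 : ψ ᵥ* (B.1 - 1) = 0 := by
      rw [vecMul_sub, vecMul_one, hφ'B, sub_self]
    apply hψu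
    rw [dotProduct_mulVec, h2, zero_dotProduct]
  have hms : (1 + vecMulVec v φ) * (1 + vecMulVec v ψ) = 1 + vecMulVec v φ' := by
    rw [mul_add, mul_one, add_mul, one_mul, vecMulVec_mul_vecMulVec, hφv, zero_smul,
      vecMulVec_zero, add_zero, add_assoc, ← vecMulVec_add, hφ, sub_add_cancel]
  have hkey : (1 + vecMulVec v φ) * ((1 + vecMulVec v ψ) * B.1) = B.1 * (1 + vecMulVec v ψ) := by
    rw [← mul_assoc, hms, add_mul, one_mul, vecMulVec_mul, hφ'B, mul_add, mul_one, mul_vecMulVec,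
      hBv]
  let s : SLn n K := ⟨1 + vecMulVec v ψ, PL.TRVM.det_tv v ψ hψv⟩
  let m : SLn n K := ⟨1 + vecMulVec v φ, PL.TRVM.det_tv v φ hφv⟩
  have hgrp : m * (s * B) = B * s := Subtype.ext hkey
  have hm : B * s * B⁻¹ * s⁻¹ = m := by
    rw [← hgrp]
    group
  exact ⟨s, v, φ, hv0, hφ0, hφv, by rw [hm]⟩

end Pool.Agent.Lib.MP66ef6b.CL
end

section
/-!
# MP_66ef6b_al, CL: LXK, subspaces in large additive subgroups
-/
set_option autoImplicit false

namespace Pool.Agent.Lib.MP66ef6b.CL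

namespace LXKM

variable {K V : Type} [Field K] [AddCommGroup V] [Module K V]

/-- the largest subspace in `L` -/
def sub (K : Type) [Field K] [Module K V] (L : AddSubgroup V) : Submodule K V where
  carrier := {v | ∀ c : K, c • v ∈ L}
  add_mem' := by
    intro v w hv hw c
    rw [smul_add]
    exact L.add_mem (hv c) (hw c)
  zero_mem' := by
    intro c
    rw [smul_zero]
    exact L.zero_mem
  smul_mem' := by
    intro a v hv c
    rw [smul_smul]
    exact hv (c * a)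

/-- `v ↦ (c v)_c` modulo `L`. -/
def mp (L : AddSubgroup V) (W : Submodule K V) :
    W →+ (K → W ⧸ L.comap W.subtype.toAddMonoidHom) where
  toFun v c := QuotientAddGroup.mk (c • v)
  map_zero' := by
    funext c
    rw [smul_zero]
    rfl
  map_add' v w := by
    funext c
    rw [smul_add]
    rfl

theorem bound [Finite K] [Module.Finite K V] (L : AddSubgroup V) (W : Submodule K V) (s : ℕ)
    (hL : ∀ v ∈ L, v ∈ W) (h : Nat.card W ≤ Nat.card K ^ s * Nat.card L) :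
    Nat.card W ≤ Nat.card (sub K L) * Nat.card K ^ (s * Nat.card K) := by
  classical
  have hV : Finite V := Module.finite_of_finite K
  have := Fintype.ofFinite K
  set L' : AddSubgroup W := L.comap W.subtype.toAddMonoidHom with hL'
  have e1 : Nat.card L' = Nat.card L := by
    refine Nat.card_congr
      { toFun := fun v => ⟨v.1.1, v.2⟩
        invFun := fun v => ⟨⟨v.1, hL v.1 v.2⟩, v.2⟩
        left_inv := fun v => rfl
        right_inv := fun v => rfl }
  have hLpos : 0 < Nat.card L := Nat.card_pos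
  have e2 : Nat.card (W ⧸ L') ≤ Nat.card K ^ s := by
    have h1 := AddSubgroup.card_eq_card_quotient_mul_card_addSubgroup L'
    rw [h1, e1] at h
    exact Nat.le_of_mul_le_mul_right h hLpos
  have e3 : Nat.card W = Nat.card (W ⧸ (mp L W).ker) * Nat.card (mp L W).ker :=
    AddSubgroup.card_eq_card_quotient_mul_card_addSubgroup _
  have e4 : Nat.card (W ⧸ (mp L W).ker) ≤ Nat.card (W ⧸ L') ^ Nat.card K := by
    have h1 : Nat.card (W ⧸ (mp L W).ker) ≤ Nat.card (K → W ⧸ L') :=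
      Nat.card_le_card_of_injective _ (QuotientAddGroup.kerLift_injective (mp L W))
    refine h1.trans (le_of_eq ?_)
    rw [Nat.card_fun]
  have e5 : Nat.card (mp L W).ker ≤ Nat.card (sub K L) := by
    refine Nat.card_le_card_of_injective (fun v : (mp L W).ker => (⟨v.1.1, ?_⟩ : sub K L)) ?_
    · intro c
      have h1 := congrFun (AddMonoidHom.mem_ker.1 v.2) c
      have h2 : c • v.1 ∈ L' := (QuotientAddGroup.eq_zero_iff _).1 h1
      exact h2
    · intro v w hvw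
      have h1 : v.1.1 = w.1.1 := congrArg (fun x : sub K L => (x : V)) hvw
      exact Subtype.ext (Subtype.ext h1)
  calc Nat.card W = Nat.card (W ⧸ (mp L W).ker) * Nat.card (mp L W).ker := e3
    _ ≤ (Nat.card K ^ s) ^ Nat.card K * Nat.card (sub K L) :=
        Nat.mul_le_mul (e4.trans (Nat.pow_le_pow_left e2 _)) e5
    _ = Nat.card (sub K L) * Nat.card K ^ (s * Nat.card K) := by
        rw [← pow_mul, mul_comm]

end LXKM

theorem specLXK : SpecLXK := by
  intro K V _ _ _ _ _ L W s hL h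
  refine ⟨LXKM.sub K L, ?_, ?_⟩
  · intro v hv
    have h1 := hv 1
    rwa [one_smul] at h1
  · have h1 := LXKM.bound L W s hL h
    rw [Module.natCard_eq_pow_finrank (K := K) (V := W),
      Module.natCard_eq_pow_finrank (K := K) (V := LXKM.sub K L), ← pow_add] at h1
    exact (Nat.pow_le_pow_iff_right Finite.one_lt_card).1 h1

end Pool.Agent.Lib.MP66ef6b.CL
end

section
set_option autoImplicit false

/-!
# MP_66ef6b_al, THEOREM L2, module MAU2: the Mautner step
-/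

namespace Pool.Agent.Lib.MP66ef6b.CL

namespace MAU2M

variable {A Ω : Type} [Group A] {Γ M N Z : Subgroup A} [MulAction Γ Ω]

/-- A point which is moved into `fy M` by two elements of `N` in different cosets of `Z` is fixed by
`M` and `N`. -/
lemma claim (hM : M ≤ Γ) (hN : N ≤ Γ)
    (h : ∀ d ∈ N, d ∉ Z → ∀ H : Subgroup A, M ≤ H → (∀ m ∈ M, d * m * d⁻¹ ∈ H) → N ≤ H)
    (u u' : A) (hu : u ∈ N) (hu' : u' ∈ N) (hd : u'⁻¹ * u ∉ Z) (ω ω' : Ω)
    (hω : ω ∈ fy Γ Ω (M : Set A)) (hω' : ω' ∈ fy Γ Ω (M : Set A))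
    (heq : (⟨u, hN hu⟩ : Γ) • ω = (⟨u', hN hu'⟩ : Γ) • ω') :
    (⟨u, hN hu⟩ : Γ) • ω ∈ fy Γ Ω ((M : Set A) ∪ (N : Set A)) := by
  let H : Subgroup A := (MulAction.stabilizer Γ ω').map Γ.subtype
  have hH : ∀ (a : A) (ha : a ∈ Γ), (⟨a, ha⟩ : Γ) • ω' = ω' → a ∈ H := fun a ha hfix =>
    ⟨⟨a, ha⟩, hfix, rfl⟩
  have hH' : ∀ a ∈ H, ∀ ha : a ∈ Γ, (⟨a, ha⟩ : Γ) • ω' = ω' := by
    rintro a ⟨b, hb, rfl⟩ ha
    exact hb
  have hMH : M ≤ H := fun m hm => hH m (hM hm) (hω' ⟨m, hM hm⟩ hm)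
  have hdN : u'⁻¹ * u ∈ N := N.mul_mem (N.inv_mem hu') hu
  have e1 : (⟨u'⁻¹ * u, hN hdN⟩ : Γ) • ω = ω' := by
    have : (⟨u'⁻¹ * u, hN hdN⟩ : Γ) = (⟨u', hN hu'⟩ : Γ)⁻¹ * ⟨u, hN hu⟩ := rfl
    rw [this, mul_smul, heq, inv_smul_smul]
  have hconj : ∀ m ∈ M, u'⁻¹ * u * m * (u'⁻¹ * u)⁻¹ ∈ H := by
    intro m hm
    refine hH _ (Γ.mul_mem (Γ.mul_mem (hN hdN) (hM hm)) (Γ.inv_mem (hN hdN))) ?_
    have : (⟨u'⁻¹ * u * m * (u'⁻¹ * u)⁻¹,
        Γ.mul_mem (Γ.mul_mem (hN hdN) (hM hm)) (Γ.inv_mem (hN hdN))⟩ : Γ) =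
        ⟨u'⁻¹ * u, hN hdN⟩ * ⟨m, hM hm⟩ * (⟨u'⁻¹ * u, hN hdN⟩ : Γ)⁻¹ := rfl
    rw [this, ← e1, mul_smul, inv_smul_smul, mul_smul, hω ⟨m, hM hm⟩ hm]
  have hNH := h _ hdN hd H hMH hconj
  have e2 : (⟨u', hN hu'⟩ : Γ) • ω' = ω' := hH' _ (hNH hu') _
  rw [heq, e2]
  intro γ hγ
  rcases hγ with hγ | hγ
  · exact hω' γ hγ
  · exact hH' _ (hNH hγ) γ.2

end MAU2M

open MAU2M in
/-- MAU2: the Mautner step. -/
theorem specMAU2 : SpecMAU2 := by
  intro A Ω _ Γ M N Z _ _ hM hN hfin hZN h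
  classical
  have := Fintype.ofFinite N
  have := Fintype.ofFinite Ω
  have hfZ : Finite Z := Finite.of_injective (Subgroup.inclusion hZN) (Subgroup.inclusion_injective _)
  have := Fintype.ofFinite Z
  set B := fy Γ Ω (M : Set A) with hB
  set C := fy Γ Ω ((M : Set A) ∪ (N : Set A)) with hC
  let D : N → Finset Ω := fun u => Finset.univ.filter fun ω =>
    ω ∈ B ∧ (⟨u.1, hN u.2⟩ : Γ) • ω ∉ C
  let f : (Σ u : N, {ω // ω ∈ D u}) → Ω := fun p => (⟨p.1.1, hN p.1.2⟩ : Γ) • p.2.1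
  let r : Ω → N := fun y => if hy : ∃ p, f p = y then hy.choose.1 else 1
  have hr : ∀ p, (r (f p))⁻¹.1 * p.1.1 ∈ Z := by
    intro p
    have hy : ∃ p', f p' = f p := ⟨p, rfl⟩
    have e0 : r (f p) = hy.choose.1 := dif_pos hy
    rw [e0]
    set p' := hy.choose with hp'
    have e1 : f p' = f p := hy.choose_spec
    by_contra hn
    have m1 := (Finset.mem_filter.mp p.2.2).2
    have m2 := (Finset.mem_filter.mp p'.2.2).2
    exact m1.2 (claim hM hN h p.1.1 p'.1.1 p.1.2 p'.1.2 hn p.2.1 p'.2.1 m1.1 m2.1 e1.symm)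
  have hinj : Function.Injective fun p : (Σ u : N, {ω // ω ∈ D u}) =>
      ((⟨(r (f p))⁻¹.1 * p.1.1, hr p⟩ : Z), f p) := by
    rintro ⟨u, ω, hω⟩ ⟨u', ω', hω'⟩ heq
    simp only [Prod.mk.injEq, Subtype.mk.injEq] at heq
    obtain ⟨h1, h2⟩ := heq
    rw [h2] at h1
    have h3 : u = u' := Subtype.ext (mul_left_cancel h1)
    subst h3
    have h4 := smul_left_cancel _ h2
    subst h4
    rfl
  have hcard := Fintype.card_le_of_injective _ hinj
  rw [Fintype.card_sigma, Fintype.card_prod] at hcard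
  have hD : ∀ u : N, B.ncard ≤ C.ncard + Fintype.card {ω // ω ∈ D u} := by
    intro u
    rw [Fintype.card_coe]
    have e1 : B ⊆ ((fun ω => (⟨u.1, hN u.2⟩ : Γ)⁻¹ • ω) '' C) ∪ (D u : Set Ω) := by
      intro ω hω
      by_cases hc : (⟨u.1, hN u.2⟩ : Γ) • ω ∈ C
      · exact Or.inl ⟨_, hc, inv_smul_smul _ _⟩
      · exact Or.inr (Finset.mem_coe.mpr (Finset.mem_filter.mpr ⟨Finset.mem_univ _, hω, hc⟩))
    calc B.ncard ≤ (((fun ω => (⟨u.1, hN u.2⟩ : Γ)⁻¹ • ω) '' C) ∪
          (D u : Set Ω)).ncard := Set.ncard_le_ncard e1 (Set.toFinite _)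
      _ ≤ ((fun ω => (⟨u.1, hN u.2⟩ : Γ)⁻¹ • ω) '' C).ncard + (D u : Set Ω).ncard :=
        Set.ncard_union_le _ _
      _ ≤ C.ncard + (D u).card := by
        rw [Set.ncard_coe_finset]
        exact Nat.add_le_add_right (Set.ncard_image_le (Set.toFinite _)) _
  have hsum : ∑ u : N, B.ncard ≤ ∑ u : N, (C.ncard + Fintype.card {ω // ω ∈ D u}) :=
    Finset.sum_le_sum fun u _ => hD u
  rw [Finset.sum_add_distrib, Finset.sum_const, Finset.sum_const, Finset.card_univ, smul_eq_mul,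
    smul_eq_mul] at hsum
  rw [Nat.card_eq_fintype_card, Nat.card_eq_fintype_card, Nat.card_eq_fintype_card]
  omega

end Pool.Agent.Lib.MP66ef6b.CL
end

section
set_option autoImplicit false

/-! # MP_66ef6b_al, THEOREM L2: module MN2 -/

namespace Pool.Agent.Lib.MP66ef6b.CL

universe u

namespace MN2M

theorem isCl_of_equiv {P Q : Type u} [Group P] [Group Q] (e : P ≃* Q) (h : IsCl P) : IsCl Q := by
  obtain ⟨K, iK, F, V₀, iV, iM, S₀, m, π, hC, hs, hk⟩ := h
  refine ⟨K, iK, F, V₀, iV, iM, S₀, m, e.toMonoidHom.comp π, hC, ?_, ?_⟩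
  · exact e.surjective.comp hs
  · intro g
    rw [← hk g, MonoidHom.comp_apply]
    exact e.map_eq_one_iff

theorem key {G : Type u} [Group G] (hG : LocFin G) (E₀ F : Subgroup G) (hE₀ : Finite E₀)
    (h : ∀ E : Subgroup G, Finite E → F ≤ E →
      ∃ (K : Subgroup G) (Y : Type u) (_ : Group Y) (T : Subgroup Y),
        ACFactors E₀ K ∧ Visible F E Y T ∧ CompFactor K T)
    (E : Subgroup G) (hE : Finite E) (hFE : F ≤ E) :
    ∃ (Y : Type u) (_ : Group Y) (T : Subgroup Y), Visible F E Y T ∧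
      ((∃ n : ℕ, Nonempty (T ≃* alternatingGroup (Fin n))) ∨ PL.IsPSL T ∨ IsCl T) := by
  have hfin : Finite (E ⊔ E₀ : Subgroup G) := UltaM.finite_sup hG E E₀ hE hE₀
  obtain ⟨K, Y, _, T, hK, hV, A, B, _, hA, ⟨e⟩⟩ := h (E ⊔ E₀) hfin (hFE.trans le_sup_left)
  have hV' := hV
  obtain ⟨X, ρ, S, hXf, hEX, hρs, hρi, hT, -⟩ := hV'
  have hTn : T.Normal := hT.normal
  have hs : IsSimpleGroup T := hT.simple
  have hs' : IsSimpleGroup (A ⧸ B) := e.isSimpleGroup
  have hnc : ∃ a b : A ⧸ B, a * b ≠ b * a := by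
    obtain ⟨a, ha, b, hb, hab⟩ := hT.noncomm
    refine ⟨e.symm ⟨a, ha⟩, e.symm ⟨b, hb⟩, fun h => hab ?_⟩
    rw [← map_mul, ← map_mul] at h
    exact congrArg Subtype.val (e.symm.injective h)
  have hE₀X : E₀ ≤ X := le_sup_right.trans hEX
  let φ : E₀ →* MulAut (A ⧸ B) := (MulAut.congr e.symm).toMonoidHom.comp
    ((MulAut.conjNormal (H := T)).comp (ρ.comp (Subgroup.inclusion hE₀X)))
  have hφ : Function.Injective φ := by
    rw [injective_iff_map_eq_one]
    intro x hx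
    have h1 : MulAut.conjNormal (H := T) (ρ (Subgroup.inclusion hE₀X x)) = 1 :=
      (MulAut.congr e.symm).map_eq_one_iff.1 hx
    have h2 : ρ (Subgroup.inclusion hE₀X x) ∈ Subgroup.centralizer (T : Set Y) := by
      rw [Subgroup.mem_centralizer_iff]
      intro t ht
      have h3 := congrArg (fun f : MulAut T => ((f ⟨t, ht⟩ : T) : Y)) h1
      simp only [MulAut.conjNormal_apply, MulAut.one_apply] at h3
      exact (mul_inv_eq_iff_eq_mul.1 h3).symm
    rw [hT.cent, Subgroup.mem_bot] at h2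
    have h4 : (Subgroup.inclusion hE₀X x : X) = 1 :=
      hρi _ ((le_sup_right : E₀ ≤ E ⊔ E₀) x.2) h2
    exact Subtype.ext (congrArg (fun y : X => (y : G)) h4)
  refine ⟨Y, _, T, hV.mono le_sup_left, ?_⟩
  rcases hK A B hA hs' hnc ⟨φ, hφ⟩ with ⟨n, ⟨e'⟩⟩ | hP | hP
  · exact Or.inl ⟨n, ⟨e.symm.trans e'⟩⟩
  · exact Or.inr (Or.inl (PL.MNLM.isPSL_of_equiv e hP))
  · exact Or.inr (Or.inr (isCl_of_equiv e hP))

end MN2M

theorem specMN2 (hLI2 : SpecLI2.{u}) (hLIN : PL.SpecLIN.{u}) : SpecMN2.{u} := by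
  intro G _ _ _ hG hL
  have hFG : SpecFG.{u} := specFG specMIN specDICH specPART specPOSA specPOSC
    (specPOS2 specCOUNT specLARGE) specCASE1
  have hLOCAL : SpecLOCAL.{u} := specLOCAL hFG specQUOT specTRA1 specTRA2 specTOWER
  have hALT : SpecALT.{u} := specALT (specAUTY specAUTN) specCYC specTOWER
  have hback := (specBACK specULIM : SpecBACK.{u}) G hG
  refine ⟨fun h => ?_, fun h => h.elim (fun h => h.finiteType) hback.2⟩
  obtain ⟨D₀, hD₀, hL⟩ := hL
  rcases alternative hG hLOCAL specULTA h (fun K => ACFactors D₀ K) hL with h | ⟨F, hF, h⟩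
  · exact Or.inl h
  · by_cases hA : ∀ E : Subgroup G, Finite E → F ≤ E → ∃ (n : ℕ) (Y : Type u) (_ : Group Y)
        (P : Subgroup Y), Visible F E Y P ∧ Nonempty (P ≃* alternatingGroup (Fin n))
    · exact Or.inr (hALT G hG F hF hA)
    · push Not at hA
      obtain ⟨E₀, hE₀, hFE₀, hA⟩ := hA
      refine Or.inl ?_
      by_cases hP : ∀ E : Subgroup G, Finite E → F ≤ E → ∃ (Y : Type u) (_ : Group Y)
        (Q : Subgroup Y), Visible F E Y Q ∧ PL.IsPSL Q
      · exact hLIN G hG F hF hP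
      · push Not at hP
        obtain ⟨E₁, hE₁, hFE₁, hP⟩ := hP
        refine hLI2 G hG F hF fun E hE hFE => ?_
        have hfin0 : Finite (E₀ ⊔ E₁ : Subgroup G) := UltaM.finite_sup hG E₀ E₁ hE₀ hE₁
        have hfin : Finite (E ⊔ (E₀ ⊔ E₁) : Subgroup G) :=
          UltaM.finite_sup hG E (E₀ ⊔ E₁) hE hfin0
        obtain ⟨Y, _, T, hV, hT⟩ := MN2M.key hG D₀ F hD₀ h (E ⊔ (E₀ ⊔ E₁)) hfin
          (hFE.trans le_sup_left)
        rcases hT with ⟨n, ⟨e⟩⟩ | hT | hT
        · exact absurd ⟨e⟩ (not_nonempty_iff.mpr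
            (hA n Y _ T (hV.mono (le_sup_left.trans le_sup_right))))
        · exact absurd hT (hP Y _ T (hV.mono (le_sup_right.trans le_sup_right)))
        · exact ⟨Y, _, T, hV.mono le_sup_left, hT⟩

end Pool.Agent.Lib.MP66ef6b.CL
end

section
/-! NOO: a non-orthogonal pair of good vectors. -/
set_option autoImplicit false

namespace Pool.Agent.Lib.MP66ef6b.CL

universe u

namespace NOOM

section

variable {K : Type} [Field K] {F : FD K} {V : Type} [AddCommGroup V] [Module K V]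

/-- multiples of good vectors are good. -/
theorem good_smul [Finite V] {S : Sq F V} {C : Subgroup (V ≃ₗ[K] V)} {s : ℕ} {y : V}
    (h : Good S C s y) {d : K} (hd : d ≠ 0) : Good S C s (d • y) := by
  obtain ⟨h1, h2, h3⟩ := h
  refine ⟨h1.smul d, smul_ne_zero hd h2, h3.trans (Nat.mul_le_mul_left _ ?_)⟩
  have hσd : F.σ d ≠ 0 := fun h => hd ((map_eq_zero F.σ).1 h)
  have hinj : Function.Injective (fun w : V => (F.σ d)⁻¹ • w) :=
    smul_right_injective V (inv_ne_zero hσd)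
  rw [← Set.ncard_image_of_injective (Lx S C y) hinj]
  apply Set.ncard_le_ncard _ (Set.toFinite _)
  rintro _ ⟨w, ⟨a, ha, hT⟩, rfl⟩
  have hσs : F.σ (F.σ d)⁻¹ = d⁻¹ := by rw [map_inv₀, F.inv]
  have hadm : S.Adm (d • y) ((F.σ d)⁻¹ • w) ((F.σ d)⁻¹ * d⁻¹ * a) := by
    refine ⟨h1.smul d, ?_, ?_⟩
    · rw [S.B_smul_left, S.B_smul_right, ha.orth, mul_zero, mul_zero]
    · rw [S.q_smul, hσs, ← mul_sub]
      have := F.sc ha.par (F.σ d)⁻¹
      rwa [hσs] at this
  refine ⟨(F.σ d)⁻¹ * d⁻¹ * a, hadm, ?_⟩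
  rw [Sq.T_smul hadm h1 (by rw [S.B_smul_right, ha.orth, mul_zero]), smul_smul,
    mul_inv_cancel₀ hσd, one_smul]
  have e : d * F.σ d * ((F.σ d)⁻¹ * d⁻¹ * a) = a := by
    field_simp
  rw [e]
  exact hT

/-- totally isotropic subspaces. -/
theorem iso_card [Finite K] [Finite V] {S : Sq F V} (hnd : ∀ x : V, x ≠ 0 → ∃ v, S.B v x ≠ 0)
    (U : Submodule K V) (hU : ∀ v ∈ U, ∀ w ∈ U, S.B v w = 0) :
    Nat.card U ^ 2 ≤ Nat.card V := by
  have hfin : Module.Finite K V := Module.Finite.of_finite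
  let lin : U → (V →ₗ[K] K) := fun u =>
    { toFun := fun v => S.B v u
      map_add' := fun v w => S.B_add_left v w u
      map_smul' := fun c v => S.B_smul_left c v u }
  let ψ : U → Module.Dual K (V ⧸ U) := fun u => U.liftQ (lin u) (fun v hv => by
    rw [LinearMap.mem_ker]
    exact hU v hv u u.2)
  have hψ : Function.Injective ψ := by
    intro u u' huu
    by_contra hne
    have h1 : (u : V) - u' ≠ 0 := fun h => hne (Subtype.ext (sub_eq_zero.1 h))
    obtain ⟨v, hv⟩ := hnd _ h1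
    apply hv
    rw [S.B_sub_right]
    have h2 : ψ u (U.mkQ v) = ψ u' (U.mkQ v) := by rw [huu]
    have h3 : S.B v u = S.B v u' := h2
    rw [h3, sub_self]
  have hfD : Finite (Module.Dual K (V ⧸ U)) := Module.finite_of_finite K
  have h1 : Nat.card U ≤ Nat.card (Module.Dual K (V ⧸ U)) := Nat.card_le_card_of_injective ψ hψ
  have h2 : Nat.card (Module.Dual K (V ⧸ U)) = Nat.card (V ⧸ U) := by
    rw [Module.natCard_eq_pow_finrank (K := K), Module.natCard_eq_pow_finrank (K := K) (V := V ⧸ U),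
      Subspace.dual_finrank_eq]
  have h3 : Nat.card V = Nat.card U * Nat.card (V ⧸ U) := Submodule.card_eq_card_quotient_mul_card U
  rw [h3, pow_two, ← h2]
  exact Nat.mul_le_mul_left _ h1

/-- the span of a set of pairwise orthogonal vectors. -/
theorem span_iso {S : Sq F V} {A : Set V} (hA : ∀ x ∈ A, ∀ y ∈ A, S.B x y = 0) :
    ∀ v ∈ Submodule.span K A, ∀ w ∈ Submodule.span K A, S.B v w = 0 := by
  have h1 : ∀ v ∈ Submodule.span K A, ∀ y ∈ A, S.B v y = 0 := by
    intro v hv y hy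
    induction hv using Submodule.span_induction with
    | mem x hx => exact hA x hx y hy
    | zero => exact S.B_zero_left y
    | add a b _ _ ha hb => rw [S.B_add_left, ha, hb, add_zero]
    | smul c a _ ha => rw [S.B_smul_left, ha, mul_zero]
  intro v hv w hw
  induction hw using Submodule.span_induction with
  | mem x hx => exact h1 v hv x hx
  | zero => exact S.B_zero_right v
  | add a b _ _ ha hb => rw [S.B_add_right, ha, hb, add_zero]
  | smul c a _ ha => rw [S.B_smul_right, ha, mul_zero]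

end

end NOOM

theorem specNOO (hNSG : SpecNSG) : SpecNOO := by
  classical
  intro K _ F V₀ _ _ S₀ m s s' hC hsm C hG
  have hfK := hC.finK
  have hfM := hC.finV
  have hfV₀ : Finite V₀ := Module.finite_of_finite K
  have hfV : Finite (SV K V₀ m) := inferInstance
  obtain ⟨n1, -, -⟩ := hNSG K F V₀ S₀ m hC
  set S := S₀.std m with hS
  by_cases hex : ∃ x y, Good S C s' x ∧ Good S C s' y ∧ S.B x y ≠ 0
  · obtain ⟨x, y, hx, hy, hxy⟩ := hex
    have hσ : F.σ (S.B x y)⁻¹ ≠ 0 := fun h => inv_ne_zero hxy ((map_eq_zero F.σ).1 h)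
    refine ⟨x, F.σ (S.B x y)⁻¹ • y, hx, NOOM.good_smul hy hσ, ?_⟩
    rw [S.B_smul_right, F.inv, inv_mul_cancel₀ hxy]
  exfalso
  push Not at hex
  set A : Set (SV K V₀ m) := {x | Good S C s' x} with hA
  have hU := NOOM.span_iso (S := S) (A := A) (fun x hx y hy => hex x y hx hy)
  set U := Submodule.span K A with hUdef
  have hnd : ∀ x : SV K V₀ m, x ≠ 0 → ∃ v, S.B v x ≠ 0 := fun x hx =>
    TXCM.exists_B_ne hC.nd hx
  have h1 := NOOM.iso_card hnd U hU
  set q := Nat.card K with hq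
  have hq2 : 1 < q := Finite.one_lt_card
  have hcard : Nat.card (SV K V₀ m) = q ^ (2 * m + Module.finrank K V₀) := by
    rw [Nat.card_prod, Nat.card_prod, Nat.card_fun, Nat.card_fin,
      Module.natCard_eq_pow_finrank (K := K) (V := V₀), ← hq]
    ring
  have h2 : Nat.card U ≤ q ^ (m + 1) := by
    have h3 : Nat.card U ^ 2 ≤ (q ^ (m + 1)) ^ 2 := by
      refine h1.trans ?_
      rw [hcard, ← pow_mul]
      apply Nat.pow_le_pow_right (by omega)
      have := hC.dim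
      omega
    exact (Nat.pow_le_pow_iff_left (by norm_num)).1 h3
  have h4 : A.ncard ≤ Nat.card U := by
    have h5 : Nat.card U = (U : Set (SV K V₀ m)).ncard := Nat.card_coe_set_eq _
    rw [h5]
    exact Set.ncard_le_ncard Submodule.subset_span (Set.toFinite _)
  have h6 : q ^ (2 * m) ≤ q ^ (s + m + 4) := by
    calc q ^ (2 * m) ≤ q ^ (2 * m + Module.finrank K V₀) :=
          Nat.pow_le_pow_right (by omega) (Nat.le_add_right _ _)
      _ = Nat.card (SV K V₀ m) := hcard.symm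
      _ ≤ q ^ 2 * {x | S.Sg x ∧ x ≠ 0}.ncard := n1
      _ ≤ q ^ 2 * (q ^ (s + 1) * A.ncard) := Nat.mul_le_mul_left _ hG
      _ ≤ q ^ 2 * (q ^ (s + 1) * q ^ (m + 1)) :=
          Nat.mul_le_mul_left _ (Nat.mul_le_mul_left _ (h4.trans h2))
      _ = q ^ (s + m + 4) := by ring
  have h7 := (Nat.pow_le_pow_iff_right hq2).1 h6
  omega

end Pool.Agent.Lib.MP66ef6b.CL
end
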