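import Pool.Agent.Lib.MP_66ef6b_al.CL.SpecD
import Pool.Agent.Lib.MP_66ef6b_al.CL.SGY

set_option autoImplicit false

/-!
# MP_66ef6b_al, THEOREM L2 (helper14). Part E: automorphisms, the group `G`

`P` is a group with a surjective homomorphism `π : Γ →* P` whose kernel consists of the scalars.

TARGET (INN): an automorphism `e` of `P` whose fixed subgroup has index at most `q₀^(r m)` (`|K| < q₀`, `m` large) is
induced by an isometry `A` of `V` with `rank (A - 1) ≤ d`, `d` depending only on `q₀, r`.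

PLAN. The fixed subgroup `C` contains `T x w 0` for a positive proportion of the pairs `(x, w)` (HEI: a Fourier
count; PRS, DEN). So there are non-orthogonal singular vectors `x, y` such that `C` contains most of
`N_x = {T x w a}` and `N_y` (GOO, NOO, LXK). By a rank argument `e` preserves `N_x` and `N_y` (RNK, NXX). Its action on
`N_x / Z_x ≅ W = ⟨x, y⟩^⊥` is an isometry `θ` (TH1, TH2, ISO), `A = 1 ⊥ θ`. `A⁻¹ e` is trivial (E1M, E1N, E1Y).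
TARGET (MN2): THEOREM L2.
-/

namespace Pool.Agent.Lib.MP66ef6b.CL

open PL (SLn fx)

universe u

section defs

variable {K : Type} [Field K] {F : FD K} {V₀ : Type} [AddCommGroup V₀] [Module K V₀]
  {S₀ : Sq F V₀} {m : ℕ} {P : Type u} [Group P]

/-- `π` is the quotient map by the scalars. -/
def Ker (π : (S₀.std m).D ⊤ →* P) : Prop :=
  Function.Surjective π ∧ ∀ g : (S₀.std m).D ⊤, π g = 1 ↔ ∃ c : K, ∀ v, g.1 v = c • v

/-- `e` maps the image of `g ∈ Γ` in `P` to the image of `g' ∈ Γ`. -/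
def Mp (π : (S₀.std m).D ⊤ →* P) (e : P ≃* P) (g g' : SV K V₀ m ≃ₗ[K] SV K V₀ m) : Prop :=
  ∃ (h : g ∈ (S₀.std m).D ⊤) (h' : g' ∈ (S₀.std m).D ⊤), e (π ⟨g, h⟩) = π ⟨g', h'⟩

/-- `e` maps `N_x = {T x w a}` to itself. -/
def Nst (π : (S₀.std m).D ⊤ →* P) (e : P ≃* P) (x : SV K V₀ m) : Prop :=
  ∀ (w : SV K V₀ m) (a : K), (S₀.std m).Adm x w a → ∃ (w' : SV K V₀ m) (a' : K),
    (S₀.std m).Adm x w' a' ∧ Mp π e ((S₀.std m).T x w a) ((S₀.std m).T x w' a')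

/-- the fixed elements, as a subgroup of `Γ`. -/
def FxG (π : (S₀.std m).D ⊤ →* P) (e : P ≃* P) : Subgroup (SV K V₀ m ≃ₗ[K] SV K V₀ m) where
  carrier := {g | Mp π e g g}
  mul_mem' := by
    rintro g h ⟨h1, h1', h2⟩ ⟨h3, h3', h4⟩
    refine ⟨Subgroup.mul_mem _ h1 h3, Subgroup.mul_mem _ h1 h3, ?_⟩
    have h5 : (⟨g * h, Subgroup.mul_mem _ h1 h3⟩ : (S₀.std m).D ⊤) = ⟨g, h1⟩ * ⟨h, h3⟩ := rfl
    rw [h5, map_mul, map_mul, h2, h4]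
  one_mem' := by
    refine ⟨Subgroup.one_mem _, Subgroup.one_mem _, ?_⟩
    have h5 : (⟨1, Subgroup.one_mem _⟩ : (S₀.std m).D ⊤) = 1 := rfl
    rw [h5, map_one, map_one]
  inv_mem' := by
    rintro g ⟨h1, h1', h2⟩
    refine ⟨Subgroup.inv_mem _ h1, Subgroup.inv_mem _ h1, ?_⟩
    have h5 : (⟨g⁻¹, Subgroup.inv_mem _ h1⟩ : (S₀.std m).D ⊤) = ⟨g, h1⟩⁻¹ := rfl
    rw [h5, map_inv, map_inv, h2]

/-- the `w` such that some `T x w a` is in `C`. -/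
def Lx {V : Type} [AddCommGroup V] [Module K V] (S : Sq F V) (C : Subgroup (V ≃ₗ[K] V)) (x : V) :
    Set V :=
  {w | ∃ a : K, S.Adm x w a ∧ S.T x w a ∈ C}

/-- `C` contains most of `N_x`. -/
def Good {V : Type} [AddCommGroup V] [Module K V] (S : Sq F V) (C : Subgroup (V ≃ₗ[K] V)) (s : ℕ)
    (x : V) : Prop :=
  S.Sg x ∧ x ≠ 0 ∧ Nat.card V ≤ Nat.card K ^ s * (Lx S C x).ncard

/-- the subspace `⟨x, y⟩^⊥`. -/
def Wp {V : Type} [AddCommGroup V] [Module K V] (S : Sq F V) (x y : V) : Submodule K V where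
  carrier := {v | S.B v x = 0 ∧ S.B v y = 0}
  add_mem' := by
    rintro u v ⟨h1, h2⟩ ⟨h3, h4⟩
    exact ⟨by rw [S.B_add_left, h1, h3, add_zero], by rw [S.B_add_left, h2, h4, add_zero]⟩
  zero_mem' := ⟨S.B_zero_left x, S.B_zero_left y⟩
  smul_mem' := by
    rintro c v ⟨h1, h2⟩
    exact ⟨by rw [S.B_smul_left, h1, mul_zero], by rw [S.B_smul_left, h2, mul_zero]⟩

/-- the vector with the coordinates `u` at `0, .., k - 1`. -/
def ix {k m : ℕ} (V₀ : Type) [AddCommGroup V₀] (u : Fin k → K) : SV K V₀ m :=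
  (fun i => if h : i.val < k then u ⟨i.val, h⟩ else 0, 0, 0)

/-- the vector with the coordinates `w` at `k, .., 2 k - 1`. -/
def iy {k m : ℕ} (V₀ : Type) [AddCommGroup V₀] (w : Fin k → K) : SV K V₀ m :=
  (fun i => if h : k ≤ i.val ∧ i.val < 2 * k then w ⟨i.val - k, by omega⟩ else 0, 0, 0)

/-- the element `z ∈ Y` acts on `P` (the image of `Γ`) as the isometry `A`. -/
def Ind {Y : Type u} [Group Y] {P : Subgroup Y} (π : (S₀.std m).D ⊤ →* P) (z : Y)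
    (A : SV K V₀ m ≃ₗ[K] SV K V₀ m) : Prop :=
  A ∈ (S₀.std m).Iso ∧ ∀ (g : (S₀.std m).D ⊤) (h : A * g.1 * A⁻¹ ∈ (S₀.std m).D ⊤),
    z * (π g : Y) * z⁻¹ = (π ⟨A * g.1 * A⁻¹, h⟩ : Y)

end defs

/-- the rank of `A - 1`. -/
noncomputable def rk {K V : Type} [Field K] [AddCommGroup V] [Module K V] (A : V ≃ₗ[K] V) : ℕ :=
  Module.finrank K (LinearMap.range (A.toLinearMap - LinearMap.id))

/-- The centraliser of the image of `f` in a classical socle is large. -/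
def CData {G : Type u} [Group G] (q₀ r m : ℕ) (f : G) (E : Subgroup G) : Prop :=
  ∃ (X : Subgroup G) (Y : Type u) (_ : Group Y) (ρ : X →* Y) (P : Subgroup Y) (x : X)
    (K : Type) (_ : Field K) (F : FD K) (V₀ : Type) (_ : AddCommGroup V₀) (_ : Module K V₀)
    (S₀ : Sq F V₀) (m' : ℕ) (π : (S₀.std m').D ⊤ →* P), Finite X ∧ E ≤ X ∧
    Function.Surjective ρ ∧ (∀ x : X, (x : G) ∈ E → ρ x = 1 → x = 1) ∧ IsSocle P ∧ Cls S₀ m' ∧
    Ker π ∧ Nat.card K < q₀ ∧ m < m' ∧ (x : G) = f ∧ ρ x ≠ 1 ∧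
    (Subgroup.centralizer ({ρ x} : Set Y)).relIndex P ≤ q₀ ^ (r * m')

/-- `f` acts on a classical socle as an isometry of small support. -/
def IData {G : Type u} [Group G] (q₀ d m : ℕ) (f : G) (E : Subgroup G) : Prop :=
  ∃ (X : Subgroup G) (Y : Type u) (_ : Group Y) (ρ : X →* Y) (P : Subgroup Y) (x : X)
    (K : Type) (_ : Field K) (F : FD K) (V₀ : Type) (_ : AddCommGroup V₀) (_ : Module K V₀)
    (S₀ : Sq F V₀) (m' : ℕ) (π : (S₀.std m').D ⊤ →* P) (A : SV K V₀ m' ≃ₗ[K] SV K V₀ m'),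
    Finite X ∧ E ≤ X ∧
    Function.Surjective ρ ∧ (∀ x : X, (x : G) ∈ E → ρ x = 1 → x = 1) ∧ IsSocle P ∧ Cls S₀ m' ∧
    Ker π ∧ Nat.card K < q₀ ∧ m < m' ∧ (x : G) = f ∧ ρ x ≠ 1 ∧ Ind π (ρ x) A ∧ rk A ≤ d

/-! ## Part 1: large centralisers -/

/-- RKN [120 lines]. The number of linear maps of rank at most `R`.

Proof. Such a map is a composition `V → K^R → V`. -/
def SpecRKN : Prop := ∀ (K V : Type) [Field K] [Finite K] [AddCommGroup V] [Module K V]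
  [Module.Finite K V] (R : ℕ),
  {f : V →ₗ[K] V | Module.finrank K (LinearMap.range f) ≤ R}.ncard ≤
    Nat.card K ^ (2 * R * Module.finrank K V)

/-- PKU [150 lines]. `PL.SpecAVG` and `PL.SpecPICK` (2) for `Type u`.

Proof. Copy `PL/AVG.lean` and `PL/PICK.lean`. -/
def SpecPKU : Prop := ∀ (Γ Ω : Type u) [Group Γ] [MulAction Γ Ω] [Finite Ω] [Nonempty Ω]
  (T : Subgroup Γ) [Finite T] (f : Γ) (δ : ℝ), 0 < δ → δ ≤ 1 →
  δ * Nat.card Ω ≤ {ω : Ω | f • ω = ω}.ncard → δ ^ 2 / 2 * Nat.card T ≤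
    {t | t ∈ T ∧ δ ^ 2 / 2 * Nat.card Ω ≤ {ω : Ω | (f * t * f⁻¹ * t⁻¹) • ω = ω}.ncard}.ncard

/-- SUA [120 lines] (THC). THC for `Y ⧸ S`.

Proof. `Γ` acts on `Y ⧸ S` through `π`, without global fixed points (`P ≤ y S y⁻¹` would give `P ≤ S`). Transfer to
`Ω = Fin (Nat.card (Y ⧸ S))` (universe 0). -/
def SpecSUA : Prop := ∀ δ : ℝ, 0 < δ → δ ≤ 1 → ∃ q R : ℕ, ∀ (K : Type) [Field K] (F : FD K)
  (V₀ : Type) [AddCommGroup V₀] [Module K V₀] (S₀ : Sq F V₀) (m : ℕ), Cls S₀ m →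
  ∀ (Y : Type u) [Group Y] [Finite Y] (P S : Subgroup Y) (π : (S₀.std m).D ⊤ →* P), P.Normal →
  ¬ P ≤ S → Function.Surjective π → ∀ g : (S₀.std m).D ⊤, (¬ ∃ c : K, ∀ v, g.1 v = c • v) →
  δ * Nat.card (Y ⧸ S) ≤ {ω : Y ⧸ S | (π g : Y) • ω = ω}.ncard → Nat.card K < q ∧
    ∃ a : K, Module.finrank K (LinearMap.range (g.1.toLinearMap - a • LinearMap.id)) ≤ R

/-- SUB [150 lines] (PKU). One element of `F`.

Proof. `y ρ(x) y⁻¹ ∈ S` means that `ρ x` fixes `y⁻¹ S`. So for every `ω ∈ Y ⧸ S` there is such an `x`, and one `x` has at least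
`|Y ⧸ S| / |F|` fixed points. PKU with `δ = 1 / |F|`, `T = P`, `f = ρ x`. -/
def SpecSUB : Prop := ∀ (G : Type u) [Group G] (F X : Subgroup G) (Y : Type u) [Group Y]
  (ρ : X →* Y) (P S : Subgroup Y), Finite F → Finite X → Function.Surjective ρ → P.Normal →
  (∀ y : Y, ∃ x : X, (x : G) ∈ F ∧ x ≠ 1 ∧ y * ρ x * y⁻¹ ∈ S) →
  ∃ x : X, (x : G) ∈ F ∧ x ≠ 1 ∧ (1 / (Nat.card F : ℝ)) ^ 2 / 2 * Nat.card P ≤
    {t | t ∈ P ∧ (1 / (Nat.card F : ℝ)) ^ 2 / 2 * Nat.card (Y ⧸ S) ≤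
      {ω : Y ⧸ S | (ρ x * t * (ρ x)⁻¹ * t⁻¹) • ω = ω}.ncard}.ncard

/-- FIB [80 lines]. Fibres of the commutator map.

Proof. `[z, t] = [z, t']` iff `t⁻¹ t'` centralises `z`; so the fibres of `t ↦ [z, t]` on `P` have at most `|C_P(z)|` elements,
`|P| = relIndex · |C_P(z)|`. -/
def SpecFIB : Prop := ∀ (Y : Type u) [Group Y] [Finite Y] (P : Subgroup Y) (z : Y) (A : Set Y),
  (Subgroup.centralizer ({z} : Set Y)).relIndex P * {t | t ∈ P ∧ z * t * z⁻¹ * t⁻¹ ∈ A}.ncard ≤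
    A.ncard * Nat.card P

/-- SZS [120 lines]. Orders.

Proof. (1) `Y` acts faithfully on `P` by conjugation (`IsSocle.cent`). (2) `P` acts faithfully (it is simple) on the cosets of
`H ⊓ P`. (3) `P` is a quotient of a group of linear maps of a space of dimension at most `2 m + 2`. -/
def SpecSZS : Prop := (∀ (Y : Type u) [Group Y] [Finite Y] (P : Subgroup Y), IsSocle P →
  Nat.card Y ≤ (Nat.card P).factorial ∧
    ∀ H : Subgroup Y, ¬ P ≤ H → Nat.card P ≤ (H.relIndex P).factorial) ∧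
  ∀ (K : Type) [Field K] (F : FD K) (V₀ : Type) [AddCommGroup V₀] [Module K V₀] (S₀ : Sq F V₀)
    (m : ℕ), Cls S₀ m → ∀ (P : Type u) [Group P] (π : (S₀.std m).D ⊤ →* P), Function.Surjective π →
    Nat.card P ≤ Nat.card K ^ ((2 * m + 2) ^ 2)

/-- CRK [80 lines] (RKN). Images of elements of small rank.

Proof. `g = (g - a) + a`; RKN, and at most `|K|` choices of `a`; `dim V ≤ 2 m + 2`. -/
def SpecCRK : Prop := ∀ (K : Type) [Field K] (F : FD K) (V₀ : Type) [AddCommGroup V₀]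
  [Module K V₀] (S₀ : Sq F V₀) (m R : ℕ), Cls S₀ m → ∀ (P : Type u) [Group P]
  (π : (S₀.std m).D ⊤ →* P),
  {p : P | ∃ g : (S₀.std m).D ⊤, π g = p ∧ ∃ a : K,
    Module.finrank K (LinearMap.range (g.1.toLinearMap - a • LinearMap.id)) ≤ R}.ncard ≤
      Nat.card K ^ (2 * R * (2 * m + 2) + 1)

/-- SUC [200 lines] (SUA, SUB, FIB, SZS, CRK). Large centralisers.

Proof. `δ = 1 / |F|`, `δ₁ = δ² / 2`, `q₁, R` from SUA for `δ₁`; `q₀ = max (q₁, 2 |F|², 2)`, `r = 8 R + 2`. Let `Visible F E Y P` with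
`X, ρ, S`, `π : Γ → P`. SUB: `x`; at least `δ₁ |P|` elements `t ∈ P` are such that `[ρ x, t]` (in `P`, normal) has at least
`δ₁ |Ω|` fixed points. By SUA `[ρ x, t] = 1`, or `|K| < q₁` and `[ρ x, t]` is the image of a `g ∈ Γ` with `rank (g - a) ≤ R` for some
`a`. (If `π g = [ρ x, t] ≠ 1` then `g` is not scalar: `Ker π`.) FIB with `A` = the set of these elements, `I` = the index of the
centraliser: `δ₁ I ≤ |A|`. Case `|K| ≥ q₁`: `|A| ≤ 1`, `I ≤ 2 |F|²`; `C(ρ x)` does not contain `P` (`x ∈ F ≤ E`, so `ρ x ≠ 1`;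
`IsSocle.cent`), so `|P| ≤ (2 |F|²)!` and `|E| ≤ |Y| ≤ |P|!` (SZS): impossible for large `|E|`. Case `|K| < q₁`: CRK (`1 = π 1` is
in this set): `I ≤ 2 |F|² q₁^(4 R m' + 4 R + 1) ≤ q₀^(r m')`. `m < m'`: `|P| ≤ |K|^((2 m' + 2)²)` (SZS (3)). -/
def SpecSUC : Prop := ∀ (G : Type u) [Group G] (F : Subgroup G), Finite F →
  ∃ q₀ r : ℕ, ∀ m : ℕ, ∃ B : ℕ, ∀ E : Subgroup G, Finite E → F ≤ E → B < Nat.card E →
  (∃ (Y : Type u) (_ : Group Y) (P : Subgroup Y), Visible F E Y P ∧ IsCl P) →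
  ∃ f ∈ F, f ≠ 1 ∧ CData q₀ r m f E

/-- CS2 [100 lines]. One element `f` for all `E` (as `PL.SpecCST`, see `PL/CST.lean`). -/
def SpecCS2 : Prop := ∀ (G : Type u) [Group G] [Infinite G], LocFin G → ∀ F : Subgroup G, Finite F →
  ∀ q₀ r : ℕ, (∀ m : ℕ, ∃ B : ℕ, ∀ E : Subgroup G, Finite E → F ≤ E → B < Nat.card E →
    ∃ f ∈ F, f ≠ 1 ∧ CData q₀ r m f E) →
  ∃ f ∈ F, f ≠ 1 ∧ ∀ (m : ℕ) (E : Subgroup G), Finite E → F ≤ E → CData q₀ r m f E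

/-! ## Part 2: the Fourier count -/

/-- HEI [250 lines]. Matrices of rank one in a large subgroup.

Proof. All groups are elementary abelian `p`-groups. Let `χ` be a character of `M = Matrix k k` trivial on `J`,
`K_χ = {u | χ(u wᵀ) = 1 for all w}`. (1) `q^k ≤ q^t |K_χ|`: for `X ∈ Matrix k b` let `χ_X` be the character `Y ↦ χ(X Y)` of
`Matrix b k`; `X Y = ∑_l x_l y_lᵀ` (columns of `X`, rows of `Y`), so `χ_X = 1` iff all columns of `X` are in `K_χ`. For `X ∈ L₁` the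
character `χ_X` is trivial on `L₂`; there are `index L₂` such characters. So `|L₁| ≤ index L₂ · |K_χ|^b`, `|L₁| = q^(k b) / index L₁`,
`q^(k b) ≤ q^(b t) |K_χ|^b`. (2) `∑_(u,w) χ(u wᵀ) = q^k |K_χ| ≥ q^(2 k - t)`. The number of the `(u, w)` with `u wᵀ ∈ J` is the average of
these sums over all characters `χ` trivial on `J`. (Or with linear functionals over `𝔽_p`: `{w | u wᵀ ∈ J}` has
`q^k |{χ | u ∈ K_χ}| / |M / J|` elements.) -/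
def SpecHEI : Prop := ∀ (K : Type) [Field K] [Finite K] (k b t : ℕ)
  (J : AddSubgroup (Matrix (Fin k) (Fin k) K)) (L₁ : AddSubgroup (Matrix (Fin k) (Fin b) K))
  (L₂ : AddSubgroup (Matrix (Fin b) (Fin k) K)), 1 ≤ b → (∀ X ∈ L₁, ∀ Y ∈ L₂, X * Y ∈ J) →
  L₁.index * L₂.index ≤ Nat.card K ^ (b * t) → Nat.card K ^ (2 * k) ≤
    Nat.card K ^ t * {p : (Fin k → K) × (Fin k → K) | Matrix.vecMulVec p.1 p.2 ∈ J}.ncard

/-- PRS [250 lines] (HEI, LMD). Siegel transformations in a large subgroup.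

Proof. `b = m - 2 k`. `t₁ X = lam (1 + ∑ X_il E_(i, 2k+l))` (`i < k`, `l < b`), `t₂ Y = z_D`, `D_(2k+l, k+j) = Y_lj`, `D_(k+j, 2k+l) = -ε σ(Y_lj)`,
`t₃ Z = z_D`, `D_(i, k+j) = Z_ij`, `D_(k+j, i) = -ε σ(Z_ij)`: injective homomorphisms. `[t₁ X, t₂ Y] = t₃ (X Y)` (`lam g z_D (lam g)⁻¹ =
z_(g D σ(g)ᵀ)`). `L₁, L₂, J` = preimages of `C`, of index at most `C.relIndex Γ`. `T (ix u) (iy w) 0 = t₃ Z` with `Z_ij = -u_i σ(w_j)`:
(`B(y, ix u) = ε ∑ σ(u_i) y'_i`). HEI, and the bijection `(u, w) ↦ (-u, σ(w))`. -/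
def SpecPRS : Prop := ∀ (K : Type) [Field K] [Finite K] (F : FD K) (V₀ : Type) [AddCommGroup V₀]
  [Module K V₀] [Module.Finite K V₀] (S₀ : Sq F V₀) (m k t : ℕ), 2 * k < m →
  ∀ C : Subgroup (SV K V₀ m ≃ₗ[K] SV K V₀ m), C ≤ (S₀.std m).D ⊤ →
  C.relIndex ((S₀.std m).D ⊤) ^ 2 ≤ Nat.card K ^ ((m - 2 * k) * t) →
  Nat.card K ^ (2 * k) ≤ Nat.card K ^ t *
    {p : (Fin k → K) × (Fin k → K) |
      (S₀.std m).T (ix (m := m) V₀ p.1) (iy V₀ p.2) 0 ∈ C}.ncard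

/-- DEN [150 lines] (PRS, WT2). A positive proportion.

Proof. `k = t + 2`. For `g ∈ Γ` apply PRS to `g⁻¹ C g`: at least `q^(2k-t) - 2 q^k ≥ q^(2k-t-1)` pairs `(u, w)` with `u, w ≠ 0` have
`T (g (ix u)) (g (iy w)) 0 ∈ C`. Sum over `g ∈ Γ`: `Γ` is transitive on `TPs` (WT2), so for each `(u, w)` the number of the `g` is
`|Γ| ν`, `ν` = the proportion of the `τ ∈ TPs` with `T τ.1 τ.2 0 ∈ C`. `q^(2k-t-1) ≤ q^(2k) ν`. -/
def SpecDEN : Prop := ∀ (K : Type) [Field K] (F : FD K) (V₀ : Type) [AddCommGroup V₀]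
  [Module K V₀] (S₀ : Sq F V₀) (m t : ℕ), Cls S₀ m → 2 * (t + 2) < m →
  ∀ C : Subgroup (SV K V₀ m ≃ₗ[K] SV K V₀ m), C ≤ (S₀.std m).D ⊤ →
  C.relIndex ((S₀.std m).D ⊤) ^ 2 ≤ Nat.card K ^ ((m - 2 * (t + 2)) * t) →
  (S₀.std m).TPs.ncard ≤ Nat.card K ^ (t + 1) *
    {τ | τ ∈ (S₀.std m).TPs ∧ (S₀.std m).T τ.1 τ.2 0 ∈ C}.ncard

/-- NSG [120 lines] (WT1). Numbers of singular vectors.

Proof. (1) Vectors with `f_0`-coordinate `1` and arbitrary coordinates except at `e_0`: `q^(n-2)` choices, and at least one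
choice for the last coordinate. (2) WT1: `x = e_0`; `w` with `f_0`-coordinate `0`, `f_1`-coordinate `1`, one choice at `e_1`. (3) WT1. -/
def SpecNSG : Prop := ∀ (K : Type) [Field K] (F : FD K) (V₀ : Type) [AddCommGroup V₀]
  [Module K V₀] (S₀ : Sq F V₀) (m : ℕ), Cls S₀ m →
  Nat.card (SV K V₀ m) ≤ Nat.card K ^ 2 * {x | (S₀.std m).Sg x ∧ x ≠ 0}.ncard ∧
  (∀ x, (S₀.std m).Sg x → x ≠ 0 → Nat.card (SV K V₀ m) ≤ Nat.card K ^ 3 *
    {w | (x, w) ∈ (S₀.std m).TPs}.ncard) ∧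
  ∀ x x', (S₀.std m).Sg x → x ≠ 0 → (S₀.std m).Sg x' → x' ≠ 0 →
    {w | (x, w) ∈ (S₀.std m).TPs}.ncard = {w | (x', w) ∈ (S₀.std m).TPs}.ncard

/-- GOO [150 lines] (NSG). Many good vectors.

Proof. `N` = the number of `w` with `(x, w) ∈ TPs`, `g_x` = the number of these with `T x w 0 ∈ C`; `g_x ≤ |Lx|`. If
`g_x q^(s+1) ≥ N` then `x` is good (NSG (2)). `∑ g_x ≥ Σ N q^(-s)` (`Σ` = the number of singular vectors) and
`∑ g_x ≤ #good · N + Σ N q^(-s-1)`. -/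
def SpecGOO : Prop := ∀ (K : Type) [Field K] (F : FD K) (V₀ : Type) [AddCommGroup V₀]
  [Module K V₀] (S₀ : Sq F V₀) (m s : ℕ), Cls S₀ m → ∀ C : Subgroup (SV K V₀ m ≃ₗ[K] SV K V₀ m),
  (S₀.std m).TPs.ncard ≤ Nat.card K ^ s *
    {τ | τ ∈ (S₀.std m).TPs ∧ (S₀.std m).T τ.1 τ.2 0 ∈ C}.ncard →
  {x | (S₀.std m).Sg x ∧ x ≠ 0}.ncard ≤ Nat.card K ^ (s + 1) *
    {x | Good (S₀.std m) C (s + 4) x}.ncard

/-- NOO [150 lines] (NSG). A non-orthogonal pair.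

Proof. If any two good vectors are orthogonal then they span a subspace `U` with `B = 0` on `U` (`B(x,x) = 0`), so
`2 dim U ≤ n ≤ 2 m + 2`, and there are at most `q^(m+1)` of them; but there are at least `q^(n-2-(s+1)) ≥ q^(2m-s-3)`. So
`B(x, y) = c ≠ 0`; replace `y` by `σ(c⁻¹) y`, good because `T (d y) w a = T y (σ(d) w) (d σ(d) a)`. -/
def SpecNOO : Prop := ∀ (K : Type) [Field K] (F : FD K) (V₀ : Type) [AddCommGroup V₀]
  [Module K V₀] (S₀ : Sq F V₀) (m s s' : ℕ), Cls S₀ m → s + 5 ≤ m →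
  ∀ C : Subgroup (SV K V₀ m ≃ₗ[K] SV K V₀ m),
  {x | (S₀.std m).Sg x ∧ x ≠ 0}.ncard ≤ Nat.card K ^ (s + 1) *
    {x | Good (S₀.std m) C s' x}.ncard →
  ∃ x y, Good (S₀.std m) C s' x ∧ Good (S₀.std m) C s' y ∧ (S₀.std m).B x y = 1

/-- LXK [120 lines]. Subspaces in large additive subgroups.

Proof. `W₀` = the intersection of the `c L`, `c ≠ 0`: it has index at most `(q^s)^(q-1)` in `W` and is a subspace. -/
def SpecLXK : Prop := ∀ (K V : Type) [Field K] [Finite K] [AddCommGroup V] [Module K V]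
  [Module.Finite K V] (L : AddSubgroup V) (W : Submodule K V) (s : ℕ), (∀ v ∈ L, v ∈ W) →
  Nat.card W ≤ Nat.card K ^ s * Nat.card L → ∃ W₀ : Submodule K V, (∀ v ∈ W₀, v ∈ L) ∧
    Module.finrank K W ≤ Module.finrank K W₀ + s * Nat.card K

/-! ## Part 3: the automorphism preserves `N_x` -/

/-- RK1 [100 lines]. Products of Siegel transformations: the scalar is 1.

Proof. `T x w a` and `T y z 0` are `1` on a subspace of codimension at most `4`, `Tτ` is `1` on a subspace of codimension at most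
`2`; `dim V ≥ 8`: there is a `v ≠ 0` in the intersection, `v = c v`. So `T x w a T y z 0 - 1 = Tτ - 1`. -/
def SpecRK1 : Prop := ∀ (K : Type) [Field K] (F : FD K) (V₀ : Type) [AddCommGroup V₀]
  [Module K V₀] [Module.Finite K V₀] (S₀ : Sq F V₀) (m : ℕ), 4 ≤ m →
  ∀ (x w y z : SV K V₀ m) (a : K), (S₀.std m).Adm x w a → (y, z) ∈ (S₀.std m).TPs →
  ∀ (c : K) (τ : SV K V₀ m × SV K V₀ m), τ ∈ (S₀.std m).TPs →
    (∀ v, (S₀.std m).T x w a ((S₀.std m).T y z 0 v) = c • (S₀.std m).T τ.1 τ.2 0 v) →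
  rk ((S₀.std m).T x w a * (S₀.std m).T y z 0) ≤ 2

/-- RK2 [200 lines]. The rank.

Proof. `g = T y z 0`. `(T x w a g - 1) v = B(g v, x) w - ε (B(g v, w) + a B(g v, x)) x + B(v, y) z - ε B(v, z) y`. Case 1: `x ∉ ⟨y, z⟩`: `x, w, y, z`
independent; the functionals `B(g v, x) = B(v, g⁻¹ x)`, `B(v, g⁻¹ w)`, `B(v, y)`, `B(v, z)` are independent (`g⁻¹` is the identity on
`⟨y, z⟩` and modulo `⟨y, z⟩`; `fnl` in `CL/Lib.lean`): rank 4. Case 2: `x = α y + β z`; `B(g v, x) = B(v, x) = σ(α) B(v,y) + σ(β) B(v,z)`,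
`s = B(g v, w) + a B(v, x)` is independent of `B(v,y), B(v,z)` (`w ∉ ⟨y, z⟩`); the coefficients of `w, y, z` in `(T x w a g - 1) v` are
`σ(α) B(v,y) + σ(β) B(v,z)`, `-ε α s - ε B(v,z)`, `-ε β s + B(v,y)`; their determinant is `σ(α) β - ε α σ(β)`; if it is not `0` the rank
is `3`. -/
def SpecRK2 : Prop := ∀ (K : Type) [Field K] (F : FD K) (V₀ : Type) [AddCommGroup V₀]
  [Module K V₀] [Module.Finite K V₀] (S₀ : Sq F V₀) (m : ℕ), S₀.Nd →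
  ∀ (x w y z : SV K V₀ m) (a : K), (S₀.std m).Adm x w a → x ≠ 0 → (y, z) ∈ (S₀.std m).TPs →
  w ∉ Submodule.span K {x, y, z} → rk ((S₀.std m).T x w a * (S₀.std m).T y z 0) ≤ 2 →
  ∃ α β : K, x = α • y + β • z ∧ F.σ α * β = F.ε * α * F.σ β

/-- RK3 [120 lines]. The case of the same plane.

Proof. Case `β ≠ 0`: `μ = α / β = ε σ(μ)`, `T y z 0 = T y (z + μ y) 0 = T y (β⁻¹ x) 0 = T x z' 0`, `z' = -ε σ(β)⁻¹ y` (`T y (z + μ y) 0 v =
T y z 0 v + (μ - ε σ(μ)) B(v,y) y`; `T x w 0 = T w (-ε x) 0` for singular orthogonal `x, w`; `Sq.T_smul`). Case `x = α y`: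
`T y z 0 = T x (σ(α)⁻¹ z) 0`. -/
def SpecRK3 : Prop := ∀ (K : Type) [Field K] (F : FD K) (V₀ : Type) [AddCommGroup V₀]
  [Module K V₀] (S₀ : Sq F V₀) (m : ℕ) (y z : SV K V₀ m) (α β : K), (y, z) ∈ (S₀.std m).TPs →
  α • y + β • z ≠ 0 → F.σ α * β = F.ε * α * F.σ β →
  ∃ z', (α • y + β • z, z') ∈ (S₀.std m).TPs ∧
    (S₀.std m).T y z 0 = (S₀.std m).T (α • y + β • z) z' 0

/-- RNK [20 lines] (RK1, RK2, RK3). -/
def SpecRNK : Prop := ∀ (K : Type) [Field K] (F : FD K) (V₀ : Type) [AddCommGroup V₀]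
  [Module K V₀] [Module.Finite K V₀] (S₀ : Sq F V₀) (m : ℕ), 4 ≤ m → S₀.Nd →
  ∀ (x w y z : SV K V₀ m) (a : K), (S₀.std m).Adm x w a → x ≠ 0 → (y, z) ∈ (S₀.std m).TPs →
  w ∉ Submodule.span K {x, y, z} →
  (∃ (c : K) (τ : SV K V₀ m × SV K V₀ m), τ ∈ (S₀.std m).TPs ∧
    ∀ v, (S₀.std m).T x w a ((S₀.std m).T y z 0 v) = c • (S₀.std m).T τ.1 τ.2 0 v) →
  ∃ z', (x, z') ∈ (S₀.std m).TPs ∧ (S₀.std m).T y z 0 = (S₀.std m).T x z' 0

/-- NXG [120 lines] (WT1). Generation of `N_x`.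

Proof. WT1: `x = e_0`. For `l ∈ Λ`: `w = e_1`, `z = ε l f_1`, `B(z, w) = l`, `T x w 0 T x z 0 = T x (w + z) l`, `w + z` is singular and not in
`K x`, so `T x 0 l ∈ H`. The `w ∈ x^⊥` with `T x w a ∈ H` for some (then for every admissible) `a` form an additive group which
contains the singular vectors not in `K x`; these generate `x^⊥` additively (as in SPX; `c x = (c x + e_1) - e_1`). -/
def SpecNXG : Prop := ∀ (K : Type) [Field K] (F : FD K) (V₀ : Type) [AddCommGroup V₀]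
  [Module K V₀] (S₀ : Sq F V₀) (m : ℕ), 3 ≤ m → S₀.Nd → ∀ x : SV K V₀ m, (S₀.std m).Sg x → x ≠ 0 →
  ∀ H : Subgroup (SV K V₀ m ≃ₗ[K] SV K V₀ m),
  (∀ w, (x, w) ∈ (S₀.std m).TPs → (S₀.std m).T x w 0 ∈ H) →
  ∀ w a, (S₀.std m).Adm x w a → (S₀.std m).T x w a ∈ H

/-- CL0 [80 lines] (WT2). The class of the `T x w 0` is preserved.

Proof. `τ = g τ₀` (WT2), `Tτ = g Tτ₀ g⁻¹`; `e(π g) = π g'`: `e(π Tτ) = π (g' Tτ₀ g'⁻¹) = π T(g' τ₀)`. -/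
def SpecCL0 : Prop := ∀ (K : Type) [Field K] (F : FD K) (V₀ : Type) [AddCommGroup V₀]
  [Module K V₀] (S₀ : Sq F V₀) (m : ℕ), 3 ≤ m → S₀.Nd → ∀ (P : Type u) [Group P]
  (π : (S₀.std m).D ⊤ →* P) (e : P ≃* P), Ker π →
  (∃ τ ∈ (S₀.std m).TPs, Mp π e ((S₀.std m).T τ.1 τ.2 0) ((S₀.std m).T τ.1 τ.2 0)) →
  ∀ τ ∈ (S₀.std m).TPs, ∃ τ' ∈ (S₀.std m).TPs,
    Mp π e ((S₀.std m).T τ.1 τ.2 0) ((S₀.std m).T τ'.1 τ'.2 0)

/-- NXX [250 lines] (CWQ, RNK, NXG). `e` preserves `N_x`.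

Proof. Let `(x, w) ∈ TPs`, `e(π T x w 0) = π g`, `g = T y z 0`. Choose a subspace `X ≤ W₀` of dimension 3 with
`X ⊓ ⟨x, w, y, z⟩ = ⊥`. `Λ₁ = {l ∈ Λ | T x 0 l fixed}`; for `w' ∈ X` let `a'` be such that `T x w' a'` is fixed; `φ w' = a' + B(w, w')` modulo
`Λ₁` is well defined and `φ (w' + w'') = φ w' + φ w'' + B(w'', w')` (`Sq.T_mul`). CWQ (`|K / Λ₁|² ≤ q² < q³`): `w' ≠ 0` with
`a' + B(w, w') = 0` (after changing `a'` by an element of `Λ₁`). `T x w' a' · T x w 0 = T x (w + w') 0`, `(x, w + w') ∈ TPs`. So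
`π (T x w' a' g) = e(π T x (w+w') 0) = π Tτ'`, `T x w' a' g = c Tτ'`. RNK: `g = T x z' 0`. So the subgroup of the `h ∈ Γ` with
`e(π h) ∈ π N_x` contains all `T x w 0`; NXG. -/
def SpecNXX : Prop := ∀ (K : Type) [Field K] (F : FD K) (V₀ : Type) [AddCommGroup V₀]
  [Module K V₀] (S₀ : Sq F V₀) (m : ℕ), Cls S₀ m → 4 ≤ m → ∀ (P : Type u) [Group P]
  (π : (S₀.std m).D ⊤ →* P) (e : P ≃* P), Ker π → ∀ x : SV K V₀ m, (S₀.std m).Sg x → x ≠ 0 →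
  ∀ W₀ : Submodule K (SV K V₀ m), 7 ≤ Module.finrank K W₀ →
  (∀ w ∈ W₀, ∃ a : K, (S₀.std m).Adm x w a ∧
    Mp π e ((S₀.std m).T x w a) ((S₀.std m).T x w a)) →
  (∀ τ ∈ (S₀.std m).TPs, ∃ τ' ∈ (S₀.std m).TPs,
    Mp π e ((S₀.std m).T τ.1 τ.2 0) ((S₀.std m).T τ'.1 τ'.2 0)) → Nst π e x

/-- STB [120 lines] (WT1). Stabilisers of `K x`.

Proof. `e` and `π` are injective on the finite group `N_x` (a scalar in `N_x` is `1`), so `e(π N_x) = π N_x` and the same holds for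
`e⁻¹`. If `g x = c x` then `g N_x g⁻¹ = N_x`, so `g' N_x g'⁻¹` is contained in `N_x` times scalars, in `N_x` (the only
eigenvalue of its elements is 1). So `T (g' x) (g' w) 0 ∈ N_x` for `(x, w) ∈ TPs`, `x ∈ range (T - 1) ≤ ⟨g' x, g' w⟩` (for every
element `T ≠ 1` of `N_x`) for `w = w₁, w₂`, `x, w₁, w₂` independent (WT1: `x = e_0`, `e_1`, `e_2`), so `x ∈ K g' x`. The converse
with `e⁻¹`. -/
def SpecSTB : Prop := ∀ (K : Type) [Field K] (F : FD K) (V₀ : Type) [AddCommGroup V₀]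
  [Module K V₀] (S₀ : Sq F V₀) (m : ℕ), Cls S₀ m → ∀ (P : Type u) [Group P]
  (π : (S₀.std m).D ⊤ →* P) (e : P ≃* P), Ker π → ∀ x : SV K V₀ m, (S₀.std m).Sg x → x ≠ 0 →
  Nst π e x → Nst π e.symm x ∧ ∀ g g', Mp π e g g' → ((∃ c : K, g x = c • x) ↔ ∃ c : K, g' x = c • x)

/-! ## Part 4: the action on `W = ⟨x, y⟩^⊥` -/

/-- WPS [150 lines] (WT1, WT3, EMB). Facts on `W`.

Proof. Scale `y` so that `B(x, y) = 1`; WT3: `x = e_0`, `y = f_0`, `W = Wr = jW(..)` (`m - 1 ≥ 2`). (1) WT1 and EMB: `u = e_1`: `w' = e_2`, `w = ε f_2`.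
(2) as in SPX. (3) `e_1, ε f_1`. (4) `W` is non-degenerate and (2). (5) coordinates. -/
def SpecWPS : Prop := ∀ (K : Type) [Field K] (F : FD K) (V₀ : Type) [AddCommGroup V₀]
  [Module K V₀] (S₀ : Sq F V₀) (m : ℕ), 3 ≤ m → S₀.Nd → ∀ x y : SV K V₀ m, (S₀.std m).Sg x →
  (S₀.std m).Sg y → (S₀.std m).B x y ≠ 0 →
  (∀ u ∈ Wp (S₀.std m) x y, (S₀.std m).Sg u → u ≠ 0 → ∃ w' ∈ Wp (S₀.std m) x y,
    ∃ w ∈ Wp (S₀.std m) x y, (u, w') ∈ (S₀.std m).TPs ∧ (S₀.std m).B w u = 0 ∧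
    (S₀.std m).B w w' = 1) ∧
  (∀ H : AddSubgroup (SV K V₀ m), (∀ u ∈ Wp (S₀.std m) x y, (S₀.std m).Sg u → u ∈ H) →
    ∀ w ∈ Wp (S₀.std m) x y, w ∈ H) ∧
  (∃ w ∈ Wp (S₀.std m) x y, ∃ z ∈ Wp (S₀.std m) x y, (S₀.std m).Sg w ∧ (S₀.std m).Sg z ∧
    (S₀.std m).B z w = 1) ∧
  (∀ w ∈ Wp (S₀.std m) x y, w ≠ 0 → ∃ u ∈ Wp (S₀.std m) x y, (S₀.std m).Sg u ∧
    (S₀.std m).B w u ≠ 0) ∧
  ∀ v : SV K V₀ m, ∃ (a b : K), ∃ w ∈ Wp (S₀.std m) x y, v = a • x + b • y + w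

/-- CM0 [150 lines] (WT1, WT3, SPX). Additive maps commuting with `Γ` are scalars.

Proof. For `(u, w) ∈ TPs` `θ` preserves `range (T u w 0 - 1) = ⟨u, w⟩`; `K u` is the intersection of two such planes (WT1: `u = e_0`,
`w = e_1, f_1`), so `θ u = γ_u u` for singular `u`. Let `(u, v) ∈ TPs`; there is a singular `w` with `B(w, u) = 0`, `B(v, w) = β ≠ 0`
(otherwise `u^⊥ ≤ v^⊥` by SPX, `v ∈ K u`). `θ ((T u w 0 - 1) v) = (T u w 0 - 1) (γ_v v)`: `θ(-ε β u) = γ_v (-ε β u)`. Replace `w` by `c w`: all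
multiples of `u` occur, so `γ_(c u) = γ_v` for all `c ≠ 0`. Any two singular vectors are connected by a chain of orthogonal
independent ones (`B(u, u') ≠ 0`: WT3, `u = e_0`, `u' = c f_0`, take `e_1`), and singular vectors generate `V` additively
(`CL/SPX.lean`). -/
def SpecCM0 : Prop := ∀ (K : Type) [Field K] (F : FD K) (V₀ : Type) [AddCommGroup V₀]
  [Module K V₀] (S₀ : Sq F V₀) (m : ℕ), 2 ≤ m → S₀.Nd → ∀ θ : SV K V₀ m → SV K V₀ m,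
  (∀ u v, θ (u + v) = θ u + θ v) → (∀ g ∈ (S₀.std m).D ⊤, ∀ v, θ (g v) = g (θ v)) →
  ∃ c : K, ∀ v, θ v = c • v

/-- CMM [150 lines] (CM0, WT3, EMB). The same for `W`.

Proof. Scale, WT3: `x = e_0`, `y = f_0` (conjugate `θ` and `D W` with `g ∈ Γ`), `W = jW(..)`, EMB, CM0 for `m - 1`. -/
def SpecCMM : Prop := ∀ (K : Type) [Field K] (F : FD K) (V₀ : Type) [AddCommGroup V₀]
  [Module K V₀] (S₀ : Sq F V₀) (m : ℕ), 3 ≤ m → S₀.Nd → ∀ x y : SV K V₀ m, (S₀.std m).Sg x →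
  (S₀.std m).Sg y → (S₀.std m).B x y ≠ 0 → ∀ θ : SV K V₀ m → SV K V₀ m,
  (∀ u ∈ Wp (S₀.std m) x y, θ u ∈ Wp (S₀.std m) x y) →
  (∀ u ∈ Wp (S₀.std m) x y, ∀ v ∈ Wp (S₀.std m) x y, θ (u + v) = θ u + θ v) →
  (∀ g ∈ (S₀.std m).D (Wp (S₀.std m) x y), ∀ v ∈ Wp (S₀.std m) x y, θ (g v) = g (θ v)) →
  ∃ c : K, ∀ v ∈ Wp (S₀.std m) x y, θ v = c • v

/-- ZXX [200 lines] (STB, WPS). `e` preserves `Z_x = {T x 0 l}`.

Proof. `𝒰` = the `g ∈ Γ` with `g x ∈ K x`, `g y ∈ K y` and `π g` of `p`-power order. By STB for `x` and `y`, and for `e⁻¹`, `e(π 𝒰) = π 𝒰`.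
`g ∈ 𝒰`, `g x = α x`, `g^(p^k) = c` scalar, `c σ(c) = 1`, `α^(p^k) = c`: `(α σ(α))^(p^k) = 1`, `α σ(α) = 1`, so `g` commutes with all
`T x 0 l` (`g (T x 0 l) g⁻¹ = T (α x) 0 l = T x 0 (α σ(α) l)`). Let `e(π T x 0 l) = π T x w' a'`, `w' ∈ W` (`T x (w + c x) a = T x w a''`). It
commutes with `π 𝒰`, which contains the `T u v a`, `u, v ∈ W` (of order `p` or `p²`). So `T u v 0 w' = w'` (the scalar is 1, and the
`w`-part in `W` of an element of `N_x` is unique) for all `(u, v) ∈ TPs` in `W`, `B(w', u) = 0` for all singular `u ∈ W` (WPS (1)),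
`w' = 0` (WPS (4)). -/
def SpecZXX : Prop := ∀ (K : Type) [Field K] (F : FD K) (V₀ : Type) [AddCommGroup V₀]
  [Module K V₀] (S₀ : Sq F V₀) (m : ℕ), Cls S₀ m → ∀ (P : Type u) [Group P]
  (π : (S₀.std m).D ⊤ →* P) (e : P ≃* P), Ker π → ∀ x y : SV K V₀ m, (S₀.std m).Sg x →
  (S₀.std m).Sg y → (S₀.std m).B x y ≠ 0 → Nst π e x → Nst π e y → ∀ l ∈ F.Λ, ∃ l' ∈ F.Λ,
  Mp π e ((S₀.std m).T x 0 l) ((S₀.std m).T x 0 l')

/-- `θ` describes the action of `e` on `N_x / Z_x`. -/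
def Act {K : Type} [Field K] {F : FD K} {V₀ : Type} [AddCommGroup V₀] [Module K V₀]
    {S₀ : Sq F V₀} {m : ℕ} {P : Type u} [Group P] (π : (S₀.std m).D ⊤ →* P) (e : P ≃* P)
    (x y : SV K V₀ m) (θ : SV K V₀ m → SV K V₀ m) : Prop :=
  (∀ w ∈ Wp (S₀.std m) x y, θ w ∈ Wp (S₀.std m) x y) ∧
  (∀ u ∈ Wp (S₀.std m) x y, ∀ v ∈ Wp (S₀.std m) x y, θ (u + v) = θ u + θ v) ∧
  (∀ w ∈ Wp (S₀.std m) x y, θ w = 0 → w = 0) ∧
  ∀ w ∈ Wp (S₀.std m) x y, ∀ a a' : K, (S₀.std m).Adm x w a → ∀ w' : SV K V₀ m,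
    w' ∈ Wp (S₀.std m) x y → (S₀.std m).Adm x w' a' →
    Mp π e ((S₀.std m).T x w a) ((S₀.std m).T x w' a') → w' = θ w

/-- TH1 [150 lines] (ZXX, WPS, STB). The map `θ`.

Proof. Every `T x w a` with `w ∈ x^⊥` is `T x w₁ a₁` with `w₁ ∈ W` (`w = w₁ + c x`), `w₁` unique. For `w ∈ W` let `θ w` be the `w₁` of `e(π T x w a)`;
it does not depend on `a` (ZXX); additive by `Sq.T_mul`; injective by ZXX for `e⁻¹` (STB). -/
def SpecTH1 : Prop := ∀ (K : Type) [Field K] (F : FD K) (V₀ : Type) [AddCommGroup V₀]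
  [Module K V₀] (S₀ : Sq F V₀) (m : ℕ), Cls S₀ m → ∀ (P : Type u) [Group P]
  (π : (S₀.std m).D ⊤ →* P) (e : P ≃* P), Ker π → ∀ x y : SV K V₀ m, (S₀.std m).Sg x →
  (S₀.std m).Sg y → (S₀.std m).B x y ≠ 0 → Nst π e x → Nst π e y →
  (∃ θ, Act π e x y θ) ∧ ∀ θ, Act π e x y θ → ∀ w ∈ Wp (S₀.std m) x y, ∀ a : K,
    (S₀.std m).Adm x w a → ∃ a' : K, (S₀.std m).Adm x (θ w) a' ∧
      Mp π e ((S₀.std m).T x w a) ((S₀.std m).T x (θ w) a')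

/-- ITW [120 lines] (TH1, STB). The action of the stabiliser of `x` and `y`.

Proof. `g x = α x`, `g' x = α' x`, `g y ∈ K y`, so `g W = W`. `g (T x w a) g⁻¹ = T (α x) (g w) a = T x (σ(α) g w) ..`; the same for `g'` and `θ w`. -/
def SpecITW : Prop := ∀ (K : Type) [Field K] (F : FD K) (V₀ : Type) [AddCommGroup V₀]
  [Module K V₀] (S₀ : Sq F V₀) (m : ℕ), Cls S₀ m → ∀ (P : Type u) [Group P]
  (π : (S₀.std m).D ⊤ →* P) (e : P ≃* P), Ker π → ∀ x y : SV K V₀ m, (S₀.std m).Sg x →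
  (S₀.std m).Sg y → (S₀.std m).B x y ≠ 0 → Nst π e x → Nst π e y → ∀ θ, Act π e x y θ →
  ∀ g g', Mp π e g g' → ∀ α α' : K, g x = α • x → g' x = α' • x → (∃ c : K, g y = c • y) →
  ∀ w ∈ Wp (S₀.std m) x y, θ (F.σ α • g w) = F.σ α' • g' (θ w)

/-- TH2 [150 lines] (CMM, ITW, STB). `θ` is linear.

Proof. `θ` is a bijection of the finite `W`. Let `c ≠ 0`, `θ_c = θ ∘ c ∘ θ⁻¹` on `W`. For `m₀ ∈ D(W)` (`m₀ x = x`) let `m₁` be a lift of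
`e⁻¹(π m₀)` (STB: `m₁ x = α₁ x`, `m₁ y ∈ K y`); ITW: `θ (σ(α₁) m₁ w) = m₀ (θ w)`. So `m₀ = θ ρ θ⁻¹` with `ρ = σ(α₁) m₁` linear, and `θ_c` commutes
with `m₀`. CMM: `θ_c = τ`; for `w ∈ W₀`, `w ≠ 0`: `c w = θ (c w) = θ_c (θ w) = τ w`, `τ = c`. -/
def SpecTH2 : Prop := ∀ (K : Type) [Field K] (F : FD K) (V₀ : Type) [AddCommGroup V₀]
  [Module K V₀] (S₀ : Sq F V₀) (m : ℕ), Cls S₀ m → ∀ (P : Type u) [Group P]
  (π : (S₀.std m).D ⊤ →* P) (e : P ≃* P), Ker π → ∀ x y : SV K V₀ m, (S₀.std m).Sg x →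
  (S₀.std m).Sg y → (S₀.std m).B x y ≠ 0 → Nst π e x → Nst π e y → ∀ θ, Act π e x y θ →
  ∀ W₀ : Submodule K (SV K V₀ m), W₀ ≤ Wp (S₀.std m) x y → W₀ ≠ ⊥ → (∀ w ∈ W₀, θ w = w) →
  ∀ (c : K), ∀ w ∈ Wp (S₀.std m) x y, θ (c • w) = c • θ w

/-- INV [120 lines] (CMM, WPS). Invariant sesquilinear forms.

Proof. `W` is non-degenerate, so for `v ∈ W` there is a unique `φ v ∈ W` with `B'(v, w) = B(φ v, w)` for all `w ∈ W`; `φ` is linear and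
commutes with `D(W)`. CMM. -/
def SpecINV : Prop := ∀ (K : Type) [Field K] (F : FD K) (V₀ : Type) [AddCommGroup V₀]
  [Module K V₀] [Module.Finite K V₀] (S₀ : Sq F V₀) (m : ℕ), 3 ≤ m → S₀.Nd →
  ∀ x y : SV K V₀ m, (S₀.std m).Sg x →
  (S₀.std m).Sg y → (S₀.std m).B x y ≠ 0 → ∀ B' : SV K V₀ m → SV K V₀ m → K,
  (∀ u ∈ Wp (S₀.std m) x y, ∀ v ∈ Wp (S₀.std m) x y, ∀ w ∈ Wp (S₀.std m) x y,
    B' (u + v) w = B' u w + B' v w ∧ B' u (v + w) = B' u v + B' u w) →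
  (∀ (c : K), ∀ v ∈ Wp (S₀.std m) x y, ∀ w ∈ Wp (S₀.std m) x y,
    B' (c • v) w = c * B' v w ∧ B' v (c • w) = F.σ c * B' v w) →
  (∀ g ∈ (S₀.std m).D (Wp (S₀.std m) x y), ∀ v ∈ Wp (S₀.std m) x y,
    ∀ w ∈ Wp (S₀.std m) x y, B' (g v) (g w) = B' v w) →
  ∃ c : K, ∀ v ∈ Wp (S₀.std m) x y, ∀ w ∈ Wp (S₀.std m) x y, B' v w = c * (S₀.std m).B v w

/-- ISO [200 lines] (INV, TH2, ITW, STB, WPS). `θ` is an isometry.

Proof. `m₀ = T u v a`, `u, v ∈ W`, `Mp π e m₀ m₁`, `m₁ x = α₁ x`: `α₁ σ(α₁) = 1` because `π m₁` has `p`-power order (as in ZXX). ITW: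
`θ (m₀ w) = σ(α₁) m₁ (θ w)`. So `B'(v, w) = B(θ v, θ w)` is invariant under `m₀`, hence under `D(W)`; INV: `B' = c B`, `c = 1` because `B ≠ 0` on `W₀`.
`ℓ v = q(θ v) - q(v)` modulo `Λ` is additive on `W` and `ℓ (m₀ v) = ℓ v`; `u = m₀ v - v` for suitable `m₀, v` for every singular `u`
(WPS (1): `T u w' 0 w - w = -ε B(w, w') u`, all multiples), so `ℓ = 0` on singular vectors, and on `W` (WPS (2)). -/
def SpecISO : Prop := ∀ (K : Type) [Field K] (F : FD K) (V₀ : Type) [AddCommGroup V₀]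
  [Module K V₀] (S₀ : Sq F V₀) (m : ℕ), Cls S₀ m → ∀ (P : Type u) [Group P]
  (π : (S₀.std m).D ⊤ →* P) (e : P ≃* P), Ker π → ∀ x y : SV K V₀ m, (S₀.std m).Sg x →
  (S₀.std m).Sg y → (S₀.std m).B x y ≠ 0 → Nst π e x → Nst π e y → ∀ θ, Act π e x y θ →
  ∀ W₀ : Submodule K (SV K V₀ m), W₀ ≤ Wp (S₀.std m) x y → (∀ w ∈ W₀, θ w = w) →
  (∃ v ∈ W₀, ∃ w ∈ W₀, (S₀.std m).B v w ≠ 0) →
  (∀ v ∈ Wp (S₀.std m) x y, ∀ w ∈ Wp (S₀.std m) x y,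
    (S₀.std m).B (θ v) (θ w) = (S₀.std m).B v w) ∧
  ∀ v ∈ Wp (S₀.std m) x y, (S₀.std m).q (θ v) - (S₀.std m).q v ∈ F.Λ

/-- KAP [80 lines]. Isometries act on `P`. -/
def SpecKAP : Prop := ∀ (K : Type) [Field K] (F : FD K) (V₀ : Type) [AddCommGroup V₀]
  [Module K V₀] (S₀ : Sq F V₀) (m : ℕ) (P : Type u) [Group P] (π : (S₀.std m).D ⊤ →* P), Ker π →
  ∀ A ∈ (S₀.std m).Iso, ∃ κ : P ≃* P, ∀ g ∈ (S₀.std m).D ⊤, Mp π κ g (A * g * A⁻¹)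

/-! ## Part 5: the trivial automorphism -/

/-- E1M [150 lines] (ITW, STB, WPS). The stabiliser of `x` and `y` is fixed.

Proof. `Mp π e g g'`; STB: `g' x = α' x`, `g' y ∈ K y`. ITW with `θ = id`: `σ(α) g w = σ(α') g' w` for `w ∈ W`. `h = g⁻¹ g'`, `ν = α' / α`: `h x = ν x`,
`h w = σ(ν)⁻¹ w`; an isometry: `ν σ(ν) = 1` (`B ≠ 0` on `W`, WPS (3)), so `h w = ν w`, and `h y = ν y` (`B(h x, h y) = B(x, y)`). So `h` is scalar. -/
def SpecE1M : Prop := ∀ (K : Type) [Field K] (F : FD K) (V₀ : Type) [AddCommGroup V₀]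
  [Module K V₀] (S₀ : Sq F V₀) (m : ℕ), Cls S₀ m → ∀ (P : Type u) [Group P]
  (π : (S₀.std m).D ⊤ →* P) (e : P ≃* P), Ker π → ∀ x y : SV K V₀ m, (S₀.std m).Sg x →
  (S₀.std m).Sg y → (S₀.std m).B x y ≠ 0 → Nst π e x → Nst π e y → Act π e x y id →
  ∀ g ∈ (S₀.std m).D ⊤, (∃ c : K, g x = c • x) → (∃ c : K, g y = c • y) → Mp π e g g

/-- E1N [150 lines] (E1M, TH1, WPS). `N_x` is fixed.

Proof. `e(π T x w a) = π T x w a'` for `w ∈ W`. For `m₀ ∈ D(W)`: `[m₀, T x w a] = T x (m₀ w) a · T x (-w) (ε σ(a)) = T x (m₀ w - w) (-B(w, m₀ w - w))`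
does not depend on `a`; `m₀` is fixed (E1M), so this element is fixed. For `u ∈ W` singular, WPS (1), `m₀ = T u w' 0`:
`m₀ (t w) - t w = -ε t u`, `B(w, u) = 0`: `T x (c u) 0` is fixed for all `c`. WPS (3): `w, z` singular, `B(z, w) = 1`: for `l ∈ Λ`:
`T x w 0 T x (l z) 0 = T x (w + l z) l`, `w + l z` is singular: `T x 0 l` is fixed. WPS (2): all `T x w a`, `w ∈ W`, and
`T x (w + c x) a = T x w a''`. -/
def SpecE1N : Prop := ∀ (K : Type) [Field K] (F : FD K) (V₀ : Type) [AddCommGroup V₀]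
  [Module K V₀] (S₀ : Sq F V₀) (m : ℕ), Cls S₀ m → ∀ (P : Type u) [Group P]
  (π : (S₀.std m).D ⊤ →* P) (e : P ≃* P), Ker π → ∀ x y : SV K V₀ m, (S₀.std m).Sg x →
  (S₀.std m).Sg y → (S₀.std m).B x y ≠ 0 → Nst π e x → Nst π e y → Act π e x y id →
  ∀ w a, (S₀.std m).Adm x w a → Mp π e ((S₀.std m).T x w a) ((S₀.std m).T x w a)

/-- E1Y [250 lines] (E1M, E1N, TH1, ITW, CMM, WPS). `Act` for `(y, x)`.

Proof. TH1 for `(y, x)`: `Act π e y x θ'` (`Wp y x = Wp x y`). `θ'` commutes with `D(W)` (ITW, E1M), so `θ' = γ` (CMM), `γ ≠ 0`. Let `(z, w) ∈ TPs`,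
`z, w ∈ W`; `β = B(y, x)`, `b = B(x, y)`. `T x w 0` is fixed (E1N), `[T x w 0, T y z 0] = T (y + β w) z 0 · (T y z 0)⁻¹ = T (β w) z 0` is fixed
(E1M: it fixes `x, y`), `e(π T y z 0) = π T y (γ z) a'`, `a' ∈ Λ`. So `h = T (y + β w) (γ z) a' · (T y (γ z) a')⁻¹ = c T (β w) z 0`.
Apply both sides to `x`: `h x = x - b (σ(a') + ε a') y - ε a' b β w = x - ε a' b β w` (`ε σ(a') = -a'`), the right side is `c x`: `a' = 0`,
`c = 1`. Then `h = T (β w) (γ z) 0 = T (β w) z 0`: `γ = 1`. So `Act π e y x id`. -/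
def SpecE1Y : Prop := ∀ (K : Type) [Field K] (F : FD K) (V₀ : Type) [AddCommGroup V₀]
  [Module K V₀] (S₀ : Sq F V₀) (m : ℕ), Cls S₀ m → ∀ (P : Type u) [Group P]
  (π : (S₀.std m).D ⊤ →* P) (e : P ≃* P), Ker π → ∀ x y : SV K V₀ m, (S₀.std m).Sg x →
  (S₀.std m).Sg y → (S₀.std m).B x y ≠ 0 → Nst π e x → Nst π e y → Act π e x y id →
  Act π e y x id

/-- GXY [120 lines] (WPS). `Γ` is generated by `N_x` and `N_y`.

Proof. `H` contains all `T x w a`, `T y w a`. Let `z ≠ 0` be singular. If `B(z, x) ≠ 0`: `z = c y + w + α x`, `c ≠ 0`; some `T x w' a` maps `y` to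
`c⁻¹ z` (`T x w' a y = y + B(y,x) w' - ε a B(y,x) x`; take `w' ∈ W`, `a` from this formula; admissible because `z` is singular). If
`B(z, y) ≠ 0` the same with `x`. If `z ∈ W`: `T y w' a z = z - ε B(z, w') y` with `B(z, w') ≠ 0`, `w' ∈ W` singular (WPS (4)); this has
`B(.., x) ≠ 0`. So `z = h (c x)` or `h (c y)` with `h ∈ H`, and `T z w a = h (T (c x) ..) h⁻¹ ∈ H` (`Sq.T_smul`). -/
def SpecGXY : Prop := ∀ (K : Type) [Field K] (F : FD K) (V₀ : Type) [AddCommGroup V₀]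
  [Module K V₀] (S₀ : Sq F V₀) (m : ℕ), 3 ≤ m → S₀.Nd → ∀ x y : SV K V₀ m, (S₀.std m).Sg x →
  (S₀.std m).Sg y → (S₀.std m).B x y ≠ 0 → ∀ H : Subgroup (SV K V₀ m ≃ₗ[K] SV K V₀ m),
  (∀ w a, (S₀.std m).Adm x w a → (S₀.std m).T x w a ∈ H) →
  (∀ w a, (S₀.std m).Adm y w a → (S₀.std m).T y w a ∈ H) → (S₀.std m).D ⊤ ≤ H

/-- IN1 [200 lines] (TH1, TH2, ISO, KAP, E1N, E1Y, GXY). The isometry for a pair `x, y`.

Proof. `θ` from TH1; `θ w = w` for `w ∈ W₀ ⊓ W` (some `T x w a` is fixed). `A x = x`, `A y = y`, `A = θ` on `W` (linear by TH2, an isometry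
by ISO; `V = K x ⊕ K y ⊕ W`). `e₁ = κ⁻¹ e`, `κ` from KAP: `Nst e₁ x`, `Nst e₁ y` (`A (T x w a) A⁻¹ = T x (A w) a`), `Act e₁ x y id`. E1N, E1Y,
E1N for `(y, x)`, GXY for `H = FxG π e₁`: `e₁ = 1`, `e = κ`. -/
def SpecIN1 : Prop := ∀ (K : Type) [Field K] (F : FD K) (V₀ : Type) [AddCommGroup V₀]
  [Module K V₀] (S₀ : Sq F V₀) (m : ℕ), Cls S₀ m → ∀ (P : Type u) [Group P]
  (π : (S₀.std m).D ⊤ →* P) (e : P ≃* P), Ker π → ∀ x y : SV K V₀ m, (S₀.std m).Sg x →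
  (S₀.std m).Sg y → (S₀.std m).B x y ≠ 0 → Nst π e x → Nst π e y →
  ∀ W₀ : Submodule K (SV K V₀ m), W₀ ≤ Wp (S₀.std m) x y →
  (∃ v ∈ W₀, ∃ w ∈ W₀, (S₀.std m).B v w ≠ 0) →
  (∀ w ∈ W₀, ∃ a : K, (S₀.std m).Adm x w a ∧
    Mp π e ((S₀.std m).T x w a) ((S₀.std m).T x w a)) →
  ∃ A ∈ (S₀.std m).Iso, (∀ w ∈ W₀, A w = w) ∧ A x = x ∧ A y = y ∧
    ∀ g ∈ (S₀.std m).D ⊤, Mp π e g (A * g * A⁻¹)

/-- INA [100 lines] (DEN, GOO, NOO). Two good vectors.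

Proof. DEN; GOO with `s = t + 1`; NOO with `s = t + 1`, `s' = t + 5`. `TPs` is not empty. -/
def SpecINA : Prop := ∀ (K : Type) [Field K] (F : FD K) (V₀ : Type) [AddCommGroup V₀]
  [Module K V₀] (S₀ : Sq F V₀) (m t : ℕ), Cls S₀ m → 2 * (t + 2) < m → t + 6 ≤ m →
  ∀ C : Subgroup (SV K V₀ m ≃ₗ[K] SV K V₀ m), C ≤ (S₀.std m).D ⊤ →
  C.relIndex ((S₀.std m).D ⊤) ^ 2 ≤ Nat.card K ^ ((m - 2 * (t + 2)) * t) →
  (∃ τ ∈ (S₀.std m).TPs, (S₀.std m).T τ.1 τ.2 0 ∈ C) ∧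
  ∃ x y, Good (S₀.std m) C (t + 5) x ∧ Good (S₀.std m) C (t + 5) y ∧ (S₀.std m).B x y = 1

/-- INB [100 lines] (LXK). The subspace for a good vector.

Proof. `Lx` is an additive subgroup of `x^⊥` (`Sq.T_mul`, `Sq.T_inv`); LXK with `W = x^⊥` (of codimension at most 1). -/
def SpecINB : Prop := ∀ (K V : Type) [Field K] [Finite K] [AddCommGroup V] [Module K V]
  [Module.Finite K V] (F : FD K) (S : Sq F V) (C : Subgroup (V ≃ₗ[K] V)) (s : ℕ) (x : V),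
  Good S C s x → ∃ W₀ : Submodule K V, (∀ w ∈ W₀, ∃ a : K, S.Adm x w a ∧ S.T x w a ∈ C) ∧
    Module.finrank K V ≤ Module.finrank K W₀ + s * Nat.card K + 1

/-- INN [200 lines] (INA, INB, CL0, NXX, IN1). Automorphisms with large fixed subgroup.

Proof. `q₀ ≤ 2^λ`, `t = 4 r λ + 1`, `d = (t + 5) q₀ + 4`, `m` large (`m ≥ 4 (t + 2)`, `m ≥ d + 20`). `C = FxG π e`, `C.relIndex Γ ^ 2 ≤
2^(2 r λ m) ≤ |K|^((m - 2 (t + 2)) t)`. INA: `x, y`. INB for `x` and for `y`: subspaces of codimension at most `(t + 5) q₀ + 1`. CL0, NXX: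
`Nst π e x`, `Nst π e y`. IN1 for `W₀ ⊓ Wp x y` (`W₀` for `x`), of codimension at most `(t + 5) q₀ + 3`; `B ≠ 0` on it (a subspace with `B = 0` has
dimension at most `n / 2`, `B` non-degenerate). `A = 1` on `(W₀ ⊓ Wp x y) + K x + K y`. -/
def SpecINN : Prop := ∀ q₀ r : ℕ, ∃ N d : ℕ, ∀ (K : Type) [Field K] (F : FD K) (V₀ : Type)
  [AddCommGroup V₀] [Module K V₀] (S₀ : Sq F V₀) (m : ℕ), Cls S₀ m → Nat.card K < q₀ → N ≤ m →
  ∀ (P : Type u) [Group P] (π : (S₀.std m).D ⊤ →* P) (e : P ≃* P), Ker π →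
  (FxG π e).relIndex ((S₀.std m).D ⊤) ≤ q₀ ^ (r * m) →
  ∃ A ∈ (S₀.std m).Iso, rk A ≤ d ∧ ∀ g ∈ (S₀.std m).D ⊤, Mp π e g (A * g * A⁻¹)

/-! ## Part 6: the group `G` -/

/-- IN2 [100 lines] (INN). The same for an element `z ∈ Y`.

Proof. `e` = conjugation by `z` on `P`. `FxG π e` corresponds to the preimage of `centralizer {z}` under `π`; the indices are
equal (`Subgroup.index_comap_of_surjective`). -/
def SpecIN2 : Prop := ∀ q₀ r : ℕ, ∃ N d : ℕ, ∀ (K : Type) [Field K] (F : FD K) (V₀ : Type)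
  [AddCommGroup V₀] [Module K V₀] (S₀ : Sq F V₀) (m : ℕ), Cls S₀ m → Nat.card K < q₀ → N ≤ m →
  ∀ (Y : Type u) [Group Y] (P : Subgroup Y) (π : (S₀.std m).D ⊤ →* P), P.Normal → Ker π →
  ∀ z : Y, (Subgroup.centralizer ({z} : Set Y)).relIndex P ≤ q₀ ^ (r * m) →
  ∃ A, Ind π z A ∧ rk A ≤ d

/-- UNL [120 lines] (SCA, WT1). Lifts are unique.

Proof. `C = A'⁻¹ A`: for `g ∈ Γ` `C g C⁻¹ = c g`; for `g = T x w 0` (eigenvalue 1 only) `c = 1`, so `C` commutes with `T x w 0` and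
preserves its range `⟨x, w⟩`, so it preserves every singular line (WT1: two planes through `x = e_0`); SCA: `C` is scalar;
`C` fixes a vector `v ≠ 0` (`ker (A - 1) ⊓ ker (A' - 1)`), so `C = 1`. -/
def SpecUNL : Prop := ∀ (K : Type) [Field K] (F : FD K) (V₀ : Type) [AddCommGroup V₀]
  [Module K V₀] (S₀ : Sq F V₀) (m : ℕ), Cls S₀ m → ∀ (P : Type u) [Group P]
  (π : (S₀.std m).D ⊤ →* P), Ker π → ∀ A ∈ (S₀.std m).Iso, ∀ A' ∈ (S₀.std m).Iso,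
  rk A + rk A' < 2 * m →
  (∀ g ∈ (S₀.std m).D ⊤, ∀ (h : A * g * A⁻¹ ∈ (S₀.std m).D ⊤)
    (h' : A' * g * A'⁻¹ ∈ (S₀.std m).D ⊤), π ⟨A * g * A⁻¹, h⟩ = π ⟨A' * g * A'⁻¹, h'⟩) → A = A'

/-- UN2 [80 lines] (UNL). The relation `Ind`. (`Sq.conj_mem_D`; (4): `z` centralises `P`, `IsSocle.cent`.) -/
def SpecUN2 : Prop := ∀ (K : Type) [Field K] (F : FD K) (V₀ : Type) [AddCommGroup V₀]
  [Module K V₀] (S₀ : Sq F V₀) (m : ℕ), Cls S₀ m → ∀ (Y : Type u) [Group Y] (P : Subgroup Y)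
  (π : (S₀.std m).D ⊤ →* P), IsSocle P → Ker π →
  (∀ z A A', Ind π z A → Ind π z A' → rk A + rk A' < 2 * m → A = A') ∧
  (∀ z z' A A', Ind π z A → Ind π z' A' → Ind π (z * z') (A * A')) ∧ Ind π (1 : Y) 1 ∧
  ∀ z : Y, Ind π z 1 → z = 1

/-- URP [250 lines] (PL.ULF). The ultraproduct.

Proof. As the second part of `PL/REP.lean`. For every `g` choose `r_g` and (eventually) `A_g,i` with `J i g A`, `rk A ≤ r_g`; it is unique.
`V_i' = ULift (V i)`, the ultraproduct is a module for `G` (`A_(gh) = A_g A_h`, `A_1 = 1` eventually, by uniqueness). The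
characteristic is smaller than `q₀`, so it is constant along `U`. Displacement: `PL.specULF`, `|range (A - 1)| = |K|^(rk A) ≤ q₀^(r_g)`,
and at most `q₀^d` for `f`. `A_f ≠ 1` eventually. -/
def SpecURP : Prop := ∀ (G : Type u) [Group G] (I : Type u) (U : Ultrafilter I) (K : I → Type)
  [∀ i, Field (K i)] [∀ i, Finite (K i)] (V : I → Type) [∀ i, AddCommGroup (V i)]
  [∀ i, Module (K i) (V i)] [∀ i, Module.Finite (K i) (V i)]
  (J : ∀ i, G → (V i ≃ₗ[K i] V i) → Prop) (q₀ d : ℕ) (f : G), (∀ i, Nat.card (K i) < q₀) →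
  (∀ᶠ i in (U : Filter I), J i 1 1) →
  (∀ g h : G, ∀ᶠ i in (U : Filter I), ∀ A B, J i g A → J i h B → J i (g * h) (A * B)) →
  (∀ (g : G) (r : ℕ), ∀ᶠ i in (U : Filter I), ∀ A B, J i g A → J i g B → rk A + rk B ≤ r →
    A = B) →
  (∀ g : G, ∃ r : ℕ, ∀ᶠ i in (U : Filter I), ∃ A, J i g A ∧ rk A ≤ r) →
  (∀ᶠ i in (U : Filter I), ∃ A, J i f A ∧ rk A ≤ d) → (∀ᶠ i in (U : Filter I), ¬ J i f 1) →
  PL.RepData G f (q₀ ^ d)

/-- RP2 [250 lines] (IN2, UN2, URP, PL.NRM). The representation.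

Proof. As the first part of `PL/REP.lean`. `I = UltaM.Idx F`, `U` from `UltaM.exists_ultra`; for `E : I` the data of
`CData q₀ r (Nat.card E) f E`: `X, Y, ρ, P, π, m'`; `m' > |E|`, so `m' → ∞` along `U`. `D E g s` = (`g ∈ X` and `(centralizer {ρ g}).relIndex P ≤
q₀^(s m')`). `PL.specNRM`: `D E f r`; products (`C(g) ⊓ C(h) ≤ C(g h)`), inverses, conjugates (`P` normal). So for every `g` there is
an `s_g` with `D E g s_g` eventually, and by IN2 a number `d_g` such that eventually there is an `A` with `Ind π (ρ g) A`, `rk A ≤ d_g`.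
`J E g A` = (`∃ h : g ∈ X, Ind π (ρ ⟨g, h⟩) A`). UN2, URP (`2 m' > r` eventually). (2): IN2 for the data of `CData q₀ r (max m N) f E`. (`d` from
IN2 for `q₀, r`.) -/
def SpecRP2 : Prop := ∀ (G : Type u) [Group G] [IsSimpleGroup G] [Infinite G], LocFin G →
  ∀ F : Subgroup G, Finite F → ∀ (q₀ r : ℕ) (f : G), f ∈ F → f ≠ 1 →
  (∀ (m : ℕ) (E : Subgroup G), Finite E → F ≤ E → CData q₀ r m f E) →
  ∃ d : ℕ, PL.RepData G f (q₀ ^ d) ∧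
    ∀ (m : ℕ) (E : Subgroup G), Finite E → F ≤ E → IData q₀ d m f E

/-- TRW [200 lines] (WT2, PRU, CWQ). A product of conjugates.

Proof. `A ≠ 1` moves some singular `u₀` (singular vectors generate `V`: `e_i`, `f_i`, `(0,0,v) - q₀(v) e_0 + f_0`). `z = A u₀ - u₀ ≠ 0`. The
subspace `ker (A - 1) ⊓ u₀^⊥` has dimension at least `n - d - 1`, choose a complement `X` of its intersection with `K z`; CWQ for
`φ = q : X → K / Λ`: `x ≠ 0` singular, `A x = x`, `B(x, u₀) = 0`, `x ∉ K z`. (`u₀ ∉ K x` because `A u₀ ≠ u₀`.) `t = T x u₀ 0`: `A t A⁻¹ t⁻¹ = T x z a`.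
PRU: `u, v`; `s = T u v 0`: `s (T x z a) s⁻¹ (T x z a)⁻¹ = T x v 0`. So `T x v 0 = s [A, t] s⁻¹ [A, t]⁻¹`, `[A, t] = A (t A t⁻¹)⁻¹`: `T x v 0 =
(s A s⁻¹) ((s t) A (s t)⁻¹)⁻¹ (t A t⁻¹) A⁻¹`. WT2: every `τ ∈ TPs` is `h (x, v)`. -/
def SpecTRW : Prop := ∀ d : ℕ, ∃ N : ℕ, ∀ (K : Type) [Field K] (F : FD K) (V₀ : Type)
  [AddCommGroup V₀] [Module K V₀] (S₀ : Sq F V₀) (m : ℕ), Cls S₀ m → N ≤ m →
  ∀ A ∈ (S₀.std m).Iso, A ≠ 1 → rk A ≤ d →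
  ∀ τ ∈ (S₀.std m).TPs, ∃ g₁ ∈ (S₀.std m).D ⊤, ∃ g₂ ∈ (S₀.std m).D ⊤, ∃ g₃ ∈ (S₀.std m).D ⊤,
  ∃ g₄ ∈ (S₀.std m).D ⊤, (S₀.std m).T τ.1 τ.2 0 =
    (g₁ * A * g₁⁻¹) * (g₂ * A * g₂⁻¹)⁻¹ * (g₃ * A * g₃⁻¹) * (g₄ * A * g₄⁻¹)⁻¹

/-- GRW [200 lines] (TRW, LMD, PL.GNU). Few conjugates of `f` generate a large group.

Proof. `IData` with `m' > max (N, ..)`. For `i`, `i + 1 < m'` and `a ∈ K`, `a ≠ 0`: `lam (1 + a E_(i,i+1)) = T (e_i) (c f_(i+1)) 0` (LMD: `a = -ε σ(c)`), so by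
TRW it is a product of four conjugates of `A^±1` by elements of `Γ`; choose elements `x_j ∈ X` with `ρ x_j = π g_j`. Then
(`ρ x * π g * (ρ x)⁻¹ = π (A g A⁻¹)`) the corresponding product of conjugates of `x` by the `x_j` acts on `P` as `π lam (..)`, so it
is mapped by `ρ` to `π (lam (..))` (the centraliser of `P` in `Y` is trivial). The subgroup generated by these at most
`4 m' q₀` conjugates of `x` maps onto a group containing `π (lam H₀)`, `H₀ ≤ SL_m'(K)` generated by the `1 + a E_(i,i+1)`; the kernel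
of `g ↦ π (lam g)` consists of scalars, so `|π (lam H₀)| ≥ ` the order of the image of `H₀` in `PSL`, and `PL.specGNU`. -/
def SpecGRW : Prop := ∀ q₀ d : ℕ, ∃ N : ℕ, ∀ (G : Type u) [Group G] (f : G) (E : Subgroup G)
  (m : ℕ), N ≤ m → IData q₀ d m f E →
  ∃ (m' k : ℕ) (x : Fin k → G), m < m' ∧ k ≤ 4 * q₀ * m' ∧
    Finite (Subgroup.closure (Set.range fun i => x i * f * (x i)⁻¹)) ∧
    2 ^ ((m' / 2) ^ 2) ≤ Nat.card (Subgroup.closure (Set.range fun i => x i * f * (x i)⁻¹))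

/-- AF2 [120 lines] (GRW, PL.SPR). Affine type (as `PL/AFF.lean`).

Proof. `2^((m'/2)²) > (q₀^d)^(4 q₀ m')` for `m'` large. `PL.specSPR` for `H` = the group of GRW. -/
def SpecAF2 : Prop := ∀ (G : Type u) [Group G] [Infinite G], LocFin G →
  ∀ F : Subgroup G, Finite F → ∀ (q₀ d : ℕ) (f : G),
  (∀ (m : ℕ) (E : Subgroup G), Finite E → F ≤ E → IData q₀ d m f E) → PL.RepData G f (q₀ ^ d) →
  AffineType G

/-- LI2 [60 lines] (SUC, CS2, RP2, AF2). The classical case. -/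
def SpecLI2 : Prop := ∀ (G : Type u) [Group G] [IsSimpleGroup G] [Infinite G], LocFin G →
  ∀ F : Subgroup G, Finite F → (∀ E : Subgroup G, Finite E → F ≤ E →
    ∃ (Y : Type u) (_ : Group Y) (Q : Subgroup Y), Visible F E Y Q ∧ IsCl Q) → AffineType G

/-- MN2 [150 lines] (LI2, PL.LIN). THEOREM L2 (as `PL/MNL.lean`).

Proof. `alternative` with `P K = ACFactors E₀ K`: `AffineType G`, or there is an `F` such that for all finite `E ≥ F` (so for all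
`E ≥ F ⊔ E₀`) there are `K, Y, T` with `ACFactors E₀ K`, `Visible F E Y T`, `CompFactor K T`. `E₀ ≤ E` embeds in `Y`, and `Y` embeds in
`MulAut T` by conjugation (`IsSocle.cent`), so `IsAC T` (`IsPSL` and `IsCl` are invariant under isomorphisms `A ⧸ B ≃* T`). If for
every `E` the first case occurs: `specALT`. Otherwise for all `E` the second or the third (`Visible.mono`); if the second
occurs for every `E`: `PL.LIN`; otherwise the third for every `E`: LI2. -/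
def SpecMN2 : Prop := ∀ (G : Type u) [Group G] [IsSimpleGroup G] [Infinite G], LocFin G →
  LocAC G → (FiniteType G ↔ AffineType G ∨ AltType G)

end Pool.Agent.Lib.MP66ef6b.CL
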