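import Pool.Agent.Lib.MP_66ef6b_al.CL.SpecD
import Pool.Agent.Lib.MP_66ef6b_al.CL.SpecE
import Pool.Agent.Lib.MP_66ef6b_al.CL.SGY

section
set_option autoImplicit false

/-!
# MP_66ef6b_al, THEOREM L2, module NE1 (helper82): the `T_{u,w,c}` with `u ∈ E`
-/

namespace Pool.Agent.Lib.MP66ef6b.CL

open Matrix PL

namespace NE1M

variable {K : Type} [Field K] {F : FD K} {V₀ : Type} [AddCommGroup V₀] [Module K V₀]
  {S₀ : Sq F V₀} {m : ℕ}

/-- the transvection `1 + v φ`. -/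
def tv (v φ : Fin m → K) (h : φ ⬝ᵥ v = 0) : SLn m K :=
  ⟨1 + Matrix.vecMulVec v φ, by
    have := Matrix.det_one_add_replicateCol_mul_replicateRow (ι := Unit) v φ
    rw [← Matrix.vecMulVec_eq] at this
    rw [this, h, add_zero]⟩

theorem tv_inv (v φ : Fin m → K) (h : φ ⬝ᵥ v = 0) (h' : φ ⬝ᵥ (-v) = 0) :
    (tv v φ h)⁻¹ = tv (-v) φ h' := by
  rw [inv_eq_iff_mul_eq_one]
  apply Subtype.ext
  change (1 + Matrix.vecMulVec v φ) * (1 + Matrix.vecMulVec (-v) φ) = 1
  rw [mul_add, mul_one, add_mul, one_mul, Matrix.vecMulVec_mul_vecMulVec, h', neg_vecMulVec]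
  simp

theorem vm (u v w : Fin m → K) (i : Fin m) : (vecMulVec u v *ᵥ w) i = (w ⬝ᵥ v) * u i := by
  simp only [mulVec, dotProduct, vecMulVec_apply, Finset.sum_mul]
  exact Finset.sum_congr rfl fun j _ => by ring

theorem B_E (y : SV K V₀ m) (a : Fin m → K) :
    (S₀.std m).B y (a, 0, 0) = F.ε * (y.2.1 ⬝ᵥ fun i => F.σ (a i)) := by
  rw [std_B]
  simp [S₀.B_zero_right, dotProduct]

theorem B_E' (y : SV K V₀ m) (b : Fin m → K) :
    (S₀.std m).B y (0, b, 0) = y.1 ⬝ᵥ fun i => F.σ (b i) := by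
  rw [std_B]
  simp [S₀.B_zero_right, dotProduct]

theorem sg_E (a : Fin m → K) : (S₀.std m).Sg (a, 0, 0) := by
  rw [Sq.Sg, std_q]
  simp only [Pi.zero_apply, map_zero, dotProduct_zero', S₀.q_zero, add_zero]
  exact F.Λ.zero_mem

/-- `T_{u,(b,0,0),0}` is a `z_D`. -/
theorem T_b (a b : Fin m → K) (h : (S₀.std m).Adm (a, 0, 0) (b, 0, 0) 0) :
    (S₀.std m).T (a, 0, 0) (b, 0, 0) 0 ∈ ZES F V₀ m := by
  refine ⟨F.ε • vecMulVec b (fun i => F.σ (a i)) - vecMulVec a (fun i => F.σ (b i)),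
    ⟨fun i j => ?_, fun i => ?_⟩, ?_⟩
  · simp only [Matrix.sub_apply, Matrix.smul_apply, vecMulVec_apply, smul_eq_mul, map_sub, map_mul,
      F.inv, F.se]
    linear_combination (a i * F.σ (b j)) * F.ee
  · simp only [Matrix.sub_apply, Matrix.smul_apply, vecMulVec_apply, smul_eq_mul]
    have := F.Λ.neg_mem (F.tr (a i * F.σ (b i)))
    simp only [map_mul, F.inv] at this
    convert this using 1
    ring
  · refine LinearEquiv.ext fun y => ?_
    rw [Sq.T_apply h, zE_apply, B_E, B_E]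
    refine Prod.ext ?_ (Prod.ext ?_ ?_)
    · funext i
      simp only [Prod.fst_sub, Prod.fst_add, Prod.smul_fst, Pi.add_apply, Pi.sub_apply,
        Pi.smul_apply, smul_eq_mul, Matrix.sub_mulVec, Matrix.smul_mulVec, vm, zero_mul, add_zero]
      linear_combination (- (y.2.1 ⬝ᵥ fun i => F.σ (b i)) * a i) * F.ee
    · simp
    · simp

/-- `T_{u,0,l}` is a `z_D`. -/
theorem T_l (a : Fin m → K) (l : K) (h : (S₀.std m).Adm (a, 0, 0) 0 l) :
    (S₀.std m).T (a, 0, 0) 0 l ∈ ZES F V₀ m := by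
  have hl : l ∈ F.Λ := by
    have := h.par
    rwa [Sq.q_zero, sub_zero] at this
  refine ⟨(-l) • vecMulVec a (fun i => F.σ (a i)), ⟨fun i j => ?_, fun i => ?_⟩, ?_⟩
  · simp only [Matrix.smul_apply, vecMulVec_apply, smul_eq_mul, map_neg, map_mul, F.inv]
    linear_combination (- a i * F.σ (a j)) * F.skew hl
  · simp only [Matrix.smul_apply, vecMulVec_apply, smul_eq_mul]
    have := F.Λ.neg_mem (F.sc hl (a i))
    convert this using 1
    ring
  · refine LinearEquiv.ext fun y => ?_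
    rw [Sq.T_apply h, zE_apply, B_E, (S₀.std m).B_zero_right]
    refine Prod.ext ?_ (Prod.ext ?_ ?_)
    · funext i
      simp only [Prod.fst_sub, Prod.fst_add, Prod.smul_fst, Pi.add_apply, Pi.sub_apply,
        Pi.smul_apply, smul_eq_mul, Matrix.smul_mulVec, vm, Prod.fst_zero, Pi.zero_apply]
      linear_combination (- l * (y.2.1 ⬝ᵥ fun i => F.σ (a i)) * a i) * F.ee
    · simp
    · simp

/-- `T_{u,(0,b,0),0}` is a `lam g`. -/
theorem T_c (a b : Fin m → K) (h : (S₀.std m).Adm (a, 0, 0) (0, b, 0) 0) :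
    (S₀.std m).T (a, 0, 0) (0, b, 0) 0 ∈ lamS F V₀ m := by
  have h0 : (fun i => F.σ (b i)) ⬝ᵥ a = 0 := by
    have := h.orth
    rw [B_E'] at this
    rw [dotProduct_comm]
    exact this
  have h1 : (fun i => F.σ (b i)) ⬝ᵥ (-(F.ε • a)) = 0 := by
    rw [dotProduct_neg, dotProduct_smul, h0]
    simp
  have h2 : (fun i => F.σ (b i)) ⬝ᵥ (-(-(F.ε • a))) = 0 := by
    rw [dotProduct_neg, h1, neg_zero]
  refine ⟨tv (-(F.ε • a)) (fun i => F.σ (b i)) h1, ?_⟩
  refine LinearEquiv.ext fun y => ?_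
  rw [Sq.T_apply h, lam_apply, B_E, B_E', tv_inv _ _ h1 h2]
  refine Prod.ext ?_ (Prod.ext ?_ ?_)
  · funext i
    change ((1 + vecMulVec (-(F.ε • a)) (fun i => F.σ (b i))) *ᵥ y.1) i = _
    rw [add_mulVec, one_mulVec, Pi.add_apply, vm]
    simp only [Prod.fst_sub, Prod.fst_add, Prod.smul_fst, Pi.add_apply, Pi.sub_apply,
      Pi.smul_apply, smul_eq_mul, Pi.neg_apply, Pi.zero_apply]
    ring
  · have h3 : ((tv (-(-(F.ε • a))) (fun i => F.σ (b i)) h2).1.map F.σ)ᵀ =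
        1 + vecMulVec (F.ε • b) (fun i => F.σ (a i)) := by
      ext i j
      change F.σ ((1 + vecMulVec (-(-(F.ε • a))) (fun i => F.σ (b i))) j i) = _
      simp only [Matrix.add_apply, vecMulVec_apply, map_add, Pi.smul_apply,
        smul_eq_mul, map_mul, F.inv, F.se, Matrix.one_apply, neg_neg]
      have h4 : F.σ (if j = i then (1 : K) else 0) = if i = j then 1 else 0 := by
        by_cases hij : i = j
        · rw [if_pos hij, if_pos hij.symm, map_one]
        · rw [if_neg hij, if_neg (Ne.symm hij), map_zero]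
      rw [h4]
      ring
    rw [h3, add_mulVec, one_mulVec]
    funext i
    change (y.2.1 + vecMulVec (F.ε • b) (fun i => F.σ (a i)) *ᵥ y.2.1) i = _
    rw [Pi.add_apply, vm]
    simp only [Prod.fst_sub, Prod.snd_sub, Prod.snd_add, Prod.smul_snd, Prod.fst_add,
      Prod.smul_fst, Pi.add_apply, Pi.sub_apply, Pi.smul_apply, smul_eq_mul, Pi.zero_apply]
    ring
  · simp

end NE1M

open NE1M in
theorem specNE1 : SpecNE1 := by
  intro K _ F V₀ _ _ S₀ m _ a w c h
  obtain ⟨b, b', v⟩ := w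
  have hz : ZES F V₀ m ⊆ GS S₀ m := fun g hg => Or.inl (Or.inl (Or.inl (Or.inr hg)))
  have hl : (lamS F V₀ m : Set (SV K V₀ m ≃ₗ[K] SV K V₀ m)) ⊆ GS S₀ m :=
    fun g hg => Or.inl (Or.inl (Or.inl (Or.inl hg)))
  have hn : NVE S₀ m ⊆ GS S₀ m := fun g hg => Or.inl (Or.inr hg)
  have q1 : (S₀.std m).q (b, 0, 0) = 0 := by
    rw [std_q]
    simp [S₀.q_zero, dotProduct]
  have q2 : (S₀.std m).q (0, b', 0) = 0 := by
    rw [std_q]
    simp [S₀.q_zero]
  have q3 : (S₀.std m).q (0, 0, v) = S₀.q v := by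
    rw [std_q]
    simp
  have ho : a ⬝ᵥ (fun i => F.σ (b' i)) = 0 := by
    have := h.orth
    rw [std_B] at this
    simpa [S₀.B_zero_left] using this
  have h1 : (S₀.std m).Adm (a, 0, 0) (b, 0, 0) 0 := ⟨sg_E a, by
    rw [B_E]
    simp, by
    rw [q1, sub_zero]
    exact F.Λ.zero_mem⟩
  have h2 : (S₀.std m).Adm (a, 0, 0) (0, b', 0) 0 := ⟨sg_E a, by
    rw [B_E']
    exact ho, by
    rw [q2, sub_zero]
    exact F.Λ.zero_mem⟩
  have h3 : (S₀.std m).Adm (a, 0, 0) (0, 0, v) (S₀.q v) := ⟨sg_E a, by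
    rw [std_B]
    simp [S₀.B_zero_left, dotProduct], by
    rw [q3, sub_self]
    exact F.Λ.zero_mem⟩
  have h4 := h1.add h2
  have h5 := h4.add h3
  have e5 : (((b, 0, 0) : SV K V₀ m) + (0, b', 0) + (0, 0, v)) = (b, b', v) := by
    simp
  rw [e5] at h5
  have h6 : (S₀.std m).Adm (a, 0, 0) 0 (c - (0 + 0 + (S₀.std m).B (0, b', 0) (b, 0, 0) +
      S₀.q v + (S₀.std m).B (0, 0, v) ((b, 0, 0) + (0, b', 0)))) := ⟨sg_E a,
    (S₀.std m).B_zero_right _, by
    rw [Sq.q_zero, sub_zero]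
    have := F.Λ.sub_mem h.par h5.par
    rwa [sub_sub_sub_cancel_right] at this⟩
  have key : (S₀.std m).T (a, 0, 0) (b, b', v) c =
      (S₀.std m).T (a, 0, 0) 0 (c - (0 + 0 + (S₀.std m).B (0, b', 0) (b, 0, 0) +
        S₀.q v + (S₀.std m).B (0, 0, v) ((b, 0, 0) + (0, b', 0)))) *
      ((S₀.std m).T (a, 0, 0) (b, 0, 0) 0 * (S₀.std m).T (a, 0, 0) (0, b', 0) 0 *
        (S₀.std m).T (a, 0, 0) (0, 0, v) (S₀.q v)) := by
    rw [Sq.T_mul h1 h2, Sq.T_mul h4 h3, e5, Sq.T_mul h6 h5, zero_add, Sq.B_zero_right]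
    congr 1
    ring
  rw [key]
  refine mul_mem (Subgroup.subset_closure (hz (T_l a _ h6))) (mul_mem (mul_mem
    (Subgroup.subset_closure (hz (T_b a b h1))) (Subgroup.subset_closure (hl (T_c a b' h2))))
    (Subgroup.subset_closure (hn ⟨a, v, S₀.q v, h3, rfl⟩)))

end Pool.Agent.Lib.MP66ef6b.CL
end

section
set_option autoImplicit false

/-!
# MP_66ef6b_al, CL: module NSG (helper72). Numbers of singular vectors
-/

namespace Pool.Agent.Lib.MP66ef6b.CL

namespace NSGM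

open Matrix

variable {K : Type} [Field K] {F : FD K} {V₀ : Type} [AddCommGroup V₀] [Module K V₀]

/-- the singular vector with `f_i`-coordinate `1` and the other coordinates of `v` (except at `e_i`). -/
def nv (S₀ : Sq F V₀) {m : ℕ} (i : Fin m) (v : SV K V₀ m) : SV K V₀ m :=
  (Function.update v.1 i 0 + Pi.single i (-((Function.update v.1 i 0) ⬝ᵥ
    (fun j => F.σ (Function.update v.2.1 i 1 j)) + S₀.q v.2.2)), Function.update v.2.1 i 1, v.2.2)

theorem nv_q (S₀ : Sq F V₀) {m : ℕ} (i : Fin m) (v : SV K V₀ m) : (S₀.std m).q (nv S₀ i v) = 0 := by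
  rw [std_q]
  simp only [nv, add_dotProduct, single_dotProduct, Function.update_self, map_one, mul_one]
  ring

theorem nv_sg (S₀ : Sq F V₀) {m : ℕ} (i : Fin m) (v : SV K V₀ m) : (S₀.std m).Sg (nv S₀ i v) := by
  rw [Sq.Sg, nv_q]
  exact F.Λ.zero_mem

theorem nv_f (S₀ : Sq F V₀) {m : ℕ} (i : Fin m) (v : SV K V₀ m) : (nv S₀ i v).2.1 i = 1 := by
  simp [nv]

theorem nv_inj (S₀ : Sq F V₀) {m : ℕ} (i : Fin m) (v v' : SV K V₀ m) (h : nv S₀ i v = nv S₀ i v')
    (h1 : v.1 i = v'.1 i) (h2 : v.2.1 i = v'.2.1 i) : v = v' := by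
  refine Prod.ext ?_ (Prod.ext ?_ ?_)
  · funext j
    by_cases hj : j = i
    · rw [hj, h1]
    · have h3 := congrFun (congrArg Prod.fst h) j
      simpa [nv, hj] using h3
  · funext j
    by_cases hj : j = i
    · rw [hj, h2]
    · have h3 := congrFun (congrArg (fun u => u.2.1) h) j
      simpa [nv, hj] using h3
  · exact congrArg (fun u => u.2.2) h

theorem card1 [Finite K] [Finite V₀] (S₀ : Sq F V₀) {m : ℕ} (i : Fin m) :
    Nat.card (SV K V₀ m) ≤ Nat.card K ^ 2 * {x | (S₀.std m).Sg x ∧ x ≠ 0}.ncard := by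
  have hne : ∀ v, nv S₀ i v ≠ 0 := fun v h => by
    have h1 := nv_f S₀ i v
    rw [h] at h1
    simp at h1
  let Φ : SV K V₀ m → K × K × {x | (S₀.std m).Sg x ∧ x ≠ 0} := fun v =>
    (v.1 i, v.2.1 i, ⟨nv S₀ i v, nv_sg S₀ i v, hne v⟩)
  have hΦ : Function.Injective Φ := by
    intro v v' h
    have h1 : v.1 i = v'.1 i := congrArg Prod.fst h
    have h2 : v.2.1 i = v'.2.1 i := congrArg (fun u => u.2.1) h
    have h3 : nv S₀ i v = nv S₀ i v' := congrArg (fun u => u.2.2.1) h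
    exact nv_inj S₀ i v v' h3 h1 h2
  have h := Nat.card_le_card_of_injective Φ hΦ
  have h6 : Nat.card (K × K × {x | (S₀.std m).Sg x ∧ x ≠ 0}) =
      Nat.card K * (Nat.card K * {x | (S₀.std m).Sg x ∧ x ≠ 0}.ncard) := by
    rw [Nat.card_prod, Nat.card_prod, Nat.card_coe_set_eq]
  rw [h6] at h
  calc Nat.card (SV K V₀ m) ≤ _ := h
    _ = _ := by ring

theorem card2 [Finite K] [Finite V₀] (S₀ : Sq F V₀) {m : ℕ} (i i' : Fin m) (hi : i ≠ i') :
    Nat.card (SV K V₀ m) ≤ Nat.card K ^ 3 * {w | (eV K V₀ i, w) ∈ (S₀.std m).TPs}.ncard := by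
  let z : SV K V₀ m → SV K V₀ m := fun v => (v.1, Function.update v.2.1 i 0, v.2.2)
  have hz : ∀ v, (nv S₀ i' (z v)).2.1 i = 0 := fun v => by
    simp [nv, z, hi]
  have hmem : ∀ v, (eV K V₀ i, nv S₀ i' (z v)) ∈ (S₀.std m).TPs := fun v => by
    refine ⟨LMDM.sg_e i, nv_sg S₀ i' _, ?_, ?_⟩
    · apply Sq.B_eq_zero_swap
      show (S₀.std m).B (nv S₀ i' (z v)) (eV K V₀ i) = 0
      rw [LMDM.B_e1, hz, mul_zero]
    · rw [LinearIndependent.pair_iff]
      intro s t hst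
      simp only at hst
      have h1 := congrFun (congrArg (fun u => u.2.1) hst) i'
      have h2 : t = 0 := by
        have h3 := nv_f S₀ i' (z v)
        simp only [Prod.snd_add, Prod.fst_add, Prod.smul_snd, Prod.smul_fst, Pi.add_apply,
          Pi.smul_apply, smul_eq_mul, h3] at h1
        simpa [eV] using h1
      rw [h2, zero_smul, add_zero] at hst
      refine ⟨?_, h2⟩
      have h4 := congrFun (congrArg Prod.fst hst) i
      simpa [eV] using h4
  let Φ : SV K V₀ m → K × K × K × {w | (eV K V₀ i, w) ∈ (S₀.std m).TPs} := fun v =>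
    (v.1 i', v.2.1 i', v.2.1 i, ⟨nv S₀ i' (z v), hmem v⟩)
  have hΦ : Function.Injective Φ := by
    intro v v' h
    have h1 : v.1 i' = v'.1 i' := congrArg Prod.fst h
    have h2 : v.2.1 i' = v'.2.1 i' := congrArg (fun u => u.2.1) h
    have h3 : v.2.1 i = v'.2.1 i := congrArg (fun u => u.2.2.1) h
    have h4 : nv S₀ i' (z v) = nv S₀ i' (z v') := congrArg (fun u => u.2.2.2.1) h
    have h5 : z v = z v' := nv_inj S₀ i' _ _ h4 h1 (by
      simp only [z, Function.update_of_ne (Ne.symm hi)]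
      exact h2)
    have h7 : (z v).1 = (z v').1 := congrArg Prod.fst h5
    have h8 : (z v).2.2 = (z v').2.2 := congrArg (fun u => u.2.2) h5
    refine Prod.ext h7 (Prod.ext ?_ h8)
    funext j
    by_cases hj : j = i
    · rw [hj, h3]
    · have h6 := congrFun (congrArg (fun u => u.2.1) h5) j
      simpa [z, hj] using h6
  have h := Nat.card_le_card_of_injective Φ hΦ
  have h6 : Nat.card (K × K × K × {w | (eV K V₀ i, w) ∈ (S₀.std m).TPs}) =
      Nat.card K * (Nat.card K * (Nat.card K * {w | (eV K V₀ i, w) ∈ (S₀.std m).TPs}.ncard)) := by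
    rw [Nat.card_prod, Nat.card_prod, Nat.card_prod, Nat.card_coe_set_eq]
  rw [h6] at h
  calc Nat.card (SV K V₀ m) ≤ _ := h
    _ = _ := by ring

theorem card3 [Finite K] [Finite V₀] (h1 : SpecWT1) (S₀ : Sq F V₀) {m : ℕ} (hm : 2 ≤ m)
    (hN : S₀.Nd) (x x' : SV K V₀ m) (hs : (S₀.std m).Sg x) (hx : x ≠ 0) (hs' : (S₀.std m).Sg x')
    (hx' : x' ≠ 0) : {w | (x, w) ∈ (S₀.std m).TPs}.ncard ≤ {w | (x', w) ∈ (S₀.std m).TPs}.ncard := by
  obtain ⟨g, hg, hgx⟩ := h1 K F V₀ S₀ m hm hN x x' hx hx' (F.Λ.sub_mem hs hs')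
  have hI := Sq.D_le_Iso _ hg
  have h2 : g '' {w | (x, w) ∈ (S₀.std m).TPs} ⊆ {w | (x', w) ∈ (S₀.std m).TPs} := by
    rintro _ ⟨w, ⟨-, hw, hB, hl⟩, rfl⟩
    refine ⟨hs', ?_, ?_, ?_⟩
    · have h3 := F.Λ.add_mem (hI.2 w) hw
      show (S₀.std m).q (g w) ∈ F.Λ
      rwa [sub_add_cancel] at h3
    · show (S₀.std m).B x' (g w) = 0
      rw [← hgx, hI.1]
      exact hB
    · have h4 := hl.map' g.toLinearMap (LinearMap.ker_eq_bot.2 g.injective)
      have h5 : ⇑g.toLinearMap ∘ ![x, w] = ![x', g w] := by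
        funext k
        fin_cases k
        · exact hgx
        · rfl
      show LinearIndependent K ![x', g w]
      rw [← h5]
      exact h4
  rw [← Set.ncard_image_of_injective _ g.injective]
  exact Set.ncard_le_ncard h2 (Set.toFinite _)

end NSGM

theorem specNSG (hWT1 : SpecWT1) : SpecNSG := by
  intro K _ F V₀ _ _ S₀ m hC
  have hK := hC.finK
  have hV := hC.finV
  have hV' : Finite V₀ := Module.finite_of_finite K
  have hm := hC.rk
  have h3 := fun x x' hs hx hs' hx' =>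
    NSGM.card3 hWT1 S₀ (by omega : 2 ≤ m) hC.nd x x' hs hx hs' hx'
  refine ⟨NSGM.card1 S₀ ⟨0, by omega⟩, fun x hs hx => ?_, fun x x' hs hx hs' hx' =>
    le_antisymm (h3 x x' hs hx hs' hx') (h3 x' x hs' hx' hs hx)⟩
  refine (NSGM.card2 S₀ (⟨0, by omega⟩ : Fin m) ⟨1, by omega⟩ (by simp)).trans ?_
  refine Nat.mul_le_mul_left _ (h3 _ x (LMDM.sg_e _) ?_ hs hx)
  intro h
  have h1 := congrFun (congrArg Prod.fst h) ⟨0, by omega⟩
  simp [eV] at h1

end Pool.Agent.Lib.MP66ef6b.CL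
end

section
set_option autoImplicit false

/-!
# MP_66ef6b_al, CL, module NVV: adding the `T_{u,v,c}` for one `v ∈ V₀`
-/

namespace Pool.Agent.Lib.MP66ef6b.CL

open PL (SLn fx)
open Matrix

namespace NVVM

variable {K : Type} [Field K] {F : FD K} {V₀ : Type} [AddCommGroup V₀] [Module K V₀]

/-- the coefficient -/
def cf (F : FD K) {m : ℕ} (a b : Fin m → K) : K := F.ε * (b ⬝ᵥ fun i => F.σ (a i))

theorem cf_add {m : ℕ} (a a' b : Fin m → K) : cf F (a + a') b = cf F a b + cf F a' b := by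
  have h : (fun i => F.σ ((a + a') i)) = (fun i => F.σ (a i)) + fun i => F.σ (a' i) := by
    funext i
    simp
  unfold cf
  rw [h, dotProduct_add]
  ring

theorem cf_zero {m : ℕ} (b : Fin m → K) : cf F 0 b = 0 := by
  have h : (fun i => F.σ ((0 : Fin m → K) i)) = 0 := by
    funext i
    simp
  unfold cf
  rw [h, dotProduct_zero, mul_zero]

theorem cf_single {m : ℕ} (a : Fin m → K) (i : Fin m) :
    cf F a (Pi.single i 1) = F.ε * F.σ (a i) := by
  unfold cf
  rw [single_dotProduct, one_mul]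

/-- elements with parameter `a` -/
structure Par (S₀ : Sq F V₀) {m : ℕ} (v : V₀) (a : Fin m → K) (h : SV K V₀ m ≃ₗ[K] SV K V₀ m) :
    Prop where
  iso : h ∈ (S₀.std m).Iso
  e1 : ∀ e : Fin m → K, h (e, 0, 0) = (e, 0, 0)
  p1 : ∀ y, (h y).2.1 = y.2.1
  p2 : ∀ y, (h y).2.2 = y.2.2 + cf F a y.2.1 • v

variable {S₀ : Sq F V₀} {m : ℕ} {v : V₀}

theorem Par.one : Par S₀ v 0 (1 : SV K V₀ m ≃ₗ[K] SV K V₀ m) where
  iso := Subgroup.one_mem _
  e1 _ := rfl
  p1 _ := rfl
  p2 y := by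
    rw [cf_zero, zero_smul, add_zero]
    rfl

theorem Par.mul {a a' : Fin m → K} {h h' : SV K V₀ m ≃ₗ[K] SV K V₀ m} (H : Par S₀ v a h)
    (H' : Par S₀ v a' h') : Par S₀ v (a + a') (h * h') where
  iso := Subgroup.mul_mem _ H.iso H'.iso
  e1 e := by rw [LinearEquiv.mul_apply, H'.e1, H.e1]
  p1 y := by rw [LinearEquiv.mul_apply, H.p1, H'.p1]
  p2 y := by
    rw [LinearEquiv.mul_apply, H.p2, H'.p2, H'.p1, cf_add, add_smul]
    abel

theorem apply_inv (h : SV K V₀ m ≃ₗ[K] SV K V₀ m) (y : SV K V₀ m) : h (h⁻¹ y) = y := by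
  rw [← LinearEquiv.mul_apply, mul_inv_cancel, LinearEquiv.coe_one, id_eq]

theorem inv_apply (h : SV K V₀ m ≃ₗ[K] SV K V₀ m) (y : SV K V₀ m) : h⁻¹ (h y) = y := by
  rw [← LinearEquiv.mul_apply, inv_mul_cancel, LinearEquiv.coe_one, id_eq]

theorem Par.inv {a : Fin m → K} {h : SV K V₀ m ≃ₗ[K] SV K V₀ m} (H : Par S₀ v a h) :
    Par S₀ v (-a) h⁻¹ := by
  have hp1 : ∀ y, (h⁻¹ y).2.1 = y.2.1 := by
    intro y
    rw [← H.p1, apply_inv]
  refine ⟨Subgroup.inv_mem _ H.iso, fun e => ?_, hp1, fun y => ?_⟩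
  · conv_lhs => rw [← H.e1 e]
    rw [inv_apply]
  · have h1 := H.p2 (h⁻¹ y)
    rw [apply_inv, hp1] at h1
    have h2 : cf F (-a) y.2.1 = -cf F a y.2.1 := by
      have h3 := cf_add (F := F) a (-a) y.2.1
      rw [add_neg_cancel, cf_zero] at h3
      linear_combination -h3
    rw [h2, h1, neg_smul]
    abel

theorem lam_iso (g : SLn m K) : lam F V₀ m g ∈ (S₀.std m).Iso := by
  have key : ∀ y z, (S₀.std m).β (lam F V₀ m g y) (lam F V₀ m g z) = (S₀.std m).β y z := by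
    intro y z
    rw [std_β, std_β, lam_apply, lam_apply]
    have h1 : (fun i => F.σ ((((g⁻¹ : SLn m K).1.map F.σ)ᵀ *ᵥ z.2.1) i)) =
        ((g⁻¹ : SLn m K).1)ᵀ *ᵥ fun i => F.σ (z.2.1 i) := by
      funext i
      simp only [mulVec, dotProduct, transpose_apply, map_apply, map_sum, map_mul, F.inv]
    have h2 : (g⁻¹ : SLn m K).1 *ᵥ (g.1 *ᵥ y.1) = y.1 := by
      rw [mulVec_mulVec]
      have h3 : (g⁻¹ : SLn m K).1 * g.1 = 1 := by
        have h4 := congrArg Subtype.val (inv_mul_cancel g)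
        exact h4
      rw [h3, one_mulVec]
    show (g.1 *ᵥ y.1) ⬝ᵥ (fun i => F.σ ((((g⁻¹ : SLn m K).1.map F.σ)ᵀ *ᵥ z.2.1) i)) + _ = _
    rw [h1, dotProduct_mulVec, vecMul_transpose, h2]
  refine ⟨fun y z => ?_, fun y => ?_⟩
  · simp only [Sq.B, key]
  · simp only [Sq.q, key, sub_self]
    exact F.Λ.zero_mem

theorem lam_inv_apply (g : SLn m K) (y : SV K V₀ m) :
    (lam F V₀ m g)⁻¹ y = ((g⁻¹ : SLn m K).1 *ᵥ y.1, ((g : SLn m K).1.map F.σ)ᵀ *ᵥ y.2.1, y.2.2) := by
  rw [← map_inv, lam_apply, inv_inv]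

theorem Par.conj {a : Fin m → K} {h : SV K V₀ m ≃ₗ[K] SV K V₀ m} (H : Par S₀ v a h)
    (g : SLn m K) : Par S₀ v (g.1 *ᵥ a) (lam F V₀ m g * h * (lam F V₀ m g)⁻¹) := by
  have hmt : ∀ w : Fin m → K, ((g⁻¹ : SLn m K).1.map F.σ)ᵀ *ᵥ (((g : SLn m K).1.map F.σ)ᵀ *ᵥ w) =
      w := by
    intro w
    rw [mulVec_mulVec, ← transpose_mul, ← Matrix.map_mul]
    have h3 : g.1 * (g⁻¹ : SLn m K).1 = 1 := by
      have h4 := congrArg Subtype.val (mul_inv_cancel g)
      exact h4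
    rw [h3, Matrix.map_one _ (map_zero _) (map_one _), transpose_one, one_mulVec]
  refine ⟨Subgroup.mul_mem _ (Subgroup.mul_mem _ (lam_iso g) H.iso)
    (Subgroup.inv_mem _ (lam_iso g)), fun e => ?_, fun y => ?_, fun y => ?_⟩
  · rw [LinearEquiv.mul_apply, LinearEquiv.mul_apply, lam_inv_apply]
    have h1 : (((g⁻¹ : SLn m K).1 *ᵥ (e, (0 : Fin m → K), (0 : V₀)).1,
        ((g : SLn m K).1.map F.σ)ᵀ *ᵥ (e, (0 : Fin m → K), (0 : V₀)).2.1,
        (e, (0 : Fin m → K), (0 : V₀)).2.2) : SV K V₀ m) = ((g⁻¹ : SLn m K).1 *ᵥ e, 0, 0) := by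
      simp only [mulVec_zero]
    rw [h1, H.e1, lam_apply]
    have h3 : g.1 * (g⁻¹ : SLn m K).1 = 1 := by
      have h4 := congrArg Subtype.val (mul_inv_cancel g)
      exact h4
    simp only [mulVec_zero, mulVec_mulVec, h3, one_mulVec]
  · rw [LinearEquiv.mul_apply, LinearEquiv.mul_apply, lam_apply]
    show ((g⁻¹ : SLn m K).1.map F.σ)ᵀ *ᵥ (h ((lam F V₀ m g)⁻¹ y)).2.1 = _
    rw [H.p1, lam_inv_apply]
    exact hmt _
  · rw [LinearEquiv.mul_apply, LinearEquiv.mul_apply, lam_apply]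
    show (h ((lam F V₀ m g)⁻¹ y)).2.2 = _
    rw [H.p2, lam_inv_apply]
    show y.2.2 + cf F a (((g : SLn m K).1.map F.σ)ᵀ *ᵥ y.2.1) • v = _
    congr 2
    unfold cf
    congr 1
    have h5 : (fun i => F.σ ((g.1 *ᵥ a) i)) = (g.1.map F.σ) *ᵥ fun i => F.σ (a i) := by
      funext i
      simp only [mulVec, dotProduct, map_apply, map_sum, map_mul]
    rw [h5, mulVec_transpose, ← dotProduct_mulVec]

theorem adm (a : Fin m → K) (v : V₀) :
    (S₀.std m).Adm (a, 0, 0) (0, 0, v) ((S₀.std m).q (0, 0, v)) where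
  sg := by
    show (S₀.std m).q (a, 0, 0) ∈ F.Λ
    rw [std_q, S₀.q_zero]
    have h : (fun i => F.σ (((a, (0 : Fin m → K), (0 : V₀)) : SV K V₀ m).2.1 i)) = 0 := by
      funext i
      simp
    rw [h, dotProduct_zero, add_zero]
    exact F.Λ.zero_mem
  orth := by
    rw [std_B, S₀.B_zero_left]
    have h : (fun i => F.σ (((0 : Fin m → K), (0 : Fin m → K), v).2.1 i)) = 0 := by
      funext i
      simp
    rw [h, dotProduct_zero]
    simp
  par := by
    rw [sub_self]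
    exact F.Λ.zero_mem

theorem B_left_zero (y : SV K V₀ m) (a : Fin m → K) : (S₀.std m).B y (a, 0, 0) = cf F a y.2.1 := by
  rw [std_B, S₀.B_zero_right]
  have h : (fun i => F.σ (((a, (0 : Fin m → K), (0 : V₀)) : SV K V₀ m).2.1 i)) = 0 := by
    funext i
    simp
  rw [h, dotProduct_zero, zero_add, add_zero]
  rfl

theorem Par.T {a : Fin m → K} {c : K} (h : (S₀.std m).Adm (a, 0, 0) (0, 0, v) c) :
    Par S₀ v a ((S₀.std m).T (a, 0, 0) (0, 0, v) c) := by
  refine ⟨Sq.T_mem_Iso h, fun e => ?_, fun y => ?_, fun y => ?_⟩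
  · rw [Sq.T_apply h, B_left_zero]
    have h1 : cf F a (((e, (0 : Fin m → K), (0 : V₀)) : SV K V₀ m).2.1) = 0 := by
      unfold cf
      show F.ε * ((0 : Fin m → K) ⬝ᵥ _) = 0
      rw [zero_dotProduct, mul_zero]
    have h2 : (S₀.std m).B (e, 0, 0) (0, 0, v) = 0 := by
      rw [std_B, S₀.B_zero_left]
      have h3 : (fun i => F.σ (((0 : Fin m → K), (0 : Fin m → K), v).2.1 i)) = 0 := by
        funext i
        simp
      rw [h3, dotProduct_zero]
      show 0 + F.ε * ((0 : Fin m → K) ⬝ᵥ _) + 0 = 0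
      rw [zero_dotProduct]
      ring
    rw [h1, h2]
    simp
  · rw [Sq.T_apply h]
    simp
  · rw [Sq.T_apply h, B_left_zero]
    simp

/-- the elements with parameter zero are the `z_D` -/
theorem Par.zE {h : SV K V₀ m ≃ₗ[K] SV K V₀ m} (H : Par S₀ v 0 h) : h ∈ ZES F V₀ m := by
  classical
  have hp2 : ∀ y, (h y).2.2 = y.2.2 := by
    intro y
    rw [H.p2, cf_zero, zero_smul, add_zero]
  -- on `V₀`
  have hV : ∀ y : V₀, h (0, 0, y) = (0, 0, y) := by
    intro y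
    have h1 : (h (0, 0, y)).2.1 = 0 := H.p1 _
    have h2 : (h (0, 0, y)).2.2 = y := hp2 _
    have h3 : (h (0, 0, y)).1 = 0 := by
      funext i
      have h4 := H.iso.1 (0, 0, y) (0, Pi.single i 1, 0)
      rw [std_B, std_B, h1, h2, H.p1, hp2] at h4
      have h5 : (fun j => F.σ ((Pi.single i 1 : Fin m → K) j)) = Pi.single i 1 := by
        funext j
        by_cases hj : j = i
        · subst hj
          simp
        · rw [Pi.single_eq_of_ne hj, map_zero]
      simp only [zero_dotProduct, mul_zero, add_zero, S₀.B_zero_right, h5, dotProduct_single,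
        mul_one] at h4
      exact h4
    exact Prod.ext h3 (Prod.ext h1 h2)
  -- the matrix
  let L : (Fin m → K) →ₗ[K] (Fin m → K) :=
    (LinearMap.fst K _ _) ∘ₗ h.toLinearMap ∘ₗ (LinearMap.inr K (Fin m → K) ((Fin m → K) × V₀)) ∘ₗ
      (LinearMap.inl K (Fin m → K) V₀)
  have hL : ∀ f, L f = (h (0, f, 0)).1 := fun f => rfl
  have hD : ∀ f, LinearMap.toMatrix' L *ᵥ f = (h (0, f, 0)).1 := by
    intro f
    rw [LinearMap.toMatrix'_mulVec]
    exact hL f
  have hf : ∀ f, h (0, f, 0) = (LinearMap.toMatrix' L *ᵥ f, f, 0) := by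
    intro f
    refine Prod.ext (hD f).symm (Prod.ext (H.p1 _) (hp2 _))
  have hst : ∀ i : Fin m, (fun j => F.σ ((Pi.single i 1 : Fin m → K) j)) = Pi.single i 1 := by
    intro i
    funext j
    by_cases hj : j = i
    · subst hj
      simp
    · rw [Pi.single_eq_of_ne hj, map_zero]
  refine ⟨LinearMap.toMatrix' L, ⟨fun i j => ?_, fun i => ?_⟩, ?_⟩
  · have h4 := H.iso.1 (0, Pi.single j 1, 0) (0, Pi.single i 1, 0)
    rw [hf, hf, std_B, std_B] at h4
    simp only [zero_dotProduct, mul_zero, add_zero, S₀.B_zero_right, hst, dotProduct_single,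
      single_dotProduct, mulVec_single_one, col_apply, mul_one, one_mul, map_zero, zero_add,
      Pi.zero_apply] at h4
    linear_combination h4
  · have h4 := H.iso.2 (0, Pi.single i 1, 0)
    rw [hf, std_q, std_q] at h4
    simp only [zero_dotProduct, S₀.q_zero, add_zero, hst, dotProduct_single, mulVec_single_one,
      col_apply, mul_one, sub_zero, Pi.zero_apply] at h4
    exact h4
  · refine LinearEquiv.ext fun y => ?_
    have h5 : y = (y.1, 0, 0) + (0, y.2.1, 0) + (0, 0, y.2.2) := by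
      refine Prod.ext ?_ (Prod.ext ?_ ?_) <;> simp
    conv_lhs => rw [h5]
    rw [map_add, map_add, H.e1, hV, hf, zE_apply]
    refine Prod.ext ?_ (Prod.ext ?_ ?_) <;> simp

/-- the group `N` -/
def NN (S₀ : Sq F V₀) (m : ℕ) (v : V₀) : Subgroup (SV K V₀ m ≃ₗ[K] SV K V₀ m) where
  carrier := {h | ∃ a, Par S₀ v a h}
  one_mem' := ⟨0, Par.one⟩
  mul_mem' := by
    rintro h h' ⟨a, H⟩ ⟨a', H'⟩
    exact ⟨a + a', H.mul H'⟩
  inv_mem' := by
    rintro h ⟨a, H⟩
    exact ⟨-a, H.inv⟩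

/-- the group `Z` -/
def ZZ (S₀ : Sq F V₀) (m : ℕ) (v : V₀) : Subgroup (SV K V₀ m ≃ₗ[K] SV K V₀ m) where
  carrier := {h | Par S₀ v 0 h}
  one_mem' := Par.one
  mul_mem' := by
    intro h h' H H'
    have h1 := Par.mul H H'
    rw [add_zero] at h1
    exact h1
  inv_mem' := by
    intro h H
    have h1 := Par.inv H
    rw [neg_zero] at h1
    exact h1

/-- the parameter is unique -/
theorem Par.unique {a a' : Fin m → K} {h : SV K V₀ m ≃ₗ[K] SV K V₀ m} (hv : v ≠ 0)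
    (H : Par S₀ v a h) (H' : Par S₀ v a' h) : a = a' := by
  funext i
  have h1 := H.p2 (0, Pi.single i 1, 0)
  rw [H'.p2 (0, Pi.single i 1, 0)] at h1
  have h2 : cf F a' (Pi.single i 1) • v = cf F a (Pi.single i 1) • v := add_left_cancel h1
  have h3 : cf F a' (Pi.single i 1) = cf F a (Pi.single i 1) := by
    have h4 : (cf F a' (Pi.single i 1) - cf F a (Pi.single i 1)) • v = 0 := by
      rw [sub_smul, h2, sub_self]
    rcases smul_eq_zero.1 h4 with h5 | h5
    · exact sub_eq_zero.1 h5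
    · exact absurd h5 hv
  rw [cf_single, cf_single] at h3
  exact (F.σ.injective (mul_left_cancel₀ F.e0 h3)).symm

/-- the parameters of a subgroup -/
def PP (S₀ : Sq F V₀) (m : ℕ) (v : V₀) (H : Subgroup (SV K V₀ m ≃ₗ[K] SV K V₀ m)) :
    AddSubgroup (Fin m → K) where
  carrier := {b | ∃ h ∈ H, Par S₀ v b h}
  zero_mem' := ⟨1, H.one_mem, Par.one⟩
  add_mem' := by
    rintro b b' ⟨h, h1, h2⟩ ⟨h', h1', h2'⟩
    exact ⟨h * h', H.mul_mem h1 h1', h2.mul h2'⟩
  neg_mem' := by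
    rintro b ⟨h, h1, h2⟩
    exact ⟨h⁻¹, H.inv_mem h1, h2.inv⟩

/-- transvections -/
theorem tv_apply (i j : Fin m) (hij : i ≠ j) (c : K) (a : Fin m → K) :
    ∃ g : SLn m K, g.1 *ᵥ a = a + Pi.single i (c * a j) := by
  classical
  refine ⟨⟨transvection i j c, det_transvection_of_ne i j hij c⟩, ?_⟩
  show transvection i j c *ᵥ a = _
  rw [transvection, add_mulVec, one_mulVec]
  congr 1
  funext k
  rw [single_mulVec_eq]
  by_cases hk : k = i
  · subst hk
    simp
  · simp [hk]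

/-- generation -/
theorem gen (hm : 2 ≤ m) {H : Subgroup (SV K V₀ m ≃ₗ[K] SV K V₀ m)}
    (h1 : lamS F V₀ m ≤ H) (h2 : ZES F V₀ m ⊆ H) {d : SV K V₀ m ≃ₗ[K] SV K V₀ m}
    {a : Fin m → K} (hd : Par S₀ v a d) (ha : a ≠ 0)
    (h3 : ∀ g : SLn m K, d * lam F V₀ m g * d⁻¹ ∈ H) : NN S₀ m v ≤ H := by
  classical
  have hlam : ∀ g : SLn m K, lam F V₀ m g ∈ H := fun g => h1 ⟨g, rfl⟩
  have hdiff : ∀ g : SLn m K, g.1 *ᵥ a - a ∈ PP S₀ m v H := by
    intro g
    refine ⟨lam F V₀ m g * d * (lam F V₀ m g)⁻¹ * d⁻¹, ?_, ?_⟩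
    · have h4 := H.mul_mem (hlam g) (h3 g⁻¹)
      rw [map_inv] at h4
      have h5 : lam F V₀ m g * d * (lam F V₀ m g)⁻¹ * d⁻¹ =
          lam F V₀ m g * (d * (lam F V₀ m g)⁻¹ * d⁻¹) := by
        simp only [mul_assoc]
      rw [h5]
      exact h4
    · rw [sub_eq_add_neg]
      exact (hd.conj g).mul hd.inv
  have hact : ∀ b ∈ PP S₀ m v H, ∀ g : SLn m K, g.1 *ᵥ b ∈ PP S₀ m v H := by
    rintro b ⟨h, h4, h5⟩ g
    exact ⟨lam F V₀ m g * h * (lam F V₀ m g)⁻¹,
      H.mul_mem (H.mul_mem (hlam g) h4) (H.inv_mem (hlam g)), h5.conj g⟩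
  obtain ⟨j, hj⟩ : ∃ j, a j ≠ 0 := by
    by_contra hcon
    push Not at hcon
    exact ha (funext hcon)
  have hs1 : ∀ i, i ≠ j → ∀ c : K, Pi.single i c ∈ PP S₀ m v H := by
    intro i hij c
    obtain ⟨g, hg⟩ := tv_apply i j hij (c / a j) a
    have h4 := hdiff g
    rw [hg, div_mul_cancel₀ _ hj, add_sub_cancel_left] at h4
    exact h4
  have hs2 : ∀ c : K, Pi.single j c ∈ PP S₀ m v H := by
    intro c
    obtain ⟨i, hij⟩ : ∃ i : Fin m, i ≠ j := by
      haveI : Nontrivial (Fin m) := Fin.nontrivial_iff_two_le.2 hm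
      exact exists_ne j
    obtain ⟨g, hg⟩ := tv_apply j i (Ne.symm hij) c (Pi.single i (1 : K))
    have h4 := hact _ (hs1 i hij 1) g
    rw [hg, Pi.single_eq_same, mul_one] at h4
    have h5 := (PP S₀ m v H).sub_mem h4 (hs1 i hij 1)
    rw [add_sub_cancel_left] at h5
    exact h5
  have hall : ∀ b : Fin m → K, b ∈ PP S₀ m v H := by
    intro b
    rw [← Finset.univ_sum_single b]
    refine AddSubgroup.sum_mem _ fun i _ => ?_
    by_cases hij : i = j
    · subst hij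
      exact hs2 _
    · exact hs1 i hij _
  rintro n ⟨b, hb⟩
  obtain ⟨h, h4, h5⟩ := hall b
  have h6 := (h5.inv.mul hb)
  rw [neg_add_cancel] at h6
  have h7 : h⁻¹ * n ∈ H := h2 h6.zE
  have h8 := H.mul_mem h4 h7
  rw [mul_inv_cancel_left] at h8
  exact h8

end NVVM

open NVVM in
theorem specNVV (h : SpecMAU2) : SpecNVV := by
  classical
  intro K _ _ F V₀ _ _ _ S₀ m hm hnd v Γ M₁ Ω _ _ hl hz hM hN
  haveI : Finite V₀ := Module.finite_of_finite K
  by_cases hv : v = 0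
  · -- everything is in `M₁`
    have h1 : NV1 S₀ m v ⊆ (M₁ : Set (SV K V₀ m ≃ₗ[K] SV K V₀ m)) := by
      rintro g ⟨a, c, h2, rfl⟩
      refine hz ?_
      have h3 := Par.T h2
      have h4 : Par S₀ v 0 ((S₀.std m).T (a, 0, 0) (0, 0, v) c) := by
        refine ⟨h3.iso, h3.e1, h3.p1, fun y => ?_⟩
        rw [h3.p2 y, hv, smul_zero, smul_zero]
      exact h4.zE
    rw [Set.union_eq_left.2 h1]
    exact Nat.le_add_right _ _
  · haveI hfin : Finite (SV K V₀ m ≃ₗ[K] SV K V₀ m) :=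
      Finite.of_injective (fun e => (e : SV K V₀ m → SV K V₀ m)) DFunLike.coe_injective
    have hZN : ZZ S₀ m v ≤ NN S₀ m v := fun g hg => ⟨0, hg⟩
    have hZM : ∀ g ∈ ZZ S₀ m v, g ∈ M₁ := fun g hg => hz (Par.zE hg)
    have hT : ∀ a : Fin m → K, Par S₀ v a
        ((S₀.std m).T (a, 0, 0) (0, 0, v) ((S₀.std m).q (0, 0, v))) := fun a => Par.T (adm a v)
    have hNΓ : NN S₀ m v ≤ Γ := by
      rintro g ⟨a, hg⟩
      have h1 : (S₀.std m).T (a, 0, 0) (0, 0, v) ((S₀.std m).q (0, 0, v)) ∈ Γ :=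
        hN ⟨a, _, adm a v, rfl⟩
      have h2 := (hT a).inv.mul hg
      rw [neg_add_cancel] at h2
      have h3 := Γ.mul_mem h1 (hM (hZM _ h2))
      rw [mul_inv_cancel_left] at h3
      exact h3
    have key := h (SV K V₀ m ≃ₗ[K] SV K V₀ m) Ω Γ M₁ (NN S₀ m v) (ZZ S₀ m v) hM hNΓ
      inferInstance hZN (by
        rintro d ⟨a, hd⟩ hdZ H hH1 hH2
        have ha : a ≠ 0 := by
          rintro rfl
          exact hdZ hd
        exact gen (by omega) (le_trans hl hH1) (Set.Subset.trans hz hH1) hd ha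
          (fun g => hH2 _ (hl ⟨g, rfl⟩)))
    have hcard : Nat.card K ^ m * Nat.card (ZZ S₀ m v) ≤ Nat.card (NN S₀ m v) := by
      have h1 : Nat.card ((Fin m → K) × ZZ S₀ m v) = Nat.card K ^ m * Nat.card (ZZ S₀ m v) := by
        rw [Nat.card_prod, Nat.card_fun, Nat.card_fin]
      rw [← h1]
      let f : (Fin m → K) × ZZ S₀ m v → NN S₀ m v := fun p =>
        ⟨(S₀.std m).T (p.1, 0, 0) (0, 0, v) ((S₀.std m).q (0, 0, v)) * p.2.1,
          ⟨p.1 + 0, (hT p.1).mul p.2.2⟩⟩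
      refine Nat.card_le_card_of_injective f ?_
      rintro ⟨a, z⟩ ⟨a', z'⟩ hf
      have h2 : (S₀.std m).T (a, 0, 0) (0, 0, v) ((S₀.std m).q (0, 0, v)) * z.1 =
          (S₀.std m).T (a', 0, 0) (0, 0, v) ((S₀.std m).q (0, 0, v)) * z'.1 :=
        congrArg Subtype.val hf
      have h3 := (hT a).mul z.2
      have h4 := (hT a').mul z'.2
      rw [add_zero] at h3 h4
      rw [← h2] at h4
      have h5 : a = a' := Par.unique hv h3 h4
      subst h5
      have h6 : z.1 = z'.1 := mul_left_cancel h2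
      rw [Subtype.ext h6]
    have hsub : fy Γ Ω ((M₁ : Set (SV K V₀ m ≃ₗ[K] SV K V₀ m)) ∪ (NN S₀ m v : Set _)) ⊆
        fy Γ Ω ((M₁ : Set (SV K V₀ m ≃ₗ[K] SV K V₀ m)) ∪ NV1 S₀ m v) := by
      intro ω hω γ hγ
      refine hω γ ?_
      rcases hγ with h1 | ⟨a, c, h2, h3⟩
      · exact Or.inl h1
      · refine Or.inr ⟨a, ?_⟩
        rw [h3]
        exact Par.T h2
    have hyy := Set.ncard_le_ncard hsub (Set.toFinite _)
    have hzpos : 0 < Nat.card (ZZ S₀ m v) := Nat.card_pos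
    generalize (fy Γ Ω (M₁ : Set (SV K V₀ m ≃ₗ[K] SV K V₀ m))).ncard = x at *
    generalize (fy Γ Ω ((M₁ : Set (SV K V₀ m ≃ₗ[K] SV K V₀ m)) ∪ (NN S₀ m v : Set _))).ncard =
      y at *
    generalize (fy Γ Ω ((M₁ : Set (SV K V₀ m ≃ₗ[K] SV K V₀ m)) ∪ NV1 S₀ m v)).ncard = y' at *
    generalize Nat.card (ZZ S₀ m v) = z at *
    generalize Nat.card (NN S₀ m v) = n at *
    generalize Nat.card Ω = w at *
    generalize Nat.card K ^ m = q at *
    rcases le_or_gt x y' with hxy | hxy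
    · calc q * x ≤ q * y' := Nat.mul_le_mul_left _ hxy
        _ ≤ q * y' + w := Nat.le_add_right _ _
    · obtain ⟨k, rfl⟩ := Nat.exists_eq_add_of_le hxy.le
      have h1 : n * k ≤ z * w := by
        have h2 : n * y ≤ n * y' := Nat.mul_le_mul_left _ hyy
        have h3 : n * (y' + k) = n * y' + n * k := Nat.mul_add _ _ _
        omega
      have h4 : z * (q * k) ≤ z * w := by
        calc z * (q * k) = q * z * k := by ring
          _ ≤ n * k := Nat.mul_le_mul_right _ hcard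
          _ ≤ z * w := h1
      have h5 : q * k ≤ w := Nat.le_of_mul_le_mul_left h4 hzpos
      rw [Nat.mul_add]
      exact Nat.add_le_add_left h5 _

end Pool.Agent.Lib.MP66ef6b.CL
end

section
set_option autoImplicit false

/-!
# MP_66ef6b_al, CL: module NXC (helper72)
-/

namespace Pool.Agent.Lib.MP66ef6b.CL

namespace NXCM

/-- the standard space is non-degenerate. -/
theorem exists_B_ne {K : Type} [Field K] {F : FD K} {V₀ : Type} [AddCommGroup V₀] [Module K V₀]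
    (S₀ : Sq F V₀) (m : ℕ) (hN : S₀.Nd) {x : SV K V₀ m} (hx : x ≠ 0) :
    ∃ y : SV K V₀ m, (S₀.std m).B y x = 1 := by
  have h : ∃ y : SV K V₀ m, (S₀.std m).B y x ≠ 0 := by
    by_contra hcon
    push Not at hcon
    apply hx
    have h2 : x.2.1 = 0 := by
      funext i
      have h3 := hcon (Pi.single i 1, 0, 0)
      rw [std_B] at h3
      simp only [single_dotProduct, one_mul, zero_dotProduct, mul_zero, add_zero,
        S₀.B_zero_left] at h3
      exact (map_eq_zero F.σ).1 h3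
    have h1 : x.1 = 0 := by
      funext i
      have h3 := hcon (0, Pi.single i 1, 0)
      rw [std_B] at h3
      simp only [single_dotProduct, one_mul, zero_dotProduct, zero_add, add_zero,
        S₀.B_zero_left] at h3
      exact (map_eq_zero F.σ).1 ((mul_eq_zero.1 h3).resolve_left F.e0)
    have h0 : x.2.2 = 0 := by
      apply hN
      intro w
      have h3 := hcon (0, 0, w)
      rw [std_B] at h3
      simp only [zero_dotProduct, mul_zero, add_zero, zero_add] at h3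
      exact S₀.B_eq_zero_swap h3
    exact Prod.ext h1 (Prod.ext h2 h0)
  obtain ⟨y, hy⟩ := h
  exact ⟨((S₀.std m).B y x)⁻¹ • y, by rw [Sq.B_smul_left, inv_mul_cancel₀ hy]⟩

/-- an isometry which is trivial on `x^⊥ / x` and fixes `x` is a Siegel transformation. -/
theorem main {K : Type} [Field K] {F : FD K} {V : Type} [AddCommGroup V] [Module K V]
    {S : Sq F V} {x y : V} (hsx : S.Sg x) (hy : S.B y x = 1) {g : V ≃ₗ[K] V} (hg : g ∈ S.Iso)
    (hgx : g x = x) (hu : ∀ u, S.B u x = 0 → ∃ c : K, g u = u + c • x) :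
    ∃ (z : V) (a : K), S.Adm x z a ∧ g = S.T x z a := by
  have hxy : S.B x y = F.ε := by
    rw [S.B_swap y x, hy, map_one, mul_one]
  have hyx' : S.B (g y) x = 1 := by
    have h := hg.1 y x
    rw [hgx] at h
    rw [h, hy]
  have hz : S.B (g y - y) x = 0 := by
    rw [S.B_sub_left, hyx', hy, sub_self]
  have hadm : S.Adm x (g y - y) (-S.B y (g y - y)) := by
    refine ⟨hsx, S.B_eq_zero_swap hz, ?_⟩
    have h1 := hg.2 y
    have h2 := S.q_add y (g y - y)
    rw [add_sub_cancel] at h2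
    have h3 := F.Λ.sub_mem h2 h1
    convert h3 using 1
    ring
  refine ⟨g y - y, -S.B y (g y - y), hadm, ?_⟩
  have hT : ∀ v, S.B v x = 0 → g v = S.T x (g y - y) (-S.B y (g y - y)) v := by
    intro v hv
    obtain ⟨c, hc⟩ := hu v hv
    have h1 := hg.1 v y
    have hxgy : S.B x (g y) = F.ε := by
      have h := hg.1 x y
      rw [hgx] at h
      rw [h, hxy]
    rw [hc, S.B_add_left, S.B_smul_left, hxgy] at h1
    have h2 : c = -(F.ε * S.B v (g y - y)) := by
      rw [S.B_sub_right]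
      linear_combination (F.ε) * h1 - c * F.ee
    rw [Sq.T_apply hadm, hv, hc, h2]
    module
  have hTy : g y = S.T x (g y - y) (-S.B y (g y - y)) y := by
    rw [Sq.T_apply hadm, hy, one_smul, mul_one, add_neg_cancel, mul_zero, zero_smul, sub_zero,
      add_sub_cancel]
  refine LinearEquiv.ext fun v => ?_
  have hv : v = (v - S.B v x • y) + S.B v x • y := by abel
  have h0 : S.B (v - S.B v x • y) x = 0 := by
    rw [S.B_sub_left, S.B_smul_left, hy, mul_one, sub_self]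
  rw [hv, map_add, map_smul, map_add, map_smul, ← hT _ h0, ← hTy]

end NXCM

theorem specNXC (_ : SpecWT1) (_ : SpecWT3) : SpecNXC := by
  intro K _ F V₀ _ _ S₀ m _ hN x hsx hx g hg hgx hu
  obtain ⟨y, hy⟩ := NXCM.exists_B_ne S₀ m hN hx
  exact NXCM.main hsx hy hg hgx hu

end Pool.Agent.Lib.MP66ef6b.CL
end

section
set_option autoImplicit false

/-!
# MP_66ef6b_al, THEOREM L2, module NXG: generation of `N_x`
-/

namespace Pool.Agent.Lib.MP66ef6b.CL

open Matrix

namespace NXGM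

variable {K : Type} [Field K] {F : FD K} {V₀ : Type} [AddCommGroup V₀] [Module K V₀]
  {S₀ : Sq F V₀} {m : ℕ}

/-- the `w` such that some `T x w a` is in `H`. -/
def LS {V : Type} [AddCommGroup V] [Module K V] (S : Sq F V) (x : V) (hx : S.Sg x)
    (H : Subgroup (V ≃ₗ[K] V)) : AddSubgroup V where
  carrier := {w | ∃ a : K, S.Adm x w a ∧ S.T x w a ∈ H}
  add_mem' := by
    rintro w z ⟨a, ha, ha'⟩ ⟨b, hb, hb'⟩
    exact ⟨_, ha.add hb, by rw [← Sq.T_mul ha hb]; exact H.mul_mem ha' hb'⟩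
  zero_mem' := ⟨0, Sq.Adm.zero hx, by rw [Sq.T_zero]; exact H.one_mem⟩
  neg_mem' := by
    rintro w ⟨a, ha, ha'⟩
    exact ⟨_, ha.inv, by rw [← Sq.T_inv ha]; exact H.inv_mem ha'⟩

/-- singular vectors orthogonal to `e_0` generate `e_0^⊥` additively. -/
theorem core (hm : 2 ≤ m) (W : AddSubgroup (SV K V₀ m))
    (hW : ∀ u, (S₀.std m).Sg u → (S₀.std m).B u (eV K V₀ ⟨0, by omega⟩) = 0 → u ∈ W)
    (u : SV K V₀ m) (hu : (S₀.std m).B u (eV K V₀ ⟨0, by omega⟩) = 0) : u ∈ W := by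
  have h0 : u.2.1 ⟨0, by omega⟩ = 0 := by
    rw [LMDM.B_e1] at hu
    exact (mul_eq_zero.mp hu).resolve_left F.e0
  let c : K := S₀.q u.2.2
  let i1 : Fin m := ⟨1, by omega⟩
  have hne : (⟨0, by omega⟩ : Fin m) ≠ i1 := by
    intro h
    have := congrArg Fin.val h
    simp [i1] at this
  have hE : ∀ a : Fin m → K, ((a, 0, 0) : SV K V₀ m) ∈ W := by
    intro a
    apply hW
    · rw [Sq.Sg, std_q]
      simp only [Pi.zero_apply, map_zero, S₀.q_zero, add_zero]
      have : a ⬝ᵥ (fun _ : Fin m => (0 : K)) = 0 := by simp [dotProduct]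
      rw [this]
      exact F.Λ.zero_mem
    · rw [LMDM.B_e1]
      simp
  have hF : ∀ a : Fin m → K, a ⟨0, by omega⟩ = 0 → ((0, a, 0) : SV K V₀ m) ∈ W := by
    intro a ha
    apply hW
    · rw [Sq.Sg, std_q]
      simp only [S₀.q_zero, add_zero, zero_dotProduct]
      exact F.Λ.zero_mem
    · rw [LMDM.B_e1]
      simp only [ha, mul_zero]
  have hS : ((Pi.single i1 (-c), Pi.single i1 1, u.2.2) : SV K V₀ m) ∈ W := by
    apply hW
    · rw [Sq.Sg, std_q]
      have : (Pi.single i1 (-c) : Fin m → K) ⬝ᵥ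
          (fun i => F.σ ((Pi.single i1 (1 : K) : Fin m → K) i)) = -c := by
        rw [single_dotProduct]
        simp
      simp only [this]
      have h2 : -c + S₀.q u.2.2 = 0 := by
        simp [c]
      rw [h2]
      exact F.Λ.zero_mem
    · rw [LMDM.B_e1]
      have : (Pi.single i1 (1 : K) : Fin m → K) ⟨0, by omega⟩ = 0 := by
        rw [Pi.single_apply, if_neg hne]
      simp only [this, mul_zero]
  have hsum : u = (Pi.single i1 (-c), Pi.single i1 1, u.2.2) +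
      ((u.1 + Pi.single i1 c, 0, 0) + (0, u.2.1 - Pi.single i1 1, 0)) := by
    refine Prod.ext ?_ (Prod.ext ?_ ?_)
    · simp only [Prod.fst_add, add_zero, Pi.single_neg]
      abel
    · simp only [Prod.snd_add, Prod.fst_add, zero_add]
      abel
    · simp
  rw [hsum]
  refine W.add_mem hS (W.add_mem (hE _) (hF _ ?_))
  rw [Pi.sub_apply, h0, Pi.single_apply, if_neg hne, sub_zero]

/-- a singular orthogonal vector is in `LS` if it is not a multiple of `x`. -/
theorem mem_of_ne {V : Type} [AddCommGroup V] [Module K V] (S : Sq F V) (x : V) (hx : S.Sg x)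
    (hx0 : x ≠ 0) (H : Subgroup (V ≃ₗ[K] V)) (hH : ∀ w, (x, w) ∈ S.TPs → S.T x w 0 ∈ H) (w : V)
    (hw : S.Sg w) (hxw : S.B x w = 0) (hne : ∀ c : K, c • x ≠ w) : S.T x w 0 ∈ H ∧ S.Adm x w 0 := by
  refine ⟨hH w ⟨hx, hw, hxw, ?_⟩, hx, hxw, ?_⟩
  · exact (LinearIndependent.pair_iff' hx0).2 hne
  · rw [zero_sub]
    exact F.Λ.neg_mem hw

end NXGM

open NXGM in
theorem specNXG (hWT1 : SpecWT1) : SpecNXG := by
  intro K _ F V₀ _ _ S₀ m hm hnd x hx hx0 H hH w a hwa
  have h01 : (⟨0, by omega⟩ : Fin m) ≠ ⟨1, by omega⟩ := by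
    intro h
    have := congrArg Fin.val h
    simp at this
  have hne0 : (eV K V₀ (⟨0, by omega⟩ : Fin m)) ≠ 0 := by
    intro h
    have h1 := congrFun (congrArg Prod.fst h) ⟨0, by omega⟩
    simp [eV] at h1
  obtain ⟨g, hg, hgx⟩ := hWT1 K F V₀ S₀ m (by omega) hnd (eV K V₀ ⟨0, by omega⟩) x hne0 hx0 (by
    rw [LMDM.q_e, zero_sub]
    exact F.Λ.neg_mem hx)
  have hI := Sq.D_le_Iso _ hg
  have h0 : ∀ v, g (g⁻¹ v) = v := fun v => by
    rw [← LinearEquiv.mul_apply, mul_inv_cancel, LinearEquiv.coe_one, id_eq]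
  -- the vectors `g v` which are not multiples of `x`
  have hnm : ∀ v : SV K V₀ m, (∀ c : K, c • eV K V₀ (⟨0, by omega⟩ : Fin m) ≠ v) →
      ∀ c : K, c • x ≠ g v := by
    intro v hv c hc
    apply hv c
    apply g.injective
    rw [map_smul, hgx, hc]
  have hBx : ∀ v : SV K V₀ m, (S₀.std m).B (eV K V₀ (⟨0, by omega⟩ : Fin m)) v = 0 →
      (S₀.std m).B x (g v) = 0 := by
    intro v hv
    rw [← hgx, hI.1, hv]
  -- `e_1`
  have he1 : ∀ c : K, c • eV K V₀ (⟨0, by omega⟩ : Fin m) ≠ eV K V₀ (⟨1, by omega⟩ : Fin m) := by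
    intro c h
    have h1 := congrFun (congrArg Prod.fst h) ⟨1, by omega⟩
    simp [eV] at h1
  have hE1 := mem_of_ne (S₀.std m) x hx hx0 H hH (g (eV K V₀ ⟨1, by omega⟩))
    (PRUM.sg_map hI (LMDM.sg_e _)) (hBx _ (PRUM.B_ee _ _)) (hnm _ he1)
  -- `T x 0 l`
  have hΛ : ∀ l ∈ F.Λ, (S₀.std m).T x 0 l ∈ H := by
    intro l hl
    by_cases hl0 : l = 0
    · rw [hl0, Sq.T_zero]
      exact H.one_mem
    have hf1 : ∀ c : K, c • eV K V₀ (⟨0, by omega⟩ : Fin m) ≠
        (F.ε * l) • fV K V₀ (⟨1, by omega⟩ : Fin m) := by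
      intro c h
      have h1 := congrFun (congrArg (fun v => v.2.1) h) ⟨1, by omega⟩
      simp [eV, fV, hl0, F.e0] at h1
    have hs1 : ∀ c : K, c • eV K V₀ (⟨0, by omega⟩ : Fin m) ≠
        eV K V₀ (⟨1, by omega⟩ : Fin m) + (F.ε * l) • fV K V₀ (⟨1, by omega⟩ : Fin m) := by
      intro c h
      have h1 := congrFun (congrArg (fun v => v.2.1) h) ⟨1, by omega⟩
      simp [eV, fV, hl0, F.e0] at h1
    have hF1 := mem_of_ne (S₀.std m) x hx hx0 H hH (g ((F.ε * l) • fV K V₀ ⟨1, by omega⟩))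
      (PRUM.sg_map hI ((LMDM.sg_f _).smul _)) (hBx _ (by
        rw [Sq.B_smul_right, PRUM.B_ef, if_neg h01, mul_zero])) (hnm _ hf1)
    have hBf : (S₀.std m).B ((F.ε * l) • fV K V₀ (⟨1, by omega⟩ : Fin m))
        (eV K V₀ (⟨1, by omega⟩ : Fin m)) = l := by
      rw [Sq.B_smul_left, PRUM.B_fe, if_pos rfl]
      linear_combination l * F.ee
    have hsg : (S₀.std m).Sg (eV K V₀ (⟨1, by omega⟩ : Fin m) +
        (F.ε * l) • fV K V₀ (⟨1, by omega⟩ : Fin m)) := by
      have h1 := (S₀.std m).q_add (eV K V₀ (⟨1, by omega⟩ : Fin m))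
        ((F.ε * l) • fV K V₀ (⟨1, by omega⟩ : Fin m))
      have h2 : (S₀.std m).B (eV K V₀ (⟨1, by omega⟩ : Fin m))
          ((F.ε * l) • fV K V₀ (⟨1, by omega⟩ : Fin m)) = -l := by
        rw [(S₀.std m).B_swap ((F.ε * l) • fV K V₀ (⟨1, by omega⟩ : Fin m)) (eV K V₀ (⟨1, by omega⟩ : Fin m)),
            hBf, F.skew hl]
      rw [h2, LMDM.q_e, Sq.q_smul, LMDM.q_f, mul_zero, add_zero, zero_add] at h1
      have h3 := F.Λ.sub_mem h1 hl
      rwa [sub_neg_eq_add, add_sub_cancel_right] at h3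
    have hS1 := mem_of_ne (S₀.std m) x hx hx0 H hH
      (g (eV K V₀ ⟨1, by omega⟩ + (F.ε * l) • fV K V₀ ⟨1, by omega⟩))
      (PRUM.sg_map hI hsg) (hBx _ (by
        rw [Sq.B_add_right, PRUM.B_ee, Sq.B_smul_right, PRUM.B_ef, if_neg h01, mul_zero,
          add_zero])) (hnm _ hs1)
    have h4 := Sq.T_mul hE1.2 hF1.2
    rw [hI.1, hBf, add_zero, zero_add, ← map_add] at h4
    have h5 : (S₀.std m).Adm x 0 l := ⟨hx, Sq.B_zero_right _ _, by
      rw [Sq.q_zero, sub_zero]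
      exact hl⟩
    have h6 := Sq.T_mul h5 hS1.2
    rw [Sq.B_zero_right, add_zero, add_zero, zero_add, ← h4] at h6
    have h7 : (S₀.std m).T x 0 l = (S₀.std m).T x (g (eV K V₀ ⟨1, by omega⟩)) 0 *
        (S₀.std m).T x (g ((F.ε * l) • fV K V₀ ⟨1, by omega⟩)) 0 *
        ((S₀.std m).T x (g (eV K V₀ ⟨1, by omega⟩ + (F.ε * l) • fV K V₀ ⟨1, by omega⟩)) 0)⁻¹ := by
      rw [← h6, mul_inv_cancel_right]
    rw [h7]
    exact H.mul_mem (H.mul_mem hE1.1 hF1.1) (H.inv_mem hS1.1)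
  -- multiples of `x`
  have hcx : ∀ c : K, c • x ∈ LS (S₀.std m) x hx H := by
    intro c
    have h1 : g (eV K V₀ ⟨1, by omega⟩) ∈ LS (S₀.std m) x hx H := ⟨0, hE1.2, hE1.1⟩
    have hs : ∀ d : K, d • eV K V₀ (⟨0, by omega⟩ : Fin m) ≠
        c • eV K V₀ (⟨0, by omega⟩ : Fin m) + eV K V₀ (⟨1, by omega⟩ : Fin m) := by
      intro d h
      have h1 := congrFun (congrArg Prod.fst h) ⟨1, by omega⟩
      simp [eV] at h1
    have h2 := mem_of_ne (S₀.std m) x hx hx0 H hH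
      (g (c • eV K V₀ ⟨0, by omega⟩ + eV K V₀ ⟨1, by omega⟩))
      (PRUM.sg_map hI (((LMDM.sg_e _).smul _).add (LMDM.sg_e _) (by
        rw [Sq.B_smul_left, PRUM.B_ee, mul_zero]))) (hBx _ (by
        rw [Sq.B_add_right, Sq.B_smul_right, PRUM.B_ee, PRUM.B_ee, mul_zero, add_zero]))
      (hnm _ hs)
    have h3 : g (c • eV K V₀ ⟨0, by omega⟩ + eV K V₀ ⟨1, by omega⟩) ∈
        LS (S₀.std m) x hx H := ⟨0, h2.2, h2.1⟩
    have h4 := (LS (S₀.std m) x hx H).sub_mem h3 h1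
    rwa [map_add, map_smul, hgx, add_sub_cancel_right] at h4
  -- everything orthogonal to `x`
  have hall : ∀ u, (S₀.std m).B u x = 0 → u ∈ LS (S₀.std m) x hx H := by
    intro u hu
    have h1 : g⁻¹ u ∈ (LS (S₀.std m) x hx H).comap g.toLinearMap.toAddMonoidHom := by
      apply core (S₀ := S₀) (by omega)
      · intro v hv hvB
        show g v ∈ LS (S₀.std m) x hx H
        by_cases hc : ∃ c : K, c • x = g v
        · obtain ⟨c, hc⟩ := hc
          rw [← hc]
          exact hcx c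
        · push Not at hc
          have h2 := mem_of_ne (S₀.std m) x hx hx0 H hH (g v) (PRUM.sg_map hI hv)
            (hBx _ (Sq.B_eq_zero_swap _ hvB)) hc
          exact ⟨0, h2.2, h2.1⟩
      · rw [← hI.1, h0, hgx, hu]
    have h2 : g (g⁻¹ u) ∈ LS (S₀.std m) x hx H := h1
    rwa [h0] at h2
  obtain ⟨a', ha', haH⟩ := hall w hwa.orth'
  have h5 : (S₀.std m).Adm x 0 (a - a') := ⟨hx, Sq.B_zero_right _ _, by
    rw [Sq.q_zero, sub_zero]
    have := F.Λ.sub_mem hwa.par ha'.par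
    rwa [sub_sub_sub_cancel_right] at this⟩
  have h6 := Sq.T_mul h5 ha'
  rw [Sq.B_zero_right, add_zero, zero_add, sub_add_cancel] at h6
  rw [← h6]
  refine H.mul_mem (hΛ _ ?_) haH
  have h7 := h5.par
  rwa [Sq.q_zero, sub_zero] at h7

end Pool.Agent.Lib.MP66ef6b.CL
end

section
set_option autoImplicit false

/-!
# MP_66ef6b_al, THEOREM L2, module NXX (helper44): an automorphism preserves `N_x`
-/

namespace Pool.Agent.Lib.MP66ef6b.CL

open PL (SLn fx)

universe u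

namespace NXXM

variable {K : Type} [Field K] {F : FD K} {V₀ : Type} [AddCommGroup V₀] [Module K V₀]
  {S₀ : Sq F V₀} {m : ℕ} {P : Type u} [Group P] {π : (S₀.std m).D ⊤ →* P} {e : P ≃* P}

theorem mp_mul {g g' h h' : SV K V₀ m ≃ₗ[K] SV K V₀ m} (h1 : Mp π e g g') (h2 : Mp π e h h') :
    Mp π e (g * h) (g' * h') := by
  obtain ⟨a, a', ha⟩ := h1
  obtain ⟨b, b', hb⟩ := h2
  refine ⟨Subgroup.mul_mem _ a b, Subgroup.mul_mem _ a' b', ?_⟩
  have h5 : (⟨g * h, Subgroup.mul_mem _ a b⟩ : (S₀.std m).D ⊤) = ⟨g, a⟩ * ⟨h, b⟩ := rfl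
  have h6 : (⟨g' * h', Subgroup.mul_mem _ a' b'⟩ : (S₀.std m).D ⊤) = ⟨g', a'⟩ * ⟨h', b'⟩ := rfl
  rw [h5, h6, map_mul, map_mul, map_mul, ha, hb]

theorem mp_one : Mp π e (1 : SV K V₀ m ≃ₗ[K] SV K V₀ m) 1 := by
  refine ⟨Subgroup.one_mem _, Subgroup.one_mem _, ?_⟩
  have h5 : (⟨1, Subgroup.one_mem _⟩ : (S₀.std m).D ⊤) = 1 := rfl
  rw [h5, map_one, map_one]

theorem mp_inv {g g' : SV K V₀ m ≃ₗ[K] SV K V₀ m} (h1 : Mp π e g g') : Mp π e g⁻¹ g'⁻¹ := by
  obtain ⟨a, a', ha⟩ := h1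
  refine ⟨Subgroup.inv_mem _ a, Subgroup.inv_mem _ a', ?_⟩
  have h5 : (⟨g⁻¹, Subgroup.inv_mem _ a⟩ : (S₀.std m).D ⊤) = ⟨g, a⟩⁻¹ := rfl
  have h6 : (⟨g'⁻¹, Subgroup.inv_mem _ a'⟩ : (S₀.std m).D ⊤) = ⟨g', a'⟩⁻¹ := rfl
  rw [h5, h6, map_inv, map_inv, map_inv, ha]

theorem mp_unique (hπ : Ker π) {g g₁ g₂ : SV K V₀ m ≃ₗ[K] SV K V₀ m} (h1 : Mp π e g g₁)
    (h2 : Mp π e g g₂) : ∃ c : K, ∀ v, g₁ v = c • g₂ v := by
  obtain ⟨a, a', ha⟩ := h1
  obtain ⟨b, b', hb⟩ := h2
  have h3 : π ⟨g₁, a'⟩ = π ⟨g₂, b'⟩ := by rw [← ha, ← hb]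
  have h4 : π (⟨g₁, a'⟩ * ⟨g₂, b'⟩⁻¹) = 1 := by rw [map_mul, map_inv, h3, mul_inv_cancel]
  obtain ⟨c, hc⟩ := (hπ.2 _).1 h4
  refine ⟨c, fun v => ?_⟩
  have h5 := hc (g₂ v)
  have h6 : ((⟨g₁, a'⟩ * ⟨g₂, b'⟩⁻¹ : (S₀.std m).D ⊤) : SV K V₀ m ≃ₗ[K] SV K V₀ m) =
    g₁ * g₂⁻¹ := rfl
  rw [h6, LinearEquiv.mul_apply, ← LinearEquiv.mul_apply g₂⁻¹ g₂, inv_mul_cancel,
    LinearEquiv.coe_one, id_eq] at h5
  exact h5

/-- the elements whose image under `e` lies in the image of `N_x`. -/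
def HN (π : (S₀.std m).D ⊤ →* P) (e : P ≃* P) (x : SV K V₀ m) (hx : (S₀.std m).Sg x) :
    Subgroup (SV K V₀ m ≃ₗ[K] SV K V₀ m) where
  carrier := {h | ∃ w a, (S₀.std m).Adm x w a ∧ Mp π e h ((S₀.std m).T x w a)}
  mul_mem' := by
    rintro g h ⟨w, a, h1, h2⟩ ⟨z, b, h3, h4⟩
    exact ⟨w + z, a + b + (S₀.std m).B z w, h1.add h3, by
      rw [← Sq.T_mul h1 h3]
      exact mp_mul h2 h4⟩
  one_mem' := ⟨0, 0, Sq.Adm.zero hx, by rw [Sq.T_zero]; exact mp_one⟩
  inv_mem' := by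
    rintro g ⟨w, a, h1, h2⟩
    exact ⟨-w, F.ε * F.σ a, h1.inv, by
      rw [← Sq.T_inv h1]
      exact mp_inv h2⟩

theorem adm0 {x : SV K V₀ m} (hx : (S₀.std m).Sg x) {l : K} (hl : l ∈ F.Λ) :
    (S₀.std m).Adm x 0 l where
  sg := hx
  orth := (S₀.std m).B_zero_right x
  par := by
    rw [Sq.q_zero, sub_zero]
    exact hl

/-- the `l ∈ Λ` such that `T x 0 l` is fixed. -/
def L1 (π : (S₀.std m).D ⊤ →* P) (e : P ≃* P) (x : SV K V₀ m) (hx : (S₀.std m).Sg x) :
    AddSubgroup K where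
  carrier := {l | l ∈ F.Λ ∧ Mp π e ((S₀.std m).T x 0 l) ((S₀.std m).T x 0 l)}
  add_mem' := by
    rintro a b ⟨h1, h2⟩ ⟨h3, h4⟩
    refine ⟨F.Λ.add_mem h1 h3, ?_⟩
    have h5 := mp_mul h2 h4
    rw [Sq.T_mul (adm0 hx h1) (adm0 hx h3), (S₀.std m).B_zero_right, add_zero, add_zero] at h5
    exact h5
  zero_mem' := ⟨F.Λ.zero_mem, by rw [Sq.T_zero]; exact mp_one⟩
  neg_mem' := by
    rintro a ⟨h1, h2⟩
    refine ⟨F.Λ.neg_mem h1, ?_⟩
    have h3 := mp_inv h2
    rw [Sq.T_inv (adm0 hx h1), neg_zero, F.skew h1] at h3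
    exact h3

/-- the difference of two parameters. -/
theorem diff_mem {x u : SV K V₀ m} (hx : (S₀.std m).Sg x) {a b : K}
    (ha : (S₀.std m).Adm x u a) (hb : (S₀.std m).Adm x u b)
    (ha' : Mp π e ((S₀.std m).T x u a) ((S₀.std m).T x u a))
    (hb' : Mp π e ((S₀.std m).T x u b) ((S₀.std m).T x u b)) : a - b ∈ L1 π e x hx := by
  have h1 := F.Λ.sub_mem ha.par hb.par
  rw [sub_sub_sub_cancel_right] at h1
  refine ⟨h1, ?_⟩
  have h2 := mp_mul ha' (mp_inv hb')
  rw [Sq.T_inv hb, Sq.T_mul ha hb.inv, add_neg_cancel, (S₀.std m).B_neg_left, hb.self] at h2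
  have h3 : a + F.ε * F.σ b + -(b + F.ε * F.σ b) = a - b := by ring
  rw [h3] at h2
  exact h2

/-- A subspace of dimension `3` which avoids a subspace of dimension at most `4`. -/
theorem exists_sub {V : Type} [AddCommGroup V] [Module K V] [Module.Finite K V]
    (W₀ Y : Submodule K V) (h : Module.finrank K Y + 3 ≤ Module.finrank K W₀) :
    ∃ X : Submodule K V, X ≤ W₀ ∧ 3 ≤ Module.finrank K X ∧ Disjoint X Y := by
  obtain ⟨X, hX⟩ := Submodule.exists_isCompl (Y.comap W₀.subtype)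
  refine ⟨X.map W₀.subtype, Submodule.map_subtype_le _ _, ?_, ?_⟩
  · have h1 := Submodule.finrank_add_eq_of_isCompl hX
    have h2 := Submodule.finrank_map_subtype_eq W₀ X
    have h3 := Submodule.finrank_map_subtype_eq W₀ (Y.comap W₀.subtype)
    have h4 := Submodule.finrank_mono (Submodule.map_comap_le W₀.subtype Y)
    omega
  · rw [Submodule.disjoint_def]
    rintro _ ⟨v, hv, rfl⟩ hv2
    have h1 := (Submodule.disjoint_def.1 hX.disjoint) v hv2 hv
    rw [h1]
    rfl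

/-- A nonzero vector of `X` such that `φ` vanishes. -/
theorem exists_zero (hC : SpecCWQ) {V : Type} [AddCommGroup V] [Module K V] [Finite K]
    [Module.Finite K V] (X : Submodule K V) (hX : 3 ≤ Module.finrank K X) (L : AddSubgroup K)
    (φ : X → K) (b : V → V → K) (hb1 : ∀ u v w, b (u + v) w = b u w + b v w)
    (hb2 : ∀ u v w, b u (v + w) = b u v + b u w)
    (hφ : ∀ u v : X, φ (u + v) - (φ u + φ v + b u v) ∈ L) :
    ∃ u : X, u ≠ 0 ∧ φ u ∈ L := by
  obtain ⟨p, hp⟩ := CharP.exists K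
  have hp0 : p ≠ 0 := CharP.char_ne_zero_of_finite K p
  have hpp : p.Prime := (CharP.char_is_prime_or_zero K p).resolve_right hp0
  have : Finite X := Module.finite_of_finite K
  have hpK : ∀ a : K, p • a = 0 := by
    intro a
    rw [nsmul_eq_mul, CharP.cast_eq_zero, zero_mul]
  obtain ⟨u, hu, hu2⟩ := hC p X (K ⧸ L) (fun v => QuotientAddGroup.mk (φ v))
    (fun v w => QuotientAddGroup.mk (b v w)) hpp
    (fun v => by
      rw [← Nat.cast_smul_eq_nsmul K p v, CharP.cast_eq_zero, zero_smul])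
    (fun y => by
      obtain ⟨a, rfl⟩ := QuotientAddGroup.mk_surjective y
      rw [← QuotientAddGroup.mk_nsmul, hpK, QuotientAddGroup.mk_zero])
    (fun a v w => by
      rw [← QuotientAddGroup.mk_add, Submodule.coe_add, hb1])
    (fun a v w => by
      rw [← QuotientAddGroup.mk_add, Submodule.coe_add, hb2])
    (fun v w => by
      rw [← QuotientAddGroup.mk_add, ← QuotientAddGroup.mk_add]
      rw [QuotientAddGroup.eq, neg_add_eq_sub, ← neg_mem_iff, neg_sub]
      exact hφ v w)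
    (by
      have h1 : Nat.card (K ⧸ L) ≤ Nat.card K :=
        Nat.card_le_card_of_surjective _ (QuotientAddGroup.mk_surjective (s := L))
      have h2 : Nat.card X = Nat.card K ^ Module.finrank K X :=
        Module.natCard_eq_pow_finrank
      have h3 : 1 < Nat.card K := Finite.one_lt_card
      rw [h2]
      calc Nat.card (K ⧸ L) ^ 2 ≤ Nat.card K ^ 2 := Nat.pow_le_pow_left h1 2
        _ < Nat.card K ^ Module.finrank K X := Nat.pow_lt_pow_right h3 (by omega))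
  exact ⟨u, hu, (QuotientAddGroup.eq_zero_iff _).1 hu2⟩

/-- the span of four vectors has dimension at most four. -/
theorem finrank_span4 {V : Type} [AddCommGroup V] [Module K V] (a b c d : V) :
    Module.finrank K (Submodule.span K ({a, b, c, d} : Set V)) ≤ 4 := by
  classical
  have h1 := finrank_span_finset_le_card (R := K) ({a, b, c, d} : Finset V)
  have h2 : (({a, b, c, d} : Finset V) : Set V) = {a, b, c, d} := by simp
  rw [Set.finrank, h2] at h1
  exact h1.trans Finset.card_le_four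

end NXXM

open NXXM in
theorem specNXX (hC : SpecCWQ) (hR : SpecRNK) (hG : SpecNXG) : SpecNXX.{u} := by
  intro K _ F V₀ _ _ S₀ m hCls hm4 P _ π e hπ x hx hx0 W₀ hW₀ hfix hcl
  have := hCls.finK
  have := hCls.finV
  suffices h : ∀ w, (x, w) ∈ (S₀.std m).TPs → (S₀.std m).T x w 0 ∈ HN π e x hx by
    intro w a hwa
    exact hG K F V₀ S₀ m hCls.rk hCls.nd x hx hx0 (HN π e x hx) h w a hwa
  intro w hw
  obtain ⟨⟨y, z⟩, hyz, hg⟩ := hcl (x, w) hw
  simp only at hg
  have hxw : (S₀.std m).Adm x w 0 := ⟨hx, hw.2.2.1, by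
    rw [zero_sub]
    exact F.Λ.neg_mem hw.2.1⟩
  obtain ⟨X, hXW, hX3, hXY⟩ := exists_sub W₀ (Submodule.span K {x, w, y, z})
    (by have := finrank_span4 (K := K) x w y z; omega)
  have hex : ∀ v : X, ∃ a : K, (S₀.std m).Adm x v a ∧
      Mp π e ((S₀.std m).T x v a) ((S₀.std m).T x v a) := fun v => hfix v (hXW v.2)
  choose a ha ha' using hex
  obtain ⟨u, hu0, hu⟩ := exists_zero hC X hX3 (L1 π e x hx)
    (fun v => a v + (S₀.std m).B w v) (fun v v' => (S₀.std m).B v' v)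
    (fun v v' v'' => by simp only [Sq.B_add_right])
    (fun v v' v'' => by simp only [Sq.B_add_left])
    (fun v v' => by
      have h1 := mp_mul (ha' v) (ha' v')
      rw [Sq.T_mul (ha v) (ha v')] at h1
      have h2 := (ha v).add (ha v')
      have h3 := diff_mem hx (ha (v + v')) h2 (ha' (v + v')) h1
      have h4 : a (v + v') + (S₀.std m).B w ((v + v' : X) : SV K V₀ m) -
          (a v + (S₀.std m).B w v + (a v' + (S₀.std m).B w v') + (S₀.std m).B v' v) =
          a (v + v') - (a v + a v' + (S₀.std m).B v' v) := by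
        rw [Submodule.coe_add, (S₀.std m).B_add_right]
        ring
      rw [h4]
      exact h3)
  -- the fixed element with the parameter `- B(w, u)`
  have hl := (L1 π e x hx).neg_mem hu
  have h1 : (S₀.std m).T x 0 (-(a u + (S₀.std m).B w u)) * (S₀.std m).T x u (a u) =
      (S₀.std m).T x u (-(S₀.std m).B w u) := by
    rw [Sq.T_mul (adm0 hx hl.1) (ha u), zero_add, (S₀.std m).B_zero_right]
    congr 1
    ring
  have h2 : (S₀.std m).Adm x u (-(S₀.std m).B w u) := by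
    have := (adm0 hx hl.1).add (ha u)
    rw [zero_add, (S₀.std m).B_zero_right] at this
    convert this using 1
    ring
  have h3 : Mp π e ((S₀.std m).T x u (-(S₀.std m).B w u))
      ((S₀.std m).T x u (-(S₀.std m).B w u)) := by
    have := mp_mul hl.2 (ha' u)
    rwa [h1] at this
  have h4 : (S₀.std m).T x u (-(S₀.std m).B w u) * (S₀.std m).T x w 0 =
      (S₀.std m).T x (u + w) 0 := by
    rw [Sq.T_mul h2 hxw]
    congr 1
    ring
  have h5 : (S₀.std m).Adm x (u + w) 0 := by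
    have := h2.add hxw
    convert this using 1
    ring
  have hunot : (u : SV K V₀ m) ∉ Submodule.span K {x, w, y, z} := by
    intro h
    apply hu0
    have := (Submodule.disjoint_def.1 hXY) u u.2 h
    exact Subtype.ext this
  have hτ : (x, (u : SV K V₀ m) + w) ∈ (S₀.std m).TPs := by
    refine ⟨hx, ?_, h5.orth, ?_⟩
    · have := F.Λ.neg_mem h5.par
      rw [zero_sub, neg_neg] at this
      exact this
    · rw [LinearIndependent.pair_iff' hx0]
      intro c hc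
      apply hunot
      have h6 : (u : SV K V₀ m) = c • x - w := eq_sub_of_add_eq hc.symm
      rw [h6]
      refine Submodule.sub_mem _ (Submodule.smul_mem _ _ (Submodule.subset_span ?_))
        (Submodule.subset_span ?_)
      · simp
      · simp
  obtain ⟨τ', hτ', hm'⟩ := hcl _ hτ
  simp only at hm'
  have h6 := mp_mul h3 hg
  rw [h4] at h6
  obtain ⟨c, hc⟩ := mp_unique hπ h6 hm'
  obtain ⟨z', hz', hz2⟩ := hR K F V₀ S₀ m hm4 hCls.nd x u y z _ h2 hx0 hyz
    (fun h => hunot (Submodule.span_mono (by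
      intro v hv
      simp only [Set.mem_insert_iff, Set.mem_singleton_iff] at hv ⊢
      tauto) h)) ⟨c, τ', hτ', fun v => by
      have := hc v
      rw [LinearEquiv.mul_apply] at this
      exact this⟩
  rw [hz2] at hg
  exact ⟨z', 0, ⟨hx, hz'.2.2.1, by
    rw [zero_sub]
    exact F.Λ.neg_mem hz'.2.1⟩, hg⟩

end Pool.Agent.Lib.MP66ef6b.CL
end

section
set_option autoImplicit false

/-!
# MP_66ef6b_al, THEOREM L2: OREB, singular vectors are moved into `E` by the generators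
-/

namespace Pool.Agent.Lib.MP66ef6b.CL

open Matrix

namespace OREBM

section sl

variable {K : Type} [Field K] {m : ℕ}

theorem det_tv (u w : Fin m → K) (h : w ⬝ᵥ u = 0) : (1 + vecMulVec u w).det = 1 := by
  have h1 := Matrix.det_one_add_replicateCol_mul_replicateRow (ι := Unit) u w
  rw [← Matrix.vecMulVec_eq] at h1
  rw [h1, h, add_zero]

/-- the transvection `x ↦ x + (w · x) u`. -/
def tg (u w : Fin m → K) (h : w ⬝ᵥ u = 0) : PL.SLn m K := ⟨1 + vecMulVec u w, det_tv u w h⟩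

theorem tg_mulVec (u w x : Fin m → K) (h : w ⬝ᵥ u = 0) :
    (tg u w h).1 *ᵥ x = x + (w ⬝ᵥ x) • u := by
  change (1 + vecMulVec u w) *ᵥ x = _
  rw [add_mulVec, one_mulVec, vecMulVec_mulVec]
  congr 1
  ext i
  simp [mul_comm]

theorem trans2 (i0 : Fin m) (b : Fin m → K) (h : b i0 = 1) :
    ∃ g : PL.SLn m K, g.1 *ᵥ b = Pi.single i0 1 := by
  refine ⟨tg (Pi.single i0 1 - b) (Pi.single i0 1) ?_, ?_⟩
  · rw [single_dotProduct]
    simp [h]
  · rw [tg_mulVec, single_dotProduct, h]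
    simp

theorem trans1 (i0 i : Fin m) (hi : i ≠ i0) (b : Fin m → K) (h : b i ≠ 0) :
    ∃ g : PL.SLn m K, (g.1 *ᵥ b) i0 = 1 := by
  refine ⟨tg (Pi.single i0 ((1 - b i0) / b i)) (Pi.single i 1) ?_, ?_⟩
  · rw [single_dotProduct, Pi.single_eq_of_ne hi, mul_zero]
  · rw [tg_mulVec, single_dotProduct]
    simp only [Pi.add_apply, Pi.smul_apply, Pi.single_eq_same, smul_eq_mul, one_mul]
    field_simp
    ring

theorem mv_mul (g h : PL.SLn m K) (b : Fin m → K) : (g * h).1 *ᵥ b = g.1 *ᵥ (h.1 *ᵥ b) := by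
  rw [mulVec_mulVec]
  rfl

theorem trans (i0 i1 : Fin m) (h01 : i1 ≠ i0) (b : Fin m → K) (hb : b ≠ 0) :
    ∃ g : PL.SLn m K, g.1 *ᵥ b = Pi.single i0 1 := by
  have key : ∀ c : Fin m → K, (∃ i, i ≠ i0 ∧ c i ≠ 0) →
      ∃ g : PL.SLn m K, g.1 *ᵥ c = Pi.single i0 1 := by
    rintro c ⟨i, hi, hc⟩
    obtain ⟨g1, h1⟩ := trans1 i0 i hi c hc
    obtain ⟨g2, h2⟩ := trans2 i0 _ h1
    exact ⟨g2 * g1, by rw [mv_mul, h2]⟩
  by_cases hex : ∃ i, i ≠ i0 ∧ b i ≠ 0
  · exact key b hex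
  · push Not at hex
    have hb0 : b i0 ≠ 0 := by
      intro h
      apply hb
      ext i
      by_cases hi : i = i0
      · rw [hi, h]
        rfl
      · exact hex i hi
    have hw : (Pi.single i0 (1 : K) : Fin m → K) ⬝ᵥ (Pi.single i1 1) = 0 := by
      rw [single_dotProduct, Pi.single_eq_of_ne h01.symm, mul_zero]
    obtain ⟨g, hg⟩ := key ((tg (Pi.single i1 1) (Pi.single i0 1) hw).1 *ᵥ b) ⟨i1, h01, by
      rw [tg_mulVec, single_dotProduct]
      simp only [Pi.add_apply, Pi.smul_apply, Pi.single_eq_same, smul_eq_mul, one_mul, mul_one]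
      rw [hex i1 h01, zero_add]
      exact hb0⟩
    exact ⟨g * tg (Pi.single i1 1) (Pi.single i0 1) hw, by rw [mv_mul, hg]⟩

theorem det_map (F : FD K) (M : Matrix (Fin m) (Fin m) K) : (M.map F.σ).det = F.σ M.det := by
  rw [← RingHom.mapMatrix_apply, ← RingHom.map_det]

theorem transC (F : FD K) (i0 i1 : Fin m) (h01 : i1 ≠ i0) (b : Fin m → K) (hb : b ≠ 0) :
    ∃ g : PL.SLn m K, ((g⁻¹ : PL.SLn m K).1.map F.σ)ᵀ *ᵥ b = Pi.single i0 1 := by
  obtain ⟨h, hh⟩ := trans i0 i1 h01 b hb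
  let k : PL.SLn m K := ⟨(h.1ᵀ).map F.σ, by
    rw [det_map, det_transpose, h.2, map_one]⟩
  refine ⟨k⁻¹, ?_⟩
  rw [inv_inv]
  have h1 : (k.1.map F.σ)ᵀ = h.1 := by
    ext i j
    simp only [k, transpose_apply, map_apply, F.inv]
  rw [h1, hh]

end sl

section sp

variable {K : Type} [Field K] {F : FD K} {V₀ : Type} [AddCommGroup V₀] [Module K V₀]
  {S₀ : Sq F V₀} {m : ℕ}

theorem sg_e (i : Fin m) : (S₀.std m).Sg (eV K V₀ i) := by
  rw [Sq.Sg, std_q]
  simp only [eV, Pi.zero_apply, map_zero, S₀.q_zero, add_zero]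
  have : (Pi.single i 1 : Fin m → K) ⬝ᵥ (fun _ => (0 : K)) = 0 := dotProduct_zero _
  rw [this]
  exact F.Λ.zero_mem

theorem sg_f (i : Fin m) : (S₀.std m).Sg (fV K V₀ i) := by
  rw [Sq.Sg, std_q]
  simp only [fV, zero_dotProduct, S₀.q_zero, add_zero]
  exact F.Λ.zero_mem

theorem B_e (v : SV K V₀ m) (i : Fin m) : (S₀.std m).B v (eV K V₀ i) = F.ε * v.2.1 i := by
  rw [std_B]
  simp only [eV, Pi.zero_apply, map_zero, S₀.B_zero_right, add_zero]
  have h0 : v.1 ⬝ᵥ (fun _ => (0 : K)) = 0 := dotProduct_zero _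
  have h1 : (fun j => F.σ ((Pi.single i 1 : Fin m → K) j)) = Pi.single i 1 := by
    ext j
    by_cases hj : j = i
    · subst hj
      simp
    · simp [Pi.single_eq_of_ne hj]
  rw [h0, h1, dotProduct_single, mul_one, zero_add]

theorem B_f (v : SV K V₀ m) (i : Fin m) : (S₀.std m).B v (fV K V₀ i) = v.1 i := by
  rw [std_B]
  simp only [fV, Pi.zero_apply, map_zero, S₀.B_zero_right, add_zero]
  have h0 : v.2.1 ⬝ᵥ (fun _ => (0 : K)) = 0 := dotProduct_zero _
  have h1 : (fun j => F.σ ((Pi.single i 1 : Fin m → K) j)) = Pi.single i 1 := by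
    ext j
    by_cases hj : j = i
    · subst hj
      simp
    · simp [Pi.single_eq_of_ne hj]
  rw [h0, h1, dotProduct_single, mul_one, mul_zero, add_zero]

theorem B_v (v : SV K V₀ m) (w : V₀) : (S₀.std m).B v (0, 0, w) = S₀.B v.2.2 w := by
  rw [std_B]
  simp only [Pi.zero_apply, map_zero]
  have h0 : v.2.1 ⬝ᵥ (fun _ => (0 : K)) = 0 := dotProduct_zero _
  have h2 : v.1 ⬝ᵥ (fun _ => (0 : K)) = 0 := dotProduct_zero _
  rw [h0, h2, mul_zero, zero_add, zero_add]

theorem adm_e (i : Fin m) (w : V₀) : (S₀.std m).Adm (eV K V₀ i) (0, 0, w) (S₀.q w) := by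
  refine ⟨sg_e i, ?_, ?_⟩
  · rw [B_v]
    simp only [eV, S₀.B_zero_left]
  · rw [std_q]
    simp only [zero_dotProduct, zero_add, sub_self]
    exact F.Λ.zero_mem

theorem adm_f (i : Fin m) (w : V₀) : (S₀.std m).Adm (fV K V₀ i) (0, 0, w) (S₀.q w) := by
  refine ⟨sg_f i, ?_, ?_⟩
  · rw [B_v]
    simp only [fV, S₀.B_zero_left]
  · rw [std_q]
    simp only [zero_dotProduct, zero_add, sub_self]
    exact F.Λ.zero_mem

theorem q_lam (g : PL.SLn m K) (x : SV K V₀ m) :
    (S₀.std m).q (lam F V₀ m g x) = (S₀.std m).q x := by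
  rw [std_q, std_q, lam_apply]
  simp only
  congr 1
  have h1 : (fun i => F.σ ((((g⁻¹ : PL.SLn m K).1.map F.σ)ᵀ *ᵥ x.2.1) i)) =
      (g⁻¹ : PL.SLn m K).1ᵀ *ᵥ (fun i => F.σ (x.2.1 i)) := by
    ext i
    simp only [mulVec, dotProduct, map_sum, map_mul, transpose_apply, map_apply, F.inv]
  rw [h1, mulVec_transpose, dotProduct_comm, ← dotProduct_mulVec, mulVec_mulVec]
  have h2 : (g⁻¹ : PL.SLn m K).1 * g.1 = 1 := by
    have := congrArg (fun k : PL.SLn m K => k.1) (inv_mul_cancel g)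
    exact this
  rw [h2, one_mulVec, dotProduct_comm]

/-- the matrix with the entries `y` at `(i, j)` and `- ε σ(y)` at `(j, i)`. -/
def elm (F : FD K) (i j : Fin m) (y : K) : Matrix (Fin m) (Fin m) K :=
  Matrix.single i j y - Matrix.single j i (F.ε * F.σ y)

theorem elm_apply (i j k l : Fin m) (y : K) : elm F i j y k l =
    (if i = k ∧ j = l then y else 0) - (if j = k ∧ i = l then F.ε * F.σ y else 0) := by
  rw [elm, Matrix.sub_apply, Matrix.single_apply, Matrix.single_apply]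

theorem elm_DM (i j : Fin m) (hij : i ≠ j) (y : K) : DM F (elm F i j y) := by
  have h0 : F.ε * F.σ (F.ε * F.σ y) = y := by
    rw [map_mul, F.se, F.inv, ← mul_assoc, F.ee, one_mul]
  constructor
  · intro k l
    rw [elm_apply, elm_apply, map_sub]
    by_cases h1 : i = k ∧ j = l
    · obtain ⟨rfl, rfl⟩ := h1
      simp only [hij, hij.symm, and_self, if_true, if_false, false_and, sub_zero, map_zero,
        zero_sub, h0, mul_neg, neg_neg]
    · by_cases h2 : j = k ∧ i = l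
      · obtain ⟨rfl, rfl⟩ := h2
        simp only [hij, hij.symm, and_self, if_true, if_false, false_and, sub_zero, map_zero,
          zero_sub]
      · have h3 : ¬ (i = l ∧ j = k) := fun h => h2 ⟨h.2, h.1⟩
        have h4 : ¬ (j = l ∧ i = k) := fun h => h1 ⟨h.2, h.1⟩
        simp only [h1, h2, h3, h4, if_false, map_zero, sub_zero, mul_zero, neg_zero]
  · intro k
    rw [elm_apply]
    have h1 : ¬ (i = k ∧ j = k) := fun h => hij (h.1.trans h.2.symm)
    have h2 : ¬ (j = k ∧ i = k) := fun h => hij (h.2.trans h.1.symm)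
    simp only [h1, h2, if_false, sub_zero]
    exact F.Λ.zero_mem

theorem elm_mulVec (i j : Fin m) (hij : i ≠ j) (y : K) :
    elm F i j y *ᵥ (Pi.single j 1) = Pi.single i y := by
  ext k
  rw [mulVec_single_one, col_apply, elm_apply]
  by_cases hk : i = k
  · subst hk
    simp [hij.symm]
  · have hk' : k ≠ i := fun h => hk h.symm
    simp [hk, hij, Pi.single_eq_of_ne hk']

/-- `x` can be moved into `E`. -/
def Good (S₀ : Sq F V₀) (x : SV K V₀ m) : Prop :=
  ∃ g ∈ Subgroup.closure (GS S₀ m), ∃ a : Fin m → K, a ≠ 0 ∧ g x = (a, 0, 0)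

theorem good_of {g : SV K V₀ m ≃ₗ[K] SV K V₀ m} (hg : g ∈ GS S₀ m) {x : SV K V₀ m}
    (h : Good S₀ (g x)) : Good S₀ x := by
  obtain ⟨k, hk, a, ha, e⟩ := h
  exact ⟨k * g, mul_mem hk (Subgroup.subset_closure hg), a, ha, by
    rw [LinearEquiv.mul_apply, e]⟩

theorem lam_mem (g : PL.SLn m K) : lam F V₀ m g ∈ GS S₀ m :=
  Or.inl (Or.inl (Or.inl (Or.inl ⟨g, rfl⟩)))

theorem zE_mem {D : Matrix (Fin m) (Fin m) K} (h : DM F D) : zE V₀ D ∈ GS S₀ m :=
  Or.inl (Or.inl (Or.inl (Or.inr ⟨D, h, rfl⟩)))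

theorem zF_mem {D : Matrix (Fin m) (Fin m) K} (h : DM F D) : zF V₀ D ∈ GS S₀ m :=
  Or.inl (Or.inl (Or.inr ⟨D, h, rfl⟩))

theorem Te_mem (i : Fin m) (w : V₀) :
    (S₀.std m).T (eV K V₀ i) (0, 0, w) (S₀.q w) ∈ GS S₀ m :=
  Or.inl (Or.inr ⟨Pi.single i 1, w, S₀.q w, adm_e i w, rfl⟩)

theorem Tf_mem (i : Fin m) (w : V₀) :
    (S₀.std m).T (fV K V₀ i) (0, 0, w) (S₀.q w) ∈ GS S₀ m :=
  Or.inr ⟨Pi.single i 1, w, S₀.q w, adm_f i w, rfl⟩

theorem sg_T {x w : SV K V₀ m} {a : K} (h : (S₀.std m).Adm x w a) {y : SV K V₀ m}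
    (hy : (S₀.std m).Sg y) : (S₀.std m).Sg ((S₀.std m).T x w a y) := by
  have := F.Λ.add_mem ((Sq.T_mem_Iso h).2 y) hy
  rwa [sub_add_cancel] at this

/-- Step 1. -/
theorem step1 (i0 i1 : Fin m) (h01 : i1 ≠ i0) (x : SV K V₀ m) (hx : (S₀.std m).Sg x)
    (h : x.2.1 ≠ 0) : Good S₀ x := by
  obtain ⟨g, hg⟩ := transC F i0 i1 h01 x.2.1 h
  apply good_of (lam_mem g)
  have hx1 : (S₀.std m).Sg (lam F V₀ m g x) := by
    rw [Sq.Sg, q_lam]
    exact hx
  obtain ⟨a, ha⟩ : ∃ a : Fin m → K, lam F V₀ m g x = (a, Pi.single i0 1, x.2.2) :=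
    ⟨g.1 *ᵥ x.1, by rw [lam_apply, hg]⟩
  rw [ha] at hx1 ⊢
  apply good_of (Te_mem i0 (-(F.ε • x.2.2)))
  have hx2 := sg_T (adm_e (S₀ := S₀) i0 (-(F.ε • x.2.2))) hx1
  obtain ⟨b, hb⟩ : ∃ b : Fin m → K, (S₀.std m).T (eV K V₀ i0) (0, 0, -(F.ε • x.2.2))
      (S₀.q (-(F.ε • x.2.2))) (a, Pi.single i0 1, x.2.2) = (b, Pi.single i0 1, 0) := by
    rw [Sq.T_apply (adm_e i0 _), B_e]
    simp only [Pi.single_eq_same, mul_one]
    refine ⟨_, Prod.ext rfl (Prod.ext ?_ ?_)⟩
    · simp [eV]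
    · simp only [eV, Prod.snd_sub, Prod.snd_add, Prod.smul_snd, smul_zero, sub_zero, smul_neg,
        smul_smul, F.ee, one_smul]
      exact add_neg_cancel _
  rw [hb] at hx2 ⊢
  have hb0 : b i0 ∈ F.Λ := by
    rw [Sq.Sg, std_q] at hx2
    simp only [S₀.q_zero, add_zero] at hx2
    have h1 : (fun j => F.σ ((Pi.single i0 1 : Fin m → K) j)) = Pi.single i0 1 := by
      ext j
      by_cases hj : j = i0
      · subst hj
        simp
      · simp [Pi.single_eq_of_ne hj]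
    rwa [h1, dotProduct_single, mul_one] at hx2
  -- kill `b`
  let D : Matrix (Fin m) (Fin m) K := fun i j =>
    if j = i0 then -b i else if i = i0 then F.ε * F.σ (b j) else 0
  have hD : DM F D := by
    constructor
    · intro i j
      simp only [D]
      by_cases hj : j = i0
      · subst hj
        by_cases hi : i = j
        · subst hi
          simp only [if_true, map_neg, mul_neg, neg_neg, F.skew hb0]
        · simp only [hi, if_true, if_false]
          rw [map_mul, F.se, F.inv, ← mul_assoc, F.ee, one_mul]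
      · by_cases hi : i = i0
        · subst hi
          simp only [hj, if_true, if_false, map_neg, mul_neg, neg_neg]
        · simp only [hi, hj, if_false, map_zero, mul_zero, neg_zero]
    · intro i
      simp only [D]
      by_cases hi : i = i0
      · subst hi
        simp only [if_true]
        exact F.Λ.neg_mem hb0
      · simp only [hi, if_false]
        exact F.Λ.zero_mem
  apply good_of (zE_mem hD)
  have hc : zE V₀ D (b, Pi.single i0 1, 0) = (0, Pi.single i0 1, 0) := by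
    rw [zE_apply]
    refine Prod.ext ?_ rfl
    ext i
    simp only [mulVec_single_one, Pi.add_apply, col_apply, D, if_true]
    simp
  rw [hc]
  apply good_of (zE_mem (elm_DM i1 i0 h01 1))
  have hc2 : zE V₀ (elm F i1 i0 1) (0, Pi.single i0 1, 0) =
      (Pi.single i1 1, Pi.single i0 1, 0) := by
    rw [zE_apply]
    simp only [elm_mulVec i1 i0 h01, zero_add]
  rw [hc2]
  apply good_of (zF_mem (elm_DM i0 i1 h01.symm (-1)))
  have hc3 : zF V₀ (elm F i0 i1 (-1)) (Pi.single i1 1, Pi.single i0 1, 0) =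
      (Pi.single i1 1, 0, 0) := by
    rw [zF_apply]
    simp only [elm_mulVec i0 i1 h01.symm, Pi.single_neg, add_neg_cancel]
  rw [hc3]
  refine ⟨1, one_mem _, Pi.single i1 1, ?_, rfl⟩
  intro h
  have := congrFun h i1
  simp at this

/-- Step 2. -/
theorem step2 (i0 i1 : Fin m) (h01 : i1 ≠ i0) (x : SV K V₀ m) (hx : (S₀.std m).Sg x)
    (h : x.1 ≠ 0) (h' : x.2.1 = 0) : Good S₀ x := by
  obtain ⟨g, hg⟩ := trans i0 i1 h01 x.1 h
  apply good_of (lam_mem g)
  have hx1 : (S₀.std m).Sg (lam F V₀ m g x) := by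
    rw [Sq.Sg, q_lam]
    exact hx
  have ha : lam F V₀ m g x = (Pi.single i0 1, 0, x.2.2) := by
    rw [lam_apply, hg, h', mulVec_zero]
  rw [ha] at hx1 ⊢
  apply good_of (Tf_mem i0 (-x.2.2))
  have hx2 := sg_T (adm_f (S₀ := S₀) i0 (-x.2.2)) hx1
  obtain ⟨b, hb⟩ : ∃ b : Fin m → K, (S₀.std m).T (fV K V₀ i0) (0, 0, -x.2.2)
      (S₀.q (-x.2.2)) (Pi.single i0 1, 0, x.2.2) = (Pi.single i0 1, b, 0) := by
    rw [Sq.T_apply (adm_f i0 _), B_f]
    simp only [Pi.single_eq_same, mul_one, one_smul]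
    refine ⟨_, Prod.ext ?_ (Prod.ext rfl ?_)⟩
    · simp [fV]
    · simp [fV]
  rw [hb] at hx2 ⊢
  by_cases hb0 : b = 0
  · subst hb0
    refine ⟨1, one_mem _, Pi.single i0 1, ?_, rfl⟩
    intro h
    have := congrFun h i0
    simp at this
  · exact step1 i0 i1 h01 _ hx2 hb0

/-- Step 3. -/
theorem step3 (i0 i1 : Fin m) (h01 : i1 ≠ i0) (hN : S₀.Nd) (x : SV K V₀ m)
    (hx : (S₀.std m).Sg x) (h1 : x.1 = 0) (h2 : x.2.1 = 0) (h3 : x.2.2 ≠ 0) : Good S₀ x := by
  obtain ⟨w, hw⟩ : ∃ w, S₀.B x.2.2 w ≠ 0 := by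
    by_contra hc
    push Not at hc
    exact h3 (hN _ hc)
  apply good_of (Te_mem i0 w)
  have hx2 := sg_T (adm_e (S₀ := S₀) i0 w) hx
  refine step2 i0 i1 h01 _ hx2 ?_ ?_
  · rw [Sq.T_apply (adm_e i0 _), B_e, h2, B_v]
    intro h
    have := congrFun h i0
    simp [eV, h1, F.e0, hw] at this
  · rw [Sq.T_apply (adm_e i0 _), B_e, h2, B_v]
    simp [eV, h2]

end sp

end OREBM

open OREBM in
theorem specOREB : SpecOREB := by
  intro K _ F V₀ _ _ S₀ m hm hN x hx hx0
  have h01 : (⟨1, by omega⟩ : Fin m) ≠ ⟨0, by omega⟩ := by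
    intro h
    simp at h
  by_cases h2 : x.2.1 = 0
  · by_cases h1 : x.1 = 0
    · have h3 : x.2.2 ≠ 0 := by
        intro h3
        exact hx0 (Prod.ext h1 (Prod.ext h2 h3))
      exact step3 _ _ h01 hN x hx h1 h2 h3
    · exact step2 _ _ h01 x hx h1 h2
  · exact step1 _ _ h01 x hx h2

end Pool.Agent.Lib.MP66ef6b.CL
end

section
set_option autoImplicit false

/-!
# MP_66ef6b_al, THEOREM L2, module PKU (helper18; copy of the modules AVG and PICK of helper10)
-/

namespace Pool.Agent.Lib.MP66ef6b.CL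

universe u

namespace PKUM

open Finset

/-- the fixed points -/
def fxu {Γ : Type u} (Ω : Type u) [Group Γ] [MulAction Γ Ω] (g : Γ) : Set Ω := {ω | g • ω = ω}

theorem ncard_fxu {Γ Ω : Type u} [Group Γ] [MulAction Γ Ω] [Fintype Ω] [DecidableEq Ω] (g : Γ) :
    (fxu Ω g).ncard = (univ.filter fun ω : Ω => g • ω = ω).card := by
  rw [← Set.ncard_coe_finset]
  congr 1
  ext ω
  simp [fxu]

theorem avg (Γ Ω : Type u) [Group Γ] [MulAction Γ Ω] [Finite Ω] (T : Subgroup Γ)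
    [Fintype T] (f : Γ) : Fintype.card T * (fxu Ω f).ncard ^ 2 ≤
      Nat.card Ω * ∑ t : T, (fxu Ω (f * t * f⁻¹ * (t : Γ)⁻¹)).ncard := by
  classical
  haveI : Fintype Ω := Fintype.ofFinite Ω
  simp only [ncard_fxu]
  rw [Nat.card_eq_fintype_card]
  set A : Finset Ω := univ.filter fun ω : Ω => f • ω = ω with hA
  set N : Ω → ℕ := fun ω => (univ.filter fun t : T => (t : Γ) • ω ∈ A).card with hN
  have hNsum : ∀ ω, N ω = ∑ t : T, if (t : Γ) • ω ∈ A then 1 else 0 := by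
    intro ω
    exact Finset.card_filter _ _
  have hinv : ∀ (s : T) (ω : Ω), N ((s : Γ) • ω) = N ω := by
    intro s ω
    rw [hNsum, hNsum]
    refine Fintype.sum_equiv (Equiv.mulRight s) _ _ fun t => ?_
    simp [mul_smul]
  have hshift : ∀ (t : T) (F : Ω → ℕ), ∑ ω, F ((t : Γ) • ω) = ∑ ω, F ω := by
    intro t F
    exact Fintype.sum_equiv (MulAction.toPerm (t : Γ)) _ _ fun ω => rfl
  -- step 2
  have h2 : ∑ ω, N ω = Fintype.card T * A.card := by
    simp only [hNsum]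
    rw [Finset.sum_comm]
    have : ∀ t : T, (∑ ω : Ω, if (t : Γ) • ω ∈ A then 1 else 0) = A.card := by
      intro t
      rw [hshift t fun ω => if ω ∈ A then 1 else 0]
      simp
    rw [Finset.sum_congr rfl fun t _ => this t]
    simp
  -- step 3
  have h3 : ∑ ω, N ω ^ 2 = Fintype.card T * ∑ ω ∈ A, N ω := by
    have e1 : ∀ ω, N ω ^ 2 = ∑ t : T, if (t : Γ) • ω ∈ A then N ((t : Γ) • ω) else 0 := by
      intro ω
      rw [sq]
      conv_lhs => rw [hNsum ω]
      rw [Finset.sum_mul]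
      rw [← hNsum ω]
      refine Finset.sum_congr rfl fun t _ => ?_
      rw [hinv t ω]
      split_ifs <;> simp
    rw [Finset.sum_congr rfl fun ω _ => e1 ω, Finset.sum_comm]
    have e2 : ∀ t : T, (∑ ω : Ω, if (t : Γ) • ω ∈ A then N ((t : Γ) • ω) else 0) =
        ∑ ω ∈ A, N ω := by
      intro t
      rw [hshift t fun ω => if ω ∈ A then N ω else 0]
      simp [Finset.sum_ite_mem]
    rw [Finset.sum_congr rfl fun t _ => e2 t]
    simp
  -- step 1
  have h1 : ∑ ω ∈ A, N ω ≤ ∑ t : T, (univ.filter fun ω : Ω =>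
      (f * (t : Γ) * f⁻¹ * (t : Γ)⁻¹) • ω = ω).card := by
    have e1 : ∑ ω ∈ A, N ω = ∑ t : T, (A.filter fun ω => (t : Γ)⁻¹ • ω ∈ A).card := by
      simp only [hNsum, Finset.card_filter]
      rw [Finset.sum_comm]
      refine Fintype.sum_equiv (Equiv.inv T) _ _ fun t => ?_
      simp
    rw [e1]
    refine Finset.sum_le_sum fun t _ => Finset.card_le_card ?_
    intro ω hω
    simp only [hA, Finset.mem_filter, Finset.mem_univ, true_and] at hω ⊢
    obtain ⟨a, b⟩ := hω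
    have b' : f⁻¹ • ((t : Γ)⁻¹ • ω) = (t : Γ)⁻¹ • ω := by
      rw [inv_smul_eq_iff, b]
    rw [mul_smul, mul_smul, mul_smul, b', smul_inv_smul, a]
  have hcs : (∑ ω, N ω) ^ 2 ≤ Fintype.card Ω * ∑ ω, N ω ^ 2 := by
    have := sq_sum_le_card_mul_sum_sq (s := (univ : Finset Ω)) (f := fun ω => (N ω : ℤ))
    have h' : ((∑ ω, N ω : ℕ) : ℤ) ^ 2 ≤ ((Fintype.card Ω * ∑ ω, N ω ^ 2 : ℕ) : ℤ) := by
      push_cast
      simpa using this
    exact_mod_cast h'
  rw [h2, h3] at hcs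
  have hpos : 0 < Fintype.card T := Fintype.card_pos
  have : Fintype.card T * (Fintype.card T * A.card ^ 2) ≤
      Fintype.card T * (Fintype.card Ω * ∑ ω ∈ A, N ω) := by
    calc Fintype.card T * (Fintype.card T * A.card ^ 2) = (Fintype.card T * A.card) ^ 2 := by ring
      _ ≤ Fintype.card Ω * (Fintype.card T * ∑ ω ∈ A, N ω) := hcs
      _ = Fintype.card T * (Fintype.card Ω * ∑ ω ∈ A, N ω) := by ring
  have h4 := Nat.le_of_mul_le_mul_left this hpos
  exact h4.trans (Nat.mul_le_mul_left _ h1)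

end PKUM

open Finset PKUM in
theorem specPKU : SpecPKU.{u} := by
  intro Γ Ω _ _ _ _ T _ f δ hδ hδ1 hf
  classical
  haveI : Fintype Ω := Fintype.ofFinite Ω
  haveI : Fintype T := Fintype.ofFinite T
  change δ * Nat.card Ω ≤ (fxu Ω f).ncard at hf
  change δ ^ 2 / 2 * Nat.card T ≤
    {t | t ∈ T ∧ δ ^ 2 / 2 * Nat.card Ω ≤ (fxu Ω (f * t * f⁻¹ * t⁻¹)).ncard}.ncard
  set n : ℝ := (Nat.card Ω : ℝ) with hn
  have hnpos : 0 < n := by
    rw [hn]; exact_mod_cast Nat.card_pos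
  have hT : (Nat.card T : ℝ) = (Fintype.card T : ℝ) := by rw [Nat.card_eq_fintype_card]
  set τ : ℝ := (Fintype.card T : ℝ) with hτ
  have hτpos : 0 < τ := by rw [hτ]; exact_mod_cast Fintype.card_pos
  set F : T → ℕ := fun t => (fxu Ω (f * (t : Γ) * f⁻¹ * (t : Γ)⁻¹)).ncard with hF
  have hFle : ∀ t, (F t : ℝ) ≤ n := by
    intro t
    rw [hn]
    exact_mod_cast (Set.ncard_le_card _)
  have havg := avg Γ Ω T f
  have havg' : τ * ((fxu Ω f).ncard : ℝ) ^ 2 ≤ n * ∑ t : T, (F t : ℝ) := by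
    rw [hτ, hn]; exact_mod_cast havg
  have hsum : δ ^ 2 * τ * n ≤ ∑ t : T, (F t : ℝ) := by
    have h1 : (δ * n) ^ 2 ≤ ((fxu Ω f).ncard : ℝ) ^ 2 :=
      pow_le_pow_left₀ (by positivity) hf 2
    have h2 : n * (δ ^ 2 * τ * n) ≤ n * ∑ t : T, (F t : ℝ) := by
      refine le_trans ?_ havg'
      calc n * (δ ^ 2 * τ * n) = τ * (δ * n) ^ 2 := by ring
        _ ≤ _ := mul_le_mul_of_nonneg_left h1 hτpos.le
    exact le_of_mul_le_mul_left h2 hnpos
  rw [hT]
  set G : Set Γ := {t | t ∈ T ∧ δ ^ 2 / 2 * n ≤ ((fxu Ω (f * t * f⁻¹ * t⁻¹)).ncard : ℝ)} with hG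
  set G' : Finset T := univ.filter fun t => δ ^ 2 / 2 * n ≤ (F t : ℝ) with hG'
  have hGG : G.ncard = G'.card := by
    have : G = (fun t : T => (t : Γ)) '' (G' : Set T) := by
      ext x
      simp only [hG, hG', Set.mem_setOf_eq, Set.mem_image, Finset.coe_filter, mem_univ, true_and,
        hF]
      constructor
      · rintro ⟨a, b⟩
        exact ⟨⟨x, a⟩, b, rfl⟩
      · rintro ⟨y, hy, rfl⟩
        exact ⟨y.2, hy⟩
    rw [this, Set.ncard_image_of_injective _ Subtype.val_injective, Set.ncard_coe_finset]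
  rw [hGG]
  have hup : ∑ t : T, (F t : ℝ) ≤ ∑ t : T, ((if t ∈ G' then n else 0) + δ ^ 2 / 2 * n) := by
    refine Finset.sum_le_sum fun t _ => ?_
    by_cases ht : t ∈ G'
    · rw [if_pos ht]
      have := hFle t
      have : 0 ≤ δ ^ 2 / 2 * n := by positivity
      linarith [hFle t]
    · rw [if_neg ht]
      have : ¬ (δ ^ 2 / 2 * n ≤ (F t : ℝ)) := by
        intro h
        exact ht (by simp [hG', h])
      push Not at this
      linarith
  rw [Finset.sum_add_distrib, Finset.sum_const, nsmul_eq_mul, Finset.sum_ite_mem,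
    Finset.sum_const, nsmul_eq_mul, Finset.card_univ] at hup
  have hi : (univ ∩ G').card = G'.card := by simp
  rw [hi] at hup
  have h7 : (δ ^ 2 / 2 * τ) * n ≤ (G'.card : ℝ) * n := by
    have : (Fintype.card T : ℝ) = τ := rfl
    rw [this] at hup
    nlinarith
  exact le_of_mul_le_mul_right h7 hnpos

end Pool.Agent.Lib.MP66ef6b.CL
end

section
set_option autoImplicit false

/-!
# MP_66ef6b_al, CL, module SZE: from `SL_m(K)` to the group of the `z_D`
-/

namespace Pool.Agent.Lib.MP66ef6b.CL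

open PL (SLn fx)
open Matrix

namespace SZEM

variable {K : Type} [Field K] {F : FD K} {V₀ : Type} [AddCommGroup V₀] [Module K V₀] {m : ℕ}

theorem zE_mul (D D' : Matrix (Fin m) (Fin m) K) : zE V₀ D * zE V₀ D' = zE V₀ (D + D') := by
  refine LinearEquiv.ext fun v => ?_
  rw [LinearEquiv.mul_apply, zE_apply, zE_apply, zE_apply, add_mulVec]
  refine Prod.ext ?_ rfl
  show v.1 + D' *ᵥ v.2.1 + D *ᵥ v.2.1 = v.1 + (D *ᵥ v.2.1 + D' *ᵥ v.2.1)
  abel

theorem zE_zero : zE V₀ (0 : Matrix (Fin m) (Fin m) K) = 1 := by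
  refine LinearEquiv.ext fun v => ?_
  rw [zE_apply, zero_mulVec, add_zero]
  rfl

theorem zE_inv (D : Matrix (Fin m) (Fin m) K) : (zE V₀ D)⁻¹ = zE V₀ (-D) := by
  rw [inv_eq_iff_mul_eq_one, zE_mul, add_neg_cancel, zE_zero]

theorem zE_inj {D D' : Matrix (Fin m) (Fin m) K} (h : zE V₀ D = zE V₀ D') : D = D' := by
  classical
  ext i j
  have h1 : (zE V₀ D (0, Pi.single j 1, 0)).1 i = (zE V₀ D' (0, Pi.single j 1, 0)).1 i := by
    rw [h]
  rw [zE_apply, zE_apply] at h1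
  simpa [mulVec_single_one] using h1

theorem DMz : DM F (0 : Matrix (Fin m) (Fin m) K) := by
  refine ⟨fun i j => ?_, fun i => ?_⟩
  · simp
  · exact F.Λ.zero_mem

theorem DMadd {D D' : Matrix (Fin m) (Fin m) K} (h : DM F D) (h' : DM F D') : DM F (D + D') := by
  refine ⟨fun i j => ?_, fun i => F.Λ.add_mem (h.2 i) (h'.2 i)⟩
  rw [Matrix.add_apply, Matrix.add_apply, h.1 i j, h'.1 i j, map_add]
  ring

theorem DMneg {D : Matrix (Fin m) (Fin m) K} (h : DM F D) : DM F (-D) := by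
  refine ⟨fun i j => ?_, fun i => F.Λ.neg_mem (h.2 i)⟩
  rw [Matrix.neg_apply, Matrix.neg_apply, h.1 i j, map_neg]
  ring

/-- double sums over pairs -/
theorem sum_mem_of_pairs {M : Type} [AddCommGroup M] (H : AddSubgroup M)
    (f : Fin m → Fin m → M) (hd : ∀ i, f i i ∈ H) (hp : ∀ i j, i < j → f i j + f j i ∈ H) :
    ∑ i, ∑ j, f i j ∈ H := by
  classical
  have h1 : ∀ i j, f i j = (if i < j then f i j else 0) + (if j < i then f i j else 0) +
      (if i = j then f i j else 0) := by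
    intro i j
    rcases lt_trichotomy i j with h | h | h
    · rw [if_pos h, if_neg (not_lt_of_gt h), if_neg (ne_of_lt h), add_zero, add_zero]
    · subst h
      rw [if_neg (lt_irrefl _), if_pos rfl, zero_add, zero_add]
    · rw [if_neg (not_lt_of_gt h), if_pos h, if_neg (ne_of_gt h), add_zero, zero_add]
  have h2 : ∑ i, ∑ j, (if j < i then f i j else 0) = ∑ i, ∑ j, (if i < j then f j i else 0) := by
    rw [Finset.sum_comm]
  have h3 : ∑ i, ∑ j, f i j = ∑ i, ∑ j, ((if i < j then f i j + f j i else 0) +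
      (if i = j then f i j else 0)) := by
    calc ∑ i, ∑ j, f i j = ∑ i, ∑ j, ((if i < j then f i j else 0) +
          (if j < i then f i j else 0) + (if i = j then f i j else 0)) := by
          refine Finset.sum_congr rfl fun i _ => Finset.sum_congr rfl fun j _ => h1 i j
      _ = ∑ i, ∑ j, (if i < j then f i j else 0) + ∑ i, ∑ j, (if j < i then f i j else 0) +
          ∑ i, ∑ j, (if i = j then f i j else 0) := by
          simp only [Finset.sum_add_distrib]
      _ = ∑ i, ∑ j, (if i < j then f i j else 0) + ∑ i, ∑ j, (if i < j then f j i else 0) +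
          ∑ i, ∑ j, (if i = j then f i j else 0) := by rw [h2]
      _ = _ := by
          simp only [← Finset.sum_add_distrib]
          refine Finset.sum_congr rfl fun i _ => Finset.sum_congr rfl fun j _ => ?_
          by_cases h : i < j
          · simp only [if_pos h]
          · simp only [if_neg h, add_zero]
  rw [h3]
  refine H.sum_mem fun i _ => H.sum_mem fun j _ => H.add_mem ?_ ?_
  · split_ifs with h
    · exact hp i j h
    · exact H.zero_mem
  · split_ifs with h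
    · subst h
      exact hd i
    · exact H.zero_mem

theorem conj_apply (g X : Matrix (Fin m) (Fin m) K) (i j : Fin m) :
    (g * X * (g.map F.σ)ᵀ) i j = ∑ k, ∑ l, g i k * X k l * F.σ (g j l) := by
  simp only [Matrix.mul_apply, transpose_apply, map_apply, Finset.sum_mul]
  rw [Finset.sum_comm]

theorem DMconj {X : Matrix (Fin m) (Fin m) K} (h : DM F X) (g : Matrix (Fin m) (Fin m) K) :
    DM F (g * X * (g.map F.σ)ᵀ) := by
  refine ⟨fun i j => ?_, fun i => ?_⟩
  · rw [conj_apply, conj_apply, map_sum, Finset.mul_sum, ← Finset.sum_neg_distrib,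
      Finset.sum_comm]
    refine Finset.sum_congr rfl fun k _ => ?_
    rw [map_sum, Finset.mul_sum, ← Finset.sum_neg_distrib]
    refine Finset.sum_congr rfl fun l _ => ?_
    rw [h.1 l k, map_mul, map_mul, F.inv]
    ring
  · rw [conj_apply]
    refine sum_mem_of_pairs F.Λ _ (fun k => ?_) (fun k l _ => ?_)
    · have h1 := F.sc (h.2 k) (g i k)
      have h2 : g i k * X k k * F.σ (g i k) = g i k * F.σ (g i k) * X k k := by ring
      rw [h2]
      exact h1
    · have h1 := F.tr (g i k * X k l * F.σ (g i l))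
      have h2 : g i k * X k l * F.σ (g i l) + g i l * X l k * F.σ (g i k) =
          g i k * X k l * F.σ (g i l) - F.ε * F.σ (g i k * X k l * F.σ (g i l)) := by
        rw [h.1 l k, map_mul, map_mul, F.inv]
        ring
      rw [h2]
      exact h1

theorem lam_zE (g : SLn m K) (X : Matrix (Fin m) (Fin m) K) :
    lam F V₀ m g * zE V₀ X = zE V₀ (g.1 * X * (g.1.map F.σ)ᵀ) * lam F V₀ m g := by
  refine LinearEquiv.ext fun v => ?_
  rw [LinearEquiv.mul_apply, LinearEquiv.mul_apply, zE_apply, lam_apply, lam_apply, zE_apply]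
  refine Prod.ext ?_ rfl
  show g.1 *ᵥ (v.1 + X *ᵥ v.2.1) = g.1 *ᵥ v.1 + (g.1 * X * (g.1.map F.σ)ᵀ) *ᵥ
    (((g⁻¹ : SLn m K).1.map F.σ)ᵀ *ᵥ v.2.1)
  have h1 : (g.1.map F.σ)ᵀ * ((g⁻¹ : SLn m K).1.map F.σ)ᵀ = 1 := by
    rw [← transpose_mul, ← Matrix.map_mul]
    have h3 : (g⁻¹ : SLn m K).1 * g.1 = 1 := by
      have h4 := congrArg Subtype.val (inv_mul_cancel g)
      exact h4
    rw [h3, Matrix.map_one _ (map_zero _) (map_one _), transpose_one]
  rw [mulVec_add, mulVec_mulVec, mulVec_mulVec, Matrix.mul_assoc (g.1 * X), h1, Matrix.mul_one]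

theorem lam_conj (g : SLn m K) (X : Matrix (Fin m) (Fin m) K) :
    lam F V₀ m g * zE V₀ X * (lam F V₀ m g)⁻¹ = zE V₀ (g.1 * X * (g.1.map F.σ)ᵀ) := by
  rw [lam_zE, mul_inv_cancel_right]

/-- the group `N` -/
def NN (F : FD K) (V₀ : Type) [AddCommGroup V₀] [Module K V₀] (m : ℕ) :
    Subgroup (SV K V₀ m ≃ₗ[K] SV K V₀ m) where
  carrier := ZES F V₀ m
  one_mem' := ⟨0, DMz, zE_zero.symm⟩
  mul_mem' := by
    rintro _ _ ⟨D, h, rfl⟩ ⟨D', h', rfl⟩
    exact ⟨D + D', DMadd h h', zE_mul D D'⟩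
  inv_mem' := by
    rintro _ ⟨D, h, rfl⟩
    exact ⟨-D, DMneg h, zE_inv D⟩

/-- the group `Z` in the symplectic case -/
def ZZ (F : FD K) (V₀ : Type) [AddCommGroup V₀] [Module K V₀] (m : ℕ) :
    Subgroup (SV K V₀ m ≃ₗ[K] SV K V₀ m) where
  carrier := {g | ∃ D : Matrix (Fin m) (Fin m) K, DM F D ∧ (∀ i, D i i = 0) ∧ g = zE V₀ D}
  one_mem' := ⟨0, DMz, fun _ => rfl, zE_zero.symm⟩
  mul_mem' := by
    rintro _ _ ⟨D, h, h0, rfl⟩ ⟨D', h', h0', rfl⟩
    refine ⟨D + D', DMadd h h', fun i => ?_, zE_mul D D'⟩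
    rw [Matrix.add_apply, h0, h0', add_zero]
  inv_mem' := by
    rintro _ ⟨D, h, h0, rfl⟩
    refine ⟨-D, DMneg h, fun i => ?_, zE_inv D⟩
    rw [Matrix.neg_apply, h0, neg_zero]

/-- the matrices of a subgroup -/
def HH (F : FD K) {V₀ : Type} [AddCommGroup V₀] [Module K V₀] {m : ℕ}
    (H : Subgroup (SV K V₀ m ≃ₗ[K] SV K V₀ m)) : AddSubgroup (Matrix (Fin m) (Fin m) K) where
  carrier := {X | DM F X ∧ zE V₀ X ∈ H}
  zero_mem' := ⟨DMz, by rw [zE_zero]; exact H.one_mem⟩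
  add_mem' := by
    rintro X Y ⟨h1, h2⟩ ⟨h3, h4⟩
    refine ⟨DMadd h1 h3, ?_⟩
    rw [← zE_mul]
    exact H.mul_mem h2 h4
  neg_mem' := by
    rintro X ⟨h1, h2⟩
    refine ⟨DMneg h1, ?_⟩
    rw [← zE_inv]
    exact H.inv_mem h2

theorem HH_conj {H : Subgroup (SV K V₀ m ≃ₗ[K] SV K V₀ m)} (hH : lamS F V₀ m ≤ H) :
    ∀ X ∈ HH F H, ∀ g : SLn m K, g.1 * X * (g.1.map F.σ).transpose ∈ HH F H := by
  rintro X ⟨h1, h2⟩ g
  refine ⟨DMconj h1 g.1, ?_⟩
  rw [← lam_conj]
  have h3 : lam F V₀ m g ∈ H := hH ⟨g, rfl⟩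
  exact H.mul_mem (H.mul_mem h3 h2) (H.inv_mem h3)

theorem HH_diff {H : Subgroup (SV K V₀ m ≃ₗ[K] SV K V₀ m)} (hH : lamS F V₀ m ≤ H)
    {D : Matrix (Fin m) (Fin m) K} (hD : DM F D)
    (h : ∀ k ∈ lamS F V₀ m, zE V₀ D * k * (zE V₀ D)⁻¹ ∈ H) (g : SLn m K) :
    g.1 * D * (g.1.map F.σ).transpose - D ∈ HH F H := by
  refine ⟨?_, ?_⟩
  · rw [sub_eq_add_neg]
    exact DMadd (DMconj hD g.1) (DMneg hD)
  · rw [sub_eq_add_neg, ← zE_mul, ← lam_conj, ← zE_inv]
    have h3 : lam F V₀ m g ∈ H := hH ⟨g, rfl⟩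
    have h4 := h _ ((lamS F V₀ m).inv_mem ⟨g, rfl⟩)
    have h5 : lam F V₀ m g * zE V₀ D * (lam F V₀ m g)⁻¹ * (zE V₀ D)⁻¹ =
        lam F V₀ m g * (zE V₀ D * (lam F V₀ m g)⁻¹ * (zE V₀ D)⁻¹) := by
      simp only [mul_assoc]
    rw [h5]
    exact H.mul_mem h3 h4

/-- the traces of the unitary type -/
theorem trace_surj (h : ∃ a, F.σ a ≠ a) {c : K} (hc : F.σ c = c) : ∃ y, y + F.σ y = c := by
  have h1 : ∃ y, y + F.σ y ≠ 0 := by
    by_contra hcon
    push Not at hcon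
    obtain ⟨a, ha⟩ := h
    have h2 := hcon 1
    rw [map_one] at h2
    have h3 := hcon a
    apply ha
    have h4 : a + a = 0 := by
      have : a + a = a * (1 + 1) := by ring
      rw [this, h2, mul_zero]
    have h5 : a + F.σ a = a + a := by rw [h3, h4]
    exact add_left_cancel h5
  obtain ⟨y, hy⟩ := h1
  refine ⟨c / (y + F.σ y) * y, ?_⟩
  have h2 : F.σ (y + F.σ y) = y + F.σ y := by
    rw [map_add, F.inv, add_comm]
  rw [map_mul, map_div₀, hc, h2]
  field_simp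

/-- from the elementary matrices to everything -/
theorem all_mem (H : AddSubgroup (Matrix (Fin m) (Fin m) K))
    (h1 : ∀ (i j : Fin m) (y : K), i ≠ j →
      Matrix.single i j y - Matrix.single j i (F.ε * F.σ y) ∈ H)
    (h2 : ∀ (i : Fin m) (c : K), c ∈ F.Λ → Matrix.single i i c ∈ H) :
    ∀ X, DM F X → X ∈ H := by
  classical
  intro X hX
  rw [matrix_eq_sum_single X]
  refine sum_mem_of_pairs H _ (fun i => h2 i _ (hX.2 i)) (fun i j hij => ?_)
  have h3 := h1 i j (X i j) (ne_of_lt hij)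
  have h4 : Matrix.single j i (X j i) = -Matrix.single j i (F.ε * F.σ (X i j)) := by
    rw [hX.1 j i]
    ext a b
    simp only [Matrix.single_apply, Matrix.neg_apply]
    split_ifs
    · rfl
    · rw [neg_zero]
  rw [h4, ← sub_eq_add_neg]
  exact h3

/-- the successor modulo `m` -/
def rot (m : ℕ) (hm : 3 ≤ m) (i : Fin m) : Fin m :=
  if h : i.1 + 1 < m then ⟨i.1 + 1, h⟩ else ⟨0, by omega⟩

theorem rot_val (hm : 3 ≤ m) (i : Fin m) :
    (rot m hm i).1 = if i.1 + 1 < m then i.1 + 1 else 0 := by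
  unfold rot
  split_ifs <;> rfl

theorem rot_ne (hm : 3 ≤ m) (i : Fin m) : rot m hm i ≠ i := by
  intro h
  have h1 := rot_val hm i
  rw [h] at h1
  split_ifs at h1 <;> omega

theorem rot_rot_ne (hm : 3 ≤ m) (i : Fin m) : rot m hm (rot m hm i) ≠ i := by
  intro h
  have h1 := rot_val hm i
  have h2 := rot_val hm (rot m hm i)
  rw [h] at h2
  split_ifs at h1 h2 <;> omega

open Classical in
/-- many skew matrices -/
noncomputable def cyc (F : FD K) (hm : 3 ≤ m) (a : Fin m → K) : Matrix (Fin m) (Fin m) K :=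
  fun i j => if j = rot m hm i then a i else if i = rot m hm j then -(F.ε * F.σ (a j)) else 0

theorem cyc_rot (hm : 3 ≤ m) (a : Fin m → K) (i : Fin m) : cyc F hm a i (rot m hm i) = a i := by
  unfold cyc
  rw [if_pos rfl]

theorem cyc_DM (hm : 3 ≤ m) (a : Fin m → K) : DM F (cyc F hm a) := by
  classical
  refine ⟨fun i j => ?_, fun i => ?_⟩
  · unfold cyc
    by_cases h1 : j = rot m hm i
    · have h2 : i ≠ rot m hm j := by
        intro h
        rw [h1] at h
        exact rot_rot_ne hm i h.symm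
      rw [if_pos h1, if_neg h2, if_pos h1, map_neg, map_mul, F.se, F.inv]
      have := F.ee
      linear_combination (-(a i)) * this
    · by_cases h2 : i = rot m hm j
      · rw [if_neg h1, if_pos h2, if_pos h2]
      · rw [if_neg h1, if_neg h2, if_neg h2, if_neg h1, map_zero, mul_zero, neg_zero]
  · unfold cyc
    have h1 : i ≠ rot m hm i := fun h => rot_ne hm i h.symm
    rw [if_neg h1, if_neg h1]
    exact F.Λ.zero_mem

theorem arith {q n z x y w : ℕ} (hz : 0 < z) (hc : q * z ≤ n) (h : n * x ≤ n * y + z * w) :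
    q * x ≤ q * y + w := by
  rcases le_or_gt x y with hxy | hxy
  · calc q * x ≤ q * y := Nat.mul_le_mul_left _ hxy
      _ ≤ q * y + w := Nat.le_add_right _ _
  · obtain ⟨k, rfl⟩ := Nat.exists_eq_add_of_le hxy.le
    have h1 : n * k ≤ z * w := by
      have h3 : n * (y + k) = n * y + n * k := Nat.mul_add _ _ _
      omega
    have h4 : z * (q * k) ≤ z * w := by
      calc z * (q * k) = q * z * k := by ring
        _ ≤ n * k := Nat.mul_le_mul_right _ hc
        _ ≤ z * w := h1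
    have h5 : q * k ≤ w := Nat.le_of_mul_le_mul_left h4 hz
    rw [Nat.mul_add]
    exact Nat.add_le_add_left h5 _

end SZEM

open SZEM in
theorem specSZE (hM : SpecMAU2) (hZ : SpecZEL) (_ : SpecLMD) : SpecSZE := by
  classical
  intro K _ _ F V₀ _ _ _ m hm Γ Ω _ _ hl hz
  haveI : Finite V₀ := Module.finite_of_finite K
  haveI hfin : Finite (SV K V₀ m ≃ₗ[K] SV K V₀ m) :=
    Finite.of_injective (fun e => (e : SV K V₀ m → SV K V₀ m)) DFunLike.coe_injective
  have hN : ((NN F V₀ m : Subgroup (SV K V₀ m ≃ₗ[K] SV K V₀ m)) : Set _) = ZES F V₀ m := rfl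
  have hNΓ : NN F V₀ m ≤ Γ := hz
  -- the main step
  have main : ∀ Z : Subgroup (SV K V₀ m ≃ₗ[K] SV K V₀ m), Z ≤ NN F V₀ m →
      Nat.card K ^ m * Nat.card Z ≤ Nat.card (NN F V₀ m) →
      (∀ D : Matrix (Fin m) (Fin m) K, DM F D → zE V₀ D ∉ Z →
        ∀ H : AddSubgroup (Matrix (Fin m) (Fin m) K),
        (∀ X ∈ H, ∀ g : SLn m K, g.1 * X * (g.1.map F.σ).transpose ∈ H) →
        (∀ g : SLn m K, g.1 * D * (g.1.map F.σ).transpose - D ∈ H) →
        ∀ X, DM F X → X ∈ H) →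
      Nat.card K ^ m * (fy Γ Ω (lamS F V₀ m : Set (SV K V₀ m ≃ₗ[K] SV K V₀ m))).ncard ≤
        Nat.card K ^ m * (fy Γ Ω ((lamS F V₀ m : Set (SV K V₀ m ≃ₗ[K] SV K V₀ m)) ∪
          ZES F V₀ m)).ncard + Nat.card Ω := by
    intro Z hZN hcard hgen
    have key := hM (SV K V₀ m ≃ₗ[K] SV K V₀ m) Ω Γ (lamS F V₀ m) (NN F V₀ m) Z hl hNΓ
      inferInstance hZN (by
        rintro d ⟨D, hD, rfl⟩ hdZ H hH1 hH2
        have h1 := hgen D hD hdZ (HH F H) (HH_conj hH1) (HH_diff hH1 hD hH2)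
        rintro _ ⟨X, hX, rfl⟩
        exact (h1 X hX).2)
    rw [hN] at key
    exact arith Nat.card_pos hcard key
  rcases F.typ with ⟨hσ, hε, hΛ⟩ | ⟨hσ, hε, hΛ⟩ | ⟨hσ, hε, hΛ⟩
  · -- orthogonal
    refine main ⊥ bot_le ?_ ?_
    · rw [Subgroup.card_bot, mul_one]
      have h1 : Nat.card (Fin m → K) = Nat.card K ^ m := by
        rw [Nat.card_fun, Nat.card_fin]
      rw [← h1]
      refine Nat.card_le_card_of_injective
        (fun a => (⟨zE V₀ (cyc F hm a), cyc F hm a, cyc_DM hm a, rfl⟩ : NN F V₀ m)) ?_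
      intro a a' h
      have h2 : zE V₀ (cyc F hm a) = zE V₀ (cyc F hm a') := congrArg Subtype.val h
      have h3 := zE_inj h2
      funext i
      rw [← cyc_rot (F := F) hm a i, ← cyc_rot (F := F) hm a' i, h3]
    · intro D hD hDZ H h1 h2
      have hD0 : D ≠ 0 := by
        rintro rfl
        exact hDZ (by rw [zE_zero]; exact Subgroup.one_mem _)
      have h3 := (hZ K F m hm D hD hD0 H h1 h2).1
      refine all_mem H (fun i j y hij => (h3 i j y hij).1) (fun i c hc => ?_)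
      rw [hΛ, AddSubgroup.mem_bot] at hc
      rw [hc, Matrix.single_zero]
      exact H.zero_mem
  · -- symplectic
    refine main (ZZ F V₀ m) ?_ ?_ ?_
    · rintro _ ⟨D, h1, -, rfl⟩
      exact ⟨D, h1, rfl⟩
    · have h1 : Nat.card ((Fin m → K) × ZZ F V₀ m) = Nat.card K ^ m * Nat.card (ZZ F V₀ m) := by
        rw [Nat.card_prod, Nat.card_fun, Nat.card_fin]
      rw [← h1]
      have hdiag : ∀ a : Fin m → K, DM F (Matrix.diagonal a) := by
        intro a
        refine ⟨fun i j => ?_, fun i => ?_⟩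
        · rw [hσ, hε]
          by_cases hij : i = j
          · subst hij
            ring
          · rw [Matrix.diagonal_apply_ne _ hij, Matrix.diagonal_apply_ne _ (Ne.symm hij)]
            ring
        · rw [hΛ]
          trivial
      refine Nat.card_le_card_of_injective
        (fun p => (⟨zE V₀ (Matrix.diagonal p.1) * p.2.1, (NN F V₀ m).mul_mem
          ⟨_, hdiag p.1, rfl⟩ (by
            obtain ⟨D, h2, -, h3⟩ := p.2.2
            exact ⟨D, h2, h3⟩)⟩ : NN F V₀ m)) ?_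
      rintro ⟨a, z, D, hD1, hD2, hD3⟩ ⟨a', z', D', hD1', hD2', hD3'⟩ h
      have h2 : zE V₀ (Matrix.diagonal a) * z = zE V₀ (Matrix.diagonal a') * z' :=
        congrArg Subtype.val h
      have h2' := h2
      rw [hD3, hD3', zE_mul, zE_mul] at h2
      have h3 := zE_inj h2
      have h4 : a = a' := by
        funext i
        have h5 := congrFun (congrFun h3 i) i
        rw [Matrix.add_apply, Matrix.add_apply, hD2, hD2', add_zero, add_zero,
          Matrix.diagonal_apply_eq, Matrix.diagonal_apply_eq] at h5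
        exact h5
      subst h4
      have h6 : z = z' := mul_left_cancel h2'
      subst h6
      rfl
    · intro D hD hDZ H h1 h2
      have hD0 : D ≠ 0 := by
        rintro rfl
        exact hDZ (by rw [zE_zero]; exact Subgroup.one_mem _)
      have hdiag : ∃ a, D a a ≠ 0 := by
        by_contra hcon
        push Not at hcon
        exact hDZ ⟨D, hD, hcon, rfl⟩
      exact (hZ K F m hm D hD hD0 H h1 h2).2 hσ hΛ hdiag
  · -- unitary
    refine main ⊥ bot_le ?_ ?_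
    · rw [Subgroup.card_bot, mul_one]
      have h1 : Nat.card (Fin m → K) = Nat.card K ^ m := by
        rw [Nat.card_fun, Nat.card_fin]
      rw [← h1]
      refine Nat.card_le_card_of_injective
        (fun a => (⟨zE V₀ (cyc F hm a), cyc F hm a, cyc_DM hm a, rfl⟩ : NN F V₀ m)) ?_
      intro a a' h
      have h2 : zE V₀ (cyc F hm a) = zE V₀ (cyc F hm a') := congrArg Subtype.val h
      have h3 := zE_inj h2
      funext i
      rw [← cyc_rot (F := F) hm a i, ← cyc_rot (F := F) hm a' i, h3]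
    · intro D hD hDZ H h1 h2
      have hD0 : D ≠ 0 := by
        rintro rfl
        exact hDZ (by rw [zE_zero]; exact Subgroup.one_mem _)
      have h3 := (hZ K F m hm D hD hD0 H h1 h2).1
      refine all_mem H (fun i j y hij => (h3 i j y hij).1) (fun i c hc => ?_)
      obtain ⟨y, hy⟩ := trace_surj hσ ((hΛ c).1 hc)
      obtain ⟨j, hj⟩ : ∃ j : Fin m, i ≠ j := by
        haveI : Nontrivial (Fin m) := Fin.nontrivial_iff_two_le.2 (by omega)
        obtain ⟨j, hj⟩ := exists_ne i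
        exact ⟨j, hj.symm⟩
      have h4 := (h3 i j y hj).2
      have h5 : y - F.ε * F.σ y = c := by
        rw [hε, ← hy]
        ring
      rw [h5] at h4
      exact h4

end Pool.Agent.Lib.MP66ef6b.CL
end

section
set_option autoImplicit false

/-!
# MP_66ef6b_al, THEOREM L2, module SCA: maps fixing all singular points are scalar
-/

namespace Pool.Agent.Lib.MP66ef6b.CL

open Matrix

namespace SCAM

variable {K : Type} [Field K] {F : FD K} {V₀ : Type} [AddCommGroup V₀] [Module K V₀]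
  (S₀ : Sq F V₀) {m : ℕ}

theorem sg_of {v : SV K V₀ m} (h : (S₀.std m).q v = 0) : (S₀.std m).Sg v := by
  rw [Sq.Sg, h]
  exact F.Λ.zero_mem

theorem sg_E (a : Fin m → K) : (S₀.std m).Sg (a, 0, 0) := by
  apply sg_of
  rw [std_q]
  simp [dotProduct, Sq.q_zero]

theorem sg_F (b : Fin m → K) : (S₀.std m).Sg (0, b, 0) := by
  apply sg_of
  rw [std_q]
  simp [dotProduct, Sq.q_zero]

theorem sg_EF {i j : Fin m} (h : i ≠ j) :
    (S₀.std m).Sg (Pi.single i 1, Pi.single j 1, 0) := by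
  apply sg_of
  rw [std_q]
  simp [Sq.q_zero, h]

theorem sg_V (i : Fin m) (v : V₀) :
    (S₀.std m).Sg (Pi.single i (-S₀.q v), Pi.single i 1, v) := by
  apply sg_of
  rw [std_q]
  simp

end SCAM

open SCAM in
/-- **Module SCA**: maps fixing all singular points are scalar. -/
theorem specSCA : SpecSCA := by
  intro K _ F V₀ _ _ S₀ m hm f hf
  -- two indices
  have hne : ∀ j : Fin m, ∃ i : Fin m, i ≠ j := by
    intro j
    by_cases h : j = ⟨0, by omega⟩
    · exact ⟨⟨1, by omega⟩, by rw [h]; simp⟩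
    · exact ⟨⟨0, by omega⟩, fun h' => h h'.symm⟩
  let i₀ : Fin m := ⟨0, by omega⟩
  -- eigenvalues
  have h1 : ∀ i : Fin m, ∃ c : K, f (Pi.single i 1, 0, 0) = c • (Pi.single i 1, 0, 0) :=
    fun i => hf _ (sg_E S₀ _)
  have h2 : ∀ i : Fin m, ∃ c : K, f (0, Pi.single i 1, 0) = c • (0, Pi.single i 1, 0) :=
    fun i => hf _ (sg_F S₀ _)
  choose c hc using h1
  choose c' hc' using h2
  have hcc : ∀ i j : Fin m, c i = c j := by
    intro i j
    by_cases hij : i = j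
    · rw [hij]
    obtain ⟨d, hd⟩ := hf _ (sg_E S₀ (Pi.single i 1 + Pi.single j 1))
    have e1 : ((Pi.single i 1 + Pi.single j 1, 0, 0) : SV K V₀ m) =
        (Pi.single i 1, 0, 0) + (Pi.single j 1, 0, 0) := by simp
    rw [e1, map_add, hc, hc] at hd
    have hi := congrFun (congrArg Prod.fst hd) i
    have hj := congrFun (congrArg Prod.fst hd) j
    simp [hij] at hi
    have hji : j ≠ i := fun h => hij h.symm
    simp [hji] at hj
    rw [hi, hj]
  have hcf : ∀ i j : Fin m, i ≠ j → c i = c' j := by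
    intro i j hij
    obtain ⟨d, hd⟩ := hf _ (sg_EF S₀ hij)
    have e1 : ((Pi.single i 1, Pi.single j 1, 0) : SV K V₀ m) =
        (Pi.single i 1, 0, 0) + (0, Pi.single j 1, 0) := by simp
    rw [e1, map_add, hc, hc'] at hd
    have hi := congrFun (congrArg Prod.fst hd) i
    have hj := congrFun (congrArg (fun v => v.2.1) hd) j
    simp at hi hj
    rw [hi, hj]
  have hcE : ∀ i : Fin m, f (Pi.single i 1, 0, 0) = c i₀ • (Pi.single i 1, 0, 0) := by
    intro i
    rw [hc, hcc i i₀]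
  have hcF : ∀ i : Fin m, f (0, Pi.single i 1, 0) = c i₀ • (0, Pi.single i 1, 0) := by
    intro i
    obtain ⟨j, hj⟩ := hne i
    rw [hc', ← hcf j i hj, hcc j i₀]
  -- vectors of `V₀`
  have hV : ∀ (v : V₀) (i : Fin m), ∃ d : K,
      f (0, 0, v) = (Pi.single i ((c i₀ - d) * S₀.q v), Pi.single i (-(c i₀ - d)), d • v) := by
    intro v i
    obtain ⟨d, hd⟩ := hf _ (sg_V S₀ i v)
    refine ⟨d, ?_⟩
    have e1 : ((Pi.single i (-S₀.q v), Pi.single i 1, v) : SV K V₀ m) =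
        (-S₀.q v) • (Pi.single i 1, 0, 0) + (0, Pi.single i 1, 0) + (0, 0, v) := by
      refine Prod.ext ?_ (Prod.ext ?_ ?_)
      · ext j
        by_cases hj : j = i
        · subst hj
          simp
        · simp [hj]
      · simp
      · simp
    have e2 : f (0, 0, v) = d • (Pi.single i (-S₀.q v), Pi.single i 1, v) -
        ((-S₀.q v) • c i₀ • (Pi.single i 1, 0, 0) + c i₀ • (0, Pi.single i 1, 0)) := by
      rw [← hd, e1, map_add, map_add, map_smul, hcE, hcF]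
      abel
    rw [e2]
    refine Prod.ext ?_ (Prod.ext ?_ ?_)
    · ext j
      by_cases hj : j = i
      · subst hj
        simp
        ring
      · simp [hj]
    · ext j
      by_cases hj : j = i
      · subst hj
        simp
      · simp [hj]
    · simp
  have hcV : ∀ v : V₀, f (0, 0, v) = c i₀ • (0, 0, v) := by
    intro v
    obtain ⟨i₁, hi₁⟩ := hne i₀
    obtain ⟨d, hd⟩ := hV v i₀
    obtain ⟨d', hd'⟩ := hV v i₁
    have h3 := congrFun (congrArg (fun v => v.2.1) (hd.symm.trans hd')) i₀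
    have hi₁' : i₀ ≠ i₁ := fun h => hi₁ h.symm
    simp only [Pi.single_eq_same, Pi.single_eq_of_ne hi₁'] at h3
    have h4 : c i₀ = d := by
      linear_combination -h3
    rw [hd, ← h4]
    simp
  refine ⟨c i₀, ?_⟩
  have key : f.toLinearMap = c i₀ • LinearMap.id := by
    apply LinearMap.prod_ext
    · apply LinearMap.pi_ext'
      intro i
      apply LinearMap.ext_ring
      exact hcE i
    · apply LinearMap.prod_ext
      · apply LinearMap.pi_ext'
        intro i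
        apply LinearMap.ext_ring
        exact hcF i
      · apply LinearMap.ext
        intro v
        exact hcV v
  intro v
  have := LinearMap.congr_fun key v
  exact this

end Pool.Agent.Lib.MP66ef6b.CL
end
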