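import Pool.Agent.Lib.MP_66ef6b_al.CL.SpecG

set_option autoImplicit false

/-!
# MP_66ef6b_al, THEOREM L3: module SJP
-/

namespace Pool.Agent.Lib.MP66ef6b.CL

open PL (SLn PSLn fx)

open Polynomial

namespace SJPM

variable {K : Type} [Field K]

/-- the polynomials `s_j`. -/
noncomputable def s (K : Type) [Field K] : ℕ → K[X]
  | 0 => 0
  | 1 => 1
  | (j + 2) => X * s K (j + 1) - s K j

theorem s_zero : s K 0 = 0 := by rw [s]

theorem s_one : s K 1 = 1 := by rw [s]

theorem s_add_two (j : ℕ) : s K (j + 2) = X * s K (j + 1) - s K j := by rw [s]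

theorem s_monic (j : ℕ) : ((s K (j + 1)).Monic ∧ (s K (j + 1)).natDegree = j) ∧
    (s K (j + 2)).Monic ∧ (s K (j + 2)).natDegree = j + 1 := by
  induction j with
  | zero =>
    have h1 : s K (0 + 1) = 1 := s_one
    have h2 : s K (0 + 2) = X := by rw [s_add_two, s_zero, sub_zero, zero_add, s_one, mul_one]
    rw [h1, h2]
    exact ⟨⟨monic_one, natDegree_one⟩, monic_X, natDegree_X⟩
  | succ j ih =>
    obtain ⟨⟨h1, h2⟩, h3, h4⟩ := ih
    refine ⟨⟨h3, h4⟩, ?_⟩
    have h5 : s K (j + 1 + 2) = X * s K (j + 2) - s K (j + 1) := s_add_two (j + 1)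
    have h6 : (X * s K (j + 2)).Monic := monic_X.mul h3
    have h7 : (X * s K (j + 2)).natDegree = j + 2 := by
      rw [monic_X.natDegree_mul h3, natDegree_X, h4]
      omega
    have h8 : (s K (j + 1)).natDegree < (X * s K (j + 2)).natDegree := by
      rw [h7, h2]
      omega
    rw [h5]
    refine ⟨h6.sub_of_left (degree_lt_degree h8), ?_⟩
    rw [natDegree_sub_eq_left_of_natDegree_lt h8, h7]

theorem s_ne (j : ℕ) : s K (j + 1) ≠ 0 := (s_monic j).1.1.ne_zero

theorem s_deg (j : ℕ) : (s K (j + 1)).natDegree = j := (s_monic j).1.2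

theorem sq (M : SLn 2 K) : M.1 * M.1 = Matrix.trace M.1 • M.1 - 1 := by
  have hdet : M.1 0 0 * M.1 1 1 - M.1 0 1 * M.1 1 0 = 1 := by
    rw [← Matrix.det_fin_two, M.2]
  ext i j
  fin_cases i <;> fin_cases j <;>
    simp [Matrix.mul_apply, Fin.sum_univ_two, Matrix.trace_fin_two] <;>
    first | ring1 | linear_combination -hdet

theorem pow_eq (M : SLn 2 K) (j : ℕ) : M.1 ^ (j + 1) =
    (s K (j + 1)).eval (Matrix.trace M.1) • M.1 - (s K j).eval (Matrix.trace M.1) • (1 :
      Matrix (Fin 2) (Fin 2) K) := by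
  induction j with
  | zero => rw [zero_add, pow_one, s_one, s_zero, eval_one, eval_zero, one_smul, zero_smul, sub_zero]
  | succ j ih =>
    rw [pow_succ, ih, sub_mul, smul_mul_assoc, sq, smul_mul_assoc, one_mul, s_add_two, eval_sub,
      eval_mul, eval_X, smul_sub, smul_smul, sub_smul, mul_comm (eval _ _)]
    abel

theorem central (M : SLn 2 K) (c : K) (h : M.1 = c • (1 : Matrix (Fin 2) (Fin 2) K)) :
    M ∈ Subgroup.center (SLn 2 K) := by
  rw [Subgroup.mem_center_iff]
  intro g
  apply Subtype.ext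
  show g.1 * M.1 = M.1 * g.1
  rw [h, mul_smul_comm, smul_mul_assoc, mul_one, one_mul]

end SJPM

open SJPM

theorem specSJP : SpecSJP := by
  classical
  intro K _ N
  refine ⟨(Finset.range N).biUnion fun j => (s K (j + 1)).roots.toFinset, ?_, ?_⟩
  · refine Finset.card_biUnion_le.trans ?_
    have h1 : ∀ j ∈ Finset.range N, (s K (j + 1)).roots.toFinset.card ≤ N := by
      intro j hj
      refine (Multiset.toFinset_card_le _).trans ((card_roots' _).trans ?_)
      rw [s_deg]
      exact (Finset.mem_range.1 hj).le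
    refine (Finset.sum_le_sum h1).trans (le_of_eq ?_)
    rw [Finset.sum_const, Finset.card_range, smul_eq_mul, _root_.sq]
  · intro M hM j hj1 hjN hcen
    obtain ⟨i, rfl⟩ : ∃ i, j = i + 1 := ⟨j - 1, by omega⟩
    rw [Finset.mem_biUnion]
    refine ⟨i, Finset.mem_range.2 (by omega), ?_⟩
    rw [Multiset.mem_toFinset, mem_roots (s_ne i), IsRoot.def]
    by_contra hne
    apply hM
    -- `M ^ j` is scalar
    obtain ⟨r, -, hr⟩ := Matrix.SpecialLinearGroup.mem_center_iff.1 hcen
    have h1 : M.1 ^ (i + 1) = r • (1 : Matrix (Fin 2) (Fin 2) K) := by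
      have h2 : ((M ^ (i + 1) : SLn 2 K)).1 = M.1 ^ (i + 1) := by
        exact Matrix.SpecialLinearGroup.coe_pow M (i + 1)
      rw [← h2, ← hr]
      ext a b
      simp [Matrix.scalar_apply, Matrix.diagonal_apply, Matrix.one_apply]
    rw [pow_eq] at h1
    refine central M (((s K (i + 1)).eval (Matrix.trace M.1))⁻¹ *
      (r + (s K i).eval (Matrix.trace M.1))) ?_
    have h3 : (s K (i + 1)).eval (Matrix.trace M.1) • M.1 =
        (r + (s K i).eval (Matrix.trace M.1)) • (1 : Matrix (Fin 2) (Fin 2) K) := by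
      rw [add_smul, ← h1]
      abel
    rw [← smul_smul, ← h3, smul_smul, inv_mul_cancel₀ hne, one_smul]

end Pool.Agent.Lib.MP66ef6b.CL
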