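import Pool.Agent.Lib.MP_66ef6b_al.CL.SpecE
import Pool.Agent.Lib.MP_66ef6b_al.CL.SCA
import Pool.Agent.Lib.MP_66ef6b_al.CL.SGY
import Pool.Agent.Lib.MP_66ef6b_al.CL.SpecD

section
set_option autoImplicit false

/-! # Module PRS. -/

namespace Pool.Agent.Lib.MP66ef6b.CL

namespace PRSM

open Matrix

/-- preimages of subgroups under homomorphisms from additive groups. -/
theorem idx {A : Type} [AddCommGroup A] {G : Type} [Group G] (φ : A → G)
    (h0 : φ 0 = 1) (hφ : ∀ x y, φ (x + y) = φ x * φ y) (C Γ : Subgroup G) (hΓ : ∀ x, φ x ∈ Γ)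
    (hfin : C.relIndex Γ ≠ 0) :
    ∃ L : AddSubgroup A, (∀ x, x ∈ L ↔ φ x ∈ C) ∧ L.index ≤ C.relIndex Γ := by
  let f : Multiplicative A →* G :=
    { toFun := fun x => φ x.toAdd
      map_one' := h0
      map_mul' := fun x y => hφ _ _ }
  refine ⟨Subgroup.toAddSubgroup' (C.comap f), fun x => Iff.rfl, ?_⟩
  have h1 : (Subgroup.toAddSubgroup' (C.comap f)).index = (C.comap f).index := rfl
  rw [h1, Subgroup.index_comap]
  refine Subgroup.relIndex_le_of_le_right ?_ hfin
  rintro _ ⟨x, rfl⟩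
  exact hΓ _

section mat

variable {K : Type} [Field K] {F : FD K} {V₀ : Type} [AddCommGroup V₀] [Module K V₀]
  {S₀ : Sq F V₀} {m k b : ℕ}

/-- the selection matrix. -/
def Sel (K : Type) [Field K] {a m : ℕ} (e : Fin a → Fin m) : Matrix (Fin m) (Fin a) K :=
  Matrix.of fun i j => if i = e j then 1 else 0

theorem Sel_map {a : ℕ} (e : Fin a → Fin m) (s : K →+* K) : (Sel K e).map s = Sel K e := by
  ext i j
  simp only [Sel, map_apply, of_apply]
  split_ifs <;> simp

theorem Sel_mul {a a' : ℕ} (e : Fin a → Fin m) (e' : Fin a' → Fin m) :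
    (Sel K e)ᵀ * Sel K e' = Matrix.of fun i j => if e i = e' j then 1 else 0 := by
  ext i j
  rw [mul_apply, Finset.sum_eq_single (e i)]
  · simp [Sel]
  · intro x _ hx
    simp [Sel, hx]
  · intro h
    exact absurd (Finset.mem_univ _) h

theorem Sel_one {a : ℕ} (e : Fin a → Fin m) (he : Function.Injective e) :
    (Sel K e)ᵀ * Sel K e = 1 := by
  rw [Sel_mul]
  ext i j
  rw [of_apply, one_apply]
  simp only [he.eq_iff]

theorem Sel_zero {a a' : ℕ} (e : Fin a → Fin m) (e' : Fin a' → Fin m) (h : ∀ i j, e i ≠ e' j) :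
    (Sel K e)ᵀ * Sel K e' = 0 := by
  rw [Sel_mul]
  ext i j
  rw [of_apply, if_neg (h i j)]
  rfl

theorem map_mul' {a c d : ℕ} (M : Matrix (Fin a) (Fin c) K) (N : Matrix (Fin c) (Fin d) K)
    (s : K →+* K) : (M * N).map s = M.map s * N.map s := Matrix.map_mul

theorem map_tr {a c : ℕ} (M : Matrix (Fin a) (Fin c) K) (s : K →+* K) :
    (Mᵀ).map s = (M.map s)ᵀ := rfl

/-- the matrix `D` with two blocks. -/
def Dm (F : FD K) (P : Matrix (Fin m) (Fin m) K) : Matrix (Fin m) (Fin m) K :=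
  P - F.ε • (P.map F.σ)ᵀ

theorem Dm_DM (P : Matrix (Fin m) (Fin m) K) (h : ∀ i, P i i = 0) : DM F (Dm F P) := by
  refine ⟨fun i j => ?_, fun i => ?_⟩
  · simp only [Dm, Matrix.sub_apply, Matrix.smul_apply, transpose_apply, map_apply, smul_eq_mul, map_sub,
      map_mul, F.se, F.inv]
    linear_combination (-P i j) * F.ee
  · simp only [Dm, Matrix.sub_apply, Matrix.smul_apply, transpose_apply, map_apply, smul_eq_mul, h, map_zero,
      mul_zero, sub_zero]
    exact F.Λ.zero_mem

theorem Dm_add (P Q : Matrix (Fin m) (Fin m) K) : Dm F (P + Q) = Dm F P + Dm F Q := by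
  have h : (P + Q).map F.σ = P.map F.σ + Q.map F.σ := by
    ext i j
    simp
  rw [Dm, Dm, Dm, h, transpose_add, smul_add]
  abel

theorem Dm_zero : Dm F (0 : Matrix (Fin m) (Fin m) K) = 0 := by
  have h : (0 : Matrix (Fin m) (Fin m) K).map F.σ = 0 := by
    ext i j
    simp
  rw [Dm, h, transpose_zero, smul_zero, sub_zero]

/-- the block embedding. -/
def Em {a c : ℕ} (e : Fin a → Fin m) (e' : Fin c → Fin m) (X : Matrix (Fin a) (Fin c) K) :
    Matrix (Fin m) (Fin m) K := Sel K e * X * (Sel K e')ᵀ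

theorem Em_add {a c : ℕ} (e : Fin a → Fin m) (e' : Fin c → Fin m)
    (X Y : Matrix (Fin a) (Fin c) K) : Em e e' (X + Y) = Em e e' X + Em e e' Y := by
  rw [Em, Em, Em, Matrix.mul_add, Matrix.add_mul]

theorem Em_zero {a c : ℕ} (e : Fin a → Fin m) (e' : Fin c → Fin m) :
    Em e e' (0 : Matrix (Fin a) (Fin c) K) = 0 := by
  rw [Em, Matrix.mul_zero, Matrix.zero_mul]

theorem Em_mul {a c d : ℕ} (e : Fin a → Fin m) (e' : Fin c → Fin m) (e'' : Fin d → Fin m)
    (he : Function.Injective e') (X : Matrix (Fin a) (Fin c) K) (Y : Matrix (Fin c) (Fin d) K) :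
    Em e e' X * Em e' e'' Y = Em e e'' (X * Y) := by
  rw [Em, Em, Em]
  calc Sel K e * X * (Sel K e')ᵀ * (Sel K e' * Y * (Sel K e'')ᵀ)
      = Sel K e * X * ((Sel K e')ᵀ * Sel K e') * Y * (Sel K e'')ᵀ := by
        simp only [Matrix.mul_assoc]
    _ = _ := by
        rw [Sel_one e' he]
        simp only [Matrix.mul_assoc, Matrix.mul_one, Matrix.one_mul]

theorem Em_mul0 {a c d f : ℕ} (e : Fin a → Fin m) (e' : Fin c → Fin m) (e1 : Fin f → Fin m)
    (e'' : Fin d → Fin m)
    (h : ∀ i j, e' i ≠ e1 j) (X : Matrix (Fin a) (Fin c) K) (Y : Matrix (Fin f) (Fin d) K) :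
    Em e e' X * Em e1 e'' Y = 0 := by
  rw [Em, Em]
  calc Sel K e * X * (Sel K e')ᵀ * (Sel K e1 * Y * (Sel K e'')ᵀ)
      = Sel K e * X * ((Sel K e')ᵀ * Sel K e1) * Y * (Sel K e'')ᵀ := by
        simp only [Matrix.mul_assoc]
    _ = _ := by
        rw [Sel_zero e' e1 h]
        simp only [Matrix.mul_zero, Matrix.zero_mul]

theorem Em_st {a c : ℕ} (e : Fin a → Fin m) (e' : Fin c → Fin m)
    (X : Matrix (Fin a) (Fin c) K) (s : K →+* K) :
    ((Em e e' X).map s)ᵀ = Em e' e (X.map s)ᵀ := by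
  rw [Em, map_mul', map_mul', map_tr, Sel_map, Sel_map, transpose_mul, transpose_mul,
    transpose_transpose, Em, Matrix.mul_assoc]

theorem Em_diag {a c : ℕ} (e : Fin a → Fin m) (e' : Fin c → Fin m) (h : ∀ i j, e i ≠ e' j)
    (X : Matrix (Fin a) (Fin c) K) (i : Fin m) : Em e e' X i i = 0 := by
  rw [Em, mul_apply]
  refine Finset.sum_eq_zero fun j _ => ?_
  by_cases hj : i = e' j
  · have h1 : (Sel K e * X) i j = 0 := by
      rw [mul_apply]
      refine Finset.sum_eq_zero fun l _ => ?_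
      have : i ≠ e l := fun h2 => h l j (h2.symm.trans hj)
      simp [Sel, this]
    rw [h1, zero_mul]
  · simp [Sel, hj]

theorem det_Em {a c : ℕ} (e : Fin a → Fin m) (e' : Fin c → Fin m) (h : ∀ i j, e i ≠ e' j)
    (X : Matrix (Fin a) (Fin c) K) : (1 + Em e e' X).det = 1 := by
  rw [Em, Matrix.mul_assoc, Matrix.det_one_add_mul_comm, Matrix.mul_assoc,
    Sel_zero e' e (fun i j h2 => h j i h2.symm), Matrix.mul_zero, add_zero, Matrix.det_one]

/-- the unipotent element of `SL_m`. -/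
def gX {a c : ℕ} (e : Fin a → Fin m) (e' : Fin c → Fin m) (h : ∀ i j, e i ≠ e' j)
    (X : Matrix (Fin a) (Fin c) K) : PL.SLn m K := ⟨1 + Em e e' X, det_Em e e' h X⟩

theorem gX_add {a c : ℕ} (e : Fin a → Fin m) (e' : Fin c → Fin m) (h : ∀ i j, e i ≠ e' j)
    (X Y : Matrix (Fin a) (Fin c) K) : gX e e' h (X + Y) = gX e e' h X * gX e e' h Y := by
  apply Subtype.ext
  change 1 + Em e e' (X + Y) = (1 + Em e e' X) * (1 + Em e e' Y)
  rw [Em_add, Matrix.add_mul, Matrix.mul_add, Matrix.mul_add, Matrix.one_mul, Matrix.one_mul,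
    Matrix.mul_one, Em_mul0 e e' e e' (fun i j h2 => h j i h2.symm), add_zero]
  abel

theorem gX_zero {a c : ℕ} (e : Fin a → Fin m) (e' : Fin c → Fin m) (h : ∀ i j, e i ≠ e' j) :
    gX e e' h (0 : Matrix (Fin a) (Fin c) K) = 1 := by
  apply Subtype.ext
  change 1 + Em e e' 0 = 1
  rw [Em_zero, add_zero]

/-- the commutator formula. -/
theorem comm (ea : Fin k → Fin m) (eb : Fin b → Fin m) (ec : Fin k → Fin m)
    (hb : Function.Injective eb) (hab : ∀ i j, ea i ≠ eb j) (hbc : ∀ i j, eb i ≠ ec j)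
    (X : Matrix (Fin k) (Fin b) K) (Y : Matrix (Fin b) (Fin k) K) :
    lam F V₀ m (gX ea eb hab X) * zE V₀ (Dm F (Em eb ec Y)) * (lam F V₀ m (gX ea eb hab X))⁻¹ *
      (zE V₀ (Dm F (Em eb ec Y)))⁻¹ = zE V₀ (Dm F (Em ea ec (X * Y))) := by
  rw [SZEM.lam_conj, SZEM.zE_inv, SZEM.zE_mul]
  congr 1
  have h1 : (gX ea eb hab X).1 = 1 + Em ea eb X := rfl
  have h2 : ((1 + Em ea eb X).map F.σ)ᵀ = 1 + Em eb ea (X.map F.σ)ᵀ := by
    have h3 : (1 + Em ea eb X).map F.σ = 1 + (Em ea eb X).map F.σ := by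
      rw [Matrix.map_add _ (map_add F.σ), Matrix.map_one _ (map_zero _) (map_one _)]
    rw [h3, transpose_add, transpose_one, Em_st]
  have h4 : Dm F (Em eb ec Y) = Em eb ec Y - F.ε • Em ec eb (Y.map F.σ)ᵀ := by
    rw [Dm, Em_st]
  have h5 : Dm F (Em ea ec (X * Y)) = Em ea ec (X * Y) - F.ε • Em ec ea ((X * Y).map F.σ)ᵀ := by
    rw [Dm, Em_st]
  have hba : ∀ i j, eb i ≠ ea j := fun i j h => hab j i h.symm
  have hcb : ∀ i j, ec i ≠ eb j := fun i j h => hbc j i h.symm
  have h6 : Em ea eb X * (Em eb ec Y - F.ε • Em ec eb (Y.map F.σ)ᵀ) = Em ea ec (X * Y) := by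
    rw [Matrix.mul_sub, Matrix.mul_smul, Em_mul _ _ _ hb, Em_mul0 _ _ _ _ hbc, smul_zero,
      sub_zero]
  have h7 : (Em eb ec Y - F.ε • Em ec eb (Y.map F.σ)ᵀ) * Em eb ea (X.map F.σ)ᵀ =
      -(F.ε • Em ec ea ((X * Y).map F.σ)ᵀ) := by
    rw [Matrix.sub_mul, Matrix.smul_mul, Em_mul _ _ _ hb, Em_mul0 _ _ _ _ hcb, zero_sub,
      map_mul', transpose_mul]
  have h8 : Em ea ec (X * Y) * Em eb ea (X.map F.σ)ᵀ = 0 := Em_mul0 _ _ _ _ hcb _ _
  rw [h1, h2, h4, h5, Matrix.add_mul, Matrix.one_mul, Matrix.mul_add, Matrix.mul_one, h6,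
    Matrix.add_mul, h7, h8]
  abel

theorem T_E (x1 w1 : Fin m → K) :
    (S₀.std m).T ((x1, 0, 0) : SV K V₀ m) ((w1, 0, 0) : SV K V₀ m) 0 =
      zE V₀ (Dm F (vecMulVec (-x1) (fun i => F.σ (w1 i)))) := by
  have hB : ∀ (v : SV K V₀ m) (y : Fin m → K), (S₀.std m).B v ((y, 0, 0) : SV K V₀ m) =
      F.ε * ∑ i, v.2.1 i * F.σ (y i) := by
    intro v y
    rw [std_B]
    simp only [Sq.B_zero_right, add_zero, Pi.zero_apply, map_zero]
    have : v.1 ⬝ᵥ (fun _ : Fin m => (0 : K)) = 0 := by simp [dotProduct]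
    rw [this, zero_add]
    rfl
  have hq : ∀ y : Fin m → K, (S₀.std m).q ((y, 0, 0) : SV K V₀ m) = 0 := by
    intro y
    rw [std_q]
    simp [Sq.q_zero, dotProduct]
  have had : (S₀.std m).Adm ((x1, 0, 0) : SV K V₀ m) ((w1, 0, 0) : SV K V₀ m) 0 := by
    refine ⟨?_, ?_, ?_⟩
    · rw [Sq.Sg, hq]
      exact F.Λ.zero_mem
    · rw [hB]
      simp
    · rw [hq, sub_zero]
      exact F.Λ.zero_mem
  refine LinearEquiv.ext fun v => ?_
  rw [Sq.T_apply had, zE_apply, hB, hB]
  have hee : F.ε * F.ε = 1 := F.ee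
  refine Prod.ext ?_ (Prod.ext ?_ ?_)
  · funext i
    have h1 : ∀ j, Dm F (vecMulVec (-x1) (fun i => F.σ (w1 i))) i j * v.2.1 j =
        F.ε * w1 i * (v.2.1 j * F.σ (x1 j)) - x1 i * (v.2.1 j * F.σ (w1 j)) := by
      intro j
      simp only [Dm, Matrix.sub_apply, Matrix.smul_apply, transpose_apply, map_apply,
        vecMulVec_apply, smul_eq_mul, Pi.neg_apply, map_mul, map_neg, F.inv]
      ring
    have h2 : (Dm F (vecMulVec (-x1) (fun i => F.σ (w1 i))) *ᵥ v.2.1) i =
        F.ε * w1 i * ∑ j, v.2.1 j * F.σ (x1 j) - x1 i * ∑ j, v.2.1 j * F.σ (w1 j) := by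
      change ∑ j, Dm F (vecMulVec (-x1) (fun i => F.σ (w1 i))) i j * v.2.1 j = _
      rw [Finset.sum_congr rfl fun j _ => h1 j, Finset.sum_sub_distrib, ← Finset.mul_sum,
        ← Finset.mul_sum]
    change _ = v.1 i + (Dm F (vecMulVec (-x1) (fun i => F.σ (w1 i))) *ᵥ v.2.1) i
    rw [h2]
    simp only [Prod.fst_sub, Prod.fst_add, Prod.smul_fst, Pi.sub_apply, Pi.add_apply,
      Pi.smul_apply, smul_eq_mul]
    linear_combination (-(∑ j, v.2.1 j * F.σ (w1 j)) * x1 i) * hee
  · simp
  · simp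

theorem Em_vmv {a c : ℕ} (e : Fin a → Fin m) (e' : Fin c → Fin m) (u : Fin a → K)
    (w : Fin c → K) : Em e e' (vecMulVec u w) = vecMulVec (Sel K e *ᵥ u) (Sel K e' *ᵥ w) := by
  rw [Em, mul_vecMulVec, vecMulVec_mul, vecMul_transpose]

/-- the first indices. -/
def ea (hk : 2 * k < m) : Fin k → Fin m := fun i => ⟨i.val, by omega⟩

/-- the second indices. -/
def ec (hk : 2 * k < m) : Fin k → Fin m := fun i => ⟨k + i.val, by omega⟩

/-- the last indices. -/
def eb (hk : 2 * k < m) : Fin (m - 2 * k) → Fin m := fun i => ⟨2 * k + i.val, by omega⟩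

theorem eb_inj (hk : 2 * k < m) : Function.Injective (eb hk) := by
  intro i j h
  have := congrArg Fin.val h
  apply Fin.ext
  simp only [eb] at this
  omega

theorem ea_eb (hk : 2 * k < m) (i : Fin k) (j : Fin (m - 2 * k)) : ea hk i ≠ eb hk j := by
  intro h
  have := congrArg Fin.val h
  simp only [ea, eb] at this
  omega

theorem eb_ec (hk : 2 * k < m) (i : Fin (m - 2 * k)) (j : Fin k) : eb hk i ≠ ec hk j := by
  intro h
  have := congrArg Fin.val h
  simp only [ec, eb] at this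
  omega

theorem ea_ec (hk : 2 * k < m) (i : Fin k) (j : Fin k) : ea hk i ≠ ec hk j := by
  intro h
  have := congrArg Fin.val h
  simp only [ec, ea] at this
  omega

theorem ix_eq (hk : 2 * k < m) (u : Fin k → K) :
    ix (m := m) V₀ u = (Sel K (ea hk) *ᵥ u, 0, 0) := by
  rw [ix]
  refine Prod.ext ?_ rfl
  funext i
  change (if h : i.val < k then u ⟨i.val, h⟩ else 0) = ∑ j, Sel K (ea hk) i j * u j
  split_ifs with h
  · rw [Finset.sum_eq_single ⟨i.val, h⟩]
    · simp [Sel, ea]
    · intro j _ hj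
      have : i ≠ ea hk j := by
        intro h2
        apply hj
        apply Fin.ext
        exact (congrArg Fin.val h2).symm
      simp [Sel, this]
    · intro h2
      exact absurd (Finset.mem_univ _) h2
  · symm
    refine Finset.sum_eq_zero fun j _ => ?_
    have : i ≠ ea hk j := by
      intro h2
      apply h
      rw [h2]
      exact j.2
    simp [Sel, this]

theorem iy_eq (hk : 2 * k < m) (u : Fin k → K) :
    iy (m := m) V₀ u = (Sel K (ec hk) *ᵥ u, 0, 0) := by
  rw [iy]
  refine Prod.ext ?_ rfl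
  funext i
  change (if h : k ≤ i.val ∧ i.val < 2 * k then u ⟨i.val - k, by omega⟩ else 0) =
    ∑ j, Sel K (ec hk) i j * u j
  split_ifs with h
  · rw [Finset.sum_eq_single ⟨i.val - k, by omega⟩]
    · have : i = ec hk ⟨i.val - k, by omega⟩ := by
        apply Fin.ext
        simp only [ec]
        omega
      simp only [Sel, of_apply]
      rw [if_pos this, one_mul]
    · intro j _ hj
      have : i ≠ ec hk j := by
        intro h2
        apply hj
        apply Fin.ext
        have := congrArg Fin.val h2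
        simp only [ec] at this
        simp only
        omega
      simp [Sel, this]
    · intro h2
      exact absurd (Finset.mem_univ _) h2
  · symm
    refine Finset.sum_eq_zero fun j _ => ?_
    have : i ≠ ec hk j := by
      intro h2
      apply h
      have := congrArg Fin.val h2
      simp only [ec] at this
      have := j.2
      omega
    simp [Sel, this]

theorem T_eq (hk : 2 * k < m) (u w : Fin k → K) :
    (S₀.std m).T (ix (m := m) V₀ u) (iy V₀ w) 0 =
      zE V₀ (Dm F (Em (ea hk) (ec hk) (vecMulVec (-u) (fun i => F.σ (w i))))) := by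
  rw [ix_eq hk, iy_eq hk, T_E, Em_vmv, mulVec_neg]
  have : (fun i => F.σ ((Sel K (ec hk) *ᵥ w) i)) = Sel K (ec hk) *ᵥ (fun i => F.σ (w i)) := by
    funext i
    rw [RingHom.map_mulVec, Sel_map]
    rfl
  rw [this]

theorem fin_GL (K : Type) [Field K] [Finite K] (V₀ : Type) [AddCommGroup V₀] [Module K V₀]
    [Module.Finite K V₀] (m : ℕ) : Finite (SV K V₀ m ≃ₗ[K] SV K V₀ m) := by
  have : Finite V₀ := Module.finite_of_finite K
  exact Finite.of_injective (fun g : SV K V₀ m ≃ₗ[K] SV K V₀ m => (g : SV K V₀ m → SV K V₀ m))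
    DFunLike.coe_injective

end mat

end PRSM

open PRSM Matrix in
theorem specPRS (hHEI : SpecHEI) (hLMD : SpecLMD) : SpecPRS := by
  intro K _ _ F V₀ _ _ _ S₀ m k t hk C hC hrel
  obtain ⟨-, ⟨hlam, hz, -⟩, -⟩ := hLMD K F V₀ S₀ m
  have hfGL := fin_GL K V₀ m
  have hfin : C.relIndex ((S₀.std m).D ⊤) ≠ 0 := by
    rw [Subgroup.relIndex]
    exact Subgroup.index_ne_zero_of_finite
  obtain ⟨L₁, hL₁, hi₁⟩ := idx
    (fun X : Matrix (Fin k) (Fin (m - 2 * k)) K =>
      lam F V₀ m (gX (ea hk) (eb hk) (ea_eb hk) X))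
    (by simp only [gX_zero, map_one]) (fun X Y => by simp only [gX_add, map_mul]) C
    ((S₀.std m).D ⊤) (fun X => hlam ⟨_, rfl⟩) hfin
  obtain ⟨L₂, hL₂, hi₂⟩ := idx
    (fun Y : Matrix (Fin (m - 2 * k)) (Fin k) K => zE V₀ (Dm F (Em (eb hk) (ec hk) Y)))
    (by simp only [Em_zero, Dm_zero, SZEM.zE_zero])
    (fun X Y => by simp only [Em_add, Dm_add, SZEM.zE_mul]) C
    ((S₀.std m).D ⊤) (fun Y => hz ⟨_, Dm_DM _ (Em_diag _ _ (eb_ec hk) _), rfl⟩) hfin
  obtain ⟨J, hJ, -⟩ := idx
    (fun Z : Matrix (Fin k) (Fin k) K => zE V₀ (Dm F (Em (ea hk) (ec hk) Z)))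
    (by simp only [Em_zero, Dm_zero, SZEM.zE_zero])
    (fun X Y => by simp only [Em_add, Dm_add, SZEM.zE_mul]) C
    ((S₀.std m).D ⊤) (fun Y => hz ⟨_, Dm_DM _ (Em_diag _ _ (ea_ec hk) _), rfl⟩) hfin
  have key := hHEI K k (m - 2 * k) t J L₁ L₂ (by omega) ?_ ?_
  · refine key.trans (Nat.mul_le_mul_left _ ?_)
    refine Set.ncard_le_ncard_of_injOn (fun p => (-p.1, fun i => F.σ (p.2 i))) ?_ ?_
      (Set.toFinite _)
    · intro p hp
      rw [Set.mem_ofPred_eq] at hp ⊢
      rw [T_eq hk]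
      have h1 := (hJ _).1 hp
      simp only [neg_neg, F.inv]
      exact h1
    · intro p _ p' _ h
      have h1 := congrArg Prod.fst h
      have h2 := congrArg Prod.snd h
      simp only at h1 h2
      refine Prod.ext (neg_injective h1) ?_
      funext i
      have h3 := congrFun h2 i
      exact F.σ.injective h3
  · intro X hX Y hY
    rw [hJ, ← comm (ea hk) (eb hk) (ec hk) (eb_inj hk) (ea_eb hk) (eb_ec hk) X Y]
    have h1 := (hL₁ X).1 hX
    have h2 := (hL₂ Y).1 hY
    exact mul_mem (mul_mem (mul_mem h1 h2) (inv_mem h1)) (inv_mem h2)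
  · refine le_trans ?_ hrel
    rw [sq]
    exact Nat.mul_le_mul hi₁ hi₂

end Pool.Agent.Lib.MP66ef6b.CL
end

section
set_option autoImplicit false

/-!
# MP_66ef6b_al, THEOREM L2: module PRV
-/

namespace Pool.Agent.Lib.MP66ef6b.CL

open Matrix

namespace PRVM

section

variable {K : Type} [Field K] {F : FD K} {V₀ : Type} [AddCommGroup V₀] [Module K V₀]
  {S₀ : Sq F V₀} {m : ℕ}

theorem B_ee (i j : Fin m) : (S₀.std m).B (eV K V₀ i) (eV K V₀ j) = 0 := by
  simp only [std_B, eV, single_dotProduct, zero_dotProduct, S₀.B_zero_left, Pi.zero_apply, map_zero,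
    mul_zero, add_zero]

theorem B_ef (i j : Fin m) : (S₀.std m).B (eV K V₀ i) (fV K V₀ j) = if i = j then 1 else 0 := by
  simp only [std_B, eV, fV, single_dotProduct, zero_dotProduct, S₀.B_zero_left, mul_zero, add_zero,
    one_mul, Pi.single_apply]
  split_ifs <;> simp

theorem B_fe (i j : Fin m) : (S₀.std m).B (fV K V₀ i) (eV K V₀ j) = if i = j then F.ε else 0 := by
  simp only [std_B, eV, fV, single_dotProduct, zero_dotProduct, S₀.B_zero_left, add_zero,
    zero_add, one_mul, Pi.single_apply]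
  split_ifs <;> simp

theorem q_e (i : Fin m) : (S₀.std m).q (eV K V₀ i) = 0 := by
  simp only [std_q, eV, single_dotProduct, S₀.q_zero, Pi.zero_apply, map_zero, mul_zero, add_zero]

theorem q_f (i : Fin m) : (S₀.std m).q (fV K V₀ i) = 0 := by
  simp only [std_q, fV, zero_dotProduct, S₀.q_zero, add_zero]

theorem sg_e (i : Fin m) : (S₀.std m).Sg (eV K V₀ i) := by
  rw [Sq.Sg, q_e]
  exact F.Λ.zero_mem

theorem sg_f (i : Fin m) : (S₀.std m).Sg (fV K V₀ i) := by
  rw [Sq.Sg, q_f]
  exact F.Λ.zero_mem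

theorem sg_map {V : Type} [AddCommGroup V] [Module K V] {S : Sq F V} {g : V ≃ₗ[K] V}
    (hg : g ∈ S.Iso) {x : V} (h : S.Sg x) : S.Sg (g x) := by
  have := F.Λ.add_mem (hg.2 x) h
  rwa [sub_add_cancel] at this

theorem li_map {V : Type} [AddCommGroup V] [Module K V] (g : V ≃ₗ[K] V) {x y : V}
    (h : LinearIndependent K ![x, y]) : LinearIndependent K ![g x, g y] := by
  rw [LinearIndependent.pair_iff] at h ⊢
  intro s t hst
  apply h s t
  apply g.injective
  rw [map_add, map_smul, map_smul, hst, map_zero]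

theorem tps_map {V : Type} [AddCommGroup V] [Module K V] {S : Sq F V} {g : V ≃ₗ[K] V}
    (hg : g ∈ S.Iso) {x y : V} (h : (x, y) ∈ S.TPs) : (g x, g y) ∈ S.TPs := by
  obtain ⟨h1, h2, h3, h4⟩ := h
  refine ⟨sg_map hg h1, sg_map hg h2, ?_, li_map g h4⟩
  change S.B (g x) (g y) = 0
  rw [hg.1]
  exact h3

theorem li_ee {i j : Fin m} (hij : i ≠ j) : LinearIndependent K ![eV K V₀ i, eV K V₀ j] := by
  rw [LinearIndependent.pair_iff]
  intro s t hst
  have h1 := congrArg (fun v : SV K V₀ m => v.1 i) hst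
  have h2 := congrArg (fun v : SV K V₀ m => v.1 j) hst
  simp only [eV, Prod.fst_add, Prod.smul_fst, Prod.fst_zero, Pi.add_apply, Pi.smul_apply,
    Pi.zero_apply, Pi.single_eq_same, Pi.single_eq_of_ne hij, Pi.single_eq_of_ne hij.symm,
    smul_eq_mul, mul_one, mul_zero, add_zero, zero_add] at h1 h2
  exact ⟨h1, h2⟩

theorem li_fe (i j : Fin m) : LinearIndependent K ![fV K V₀ i, eV K V₀ j] := by
  rw [LinearIndependent.pair_iff]
  intro s t hst
  have h1 := congrArg (fun v : SV K V₀ m => v.2.1 i) hst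
  have h2 := congrArg (fun v : SV K V₀ m => v.1 j) hst
  simp only [eV, fV, Prod.fst_add, Prod.snd_add, Prod.smul_fst, Prod.smul_snd, Prod.fst_zero,
    Prod.snd_zero, Pi.add_apply, Pi.smul_apply, Pi.zero_apply, Pi.single_eq_same, smul_eq_mul,
    mul_one, mul_zero, add_zero, zero_add] at h1 h2
  exact ⟨h1, h2⟩

end

end PRVM

open PRVM

theorem specPRV (hWT1 : SpecWT1) : SpecPRV := by
  intro K _ F V₀ _ _ S₀ m hm hN x hx hx0
  obtain ⟨k, rfl⟩ : ∃ k, m = k + 2 := ⟨m - 2, by omega⟩
  have h01 : (0 : Fin (k + 2)) ≠ 1 := by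
    intro h
    have := congrArg Fin.val h
    simp at this
  have he0 : eV K V₀ (0 : Fin (k + 2)) ≠ 0 := by
    intro h
    have := congrArg (fun v : SV K V₀ (k + 2) => v.1 0) h
    simp [eV] at this
  obtain ⟨g, hg, hgx⟩ := hWT1 K F V₀ S₀ (k + 2) hm hN x (eV K V₀ 0) hx0 he0 (by
    rw [q_e, sub_zero]
    exact hx)
  have hgi : g ∈ (S₀.std (k + 2)).Iso := Sq.D_le_Iso _ hg
  have hgi' : g⁻¹ ∈ (S₀.std (k + 2)).Iso := inv_mem hgi
  have hxe : g⁻¹ (eV K V₀ 0) = x := by
    rw [← hgx, ← LinearEquiv.mul_apply, inv_mul_cancel, LinearEquiv.coe_one, id_eq]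
  refine ⟨g⁻¹ (fV K V₀ 0), g⁻¹ (eV K V₀ 1), tps_map hgi' ?_, ?_, ?_⟩
  · exact ⟨sg_f _, sg_e _, by rw [B_fe, if_neg h01], li_fe _ _⟩
  · rw [← hxe]
    exact tps_map hgi' ⟨sg_e _, sg_e _, B_ee _ _, li_ee h01⟩
  · rw [← hxe, hgi'.1, B_ef, if_pos rfl]

end Pool.Agent.Lib.MP66ef6b.CL
end

section
set_option autoImplicit false

/-!
# MP_66ef6b_al, THEOREM L2, module QSZ: the size of `K / Λ`
-/

namespace Pool.Agent.Lib.MP66ef6b.CL

namespace QSZM

variable {K : Type} [Field K] [Finite K] (F : FD K)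

/-- the map `c ↦ (c - σ c) / y₀`. -/
noncomputable def mp (y₀ : K) : K →+ K where
  toFun c := (c - F.σ c) / y₀
  map_zero' := by simp
  map_add' a b := by
    simp only [map_add]
    ring

theorem card_unitary (h1 : ∃ a, F.σ a ≠ a) (h2 : ∀ a, a ∈ F.Λ ↔ F.σ a = a) :
    Nat.card (K ⧸ F.Λ) ^ 2 ≤ Nat.card K := by
  obtain ⟨a, ha⟩ := h1
  have hy : a - F.σ a ≠ 0 := fun h => ha (sub_eq_zero.1 h).symm
  have hker : F.Λ = (mp F (a - F.σ a)).ker := by
    ext c
    rw [h2, AddMonoidHom.mem_ker]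
    change F.σ c = c ↔ (c - F.σ c) / (a - F.σ a) = 0
    rw [div_eq_zero_iff]
    constructor
    · intro h; left; rw [h]; ring
    · rintro (h | h)
      · exact (sub_eq_zero.1 h).symm
      · exact absurd h hy
  have hran : (mp F (a - F.σ a)).range ≤ F.Λ := by
    rintro _ ⟨c, rfl⟩
    rw [h2]
    change F.σ ((c - F.σ c) / (a - F.σ a)) = (c - F.σ c) / (a - F.σ a)
    rw [map_div₀, map_sub, map_sub, F.inv, F.inv]
    have h3 : F.σ a - a ≠ 0 := sub_ne_zero.2 ha
    field_simp
    ring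
  have hle : Nat.card (K ⧸ F.Λ) ≤ Nat.card F.Λ := by
    have e1 : Nat.card (K ⧸ F.Λ) = Nat.card (mp F (a - F.σ a)).range := by
      rw [hker]
      exact Nat.card_congr (QuotientAddGroup.quotientKerEquivRange (mp F (a - F.σ a))).toEquiv
    rw [e1]
    exact Nat.card_le_card_of_injective (AddSubgroup.inclusion hran)
      (AddSubgroup.inclusion_injective hran)
  have hmul := AddSubgroup.card_eq_card_quotient_mul_card_addSubgroup F.Λ
  rw [hmul, sq]
  exact Nat.mul_le_mul_left _ hle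

end QSZM

theorem specQSZ : SpecQSZ := by
  intro K _ F V₀ _ _ S₀ m h
  haveI := h.finK
  haveI := h.finV
  set n := Module.finrank K V₀ with hn
  have hq : 1 < Nat.card K := Finite.one_lt_card
  have hcard : Nat.card (SV K V₀ m) = Nat.card K ^ (2 * m + n) := by
    rw [Nat.card_prod, Nat.card_prod, Nat.card_fun, Nat.card_fin,
      Module.natCard_eq_pow_finrank (K := K) (V := V₀), ← hn]
    ring
  have hm := h.rk
  rw [hcard]
  rcases F.typ with ⟨_, _, h3⟩ | ⟨_, _, h3⟩ | ⟨h1, _, h3⟩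
  · have h4 : 7 ≤ 2 * m + n := by
      rcases h.big with h5 | h5
      · exact absurd h3 h5
      · exact h5
    have e1 : Nat.card (K ⧸ F.Λ) = Nat.card K := by
      rw [h3]
      exact Nat.card_congr (QuotientAddGroup.quotientBot (G := K)).toEquiv
    rw [e1, ← pow_add]
    exact Nat.pow_lt_pow_right hq (by omega)
  · have e1 : Nat.card (K ⧸ F.Λ) = 1 := by
      rw [h3]
      haveI := QuotientAddGroup.subsingleton_quotient_top (G := K)
      exact Nat.card_unique
    rw [e1, one_pow, one_mul]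
    exact Nat.pow_lt_pow_right hq (by omega)
  · have h4 := QSZM.card_unitary F h1 h3
    calc Nat.card (K ⧸ F.Λ) ^ 2 * Nat.card K ^ 4 ≤ Nat.card K * Nat.card K ^ 4 :=
          Nat.mul_le_mul_right _ h4
      _ = Nat.card K ^ 5 := by ring
      _ < Nat.card K ^ (2 * m + n) := Nat.pow_lt_pow_right hq (by omega)

end Pool.Agent.Lib.MP66ef6b.CL
end

section
set_option autoImplicit false

/-!
# MP_66ef6b_al, CL, module RK1 (helper25): the scalar is 1
-/

namespace Pool.Agent.Lib.MP66ef6b.CL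

universe u

namespace RK1M

variable {K : Type} [Field K] {F : FD K} {V : Type} [AddCommGroup V] [Module K V] (S : Sq F V)

/-- the linear functionals `B(., u i)` -/
def fn {n : ℕ} (u : Fin n → V) : V →ₗ[K] (Fin n → K) where
  toFun v i := S.B v (u i)
  map_add' v w := by
    ext i
    exact S.B_add_left v w (u i)
  map_smul' c v := by
    ext i
    exact S.B_smul_left c v (u i)

theorem exists_orth [Module.Finite K V] {n : ℕ} (u : Fin n → V) (h : n < Module.finrank K V) :
    ∃ v : V, v ≠ 0 ∧ ∀ i, S.B v (u i) = 0 := by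
  have h1 : LinearMap.ker (fn S u) ≠ ⊥ := by
    apply LinearMap.ker_ne_bot_of_finrank_lt
    rw [Module.finrank_fin_fun]
    exact h
  obtain ⟨v, hv, hv0⟩ := (Submodule.ne_bot_iff _).1 h1
  exact ⟨v, hv0, fun i => congrFun (LinearMap.mem_ker.1 hv) i⟩

theorem adm0 {y z : V} (h : (y, z) ∈ S.TPs) : S.Adm y z 0 := by
  obtain ⟨h1, h2, h3, -⟩ := h
  refine ⟨h1, h3, ?_⟩
  rw [zero_sub]
  exact F.Λ.neg_mem h2

theorem fix {x w : V} {a : K} (h : S.Adm x w a) {v : V} (h1 : S.B v x = 0) (h2 : S.B v w = 0) :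
    S.T x w a v = v := by
  rw [Sq.T_apply h, h1, h2]
  simp

end RK1M

open RK1M in
theorem specRK1 : SpecRK1 := by
  intro K _ F V₀ _ _ _ S₀ m hm x w y z a hadm hyz c τ hτ heq
  have hdim : 6 < Module.finrank K (SV K V₀ m) := by
    rw [Module.finrank_prod, Module.finrank_prod, Module.finrank_fin_fun]
    omega
  obtain ⟨v, hv0, hv⟩ := exists_orth (S₀.std m) ![x, w, y, z, τ.1, τ.2] hdim
  have hyz0 := adm0 (S₀.std m) hyz
  have hτ0 : (S₀.std m).Adm τ.1 τ.2 0 := adm0 (S₀.std m) hτ
  have e1 : (S₀.std m).T y z 0 v = v := fix (S₀.std m) hyz0 (hv 2) (hv 3)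
  have e2 : (S₀.std m).T x w a v = v := fix (S₀.std m) hadm (hv 0) (hv 1)
  have e3 : (S₀.std m).T τ.1 τ.2 0 v = v := fix (S₀.std m) hτ0 (hv 4) (hv 5)
  have hc : c = 1 := by
    have h := heq v
    rw [e1, e2, e3] at h
    have h2 : (1 - c) • v = 0 := by
      rw [sub_smul, one_smul, ← h, sub_self]
    rcases smul_eq_zero.1 h2 with h3 | h3
    · exact (sub_eq_zero.1 h3).symm
    · exact absurd h3 hv0
  subst hc
  have hle : LinearMap.range (((S₀.std m).T x w a * (S₀.std m).T y z 0).toLinearMap -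
      LinearMap.id) ≤ Submodule.span K (Set.range ![τ.1, τ.2]) := by
    rintro _ ⟨u, rfl⟩
    have h1 : (S₀.std m).T x w a ((S₀.std m).T y z 0 u) - u =
        (S₀.std m).B u τ.1 • τ.2 -
          (F.ε * ((S₀.std m).B u τ.2 + 0 * (S₀.std m).B u τ.1)) • τ.1 := by
      rw [heq u, one_smul, Sq.T_apply hτ0]
      abel
    show (S₀.std m).T x w a ((S₀.std m).T y z 0 u) - u ∈ _
    rw [h1]
    refine Submodule.sub_mem _ (Submodule.smul_mem _ _ (Submodule.subset_span ⟨1, rfl⟩))
      (Submodule.smul_mem _ _ (Submodule.subset_span ⟨0, rfl⟩))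
  unfold rk
  refine (Submodule.finrank_mono hle).trans ?_
  have h2 := finrank_range_le_card (R := K) (b := ![τ.1, τ.2])
  simpa [Set.finrank] using h2

end Pool.Agent.Lib.MP66ef6b.CL
end

section
set_option autoImplicit false

/-!
# MP_66ef6b_al, THEOREM L2, module RK2 (helper21)
-/

namespace Pool.Agent.Lib.MP66ef6b.CL

namespace RK2M

section gen

variable {K : Type} [Field K] {F : FD K} {V : Type} [AddCommGroup V] [Module K V] (S : Sq F V)

/-- the functionals `B(v, u_i)`. -/
def ev {n : ℕ} (u : Fin n → V) : V →ₗ[K] (Fin n → K) where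
  toFun v := fun i => S.B v (u i)
  map_add' v w := by
    funext i
    exact S.B_add_left v w (u i)
  map_smul' c v := by
    funext i
    exact S.B_smul_left c v (u i)

theorem B_sum_right {n : ℕ} (v : V) (c : Fin n → K) (u : Fin n → V) :
    S.B v (∑ i, F.σ (c i) • u i) = ∑ i, c i * S.B v (u i) := by
  have h : ∀ s : Finset (Fin n), S.B v (∑ i ∈ s, F.σ (c i) • u i) =
      ∑ i ∈ s, c i * S.B v (u i) := by
    classical
    intro s
    induction s using Finset.induction_on with
    | empty => rw [Finset.sum_empty, Finset.sum_empty, S.B_zero_right]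
    | insert i s hi ih =>
      rw [Finset.sum_insert hi, Finset.sum_insert hi, S.B_add_right, ih, S.B_smul_right, F.inv]
  exact h Finset.univ

/-- independent vectors give independent functionals. -/
theorem onto (hS : S.Nd) {n : ℕ} {u : Fin n → V} (hu : LinearIndependent K u) (c : Fin n → K) :
    ∃ v, ∀ i, S.B v (u i) = c i := by
  have h1 : LinearMap.range (ev S u) = ⊤ := by
    by_contra hne
    obtain ⟨φ, hφ, hle⟩ := Submodule.exists_le_ker_of_lt_top _ (lt_top_iff_ne_top.2 hne)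
    apply hφ
    classical
    have h2 : ∀ v, ∑ i, φ (Pi.single i 1) * S.B v (u i) = 0 := by
      intro v
      have h3 : φ (ev S u v) = 0 := hle ⟨v, rfl⟩
      have h4 : ev S u v = ∑ i, S.B v (u i) • (Pi.single i (1 : K) : Fin n → K) := by
        funext j
        simp [ev, Finset.sum_apply, Pi.single_apply]
      rw [h4, map_sum] at h3
      rw [← h3]
      refine Finset.sum_congr rfl fun i _ => ?_
      rw [map_smul, smul_eq_mul, mul_comm]
    have h5 : ∑ i, F.σ (φ (Pi.single i 1)) • u i = 0 := by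
      apply hS
      intro w
      apply S.B_eq_zero_swap
      rw [B_sum_right]
      exact h2 w
    have h6 := Fintype.linearIndependent_iff.1 hu _ h5
    refine LinearMap.pi_ext' fun i => ?_
    refine LinearMap.ext_ring ?_
    have h7 : F.σ (F.σ (φ (Pi.single i 1))) = 0 := by
      rw [h6 i, map_zero]
    rw [F.inv] at h7
    exact h7
  have h2 : c ∈ LinearMap.range (ev S u) := by
    rw [h1]
    trivial
  obtain ⟨v, hv⟩ := h2
  exact ⟨v, fun i => congrFun hv i⟩

variable {S}

/-- vectors in the range of `T x w a * T y z 0 - 1`. -/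
theorem mem_range {x w y z : V} {a : K} (h : S.Adm x w a) (hyz : S.Adm y z 0) (hz : S.Sg z)
    (v : V) :
    S.B v x • w - (F.ε * (S.B v w + a * S.B v x)) • x + S.B v y • z - (F.ε * S.B v z) • y ∈
      LinearMap.range ((S.T x w a * S.T y z 0).toLinearMap - LinearMap.id) := by
  have hy := hyz.sg
  have e1 : S.B y z = 0 := hyz.orth
  have e2 : S.B z y = 0 := hyz.orth'
  have e3 : S.B y y = 0 := hy.self
  have e4 : S.B z z = 0 := hz.self
  refine ⟨v - S.B v y • z + (F.ε * S.B v z) • y, ?_⟩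
  have h1 : S.T y z 0 (v - S.B v y • z + (F.ε * S.B v z) • y) = v := by
    rw [Sq.T_apply hyz]
    simp only [S.B_add_left, S.B_sub_left, S.B_smul_left, e1, e2, e3, e4, mul_zero, zero_mul,
      add_zero, sub_zero]
    abel
  rw [LinearMap.sub_apply, LinearMap.id_apply, LinearEquiv.coe_coe, LinearEquiv.mul_apply, h1,
    Sq.T_apply h]
  abel

omit [AddCommGroup V] in
theorem li_range {x y z : V} : Set.range ![x, y, z] = {x, y, z} := by
  ext v
  simp only [Set.mem_range, Set.mem_insert_iff, Set.mem_singleton_iff]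
  constructor
  · rintro ⟨i, rfl⟩
    fin_cases i
    · exact Or.inl rfl
    · exact Or.inr (Or.inl rfl)
    · exact Or.inr (Or.inr rfl)
  · rintro (rfl | rfl | rfl)
    · exact ⟨0, rfl⟩
    · exact ⟨1, rfl⟩
    · exact ⟨2, rfl⟩

omit [AddCommGroup V] in
theorem li_range2 {y z : V} : Set.range ![y, z] = {y, z} := by
  ext v
  simp only [Set.mem_range, Set.mem_insert_iff, Set.mem_singleton_iff]
  constructor
  · rintro ⟨i, rfl⟩
    fin_cases i
    · exact Or.inl rfl
    · exact Or.inr rfl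
  · rintro (rfl | rfl)
    · exact ⟨0, rfl⟩
    · exact ⟨1, rfl⟩

/-- three independent vectors in the range -/
theorem rank_ge [Module.Finite K V] {φ : V →ₗ[K] V} {w y z : V}
    (hli : LinearIndependent K ![w, y, z]) (h1 : w ∈ LinearMap.range φ)
    (h2 : y ∈ LinearMap.range φ) (h3 : z ∈ LinearMap.range φ) :
    3 ≤ Module.finrank K (LinearMap.range φ) := by
  have h4 := finrank_span_eq_card hli
  rw [Fintype.card_fin] at h4
  have h5 : Submodule.span K (Set.range ![w, y, z]) ≤ LinearMap.range φ := by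
    rw [Submodule.span_le]
    rintro _ ⟨i, rfl⟩
    fin_cases i
    · exact h1
    · exact h2
    · exact h3
  have h6 := Submodule.finrank_mono h5
  omega

end gen

theorem nd_std {K : Type} [Field K] {F : FD K} {V₀ : Type} [AddCommGroup V₀] [Module K V₀]
    {S₀ : Sq F V₀} {m : ℕ} (h : S₀.Nd) : (S₀.std m).Nd := by
  intro v hv
  have h1 : v.1 = 0 := by
    funext i
    have := hv (fV K V₀ i)
    rwa [AT2M.B_fV] at this
  have h2 : v.2.1 = 0 := by
    funext i
    have h3 := hv (eV K V₀ i)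
    rw [AT2M.B_eV] at h3
    exact (mul_eq_zero.1 h3).resolve_left F.e0
  have h3 : v.2.2 = 0 := by
    apply h
    intro u
    have h4 := hv (0, 0, u)
    rw [std_B, h1, h2] at h4
    simpa using h4
  exact Prod.ext h1 (Prod.ext h2 h3)

end RK2M

open RK2M in
theorem specRK2 : SpecRK2 := by
  intro K _ F V₀ _ _ _ S₀ m hnd x w y z a hxw hx0 hyz hw hrk
  have hN : (S₀.std m).Nd := nd_std hnd
  obtain ⟨hy, hz, hyz0, hli⟩ := hyz
  have hadm : (S₀.std m).Adm y z 0 := ⟨hy, hyz0, by
    rw [zero_sub]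
    exact F.Λ.neg_mem hz⟩
  have hmem := fun v => mem_range hxw hadm hz v
  have hee : F.ε * F.ε = 1 := F.ee
  have hyzs : Submodule.span K {y, z} ≤ Submodule.span K {x, y, z} :=
    Submodule.span_mono (fun v hv => Or.inr hv)
  have hliw : LinearIndependent K ![w, y, z] := by
    have h1 : LinearIndependent K (Fin.cons w ![y, z] : Fin 3 → SV K V₀ m) := by
      rw [linearIndependent_finCons]
      refine ⟨hli, fun h => hw (hyzs ?_)⟩
      rwa [li_range2] at h
    exact h1
  by_cases hx : x ∈ Submodule.span K {y, z}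
  · obtain ⟨α, β, hαβ⟩ := Submodule.mem_span_pair.1 hx
    refine ⟨α, β, hαβ.symm, ?_⟩
    by_contra hne
    have hd : F.σ α * β - F.ε * α * F.σ β ≠ 0 := sub_ne_zero.2 hne
    set d := F.σ α * β - F.ε * α * F.σ β with hdd
    -- the vectors with given values
    have key : ∀ P Q s : K, (F.σ α * P + F.σ β * Q) • w + (-(F.ε * α * s) - F.ε * Q) • y +
        (-(F.ε * β * s) + P) • z ∈ LinearMap.range
          (((S₀.std m).T x w a * (S₀.std m).T y z 0).toLinearMap - LinearMap.id) := by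
      intro P Q s
      obtain ⟨v, hv⟩ := onto (S₀.std m) hN hliw ![s - a * (F.σ α * P + F.σ β * Q), P, Q]
      have v0 : (S₀.std m).B v w = s - a * (F.σ α * P + F.σ β * Q) := hv 0
      have v1 : (S₀.std m).B v y = P := hv 1
      have v2 : (S₀.std m).B v z = Q := hv 2
      have v3 : (S₀.std m).B v x = F.σ α * P + F.σ β * Q := by
        rw [← hαβ, (S₀.std m).B_add_right, (S₀.std m).B_smul_right, (S₀.std m).B_smul_right,
          v1, v2]
      have h1 := hmem v
      rw [v0, v1, v2, v3] at h1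
      have h2 : (F.σ α * P + F.σ β * Q) • w + (-(F.ε * α * s) - F.ε * Q) • y +
          (-(F.ε * β * s) + P) • z = (F.σ α * P + F.σ β * Q) • w -
          (F.ε * (s - a * (F.σ α * P + F.σ β * Q) + a * (F.σ α * P + F.σ β * Q))) • x +
            P • z - (F.ε * Q) • y := by
        rw [sub_add_cancel, ← hαβ]
        module
      rw [h2]
      exact h1
    have h1 : w ∈ LinearMap.range
        (((S₀.std m).T x w a * (S₀.std m).T y z 0).toLinearMap - LinearMap.id) := by
      have h := key (F.ε * β * (F.ε / d)) (-(α * (F.ε / d))) (F.ε / d)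
      have e1 : F.σ α * (F.ε * β * (F.ε / d)) + F.σ β * (-(α * (F.ε / d))) = 1 := by
        have : F.σ α * (F.ε * β * (F.ε / d)) + F.σ β * (-(α * (F.ε / d))) =
            (F.σ α * β * (F.ε * F.ε) - F.ε * α * F.σ β) / d := by ring
        rw [this, hee, mul_one, div_self hd]
      have e2 : -(F.ε * α * (F.ε / d)) - F.ε * (-(α * (F.ε / d))) = 0 := by ring
      have e3 : -(F.ε * β * (F.ε / d)) + F.ε * β * (F.ε / d) = 0 := by ring
      rw [e1, e2, e3] at h
      simpa using h
    have h2 : y ∈ LinearMap.range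
        (((S₀.std m).T x w a * (S₀.std m).T y z 0).toLinearMap - LinearMap.id) := by
      have h := key (F.ε * β * (F.σ β / d)) (-(α * (F.σ β / d)) - F.ε) (F.σ β / d)
      have e1 : F.σ α * (F.ε * β * (F.σ β / d)) + F.σ β * (-(α * (F.σ β / d)) - F.ε) = 0 := by
        have : F.σ α * (F.ε * β * (F.σ β / d)) + F.σ β * (-(α * (F.σ β / d)) - F.ε) =
            F.σ β * (F.ε * (F.σ α * β) - α * F.σ β) / d - F.σ β * F.ε := by ring
        rw [this]
        have h3 : F.ε * (F.σ α * β) - α * F.σ β = F.ε * d := by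
          rw [hdd]
          linear_combination (α * F.σ β) * hee
        rw [h3, ← mul_assoc, mul_div_assoc, div_self hd]
        ring
      have e2 : -(F.ε * α * (F.σ β / d)) - F.ε * (-(α * (F.σ β / d)) - F.ε) = 1 := by
        linear_combination hee
      have e3 : -(F.ε * β * (F.σ β / d)) + F.ε * β * (F.σ β / d) = 0 := by ring
      rw [e1, e2, e3] at h
      simpa using h
    have h3 : z ∈ LinearMap.range
        (((S₀.std m).T x w a * (S₀.std m).T y z 0).toLinearMap - LinearMap.id) := by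
      have h := key (1 + F.ε * β * (-(F.ε * F.σ α / d))) (-(α * (-(F.ε * F.σ α / d))))
        (-(F.ε * F.σ α / d))
      have e1 : F.σ α * (1 + F.ε * β * (-(F.ε * F.σ α / d))) +
          F.σ β * (-(α * (-(F.ε * F.σ α / d)))) = 0 := by
        have : F.σ α * (1 + F.ε * β * (-(F.ε * F.σ α / d))) +
            F.σ β * (-(α * (-(F.ε * F.σ α / d)))) =
            F.σ α - F.σ α * (F.ε * F.ε * (F.σ α * β) - F.ε * α * F.σ β) / d := by ring
        rw [this, hee, one_mul, ← hdd, mul_div_assoc, div_self hd]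
        ring
      have e2 : -(F.ε * α * (-(F.ε * F.σ α / d))) - F.ε * (-(α * (-(F.ε * F.σ α / d)))) = 0 := by
        ring
      have e3 : -(F.ε * β * (-(F.ε * F.σ α / d))) + (1 + F.ε * β * (-(F.ε * F.σ α / d))) = 1 := by
        ring
      rw [e1, e2, e3] at h
      simpa using h
    have h4 := rank_ge hliw h1 h2 h3
    have h5 : Module.finrank K (LinearMap.range
        (((S₀.std m).T x w a * (S₀.std m).T y z 0).toLinearMap - LinearMap.id)) ≤ 2 := hrk
    omega
  · exfalso
    have hli3 : LinearIndependent K ![x, y, z] := by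
      have h1 : LinearIndependent K (Fin.cons x ![y, z] : Fin 3 → SV K V₀ m) := by
        rw [linearIndependent_finCons]
        refine ⟨hli, fun h => hx ?_⟩
        rwa [li_range2] at h
      exact h1
    have hli4 : LinearIndependent K ![w, x, y, z] := by
      have h1 : LinearIndependent K (Fin.cons w ![x, y, z] : Fin 4 → SV K V₀ m) := by
        rw [linearIndependent_finCons]
        refine ⟨hli3, fun h => hw ?_⟩
        rwa [li_range] at h
      exact h1
    have key : ∀ A P Q : K, A • w + P • z - (F.ε * Q) • y ∈ LinearMap.range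
          (((S₀.std m).T x w a * (S₀.std m).T y z 0).toLinearMap - LinearMap.id) := by
      intro A P Q
      obtain ⟨v, hv⟩ := onto (S₀.std m) hN hli4 ![-(a * A), A, P, Q]
      have v0 : (S₀.std m).B v w = -(a * A) := hv 0
      have v1 : (S₀.std m).B v x = A := hv 1
      have v2 : (S₀.std m).B v y = P := hv 2
      have v3 : (S₀.std m).B v z = Q := hv 3
      have h1 := hmem v
      rw [v0, v1, v2, v3] at h1
      have h2 : A • w + P • z - (F.ε * Q) • y = A • w - (F.ε * (-(a * A) + a * A)) • x +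
          P • z - (F.ε * Q) • y := by
        rw [neg_add_cancel, mul_zero, zero_smul, sub_zero]
      rw [h2]
      exact h1
    have h1 := key 1 0 0
    have h2 := key 0 1 0
    have h3 := key 0 0 (-F.ε)
    rw [one_smul, zero_smul, add_zero, mul_zero, zero_smul, sub_zero] at h1
    rw [one_smul, zero_smul, zero_add, mul_zero, zero_smul, sub_zero] at h2
    have e3 : F.ε * -F.ε = -1 := by
      linear_combination (-1 : K) * hee
    rw [e3, zero_smul, zero_smul, add_zero, neg_smul, one_smul, zero_sub, neg_neg] at h3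
    have h4 := rank_ge hliw h1 h3 h2
    have h5 : Module.finrank K (LinearMap.range
        (((S₀.std m).T x w a * (S₀.std m).T y z 0).toLinearMap - LinearMap.id)) ≤ 2 := hrk
    omega

end Pool.Agent.Lib.MP66ef6b.CL
end

section
/-!
# MP_66ef6b_al, CL: RK3, Siegel transformations with the same plane
-/
set_option autoImplicit false

namespace Pool.Agent.Lib.MP66ef6b.CL

namespace RK3M

variable {K : Type} [Field K] {F : FD K} {V : Type} [AddCommGroup V] [Module K V] {S : Sq F V}

theorem adm {x z : V} (hx : S.Sg x) (hz : S.Sg z) (h : S.B x z = 0) : S.Adm x z 0 where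
  sg := hx
  orth := h
  par := by
    rw [zero_sub]
    exact F.Λ.neg_mem hz

theorem main {y z : V} (h : (y, z) ∈ S.TPs) (α β γ δ : K)
    (h1 : F.σ α * γ = F.ε * F.σ γ * α) (h2 : F.σ α * δ - F.ε * F.σ γ * β = 1)
    (h3 : F.σ β * γ - F.ε * F.σ δ * α = -F.ε) (h4 : F.σ β * δ = F.ε * F.σ δ * β)
    (hd : α * δ - β * γ ≠ 0) :
    (α • y + β • z, γ • y + δ • z) ∈ S.TPs ∧
      S.T y z 0 = S.T (α • y + β • z) (γ • y + δ • z) 0 := by
  obtain ⟨hy, hz, hyz, hli⟩ := h
  simp only at hy hz hyz hli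
  have hzy : S.B z y = 0 := S.B_eq_zero_swap hyz
  have hyy : S.B y y = 0 := hy.self
  have hzz : S.B z z = 0 := hz.self
  have hsg : ∀ a b : K, S.Sg (a • y + b • z) := by
    intro a b
    refine (hy.smul a).add (hz.smul b) ?_
    rw [S.B_smul_left, S.B_smul_right, hyz, mul_zero, mul_zero]
  have hB : ∀ a b c d : K, S.B (a • y + b • z) (c • y + d • z) = 0 := by
    intro a b c d
    simp only [S.B_add_left, S.B_add_right, S.B_smul_left, S.B_smul_right, hyz, hzy, hyy, hzz,
      mul_zero, add_zero]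
  refine ⟨⟨hsg _ _, hsg _ _, hB _ _ _ _, ?_⟩, ?_⟩
  · rw [LinearIndependent.pair_iff] at hli ⊢
    intro s t hst
    have h5 : (s * α + t * γ) • y + (s * β + t * δ) • z = 0 := by
      rw [← hst]
      module
    obtain ⟨h6, h7⟩ := hli _ _ h5
    have h8 : s * (α * δ - β * γ) = 0 := by linear_combination δ * h6 - γ * h7
    have h9 : t * (α * δ - β * γ) = 0 := by linear_combination α * h7 - β * h6
    exact ⟨(mul_eq_zero.1 h8).resolve_right hd, (mul_eq_zero.1 h9).resolve_right hd⟩
  · ext v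
    rw [Sq.T_apply (adm hy hz hyz), Sq.T_apply (adm (hsg α β) (hsg γ δ) (hB α β γ δ))]
    simp only [S.B_add_right, S.B_smul_right]
    match_scalars
    · ring
    · linear_combination (-S.B v y) * h2 - S.B v z * h4
    · linear_combination (-S.B v y) * h1 - S.B v z * h3

end RK3M

theorem specRK3 : SpecRK3 := by
  intro K _ F V₀ _ _ S₀ m y z α β h hne hαβ
  by_cases hβ : β = 0
  · subst hβ
    have hα : α ≠ 0 := by
      rintro rfl
      apply hne
      rw [zero_smul, zero_smul, add_zero]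
    have hσ : F.σ α ≠ 0 := (map_ne_zero F.σ).2 hα
    have hm := RK3M.main h α 0 0 (F.σ α)⁻¹ (by simp) (by field_simp; simp) (by
      rw [map_inv₀, F.inv]
      field_simp
      simp) (by simp) (by
      rw [zero_mul, sub_zero]
      exact mul_ne_zero hα (inv_ne_zero hσ))
    exact ⟨_, hm.1, hm.2⟩
  · have hσ : F.σ β ≠ 0 := (map_ne_zero F.σ).2 hβ
    have he := F.ee
    have hs := F.se
    have hσγ : F.σ (-(F.ε * (F.σ β)⁻¹)) = -(F.ε * β⁻¹) := by
      rw [map_neg, map_mul, map_inv₀, F.inv, hs]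
    have hm := RK3M.main h α β (-(F.ε * (F.σ β)⁻¹)) 0 (by
      rw [hσγ]
      field_simp
      linear_combination (-F.ε) * hαβ) (by
      rw [hσγ]
      field_simp
      linear_combination he) (by
      rw [map_zero]
      field_simp
      simp) (by simp) (by
      rw [mul_zero, zero_sub]
      refine neg_ne_zero.2 (mul_ne_zero hβ (neg_ne_zero.2 (mul_ne_zero F.e0 (inv_ne_zero hσ)))))
    exact ⟨_, hm.1, hm.2⟩

end Pool.Agent.Lib.MP66ef6b.CL
end

section
/-! # CL, module RKN: the number of linear maps of rank at most `R` -/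
namespace Pool.Agent.Lib.MP66ef6b.CL

namespace RKNM

/-- A map of rank at most `R` factors through `K ^ R`. -/
theorem exists_fac {K V : Type} [Field K] [AddCommGroup V] [Module K V] [Module.Finite K V]
    (R : ℕ) (f : V →ₗ[K] V) (hf : Module.finrank K (LinearMap.range f) ≤ R) :
    ∃ (h : V →ₗ[K] (Fin R → K)) (g : (Fin R → K) →ₗ[K] V), g ∘ₗ h = f := by
  have h1 : Module.finrank K (LinearMap.range f) ≤ Module.finrank K (Fin R → K) := by
    simpa using hf
  obtain ⟨i, hi⟩ := finrank_le_iff_exists_linearMap.1 h1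
  obtain ⟨j, hj⟩ := LinearMap.exists_leftInverse_of_injective i (LinearMap.ker_eq_bot.2 hi)
  refine ⟨i ∘ₗ f.rangeRestrict, (LinearMap.range f).subtype ∘ₗ j, ?_⟩
  ext v
  have h2 : j (i (f.rangeRestrict v)) = f.rangeRestrict v := by
    have := congrArg (fun φ => φ (f.rangeRestrict v)) hj
    simpa using this
  simp [h2]

theorem card_lin {K V W : Type} [Field K] [Finite K] [AddCommGroup V] [Module K V]
    [Module.Finite K V] [AddCommGroup W] [Module K W] [Module.Finite K W] :
    Nat.card (V →ₗ[K] W) = Nat.card K ^ (Module.finrank K V * Module.finrank K W) := by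
  rw [Module.natCard_eq_pow_finrank (K := K) (V := V →ₗ[K] W), Module.finrank_linearMap]

end RKNM

open RKNM in
/-- The number of linear maps of rank at most `R`. -/
theorem specRKN : SpecRKN := by
  intro K V _ _ _ _ _ R
  classical
  have : Finite V := Module.finite_of_finite K
  have h1 : {f : V →ₗ[K] V | Module.finrank K (LinearMap.range f) ≤ R} ⊆
      (fun p : (V →ₗ[K] (Fin R → K)) × ((Fin R → K) →ₗ[K] V) => p.2 ∘ₗ p.1) '' Set.univ := by
    intro f hf
    obtain ⟨h, g, hgh⟩ := exists_fac R f hf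
    exact ⟨(h, g), Set.mem_univ _, hgh⟩
  have : Finite (V →ₗ[K] (Fin R → K)) := Module.finite_of_finite K
  have : Finite ((Fin R → K) →ₗ[K] V) := Module.finite_of_finite K
  have h2 := Set.ncard_le_ncard h1 (Set.toFinite _)
  have h3 := Set.ncard_image_le
    (f := fun p : (V →ₗ[K] (Fin R → K)) × ((Fin R → K) →ₗ[K] V) => p.2 ∘ₗ p.1)
    (Set.toFinite (Set.univ :
      Set ((V →ₗ[K] (Fin R → K)) × ((Fin R → K) →ₗ[K] V))))
  refine (h2.trans h3).trans (le_of_eq ?_)
  rw [Set.ncard_univ, Nat.card_prod, card_lin, card_lin, ← pow_add]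
  congr 1
  simp only [Module.finrank_fin_fun]
  ring

end Pool.Agent.Lib.MP66ef6b.CL
end

section
/-!
# Module RNK: the rank argument
-/
set_option autoImplicit false

namespace Pool.Agent.Lib.MP66ef6b.CL

theorem specRNK (hRK1 : SpecRK1) (hRK2 : SpecRK2) (hRK3 : SpecRK3) : SpecRNK := by
  intro K _ F V₀ _ _ _ S₀ m hm hNd x w y z a hA hx hyz hw h
  obtain ⟨c, τ, hτ, hc⟩ := h
  have h1 := hRK1 K F V₀ S₀ m hm x w y z a hA hyz c τ hτ hc
  obtain ⟨α, β, hx', hαβ⟩ := hRK2 K F V₀ S₀ m hNd x w y z a hA hx hyz hw h1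
  obtain ⟨z', hz', hz⟩ := hRK3 K F V₀ S₀ m y z α β hyz (by rw [← hx']; exact hx) hαβ
  rw [← hx'] at hz' hz
  exact ⟨z', hz', hz⟩

end Pool.Agent.Lib.MP66ef6b.CL
end

section
set_option autoImplicit false

/-! # MP_66ef6b_al, THEOREM L2: module RP2 (the representation) -/

namespace Pool.Agent.Lib.MP66ef6b.CL

universe u

open UltaM

open scoped Pointwise

namespace RP2M

variable {Y : Type u} [Group Y]

theorem cent_mul (z w : Y) :
    Subgroup.centralizer ({z} : Set Y) ⊓ Subgroup.centralizer ({w} : Set Y) ≤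
      Subgroup.centralizer ({z * w} : Set Y) := by
  rintro y ⟨h1, h2⟩
  have h3 : y * z = z * y := Subgroup.mem_centralizer_singleton_iff.1 h1
  have h4 : y * w = w * y := Subgroup.mem_centralizer_singleton_iff.1 h2
  rw [Subgroup.mem_centralizer_singleton_iff, ← mul_assoc, h3, mul_assoc, h4, mul_assoc]

theorem cent_inv (z : Y) :
    Subgroup.centralizer ({z⁻¹} : Set Y) = Subgroup.centralizer ({z} : Set Y) := by
  ext y
  rw [Subgroup.mem_centralizer_singleton_iff, Subgroup.mem_centralizer_singleton_iff]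
  constructor
  · intro h
    have h1 := congrArg (fun t => z * t * z) h
    simp only [mul_assoc, inv_mul_cancel, mul_one, mul_inv_cancel_left] at h1
    exact h1.symm
  · intro h
    have h1 := congrArg (fun t => z⁻¹ * t * z⁻¹) h
    simp only [mul_assoc, mul_inv_cancel, mul_one, inv_mul_cancel_left] at h1
    exact h1.symm

theorem cent_conj (k z : Y) (P : Subgroup Y) (hP : P.Normal) :
    (Subgroup.centralizer ({k * z * k⁻¹} : Set Y)).relIndex P =
      (Subgroup.centralizer ({z} : Set Y)).relIndex P := by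
  have h1 : MulAut.conj k • P = P := Subgroup.Normal.conj_smul_eq_self k P
  have h2 : MulAut.conj k • Subgroup.centralizer ({z} : Set Y) =
      Subgroup.centralizer ({k * z * k⁻¹} : Set Y) := by
    ext y
    rw [Subgroup.mem_pointwise_smul_iff_inv_smul_mem, Subgroup.mem_centralizer_singleton_iff,
      Subgroup.mem_centralizer_singleton_iff, ← map_inv, MulAut.smul_def, MulAut.conj_apply,
      inv_inv]
    constructor
    · intro h
      have h3 := congrArg (fun t => k * t * k⁻¹) h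
      simp only [mul_assoc, mul_inv_cancel_left] at h3
      simpa only [mul_assoc, mul_inv_cancel, mul_one] using h3
    · intro h
      have h3 := congrArg (fun t => k⁻¹ * t * k) h
      simp only [mul_assoc, inv_mul_cancel_left] at h3
      simpa only [mul_assoc, inv_mul_cancel, mul_one] using h3
  have h3 := Subgroup.relIndex_pointwise_smul (MulAut.conj k)
    (Subgroup.centralizer ({z} : Set Y)) P
  rwa [h1, h2] at h3

end RP2M

open RP2M in
theorem specRP2 (hIN2 : SpecIN2.{u}) (hUN2 : SpecUN2.{u}) (hURP : SpecURP.{u})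
    (hNRM : PL.SpecNRM.{u}) : SpecRP2.{u} := by
  classical
  intro G _ _ _ hG F hF q₀ r f hfF hf1 hdata
  obtain ⟨U, hU⟩ := exists_ultra hG F hF
  obtain ⟨N, d, hN⟩ := hIN2 q₀ r
  refine ⟨d, ?_, ?_⟩
  · have hd : ∀ E : Idx F, CData q₀ r (Nat.card E.1) f E.1 := fun E => hdata _ E.1 E.2.1 E.2.2
    choose X Y iY ρ P x K iK Fd V₀ iV iM S₀ m' π hX hEX hsurj hinj hsoc hcls hker hq hm hxf hρ
      hrel using hd
    have hgX : ∀ g : G, ∀ᶠ E in (U : Filter (Idx F)), g ∈ X E := by
      intro g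
      filter_upwards [hU g] with E hE
      exact hEX E hE
    have hbig : ∀ m : ℕ, ∀ᶠ E in (U : Filter (Idx F)), m < m' E := by
      intro m
      obtain ⟨s, hs⟩ := Infinite.exists_subset_card_eq G (m + 1)
      have h1 : ∀ᶠ E in (U : Filter (Idx F)), ∀ g ∈ s, g ∈ E.1 :=
        (Filter.eventually_all_finset s).2 fun g _ => hU g
      filter_upwards [h1] with E hE
      have h2 : (s : Set G) ⊆ (E.1 : Set G) := fun g hg => hE g hg
      have hfin : (E.1 : Set G).Finite := E.2.1
      have h3 := Set.ncard_le_ncard h2 hfin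
      rw [Set.ncard_coe_finset, hs] at h3
      have h4 : (E.1 : Set G).ncard = Nat.card E.1 := rfl
      have h5 := hm E
      omega
    have hYf : ∀ E, Finite (Y E) := fun E => by
      have := hX E
      exact Finite.of_surjective (ρ E) (hsurj E)
    let D : Idx F → G → ℕ → Prop := fun E g s => ∃ h : g ∈ X E,
      (Subgroup.centralizer ({ρ E ⟨g, h⟩} : Set (Y E))).relIndex (P E) ≤ q₀ ^ (s * m' E)
    have hfx : ∀ E : Idx F, ∃ h : f ∈ X E, (⟨f, h⟩ : X E) = x E := fun E => by
      have h1 : f ∈ X E := by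
        rw [← hxf E]
        exact (x E).2
      exact ⟨h1, Subtype.ext (hxf E).symm⟩
    have hD1 : ∀ᶠ E in (U : Filter (Idx F)), D E 1 0 := by
      refine Filter.Eventually.of_forall fun E => ⟨(X E).one_mem, ?_⟩
      have h1 : ρ E ⟨1, (X E).one_mem⟩ = 1 := map_one (ρ E)
      have h2 : Subgroup.centralizer ({ρ E ⟨1, (X E).one_mem⟩} : Set (Y E)) = ⊤ := by
        rw [h1, eq_top_iff]
        intro y _
        rw [Subgroup.mem_centralizer_singleton_iff, mul_one, one_mul]
      rw [h2, Subgroup.relIndex_top_left, zero_mul, pow_zero]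
    have hDf : ∀ᶠ E in (U : Filter (Idx F)), D E f r := by
      refine Filter.Eventually.of_forall fun E => ?_
      obtain ⟨h1, h2⟩ := hfx E
      refine ⟨h1, ?_⟩
      rw [h2]
      exact hrel E
    have hDm : ∀ (g h : G) (r s : ℕ), ∀ᶠ E in (U : Filter (Idx F)), D E g r → D E h s →
        D E (g * h) (r + s) := by
      intro g h r s
      refine Filter.Eventually.of_forall fun E => ?_
      rintro ⟨h1, h2⟩ ⟨k1, k2⟩
      refine ⟨(X E).mul_mem h1 k1, ?_⟩
      have h3 : ρ E ⟨g * h, (X E).mul_mem h1 k1⟩ = ρ E ⟨g, h1⟩ * ρ E ⟨h, k1⟩ := by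
        rw [← map_mul]
        rfl
      have := hYf E
      rw [h3]
      refine (Subgroup.relIndex_le_of_le_left (cent_mul (ρ E ⟨g, h1⟩) (ρ E ⟨h, k1⟩)) ?_).trans ?_
      · exact Subgroup.index_ne_zero_of_finite
      · refine Subgroup.relIndex_inf_le.trans ((Nat.mul_le_mul h2 k2).trans ?_)
        rw [add_mul, pow_add]
    have hDi : ∀ (g : G) (r : ℕ), ∀ᶠ E in (U : Filter (Idx F)), D E g r → D E g⁻¹ r := by
      intro g r
      refine Filter.Eventually.of_forall fun E => ?_
      rintro ⟨h1, h2⟩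
      refine ⟨(X E).inv_mem h1, ?_⟩
      have h3 : ρ E ⟨g⁻¹, (X E).inv_mem h1⟩ = (ρ E ⟨g, h1⟩)⁻¹ := by
        rw [← map_inv]
        rfl
      rw [h3, cent_inv]
      exact h2
    have hDc : ∀ (g k : G) (r : ℕ), ∀ᶠ E in (U : Filter (Idx F)), D E g r →
        D E (k * g * k⁻¹) r := by
      intro g k r
      filter_upwards [hgX k] with E hk
      rintro ⟨h1, h2⟩
      refine ⟨(X E).mul_mem ((X E).mul_mem hk h1) ((X E).inv_mem hk), ?_⟩
      have h3 : ρ E ⟨k * g * k⁻¹, (X E).mul_mem ((X E).mul_mem hk h1) ((X E).inv_mem hk)⟩ =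
          ρ E ⟨k, hk⟩ * ρ E ⟨g, h1⟩ * (ρ E ⟨k, hk⟩)⁻¹ := by
        rw [← map_inv, ← map_mul, ← map_mul]
        rfl
      rw [h3, cent_conj _ _ _ (hsoc E).normal]
      exact h2
    have hS := hNRM G (Idx F) U D f r hf1 hD1 hDf hDm hDi hDc
    have hfinK : ∀ E, Finite (K E) := fun E => (hcls E).finK
    have hfinV : ∀ E, Module.Finite (K E) (V₀ E) := fun E => (hcls E).finV
    let J : ∀ E : Idx F, G →
        (SV (K E) (V₀ E) (m' E) ≃ₗ[K E] SV (K E) (V₀ E) (m' E)) → Prop := fun E g A =>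
      ∃ h : g ∈ X E, Ind (π E) (ρ E ⟨g, h⟩) A
    refine hURP G (Idx F) U K (fun E => SV (K E) (V₀ E) (m' E)) J q₀ d f hq ?_ ?_ ?_ ?_ ?_ ?_
    · refine Filter.Eventually.of_forall fun E => ⟨(X E).one_mem, ?_⟩
      have h1 : ρ E ⟨1, (X E).one_mem⟩ = 1 := map_one (ρ E)
      rw [h1]
      exact (hUN2 (K E) (Fd E) (V₀ E) (S₀ E) (m' E) (hcls E) (Y E) (P E) (π E) (hsoc E)
        (hker E)).2.2.1
    · intro g h
      refine Filter.Eventually.of_forall fun E => ?_
      rintro A B ⟨h1, h2⟩ ⟨k1, k2⟩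
      refine ⟨(X E).mul_mem h1 k1, ?_⟩
      have h3 : ρ E ⟨g * h, (X E).mul_mem h1 k1⟩ = ρ E ⟨g, h1⟩ * ρ E ⟨h, k1⟩ := by
        rw [← map_mul]
        rfl
      rw [h3]
      exact (hUN2 (K E) (Fd E) (V₀ E) (S₀ E) (m' E) (hcls E) (Y E) (P E) (π E) (hsoc E)
        (hker E)).2.1 _ _ _ _ h2 k2
    · intro g s
      filter_upwards [hbig s] with E hE
      rintro A B ⟨h1, h2⟩ ⟨_, k2⟩ hAB
      exact (hUN2 (K E) (Fd E) (V₀ E) (S₀ E) (m' E) (hcls E) (Y E) (P E) (π E) (hsoc E)
        (hker E)).1 _ _ _ h2 k2 (by omega)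
    · intro g
      obtain ⟨s, hs⟩ := hS g
      obtain ⟨N', d', hN'⟩ := hIN2 q₀ s
      refine ⟨d', ?_⟩
      filter_upwards [hs, hbig N'] with E hE hE'
      obtain ⟨h1, h2⟩ := hE
      obtain ⟨A, hA, hr⟩ := hN' (K E) (Fd E) (V₀ E) (S₀ E) (m' E) (hcls E) (hq E) hE'.le (Y E)
        (P E) (π E) (hsoc E).normal (hker E) (ρ E ⟨g, h1⟩) h2
      exact ⟨A, ⟨h1, hA⟩, hr⟩
    · filter_upwards [hbig N] with E hE
      obtain ⟨h1, h2⟩ := hfx E
      obtain ⟨A, hA, hr⟩ := hN (K E) (Fd E) (V₀ E) (S₀ E) (m' E) (hcls E) (hq E) hE.le (Y E)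
        (P E) (π E) (hsoc E).normal (hker E) (ρ E (x E)) (hrel E)
      refine ⟨A, ⟨h1, ?_⟩, hr⟩
      rw [h2]
      exact hA
    · refine Filter.Eventually.of_forall fun E => ?_
      rintro ⟨h1, h2⟩
      obtain ⟨_, h3⟩ := hfx E
      rw [h3] at h2
      exact hρ E ((hUN2 (K E) (Fd E) (V₀ E) (S₀ E) (m' E) (hcls E) (Y E) (P E) (π E) (hsoc E)
        (hker E)).2.2.2 _ h2)
  · intro m E hE hFE
    obtain ⟨X, Y, iY, ρ, P, x, K, iK, Fd, V₀, iV, iM, S₀, m', π, hX, hEX, hsurj, hinj, hsoc, hcls,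
      hker, hq, hm, hxf, hρ, hrel⟩ := hdata (max m N) E hE hFE
    obtain ⟨A, hA, hr⟩ := hN K Fd V₀ S₀ m' hcls hq (by omega) Y P π hsoc.normal hker (ρ x) hrel
    exact ⟨X, Y, iY, ρ, P, x, K, iK, Fd, V₀, iV, iM, S₀, m', π, A, hX, hEX, hsurj, hinj, hsoc,
      hcls, hker, hq, by omega, hxf, hρ, hA, hr⟩

end Pool.Agent.Lib.MP66ef6b.CL
end

section
set_option autoImplicit false

/-!
# MP_66ef6b_al, THEOREM L2, module UN2: the relation `Ind`
-/

namespace Pool.Agent.Lib.MP66ef6b.CL

universe u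

/-- UN2. -/
theorem specUN2 (hUNL : SpecUNL.{u}) : SpecUN2.{u} := by
  intro K _ F V₀ _ _ S₀ m hC Y _ P π hP hK
  refine ⟨?_, ?_, ?_, ?_⟩
  · intro z A A' hA hA' hr
    refine hUNL K F V₀ S₀ m hC P π hK A hA.1 A' hA'.1 hr ?_
    intro g hg h h'
    apply Subtype.ext
    rw [← hA.2 ⟨g, hg⟩ h, ← hA'.2 ⟨g, hg⟩ h']
  · intro z z' A A' hA hA'
    refine ⟨Subgroup.mul_mem _ hA.1 hA'.1, ?_⟩
    intro g h
    have h1 : A' * g.1 * A'⁻¹ ∈ (S₀.std m).D ⊤ := Sq.conj_mem_D hA'.1 g.2
    have h2 : A * (A' * g.1 * A'⁻¹) * A⁻¹ ∈ (S₀.std m).D ⊤ := Sq.conj_mem_D hA.1 h1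
    have h3 := hA'.2 g h1
    have h4 := hA.2 ⟨_, h1⟩ h2
    have h5 : (⟨A * A' * g.1 * (A * A')⁻¹, h⟩ : (S₀.std m).D ⊤) =
        ⟨A * (A' * g.1 * A'⁻¹) * A⁻¹, h2⟩ := by
      apply Subtype.ext
      simp only [mul_inv_rev, mul_assoc]
    rw [h5, ← h4, ← h3]
    group
  · refine ⟨Subgroup.one_mem _, ?_⟩
    intro g h
    have h5 : (⟨1 * g.1 * 1⁻¹, h⟩ : (S₀.std m).D ⊤) = g := by
      apply Subtype.ext
      simp
    rw [h5]
    simp
  · intro z hz
    rw [← Subgroup.mem_bot, ← hP.cent, Subgroup.mem_centralizer_iff]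
    intro p hp
    obtain ⟨g, hg⟩ := hK.1 ⟨p, hp⟩
    have h1 : 1 * g.1 * 1⁻¹ ∈ (S₀.std m).D ⊤ := by simp
    have h2 := hz.2 g h1
    have h5 : (⟨1 * g.1 * 1⁻¹, h1⟩ : (S₀.std m).D ⊤) = g := by
      apply Subtype.ext
      simp
    rw [h5, hg] at h2
    have h6 : z * p * z⁻¹ = p := h2
    rw [mul_inv_eq_iff_eq_mul] at h6
    exact h6.symm

end Pool.Agent.Lib.MP66ef6b.CL
end

section
set_option autoImplicit false

/-!
# MP_66ef6b_al, THEOREM L2: module URP (the ultraproduct)
-/

namespace Pool.Agent.Lib.MP66ef6b.CL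

universe u

open UltaM

namespace URPM

section basic

variable {K V : Type} [Field K] [AddCommGroup V] [Module K V]

theorem rk_one : rk (1 : V ≃ₗ[K] V) = 0 := by
  unfold rk
  have h : ((1 : V ≃ₗ[K] V).toLinearMap - LinearMap.id : V →ₗ[K] V) = 0 := by
    ext v
    simp
  rw [h, LinearMap.range_zero, finrank_bot]

theorem rk_mul [Module.Finite K V] (A B : V ≃ₗ[K] V) : rk (A * B) ≤ rk A + rk B := by
  unfold rk
  have h1 : LinearMap.range ((A * B).toLinearMap - LinearMap.id) ≤
      LinearMap.range (A.toLinearMap - LinearMap.id) ⊔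
        LinearMap.range (B.toLinearMap - LinearMap.id) := by
    rintro _ ⟨v, rfl⟩
    rw [Submodule.mem_sup]
    refine ⟨_, ⟨B v, rfl⟩, _, ⟨v, rfl⟩, ?_⟩
    simp
  exact (Submodule.finrank_mono h1).trans (Submodule.finrank_add_le_finrank_add_finrank _ _)

/-- the displacement of a linear map -/
theorem disp [Finite K] [Module.Finite K V] (A : V ≃ₗ[K] V) :
    (Set.range fun v : ULift.{u} V => ULift.up (A v.down) - v).Finite ∧
    (Set.range fun v : ULift.{u} V => ULift.up (A v.down) - v).ncard ≤ Nat.card K ^ rk A := by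
  have hV : Finite V := Module.finite_of_finite K
  refine ⟨Set.toFinite _, ?_⟩
  have h1 : (Set.range fun v : ULift.{u} V => ULift.up (A v.down) - v) ⊆
      ULift.up '' ((LinearMap.range (A.toLinearMap - LinearMap.id) : Submodule K V) : Set V) := by
    rintro _ ⟨v, rfl⟩
    exact ⟨A v.down - v.down, ⟨v.down, rfl⟩, rfl⟩
  calc (Set.range fun v : ULift.{u} V => ULift.up (A v.down) - v).ncard ≤
        (ULift.up '' ((LinearMap.range (A.toLinearMap - LinearMap.id) : Submodule K V) :
          Set V)).ncard := Set.ncard_le_ncard h1 (Set.toFinite _)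
    _ = ((LinearMap.range (A.toLinearMap - LinearMap.id) : Submodule K V) : Set V).ncard :=
        Set.ncard_image_of_injective _ ULift.up_injective
    _ = Nat.card (LinearMap.range (A.toLinearMap - LinearMap.id) : Submodule K V) := rfl
    _ = Nat.card K ^ rk A := Module.natCard_eq_pow_finrank (K := K)

theorem char_zero_smul (p : ℕ) (hp : ringChar K = p) (v : ULift.{u} V) : p • v = 0 := by
  apply ULift.down_injective
  rw [ULift.smul_down, ULift.zero_down, ← Nat.cast_smul_eq_nsmul K, ← hp,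
    ringChar.Nat.cast_ringChar, zero_smul]

end basic

end URPM

open URPM in
theorem specURP (hULF : PL.SpecULF.{u}) : SpecURP.{u} := by
  classical
  intro G _ I U K _ _ V _ _ _ J q₀ d f hq hJ1 hJm hJu hJe hJf hJn
  choose r hr using hJe
  -- the chosen lifts
  let Lf : G → ∀ i : I, V i ≃ₗ[K i] V i := fun g i =>
    if h : ∃ A : V i ≃ₗ[K i] V i, J i g A ∧ rk A ≤ r g then h.choose else 1
  have hLf : ∀ (g : G) (i : I), (∃ A : V i ≃ₗ[K i] V i, J i g A ∧ rk A ≤ r g) →
      J i g (Lf g i) ∧ rk (Lf g i) ≤ r g := by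
    intro g i h
    have h5 : Lf g i = h.choose := dif_pos h
    rw [h5]
    exact h.choose_spec
  let φ : G → ∀ i : I, ULift.{u} (V i) → ULift.{u} (V i) := fun g i v =>
    ULift.up (Lf g i v.down)
  have hφ1 : ∀ᶠ i in (U : Filter I), Lf 1 i = 1 := by
    filter_upwards [hr 1, hJ1, hJu 1 (r 1)] with i h1 h2 h3
    obtain ⟨a1, a2⟩ := hLf 1 i h1
    refine h3 _ _ a1 h2 ?_
    rw [rk_one]
    omega
  have hφm : ∀ g h : G, ∀ᶠ i in (U : Filter I), Lf (g * h) i = Lf g i * Lf h i := by
    intro g h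
    filter_upwards [hr g, hr h, hr (g * h), hJm g h, hJu (g * h) (r (g * h) + (r g + r h))] with i
      h1 h2 h3 h4 h5
    obtain ⟨a1, a2⟩ := hLf g i h1
    obtain ⟨b1, b2⟩ := hLf h i h2
    obtain ⟨c1, c2⟩ := hLf (g * h) i h3
    refine h5 _ _ c1 (h4 _ _ a1 b1) ?_
    have := rk_mul (Lf g i) (Lf h i)
    omega
  have hφf : ∀ᶠ i in (U : Filter I), rk (Lf f i) ≤ d := by
    filter_upwards [hr f, hJf, hJu f (r f + d)] with i h1 h2 h3
    obtain ⟨a1, a2⟩ := hLf f i h1
    obtain ⟨A, b1, b2⟩ := h2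
    rw [h3 _ _ a1 b1 (by omega)]
    exact b2
  have hφn : ∀ᶠ i in (U : Filter I), Lf f i ≠ 1 := by
    filter_upwards [hr f, hJn] with i h1 h2 h3
    obtain ⟨a1, a2⟩ := hLf f i h1
    rw [h3] at a1
    exact h2 a1
  let act : DistribMulAction G (UV U (fun i => ULift.{u} (V i))) :=
    { smul := fun g v => lift (φ g) v
      one_smul := by
        intro v
        induction v using QuotientAddGroup.induction_on with
        | H v =>
          change lift (φ 1) (v : UV U (fun i => ULift.{u} (V i))) = v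
          rw [lift_mk, mk_eq]
          filter_upwards [hφ1] with i hi
          show ULift.up (Lf 1 i (v i).down) = v i
          rw [hi]
          rfl
      mul_smul := by
        intro g h v
        induction v using QuotientAddGroup.induction_on with
        | H v =>
          change lift (φ (g * h)) (v : UV U (fun i => ULift.{u} (V i))) =
            lift (φ g) (lift (φ h) (v : UV U (fun i => ULift.{u} (V i))))
          rw [lift_mk, lift_mk, lift_mk, mk_eq]
          filter_upwards [hφm g h] with i hi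
          show ULift.up (Lf (g * h) i (v i).down) =
            ULift.up (Lf g i (Lf h i (v i).down))
          rw [hi]
          rfl
      smul_zero := by
        intro g
        change lift (φ g) ((0 : ∀ i, ULift.{u} (V i)) : UV U (fun i => ULift.{u} (V i))) =
          ((0 : ∀ i, ULift.{u} (V i)) : UV U (fun i => ULift.{u} (V i)))
        rw [lift_mk, mk_eq]
        refine Filter.Eventually.of_forall fun i => ?_
        show ULift.up (Lf g i 0) = 0
        rw [map_zero]
        rfl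
      smul_add := by
        intro g v w
        induction v using QuotientAddGroup.induction_on with
        | H v =>
          induction w using QuotientAddGroup.induction_on with
          | H w =>
            change lift (φ g) ((v + w : ∀ i, ULift.{u} (V i)) :
                UV U (fun i => ULift.{u} (V i))) =
              ((fun i => φ g i (v i) + φ g i (w i) : ∀ i, ULift.{u} (V i)) :
                UV U (fun i => ULift.{u} (V i)))
            rw [lift_mk, mk_eq]
            refine Filter.Eventually.of_forall fun i => ?_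
            show ULift.up (Lf g i ((v i).down + (w i).down)) =
              ULift.up (Lf g i (v i).down) + ULift.up (Lf g i (w i).down)
            rw [map_add]
            rfl }
  -- the characteristic
  obtain ⟨p, -, hp⟩ := exists_const U (fun i => ringChar (K i)) (Set.Iic q₀) (Set.finite_Iic _)
    (Filter.Eventually.of_forall fun i => by
      have := Fintype.ofFinite (K i)
      have h1 : ringChar (K i) ∣ Nat.card (K i) := by
        rw [Nat.card_eq_fintype_card]
        exact (ringChar.spec (K i) _).1 (Nat.cast_card_eq_zero (K i))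
      exact (Nat.le_of_dvd Nat.card_pos h1).trans (hq i).le)
  have hprime : p.Prime := by
    obtain ⟨i, hi⟩ := hp.exists
    have h1 : (ringChar (K i)).Prime :=
      (CharP.char_is_prime_or_zero (K i) (ringChar (K i))).resolve_right
        (CharP.ringChar_ne_zero_of_finite (K i))
    rw [← hi]
    exact h1
  have hdisp : ∀ (g : G) (s : ℕ), (∀ᶠ i in (U : Filter I), rk (Lf g i) ≤ s) →
      (Set.range fun v : UV U (fun i => ULift.{u} (V i)) => lift (φ g) v - v).Finite ∧
      (Set.range fun v : UV U (fun i => ULift.{u} (V i)) => lift (φ g) v - v).ncard ≤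
        q₀ ^ s := by
    intro g s hs
    refine hULF I U (fun i => ULift.{u} (V i)) (φ g) (q₀ ^ s) ?_
    filter_upwards [hs] with i hi
    obtain ⟨h1, h2⟩ := disp.{u} (Lf g i)
    refine ⟨h1, h2.trans ?_⟩
    have h3 : 0 < Nat.card (K i) := Nat.card_pos
    calc Nat.card (K i) ^ rk (Lf g i) ≤ Nat.card (K i) ^ s := Nat.pow_le_pow_right h3 hi
      _ ≤ q₀ ^ s := Nat.pow_le_pow_left (hq i).le s
  refine ⟨p, UV U (fun i => ULift.{u} (V i)), inferInstance, act, hprime, ?_, ?_, ?_, ?_⟩
  · intro v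
    induction v using QuotientAddGroup.induction_on with
    | H v =>
      have h0 : (0 : UV U (fun i => ULift.{u} (V i))) =
        ((0 : ∀ i, ULift.{u} (V i)) : UV U (fun i => ULift.{u} (V i))) := rfl
      rw [← QuotientAddGroup.mk_nsmul, h0, mk_eq]
      filter_upwards [hp] with i hi
      rw [Pi.smul_apply, Pi.zero_apply]
      exact char_zero_smul p hi (v i)
  · intro g
    refine (hdisp g (r g) ?_).1
    filter_upwards [hr g] with i h1
    exact (hLf g i h1).2
  · exact (hdisp f d hφf).2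
  · have h1 : ∀ i : I, ∃ v : V i, Lf f i ≠ 1 → Lf f i v ≠ v := by
      intro i
      by_contra hcon
      push Not at hcon
      apply (hcon 0).1
      refine LinearEquiv.ext fun w => ?_
      exact (hcon w).2
    choose v hv using h1
    refine ⟨((fun i => ULift.up (v i) : ∀ i, ULift.{u} (V i)) :
      UV U (fun i => ULift.{u} (V i))), ?_⟩
    intro h
    have h2 : ((fun i => φ f i (ULift.up (v i)) : ∀ i, ULift.{u} (V i)) :
        UV U (fun i => ULift.{u} (V i))) =
        ((fun i => ULift.up (v i) : ∀ i, ULift.{u} (V i)) :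
          UV U (fun i => ULift.{u} (V i))) := h
    rw [mk_eq] at h2
    obtain ⟨i, h3, h4⟩ := (h2.and hφn).exists
    apply hv i h4
    exact congrArg ULift.down h3

end Pool.Agent.Lib.MP66ef6b.CL
end
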