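import Pool.Agent.Lib.MP_66ef6b_al.CL.SpecD
import Pool.Agent.Lib.MP_66ef6b_al.CL.SpecE
import Pool.Agent.Lib.MP_66ef6b_al.CL.SGY
import Pool.Agent.Lib.MP_66ef6b_al.CL.NOO
import Pool.Agent.Lib.MP_66ef6b_al.CL.SCA
import Pool.Agent.Lib.MP_66ef6b_al.CL.GXY

section
set_option autoImplicit false

/-!
# MP_66ef6b_al, THEOREM L2, module SPX (helper30): singular vectors generate `x^⊥`
-/

namespace Pool.Agent.Lib.MP66ef6b.CL

open Matrix

namespace SPXM

variable {K : Type} [Field K] {F : FD K} {V₀ : Type} [AddCommGroup V₀] [Module K V₀]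
  {S₀ : Sq F V₀} {m : ℕ}

theorem B_eV (v : SV K V₀ m) (i : Fin m) : (S₀.std m).B v (eV K V₀ i) = F.ε * v.2.1 i := by
  rw [std_B]
  simp only [eV, Pi.zero_apply, map_zero, S₀.B_zero_right, add_zero]
  have h1 : v.1 ⬝ᵥ (fun _ : Fin m => (0 : K)) = 0 := by simp [dotProduct]
  have h2 : (v.2.1 ⬝ᵥ fun j => F.σ ((Pi.single i (1 : K) : Fin m → K) j)) = v.2.1 i := by
    have h3 : (fun j => F.σ ((Pi.single i (1 : K) : Fin m → K) j)) = Pi.single i (1 : K) := by
      ext j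
      by_cases h : j = i
      · subst h
        simp
      · simp [h]
    rw [h3, dotProduct_single, mul_one]
  rw [h1, h2, zero_add]

theorem core (hm : 2 ≤ m) (W : Submodule K (SV K V₀ m))
    (hW : ∀ u, (S₀.std m).Sg u → (S₀.std m).B u (eV K V₀ ⟨0, by omega⟩) = 0 → u ∈ W)
    (u : SV K V₀ m) (hu : (S₀.std m).B u (eV K V₀ ⟨0, by omega⟩) = 0) : u ∈ W := by
  have h0 : u.2.1 ⟨0, by omega⟩ = 0 := by
    rw [B_eV] at hu
    exact (mul_eq_zero.mp hu).resolve_left F.e0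
  let c : K := S₀.q u.2.2
  let i1 : Fin m := ⟨1, by omega⟩
  have hne : (⟨0, by omega⟩ : Fin m) ≠ i1 := by
    intro h
    have := congrArg Fin.val h
    simp [i1] at this
  have hE : ∀ a : Fin m → K, ((a, 0, 0) : SV K V₀ m) ∈ W := by
    intro a
    apply hW
    · rw [Sq.Sg, std_q]
      simp only [Pi.zero_apply, map_zero, S₀.q_zero, add_zero]
      have : a ⬝ᵥ (fun _ : Fin m => (0 : K)) = 0 := by simp [dotProduct]
      rw [this]
      exact F.Λ.zero_mem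
    · rw [B_eV]
      simp
  have hF : ∀ a : Fin m → K, a ⟨0, by omega⟩ = 0 → ((0, a, 0) : SV K V₀ m) ∈ W := by
    intro a ha
    apply hW
    · rw [Sq.Sg, std_q]
      simp only [S₀.q_zero, add_zero, zero_dotProduct]
      exact F.Λ.zero_mem
    · rw [B_eV]
      simp only [ha, mul_zero]
  have hS : ((Pi.single i1 (-c), Pi.single i1 1, u.2.2) : SV K V₀ m) ∈ W := by
    apply hW
    · rw [Sq.Sg, std_q]
      have : (Pi.single i1 (-c) : Fin m → K) ⬝ᵥ
          (fun i => F.σ ((Pi.single i1 (1 : K) : Fin m → K) i)) = -c := by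
        rw [single_dotProduct]
        simp
      simp only [this]
      have h2 : -c + S₀.q u.2.2 = 0 := by
        simp [c]
      rw [h2]
      exact F.Λ.zero_mem
    · rw [B_eV]
      have : (Pi.single i1 (1 : K) : Fin m → K) ⟨0, by omega⟩ = 0 := by
        rw [Pi.single_apply, if_neg hne]
      simp only [this, mul_zero]
  have hsum : u = (Pi.single i1 (-c), Pi.single i1 1, u.2.2) +
      ((u.1 + Pi.single i1 c, 0, 0) + (0, u.2.1 - Pi.single i1 1, 0)) := by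
    refine Prod.ext ?_ (Prod.ext ?_ ?_)
    · simp only [Prod.fst_add, add_zero, Pi.single_neg]
      abel
    · simp only [Prod.snd_add, Prod.fst_add, zero_add]
      abel
    · simp
  rw [hsum]
  refine W.add_mem hS (W.add_mem (hE _) (hF _ ?_))
  rw [Pi.sub_apply, h0, Pi.single_apply, if_neg hne, sub_zero]

end SPXM

theorem specSPX (hWT1 : SpecWT1) : SpecSPX := by
  intro K _ F V₀ _ _ S₀ m hm hnd x hx hx0 W hW u hu
  have hne : (eV K V₀ (⟨0, by omega⟩ : Fin m)) ≠ 0 := by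
    intro h
    have h1 := congrFun (congrArg Prod.fst h) ⟨0, by omega⟩
    simp [eV] at h1
  have hq : (S₀.std m).q (eV K V₀ (⟨0, by omega⟩ : Fin m)) = 0 := by
    rw [std_q]
    simp only [eV, Pi.zero_apply, map_zero, S₀.q_zero, add_zero]
    simp [dotProduct]
  obtain ⟨g, hg, hgx⟩ := hWT1 K F V₀ S₀ m hm hnd x (eV K V₀ ⟨0, by omega⟩) hx0 hne (by
    rw [hq, sub_zero]
    exact hx)
  have hI := Sq.D_le_Iso _ hg
  have h0 : ∀ v, g (g⁻¹ v) = v := fun v => by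
    rw [← LinearEquiv.mul_apply, mul_inv_cancel, LinearEquiv.coe_one, id_eq]
  have hI' := (S₀.std m).Iso.inv_mem hI
  have key : g u ∈ W.map (g : SV K V₀ m →ₗ[K] SV K V₀ m) := by
    apply SPXM.core (S₀ := S₀) hm
    · intro v hv hvB
      refine ⟨g⁻¹ v, hW _ ?_ ?_, h0 v⟩
      · have := F.Λ.add_mem (hI'.2 v) hv
        rwa [sub_add_cancel] at this
      · rw [← hI.1, h0, hgx]
        exact hvB
    · rw [← hgx, hI.1]
      exact hu
  obtain ⟨w, hw, hwu⟩ := key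
  have : w = u := g.injective hwu
  rwa [← this]

end Pool.Agent.Lib.MP66ef6b.CL
end

section
set_option autoImplicit false

/-!
# MP_66ef6b_al, THEOREM L2: module STB
-/

namespace Pool.Agent.Lib.MP66ef6b.CL

universe u

namespace STBM

section gen

variable {K : Type} [Field K] {F : FD K} {V : Type} [AddCommGroup V] [Module K V] {S : Sq F V}

theorem adm_tps {x w : V} (h : (x, w) ∈ S.TPs) : S.Adm x w 0 where
  sg := h.1
  orth := h.2.2.1
  par := by
    rw [zero_sub]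
    exact F.Λ.neg_mem h.2.1

theorem T_self {x w : V} {a : K} (h : S.Adm x w a) : S.T x w a x = x := by
  rw [Sq.T_apply h, h.sg.self, h.orth]
  simp

/-- `x` is in the range of `T - 1`. -/
theorem mem_range (hN : S.Nd) {x w : V} {a : K} (h : S.Adm x w a) (hT : S.T x w a ≠ 1) :
    ∃ v, S.T x w a v - v = x := by
  by_cases h1 : ∃ v, S.B v x = 0 ∧ S.B v w ≠ 0
  · obtain ⟨v, hv1, hv2⟩ := h1
    have h0 : F.ε * S.B v w ≠ 0 := mul_ne_zero F.e0 hv2
    refine ⟨(-(F.ε * S.B v w)⁻¹) • v, ?_⟩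
    rw [map_smul, Sq.T_apply h, hv1, mul_zero, add_zero, zero_smul, add_zero, smul_sub, sub_right_comm,
      sub_self, zero_sub, smul_smul, neg_mul, inv_mul_cancel₀ h0, neg_smul, one_smul, neg_neg]
  · push Not at h1
    obtain ⟨v₀, hv₀⟩ : ∃ v, S.T x w a v ≠ v := by
      by_contra hcon
      push Not at hcon
      exact hT (LinearEquiv.ext hcon)
    have hx : S.B v₀ x ≠ 0 := by
      intro h2
      apply hv₀
      rw [Sq.T_apply h, h2, h1 v₀ h2]
      simp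
    have h3 : w = F.σ (S.B v₀ w / S.B v₀ x) • x := by
      rw [← sub_eq_zero]
      apply hN
      intro v
      apply S.B_eq_zero_swap
      rw [S.B_sub_right, S.B_smul_right, F.inv]
      have h4 := h1 (v - (S.B v x / S.B v₀ x) • v₀) (by
        rw [S.B_sub_left, S.B_smul_left, div_mul_cancel₀ _ hx, sub_self])
      rw [S.B_sub_left, S.B_smul_left] at h4
      rw [← h4]
      ring
    have h5 : S.T x w a v₀ - v₀ = (S.B v₀ x * F.σ (S.B v₀ w / S.B v₀ x) -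
        F.ε * (S.B v₀ w + a * S.B v₀ x)) • x := by
      rw [Sq.T_apply h]
      generalize hs : F.ε * (S.B v₀ w + a * S.B v₀ x) = s
      generalize ht : F.σ (S.B v₀ w / S.B v₀ x) = t at h3 ⊢
      rw [h3]
      module
    have h6 : S.B v₀ x * F.σ (S.B v₀ w / S.B v₀ x) - F.ε * (S.B v₀ w + a * S.B v₀ x) ≠ 0 := by
      intro h7
      rw [h7, zero_smul, sub_eq_zero] at h5
      exact hv₀ h5
    refine ⟨(S.B v₀ x * F.σ (S.B v₀ w / S.B v₀ x) - F.ε * (S.B v₀ w + a * S.B v₀ x))⁻¹ • v₀, ?_⟩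
    rw [map_smul, ← smul_sub, h5, smul_smul, inv_mul_cancel₀ h6, one_smul]

theorem T_ne_one (hN : S.Nd) {y z : V} (h : (y, z) ∈ S.TPs) : S.T y z 0 ≠ 1 := by
  intro h1
  have hli : LinearIndependent K ![y, z] := h.2.2.2
  have hy : y = 0 := by
    apply hN
    intro v
    apply S.B_eq_zero_swap
    have h2 : S.T y z 0 v = v := by
      rw [h1]
      rfl
    rw [Sq.T_apply (adm_tps h)] at h2
    rw [LinearIndependent.pair_iff] at hli
    refine (hli (-(F.ε * (S.B v z + 0 * S.B v y))) (S.B v y) ?_).2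
    have h3 : (-(F.ε * (S.B v z + 0 * S.B v y))) • y + S.B v y • z =
        (v + S.B v y • z - (F.ε * (S.B v z + 0 * S.B v y)) • y) - v := by
      module
    rw [h3, h2, sub_self]
  have := hli.ne_zero 0
  exact this hy

/-- a scalar multiple of an element of `N_x` which is a `T y z 0` is in `N_x`. -/
theorem scal {y z x w : V} {a c : K} (h : (y, z) ∈ S.TPs) (hx : x ≠ 0) (h' : S.Adm x w a)
    (hc : ∀ v, S.T y z 0 v = c • S.T x w a v) : S.T y z 0 = S.T x w a := by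
  have hyz : S.B y z = 0 := h.2.2.1
  have hy : S.Sg y := h.1
  have hz : S.Sg z := h.2.1
  have ha := adm_tps h
  have h1 : S.T y z 0 x = c • x := by rw [hc, T_self h']
  have h2 : S.T y z 0 y = y := T_self ha
  have h3 : S.T y z 0 z = z := by
    rw [Sq.T_apply ha, hz.self, S.B_eq_zero_swap hyz]
    simp
  have h4 : S.T y z 0 x - x = S.B x y • z - (F.ε * (S.B x z + 0 * S.B x y)) • y := by
    rw [Sq.T_apply ha]
    abel
  have h5 : S.T y z 0 (S.T y z 0 x - x) = S.T y z 0 x - x := by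
    rw [h4, map_sub, map_smul, map_smul, h2, h3]
  have h6 : ((c - 1) * (c - 1)) • x = 0 := by
    rw [map_sub, h1, map_smul, h1] at h5
    have h7 : ((c - 1) * (c - 1)) • x = (c • c • x - c • x) - (c • x - x) := by
      module
    rw [h7, h5, sub_self]
  have h8 : c = 1 := by
    have := (smul_eq_zero.1 h6).resolve_right hx
    rw [mul_self_eq_zero, sub_eq_zero] at this
    exact this
  refine LinearEquiv.ext fun v => ?_
  rw [hc, h8, one_smul]

end gen

section std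

variable {K : Type} [Field K] {F : FD K} {V₀ : Type} [AddCommGroup V₀] [Module K V₀]
  {S₀ : Sq F V₀} {m : ℕ} {P : Type u} [Group P]

theorem std_nd (hN : S₀.Nd) : (S₀.std m).Nd := by
  intro x hx
  by_contra h
  obtain ⟨v, hv⟩ := TXCM.exists_B_ne hN h
  exact hv ((S₀.std m).B_eq_zero_swap (hx v))

theorem mp_conj {π : (S₀.std m).D ⊤ →* P} {e : P ≃* P} {g g' h h' : SV K V₀ m ≃ₗ[K] SV K V₀ m}
    (hg : Mp π e g g') (hh : Mp π e h h') : Mp π e (g * h * g⁻¹) (g' * h' * g'⁻¹) := by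
  obtain ⟨h1, h1', h2⟩ := hg
  obtain ⟨h3, h3', h4⟩ := hh
  refine ⟨mul_mem (mul_mem h1 h3) (inv_mem h1), mul_mem (mul_mem h1' h3') (inv_mem h1'), ?_⟩
  have h5 : (⟨g * h * g⁻¹, mul_mem (mul_mem h1 h3) (inv_mem h1)⟩ : (S₀.std m).D ⊤) =
    ⟨g, h1⟩ * ⟨h, h3⟩ * ⟨g, h1⟩⁻¹ := rfl
  have h6 : (⟨g' * h' * g'⁻¹, mul_mem (mul_mem h1' h3') (inv_mem h1')⟩ : (S₀.std m).D ⊤) =
    ⟨g', h1'⟩ * ⟨h', h3'⟩ * ⟨g', h1'⟩⁻¹ := rfl
  rw [h5, h6]
  simp only [map_mul, map_inv]
  rw [h2, h4]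

/-- two images of the same element differ by a scalar. -/
theorem mp_uniq {π : (S₀.std m).D ⊤ →* P} {e : P ≃* P} (hK : Ker π)
    {g h h' : SV K V₀ m ≃ₗ[K] SV K V₀ m} (h1 : Mp π e g h) (h2 : Mp π e g h') :
    ∃ c : K, ∀ v, h v = c • h' v := by
  obtain ⟨a1, a2, a3⟩ := h1
  obtain ⟨b1, b2, b3⟩ := h2
  have h3 : π (⟨h, a2⟩ * ⟨h', b2⟩⁻¹) = 1 := by
    rw [map_mul, map_inv, ← a3, ← b3, mul_inv_cancel]
  obtain ⟨c, hc⟩ := (hK.2 _).1 h3
  refine ⟨c, fun v => ?_⟩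
  have h4 := hc (h' v)
  have h5 : ((⟨h, a2⟩ * ⟨h', b2⟩⁻¹ : (S₀.std m).D ⊤) : SV K V₀ m ≃ₗ[K] SV K V₀ m) (h' v) =
      h v := by
    show (h * h'⁻¹) (h' v) = h v
    rw [← LinearEquiv.mul_apply, inv_mul_cancel_right]
  rw [h5] at h4
  exact h4

theorem nst_symm (hf : Finite (SV K V₀ m ≃ₗ[K] SV K V₀ m)) {π : (S₀.std m).D ⊤ →* P} {e : P ≃* P}
    {x : SV K V₀ m} (h : Nst π e x) : Nst π e.symm x := by
  classical
  let N : Set P := {p | ∃ (w : SV K V₀ m) (a : K) (hA : (S₀.std m).Adm x w a),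
    p = π ⟨(S₀.std m).T x w a, Sq.T_mem_G hA⟩}
  have hNf : N.Finite := by
    have h1 : N ⊆ Set.range π := by
      rintro p ⟨w, a, hA, rfl⟩
      exact ⟨_, rfl⟩
    exact (Set.finite_range π).subset h1
  have hmap : Set.MapsTo e N N := by
    rintro p ⟨w, a, hA, rfl⟩
    obtain ⟨w', a', hA', h1, h2, h3⟩ := h w a hA
    exact ⟨w', a', hA', h3⟩
  have hsurj : Set.SurjOn e N N :=
    (hNf.injOn_iff_bijOn_of_mapsTo hmap).1 e.injective.injOn |>.surjOn
  intro w a hA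
  obtain ⟨p, ⟨w', a', hA', rfl⟩, hp⟩ := hsurj ⟨w, a, hA, rfl⟩
  refine ⟨w', a', hA', Sq.T_mem_G hA, Sq.T_mem_G hA', ?_⟩
  rw [← hp, e.symm_apply_apply]

theorem li3 (i j k : Fin m) (hij : i ≠ j) (_ : i ≠ k) (hjk : j ≠ k) (a b c : K)
    (h : a • eV K V₀ i + b • eV K V₀ j + c • eV K V₀ k = 0) : b = 0 := by
  have h1 := congrArg (fun v : SV K V₀ m => v.1 j) h
  simpa [eV, Pi.single_apply, hij.symm, hjk] using h1

theorem key (hWT1 : SpecWT1) (hm : 3 ≤ m) (hN : S₀.Nd) {π : (S₀.std m).D ⊤ →* P} {e : P ≃* P}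
    (hK : Ker π) {x : SV K V₀ m} (hx : (S₀.std m).Sg x) (hx0 : x ≠ 0) (h1 : Nst π e x)
    (h2 : Nst π e.symm x) {g g' : SV K V₀ m ≃ₗ[K] SV K V₀ m} (hg : Mp π e g g')
    (hc : ∃ c : K, g x = c • x) : ∃ c : K, g' x = c • x := by
  obtain ⟨c, hc⟩ := hc
  obtain ⟨hgD, hgD', -⟩ := id hg
  have hgI : g ∈ (S₀.std m).Iso := Sq.D_le_Iso _ hgD
  have hgI' : g' ∈ (S₀.std m).Iso := Sq.D_le_Iso _ hgD'
  have hNd := std_nd (m := m) hN
  have he0 : eV K V₀ (⟨0, by omega⟩ : Fin m) ≠ 0 := by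
    intro h
    have := congrArg (fun v : SV K V₀ m => v.1 ⟨0, by omega⟩) h
    simp [eV] at this
  obtain ⟨k, hk, hkx⟩ := hWT1 K F V₀ S₀ m (by omega) hN (eV K V₀ (⟨0, by omega⟩ : Fin m)) x he0 hx0 (by
    rw [PRUM.q_e, zero_sub]
    exact F.Λ.neg_mem hx)
  have hkI : k ∈ (S₀.std m).Iso := Sq.D_le_Iso _ hk
  -- the images of the `T x w 0`
  have h3 : ∀ i : Fin m, i ≠ ⟨0, by omega⟩ → ∃ α β : K, x = α • g' x + β • g' (k (eV K V₀ i)) := by
    intro i hi
    have hT : (x, k (eV K V₀ i)) ∈ (S₀.std m).TPs := by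
      rw [← hkx]
      exact PRUM.tps_map hkI ⟨PRUM.sg_e _, PRUM.sg_e _, PRUM.B_ee _ _, PRUM.li_ee (Ne.symm hi)⟩
    generalize k (eV K V₀ i) = w at hT ⊢
    have hA := adm_tps hT
    -- `e⁻¹ (π T x w 0) = π T x w₁ a₁`
    obtain ⟨w₁, a₁, hA₁, b1, b2, b3⟩ := h2 w 0 hA
    have hM : Mp π e ((S₀.std m).T x w₁ a₁) ((S₀.std m).T x w 0) := by
      refine ⟨b2, b1, ?_⟩
      rw [← b3, e.apply_symm_apply]
    have hM2 := mp_conj hg hM
    rw [Sq.T_conj hA₁ hgI, Sq.T_conj hA hgI', hc] at hM2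
    have hA₂ : (S₀.std m).Adm (c • x) (g w₁) a₁ := by
      rw [← hc]
      exact hA₁.map hgI
    have hc0 : c ≠ 0 := by
      intro h
      rw [h, zero_smul] at hc
      exact hx0 (g.injective (hc.trans (map_zero g).symm))
    have horth : (S₀.std m).B x (g w₁) = 0 := by
      have h4 := hA₂.orth
      rw [Sq.B_smul_left] at h4
      exact (mul_eq_zero.1 h4).resolve_left hc0
    rw [Sq.T_smul hA₂ hx horth] at hM2
    have hA₃ := hA₂.smul hx horth
    obtain ⟨w₃, a₃, hA₄, hM3⟩ := h1 _ _ hA₃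
    obtain ⟨d, hd⟩ := mp_uniq hK hM2 hM3
    have hT' : (g' x, g' w) ∈ (S₀.std m).TPs := PRUM.tps_map hgI' hT
    have h5 := scal hT' hx0 hA₄ hd
    have h6 : (S₀.std m).T x w₃ a₃ ≠ 1 := by
      rw [← h5]
      exact T_ne_one hNd hT'
    obtain ⟨v, hv⟩ := mem_range hNd hA₄ h6
    rw [← h5, Sq.T_apply (adm_tps hT')] at hv
    refine ⟨-(F.ε * ((S₀.std m).B v (g' w) + 0 * (S₀.std m).B v (g' x))), (S₀.std m).B v (g' x), ?_⟩
    rw [← sub_eq_zero]
    nth_rewrite 1 [← hv]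
    module
  obtain ⟨α, β, h4⟩ := h3 ⟨1, by omega⟩ (by simp)
  obtain ⟨α', β', h5⟩ := h3 ⟨2, by omega⟩ (by simp)
  have h6 : g' (k ((α - α') • eV K V₀ (⟨0, by omega⟩ : Fin m) + β • eV K V₀ ⟨1, by omega⟩ +
      (-β') • eV K V₀ ⟨2, by omega⟩)) = 0 := by
    have h7 : α • g' x + β • g' (k (eV K V₀ ⟨1, by omega⟩)) =
      α' • g' x + β' • g' (k (eV K V₀ ⟨2, by omega⟩)) := h4.symm.trans h5
    rw [← sub_eq_zero] at h7
    rw [← h7]
    simp only [map_add, map_smul, hkx]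
    module
  have h8 : β = 0 := by
    have h9 : (α - α') • eV K V₀ (⟨0, by omega⟩ : Fin m) + β • eV K V₀ ⟨1, by omega⟩ +
        (-β') • eV K V₀ ⟨2, by omega⟩ = 0 := by
      apply k.injective
      apply g'.injective
      rw [h6, map_zero, map_zero]
    exact li3 _ _ _ (by simp) (by simp) (by simp) _ _ _ h9
  rw [h8, zero_smul, add_zero] at h4
  have hα : α ≠ 0 := by
    intro h
    rw [h, zero_smul] at h4
    exact hx0 h4
  refine ⟨α⁻¹, ?_⟩
  nth_rewrite 2 [h4]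
  rw [smul_smul, inv_mul_cancel₀ hα, one_smul]

end std

end STBM

open STBM

theorem specSTB (hWT1 : SpecWT1) : SpecSTB.{u} := by
  intro K _ F V₀ _ _ S₀ m hC P _ π e hK x hx hx0 hN
  have hf : Finite (SV K V₀ m ≃ₗ[K] SV K V₀ m) := by
    have := hC.finK
    have := hC.finV
    have : Finite V₀ := Module.finite_of_finite K
    exact Finite.of_injective (fun g : SV K V₀ m ≃ₗ[K] SV K V₀ m => (g : SV K V₀ m → SV K V₀ m))
      DFunLike.coe_injective
  have hN' : Nst π e.symm x := nst_symm hf hN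
  refine ⟨hN', fun g g' hg => ⟨fun h => key hWT1 hC.rk hC.nd hK hx hx0 hN hN' hg h, fun h => ?_⟩⟩
  obtain ⟨a1, a2, a3⟩ := hg
  exact key (e := e.symm) hWT1 hC.rk hC.nd hK hx hx0 hN' hN ⟨a2, a1, by
    rw [← a3, e.symm_apply_apply]⟩ h

end Pool.Agent.Lib.MP66ef6b.CL
end

section
set_option autoImplicit false

/-!
# MP_66ef6b_al, THEOREM L2, module SUA: THC for `Y ⧸ S`
-/

namespace Pool.Agent.Lib.MP66ef6b.CL

universe u

theorem specSUA (hTHC : SpecTHC) : SpecSUA.{u} := by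
  classical
  intro δ h0 h1
  obtain ⟨q, R, hqR⟩ := hTHC δ h0 h1
  refine ⟨q, R, ?_⟩
  intro K _ F V₀ _ _ S₀ m hcls Y _ _ P S π hP hPS hπ g hsc hfix
  by_contra hn
  have hbd := hqR K F V₀ S₀ m hcls g.1 g.2 hsc hn
  let e : (Y ⧸ S) ≃ Fin (Nat.card (Y ⧸ S)) := Finite.equivFin _
  letI : MulAction ((S₀.std m).D ⊤) (Fin (Nat.card (Y ⧸ S))) :=
    { smul := fun γ i => e ((π γ : Y) • e.symm i)
      one_smul := fun i => by
        change e ((π 1 : Y) • e.symm i) = i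
        rw [map_one, Subgroup.coe_one, one_smul, Equiv.apply_symm_apply]
      mul_smul := fun a b i => by
        change e ((π (a * b) : Y) • e.symm i) = e ((π a : Y) • e.symm (e ((π b : Y) • e.symm i)))
        rw [map_mul, Subgroup.coe_mul, mul_smul, Equiv.symm_apply_apply] }
  have hsm : ∀ (γ : (S₀.std m).D ⊤) (i : Fin (Nat.card (Y ⧸ S))),
      γ • i = e ((π γ : Y) • e.symm i) := fun _ _ => rfl
  haveI : Nonempty (Fin (Nat.card (Y ⧸ S))) := ⟨e (QuotientGroup.mk 1)⟩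
  have hno : fy ((S₀.std m).D ⊤) (Fin (Nat.card (Y ⧸ S)))
      (Set.univ : Set (SV K V₀ m ≃ₗ[K] SV K V₀ m)) = ∅ := by
    rw [Set.eq_empty_iff_forall_notMem]
    intro i hi
    apply hPS
    obtain ⟨y, hy⟩ := QuotientGroup.mk_surjective (e.symm i)
    intro p hp
    have hq : y * p * y⁻¹ ∈ P := hP.conj_mem p hp y
    obtain ⟨γ, hγ⟩ := hπ ⟨_, hq⟩
    have h2 := hi γ trivial
    rw [hsm, hγ, ← hy] at h2
    have h3 : ((y * p * y⁻¹) • (QuotientGroup.mk y : Y ⧸ S)) = QuotientGroup.mk y := by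
      apply e.injective
      rw [h2, hy, Equiv.apply_symm_apply]
    rw [MulAction.Quotient.smul_mk, QuotientGroup.eq, smul_eq_mul] at h3
    have h4 := S.inv_mem h3
    have h5 : ((y * p * y⁻¹ * y)⁻¹ * y)⁻¹ = y⁻¹ * (y * p) := by group
    rw [h5] at h4
    have h6 : y⁻¹ * (y * p) = p := by group
    rwa [h6] at h4
  have h2 := hbd (Fin (Nat.card (Y ⧸ S))) hno
  have h3 : (fy ((S₀.std m).D ⊤) (Fin (Nat.card (Y ⧸ S)))
      ({g.1} : Set (SV K V₀ m ≃ₗ[K] SV K V₀ m))) = e '' {ω : Y ⧸ S | (π g : Y) • ω = ω} := by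
    ext i
    constructor
    · intro hi
      have h4 := hi g rfl
      rw [hsm] at h4
      refine ⟨e.symm i, ?_, e.apply_symm_apply i⟩
      apply e.injective
      rw [h4, Equiv.apply_symm_apply]
    · rintro ⟨ω, hω, rfl⟩ γ hγ
      have h4 : γ = g := Subtype.ext hγ
      rw [hsm, h4, Equiv.symm_apply_apply]
      exact congrArg e hω
  rw [h3, Set.ncard_image_of_injective _ e.injective, Nat.card_fin] at h2
  exact absurd hfix (not_le.2 h2)

end Pool.Agent.Lib.MP66ef6b.CL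
end

section
set_option autoImplicit false

/-!
# MP_66ef6b_al, THEOREM L2, module SUB: one element of `F`
-/

namespace Pool.Agent.Lib.MP66ef6b.CL

universe u

namespace SUBM

/-- some element of a finite family of permutations which covers everything has many fixed points -/
lemma exists_many {X Ω : Type u} [Finite X] [Finite Ω] [Nonempty Ω] (A : Set X) (N : ℕ)
    (hN : A.ncard ≤ N) (f : X → Set Ω) (h : ∀ ω : Ω, ∃ x ∈ A, ω ∈ f x) :
    0 < N ∧ ∃ x ∈ A, 1 / (N : ℝ) * Nat.card Ω ≤ ((f x).ncard : ℝ) := by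
  classical
  have := Fintype.ofFinite Ω
  choose g hg hgf using h
  set s : Finset X := (Set.toFinite A).toFinset with hs
  have hmem : ∀ x, x ∈ s ↔ x ∈ A := fun x => Set.Finite.mem_toFinset _
  have hcard : s.card ≤ N := by
    rw [← Set.ncard_eq_toFinset_card A (Set.toFinite A)]
    exact hN
  obtain ⟨ω₀⟩ := (inferInstance : Nonempty Ω)
  have hne : s.Nonempty := ⟨g ω₀, (hmem _).2 (hg ω₀)⟩
  have hN0 : 0 < N := lt_of_lt_of_le (Finset.card_pos.2 hne) hcard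
  refine ⟨hN0, ?_⟩
  by_contra hcon
  push Not at hcon
  have h1 : (Fintype.card Ω) = ∑ x ∈ s, (Finset.univ.filter (fun ω => g ω = x)).card := by
    rw [← Finset.card_univ]
    exact Finset.card_eq_sum_card_fiberwise (fun ω _ => (hmem _).2 (hg ω))
  have h2 : ∀ x ∈ s, (Finset.univ.filter (fun ω => g ω = x)).card ≤ (f x).ncard := by
    intro x _
    rw [Set.ncard_eq_toFinset_card' (f x)]
    apply Finset.card_le_card
    intro ω hω
    rw [Finset.mem_filter] at hω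
    rw [Set.mem_toFinset, ← hω.2]
    exact hgf ω
  have h3 : (Nat.card Ω : ℝ) ≤ ∑ x ∈ s, ((f x).ncard : ℝ) := by
    rw [Nat.card_eq_fintype_card, h1]
    push_cast
    exact Finset.sum_le_sum (fun x hx => by exact_mod_cast h2 x hx)
  have h4 : ∑ x ∈ s, ((f x).ncard : ℝ) < ∑ _x ∈ s, 1 / (N : ℝ) * Nat.card Ω :=
    Finset.sum_lt_sum_of_nonempty hne (fun x hx => hcon x ((hmem x).1 hx))
  rw [Finset.sum_const, nsmul_eq_mul] at h4
  have h5 : (s.card : ℝ) ≤ N := by exact_mod_cast hcard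
  have h6 : (0 : ℝ) < N := by exact_mod_cast hN0
  have h7 : (s.card : ℝ) * (1 / (N : ℝ) * Nat.card Ω) ≤ Nat.card Ω := by
    have : (s.card : ℝ) * (1 / (N : ℝ) * Nat.card Ω) = (s.card : ℝ) / N * Nat.card Ω := by ring
    rw [this]
    have h8 : (s.card : ℝ) / N ≤ 1 := (div_le_one h6).2 h5
    have h9 : (0 : ℝ) ≤ Nat.card Ω := Nat.cast_nonneg _
    nlinarith
  linarith

end SUBM

theorem specSUB (hPKU : SpecPKU.{u}) : SpecSUB.{u} := by
  intro G _ F X Y _ ρ P S hF hX hρ _ hcov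
  have hY : Finite Y := Finite.of_surjective ρ hρ
  have hfin : (F : Set G).Finite := Set.toFinite _
  obtain ⟨hN, x, ⟨hxF, hx1⟩, hx⟩ := SUBM.exists_many (Ω := Y ⧸ S) {x : X | (x : G) ∈ F ∧ x ≠ 1}
    (Nat.card F) (by
      rw [show Nat.card F = (F : Set G).ncard from rfl]
      exact Set.ncard_le_ncard_of_injOn (fun x : X => (x : G)) (fun x hx => hx.1)
        (fun x _ y _ hxy => Subtype.ext hxy) hfin)
    (fun x => {ω : Y ⧸ S | ρ x • ω = ω}) (by
      intro ω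
      obtain ⟨y, rfl⟩ := QuotientGroup.mk_surjective ω
      obtain ⟨x, hxF, hx1, hxS⟩ := hcov y⁻¹
      refine ⟨x, ⟨hxF, hx1⟩, ?_⟩
      change ((ρ x * y : Y) : Y ⧸ S) = (y : Y ⧸ S)
      rw [eq_comm, QuotientGroup.eq]
      simpa [mul_assoc] using hxS)
  have hN' : (0 : ℝ) < (Nat.card F : ℝ) := by exact_mod_cast hN
  refine ⟨x, hxF, hx1, ?_⟩
  refine hPKU Y (Y ⧸ S) P (ρ x) (1 / (Nat.card F : ℝ)) (by positivity) ?_ hx
  rw [div_le_one hN']
  exact_mod_cast hN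

end Pool.Agent.Lib.MP66ef6b.CL
end

section
/-!
# MP_66ef6b_al, THEOREM L2, module SUC: large centralisers
-/
set_option autoImplicit false

namespace Pool.Agent.Lib.MP66ef6b.CL

open PL (SLn fx)

universe u

namespace SUCM

/-- `E` embeds in `Y`. -/
theorem card_le {G : Type u} [Group G] {E X : Subgroup G} {Y : Type u} [Group Y] [Finite Y]
    (ρ : X →* Y) (hEX : E ≤ X) (hinj : ∀ x : X, (x : G) ∈ E → ρ x = 1 → x = 1) :
    Nat.card E ≤ Nat.card Y := by
  refine Nat.card_le_card_of_injective (fun e : E => ρ ⟨(e : G), hEX e.2⟩) ?_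
  intro e₁ e₂ h
  have h2 : ρ (⟨(e₁ : G), hEX e₁.2⟩ * (⟨(e₂ : G), hEX e₂.2⟩ : X)⁻¹) = 1 := by
    rw [map_mul, map_inv]
    exact mul_inv_eq_one.2 h
  have h3 := hinj (⟨(e₁ : G), hEX e₁.2⟩ * (⟨(e₂ : G), hEX e₂.2⟩ : X)⁻¹)
    (E.mul_mem e₁.2 (E.inv_mem e₂.2)) h2
  have h4 := mul_inv_eq_one.1 h3
  exact Subtype.ext (Subtype.mk.inj h4)

/-- a non-trivial element does not centralise the socle. -/
theorem not_le {Y : Type u} [Group Y] {P : Subgroup Y} (hP : IsSocle P) {z : Y} (hz : z ≠ 1) :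
    ¬ P ≤ Subgroup.centralizer ({z} : Set Y) := by
  intro h
  apply hz
  have h1 : z ∈ Subgroup.centralizer (P : Set Y) := by
    rw [Subgroup.mem_centralizer_iff]
    intro p hp
    have h2 := Subgroup.mem_centralizer_iff.1 (h hp) z (Set.mem_singleton z)
    exact h2.symm
  rw [hP.cent] at h1
  exact Subgroup.mem_bot.1 h1

/-- the key inequality -/
theorem key (hFIB : SpecFIB.{u}) {Y : Type u} [Group Y] [Finite Y] {P : Subgroup Y} {z : Y}
    {T A : Set Y} {δ : ℝ} (hT : δ * Nat.card P ≤ T.ncard)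
    (hA : T ⊆ {t | t ∈ P ∧ z * t * z⁻¹ * t⁻¹ ∈ A}) :
    δ * (Subgroup.centralizer ({z} : Set Y)).relIndex P ≤ A.ncard := by
  have h1 := hFIB Y P z A
  have h2 : T.ncard ≤ {t | t ∈ P ∧ z * t * z⁻¹ * t⁻¹ ∈ A}.ncard :=
    Set.ncard_le_ncard hA (Set.toFinite _)
  have hP : (0 : ℝ) < Nat.card P := by exact_mod_cast Nat.card_pos (α := P)
  have h3 : ((Subgroup.centralizer ({z} : Set Y)).relIndex P : ℝ) * T.ncard ≤
      A.ncard * Nat.card P := by
    have h4 : (Subgroup.centralizer ({z} : Set Y)).relIndex P * T.ncard ≤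
        A.ncard * Nat.card P := (Nat.mul_le_mul_left _ h2).trans h1
    exact_mod_cast h4
  have h5 : ((Subgroup.centralizer ({z} : Set Y)).relIndex P : ℝ) * (δ * Nat.card P) ≤
      A.ncard * Nat.card P :=
    (mul_le_mul_of_nonneg_left hT (Nat.cast_nonneg _)).trans h3
  refine le_of_mul_le_mul_right ?_ hP
  calc δ * ((Subgroup.centralizer ({z} : Set Y)).relIndex P : ℝ) * Nat.card P
      = ((Subgroup.centralizer ({z} : Set Y)).relIndex P : ℝ) * (δ * Nat.card P) := by ring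
    _ ≤ A.ncard * Nat.card P := h5

end SUCM

open SUCM in
/-- **SUC.** -/
theorem specSUC (hSUA : SpecSUA.{u}) (hSUB : SpecSUB.{u}) (hFIB : SpecFIB.{u})
    (hSZS : SpecSZS.{u}) (hCRK : SpecCRK.{u}) : SpecSUC.{u} := by
  classical
  intro G _ F hF
  obtain ⟨hSZ1, hSZ2⟩ := hSZS
  have hN1 : 0 < Nat.card F := Nat.card_pos
  have hN1r : (0 : ℝ) < Nat.card F := by exact_mod_cast hN1
  have hN1r' : (1 : ℝ) ≤ Nat.card F := by exact_mod_cast hN1
  have hδ0 : (0 : ℝ) < (1 / (Nat.card F : ℝ)) ^ 2 / 2 := by positivity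
  have hinv : (1 : ℝ) / Nat.card F ≤ 1 := by
    rw [div_le_one hN1r]
    exact hN1r'
  have hinv0 : (0 : ℝ) ≤ 1 / Nat.card F := by positivity
  have hδ1 : (1 / (Nat.card F : ℝ)) ^ 2 / 2 ≤ 1 := by
    have : (1 / (Nat.card F : ℝ)) ^ 2 ≤ 1 := pow_le_one₀ hinv0 hinv
    linarith
  obtain ⟨q₁, R, hSU⟩ := hSUA _ hδ0 hδ1
  refine ⟨max q₁ (2 * Nat.card F ^ 2), 8 * R + 2, fun m =>
    ⟨max ((2 * Nat.card F ^ 2).factorial.factorial)
      ((max q₁ (2 * Nat.card F ^ 2)) ^ ((2 * m + 2) ^ 2)).factorial, ?_⟩⟩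
  rintro E hE hFE hB ⟨Y, _, P, ⟨X, ρ, S, hX, hEX, hsur, hinj, hsoc, hPS, hy⟩,
    K, _, F', V₀, _, _, S₀, m', π, hCls, hπ, hker⟩
  have hY : Finite Y := Finite.of_surjective ρ hsur
  have hPn := hsoc.normal
  obtain ⟨x, hxF, hx1, hcount⟩ := hSUB G F X Y ρ P S hF hX hsur hPn hy
  have hz : ρ x ≠ 1 := fun h => hx1 (hinj x (hFE hxF) h)
  have hnl := not_le hsoc hz
  have hEY : Nat.card E ≤ Nat.card Y := card_le ρ hEX hinj
  -- the elements `[z, t]`
  have hmem : ∀ t ∈ P, ρ x * t * (ρ x)⁻¹ * t⁻¹ ∈ P := fun t ht =>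
    P.mul_mem (hPn.conj_mem t ht (ρ x)) (P.inv_mem ht)
  -- the consequence of SUA
  have hcons : ∀ t ∈ P, (1 / (Nat.card F : ℝ)) ^ 2 / 2 * Nat.card (Y ⧸ S) ≤
      {ω : Y ⧸ S | (ρ x * t * (ρ x)⁻¹ * t⁻¹) • ω = ω}.ncard →
      ∃ g : (S₀.std m').D ⊤, (π g : Y) = ρ x * t * (ρ x)⁻¹ * t⁻¹ ∧
        ((∃ c : K, ∀ v, g.1 v = c • v) ∨ (Nat.card K < q₁ ∧ ∃ a : K,
          Module.finrank K (LinearMap.range (g.1.toLinearMap - a • LinearMap.id)) ≤ R)) := by
    intro t ht hle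
    obtain ⟨g, hg⟩ := hπ ⟨_, hmem t ht⟩
    have hg' : (π g : Y) = ρ x * t * (ρ x)⁻¹ * t⁻¹ := by rw [hg]
    refine ⟨g, hg', ?_⟩
    by_cases hc : ∃ c : K, ∀ v, g.1 v = c • v
    · exact Or.inl hc
    · right
      refine hSU K F' V₀ S₀ m' hCls Y P S π hPn hPS hπ g hc ?_
      rw [hg']
      exact hle
  by_cases hK : Nat.card K < q₁
  · -- the field is small
    have hCR := hCRK K F' V₀ S₀ m' R hCls P π
    set A₀ : Set P := {p : P | ∃ g : (S₀.std m').D ⊤, π g = p ∧ ∃ a : K,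
      Module.finrank K (LinearMap.range (g.1.toLinearMap - a • LinearMap.id)) ≤ R} with hA₀
    have hone : (1 : P) ∈ A₀ := by
      refine ⟨1, map_one π, 1, ?_⟩
      have h1 : ((1 : (S₀.std m').D ⊤).1.toLinearMap - (1 : K) • LinearMap.id) =
          (0 : SV K V₀ m' →ₗ[K] SV K V₀ m') := by
        rw [one_smul]
        exact sub_self _
      rw [h1, LinearMap.range_zero, finrank_bot]
      exact Nat.zero_le _
    have hkey := key hFIB (A := Subtype.val '' A₀) hcount (by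
      rintro t ⟨ht, hle⟩
      refine ⟨ht, ?_⟩
      obtain ⟨g, hg, hg2⟩ := hcons t ht hle
      rcases hg2 with hc | ⟨-, ha⟩
      · refine ⟨1, hone, ?_⟩
        rw [← hg, (hker g).2 hc]
      · exact ⟨π g, ⟨g, rfl, ha⟩, hg⟩)
    have hAcard : (Subtype.val '' A₀ : Set Y).ncard ≤ Nat.card K ^ (2 * R * (2 * m' + 2) + 1) :=
      (Set.ncard_image_le (Set.toFinite _)).trans hCR
    -- the index
    have hq0 : 1 ≤ max q₁ (2 * Nat.card F ^ 2) := by
      have : 1 ≤ 2 * Nat.card F ^ 2 := by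
        have : 0 < Nat.card F ^ 2 := pow_pos hN1 2
        omega
      exact this.trans (le_max_right _ _)
    have hKq : Nat.card K ≤ max q₁ (2 * Nat.card F ^ 2) := hK.le.trans (le_max_left _ _)
    have hm3 : 3 ≤ m' := hCls.rk
    have hI : (Subgroup.centralizer ({ρ x} : Set Y)).relIndex P ≤
        (max q₁ (2 * Nat.card F ^ 2)) ^ ((8 * R + 2) * m') := by
      have h1 : ((Subgroup.centralizer ({ρ x} : Set Y)).relIndex P : ℝ) ≤
          (2 * Nat.card F ^ 2 : ℕ) * (Subtype.val '' A₀ : Set Y).ncard := by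
        have h2 : ((Subgroup.centralizer ({ρ x} : Set Y)).relIndex P : ℝ) =
            2 * (Nat.card F : ℝ) ^ 2 * ((1 / (Nat.card F : ℝ)) ^ 2 / 2 *
              (Subgroup.centralizer ({ρ x} : Set Y)).relIndex P) := by
          field_simp
        rw [h2]
        push_cast
        exact mul_le_mul_of_nonneg_left hkey (by positivity)
      have h2 : (Subgroup.centralizer ({ρ x} : Set Y)).relIndex P ≤
          (2 * Nat.card F ^ 2) * (Subtype.val '' A₀ : Set Y).ncard := by exact_mod_cast h1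
      calc (Subgroup.centralizer ({ρ x} : Set Y)).relIndex P
          ≤ (2 * Nat.card F ^ 2) * (Subtype.val '' A₀ : Set Y).ncard := h2
        _ ≤ max q₁ (2 * Nat.card F ^ 2) *
            (max q₁ (2 * Nat.card F ^ 2)) ^ (2 * R * (2 * m' + 2) + 1) :=
            Nat.mul_le_mul (le_max_right _ _)
              (hAcard.trans (Nat.pow_le_pow_left hKq _))
        _ = (max q₁ (2 * Nat.card F ^ 2)) ^ (2 * R * (2 * m' + 2) + 1 + 1) := by
            rw [pow_succ _ (2 * R * (2 * m' + 2) + 1), mul_comm]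
        _ ≤ (max q₁ (2 * Nat.card F ^ 2)) ^ ((8 * R + 2) * m') := by
            refine Nat.pow_le_pow_right hq0 ?_
            nlinarith [Nat.zero_le R]
    -- the rank is large
    have hm : m < m' := by
      by_contra hcon
      have hcon' : m' ≤ m := not_lt.1 hcon
      have h1 : Nat.card P ≤ (max q₁ (2 * Nat.card F ^ 2)) ^ ((2 * m + 2) ^ 2) := by
        refine (hSZ2 K F' V₀ S₀ m' hCls P π hπ).trans ?_
        refine (Nat.pow_le_pow_left hKq _).trans (Nat.pow_le_pow_right hq0 ?_)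
        exact Nat.pow_le_pow_left (by omega) 2
      have h2 : Nat.card Y ≤
          ((max q₁ (2 * Nat.card F ^ 2)) ^ ((2 * m + 2) ^ 2)).factorial :=
        (hSZ1 Y P hsoc).1.trans (Nat.factorial_le h1)
      have h3 := hEY.trans (h2.trans (le_max_right ((2 * Nat.card F ^ 2).factorial.factorial) _))
      omega
    refine ⟨(x : G), hxF, fun h => hx1 (Subtype.ext h), X, Y, _, ρ, P, x, K, _, F', V₀, _, _, S₀,
      m', π, hX, hEX, hsur, hinj, hsoc, hCls, ⟨hπ, hker⟩, lt_of_lt_of_le hK (le_max_left _ _), hm,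
      rfl, hz, hI⟩
  · -- the field is large
    exfalso
    have hkey := key hFIB (A := {1}) hcount (by
      rintro t ⟨ht, hle⟩
      refine ⟨ht, ?_⟩
      obtain ⟨g, hg, hg2⟩ := hcons t ht hle
      rcases hg2 with hc | ⟨h, -⟩
      · rw [Set.mem_singleton_iff, ← hg, (hker g).2 hc]
        rfl
      · exact absurd h hK)
    rw [Set.ncard_singleton] at hkey
    have hI : (Subgroup.centralizer ({ρ x} : Set Y)).relIndex P ≤ 2 * Nat.card F ^ 2 := by
      have h1 : ((Subgroup.centralizer ({ρ x} : Set Y)).relIndex P : ℝ) ≤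
          (2 * Nat.card F ^ 2 : ℕ) := by
        have h2 : ((Subgroup.centralizer ({ρ x} : Set Y)).relIndex P : ℝ) =
            2 * (Nat.card F : ℝ) ^ 2 * ((1 / (Nat.card F : ℝ)) ^ 2 / 2 *
              (Subgroup.centralizer ({ρ x} : Set Y)).relIndex P) := by
          field_simp
        rw [h2]
        push_cast
        have h3 := mul_le_mul_of_nonneg_left hkey
          (show (0 : ℝ) ≤ 2 * (Nat.card F : ℝ) ^ 2 by positivity)
        push_cast at h3
        rwa [mul_one] at h3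
      exact_mod_cast h1
    have h1 : Nat.card P ≤ (2 * Nat.card F ^ 2).factorial :=
      ((hSZ1 Y P hsoc).2 _ hnl).trans (Nat.factorial_le hI)
    have h2 : Nat.card Y ≤ (2 * Nat.card F ^ 2).factorial.factorial :=
      (hSZ1 Y P hsoc).1.trans (Nat.factorial_le h1)
    have h3 := hEY.trans (h2.trans (le_max_left _
      ((max q₁ (2 * Nat.card F ^ 2)) ^ ((2 * m + 2) ^ 2)).factorial))
    omega

end Pool.Agent.Lib.MP66ef6b.CL
end

section
set_option autoImplicit false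

/-!
# MP_66ef6b_al, THEOREM L2, module SZS: orders
-/

namespace Pool.Agent.Lib.MP66ef6b.CL

universe u

namespace SZSM

theorem card_le_factorial {Y : Type u} [Group Y] [Finite Y] (P : Subgroup Y) (hP : IsSocle P) :
    Nat.card Y ≤ (Nat.card P).factorial := by
  have := hP.normal
  rw [← Nat.card_perm]
  refine Nat.card_le_card_of_injective
    (fun y : Y => (MulAut.conjNormal y : MulAut P).toEquiv) ?_
  intro y z h
  have h1 : y⁻¹ * z ∈ Subgroup.centralizer (P : Set Y) := by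
    rw [Subgroup.mem_centralizer_iff]
    intro p hp
    have h2 : ((MulAut.conjNormal y : MulAut P) ⟨p, hp⟩ : Y) =
        ((MulAut.conjNormal z : MulAut P) ⟨p, hp⟩ : Y) := by
      have := congrArg (fun e : Equiv.Perm P => e ⟨p, hp⟩) h
      exact congrArg Subtype.val this
    rw [MulAut.conjNormal_apply, MulAut.conjNormal_apply] at h2
    change y * p * y⁻¹ = z * p * z⁻¹ at h2
    calc p * (y⁻¹ * z) = y⁻¹ * (y * p * y⁻¹) * z := by group
      _ = y⁻¹ * (z * p * z⁻¹) * z := by rw [h2]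
      _ = y⁻¹ * z * p := by group
  rw [hP.cent, Subgroup.mem_bot] at h1
  exact (inv_mul_eq_one.1 h1)

theorem card_le_relIndex {Y : Type u} [Group Y] [Finite Y] (P : Subgroup Y) (hP : IsSocle P)
    (H : Subgroup Y) (hH : ¬ P ≤ H) : Nat.card P ≤ (H.relIndex P).factorial := by
  have := hP.simple
  have h1 : (MulAction.toPermHom P (P ⧸ H.subgroupOf P)).ker = ⊥ := by
    rw [← Subgroup.normalCore_eq_ker]
    rcases (inferInstance : (H.subgroupOf P).normalCore.Normal).eq_bot_or_eq_top with h | h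
    · exact h
    · exfalso
      apply hH
      rw [← Subgroup.subgroupOf_eq_top]
      exact top_le_iff.1 (h ▸ Subgroup.normalCore_le _)
  have h2 := (MonoidHom.ker_eq_bot_iff _).1 h1
  have h3 := Nat.card_le_card_of_injective _ h2
  rw [Nat.card_perm] at h3
  exact h3

end SZSM

open SZSM in
theorem specSZS : SpecSZS.{u} := by
  refine ⟨fun Y _ _ P hP => ⟨card_le_factorial P hP, fun H hH => card_le_relIndex P hP H hH⟩, ?_⟩
  intro K _ F V₀ _ _ S₀ m hC P _ π hπ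
  have := hC.finK
  have := hC.finV
  have : Module.Finite K (SV K V₀ m) := inferInstance
  have : Finite (SV K V₀ m →ₗ[K] SV K V₀ m) := Module.finite_of_finite K
  have hinj : Function.Injective
      (fun g : (S₀.std m).D ⊤ => (g.1.toLinearMap : SV K V₀ m →ₗ[K] SV K V₀ m)) := by
    intro g h hgh
    exact Subtype.ext (LinearEquiv.toLinearMap_injective hgh)
  have : Finite ((S₀.std m).D ⊤) := Finite.of_injective _ hinj
  have h1 : Nat.card P ≤ Nat.card ((S₀.std m).D ⊤) := Nat.card_le_card_of_surjective π hπ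
  have h2 := Nat.card_le_card_of_injective _ hinj
  have h3 : Nat.card (SV K V₀ m →ₗ[K] SV K V₀ m) =
      Nat.card K ^ (Module.finrank K (SV K V₀ m) * Module.finrank K (SV K V₀ m)) := by
    rw [Module.natCard_eq_pow_finrank (K := K), Module.finrank_linearMap]
  have h4 : Module.finrank K (SV K V₀ m) ≤ 2 * m + 2 := by
    have := hC.dim
    simp only [SV, Module.finrank_prod, Module.finrank_pi, Fintype.card_fin]
    omega
  have h5 : 0 < Nat.card K := Nat.card_pos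
  refine h1.trans (h2.trans ?_)
  rw [h3, pow_two]
  exact Nat.pow_le_pow_right h5 (Nat.mul_le_mul h4 h4)

end Pool.Agent.Lib.MP66ef6b.CL
end

section
set_option autoImplicit false

/-!
# MP_66ef6b_al, THEOREM L2, module TH1: the map `θ`
-/

namespace Pool.Agent.Lib.MP66ef6b.CL

universe u

namespace TH1M

open LibM

variable {K : Type} [Field K] {F : FD K} {V₀ : Type} [AddCommGroup V₀] [Module K V₀]
  {S₀ : Sq F V₀} {m : ℕ} {P : Type u} [Group P] {π : (S₀.std m).D ⊤ →* P} {e : P ≃* P}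
  {x y : SV K V₀ m}

/-- `e` preserves `Z_x`. -/
def ZX (π : (S₀.std m).D ⊤ →* P) (e : P ≃* P) (x : SV K V₀ m) : Prop :=
  ∀ l ∈ F.Λ, ∃ l' ∈ F.Λ, Mp π e ((S₀.std m).T x 0 l) ((S₀.std m).T x 0 l')

theorem adm_q {V : Type} [AddCommGroup V] [Module K V] {S : Sq F V} {x y w : V} (hx : S.Sg x)
    (hw : w ∈ Wp S x y) : S.Adm x w (S.q w) := ⟨hx, S.B_eq_zero_swap hw.1, by
  rw [sub_self]
  exact F.Λ.zero_mem⟩

theorem adm_0 {V : Type} [AddCommGroup V] [Module K V] {S : Sq F V} {x : V} {l : K}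
    (hx : S.Sg x) (hl : l ∈ F.Λ) : S.Adm x 0 l := ⟨hx, S.B_zero_right x, by
  rw [S.q_zero, sub_zero]
  exact hl⟩

/-- the image of an element of `N_x`. -/
theorem ex (hxy : (S₀.std m).B x y ≠ 0) (hN : Nst π e x) {w : SV K V₀ m} {a : K}
    (h : (S₀.std m).Adm x w a) : ∃ w' ∈ Wp (S₀.std m) x y, ∃ a' : K, (S₀.std m).Adm x w' a' ∧
    Mp π e ((S₀.std m).T x w a) ((S₀.std m).T x w' a') := by
  obtain ⟨w1, a1, h1, h2⟩ := hN w a h
  obtain ⟨w', hw', a', h3, h4⟩ := T_red hxy h1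
  exact ⟨w', hw', a', h3, by rw [← h4]; exact h2⟩

/-- independence of `a`. -/
theorem indep (hπ : Ker π) (hxy : (S₀.std m).B x y ≠ 0) (hZ : ZX π e x) {w w1 w2 : SV K V₀ m}
    {a1 a2 b1 b2 : K} (h1 : (S₀.std m).Adm x w a1) (h2 : (S₀.std m).Adm x w a2)
    (hw1 : w1 ∈ Wp (S₀.std m) x y) (hw2 : w2 ∈ Wp (S₀.std m) x y)
    (g1 : (S₀.std m).Adm x w1 b1) (g2 : (S₀.std m).Adm x w2 b2)
    (m1 : Mp π e ((S₀.std m).T x w a1) ((S₀.std m).T x w1 b1))
    (m2 : Mp π e ((S₀.std m).T x w a2) ((S₀.std m).T x w2 b2)) : w1 = w2 := by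
  have hl : a1 - a2 ∈ F.Λ := by
    have := F.Λ.sub_mem h1.par h2.par
    rwa [sub_sub_sub_cancel_right] at this
  obtain ⟨l', hl', hm⟩ := hZ _ hl
  have h3 := Mp.mul hm m2
  rw [Sq.T_mul (adm_0 h1.sg hl) h2, Sq.T_mul (adm_0 h1.sg hl') g2, zero_add, zero_add,
    (S₀.std m).B_zero_right, (S₀.std m).B_zero_right, add_zero, add_zero, sub_add_cancel] at h3
  have g3 := (adm_0 h1.sg hl').add g2
  rw [zero_add, (S₀.std m).B_zero_right, add_zero] at g3
  have h4 := Mp.uniqT hπ g1 g3 (ne_of_B hxy).1 h3 m1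
  exact (T_uniq hxy hw1 hw2 g1 g3 h4).1

end TH1M

open TH1M LibM in
theorem specTH1 (hZXX : SpecZXX.{u}) (_hWPS : SpecWPS) (hSTB : SpecSTB.{u}) : SpecTH1.{u} := by
  intro K _ F V₀ _ _ S₀ m hC P _ π e hπ x y hx hy hxy hNx hNy
  refine ⟨?_, ?_⟩
  · have hZ : ZX π e x := hZXX K F V₀ S₀ m hC P π e hπ x y hx hy hxy hNx hNy
    have hZ' : ZX π e.symm x := hZXX K F V₀ S₀ m hC P π e.symm hπ x y hx hy hxy
      (hSTB K F V₀ S₀ m hC P π e hπ x hx (ne_of_B hxy).1 hNx).1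
      (hSTB K F V₀ S₀ m hC P π e hπ y hy (ne_of_B hxy).2 hNy).1
    have hch : ∀ w : SV K V₀ m, ∃ w' : SV K V₀ m, w ∈ Wp (S₀.std m) x y →
        w' ∈ Wp (S₀.std m) x y ∧ ∃ a' : K, (S₀.std m).Adm x w' a' ∧
        Mp π e ((S₀.std m).T x w ((S₀.std m).q w)) ((S₀.std m).T x w' a') := by
      intro w
      by_cases hw : w ∈ Wp (S₀.std m) x y
      · obtain ⟨w', hw', a', h1, h2⟩ := ex hxy hNx (adm_q hx hw)
        exact ⟨w', fun _ => ⟨hw', a', h1, h2⟩⟩
      · exact ⟨0, fun h => absurd h hw⟩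
    choose θ hθ using hch
    have key : ∀ w ∈ Wp (S₀.std m) x y, ∀ a a' : K, (S₀.std m).Adm x w a → ∀ w' : SV K V₀ m,
        w' ∈ Wp (S₀.std m) x y → (S₀.std m).Adm x w' a' →
        Mp π e ((S₀.std m).T x w a) ((S₀.std m).T x w' a') → w' = θ w := by
      intro w hw a a' h1 w' hw' h2 h3
      obtain ⟨h4, b, h5, h6⟩ := hθ w hw
      exact indep hπ hxy hZ h1 (adm_q hx hw) hw' h4 h2 h5 h3 h6
    refine ⟨θ, fun w hw => (hθ w hw).1, ?_, ?_, key⟩
    · intro u hu v hv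
      obtain ⟨h1, a1, h2, h3⟩ := hθ u hu
      obtain ⟨g1, b1, g2, g3⟩ := hθ v hv
      have h4 := Mp.mul h3 g3
      rw [Sq.T_mul (adm_q hx hu) (adm_q hx hv), Sq.T_mul h2 g2] at h4
      exact (key (u + v) ((Wp (S₀.std m) x y).add_mem hu hv) _ _
        ((adm_q hx hu).add (adm_q hx hv)) _ ((Wp (S₀.std m) x y).add_mem h1 g1) (h2.add g2)
        h4).symm
    · intro w hw h0
      obtain ⟨h1, a1, h2, h3⟩ := hθ w hw
      rw [h0] at h2 h3
      have hl : a1 ∈ F.Λ := by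
        have := h2.par
        rwa [(S₀.std m).q_zero, sub_zero] at this
      obtain ⟨l', hl', hm⟩ := hZ' _ hl
      have h4 := Mp.uniqT hπ (adm_q hx hw) (adm_0 hx hl') (ne_of_B hxy).1 hm (Mp.symm h3)
      exact (T_uniq hxy hw (Wp (S₀.std m) x y).zero_mem (adm_q hx hw) (adm_0 hx hl') h4).1
  · intro θ hθ w hw a h
    obtain ⟨w', hw', a', h1, h2⟩ := ex hxy hNx h
    have h3 := hθ.2.2.2 w hw a a' h w' hw' h1 h2
    subst h3
    exact ⟨a', h1, h2⟩

end Pool.Agent.Lib.MP66ef6b.CL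
end

section
set_option autoImplicit false

/-!
# MP_66ef6b_al, THEOREM L2, module TH2: `θ` is linear
-/

namespace Pool.Agent.Lib.MP66ef6b.CL

universe u

namespace TH2M

variable {K : Type} [Field K] {F : FD K} {V : Type} [AddCommGroup V] [Module K V] {S : Sq F V}

/-- the elements of `D W` fix the vectors orthogonal to `W`. -/
theorem fix_x {W : Submodule K V} {x : V} (hW : ∀ u ∈ W, S.B x u = 0) {g : V ≃ₗ[K] V}
    (hg : g ∈ S.D W) : g x = x := by
  induction hg using Subgroup.closure_induction with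
  | mem g hg =>
    obtain ⟨u, hu, w, hw, a, ha, rfl⟩ := hg
    rw [Sq.T_apply ha, hW u hu, hW w hw]
    simp
  | one => rfl
  | mul g h _ _ hg hh => rw [LinearEquiv.mul_apply, hh, hg]
  | inv g _ hg =>
    have h0 : g⁻¹ (g x) = x := by
      rw [← LinearEquiv.mul_apply, inv_mul_cancel, LinearEquiv.coe_one, id_eq]
    rw [hg] at h0
    exact h0

theorem mem_of_iso {g : V ≃ₗ[K] V} (hg : g ∈ S.Iso) {x v : V} {a : K} (hx : x ≠ 0)
    (hgx : g x = a • x) (hv : S.B v x = 0) : S.B (g v) x = 0 := by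
  have h1 : S.B (g v) (g x) = 0 := by rw [hg.1, hv]
  rw [hgx, S.B_smul_right] at h1
  rcases mul_eq_zero.1 h1 with h | h
  · exfalso
    have ha : a = 0 := by
      rw [← F.inv a, h, map_zero]
    rw [ha, zero_smul] at hgx
    apply hx
    apply g.injective
    rw [hgx, map_zero]
  · exact h

end TH2M

open TH2M in
/-- **Module TH2**: `θ` is linear. -/
theorem specTH2 (hCMM : SpecCMM) (hITW : SpecITW.{u}) (hSTB : SpecSTB.{u}) : SpecTH2.{u} := by
  intro K _ F V₀ _ _ S₀ m hC P _ π e hK x y hx hy hxy hNx hNy θ hθ W₀ hW₀ hW₀b hid c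
  have hfK := hC.finK
  have hfV := hC.finV
  have hfin : Finite V₀ := Module.finite_of_finite K
  have hθ' := hθ
  obtain ⟨hθW, hθadd, hθ0, -⟩ := hθ'
  have hx0 : x ≠ 0 := by
    intro h
    apply hxy
    rw [h, Sq.B_zero_left]
  have hy0 : y ≠ 0 := by
    intro h
    apply hxy
    rw [h, Sq.B_zero_right]
  have hzero : θ 0 = 0 := by
    have h := hθadd 0 (Submodule.zero_mem _) 0 (Submodule.zero_mem _)
    rw [add_zero] at h
    exact left_eq_add.1 h
  have hneg : ∀ u ∈ Wp (S₀.std m) x y, θ (-u) = -θ u := by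
    intro u hu
    have h := hθadd u hu (-u) (Submodule.neg_mem _ hu)
    rw [add_neg_cancel, hzero] at h
    exact (neg_eq_of_add_eq_zero_right h.symm).symm
  have hinj : ∀ u ∈ Wp (S₀.std m) x y, ∀ v ∈ Wp (S₀.std m) x y, θ u = θ v → u = v := by
    intro u hu v hv h
    have h1 := hθadd u hu (-v) (Submodule.neg_mem _ hv)
    rw [hneg v hv, h, add_neg_cancel] at h1
    have h2 := hθ0 (u + -v) (Submodule.add_mem _ hu (Submodule.neg_mem _ hv)) h1
    rw [← sub_eq_add_neg] at h2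
    exact sub_eq_zero.1 h2
  have hsurj : ∀ v ∈ Wp (S₀.std m) x y, ∃ w ∈ Wp (S₀.std m) x y, θ w = v := by
    let f : Wp (S₀.std m) x y → Wp (S₀.std m) x y := fun w => ⟨θ w.1, hθW w.1 w.2⟩
    have hf : Function.Injective f := by
      intro u v h
      apply Subtype.ext
      exact hinj u.1 u.2 v.1 v.2 (congrArg Subtype.val h)
    have hf2 : Function.Surjective f := Finite.injective_iff_surjective.1 hf
    intro v hv
    obtain ⟨w, hw⟩ := hf2 ⟨v, hv⟩
    exact ⟨w.1, w.2, congrArg Subtype.val hw⟩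
  choose! ψ hψ1 hψ2 using hsurj
  -- the elements of `D W`
  have key : ∀ m₀ ∈ (S₀.std m).D (Wp (S₀.std m) x y), ∃ (g : SV K V₀ m ≃ₗ[K] SV K V₀ m) (a : K),
      (∀ w ∈ Wp (S₀.std m) x y, a • g w ∈ Wp (S₀.std m) x y) ∧
      ∀ w ∈ Wp (S₀.std m) x y, θ (a • g w) = m₀ (θ w) := by
    intro m₀ hm₀
    have hm₁ : m₀ ∈ (S₀.std m).D ⊤ := Sq.D_mono le_top hm₀
    have hWx : ∀ u ∈ Wp (S₀.std m) x y, (S₀.std m).B x u = 0 := by
      intro u hu
      exact (S₀.std m).B_eq_zero_swap hu.1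
    have hWy : ∀ u ∈ Wp (S₀.std m) x y, (S₀.std m).B y u = 0 := by
      intro u hu
      exact (S₀.std m).B_eq_zero_swap hu.2
    have hmx : m₀ x = x := fix_x hWx hm₀
    have hmy : m₀ y = y := fix_x hWy hm₀
    obtain ⟨⟨g, hg⟩, hg2⟩ := hK.1 (e.symm (π ⟨m₀, hm₁⟩))
    have hMp : Mp π e g m₀ := by
      refine ⟨hg, hm₁, ?_⟩
      rw [hg2, MulEquiv.apply_symm_apply]
    obtain ⟨α, hα⟩ := ((hSTB K F V₀ S₀ m hC P π e hK x hx hx0 hNx).2 g m₀ hMp).2
      ⟨1, by rw [hmx, one_smul]⟩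
    obtain ⟨β, hβ⟩ := ((hSTB K F V₀ S₀ m hC P π e hK y hy hy0 hNy).2 g m₀ hMp).2
      ⟨1, by rw [hmy, one_smul]⟩
    refine ⟨g, F.σ α, ?_, ?_⟩
    · intro w hw
      apply Submodule.smul_mem
      have hgI : g ∈ (S₀.std m).Iso := Sq.D_le_Iso _ hg
      exact ⟨mem_of_iso hgI hx0 hα hw.1, mem_of_iso hgI hy0 hβ hw.2⟩
    · intro w hw
      have h := hITW K F V₀ S₀ m hC P π e hK x y hx hy hxy hNx hNy θ hθ g m₀ hMp α 1 hα
        (by rw [hmx, one_smul]) ⟨β, hβ⟩ w hw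
      rw [map_one, one_smul] at h
      exact h
  -- `θ ∘ c ∘ θ⁻¹`
  obtain ⟨c', hc'⟩ := hCMM K F V₀ S₀ m hC.rk hC.nd x y hx hy hxy (fun v => θ (c • ψ v))
    (fun u hu => hθW _ (Submodule.smul_mem _ _ (hψ1 u hu)))
    (by
      intro u hu v hv
      have h1 : ψ (u + v) = ψ u + ψ v := by
        apply hinj _ (hψ1 _ (Submodule.add_mem _ hu hv)) _
          (Submodule.add_mem _ (hψ1 u hu) (hψ1 v hv))
        rw [hψ2 _ (Submodule.add_mem _ hu hv), hθadd _ (hψ1 u hu) _ (hψ1 v hv), hψ2 u hu,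
          hψ2 v hv]
      change θ (c • ψ (u + v)) = θ (c • ψ u) + θ (c • ψ v)
      rw [h1, smul_add, hθadd _ (Submodule.smul_mem _ _ (hψ1 u hu)) _
        (Submodule.smul_mem _ _ (hψ1 v hv))])
    (by
      intro m₀ hm₀ v hv
      obtain ⟨g, a, hg1, hg2⟩ := key m₀ hm₀
      change θ (c • ψ (m₀ v)) = m₀ (θ (c • ψ v))
      have hw := hψ1 v hv
      have h1 : m₀ v = θ (a • g (ψ v)) := by
        rw [hg2 _ hw, hψ2 v hv]
      have h2 : m₀ v ∈ Wp (S₀.std m) x y := by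
        rw [h1]
        exact hθW _ (hg1 _ hw)
      have h3 : ψ (m₀ v) = a • g (ψ v) := by
        apply hinj _ (hψ1 _ h2) _ (hg1 _ hw)
        rw [hψ2 _ h2, h1]
      rw [h3, ← hg2 _ (Submodule.smul_mem _ c hw), map_smul, smul_comm])
  have hψθ : ∀ w ∈ Wp (S₀.std m) x y, ψ (θ w) = w := fun w hw =>
    hinj _ (hψ1 _ (hθW w hw)) _ hw (hψ2 _ (hθW w hw))
  have hcc : c' = c := by
    obtain ⟨w₀, hw₀, hw₀0⟩ := Submodule.exists_mem_ne_zero_of_ne_bot hW₀b
    have h1 := hc' w₀ (hW₀ hw₀)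
    have h2 := hψθ w₀ (hW₀ hw₀)
    rw [hid w₀ hw₀] at h2
    rw [h2, hid _ (Submodule.smul_mem _ c hw₀)] at h1
    have h3 : (c' - c) • w₀ = 0 := by rw [sub_smul, ← h1, sub_self]
    rcases smul_eq_zero.1 h3 with h | h
    · exact sub_eq_zero.1 h
    · exact absurd h hw₀0
  intro w hw
  have h1 := hc' (θ w) (hθW w hw)
  rw [hψθ w hw, hcc] at h1
  exact h1

end Pool.Agent.Lib.MP66ef6b.CL
end

section
set_option autoImplicit false

/-!
# MP_66ef6b_al, THEOREM L2, module THC: Theorem A for classical groups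
-/

namespace Pool.Agent.Lib.MP66ef6b.CL

theorem specTHC (hC4 : SpecC4) (hA2F : SpecA2F) : SpecTHC := by
  intro δ h0 h1
  obtain ⟨q, hq⟩ := hC4 δ h0 h1
  obtain ⟨R, hR⟩ := hA2F δ h0 h1
  refine ⟨q, R, ?_⟩
  intro K _ F V₀ _ _ S₀ m hcls f hf hsc hn
  by_cases hK : q ≤ Nat.card K
  · exact hq K F V₀ S₀ m hcls hK f hf hsc
  · refine hR K F V₀ S₀ m hcls f hf (fun a => ?_)
    by_contra hle
    exact hn ⟨not_le.1 hK, a, not_lt.1 hle⟩

end Pool.Agent.Lib.MP66ef6b.CL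
end

section
set_option autoImplicit false

/-!
# MP_66ef6b_al, THEOREM L2, module TRW: a product of conjugates
-/

namespace Pool.Agent.Lib.MP66ef6b.CL

namespace TRWM

section lin

variable {K V : Type} [Field K] [AddCommGroup V] [Module K V] [Module.Finite K V]

theorem finrank_inf_ker (W : Submodule K V) (ψ : V →ₗ[K] K) :
    Module.finrank K W ≤ Module.finrank K (W ⊓ LinearMap.ker ψ : Submodule K V) + 1 := by
  have h1 := LinearMap.finrank_range_add_finrank_ker ψ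
  have h2 := Submodule.finrank_le (LinearMap.range ψ)
  rw [Module.finrank_self] at h2
  have h3 := Submodule.finrank_sup_add_finrank_inf_eq W (LinearMap.ker ψ)
  have h4 := Submodule.finrank_le (W ⊔ LinearMap.ker ψ)
  omega

/-- A subspace of large dimension fixed by `A`, killed by `ψ`, not containing multiples of `z`. -/
theorem exists_space (A : V ≃ₗ[K] V) (ψ : V →ₗ[K] K) (z : V) (hz : z ≠ 0) :
    ∃ X : Submodule K V, Module.finrank K V ≤ Module.finrank K X + (rk A + 2) ∧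
      ∀ x ∈ X, A x = x ∧ ψ x = 0 ∧ (x ≠ 0 → LinearIndependent K ![x, z]) := by
  obtain ⟨φ, hφ⟩ : ∃ φ : V →ₗ[K] K, φ z ≠ 0 := by
    by_contra h
    push Not at h
    exact hz ((Module.forall_dual_apply_eq_zero_iff K z).1 h)
  refine ⟨(LinearMap.ker (A.toLinearMap - LinearMap.id) ⊓ LinearMap.ker ψ) ⊓ LinearMap.ker φ, ?_, ?_⟩
  · have h1 := LinearMap.finrank_range_add_finrank_ker (A.toLinearMap - LinearMap.id)
    have h2 := finrank_inf_ker (LinearMap.ker (A.toLinearMap - LinearMap.id)) ψ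
    have h3 := finrank_inf_ker (LinearMap.ker (A.toLinearMap - LinearMap.id) ⊓ LinearMap.ker ψ) φ
    have h4 : rk A = Module.finrank K (LinearMap.range (A.toLinearMap - LinearMap.id)) := rfl
    omega
  · rintro x ⟨⟨hx1, hx2⟩, hx3⟩
    refine ⟨?_, hx2, ?_⟩
    · have h1 : A.toLinearMap x - x = 0 := hx1
      exact sub_eq_zero.1 h1
    · intro hx0
      rw [LinearIndependent.pair_iff]
      intro s t hst
      have hx3' : φ x = 0 := hx3
      have h1 := congrArg φ hst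
      rw [map_add, map_smul, map_smul, hx3', map_zero, smul_zero, zero_add, smul_eq_mul] at h1
      have ht : t = 0 := (mul_eq_zero.1 h1).resolve_right hφ
      rw [ht, zero_smul, add_zero] at hst
      exact ⟨(smul_eq_zero.1 hst).resolve_right hx0, ht⟩

end lin

variable {K : Type} [Field K] {F : FD K} {V : Type} [AddCommGroup V] [Module K V]

/-- the form in the first variable, as a linear map. -/
def Bl (S : Sq F V) (u : V) : V →ₗ[K] K where
  toFun x := S.B x u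
  map_add' x y := S.B_add_left x y u
  map_smul' c x := S.B_smul_left c x u

/-- Chevalley-Warning for a subspace of dimension at least three. -/
theorem exists_singular (hCWQ : SpecCWQ) [Finite K] [Module.Finite K V] (S : Sq F V)
    (X : Submodule K V) (hX : 3 ≤ Module.finrank K X) : ∃ x ∈ X, x ≠ 0 ∧ S.Sg x := by
  have hfin : Finite X := Module.finite_of_finite K
  obtain ⟨p, hp⟩ : ∃ p, CharP K p := CharP.exists K
  have hpp : p.Prime := by
    have : Fintype K := Fintype.ofFinite K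
    exact CharP.char_is_prime K p
  have hpK : ∀ y : K, p • y = 0 := fun y => by
    rw [nsmul_eq_mul, CharP.cast_eq_zero, zero_mul]
  have h3 : Nat.card (K ⧸ F.Λ) ^ 2 < Nat.card X := by
    have h1 : Nat.card (K ⧸ F.Λ) ≤ Nat.card K :=
      Nat.card_le_card_of_surjective _ (QuotientAddGroup.mk_surjective (s := F.Λ))
    have h2 : 1 < Nat.card K := Finite.one_lt_card
    rw [Module.natCard_eq_pow_finrank (K := K) (V := X)]
    calc Nat.card (K ⧸ F.Λ) ^ 2 ≤ Nat.card K ^ 2 := Nat.pow_le_pow_left h1 2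
      _ < Nat.card K ^ Module.finrank K X := Nat.pow_lt_pow_right h2 (by omega)
  obtain ⟨x, hx0, hx⟩ := hCWQ p X (K ⧸ F.Λ)
    (fun x => (QuotientAddGroup.mk (S.q x.1) : K ⧸ F.Λ))
    (fun x z => (QuotientAddGroup.mk (S.B x.1 z.1) : K ⧸ F.Λ)) hpp
    (fun x => by
      apply Subtype.ext
      change p • x.1 = 0
      rw [← Nat.cast_smul_eq_nsmul K, CharP.cast_eq_zero, zero_smul])
    (fun z => by
      induction z using QuotientAddGroup.induction_on with
      | H z =>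
        have h1 : p • (QuotientAddGroup.mk z : K ⧸ F.Λ) = QuotientAddGroup.mk (p • z) := rfl
        rw [h1, hpK]
        rfl)
    (fun u v w => by
      change (QuotientAddGroup.mk (S.B (u.1 + v.1) w.1) : K ⧸ F.Λ) = _
      rw [S.B_add_left]
      rfl)
    (fun u v w => by
      change (QuotientAddGroup.mk (S.B u.1 (v.1 + w.1)) : K ⧸ F.Λ) = _
      rw [S.B_add_right]
      rfl)
    (fun u v => by
      have h1 := S.q_add u.1 v.1
      have h2 : (QuotientAddGroup.mk (S.q u.1 + S.q v.1 + S.B u.1 v.1) : K ⧸ F.Λ) =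
          QuotientAddGroup.mk (S.q (u.1 + v.1)) := by
        rw [QuotientAddGroup.eq]
        have h4 : -(S.q u.1 + S.q v.1 + S.B u.1 v.1) + S.q (u.1 + v.1) =
            S.q (u.1 + v.1) - (S.q u.1 + S.q v.1 + S.B u.1 v.1) := by ring
        rw [h4]
        exact h1
      exact h2.symm)
    h3
  refine ⟨x.1, x.2, fun h => hx0 (Subtype.ext h), ?_⟩
  exact (QuotientAddGroup.eq_zero_iff (N := F.Λ) (S.q x.1)).1 hx

theorem adm0 {S : Sq F V} {x w : V} (hx : S.Sg x) (hw : S.Sg w) (h : S.B x w = 0) :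
    S.Adm x w 0 where
  sg := hx
  orth := h
  par := by
    rw [zero_sub]
    exact F.Λ.neg_mem hw

/-- An isometry with a singular vector `u₀` and a fixed singular vector `x ⟂ u₀`. -/
theorem comm_eq {S : Sq F V} {A : V ≃ₗ[K] V} (hA : A ∈ S.Iso) {x u₀ : V} (hx : S.Sg x)
    (hu : S.Sg u₀) (hxu : S.B x u₀ = 0) (hAx : A x = x) :
    S.Adm x (A u₀ - u₀) (-S.B u₀ (A u₀)) ∧
      A * S.T x u₀ 0 * A⁻¹ * (S.T x u₀ 0)⁻¹ = S.T x (A u₀ - u₀) (-S.B u₀ (A u₀)) := by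
  have h1 : S.Adm x u₀ 0 := adm0 hx hu hxu
  have h2 : S.Adm x (A u₀) 0 := by
    have := h1.map hA
    rwa [hAx] at this
  have h3 : S.Adm x (-u₀) 0 := by
    have := h1.inv
    rwa [map_zero, mul_zero] at this
  have h4 := h2.add h3
  rw [add_zero, zero_add, S.B_neg_left, ← sub_eq_add_neg] at h4
  refine ⟨h4, ?_⟩
  rw [Sq.T_conj h1 hA, hAx, Sq.T_inv h1, map_zero, mul_zero, Sq.T_mul h2 h3, add_zero, zero_add,
    S.B_neg_left, ← sub_eq_add_neg]

/-- The second commutator. -/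
theorem comm_eq' {S : Sq F V} {x z u v : V} {a : K} (h : S.Adm x z a) (huv : S.Adm u v 0)
    (hxv : S.Adm x v 0) (hxu : S.B x u = 0) (hzu : S.B z u = 1) (hzv : S.B z v = 0) :
    S.T u v 0 * S.T x z a * (S.T u v 0)⁻¹ * (S.T x z a)⁻¹ = S.T x v 0 := by
  have h1 : S.T u v 0 x = x := by
    rw [Sq.T_apply huv, hxu, hxv.orth]
    simp
  have h2 : S.T u v 0 z = z + v := by
    rw [Sq.T_apply huv, hzu, hzv]
    simp
  have h3 : S.Adm x (z + v) a := by
    have := h.map (Sq.T_mem_Iso huv)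
    rwa [h1, h2] at this
  rw [Sq.T_conj h (Sq.T_mem_Iso huv), h1, h2, Sq.T_inv h, Sq.T_mul h3 h.inv]
  have h4 : S.B (-z) (z + v) = -(a + F.ε * F.σ a) := by
    rw [S.B_neg_left, S.B_add_right, h.self, hzv, add_zero]
  rw [h4, add_neg_cancel]
  congr 1
  abel

theorem group_id {G : Type} [Group G] (A t s h : G) :
    h * (s * (A * t * A⁻¹ * t⁻¹) * s⁻¹ * (A * t * A⁻¹ * t⁻¹)⁻¹) * h⁻¹ =
      ((h * s) * A * (h * s)⁻¹) * ((h * s * t) * A * (h * s * t)⁻¹)⁻¹ *
        ((h * t) * A * (h * t)⁻¹) * (h * A * h⁻¹)⁻¹ := by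
  group

end TRWM

open TRWM in
theorem specTRW (hWT2 : SpecWT2) (hPRU : SpecPRU) (hCWQ : SpecCWQ) : SpecTRW := by
  intro d
  refine ⟨d + 5, ?_⟩
  intro K _ F V₀ _ _ S₀ m hC hm A hA hA1 hrk τ hτ
  have := hC.finK
  have := hC.finV
  have hN : S₀.Nd := hC.nd
  obtain ⟨u₀, hu, hAu⟩ : ∃ u₀, (S₀.std m).Sg u₀ ∧ A u₀ ≠ u₀ := by
    by_contra hcon
    push Not at hcon
    obtain ⟨c, hc⟩ := specSCA K F V₀ S₀ m (by omega) A fun x hx => ⟨1, by
      rw [one_smul]
      exact hcon x hx⟩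
    apply hA1
    have h0 := SCAM.sg_E S₀ (Pi.single (⟨0, by omega⟩ : Fin m) 1)
    have h1 := hcon _ h0
    rw [hc] at h1
    have h2 := congrArg (fun v : SV K V₀ m => v.1 ⟨0, by omega⟩) h1
    simp only [Prod.smul_fst, Pi.smul_apply, Pi.single_eq_same, smul_eq_mul, mul_one] at h2
    refine LinearEquiv.ext fun v => ?_
    rw [hc, h2, one_smul]
    rfl
  have hz : A u₀ - u₀ ≠ 0 := sub_ne_zero.2 hAu
  obtain ⟨X, hXd, hX⟩ := exists_space A (Bl (S₀.std m) u₀) (A u₀ - u₀) hz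
  have hn : 2 * m ≤ Module.finrank K (SV K V₀ m) := by
    simp only [SV, Module.finrank_prod, Module.finrank_pi, Fintype.card_fin]
    omega
  obtain ⟨x, hxX, hx0, hx⟩ := exists_singular hCWQ (S₀.std m) X (by omega)
  obtain ⟨hAx, hxu, hli⟩ := hX x hxX
  have hxu' : (S₀.std m).B x u₀ = 0 := hxu
  obtain ⟨hadm, hcomm⟩ := comm_eq hA hx hu hxu' hAx
  obtain ⟨u, v, huv, hxv, hxu1, hzu, hzv⟩ := hPRU K F V₀ S₀ m hC.rk hN x (A u₀ - u₀) hx
    hadm.orth (hli hx0)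
  have huv' : (S₀.std m).Adm u v 0 := adm0 huv.1 huv.2.1 huv.2.2.1
  have hxv' : (S₀.std m).Adm x v 0 := adm0 hxv.1 hxv.2.1 hxv.2.2.1
  have hcomm2 := comm_eq' hadm huv' hxv' hxu1 hzu hzv
  obtain ⟨h, hh, hhx, hhv⟩ := hWT2 K F V₀ S₀ m hC.rk hN x v τ.1 τ.2 hx hτ.1 hxv.2.2.1 hτ.2.2.1
    hxv.2.2.2 hτ.2.2.2 (F.Λ.sub_mem hxv.2.1 hτ.2.1)
  have ht := Sq.T_mem_G (adm0 hx hu hxu' : (S₀.std m).Adm x u₀ 0)
  have hs := Sq.T_mem_G huv'
  refine ⟨h * (S₀.std m).T u v 0, mul_mem hh hs, h * (S₀.std m).T u v 0 * (S₀.std m).T x u₀ 0,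
    mul_mem (mul_mem hh hs) ht, h * (S₀.std m).T x u₀ 0, mul_mem hh ht, h, hh, ?_⟩
  rw [← group_id, hcomm, hcomm2, Sq.T_conj hxv' (Sq.D_le_Iso _ hh), hhx, hhv]

end Pool.Agent.Lib.MP66ef6b.CL
end

section
set_option autoImplicit false

/-!
# MP_66ef6b_al, THEOREM L2: module UNL (lifts are unique)
-/

namespace Pool.Agent.Lib.MP66ef6b.CL

universe u

open LibM

namespace UNLM

section

variable {K : Type} [Field K] {F : FD K} {V : Type} [AddCommGroup V] [Module K V] {S : Sq F V}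

theorem admT {x w : V} (h : (x, w) ∈ S.TPs) : S.Adm x w 0 :=
  ⟨h.1, h.2.2.1, by
    rw [zero_sub]
    exact F.Λ.neg_mem h.2.1⟩

theorem plane (hN : S.Nd) {x w : V} (h : (x, w) ∈ S.TPs) {A A' : V ≃ₗ[K] V} (hA : A ∈ S.Iso)
    (hA' : A' ∈ S.Iso) (hT : S.T (A x) (A w) 0 = S.T (A' x) (A' w) 0) :
    ∃ a b : K, A x = a • A' x + b • A' w := by
  obtain ⟨v, hv⟩ := fnl hN ![x, w] h.2.2.2 ![0, 1]
  have h0 : S.B v x = 0 := hv 0
  have h1 : S.B v w = 1 := hv 1
  have h2 := congrArg (fun g : V ≃ₗ[K] V => g (A v)) hT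
  simp only [Sq.T_apply ((admT h).map hA), Sq.T_apply ((admT h).map hA'), hA.1, h0, h1] at h2
  refine ⟨F.ε * (F.ε * (S.B (A v) (A' w) + 0 * S.B (A v) (A' x))),
    -(F.ε * S.B (A v) (A' x)), ?_⟩
  have h3 : A x = F.ε • (A v + (0 : K) • A w) -
      F.ε • (A v + (0 : K) • A w - (F.ε * (1 + 0 * 0)) • A x) := by
    rw [← smul_sub, sub_sub_cancel, smul_smul]
    have : F.ε * (F.ε * (1 + 0 * 0)) = 1 := by linear_combination F.ee
    rw [this, one_smul]
  rw [h3, h2]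
  module

end

theorem core {K : Type} [Field K] {F : FD K} {V₀ : Type} [AddCommGroup V₀] [Module K V₀]
    {S₀ : Sq F V₀} {m : ℕ} (hWT1 : SpecWT1) (hC : Cls S₀ m)
    {A A' : SV K V₀ m ≃ₗ[K] SV K V₀ m} (hA : A ∈ (S₀.std m).Iso) (hA' : A' ∈ (S₀.std m).Iso)
    (hT : ∀ x w, (x, w) ∈ (S₀.std m).TPs →
      (S₀.std m).T (A x) (A w) 0 = (S₀.std m).T (A' x) (A' w) 0)
    (x : SV K V₀ m) (hx : (S₀.std m).Sg x) : ∃ c : K, (A'⁻¹ * A) x = c • x := by
  have hN : (S₀.std m).Nd := std_nd hC.nd m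
  by_cases hx0 : x = 0
  · exact ⟨0, by rw [hx0, map_zero, smul_zero]⟩
  have hm := hC.rk
  have h01 : (⟨0, by omega⟩ : Fin m) ≠ ⟨1, by omega⟩ := by
    intro h
    have := congrArg Fin.val h
    simp at this
  have h02 : (⟨0, by omega⟩ : Fin m) ≠ ⟨2, by omega⟩ := by
    intro h
    have := congrArg Fin.val h
    simp at this
  have h12 : (⟨1, by omega⟩ : Fin m) ≠ ⟨2, by omega⟩ := by
    intro h
    have := congrArg Fin.val h
    simp at this
  have he0 : eV K V₀ (⟨0, by omega⟩ : Fin m) ≠ 0 := (PRUM.li_ee h01).ne_zero 0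
  obtain ⟨g, hg, hgx⟩ := hWT1 K F V₀ S₀ m (by omega) hC.nd x (eV K V₀ ⟨0, by omega⟩) hx0 he0 (by
    rw [PRUM.q_e, sub_zero]
    exact hx)
  have hgi : g ∈ (S₀.std m).Iso := Sq.D_le_Iso _ hg
  have hgi' : g⁻¹ ∈ (S₀.std m).Iso := inv_mem hgi
  have hgg : ∀ v, g⁻¹ (g v) = v := fun v => by
    rw [← LinearEquiv.mul_apply, inv_mul_cancel, LinearEquiv.coe_one, id_eq]
  have hgg' : ∀ v, g (g⁻¹ v) = v := fun v => by
    rw [← LinearEquiv.mul_apply, mul_inv_cancel, LinearEquiv.coe_one, id_eq]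
  have hAA : ∀ v, A'⁻¹ (A' v) = v := fun v => by
    rw [← LinearEquiv.mul_apply, inv_mul_cancel, LinearEquiv.coe_one, id_eq]
  have hxe : g⁻¹ (eV K V₀ ⟨0, by omega⟩) = x := by rw [← hgx, hgg]
  have key : ∀ j : Fin m, (⟨0, by omega⟩ : Fin m) ≠ j →
      ∃ a b : K, (A'⁻¹ * A) x = a • x + b • g⁻¹ (eV K V₀ j) := by
    intro j hj
    have hTP : (x, g⁻¹ (eV K V₀ j)) ∈ (S₀.std m).TPs := by
      have := PRUM.tps_map (S := S₀.std m) hgi' (x := eV K V₀ (⟨0, by omega⟩ : Fin m))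
        (y := eV K V₀ j) ⟨PRUM.sg_e _, PRUM.sg_e _, PRUM.B_ee _ _, PRUM.li_ee hj⟩
      rwa [hxe] at this
    obtain ⟨a, b, hab⟩ := plane hN hTP hA hA' (hT _ _ hTP)
    refine ⟨a, b, ?_⟩
    rw [LinearEquiv.mul_apply, hab, map_add, map_smul, map_smul, hAA, hAA]
  obtain ⟨a, b, hab⟩ := key _ h01
  obtain ⟨a', b', hab'⟩ := key _ h02
  have h1 := hab.symm.trans hab'
  have h2 := congrArg g h1
  rw [map_add, map_add, map_smul, map_smul, map_smul, map_smul, hgg', hgg', hgx] at h2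
  have h3 := congrArg (fun v : SV K V₀ m => v.1 ⟨1, by omega⟩) h2
  simp only [eV, Prod.fst_add, Prod.smul_fst, Pi.add_apply, Pi.smul_apply,
    Pi.single_eq_same, Pi.single_eq_of_ne h01.symm, Pi.single_eq_of_ne h12,
    smul_eq_mul, mul_one, mul_zero, add_zero, zero_add] at h3
  refine ⟨a, ?_⟩
  rw [hab, h3, zero_smul, add_zero]

theorem fixv {K V : Type} [Field K] [AddCommGroup V] [Module K V] [Module.Finite K V]
    (A A' : V ≃ₗ[K] V) (h : rk A + rk A' < Module.finrank K V) :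
    ∃ v, v ≠ 0 ∧ A v = v ∧ A' v = v := by
  have h1 := LinearMap.finrank_range_add_finrank_ker (A.toLinearMap - LinearMap.id)
  have h2 := LinearMap.finrank_range_add_finrank_ker (A'.toLinearMap - LinearMap.id)
  have h3 := Submodule.finrank_sup_add_finrank_inf_eq
    (LinearMap.ker (A.toLinearMap - LinearMap.id)) (LinearMap.ker (A'.toLinearMap - LinearMap.id))
  have h4 := Submodule.finrank_le (LinearMap.ker (A.toLinearMap - LinearMap.id) ⊔
    LinearMap.ker (A'.toLinearMap - LinearMap.id))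
  simp only [rk] at h
  have h5 : (LinearMap.ker (A.toLinearMap - LinearMap.id) ⊓
    LinearMap.ker (A'.toLinearMap - LinearMap.id)) ≠ ⊥ := by
    intro h0
    rw [h0, finrank_bot] at h3
    omega
  obtain ⟨v, hv, hv0⟩ := Submodule.exists_mem_ne_zero_of_ne_bot h5
  refine ⟨v, hv0, ?_, ?_⟩
  · have := hv.1
    rw [SetLike.mem_coe, LinearMap.mem_ker] at this
    exact sub_eq_zero.1 this
  · have := hv.2
    rw [SetLike.mem_coe, LinearMap.mem_ker] at this
    exact sub_eq_zero.1 this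

end UNLM

open UNLM in
theorem specUNL (hSCA : SpecSCA) (hWT1 : SpecWT1) : SpecUNL.{u} := by
  intro K _ F V₀ _ _ S₀ m hC P _ π hπ A hA A' hA' hr h
  have := hC.finV
  have hT : ∀ x w, (x, w) ∈ (S₀.std m).TPs →
      (S₀.std m).T (A x) (A w) 0 = (S₀.std m).T (A' x) (A' w) 0 := by
    intro x w hxw
    have hg : (S₀.std m).T x w 0 ∈ (S₀.std m).D ⊤ := Sq.T_mem_G (admT hxw)
    have h1 := h _ hg (Sq.conj_mem_D hA hg) (Sq.conj_mem_D hA' hg)
    have h2 : π (⟨A' * (S₀.std m).T x w 0 * A'⁻¹, Sq.conj_mem_D hA' hg⟩⁻¹ *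
        ⟨A * (S₀.std m).T x w 0 * A⁻¹, Sq.conj_mem_D hA hg⟩) = 1 := by
      rw [map_mul, map_inv, h1, inv_mul_cancel]
    obtain ⟨c, hc⟩ := (hπ.2 _).1 h2
    have h3 : ∀ v, (S₀.std m).T (A x) (A w) 0 v = c • (S₀.std m).T (A' x) (A' w) 0 v := by
      intro v
      have h4 : (A' * (S₀.std m).T x w 0 * A'⁻¹)⁻¹ ((A * (S₀.std m).T x w 0 * A⁻¹) v) = c • v :=
        hc v
      rw [Sq.T_conj (admT hxw) hA, Sq.T_conj (admT hxw) hA'] at h4
      have h5 := congrArg ((S₀.std m).T (A' x) (A' w) 0) h4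
      rwa [← LinearEquiv.mul_apply, mul_inv_cancel, LinearEquiv.coe_one, id_eq, map_smul] at h5
    have hx' : A' x ≠ 0 := fun h0 => (hxw.2.2.2.ne_zero 0) ((LinearEquiv.map_eq_zero_iff A').1 h0)
    have h6 := T_scal' ((admT hxw).map hA) ((admT hxw).map hA') hx' h3
    refine LinearEquiv.ext fun v => ?_
    rw [h3, h6, one_smul]
  obtain ⟨c, hc⟩ := hSCA K F V₀ S₀ m (by have := hC.rk; omega) (A'⁻¹ * A) (core hWT1 hC hA hA' hT)
  have hc' : ∀ v, A v = c • A' v := by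
    intro v
    have h1 := congrArg A' (hc v)
    rwa [LinearEquiv.mul_apply, ← LinearEquiv.mul_apply, mul_inv_cancel, LinearEquiv.coe_one, id_eq,
      map_smul] at h1
  obtain ⟨v, hv0, hv, hv'⟩ := fixv A A' (by
    rw [finrank_std]
    omega)
  have h1 := hc' v
  rw [hv, hv'] at h1
  have h2 : (c - 1) • v = 0 := by rw [sub_smul, one_smul, ← h1, sub_self]
  have h3 : c = 1 := sub_eq_zero.1 ((smul_eq_zero.1 h2).resolve_right hv0)
  refine LinearEquiv.ext fun u => ?_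
  rw [hc', h3, one_smul]

end Pool.Agent.Lib.MP66ef6b.CL
end

section
set_option autoImplicit false

/-!
# MP_66ef6b_al, THEOREM L2, module WPS (helper89): facts on `W = ⟨x, y⟩^⊥`
-/

namespace Pool.Agent.Lib.MP66ef6b.CL

open Matrix

namespace WPSM

variable {K : Type} [Field K] {F : FD K} {V₀ : Type} [AddCommGroup V₀] [Module K V₀]
  {S₀ : Sq F V₀}

theorem s_ne {a : K} (h : a ≠ 0) : F.σ a ≠ 0 := by
  intro h0
  apply h
  rw [← F.inv a, h0, map_zero]

theorem jW_tail {n : ℕ} (v : SV K V₀ (n + 1)) (h1 : v.1 0 = 0) (h2 : v.2.1 0 = 0) :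
    jW (Fin.tail v.1, Fin.tail v.2.1, v.2.2) = v := by
  refine Prod.ext ?_ (Prod.ext ?_ rfl)
  · change Fin.cons 0 (Fin.tail v.1) = v.1
    rw [← h1]
    exact Fin.cons_self_tail v.1
  · change Fin.cons 0 (Fin.tail v.2.1) = v.2.1
    rw [← h2]
    exact Fin.cons_self_tail v.2.1

theorem jW_inj {n : ℕ} {u v : SV K V₀ n} (h : jW u = jW v) : u = v := by
  have h1 := congrArg Prod.fst h
  have h2 := congrArg (fun z => z.2.1) h
  have h3 := congrArg (fun z => z.2.2) h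
  refine Prod.ext ?_ (Prod.ext ?_ h3)
  · funext i
    have := congrFun h1 i.succ
    simpa [jW] using this
  · funext i
    have := congrFun h2 i.succ
    simpa [jW] using this

/-- `W` is isometric to the standard space with `m - 1` planes. -/
theorem psi (hWT3 : SpecWT3) {n : ℕ} (hn : 1 ≤ n) (hNd : S₀.Nd) (x y : SV K V₀ (n + 1))
    (hx : (S₀.std (n + 1)).Sg x) (hy : (S₀.std (n + 1)).Sg y) (hxy : (S₀.std (n + 1)).B x y ≠ 0) :
    ∃ ψ : SV K V₀ n → SV K V₀ (n + 1), (∀ u v, ψ (u + v) = ψ u + ψ v) ∧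
      (∀ (c : K) u, ψ (c • u) = c • ψ u) ∧
      (∀ u v, (S₀.std (n + 1)).B (ψ u) (ψ v) = (S₀.std n).B u v) ∧
      (∀ u, (S₀.std (n + 1)).Sg (ψ u) ↔ (S₀.std n).Sg u) ∧
      (∀ u, ψ u ∈ Wp (S₀.std (n + 1)) x y) ∧
      (∀ w ∈ Wp (S₀.std (n + 1)) x y, ∃ u, ψ u = w) ∧
      (∀ u, ψ u = 0 → u = 0) := by
  set S := S₀.std (n + 1) with hS
  set c : K := F.σ (S.B x y)⁻¹ with hc
  have hc0 : c ≠ 0 := s_ne (inv_ne_zero hxy)
  obtain ⟨g, hg, hgx, hgy⟩ := hWT3 K F V₀ S₀ n (by omega) hNd x (c • y) hx (hy.smul c) (by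
    rw [← hS, S.B_smul_right, hc, F.inv, inv_mul_cancel₀ hxy])
  have hgi : g ∈ S.Iso := Sq.D_le_Iso _ hg
  have hgi' : g⁻¹ ∈ S.Iso := inv_mem hgi
  have h0 : ∀ v, g (g⁻¹ v) = v := fun v => by
    rw [← LinearEquiv.mul_apply, mul_inv_cancel, LinearEquiv.coe_one, id_eq]
  have h0' : ∀ v, g⁻¹ (g v) = v := fun v => by
    rw [← LinearEquiv.mul_apply, inv_mul_cancel, LinearEquiv.coe_one, id_eq]
  have hW : ∀ v, v ∈ Wp S x y ↔ (g v).1 0 = 0 ∧ (g v).2.1 0 = 0 := by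
    intro v
    have e1 : S.B v x = F.ε * (g v).2.1 0 := by
      rw [← hgi.1 v x, hgx, hS, LMDM.B_e1]
    have e2 : F.σ c * S.B v y = (g v).1 0 := by
      rw [← S.B_smul_right, ← hgi.1 v (c • y), hgy, hS, LMDM.B_f1]
    constructor
    · rintro ⟨h1, h2⟩
      rw [h1] at e1
      rw [h2, mul_zero] at e2
      exact ⟨e2.symm, (mul_eq_zero.1 e1.symm).resolve_left F.e0⟩
    · rintro ⟨h1, h2⟩
      rw [h2, mul_zero] at e1
      rw [h1] at e2
      exact ⟨e1, (mul_eq_zero.1 e2).resolve_left (s_ne hc0)⟩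
  refine ⟨fun v => g⁻¹ (jW v), ?_, ?_, ?_, ?_, ?_, ?_, ?_⟩
  · intro u v
    change g⁻¹ (jW (u + v)) = g⁻¹ (jW u) + g⁻¹ (jW v)
    rw [EMBM.jW_add, map_add]
  · intro c u
    change g⁻¹ (jW (c • u)) = c • g⁻¹ (jW u)
    rw [EMBM.jW_smul, map_smul]
  · intro u v
    change S.B (g⁻¹ (jW u)) (g⁻¹ (jW v)) = _
    rw [hgi'.1, hS, EMBM.B_jW]
  · intro u
    change S.q (g⁻¹ (jW u)) ∈ F.Λ ↔ (S₀.std n).q u ∈ F.Λ
    have h1 := hgi'.2 (jW u)
    have h2 : S.q (jW u) = (S₀.std n).q u := by rw [hS, EMBM.q_jW]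
    rw [h2] at h1
    constructor
    · intro h
      have := F.Λ.sub_mem h h1
      rwa [sub_sub_cancel] at this
    · intro h
      have := F.Λ.add_mem h1 h
      rwa [sub_add_cancel] at this
  · intro u
    rw [hW, h0]
    exact EMBM.jW_mem u
  · intro w hw
    obtain ⟨h1, h2⟩ := (hW w).1 hw
    refine ⟨(Fin.tail (g w).1, Fin.tail (g w).2.1, (g w).2.2), ?_⟩
    change g⁻¹ (jW (Fin.tail (g w).1, Fin.tail (g w).2.1, (g w).2.2)) = w
    rw [jW_tail _ h1 h2, h0']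
  · intro u hu
    have h1 : jW u = g (g⁻¹ (jW u)) := (h0 _).symm
    have h2 : g⁻¹ (jW u) = 0 := hu
    rw [h2, map_zero] at h1
    apply jW_inj
    rw [h1]
    refine Prod.ext ?_ (Prod.ext ?_ rfl)
    · funext i
      refine Fin.cases ?_ (fun j => ?_) i
      · simp [jW]
      · simp [jW]
    · funext i
      refine Fin.cases ?_ (fun j => ?_) i
      · simp [jW]
      · simp [jW]

/-- the singular vectors generate the additive group of the standard space. -/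
theorem gen {n : ℕ} (hn : 1 ≤ n) (H : AddSubgroup (SV K V₀ n))
    (hH : ∀ u, (S₀.std n).Sg u → u ∈ H) (u : SV K V₀ n) : u ∈ H := by
  let i1 : Fin n := ⟨0, by omega⟩
  have hE : ∀ a : Fin n → K, ((a, 0, 0) : SV K V₀ n) ∈ H := by
    intro a
    apply hH
    rw [Sq.Sg, std_q]
    simp only [Pi.zero_apply, map_zero, S₀.q_zero, add_zero]
    have : a ⬝ᵥ (fun _ : Fin n => (0 : K)) = 0 := by simp [dotProduct]
    rw [this]
    exact F.Λ.zero_mem
  have hF : ∀ a : Fin n → K, ((0, a, 0) : SV K V₀ n) ∈ H := by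
    intro a
    apply hH
    rw [Sq.Sg, std_q]
    simp only [S₀.q_zero, add_zero, zero_dotProduct]
    exact F.Λ.zero_mem
  have hS : ((Pi.single i1 (-S₀.q u.2.2), Pi.single i1 1, u.2.2) : SV K V₀ n) ∈ H := by
    apply hH
    rw [Sq.Sg, std_q]
    have : (Pi.single i1 (-S₀.q u.2.2) : Fin n → K) ⬝ᵥ
        (fun i => F.σ ((Pi.single i1 (1 : K) : Fin n → K) i)) = -S₀.q u.2.2 := by
      rw [single_dotProduct]
      simp
    simp only [this]
    rw [neg_add_cancel]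
    exact F.Λ.zero_mem
  have hsum : u = (Pi.single i1 (-S₀.q u.2.2), Pi.single i1 1, u.2.2) +
      ((u.1 - Pi.single i1 (-S₀.q u.2.2), 0, 0) + (0, u.2.1 - Pi.single i1 1, 0)) := by
    refine Prod.ext ?_ (Prod.ext ?_ ?_)
    · simp only [Prod.fst_add, add_zero]
      abel
    · simp only [Prod.snd_add, Prod.fst_add, zero_add]
      abel
    · simp
  rw [hsum]
  exact H.add_mem hS (H.add_mem (hE _) (hF _))

end WPSM

open WPSM

theorem specWPS (hWT1 : SpecWT1) (hWT3 : SpecWT3) (_hEMB : SpecEMB) : SpecWPS := by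
  intro K _ F V₀ _ _ S₀ m hm hNd x y hx hy hxy
  obtain ⟨n, rfl⟩ : ∃ n, m = n + 3 := ⟨m - 3, by omega⟩
  obtain ⟨ψ, hadd, hsmul, hB, hSg, hmem, hsur, hinj⟩ :=
    psi (S₀ := S₀) (n := n + 2) hWT3 (by omega) hNd x y hx hy hxy
  have hψ0 : ψ 0 = 0 := by
    have := hsmul 0 0
    simpa using this
  have h01 : (0 : Fin (n + 2)) ≠ 1 := by
    intro h
    have := congrArg Fin.val h
    simp at this
  have P2 : ∀ H : AddSubgroup (SV K V₀ (n + 3)),
      (∀ u ∈ Wp (S₀.std (n + 3)) x y, (S₀.std (n + 3)).Sg u → u ∈ H) →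
      ∀ w ∈ Wp (S₀.std (n + 3)) x y, w ∈ H := by
    intro H hH w hw
    obtain ⟨w₀, rfl⟩ := hsur w hw
    let ψ' : SV K V₀ (n + 2) →+ SV K V₀ (n + 3) :=
      { toFun := ψ, map_zero' := hψ0, map_add' := hadd }
    have h1 : w₀ ∈ H.comap ψ' := by
      refine gen (S₀ := S₀) (by omega) _ (fun u hu => ?_) w₀
      exact hH (ψ u) (hmem u) ((hSg u).2 hu)
    exact h1
  refine ⟨?_, P2, ?_, ?_, ?_⟩
  · intro u hu hsu hu0
    obtain ⟨u₀, rfl⟩ := hsur u hu
    have hu0' : u₀ ≠ 0 := by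
      rintro rfl
      exact hu0 hψ0
    have he0 : eV K V₀ (0 : Fin (n + 2)) ≠ 0 := by
      intro h
      have := congrFun (congrArg Prod.fst h) 0
      simp [eV] at this
    obtain ⟨h, hh, hhu⟩ := hWT1 K F V₀ S₀ (n + 2) (by omega) hNd (eV K V₀ 0) u₀ he0 hu0' (by
      rw [PRUM.q_e, zero_sub]
      exact F.Λ.neg_mem ((hSg u₀).1 hsu))
    have hi := Sq.D_le_Iso _ hh
    have hTP : (h (eV K V₀ 0), h (eV K V₀ 1)) ∈ (S₀.std (n + 2)).TPs :=
      PRUM.tps_map hi ⟨PRUM.sg_e _, PRUM.sg_e _, PRUM.B_ee _ _, PRUM.li_ee h01⟩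
    rw [hhu] at hTP
    obtain ⟨t1, t2, t3, t4⟩ := hTP
    refine ⟨ψ (h (eV K V₀ 1)), hmem _, ψ (h (F.ε • fV K V₀ 1)), hmem _, ⟨hsu, (hSg _).2 t2, ?_, ?_⟩,
      ?_, ?_⟩
    · change (S₀.std (n + 3)).B (ψ u₀) (ψ (h (eV K V₀ 1))) = 0
      rw [hB]
      exact t3
    · change LinearIndependent K ![ψ u₀, ψ (h (eV K V₀ 1))]
      rw [LinearIndependent.pair_iff] at t4 ⊢
      intro s t hst
      apply t4 s t
      apply hinj
      rw [hadd, hsmul, hsmul]
      exact hst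
    · rw [hB, ← hhu, hi.1, Sq.B_smul_left, PRUM.B_fe, if_neg h01.symm, mul_zero]
    · rw [hB, hi.1, Sq.B_smul_left, PRUM.B_fe, if_pos rfl, F.ee]
  · refine ⟨ψ (fV K V₀ 0), hmem _, ψ (eV K V₀ 0), hmem _, (hSg _).2 (LMDM.sg_f _),
      (hSg _).2 (PRUM.sg_e _), ?_⟩
    rw [hB, PRUM.B_ef, if_pos rfl]
  · intro w hw hw0
    by_contra hcon
    push Not at hcon
    obtain ⟨w₀, rfl⟩ := hsur w hw
    have hw0' : w₀ ≠ 0 := by
      rintro rfl
      exact hw0 hψ0
    obtain ⟨v, hv⟩ := TXCM.exists_B_ne hNd hw0'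
    let H : AddSubgroup (SV K V₀ (n + 3)) :=
      { carrier := {u | (S₀.std (n + 3)).B (ψ w₀) u = 0}
        add_mem' := by
          intro a b ha hb
          change (S₀.std (n + 3)).B (ψ w₀) (a + b) = 0
          rw [Sq.B_add_right, show (S₀.std (n + 3)).B (ψ w₀) a = 0 from ha,
            show (S₀.std (n + 3)).B (ψ w₀) b = 0 from hb, add_zero]
        zero_mem' := Sq.B_zero_right _ _
        neg_mem' := by
          intro a ha
          change (S₀.std (n + 3)).B (ψ w₀) (-a) = 0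
          rw [Sq.B_neg_right, show (S₀.std (n + 3)).B (ψ w₀) a = 0 from ha, neg_zero] }
    have h1 : ψ v ∈ H := P2 H (fun u hu hs => hcon u hu hs) (ψ v) (hmem v)
    have h2 : (S₀.std (n + 3)).B (ψ w₀) (ψ v) = 0 := h1
    rw [hB] at h2
    exact hv (Sq.B_eq_zero_swap _ h2)
  · intro v
    have hyx : (S₀.std (n + 3)).B y x ≠ 0 := by
      rw [Sq.B_swap]
      exact mul_ne_zero F.e0 (s_ne hxy)
    refine ⟨(S₀.std (n + 3)).B v y / (S₀.std (n + 3)).B x y,
      (S₀.std (n + 3)).B v x / (S₀.std (n + 3)).B y x,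
      v - ((S₀.std (n + 3)).B v y / (S₀.std (n + 3)).B x y) • x -
        ((S₀.std (n + 3)).B v x / (S₀.std (n + 3)).B y x) • y, ⟨?_, ?_⟩, ?_⟩
    · rw [Sq.B_sub_left, Sq.B_sub_left, Sq.B_smul_left, Sq.B_smul_left, hx.self, mul_zero, sub_zero,
        div_mul_cancel₀ _ hyx, sub_self]
    · rw [Sq.B_sub_left, Sq.B_sub_left, Sq.B_smul_left, Sq.B_smul_left, hy.self, mul_zero, sub_zero,
        div_mul_cancel₀ _ hxy, sub_self]
    · abel

end Pool.Agent.Lib.MP66ef6b.CL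
end
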