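import Pool.Agent.Lib.MP_66ef6b_al.CL.SpecE
import Pool.Agent.Lib.MP_66ef6b_al.PL.CBK
import Pool.Agent.Lib.MP_66ef6b_al.CL.SpecG
import Pool.Agent.Lib.MP_66ef6b_al.CL.SGY
import Pool.Agent.Lib.MP_66ef6b_al.Tower

section
set_option autoImplicit false

/-!
# MP_66ef6b_al, THEOREM L2 (helper14): module AF2 (helper52). Affine type.
-/

namespace Pool.Agent.Lib.MP66ef6b.CL

universe u

theorem specAF2 (hGRW : SpecGRW.{u}) (hSPR : PL.SpecSPR.{u}) : SpecAF2.{u} := by
  intro G _ _ _ F hF q₀ d f hD hRep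
  obtain ⟨p, V, _, _, hp, hpv, hfin, hcard, v₀, hv₀⟩ := hRep
  have hq1 : 1 ≤ q₀ := by
    obtain ⟨X, Y, _, ρ, P, x, K, _, _, V₀, _, _, S₀, m', π, A, -, -, -, -, -, -, -, hq, -⟩ :=
      hD 0 F hF le_rfl
    omega
  obtain ⟨N, hN⟩ := hGRW q₀ d
  have hc1 : 1 ≤ q₀ ^ d := Nat.one_le_pow _ _ hq1
  obtain ⟨n, k, x, hn, hk, hfinH, hH⟩ :=
    hN G f F (max N (12 * q₀ ^ d * (2 * q₀) + 2)) (le_max_left _ _) (hD _ F hF le_rfl)
  have hn2 : 12 * q₀ ^ d * (2 * q₀) + 2 < n := (le_max_right _ _).trans_lt hn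
  have hk2 : k ≤ 2 * (2 * q₀) * n := by
    have e : 2 * (2 * q₀) * n = 4 * q₀ * n := by ring
    rw [e]
    exact hk
  have hdisp : ∀ i, (Set.range fun v : V => (x i * f * (x i)⁻¹) • v - v).Finite ∧
      (Set.range fun v : V => (x i * f * (x i)⁻¹) • v - v).ncard ≤ q₀ ^ d := by
    intro i
    rw [PL.AFFM.range_conj]
    exact ⟨(hfin f).image _, (Set.ncard_image_le (hfin f)).trans hcard⟩
  have hlt : (q₀ ^ d) ^ k <
      Nat.card (Subgroup.closure (Set.range fun i => x i * f * (x i)⁻¹)) :=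
    (PL.AFFM.arith _ _ _ _ hc1 hn2 hk2).trans_le hH
  refine ⟨p, V, inferInstance, inferInstance,
    Subgroup.closure (Set.range fun i => x i * f * (x i)⁻¹), hp, hpv, ?_, hfin,
    ⟨f, v₀, hv₀⟩, hfinH, hSPR G V k (q₀ ^ d) (fun i => x i * f * (x i)⁻¹) hfinH hdisp hlt⟩
  intro g
  refine ⟨DistribSMul.toAddMonoidHom V g, fun v w => ?_⟩
  rw [smul_add]
  rfl

end Pool.Agent.Lib.MP66ef6b.CL
end

section
set_option autoImplicit false

/-!
# MP_66ef6b_al, CL part G: module AFL (helper24)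
-/

namespace Pool.Agent.Lib.MP66ef6b.CL

universe u

namespace AFLM

variable {G V : Type u} [Group G] [AddCommGroup V] [MulAction G V]

theorem A_eq {A : G → V →+ V} (hA : ∀ g (v w : V), g • (v + w) = g • v + A g w) (g : G) (w : V) :
    A g w = g • w - g • (0 : V) := by
  have h := hA g 0 w
  rw [zero_add] at h
  rw [h]
  abel

/-- the linear part. -/
@[reducible] def lin {A : G → V →+ V} (hA : ∀ g (v w : V), g • (v + w) = g • v + A g w) :
    DistribMulAction G V where
  smul g w := A g w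
  one_smul w := by
    change A 1 w = w
    rw [A_eq hA, one_smul, one_smul, sub_zero]
  mul_smul g h w := by
    change A (g * h) w = A g (A h w)
    have h1 : h • w = h • (0 : V) + A h w := by
      have := hA h 0 w
      rwa [zero_add] at this
    rw [A_eq hA (g * h) w, mul_smul, mul_smul, h1, hA g]
    abel
  smul_zero g := (A g).map_zero
  smul_add g v w := (A g).map_add v w

end AFLM

open AFLM in
/-- The linear part of an affine action. -/
theorem specAFL : SpecAFL.{u} := by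
  intro G _ _ _ hLF hAf
  obtain ⟨p, V, iV, iA, F, hp, hpV, hA', hfin, ⟨g₀, v₀, hne⟩, -, -⟩ := hAf
  choose A hA using hA'
  refine ⟨p, V, iV, lin hA, hp, hpV, fun g => ?_, ?_⟩
  · have hsub : (Set.range fun v : V => A g v - v) ⊆
        (fun w : V => w - g • (0 : V)) '' (Set.range fun v : V => g • v - v) := by
      rintro _ ⟨v, rfl⟩
      refine ⟨g • v - v, ⟨v, rfl⟩, ?_⟩
      change g • v - v - g • (0 : V) = A g v - v
      rw [A_eq hA]
      abel
    exact ((hfin g).image _).subset hsub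
  · by_contra hcon
    push Not at hcon
    have hid : ∀ (g : G) (v : V), A g v = v := hcon
    have htr : ∀ (g : G) (v : V), g • v = v + g • (0 : V) := by
      intro g v
      have h := A_eq hA g v
      rw [hid g v] at h
      rw [eq_sub_iff_add_eq] at h
      exact h.symm
    let φ : G →* Multiplicative V :=
      { toFun := fun g => Multiplicative.ofAdd (g • (0 : V))
        map_one' := by rw [one_smul]; rfl
        map_mul' := fun g h => by
          rw [mul_smul, htr g (h • (0 : V)), add_comm, ofAdd_add] }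
    obtain ⟨x, y, hxy⟩ := PL.PRFM.noncomm G hLF
    rcases (inferInstance : φ.ker.Normal).eq_bot_or_eq_top with h | h
    · have hinj : Function.Injective φ := (MonoidHom.ker_eq_bot_iff φ).1 h
      apply hxy
      apply hinj
      rw [map_mul, map_mul, mul_comm]
    · apply hne
      have h1 : g₀ ∈ φ.ker := by rw [h]; exact Subgroup.mem_top _
      have h2 : φ g₀ = 1 := h1
      have h3 : g₀ • (0 : V) = 0 := Multiplicative.ofAdd.injective h2
      rw [htr, h3, add_zero]

end Pool.Agent.Lib.MP66ef6b.CL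
end

section
set_option autoImplicit false

/-!
# MP_66ef6b_al, THEOREM L3: module AL1
-/

namespace Pool.Agent.Lib.MP66ef6b.CL

open Equiv

namespace AL1M

variable {n : ℕ}

/-- the three-cycle `a → b → c → a`. -/
def tc (a b c : Fin n) : Perm (Fin n) := swap a b * swap b c

theorem tc_three {a b c : Fin n} (hab : a ≠ b) (hac : a ≠ c) (hbc : b ≠ c) :
    (tc a b c).IsThreeCycle := by
  unfold tc
  rw [swap_comm a b]
  exact Equiv.Perm.isThreeCycle_swap_mul_swap_same hab.symm hbc hac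

theorem tc_fix {a b c v : Fin n} (ha : v ≠ a) (hb : v ≠ b) (hc : v ≠ c) : tc a b c v = v := by
  unfold tc
  rw [Perm.mul_apply, swap_apply_of_ne_of_ne hb hc, swap_apply_of_ne_of_ne ha hb]

theorem tc_snd {a b c : Fin n} (hac : a ≠ c) (hbc : b ≠ c) : tc a b c b = c := by
  unfold tc
  rw [Perm.mul_apply, swap_apply_left, swap_apply_of_ne_of_ne hac.symm hbc.symm]

theorem tc_fst {a b c : Fin n} (hab : a ≠ b) (hac : a ≠ c) : tc a b c a = b := by
  unfold tc
  rw [Perm.mul_apply, swap_apply_of_ne_of_ne hab hac, swap_apply_left]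

theorem tc_conj (f : Perm (Fin n)) (a b c : Fin n) : f * tc a b c * f⁻¹ = tc (f a) (f b) (f c) := by
  unfold tc
  have h1 : f * (swap a b * swap b c) = swap (f a) (f b) * (swap (f b) (f c) * f) := by
    rw [← mul_assoc, mul_swap_eq_swap_mul f a b, mul_assoc, mul_swap_eq_swap_mul f b c]
  rw [h1, mul_assoc, mul_assoc, mul_inv_cancel, mul_one]

theorem tc_mul {x x' y z : Fin n} (h1 : x ≠ x') (h2 : x ≠ y) (h3 : x ≠ z) (h4 : x' ≠ y)
    (h5 : x' ≠ z) (h6 : y ≠ z) : tc x' y z * (tc x y z)⁻¹ = tc x x' y := by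
  rw [mul_inv_eq_iff_eq_mul]
  ext v
  unfold tc
  simp only [Perm.mul_apply, swap_apply_def]
  split_ifs <;> simp_all

/-- a point outside a small set. -/
theorem out (S : Finset (Fin n)) (h : S.card < n) : ∃ c, c ∉ S := by
  by_contra hcon
  push Not at hcon
  have h1 : (Finset.univ : Finset (Fin n)) ⊆ S := fun c _ => hcon c
  have h2 := Finset.card_le_card h1
  rw [Finset.card_univ, Fintype.card_fin] at h2
  omega

end AL1M

open AL1M

theorem specAL1 : SpecAL1 := by
  intro n hn f hf g hg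
  -- a moved point
  obtain ⟨a, ha⟩ : ∃ a, (f : Perm (Fin n)) a ≠ a := by
    by_contra hcon
    push Not at hcon
    exact hf (Subtype.ext (Equiv.ext hcon))
  set F : Perm (Fin n) := (f : Perm (Fin n)) with hF
  obtain ⟨c, hc⟩ := out {a, F a, F (F a)} (lt_of_le_of_lt Finset.card_le_three (by omega))
  simp only [Finset.mem_insert, Finset.mem_singleton, not_or] at hc
  obtain ⟨hca, hcb, hcf⟩ := hc
  set b := F a with hb
  have t3 : (tc a b c).IsThreeCycle := tc_three ha.symm (Ne.symm hca) (Ne.symm hcb)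
  let t : alternatingGroup (Fin n) := ⟨tc a b c, t3.mem_alternatingGroup⟩
  let G : alternatingGroup (Fin n) := f * t * f⁻¹ * t⁻¹
  have hG : (G : Perm (Fin n)) = tc (F a) (F b) (F c) * (tc a b c)⁻¹ := by
    show F * tc a b c * F⁻¹ * (tc a b c)⁻¹ = _
    rw [tc_conj]
  -- `G` is not the identity
  obtain ⟨x, hx⟩ : ∃ x, (G : Perm (Fin n)) x ≠ x := by
    by_contra hcon
    push Not at hcon
    have h1 : (G : Perm (Fin n)) = 1 := Equiv.ext hcon
    rw [hG, mul_inv_eq_one] at h1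
    have h2 := congrArg (fun p : Perm (Fin n) => p b) h1
    have h3 : tc (F a) (F b) (F c) b = F b := by
      rw [← hb]
      apply tc_fst
      · intro h
        exact ha (F.injective h).symm
      · intro h
        exact hca (F.injective h).symm
    have h4 : tc (F a) (F b) (F c) b = tc a b c b := h2
    rw [h3, tc_snd (Ne.symm hca) (Ne.symm hcb)] at h4
    exact hcf h4.symm
  -- fixed points of `G`
  let S : Finset (Fin n) := {a, b, c, F a, F b, F c}
  have hS : S.card ≤ 6 := Finset.card_le_six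
  have hfix : ∀ v, v ∉ S → (G : Perm (Fin n)) v = v := by
    intro v hv
    simp only [S, Finset.mem_insert, Finset.mem_singleton, not_or] at hv
    obtain ⟨v1, v2, v3, v4, v5, v6⟩ := hv
    have h1 : (tc a b c)⁻¹ v = v := by
      rw [Perm.inv_eq_iff_eq, tc_fix v1 v2 v3]
    rw [hG, Perm.mul_apply, h1, tc_fix v4 v5 v6]
  obtain ⟨y, hy⟩ := out S (by omega)
  obtain ⟨z, hz⟩ := out (insert y S) (lt_of_le_of_lt (Finset.card_insert_le _ _) (by omega))
  rw [Finset.mem_insert, not_or] at hz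
  have hyf := hfix y hy
  have hzf := hfix z hz.2
  have hxy : x ≠ y := fun h => hx (by rw [h]; exact hyf)
  have hxz : x ≠ z := fun h => hx (by rw [h]; exact hzf)
  have hx'y : (G : Perm (Fin n)) x ≠ y := fun h =>
    hxy ((G : Perm (Fin n)).injective (h.trans hyf.symm))
  have hx'z : (G : Perm (Fin n)) x ≠ z := fun h =>
    hxz ((G : Perm (Fin n)).injective (h.trans hzf.symm))
  have hyz : y ≠ z := Ne.symm hz.1
  have s3 : (tc x y z).IsThreeCycle := tc_three hxy hxz hyz
  let s : alternatingGroup (Fin n) := ⟨tc x y z, s3.mem_alternatingGroup⟩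
  let H : alternatingGroup (Fin n) := G * s * G⁻¹ * s⁻¹
  have hH : (H : Perm (Fin n)) = tc x ((G : Perm (Fin n)) x) y := by
    show (G : Perm (Fin n)) * tc x y z * (G : Perm (Fin n))⁻¹ * (tc x y z)⁻¹ = _
    rw [tc_conj, hyf, hzf]
    exact tc_mul (Ne.symm hx) hxy hxz hx'y hx'z hyz
  have hH3 : (H : Perm (Fin n)).IsThreeCycle := by
    rw [hH]
    exact tc_three (Ne.symm hx) hxy hx'y
  have w1 : InW f 2 G := InW.comm f t
  have w2 : InW G 2 H := InW.comm G s
  have w3 : InW f (2 * 2) H := w1.trans w2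
  have hconj : IsConj H g := alternatingGroup.isThreeCycle_isConj (by
    rw [Nat.card_eq_fintype_card, Fintype.card_fin]
    omega) hH3 hg
  obtain ⟨w, hw⟩ := isConj_iff.1 hconj
  have w4 := w3.conj w
  rw [hw] at w4
  exact w4

end Pool.Agent.Lib.MP66ef6b.CL
end

section
set_option autoImplicit false

namespace Pool.Agent.Lib.MP66ef6b.CL

namespace AL2M

open Equiv Equiv.Perm

/-- The cycle `(z o i)` as a product of two swaps. -/
lemma tc {α : Type} [DecidableEq α] [Fintype α] {z o i : α} (h1 : z ≠ o) (h2 : z ≠ i) (h3 : o ≠ i) :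
    (swap z i * swap z o).IsThreeCycle :=
  isThreeCycle_swap_mul_swap_same h2 h1 h3.symm

/-- If a subgroup `H` of the permutations is normalised by `s = swap z o` and contains all
`swap z i * s`, then `n! ≤ 2 |H|`. -/
lemma idx {n : ℕ} (z o : Fin n) (H : Subgroup (Perm (Fin n)))
    (hn : ∀ σ ∈ H, swap z o * σ * swap z o ∈ H)
    (hg : ∀ i, i ≠ z → i ≠ o → swap z i * swap z o ∈ H) :
    n.factorial ≤ 2 * Nat.card H := by
  classical
  set s : Perm (Fin n) := swap z o with hs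
  have ss : s * s = 1 := swap_mul_self z o
  let L : Subgroup (Perm (Fin n)) :=
    { carrier := {σ | σ ∈ H ∨ σ * s ∈ H}
      one_mem' := Or.inl H.one_mem
      mul_mem' := by
        rintro a b (ha | ha) (hb | hb)
        · exact Or.inl (H.mul_mem ha hb)
        · right
          have := H.mul_mem ha hb
          simpa [mul_assoc] using this
        · right
          have := H.mul_mem ha (hn b hb)
          have e : a * s * (s * b * s) = a * b * s := by
            calc a * s * (s * b * s) = a * (s * s) * b * s := by simp only [mul_assoc]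
              _ = a * b * s := by rw [ss]; simp
          rwa [e] at this
        · left
          have := H.mul_mem ha (hn _ hb)
          have e : a * s * (s * (b * s) * s) = a * b := by
            calc a * s * (s * (b * s) * s) = a * (s * s) * b * (s * s) := by simp only [mul_assoc]
              _ = a * b := by rw [ss]; simp
          rwa [e] at this
      inv_mem' := by
        rintro a (ha | ha)
        · exact Or.inl (H.inv_mem ha)
        · right
          have := hn _ (H.inv_mem ha)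
          have e : s * (a * s)⁻¹ * s = a⁻¹ * s := by
            have si : s⁻¹ = s := inv_eq_of_mul_eq_one_left ss
            rw [mul_inv_rev, si]
            calc s * (s * a⁻¹) * s = (s * s) * a⁻¹ * s := by simp only [mul_assoc]
              _ = a⁻¹ * s := by rw [ss]; simp
          rwa [e] at this }
  have hz : ∀ i, swap z i ∈ L := by
    intro i
    by_cases h1 : i = z
    · subst h1
      rw [swap_self]
      exact L.one_mem
    · by_cases h2 : i = o
      · subst h2
        right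
        change s * s ∈ H
        rw [ss]
        exact H.one_mem
      · exact Or.inr (hg i h1 h2)
  have hsw : ∀ i j, swap i j ∈ L := by
    intro i j
    by_cases hij : i = j
    · subst hij
      rw [swap_self]
      exact L.one_mem
    by_cases h1 : i = z
    · subst h1
      exact hz j
    by_cases h2 : j = z
    · subst h2
      rw [swap_comm]
      exact hz i
    have e : swap i j = swap z i * swap z j * swap z i := by
      have := swap_mul_swap_mul_swap (x := j) (y := z) (z := i) h2 (fun h => hij h.symm)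
      rw [← this, swap_comm j z]
    rw [e]
    exact L.mul_mem (L.mul_mem (hz i) (hz j)) (hz i)
  have hL : L = ⊤ := by
    rw [eq_top_iff, ← closure_isSwap, Subgroup.closure_le]
    rintro σ ⟨x, y, _, rfl⟩
    exact hsw x y
  have hsurj : Function.Surjective
      (fun t : H ⊕ H => (Sum.elim (fun h : H => (h : Perm (Fin n))) (fun h : H => (h : Perm (Fin n)) * s) t)) := by
    intro σ
    have : σ ∈ L := by rw [hL]; trivial
    rcases this with h | h
    · exact ⟨Sum.inl ⟨σ, h⟩, rfl⟩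
    · refine ⟨Sum.inr ⟨_, h⟩, ?_⟩
      change σ * s * s = σ
      rw [mul_assoc, ss, mul_one]
  have hc := Nat.card_le_card_of_surjective _ hsurj
  rw [Nat.card_perm, Nat.card_sum, Nat.card_fin] at hc
  omega

end AL2M

open Equiv Equiv.Perm AL2M in
theorem specAL2 : SpecAL2 := by
  intro n hn
  classical
  let z : Fin n := ⟨0, by omega⟩
  let o : Fin n := ⟨1, by omega⟩
  let w : Fin n := ⟨2, by omega⟩
  have hzo : z ≠ o := by simp [z, o, Fin.ext_iff]
  have hzw : z ≠ w := by simp [z, w, Fin.ext_iff]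
  have how : o ≠ w := by simp [o, w, Fin.ext_iff]
  have hex : ∀ i : Fin n, ∃ j : Fin n, j ≠ z ∧ j ≠ o ∧ (i ≠ z → i ≠ o → j = i) := by
    intro i
    by_cases h : i ≠ z ∧ i ≠ o
    · exact ⟨i, h.1, h.2, fun _ _ => rfl⟩
    · exact ⟨w, hzw.symm, how.symm, fun a b => absurd ⟨a, b⟩ h⟩
  choose J hJz hJo hJ using hex
  have h3 : ∀ i, (swap z (J i) * swap z o).IsThreeCycle := fun i => tc hzo (hJz i).symm (hJo i).symm
  let g : Fin n → alternatingGroup (Fin n) := fun i => ⟨_, (h3 i).mem_alternatingGroup⟩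
  refine ⟨g, h3, ?_⟩
  set C := Subgroup.closure (Set.range g) with hC
  set H : Subgroup (Perm (Fin n)) := C.map (alternatingGroup (Fin n)).subtype with hH
  have hcard : Nat.card H = Nat.card C := by
    refine (Nat.card_congr (Subgroup.equivMapOfInjective C (alternatingGroup (Fin n)).subtype
      (alternatingGroup (Fin n)).subtype_injective).toEquiv).symm
  have hcl : H = Subgroup.closure ((alternatingGroup (Fin n)).subtype '' Set.range g) := by
    rw [hH, hC, MonoidHom.map_closure]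
  have hmem : ∀ i, swap z (J i) * swap z o ∈ H := by
    intro i
    exact ⟨g i, Subgroup.subset_closure ⟨i, rfl⟩, rfl⟩
  have hnorm : ∀ σ ∈ H, swap z o * σ * swap z o ∈ H := by
    intro σ hσ
    rw [hcl] at hσ
    induction hσ using Subgroup.closure_induction with
    | mem x hx =>
      obtain ⟨_, ⟨i, rfl⟩, rfl⟩ := hx
      have e : swap z o * (swap z (J i) * swap z o) * swap z o = (swap z (J i) * swap z o)⁻¹ := by
        rw [mul_inv_rev, swap_inv, swap_inv]
        simp [mul_assoc]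
      change swap z o * (swap z (J i) * swap z o) * swap z o ∈ H
      rw [e]
      exact H.inv_mem (hmem i)
    | one =>
      rw [mul_one, swap_mul_self]
      exact H.one_mem
    | mul x y _ _ hx hy =>
      have := H.mul_mem hx hy
      have e : swap z o * x * swap z o * (swap z o * y * swap z o) = swap z o * (x * y) * swap z o := by
        calc swap z o * x * swap z o * (swap z o * y * swap z o)
            = swap z o * x * (swap z o * swap z o) * y * swap z o := by simp only [mul_assoc]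
          _ = swap z o * (x * y) * swap z o := by rw [swap_mul_self]; simp [mul_assoc]
      rwa [e] at this
    | inv x _ hx =>
      have := H.inv_mem hx
      have e : (swap z o * x * swap z o)⁻¹ = swap z o * x⁻¹ * swap z o := by
        rw [mul_inv_rev, mul_inv_rev, swap_inv]
        simp [mul_assoc]
      rwa [e] at this
  have hidx := idx z o H hnorm (by
    intro i h1 h2
    have := hmem i
    rwa [hJ i h1 h2] at this)
  rw [hcard] at hidx
  have h1 : (n / 2).factorial ≤ (n - 1).factorial := Nat.factorial_le (by omega)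
  have h2 : n.factorial = n * (n - 1).factorial := by
    conv_lhs => rw [show n = (n - 1) + 1 by omega, Nat.factorial_succ]
    rw [show n - 1 + 1 = n by omega]
  have h3' : 2 * (n - 1).factorial ≤ n * (n - 1).factorial := Nat.mul_le_mul_right _ (by omega)
  omega

end Pool.Agent.Lib.MP66ef6b.CL
end

section
/-!
# MP_66ef6b_al, THEOREM L3, module AL3 (helper9): growth in alternating groups
-/
set_option autoImplicit false

namespace Pool.Agent.Lib.MP66ef6b.CL

open Filter Topology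

namespace AL3M

theorem fact_big (c : ℕ) (hc : 1 ≤ c) : ∃ N : ℕ, ∀ n : ℕ, N ≤ n →
    c ^ (4 * n) < (n / 2).factorial := by
  have h := FloorSemiring.tendsto_pow_div_factorial_atTop ((c : ℝ) ^ 8)
  have hpos : (0 : ℝ) < 1 / ((c : ℝ) ^ 4 + 1) := by positivity
  obtain ⟨K, hK⟩ := eventually_atTop.1 (h.eventually_lt_const hpos)
  refine ⟨2 * K, fun n hn => ?_⟩
  have hk : K ≤ n / 2 := by omega
  have h1 := hK (n / 2) hk
  set k := n / 2 with hkdef
  have hf : (0 : ℝ) < (k.factorial : ℝ) := by exact_mod_cast Nat.factorial_pos k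
  rw [div_lt_div_iff₀ hf (by positivity), one_mul] at h1
  have h2 : c ^ (4 * n) ≤ c ^ (4 * (2 * k + 1)) := Nat.pow_le_pow_right hc (by omega)
  have h3 : ((c ^ (4 * (2 * k + 1)) : ℕ) : ℝ) = ((c : ℝ) ^ 8) ^ k * (c : ℝ) ^ 4 := by
    push_cast
    rw [← pow_mul, ← pow_add]
    congr 1
    ring
  have h4 : ((c ^ (4 * (2 * k + 1)) : ℕ) : ℝ) < (k.factorial : ℝ) := by
    rw [h3]
    refine lt_of_le_of_lt ?_ h1
    refine mul_le_mul_of_nonneg_left (by linarith) (by positivity)
  exact h2.trans_lt (by exact_mod_cast h4)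

end AL3M

theorem specAL3 (hAL1 : SpecAL1) (hAL2 : SpecAL2) : SpecAL3 := by
  intro c hc
  obtain ⟨N, hN⟩ := AL3M.fact_big c hc
  refine ⟨max N 9, fun n hn f hf => ?_⟩
  obtain ⟨g, hg1, hg2⟩ := hAL2 n (by omega)
  exact Gro.of_family (fun i => hAL1 n (by omega) f hf (g i) (hg1 i))
    ((hN n (by omega)).trans_le hg2)

end Pool.Agent.Lib.MP66ef6b.CL
end

section
set_option autoImplicit false

/-!
# MP_66ef6b_al, THEOREM L3, module CG1: elements `T x z a`, `z ∉ K x` (growth)
-/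

namespace Pool.Agent.Lib.MP66ef6b.CL

/-- CG1. -/
theorem specCG1 (hPRU : SpecPRU) : SpecCG1 := by
  intro K _ F V₀ _ _ S₀ m hcls x z a hadm hli g hg
  obtain ⟨u, v, huv, hxv, hxu, hzu, hzv⟩ :=
    hPRU K F V₀ S₀ m hcls.rk hcls.nd x z hadm.sg hadm.orth hli
  have hus : (S₀.std m).Adm u v 0 :=
    ⟨huv.1, huv.2.2.1, by
      rw [zero_sub]
      exact F.Λ.neg_mem huv.2.1⟩
  have hIso := Sq.T_mem_Iso hus
  have hx : (S₀.std m).T u v 0 x = x := by
    rw [Sq.T_apply hus, hxu, hxv.2.2.1]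
    simp
  have hz : (S₀.std m).T u v 0 z = z + v := by
    rw [Sq.T_apply hus, hzu, hzv]
    simp
  have hadm2 : (S₀.std m).Adm x (z + v) a := by
    have := hadm.map hIso
    rwa [hx, hz] at this
  have key : (S₀.std m).T u v 0 * (S₀.std m).T x z a * ((S₀.std m).T u v 0)⁻¹ *
      ((S₀.std m).T x z a)⁻¹ = (S₀.std m).T x v 0 := by
    rw [Sq.T_conj hadm hIso, hx, hz, Sq.T_inv hadm, Sq.T_mul hadm2 hadm.inv]
    congr 1
    · abel
    · rw [Sq.B_neg_left, Sq.B_add_right, hadm.self, hzv]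
      ring
  have hxs : (S₀.std m).Adm x v 0 :=
    ⟨hadm.sg, hxv.2.2.1, by
      rw [zero_sub]
      exact F.Λ.neg_mem hxv.2.1⟩
  refine ⟨(x, v), hxv, Sq.T_mem_G hxs, ?_⟩
  have h2 := InW.comm' g ⟨(S₀.std m).T u v 0, Sq.T_mem_G hus⟩
  have h3 : (⟨(S₀.std m).T u v 0, Sq.T_mem_G hus⟩ : (S₀.std m).D ⊤) * g *
      (⟨(S₀.std m).T u v 0, Sq.T_mem_G hus⟩ : (S₀.std m).D ⊤)⁻¹ * g⁻¹ =
      ⟨(S₀.std m).T x v 0, Sq.T_mem_G hxs⟩ := by
    apply Subtype.ext
    simp only [Subgroup.coe_mul, Subgroup.coe_inv, hg]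
    exact key
  rwa [h3] at h2

end Pool.Agent.Lib.MP66ef6b.CL
end

section
set_option autoImplicit false

/-!
# MP_66ef6b_al, THEOREM L3, module CG2 (helper58): transvections
-/

namespace Pool.Agent.Lib.MP66ef6b.CL

universe u

theorem specCG2 (hCG1 : SpecCG1) (hPRV : SpecPRV) : SpecCG2 := by
  intro K _ F V₀ _ _ S₀ m hCls x l hx hx0 hl hl0 g hg
  obtain ⟨u, v, huv, hxv, hxu⟩ :=
    hPRV K F V₀ S₀ m (le_trans (by norm_num) hCls.rk) hCls.nd x hx hx0
  have ht : (S₀.std m).Adm u ((1 : K) • v) 0 :=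
    ⟨huv.1, by rw [(S₀.std m).B_smul_right, huv.2.2.1, mul_zero], by
      rw [zero_sub]
      exact F.Λ.neg_mem (huv.2.1.smul 1)⟩
  have hcm := C2M.comm (c := 1) hx huv.1 huv.2.1 hxv.2.2.1 huv.2.2.1 hxu hl
  have hw := C2M.admw (c := 1) hx huv.2.1 hxv.2.2.1 hl
  have hli := C2M.indep (F := F) (c := 1) hxv.2.2.2 hl0 one_ne_zero
  let s : (S₀.std m).D ⊤ := ⟨(S₀.std m).T u ((1 : K) • v) 0, Sq.T_mem_G ht⟩
  have h1 : InW g 2 (g * s * g⁻¹ * s⁻¹)⁻¹ := (InW.comm g s).inv
  have h2 : ((g * s * g⁻¹ * s⁻¹)⁻¹ : (S₀.std m).D ⊤).1 =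
      (S₀.std m).T v ((-(F.ε * l * F.σ 1)) • x) (1 * F.σ 1 * l) := by
    rw [← hcm, ← hg]
    rfl
  obtain ⟨τ, hτ, h, hW⟩ := hCG1 K F V₀ S₀ m hCls _ _ _ hw hli _ h2
  exact ⟨τ, hτ, h, h1.trans hW⟩

end Pool.Agent.Lib.MP66ef6b.CL
end

section
set_option autoImplicit false

/-!
# MP_66ef6b_al, THEOREM L3, module CG3 (helper20): elements which fix a singular vector
-/

namespace Pool.Agent.Lib.MP66ef6b.CL

namespace CG3M

variable {K : Type} [Field K] {F : FD K} {V₀ : Type} [AddCommGroup V₀] [Module K V₀]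
  {S₀ : Sq F V₀} {m : ℕ}

theorem rt_trans {k l : ℕ} {g h : (S₀.std m).D ⊤} (hg : InW g k h) (hh : Rt S₀ m l h) :
    Rt S₀ m (k * l) g := by
  obtain ⟨τ, hτ, h1, h2⟩ := hh
  exact ⟨τ, hτ, h1, hg.trans h2⟩

theorem rt_mono {k l : ℕ} {g : (S₀.std m).D ⊤} (hg : Rt S₀ m k g) (h : k ≤ l) :
    Rt S₀ m l g := by
  obtain ⟨τ, hτ, h1, h2⟩ := hg
  exact ⟨τ, hτ, h1, h2.mono h⟩

end CG3M

open C3M CG3M in
theorem specCG3 (hCG1 : SpecCG1) (hCG2 : SpecCG2) (hNXC : SpecNXC) (hSPX : SpecSPX) :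
    SpecCG3 := by
  intro K _ F V₀ _ _ S₀ m hc x hx hx0 g hg1 hgx
  have hm2 : 2 ≤ m := le_trans (by norm_num) hc.rk
  have hgI : g.1 ∈ (S₀.std m).Iso := Sq.D_le_Iso _ g.2
  by_cases hcase : ∃ u, (S₀.std m).Sg u ∧ (S₀.std m).B u x = 0 ∧ ∀ c : K, g.1 u ≠ u + c • x
  · obtain ⟨u, hu, hux, hne⟩ := hcase
    have hxu : (S₀.std m).B x u = 0 := (S₀.std m).B_eq_zero_swap hux
    have hA := adm_cu hx hu hxu 1
    rw [one_smul] at hA
    have hAg := hA.map hgI
    rw [hgx] at hAg
    let t : (S₀.std m).D ⊤ := ⟨(S₀.std m).T x u 0, Sq.T_mem_G hA⟩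
    have e1 : g.1 * (S₀.std m).T x u 0 * g.1⁻¹ = (S₀.std m).T x (g.1 u) 0 := by
      rw [Sq.T_conj hA hgI, hgx]
    have e2 : (g * t * g⁻¹ * t⁻¹ : (S₀.std m).D ⊤).1 =
        (S₀.std m).T x (g.1 u + -u) (0 + F.ε * F.σ 0 + (S₀.std m).B (-u) (g.1 u)) := by
      show g.1 * (S₀.std m).T x u 0 * g.1⁻¹ * ((S₀.std m).T x u 0)⁻¹ = _
      rw [e1, Sq.T_inv hA, Sq.T_mul hAg hA.inv]
    refine rt_trans (InW.comm g t) (hCG1 K F V₀ S₀ m hc x _ _ (hAg.add hA.inv) ?_ _ e2)
    apply indep_of hx0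
    intro d hd
    apply hne d
    rw [← hd]
    abel
  · push Not at hcase
    have hall : ∀ u, (S₀.std m).B u x = 0 → ∃ c : K, g.1 u = u + c • x :=
      hSPX K F V₀ S₀ m hm2 hc.nd x hx hx0 (Wg g.1 x) (fun u hu hux => hcase u hu hux)
    obtain ⟨z, a, hadm, hgT⟩ := hNXC K F V₀ S₀ m hm2 hc.nd x hx hx0 g.1 hgI hgx hall
    by_cases hz : ∃ c : K, z = c • x
    · obtain ⟨c, rfl⟩ := hz
      obtain ⟨hl, hT⟩ := T_cx hadm
      refine hCG2 K F V₀ S₀ m hc x _ hx hx0 hl ?_ g (by rw [hgT, hT])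
      intro h0
      apply hg1
      apply Subtype.ext
      rw [hgT, hT, h0, Sq.T_zero]
      rfl
    · push Not at hz
      exact rt_mono (hCG1 K F V₀ S₀ m hc x z a hadm (indep_of hx0 hz) g hgT) (by norm_num)

end Pool.Agent.Lib.MP66ef6b.CL
end

section
set_option autoImplicit false

/-!
# MP_66ef6b_al, THEOREM L3, module CG4: all elements (growth)
-/

namespace Pool.Agent.Lib.MP66ef6b.CL

universe u

open C4M in
/-- CG4. -/
theorem specCG4 (hCG3 : SpecCG3) (hSCA : SpecSCA) (hSPX : SpecSPX) (hSGY : SpecSGY) : SpecCG4 := by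
  intro K _ F V₀ _ _ S₀ m hcls f' hsc
  have hnd := hcls.nd
  have hfin := hcls.finK
  have hfinV := hcls.finV
  have hm := hcls.rk
  obtain ⟨f, hf⟩ := f'
  replace hsc : ¬ ∃ c : K, ∀ v, f v = c • v := hsc
  have hfI : f ∈ (S₀.std m).Iso := Sq.D_le_Iso _ hf
  -- a singular vector which is not an eigenvector
  obtain ⟨x0, hx0s, hx0f⟩ : ∃ x0, (S₀.std m).Sg x0 ∧ ∀ c : K, f x0 ≠ c • x0 := by
    by_contra hcon
    apply hsc
    apply hSCA K F V₀ S₀ m (by omega) f
    intro x hx
    by_contra h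
    exact hcon ⟨x, hx, fun c hc => h ⟨c, hc⟩⟩
  have hx0 : x0 ≠ 0 := by
    rintro rfl
    exact hx0f 0 (by simp)
  -- a second vector
  obtain ⟨w0, hw0s, hw0x, hw0⟩ : ∃ w0, (S₀.std m).Sg w0 ∧ (S₀.std m).B w0 x0 = 0 ∧
      w0 ∉ Submodule.span K {x0, f x0} := by
    by_contra hcon
    obtain ⟨u, hu1, hu2⟩ := exists_perp (S₀ := S₀) hm x0 x0 (f x0)
    apply hu2
    apply hSPX K F V₀ S₀ m (by omega) hnd x0 hx0s hx0 _ _ u hu1
    intro w hw1 hw2
    by_contra h
    exact hcon ⟨w, hw1, hw2, h⟩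
  have hw0c : ∀ c : K, w0 ≠ c • x0 := by
    rintro c rfl
    exact hw0 (Submodule.smul_mem _ _ (Submodule.subset_span (by simp)))
  have hτ : (x0, w0) ∈ (S₀.std m).TPs := by
    refine ⟨hx0s, hw0s, (S₀.std m).B_eq_zero_swap hw0x, ?_⟩
    rw [LinearIndependent.pair_iff' hx0]
    intro a h
    exact hw0c a h.symm
  obtain ⟨c, hc⟩ : ∃ c : K, c ≠ 0 := ⟨1, one_ne_zero⟩
  obtain ⟨t, htc⟩ : ∃ t, t = (S₀.std m).T x0 (c • w0) 0 := ⟨_, rfl⟩
  have hadm : (S₀.std m).Adm x0 (c • w0) 0 := by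
    refine ⟨hx0s, ?_, ?_⟩
    · rw [Sq.B_smul_right, (S₀.std m).B_eq_zero_swap hw0x, mul_zero]
    · have := hw0s.smul c
      rw [zero_sub]
      exact F.Λ.neg_mem this
  have hadmf := hadm.map hfI
  have hconj := Sq.T_conj hadm hfI
  obtain ⟨x, hx, hxs, hxB⟩ := hSGY K F V₀ S₀ m hcls ![x0, w0, f x0, f w0]
  have b0 : (S₀.std m).B x x0 = 0 := (S₀.std m).B_eq_zero_swap (by simpa using hxB 0)
  have b1 : (S₀.std m).B x w0 = 0 := (S₀.std m).B_eq_zero_swap (by simpa using hxB 1)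
  have b2 : (S₀.std m).B x (f x0) = 0 := (S₀.std m).B_eq_zero_swap (by simpa using hxB 2)
  have b3 : (S₀.std m).B x (f w0) = 0 := (S₀.std m).B_eq_zero_swap (by simpa using hxB 3)
  have htx : t x = x := by
    rw [htc, Sq.T_apply hadm, b0, Sq.B_smul_right, b1]
    simp
  have htx' : t⁻¹ x = x := by
    have h2 : t⁻¹ (t x) = x := by
      rw [← LinearEquiv.mul_apply, inv_mul_cancel, LinearEquiv.coe_one, id_eq]
    rwa [htx] at h2
  have hgx : (f * t * f⁻¹ * t⁻¹) x = x := by
    rw [LinearEquiv.mul_apply, htx', htc, hconj, Sq.T_apply hadmf, b2, map_smul, Sq.B_smul_right, b3]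
    simp
  have hg1 : f * t * f⁻¹ * t⁻¹ ≠ 1 := by
    intro heq
    have hcomm : f * t = t * f := by
      have h2 : f * t * f⁻¹ * t⁻¹ * t * f = t * f := by
        rw [heq, one_mul]
      rw [← h2]
      group
    obtain ⟨y, hy1, hy2⟩ := exists_sep hnd hx0 hw0c
    have h3 : t y - y = (-(F.ε * (F.σ c * (S₀.std m).B y w0))) • x0 := by
      rw [htc, Sq.T_apply hadm, hy1, Sq.B_smul_right]
      module
    have h4 : f (t y - y) = t (f y) - f y := by
      rw [map_sub, ← LinearEquiv.mul_apply, hcomm, LinearEquiv.mul_apply]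
    have h5 : t (f y) - f y = ((S₀.std m).B (f y) x0 * c) • w0 +
        (-(F.ε * (F.σ c * (S₀.std m).B (f y) w0))) • x0 := by
      rw [htc, Sq.T_apply hadm, Sq.B_smul_right]
      module
    rw [h3, h5, map_smul] at h4
    obtain ⟨l, hl⟩ : ∃ l, l = -(F.ε * (F.σ c * (S₀.std m).B y w0)) := ⟨_, rfl⟩
    have hl0 : l ≠ 0 := by
      rw [hl]
      have hsc0 : F.σ c ≠ 0 := by
        intro h
        apply hc
        have := F.inv c
        rw [h, map_zero] at this
        exact this.symm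
      exact neg_ne_zero.2 (mul_ne_zero F.e0 (mul_ne_zero hsc0 hy2))
    rw [← hl] at h4
    obtain ⟨α, hα⟩ : ∃ α, α = (S₀.std m).B (f y) x0 * c := ⟨_, rfl⟩
    obtain ⟨γ, hγ⟩ : ∃ γ, γ = -(F.ε * (F.σ c * (S₀.std m).B (f y) w0)) := ⟨_, rfl⟩
    rw [← hα, ← hγ] at h4
    by_cases hα0 : α = 0
    · rw [hα0, zero_smul, zero_add] at h4
      apply hx0f (l⁻¹ * γ)
      rw [mul_smul, ← h4, smul_smul, inv_mul_cancel₀ hl0, one_smul]
    · apply hw0
      have h6 : w0 = (α⁻¹ * l) • f x0 + (-(α⁻¹ * γ)) • x0 := by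
        have h7 : α • w0 = l • f x0 - γ • x0 := by
          rw [h4]
          abel
        calc w0 = α⁻¹ • (α • w0) := by rw [smul_smul, inv_mul_cancel₀ hα0, one_smul]
          _ = _ := by
            rw [h7, smul_sub, smul_smul, smul_smul, neg_smul, sub_eq_add_neg]
      rw [h6]
      exact Submodule.add_mem _ (Submodule.smul_mem _ _ (Submodule.subset_span (by simp)))
        (Submodule.smul_mem _ _ (Submodule.subset_span (by simp)))
  have htD : t ∈ (S₀.std m).D ⊤ := by
    rw [htc]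
    exact Sq.T_mem_G hadm
  have h1 : InW (⟨f, hf⟩ : (S₀.std m).D ⊤) 2
      ((⟨f, hf⟩ : (S₀.std m).D ⊤) * ⟨t, htD⟩ * (⟨f, hf⟩ : (S₀.std m).D ⊤)⁻¹ *
        (⟨t, htD⟩ : (S₀.std m).D ⊤)⁻¹) := InW.comm _ _
  obtain ⟨τ, hτ1, hτ2, hτ3⟩ := hCG3 K F V₀ S₀ m hcls x hxs hx
    ((⟨f, hf⟩ : (S₀.std m).D ⊤) * ⟨t, htD⟩ * (⟨f, hf⟩ : (S₀.std m).D ⊤)⁻¹ *
        (⟨t, htD⟩ : (S₀.std m).D ⊤)⁻¹) (by
      intro heq
      exact hg1 (congrArg Subtype.val heq)) hgx
  exact ⟨τ, hτ1, hτ2, h1.trans hτ3⟩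

end Pool.Agent.Lib.MP66ef6b.CL
end

section
set_option autoImplicit false

/-!
# MP_66ef6b_al, THEOREM L3: module KEG, Kegel covers (helper21)
-/

namespace Pool.Agent.Lib.MP66ef6b.CL

universe u

namespace KEGM

/-- a maximal normal subgroup gives a simple quotient -/
theorem simple_quotient {Γ : Type u} [Group Γ] (A B : Subgroup Γ) (hBA : B < A)
    (hn : ∀ a ∈ A, ∀ n ∈ B, a * n * a⁻¹ ∈ B)
    (hmax : ∀ N : Subgroup Γ, B ≤ N → N < A → (∀ a ∈ A, ∀ n ∈ N, a * n * a⁻¹ ∈ N) → N ≤ B)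
    (hB' : (B.subgroupOf A).Normal) : IsSimpleGroup (A ⧸ B.subgroupOf A) := by
  obtain ⟨a, haA, haB⟩ := SetLike.exists_of_lt hBA
  have hnt : Nontrivial (A ⧸ B.subgroupOf A) := by
    refine ⟨⟨QuotientGroup.mk (⟨a, haA⟩ : A), 1, ?_⟩⟩
    intro h
    rw [QuotientGroup.eq_one_iff] at h
    exact haB (Subgroup.mem_subgroupOf.1 h)
  refine { hnt with eq_bot_or_eq_top_of_normal := ?_ }
  intro H hH
  have hN'n : (H.comap (QuotientGroup.mk' (B.subgroupOf A))).Normal := hH.comap _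
  by_cases hN : (H.comap (QuotientGroup.mk' (B.subgroupOf A))).map A.subtype = A
  · right
    rw [eq_top_iff]
    intro x _
    obtain ⟨x, rfl⟩ := QuotientGroup.mk_surjective x
    have h1 : (x : Γ) ∈ (H.comap (QuotientGroup.mk' (B.subgroupOf A))).map A.subtype := by
      rw [hN]
      exact x.2
    obtain ⟨x', hx', he⟩ := h1
    have he' : x' = x := Subtype.ext he
    subst he'
    exact hx'
  · left
    have hNA : (H.comap (QuotientGroup.mk' (B.subgroupOf A))).map A.subtype ≤ A := by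
      rintro _ ⟨x, _, rfl⟩
      exact x.2
    have h1 := hmax _ ?_ (lt_of_le_of_ne hNA hN) ?_
    · rw [eq_bot_iff]
      intro x hx
      obtain ⟨x, rfl⟩ := QuotientGroup.mk_surjective x
      have h2 : (x : Γ) ∈ B := h1 ⟨x, hx, rfl⟩
      rw [Subgroup.mem_bot, QuotientGroup.eq_one_iff]
      exact Subgroup.mem_subgroupOf.2 h2
    · intro b hb
      refine ⟨⟨b, hBA.le hb⟩, ?_, rfl⟩
      show QuotientGroup.mk' (B.subgroupOf A) ⟨b, hBA.le hb⟩ ∈ H
      have h2 : QuotientGroup.mk' (B.subgroupOf A) ⟨b, hBA.le hb⟩ = 1 := by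
        rw [QuotientGroup.mk'_apply, QuotientGroup.eq_one_iff]
        exact Subgroup.mem_subgroupOf.2 hb
      rw [h2]
      exact H.one_mem
    · rintro a ha _ ⟨x, hx, rfl⟩
      exact ⟨⟨a, ha⟩ * x * ⟨a, ha⟩⁻¹, hN'n.conj_mem x hx ⟨a, ha⟩, rfl⟩

/-- Kegel covers in a finite group -/
theorem kegel {Γ : Type u} [Group Γ] [Finite Γ] (E0 E1 : Subgroup Γ) (h01 : E0 ≤ E1)
    (hne : E0 ≠ ⊥)
    (h1 : ∀ y ∈ E0, y ≠ 1 → E0 ≤ Subgroup.closure {z | ∃ g ∈ E1, z = g * y * g⁻¹})
    (h2 : ∀ y ∈ E1, y ≠ 1 → E1 ≤ Subgroup.normalClosure ({y} : Set Γ)) :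
    ∃ (A : Subgroup Γ) (B : Subgroup A) (_ : B.Normal), A.Normal ∧ IsSimpleGroup (A ⧸ B) ∧
      E0 ≤ A ∧ ∀ a : A, (a : Γ) ∈ E0 → a ∈ B → a = 1 := by
  obtain ⟨⟨y0, hy0E⟩, hy0'⟩ := Subgroup.ne_bot_iff_exists_ne_one.1 hne
  have hy0 : y0 ≠ 1 := fun h => hy0' (Subtype.ext h)
  obtain ⟨A, hAdef⟩ : ∃ A, A = Subgroup.normalClosure ({y0} : Set Γ) := ⟨_, rfl⟩
  have hAn : A.Normal := by
    rw [hAdef]
    exact Subgroup.normalClosure_normal
  have hE1A : E1 ≤ A := by
    rw [hAdef]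
    exact h2 y0 (h01 hy0E) hy0
  have hy0A : y0 ∈ A := hE1A (h01 hy0E)
  have hAle : ∀ N : Subgroup Γ, N.Normal → y0 ∈ N → A ≤ N := by
    intro N hN hy
    rw [hAdef]
    exact Subgroup.normalClosure_le_normal (Set.singleton_subset_iff.2 hy)
  obtain ⟨M, hM⟩ := (Set.toFinite {N : Subgroup Γ | N.Normal ∧ N < A}).exists_maximal
    ⟨⊥, inferInstance, bot_lt_iff_ne_bot.2 (fun h => hy0 (by
      rw [h] at hy0A
      exact Subgroup.mem_bot.1 hy0A))⟩
  obtain ⟨hMn, hMA⟩ := hM.prop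
  let Q : Set (Subgroup Γ) := {N | M ≤ N ∧ N < A ∧ ∀ a ∈ A, ∀ n ∈ N, a * n * a⁻¹ ∈ N}
  have hQ : ∀ (k : Γ) (N : Subgroup Γ), N ∈ Q →
      N.comap (MulAut.conj k).toMonoidHom ∈ Q := by
    rintro k N ⟨hN1, hN2, hN3⟩
    have hmem : ∀ x, x ∈ N.comap (MulAut.conj k).toMonoidHom ↔ k * x * k⁻¹ ∈ N := fun x => Iff.rfl
    refine ⟨fun x hx => ?_, lt_of_le_of_ne (fun x hx => ?_) (fun he => ?_), fun a ha n hn => ?_⟩
    · rw [hmem]
      exact hN1 (hMn.conj_mem x hx k)
    · rw [hmem] at hx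
      have h3 := hAn.conj_mem _ (hN2.le hx) k⁻¹
      have h4 : k⁻¹ * (k * x * k⁻¹) * k⁻¹⁻¹ = x := by group
      rwa [h4] at h3
    · refine absurd hN2 (not_lt_of_ge fun a ha => ?_)
      have h3 : k⁻¹ * a * k⁻¹⁻¹ ∈ N.comap (MulAut.conj k).toMonoidHom := by
        rw [he]
        exact hAn.conj_mem a ha k⁻¹
      rw [hmem] at h3
      have h4 : k * (k⁻¹ * a * k⁻¹⁻¹) * k⁻¹ = a := by group
      rwa [h4] at h3
    · rw [hmem] at hn ⊢
      have h3 := hN3 _ (hAn.conj_mem a ha k) _ hn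
      have h4 : k * a * k⁻¹ * (k * n * k⁻¹) * (k * a * k⁻¹)⁻¹ = k * (a * n * a⁻¹) * k⁻¹ := by
        group
      rwa [h4] at h3
  have hBmax : ∀ (k : Γ) (N : Subgroup Γ), Maximal (· ∈ Q) N →
      Maximal (· ∈ Q) (N.comap (MulAut.conj k).toMonoidHom) := by
    intro k N hN
    refine ⟨hQ k N hN.prop, fun N' hN' hle x hx => ?_⟩
    have h3 : N ≤ N'.comap (MulAut.conj k⁻¹).toMonoidHom := by
      intro z hz
      have h4 : k⁻¹ * z * k⁻¹⁻¹ ∈ N.comap (MulAut.conj k).toMonoidHom := by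
        show k * (k⁻¹ * z * k⁻¹⁻¹) * k⁻¹ ∈ N
        have h5 : k * (k⁻¹ * z * k⁻¹⁻¹) * k⁻¹ = z := by group
        rwa [h5]
      exact hle h4
    have h4 := hN.2 (hQ k⁻¹ N' hN') h3
    have h5 : k * x * k⁻¹ ∈ N'.comap (MulAut.conj k⁻¹).toMonoidHom := by
      show k⁻¹ * (k * x * k⁻¹) * k⁻¹⁻¹ ∈ N'
      have h6 : k⁻¹ * (k * x * k⁻¹) * k⁻¹⁻¹ = x := by group
      rwa [h6]
    exact h4 h5
  obtain ⟨B₀, hB₀⟩ := (Set.toFinite Q).exists_maximal
    ⟨M, le_rfl, hMA, fun a _ n hn => hMn.conj_mem n hn a⟩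
  obtain ⟨R, hR⟩ : ∃ R : Subgroup Γ, R = sInf {N | Maximal (· ∈ Q) N} := ⟨_, rfl⟩
  have hRmem : ∀ x, x ∈ R ↔ ∀ N : Subgroup Γ, Maximal (· ∈ Q) N → x ∈ N := by
    intro x
    rw [hR, Subgroup.mem_sInf]
    rfl
  have hRn : R.Normal := by
    refine ⟨fun n hn k => ?_⟩
    rw [hRmem] at hn ⊢
    intro N hN
    exact hn _ (hBmax k N hN)
  have hRA : R < A := by
    refine lt_of_le_of_lt ?_ hB₀.prop.2.1
    intro x hx
    exact (hRmem x).1 hx B₀ hB₀
  have hMR : M ≤ R := by
    intro x hx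
    rw [hRmem]
    intro N hN
    exact hN.prop.1 hx
  have hRM : R ≤ M := hM.2 ⟨hRn, hRA⟩ hMR
  have hy0M : y0 ∉ M := fun h => absurd hMA (not_lt_of_ge (hAle M hMn h))
  obtain ⟨B, hB, hy0B⟩ : ∃ B : Subgroup Γ, Maximal (· ∈ Q) B ∧ y0 ∉ B := by
    by_contra hcon
    push Not at hcon
    exact hy0M (hRM ((hRmem y0).2 hcon))
  obtain ⟨hMB, hBA, hBn⟩ := hB.prop
  have hB'n : (B.subgroupOf A).Normal := by
    refine ⟨fun n hn a => ?_⟩
    rw [Subgroup.mem_subgroupOf] at hn ⊢
    exact hBn a a.2 n hn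
  refine ⟨A, B.subgroupOf A, hB'n, hAn, ?_, h01.trans hE1A, ?_⟩
  · exact simple_quotient A B hBA hBn
      (fun N hBN hNA hNn => hB.2 ⟨hMB.trans hBN, hNA, hNn⟩ hBN) hB'n
  · intro a haE haB
    by_contra ha1
    have ha1' : (a : Γ) ≠ 1 := fun h => ha1 (Subtype.ext h)
    rw [Subgroup.mem_subgroupOf] at haB
    have h3 : Subgroup.closure {z | ∃ g ∈ E1, z = g * (a : Γ) * g⁻¹} ≤ B := by
      rw [Subgroup.closure_le]
      rintro _ ⟨g, hg, rfl⟩
      exact hBn g (hE1A hg) _ haB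
    exact hy0B (h3 (h1 a haE ha1' hy0E))

end KEGM

open KEGM in
theorem specKEG : SpecKEG.{u} := by
  intro G _ _ _ hG E hE hne
  obtain ⟨E₁, hE₁, hEE₁, ht1⟩ := specTOWER G hG E hE
  obtain ⟨E', hE', hE₁E', ht2⟩ := specTOWER G hG E₁ hE₁
  refine ⟨E', hE', hEE₁.trans hE₁E', fun K hK hK' => ?_⟩
  have hE₁K : E₁ ≤ K := hE₁E'.trans hK'
  have hEK : E ≤ K := hEE₁.trans hE₁K
  have hne' : E.subgroupOf K ≠ ⊥ := by
    obtain ⟨⟨y, hy⟩, hy1⟩ := Subgroup.ne_bot_iff_exists_ne_one.1 hne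
    rw [Subgroup.ne_bot_iff_exists_ne_one]
    refine ⟨⟨⟨y, hEK hy⟩, Subgroup.mem_subgroupOf.2 hy⟩, fun h => hy1 ?_⟩
    have h1 := congrArg (fun z : E.subgroupOf K => ((z : K) : G)) h
    exact Subtype.ext h1
  have key := kegel (E.subgroupOf K) (E₁.subgroupOf K) ?_ hne' ?_ ?_
  · obtain ⟨A, B, hBn, hAn, hs, hEA, htr⟩ := key
    refine ⟨A, B, hBn, hAn, hs, fun x hx => ?_, fun a ha haB => ?_⟩
    · exact ⟨⟨⟨x, hEK hx⟩, hEA (Subgroup.mem_subgroupOf.2 hx)⟩, rfl⟩
    · exact htr a (Subgroup.mem_subgroupOf.2 ha) haB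
  · intro x hx
    exact Subgroup.mem_subgroupOf.2 (hEE₁ (Subgroup.mem_subgroupOf.1 hx))
  · intro y hy hy1 x hx
    have hy1' : (y : G) ≠ 1 := fun h => hy1 (Subtype.ext h)
    have h1 := ht1 y (Subgroup.mem_subgroupOf.1 hy) hy1'
    have h2 : Subgroup.closure {z | ∃ g ∈ E₁, z = g * (y : G) * g⁻¹} ≤
        (Subgroup.closure {z | ∃ g ∈ E₁.subgroupOf K, z = g * y * g⁻¹}).map K.subtype := by
      rw [Subgroup.closure_le]
      rintro _ ⟨g, hg, rfl⟩
      exact ⟨⟨g, hE₁K hg⟩ * y * ⟨g, hE₁K hg⟩⁻¹, Subgroup.subset_closure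
        ⟨⟨g, hE₁K hg⟩, Subgroup.mem_subgroupOf.2 hg, rfl⟩, rfl⟩
    obtain ⟨x', hx', he⟩ := h2 (h1 (Subgroup.mem_subgroupOf.1 hx))
    have he' : x' = x := Subtype.ext he
    rwa [he'] at hx'
  · intro y hy hy1 x hx
    have hy1' : (y : G) ≠ 1 := fun h => hy1 (Subtype.ext h)
    have h1 := ht2 y (Subgroup.mem_subgroupOf.1 hy) hy1'
    have h2 : Subgroup.closure {z | ∃ g ∈ E', z = g * (y : G) * g⁻¹} ≤
        (Subgroup.normalClosure ({y} : Set K)).map K.subtype := by
      rw [Subgroup.closure_le]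
      rintro _ ⟨g, hg, rfl⟩
      have hn : (Subgroup.normalClosure ({y} : Set K)).Normal := Subgroup.normalClosure_normal
      have hyn : y ∈ Subgroup.normalClosure ({y} : Set K) :=
        Subgroup.subset_normalClosure (Set.mem_singleton y)
      have h3 := hn.conj_mem y hyn (⟨g, hK' hg⟩ : K)
      exact ⟨_, h3, rfl⟩
    obtain ⟨x', hx', he⟩ := h2 (h1 (Subgroup.mem_subgroupOf.1 hx))
    have he' : x' = x := Subtype.ext he
    rwa [he'] at hx'

end Pool.Agent.Lib.MP66ef6b.CL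
end

section
set_option autoImplicit false

/-!
# MP_66ef6b_al, THEOREM L3: module LGU (helper67): the order of a group generated by transvections
-/

namespace Pool.Agent.Lib.MP66ef6b.CL

open PL (SLn PSLn)

namespace LGUM

open Matrix PL.GNUM

variable {n : ℕ} {K : Type} [Field K]

theorem tv_mem (H : Subgroup (PSLn n K))
    (h : ∀ (i j : Fin n) (hij : i ≠ j), j.val = i.val + 1 →
      (QuotientGroup.mk (SpecialLinearGroup.transvection hij (1 : K)) : PSLn n K) ∈ H) :
    ∀ (d : ℕ) (i j : Fin n) (hij : i ≠ j), j.val = i.val + d + 1 →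
      (QuotientGroup.mk (SpecialLinearGroup.transvection hij (1 : K)) : PSLn n K) ∈ H := by
  intro d
  induction d with
  | zero => intro i j hij hd; exact h i j hij hd
  | succ d ih =>
    intro i j hij hd
    have hk : i.val + d + 1 < n := by have := j.isLt; omega
    have hik : i ≠ ⟨i.val + d + 1, hk⟩ := by
      intro h1
      have := congrArg Fin.val h1
      simp only at this
      omega
    have hkj : (⟨i.val + d + 1, hk⟩ : Fin n) ≠ j := by
      intro h1
      have := congrArg Fin.val h1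
      simp only at this
      omega
    have h1 := ih i ⟨i.val + d + 1, hk⟩ hik rfl
    have h2 := h ⟨i.val + d + 1, hk⟩ j hkj (by simp only; omega)
    rw [← comm_tv hik hkj hij 1]
    exact H.mul_mem (H.mul_mem (H.mul_mem h1 h2) (H.inv_mem h1)) (H.inv_mem h2)

theorem bl_mem (k : ℕ) (H : Subgroup (PSLn n K))
    (h : ∀ (i j : Fin n) (hij : i ≠ j), j.val = i.val + 1 →
      (QuotientGroup.mk (SpecialLinearGroup.transvection hij (1 : K)) : PSLn n K) ∈ H)
    (b : Matrix (Fin n) (Fin n) K) (hb : Bl k b) (hb1 : ∀ i j, b i j = 0 ∨ b i j = 1) :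
    b ∈ SB k H := by
  rw [matrix_eq_sum_single b]
  refine sum_mem fun i _ => sum_mem fun j _ => ?_
  by_cases h0 : b i j = 0
  · rw [h0, single_zero]
    exact zero_mem _
  · have h1 := hb i j h0
    have hij : i ≠ j := by
      intro h2
      rw [h2] at h1
      omega
    refine ⟨fun i' j' h2 => ?_, fun g hg => ?_⟩
    · have h3 : i = i' ∧ j = j' := by
        by_contra h4
        apply h2
        rw [single_apply, if_neg h4]
      rw [← h3.1, ← h3.2]
      exact h1
    · have h4 : b i j = 1 := (hb1 i j).resolve_left h0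
      rw [h4] at hg
      have h2 : g = SpecialLinearGroup.transvection hij (1 : K) := Subtype.ext hg
      rw [h2]
      exact tv_mem H h (j.val - i.val - 1) i j hij (by omega)

theorem bm_01 (k : ℕ) (f : Fin k → Fin k → Bool) (i j : Fin n) :
    bm K n k f i j = 0 ∨ bm K n k f i j = 1 := by
  unfold bm
  split_ifs
  · exact Or.inr rfl
  · exact Or.inl rfl
  · exact Or.inl rfl

end LGUM

open LGUM PL.GNUM Matrix in
/-- **LGU.** -/
theorem specLGU : SpecLGU := by
  intro n K _ _ H h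
  rcases Nat.eq_zero_or_pos (n / 2) with hk | hk
  · rw [hk, zero_pow two_ne_zero, pow_zero]
    exact Nat.card_pos
  have hkn : 2 * (n / 2) ≤ n := Nat.mul_div_le n 2
  generalize n / 2 = k at *
  let g : (Fin k → Fin k → Bool) → SLn n K := fun f => ⟨1 + bm K n k f, bl_det (bl_bm k f)⟩
  have hg : ∀ f, (QuotientGroup.mk (g f) : PSLn n K) ∈ H := fun f =>
    (LGUM.bl_mem k H h _ (bl_bm k f) (bm_01 k f)).2 (g f) rfl
  let F : (Fin k → Fin k → Bool) → H := fun f => ⟨QuotientGroup.mk (g f), hg f⟩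
  have hF : Function.Injective F := by
    intro f f' hff
    have h1 : (QuotientGroup.mk (g f) : PSLn n K) = QuotientGroup.mk (g f') :=
      congrArg Subtype.val hff
    rw [QuotientGroup.eq] at h1
    obtain ⟨r, -, hr⟩ := Matrix.SpecialLinearGroup.mem_center_iff.1 h1
    have h2 : (g f').1 = (g f).1 * scalar (Fin n) r := by
      rw [hr]
      change (g f').1 = (g f * ((g f)⁻¹ * g f')).1
      rw [mul_inv_cancel_left]
    have h3 : ∀ i j, (1 + bm K n k f') i j = (1 + bm K n k f) i j * r := by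
      intro i j
      have h4 := congrFun (congrFun h2 i) j
      change (1 + bm K n k f') i j = ((1 + bm K n k f) * scalar (Fin n) r) i j at h4
      rw [h4, scalar_apply, mul_diagonal]
    have hr1 : r = 1 := by
      have h4 := h3 ⟨0, by omega⟩ ⟨0, by omega⟩
      have h5 : ∀ f, bm K n k f ⟨0, by omega⟩ ⟨0, by omega⟩ = 0 := by
        intro f
        by_contra h6
        have h7 := bl_bm k f _ _ h6
        simp only at h7
        omega
      rw [Matrix.add_apply, Matrix.add_apply, h5, h5, Matrix.one_apply_eq, add_zero, one_mul] at h4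
      exact h4.symm
    refine bm_inj (K := K) hkn f f' ?_
    ext i j
    have h4 := h3 i j
    rw [hr1, mul_one, Matrix.add_apply, Matrix.add_apply] at h4
    exact (add_left_cancel h4).symm
  have hcard := Nat.card_le_card_of_injective F hF
  have h5 : Nat.card (Fin k → Fin k → Bool) = 2 ^ (k ^ 2) := by
    simp only [Nat.card_eq_fintype_card, Fintype.card_fun, Fintype.card_fin, Fintype.card_bool]
    rw [← pow_mul, sq]
  rw [← h5]
  exact hcard

end Pool.Agent.Lib.MP66ef6b.CL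
end

section
set_option autoImplicit false

/-!
# MP_66ef6b_al, CL, module Y2N: an element of large order
-/

namespace Pool.Agent.Lib.MP66ef6b.CL

open PL (SLn PSLn fx)
open Matrix
open Matrix.SpecialLinearGroup (transvection)

namespace Y2NM

/-- powers of matrices which are block matrices in the rows of the image of `e` -/
theorem pow_block {K ι κ : Type} [Field K] [Fintype ι] [DecidableEq ι] [Fintype κ] [DecidableEq κ]
    (e : κ → ι) (he : Function.Injective e) (Y : Matrix ι ι K) (M : Matrix κ κ K)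
    (h1 : ∀ a c, Y (e a) (e c) = M a c) (h2 : ∀ a k, k ∉ Set.range e → Y (e a) k = 0) (l : ℕ) :
    (∀ a c, (Y ^ l) (e a) (e c) = (M ^ l) a c) ∧ ∀ a k, k ∉ Set.range e → (Y ^ l) (e a) k = 0 := by
  induction l with
  | zero =>
    refine ⟨fun a c => ?_, fun a k hk => ?_⟩
    · rw [pow_zero, pow_zero, Matrix.one_apply, Matrix.one_apply]
      by_cases h : a = c
      · rw [if_pos h, if_pos (congrArg e h)]
      · rw [if_neg h, if_neg (fun h' => h (he h'))]
    · rw [pow_zero, Matrix.one_apply, if_neg]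
      rintro rfl
      exact hk ⟨a, rfl⟩
  | succ l ih =>
    refine ⟨fun a c => ?_, fun a k hk => ?_⟩
    · rw [pow_succ, pow_succ, Matrix.mul_apply, Matrix.mul_apply]
      symm
      refine Fintype.sum_of_injective e he _ _ ?_ ?_
      · intro k hk
        rw [ih.2 a k hk, zero_mul]
      · intro c'
        rw [ih.1, h1]
    · rw [pow_succ, Matrix.mul_apply]
      refine Finset.sum_eq_zero fun k' _ => ?_
      by_cases hk' : k' ∈ Set.range e
      · obtain ⟨c', rfl⟩ := hk'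
        rw [h2 c' k hk, mul_zero]
      · rw [ih.2 a k' hk', zero_mul]

/-- the entries of the product -/
theorem entry {K ι : Type} [Field K] [Fintype ι] [DecidableEq ι] {i j : ι} (hij : i ≠ j) (b : K)
    (x y : ι) : (transvection hij 1 * transvection hij.symm b : SpecialLinearGroup ι K).1 x y =
      (if x = y then 1 else 0) + (if x = i ∧ y = j then 1 else 0) +
      (if x = j ∧ y = i then b else 0) + (if x = i ∧ y = i then b else 0) := by
  have h : (transvection hij 1 * transvection hij.symm b : SpecialLinearGroup ι K).1 =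
      (1 : Matrix ι ι K) + Matrix.single i j 1 + Matrix.single j i b + Matrix.single i i b := by
    show (transvection hij 1 : SpecialLinearGroup ι K).1 *
      (transvection hij.symm b : SpecialLinearGroup ι K).1 = _
    have e1 : (transvection hij 1 : SpecialLinearGroup ι K).1 = 1 + Matrix.single i j 1 :=
      SpecialLinearGroup.transvection_coe hij 1
    have e2 : (transvection hij.symm b : SpecialLinearGroup ι K).1 = 1 + Matrix.single j i b :=
      SpecialLinearGroup.transvection_coe hij.symm b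
    rw [e1, e2, mul_add, mul_one, add_mul, one_mul, Matrix.single_mul_single_same, one_mul]
    abel
  rw [h]
  simp only [Matrix.add_apply, Matrix.one_apply, Matrix.single_apply, eq_comm (a := i),
    eq_comm (a := j)]

end Y2NM

open Y2NM in
theorem specY2N (hSJP : SpecSJP) : SpecY2N := by
  classical
  intro N
  refine ⟨N ^ 2 + 1, ?_⟩
  intro n K _ _ hn hK
  obtain ⟨B, hB, H⟩ := hSJP K N
  obtain ⟨t, ht⟩ : ∃ t : K, t ∉ B := by
    by_contra hcon
    push Not at hcon
    have : Fintype K := Fintype.ofFinite K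
    have h1 : Fintype.card K ≤ B.card := by
      rw [← Finset.card_univ]
      exact Finset.card_le_card fun x _ => hcon x
    rw [Nat.card_eq_fintype_card] at hK
    omega
  obtain ⟨e, he⟩ : ∃ e : Fin 2 → Fin n, e = Fin.castLE hn := ⟨_, rfl⟩
  have hinj : Function.Injective e := by
    rw [he]
    exact Fin.castLE_injective hn
  have h01 : (0 : Fin 2) ≠ 1 := by decide
  have hij : e 0 ≠ e 1 := fun h => h01 (hinj h)
  refine ⟨e 0, e 1, hij, t - 2, fun l hl hlN hc => ?_⟩
  obtain ⟨M, hM⟩ : ∃ M : SLn 2 K, M = transvection h01 1 * transvection h01.symm (t - 2) :=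
    ⟨_, rfl⟩
  obtain ⟨Y, hY⟩ : ∃ Y : SLn n K, Y = transvection hij 1 * transvection hij.symm (t - 2) :=
    ⟨_, rfl⟩
  rw [← hY] at hc
  have key := pow_block e hinj Y.1 M.1 (by
    intro a c
    rw [hY, hM, entry, entry]
    simp only [hinj.eq_iff]) (by
    intro a k hk
    have hk0 : k ≠ e 0 := by
      rintro rfl
      exact hk ⟨0, rfl⟩
    have hk1 : k ≠ e 1 := by
      rintro rfl
      exact hk ⟨1, rfl⟩
    have hka : ¬ e a = k := fun h => hk ⟨a, h⟩
    rw [hY, entry, if_neg hka, if_neg (fun h => hk1 h.2), if_neg (fun h => hk0 h.2),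
      if_neg (fun h => hk0 h.2)]
    simp) l
  have hMc : M ∉ Subgroup.center (SLn 2 K) := by
    intro h
    rw [Matrix.SpecialLinearGroup.mem_center_iff] at h
    obtain ⟨r, -, hr⟩ := h
    have h2 := congrFun (congrFun hr 0) 1
    have h3 : M.1 0 1 = 1 := by
      rw [hM, entry]
      simp
    have h4 : (Matrix.scalar (Fin 2) r) 0 1 = 0 := by
      simp
    rw [h4] at h2
    have h5 : (0 : K) = M.1 0 1 := h2
    rw [h3] at h5
    exact zero_ne_one h5
  have htr : Matrix.trace M.1 = t := by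
    rw [Matrix.trace_fin_two, hM, entry, entry]
    simp
    ring
  refine ht ?_
  rw [← htr]
  refine H M hMc l hl hlN ?_
  rw [Matrix.SpecialLinearGroup.mem_center_iff] at hc
  obtain ⟨r, -, hr⟩ := hc
  have hMl : (M ^ l : SLn 2 K).1 = Matrix.scalar (Fin 2) r := by
    ext a c
    have h1 : (M ^ l : SLn 2 K).1 = M.1 ^ l := Matrix.SpecialLinearGroup.coe_pow M l
    have h2 : (Y ^ l : SLn n K).1 = Y.1 ^ l := Matrix.SpecialLinearGroup.coe_pow Y l
    rw [h1, ← key.1 a c, ← h2]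
    have h3 := congrFun (congrFun hr (e a)) (e c)
    have h4 : (Y ^ l : SLn n K).1 (e a) (e c) = Matrix.scalar (Fin n) r (e a) (e c) := h3.symm
    rw [h4, Matrix.scalar_apply, Matrix.scalar_apply, Matrix.diagonal_apply, Matrix.diagonal_apply]
    simp only [hinj.eq_iff]
  rw [Matrix.SpecialLinearGroup.mem_center_iff]
  refine ⟨r, ?_, hMl.symm⟩
  have h5 := (M ^ l : SLn 2 K).2
  have h6 : Matrix.det (M ^ l : SLn 2 K).1 = 1 := h5
  rw [hMl, Matrix.scalar_apply, Matrix.det_diagonal, Finset.prod_const, Finset.card_univ] at h6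
  exact h6

end Pool.Agent.Lib.MP66ef6b.CL
end
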