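import Pool.Agent.Lib.MP_66ef6b_al.CL.SpecD
import Pool.Agent.Lib.MP_66ef6b_al.PL.CBK
import Pool.Agent.Lib.MP_66ef6b_al.CL.SGY
import Pool.Agent.Lib.MP_66ef6b_al.CL.SpecE

section
set_option autoImplicit false

/-!
# MP_66ef6b_al, THEOREM L2: module WT1 (helper68), transitivity on vectors
-/

namespace Pool.Agent.Lib.MP66ef6b.CL

open Matrix
open PL (SLn)

namespace WT1M

variable {K : Type} [Field K] {F : FD K} {V₀ : Type} [AddCommGroup V₀] [Module K V₀]

/-- same orbit of the group `D ⊤` -/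
def Rel (S₀ : Sq F V₀) (m : ℕ) (z z' : SV K V₀ m) : Prop := ∃ g ∈ (S₀.std m).D ⊤, g z = z'

variable {S₀ : Sq F V₀} {m : ℕ}

theorem Rel.trans {x y z : SV K V₀ m} (h : Rel S₀ m x y) (h' : Rel S₀ m y z) : Rel S₀ m x z := by
  obtain ⟨g, hg, rfl⟩ := h
  obtain ⟨g', hg', rfl⟩ := h'
  exact ⟨g' * g, mul_mem hg' hg, LinearEquiv.mul_apply _ _ _⟩

theorem Rel.symm {x y : SV K V₀ m} (h : Rel S₀ m x y) : Rel S₀ m y x := by
  obtain ⟨g, hg, rfl⟩ := h
  refine ⟨g⁻¹, inv_mem hg, ?_⟩
  rw [← LinearEquiv.mul_apply, inv_mul_cancel, LinearEquiv.coe_one, id_eq]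

theorem Rel.q {x y : SV K V₀ m} (h : Rel S₀ m x y) : (S₀.std m).q y - (S₀.std m).q x ∈ F.Λ := by
  obtain ⟨g, hg, rfl⟩ := h
  exact (Sq.D_le_Iso ⊤ hg).2 x

/-- the contragredient action of `SL_m(K)` is transitive -/
theorem exF (F : FD K) (hm : 2 ≤ m) (a : Fin m → K) (ha : a ≠ 0) (i : Fin m) :
    ∃ g : SLn m K, ((g⁻¹ : SLn m K).1.map F.σ)ᵀ *ᵥ a = Pi.single i 1 := by
  obtain ⟨h, hh⟩ := PL.FRTM.trA hm a ha i
  have hd : ((h.1ᵀ).map F.σ).det = 1 := by
    have h1 := RingHom.map_det F.σ h.1ᵀ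
    rw [det_transpose, h.2, map_one] at h1
    exact h1.symm
  refine ⟨(⟨(h.1ᵀ).map F.σ, hd⟩ : SLn m K)⁻¹, ?_⟩
  rw [inv_inv]
  have h2 : (((h.1ᵀ).map F.σ).map F.σ)ᵀ = h.1 := by
    ext x y
    simp [F.inv]
  change (((h.1ᵀ).map F.σ).map F.σ)ᵀ *ᵥ a = _
  rw [h2, hh]

/-- the vector `e_i` and a vector of `V₀` are admissible -/
theorem adm (i : Fin m) (w : V₀) :
    (S₀.std m).Adm (eV K V₀ i) (0, 0, w) ((S₀.std m).q (0, 0, w)) where
  sg := by
    have : (S₀.std m).q (eV K V₀ i) = 0 := by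
      rw [std_q]
      simp [eV, S₀.q_zero, dotProduct]
    rw [Sq.Sg, this]
    exact F.Λ.zero_mem
  orth := by
    rw [std_B]
    simp [eV, S₀.B_zero_left, dotProduct]
  par := by
    rw [sub_self]
    exact F.Λ.zero_mem

theorem B_e (z : SV K V₀ m) (i : Fin m) : (S₀.std m).B z (eV K V₀ i) = F.ε * z.2.1 i := by
  rw [std_B]
  have h1 : (z.2.1 ⬝ᵥ fun j => F.σ ((eV K V₀ i).1 j)) = z.2.1 i := by
    rw [dotProduct, Finset.sum_eq_single i]
    · simp [eV]
    · intro j _ hj
      simp [eV, Pi.single_eq_of_ne hj]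
    · intro h
      exact absurd (Finset.mem_univ _) h
  rw [h1]
  simp [eV, S₀.B_zero_right, dotProduct]

/-- Step A -/
theorem stepA (hL : SpecLMD) (hm : 2 ≤ m) (i : Fin m) (z : SV K V₀ m) (hz : z.2.1 ≠ 0) :
    ∃ b : K, Rel S₀ m z (Pi.single i b, Pi.single i 1, 0) := by
  obtain ⟨-, ⟨hlam, hE, -, -, -⟩, -⟩ := hL K F V₀ S₀ m
  -- A1
  obtain ⟨g, hg⟩ := exF F hm z.2.1 hz i
  have r1 : Rel S₀ m z (g.1 *ᵥ z.1, Pi.single i 1, z.2.2) := by
    refine ⟨lam F V₀ m g, hlam ⟨g, rfl⟩, ?_⟩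
    rw [lam_apply, hg]
  -- A2
  have r2 : ∀ (a : Fin m → K) (v : V₀), ∃ a1 : Fin m → K,
      Rel S₀ m (a, Pi.single i 1, v) (a1, Pi.single i 1, 0) := by
    intro a v
    have hadm := adm (S₀ := S₀) i (-(F.ε • v))
    have hx := Sq.T_apply hadm (a, Pi.single i 1, v)
    rw [B_e] at hx
    simp only [Pi.single_eq_same, mul_one] at hx
    refine ⟨_, _, Sq.T_mem_G hadm, Prod.ext (y := (_, _, _)) rfl (Prod.ext ?_ ?_)⟩
    · rw [hx]
      simp [eV]
    · rw [hx]
      simp only [Prod.snd_add, Prod.snd_sub, Prod.smul_snd, eV, smul_zero, sub_zero, smul_neg,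
        smul_smul, F.ee, one_smul, add_neg_cancel]
  obtain ⟨a, r3⟩ := r2 (g.1 *ᵥ z.1) z.2.2
  -- A3
  refine ⟨a i, (r1.trans r3).trans ?_⟩
  let D : Matrix (Fin m) (Fin m) K := Matrix.of fun k l =>
    if l = i then (if k = i then 0 else -a k) else if k = i then F.ε * F.σ (a l) else 0
  have hD : DM F D := by
    constructor
    · intro k l
      simp only [D, Matrix.of_apply]
      by_cases hk : k = i <;> by_cases hl : l = i
      · simp [hk, hl]
      · simp [hk, hl]
      · simp only [hk, hl, if_true, if_false, map_mul, F.inv, F.se]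
        linear_combination (a k) * F.ee
      · simp [hk, hl]
    · intro k
      simp only [D, Matrix.of_apply]
      by_cases hk : k = i
      · simp only [hk, if_true]
        exact F.Λ.zero_mem
      · simp only [hk, if_false]
        exact F.Λ.zero_mem
  refine ⟨zE V₀ D, hE ⟨D, hD, rfl⟩, ?_⟩
  rw [zE_apply]
  refine Prod.ext ?_ rfl
  ext k
  simp only [Pi.add_apply, Matrix.mulVec_single_one, Matrix.col_apply, D, Matrix.of_apply, if_true]
  by_cases hk : k = i
  · subst hk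
    simp
  · simp [hk]

/-- Step B -/
theorem stepB (hL : SpecLMD) (hm : 2 ≤ m) (i j : Fin m) (hij : i ≠ j) (z : SV K V₀ m)
    (hz : z.1 ≠ 0) (hz' : z.2.1 = 0) : ∃ z1 : SV K V₀ m, z1.2.1 ≠ 0 ∧ Rel S₀ m z z1 := by
  obtain ⟨-, ⟨hlam, -, hF, -, -⟩, -⟩ := hL K F V₀ S₀ m
  obtain ⟨g, hg⟩ := PL.FRTM.trA hm z.1 hz i
  have r1 : Rel S₀ m z (Pi.single i 1, 0, z.2.2) := by
    refine ⟨lam F V₀ m g, hlam ⟨g, rfl⟩, ?_⟩
    rw [lam_apply, hg, hz', mulVec_zero]
  let D : Matrix (Fin m) (Fin m) K := Matrix.of fun k l =>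
    if k = j ∧ l = i then 1 else if k = i ∧ l = j then -F.ε else 0
  have hD : DM F D := by
    constructor
    · intro k l
      simp only [D, Matrix.of_apply]
      by_cases h1 : k = j ∧ l = i
      · have h2 : ¬ (l = j ∧ k = i) := fun h => hij (h.2.symm.trans h1.1)
        have h3 : l = i ∧ k = j := ⟨h1.2, h1.1⟩
        rw [if_pos h1, if_neg h2, if_pos h3, map_neg, F.se]
        linear_combination -F.ee
      · by_cases h2 : k = i ∧ l = j
        · have h3 : l = j ∧ k = i := ⟨h2.2, h2.1⟩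
          rw [if_neg h1, if_pos h2, if_pos h3, map_one, mul_one]
        · have h3 : ¬ (l = j ∧ k = i) := fun h => h2 ⟨h.2, h.1⟩
          have h4 : ¬ (l = i ∧ k = j) := fun h => h1 ⟨h.2, h.1⟩
          rw [if_neg h1, if_neg h2, if_neg h3, if_neg h4, map_zero, mul_zero, neg_zero]
    · intro k
      simp only [D, Matrix.of_apply]
      rw [if_neg (fun h => hij (h.2.symm.trans h.1)), if_neg (fun h => hij (h.1.symm.trans h.2))]
      exact F.Λ.zero_mem
  refine ⟨zF V₀ D (Pi.single i 1, 0, z.2.2), ?_, r1.trans ⟨zF V₀ D, hF ⟨D, hD, rfl⟩, rfl⟩⟩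
  rw [zF_apply]
  intro h
  have h1 := congrFun h j
  simp [D] at h1

/-- Step C -/
theorem stepC (hNd : S₀.Nd) (i : Fin m) (z : SV K V₀ m) (hz : z ≠ 0)
    (h1 : z.1 = 0) (h2 : z.2.1 = 0) :
    ∃ z1 : SV K V₀ m, z1.1 ≠ 0 ∧ z1.2.1 = 0 ∧ Rel S₀ m z z1 := by
  have h3 : z.2.2 ≠ 0 := fun h => hz (Prod.ext h1 (Prod.ext h2 h))
  obtain ⟨w, hw⟩ : ∃ w, S₀.B z.2.2 w ≠ 0 := by
    by_contra hc
    push Not at hc
    exact h3 (hNd _ hc)
  have hadm := adm (S₀ := S₀) i w
  have hB : (S₀.std m).B z (0, 0, w) = S₀.B z.2.2 w := by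
    rw [std_B, h1, h2]
    simp [dotProduct]
  have hT : (S₀.std m).T (eV K V₀ i) (0, 0, w) ((S₀.std m).q (0, 0, w)) z =
      z - (F.ε * S₀.B z.2.2 w) • eV K V₀ i := by
    rw [Sq.T_apply hadm, B_e, h2, hB]
    simp
  refine ⟨_, ?_, ?_, ⟨_, Sq.T_mem_G hadm, hT⟩⟩
  · intro h
    have h4 := congrFun h i
    simp only [Prod.fst_sub, Prod.smul_fst, h1, eV, zero_sub, Pi.neg_apply, Pi.smul_apply,
      Pi.single_eq_same, smul_eq_mul, mul_one, Pi.zero_apply, neg_eq_zero] at h4
    exact (mul_ne_zero F.e0 hw) h4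
  · simp [h2, eV]

theorem nf (hL : SpecLMD) (hm : 2 ≤ m) (hNd : S₀.Nd) (i : Fin m) (z : SV K V₀ m) (hz : z ≠ 0) :
    ∃ b : K, Rel S₀ m z (Pi.single i b, Pi.single i 1, 0) := by
  obtain ⟨j, hj⟩ : ∃ j : Fin m, j ≠ i := by
    have : Nontrivial (Fin m) := Fin.nontrivial_iff_two_le.2 hm
    exact exists_ne i
  have hB : ∀ z : SV K V₀ m, z.1 ≠ 0 → z.2.1 = 0 →
      ∃ b : K, Rel S₀ m z (Pi.single i b, Pi.single i 1, 0) := by
    intro z h1 h2
    obtain ⟨z1, h3, r⟩ := stepB (S₀ := S₀) hL hm i j hj.symm z h1 h2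
    obtain ⟨b, r'⟩ := stepA (S₀ := S₀) hL hm i z1 h3
    exact ⟨b, r.trans r'⟩
  by_cases h2 : z.2.1 = 0
  · by_cases h1 : z.1 = 0
    · obtain ⟨z1, h3, h4, r⟩ := stepC hNd i z hz h1 h2
      obtain ⟨b, r'⟩ := hB z1 h3 h4
      exact ⟨b, r.trans r'⟩
    · exact hB z h1 h2
  · exact stepA hL hm i z h2

theorem q_nf (i : Fin m) (b : K) :
    (S₀.std m).q ((Pi.single i b, Pi.single i 1, 0) : SV K V₀ m) = b := by
  rw [std_q]
  have h1 : ((Pi.single i b : Fin m → K) ⬝ᵥ fun j => F.σ ((Pi.single i 1 : Fin m → K) j)) = b := by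
    rw [single_dotProduct]
    simp
  simp only [h1, S₀.q_zero, add_zero]

theorem nf_rel (hL : SpecLMD) (i : Fin m) (b b' : K) (h : b - b' ∈ F.Λ) :
    Rel S₀ m (Pi.single i b, Pi.single i 1, 0) (Pi.single i b', Pi.single i 1, 0) := by
  obtain ⟨-, ⟨-, hE, -, -, -⟩, -⟩ := hL K F V₀ S₀ m
  have hl : b' - b ∈ F.Λ := by
    have := F.Λ.neg_mem h
    rwa [neg_sub] at this
  let D : Matrix (Fin m) (Fin m) K := Matrix.single i i (b' - b)
  have hD : DM F D := by
    constructor
    · intro k l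
      simp only [D, Matrix.single_apply]
      by_cases h1 : i = k ∧ i = l
      · have h2 : i = l ∧ i = k := ⟨h1.2, h1.1⟩
        rw [if_pos h1, if_pos h2, F.skew hl, neg_neg]
      · have h2 : ¬ (i = l ∧ i = k) := fun h => h1 ⟨h.2, h.1⟩
        rw [if_neg h1, if_neg h2, map_zero, mul_zero, neg_zero]
    · intro k
      simp only [D, Matrix.single_apply]
      split_ifs
      · exact hl
      · exact F.Λ.zero_mem
  refine ⟨zE V₀ D, hE ⟨D, hD, rfl⟩, ?_⟩
  rw [zE_apply]
  refine Prod.ext ?_ rfl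
  ext k
  simp only [Pi.add_apply, Matrix.mulVec_single_one, Matrix.col_apply, D, Matrix.single_apply]
  by_cases hk : k = i
  · subst hk
    simp
  · have : ¬ (i = k) := fun h => hk h.symm
    simp [hk, this]

end WT1M

theorem specWT1 (hL : SpecLMD) : SpecWT1 := by
  intro K _ F V₀ _ _ S₀ m hm hNd z z' hz hz' hq
  let i : Fin m := ⟨0, by omega⟩
  obtain ⟨b, r⟩ := WT1M.nf (S₀ := S₀) hL hm hNd i z hz
  obtain ⟨b', r'⟩ := WT1M.nf (S₀ := S₀) hL hm hNd i z' hz'
  have h1 := r.q
  have h2 := r'.q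
  rw [WT1M.q_nf] at h1 h2
  have h3 : b - b' ∈ F.Λ := by
    have := F.Λ.sub_mem (F.Λ.add_mem h1 hq) h2
    convert this using 1
    ring
  exact (r.trans (WT1M.nf_rel hL i b b' h3)).trans r'.symm

end Pool.Agent.Lib.MP66ef6b.CL
end

section
set_option autoImplicit false

/-!
# MP_66ef6b_al, THEOREM L2: module WT2 (helper68), transitivity on pairs
-/

namespace Pool.Agent.Lib.MP66ef6b.CL

open Matrix
open PL (SLn)

namespace WT2M

variable {K : Type} [Field K] {F : FD K} {V₀ : Type} [AddCommGroup V₀] [Module K V₀]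
variable {S₀ : Sq F V₀} {m : ℕ}

theorem sum_single_mul (a : Fin m → K) (i : Fin m) :
    (a ⬝ᵥ fun j => F.σ ((Pi.single i 1 : Fin m → K) j)) = a i := by
  rw [dotProduct, Finset.sum_eq_single i]
  · simp
  · intro j _ hj
    simp [Pi.single_eq_of_ne hj]
  · intro h
    exact absurd (Finset.mem_univ _) h

theorem B_e (z : SV K V₀ m) (i : Fin m) : (S₀.std m).B z (eV K V₀ i) = F.ε * z.2.1 i := by
  rw [std_B]
  simp only [eV, sum_single_mul, S₀.B_zero_right, add_zero]
  simp [dotProduct]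

theorem B_f (z : SV K V₀ m) (i : Fin m) : (S₀.std m).B z (fV K V₀ i) = z.1 i := by
  rw [std_B]
  simp only [fV, sum_single_mul, S₀.B_zero_right, add_zero]
  simp [dotProduct]

theorem B_v (z : SV K V₀ m) (w : V₀) :
    (S₀.std m).B z ((0, 0, w) : SV K V₀ m) = S₀.B z.2.2 w := by
  rw [std_B]
  simp [dotProduct]

/-- the standard space is non-degenerate -/
theorem nd (hNd : S₀.Nd) : (S₀.std m).Nd := by
  intro v hv
  refine Prod.ext ?_ (Prod.ext ?_ ?_)
  · ext i
    rw [← B_f (S₀ := S₀) v i, hv]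
    rfl
  · ext i
    have h := hv (eV K V₀ i)
    rw [B_e] at h
    exact (mul_eq_zero.1 h).resolve_left F.e0
  · refine hNd _ (fun w => ?_)
    rw [← B_v (S₀ := S₀) v w, hv]

theorem B_jW (x y : SV K V₀ m) : (S₀.std (m + 1)).B (jW x) (jW y) = (S₀.std m).B x y := by
  rw [std_B, std_B]
  simp [jW, dotProduct, Fin.sum_univ_succ]

theorem q_jW (b : K) (x : SV K V₀ m) :
    (S₀.std (m + 1)).q (b • eV K V₀ 0 + jW x) = (S₀.std m).q x := by
  rw [std_q, std_q]
  simp [jW, eV, dotProduct, Fin.sum_univ_succ]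

/-- decomposition of the vectors orthogonal to `e_0` -/
theorem dec (z : SV K V₀ (m + 1)) (hz : z.2.1 0 = 0) :
    ∃ u : SV K V₀ m, z = z.1 0 • eV K V₀ 0 + jW u := by
  refine ⟨(fun i => z.1 i.succ, fun i => z.2.1 i.succ, z.2.2), ?_⟩
  refine Prod.ext ?_ (Prod.ext ?_ ?_)
  · ext i
    refine Fin.cases ?_ (fun i => ?_) i
    · simp [eV, jW]
    · simp [eV, jW]
  · ext i
    refine Fin.cases ?_ (fun i => ?_) i
    · simp [eV, jW, hz]
    · simp [eV, jW]
  · simp [eV, jW]

theorem jW_zero : jW (0 : SV K V₀ m) = 0 := by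
  refine Prod.ext ?_ (Prod.ext ?_ rfl)
  · ext i
    refine Fin.cases rfl (fun i => rfl) i
  · ext i
    refine Fin.cases rfl (fun i => rfl) i

theorem Sg_e (i : Fin m) : (S₀.std m).Sg (eV K V₀ i) := by
  have : (S₀.std m).q (eV K V₀ i) = 0 := by
    rw [std_q]
    simp [eV, S₀.q_zero, dotProduct]
  rw [Sq.Sg, this]
  exact F.Λ.zero_mem

theorem e_ne (i : Fin m) : eV K V₀ i ≠ 0 := by
  intro h
  have h1 := congrFun (congrArg Prod.fst h) i
  simp [eV] at h1

/-- the last step -/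
theorem last (hNd : S₀.Nd) (u : SV K V₀ m) (hu : u ≠ 0) (b b' : K) :
    ∃ g ∈ (S₀.std (m + 1)).D ⊤, g (eV K V₀ 0) = eV K V₀ 0 ∧
      g (b • eV K V₀ 0 + jW u) = b' • eV K V₀ 0 + jW u := by
  obtain ⟨w1, hw1⟩ : ∃ w, (S₀.std m).B u w ≠ 0 := by
    by_contra hc
    push Not at hc
    exact hu (nd hNd _ hc)
  let s : K := F.σ (F.ε * (b - b') * ((S₀.std m).B u w1)⁻¹)
  have hs : (S₀.std m).B u (s • w1) = F.ε * (b - b') := by
    rw [Sq.B_smul_right, F.inv, mul_assoc, inv_mul_cancel₀ hw1, mul_one]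
  let w : SV K V₀ (m + 1) := jW (s • w1)
  have hBe : (S₀.std (m + 1)).B (eV K V₀ 0) w = 0 := by
    rw [std_B]
    simp [w, eV, jW, dotProduct, Fin.sum_univ_succ, S₀.B_zero_left]
  have hadm : (S₀.std (m + 1)).Adm (eV K V₀ 0) w ((S₀.std (m + 1)).q w) :=
    ⟨Sg_e 0, hBe, by rw [sub_self]; exact F.Λ.zero_mem⟩
  have hee : (S₀.std (m + 1)).B (eV K V₀ 0) (eV K V₀ 0) = 0 := by
    rw [B_e]
    simp [eV]
  have hje : (S₀.std (m + 1)).B (jW u) (eV K V₀ 0) = 0 := by
    rw [B_e]
    simp [jW]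
  refine ⟨_, Sq.T_mem_G hadm, ?_, ?_⟩
  · rw [Sq.T_apply hadm, hee, hBe]
    simp
  · rw [Sq.T_apply hadm]
    simp only [Sq.B_add_left, Sq.B_smul_left, hee, hje, hBe, mul_zero, add_zero, zero_smul,
      zero_add]
    have h1 : (S₀.std (m + 1)).B (jW u) w = F.ε * (b - b') := by
      rw [← hs]
      exact B_jW u (s • w1)
    rw [h1, ← mul_assoc, F.ee, one_mul]
    module

theorem inv_apply {V : Type} [AddCommGroup V] [Module K V] (g : V ≃ₗ[K] V) (x : V) :
    g⁻¹ (g x) = x := by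
  rw [← LinearEquiv.mul_apply, inv_mul_cancel, LinearEquiv.coe_one, id_eq]

/-- the case `y = y' = e_0` -/
theorem core (hW : SpecWT1) (hE : SpecEMB) (hm : 2 ≤ m) (hNd : S₀.Nd) (z z' : SV K V₀ (m + 1))
    (hz : (S₀.std (m + 1)).B (eV K V₀ 0) z = 0) (hz' : (S₀.std (m + 1)).B (eV K V₀ 0) z' = 0)
    (hi : LinearIndependent K ![eV K V₀ 0, z]) (hi' : LinearIndependent K ![eV K V₀ 0, z'])
    (hq : (S₀.std (m + 1)).q z - (S₀.std (m + 1)).q z' ∈ F.Λ) :
    ∃ g ∈ (S₀.std (m + 1)).D ⊤, g (eV K V₀ 0) = eV K V₀ 0 ∧ g z = z' := by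
  have h0 : ∀ z : SV K V₀ (m + 1), (S₀.std (m + 1)).B (eV K V₀ 0) z = 0 → z.2.1 0 = 0 := by
    intro z hz
    have h1 := (S₀.std (m + 1)).B_eq_zero_swap hz
    rw [B_e] at h1
    exact (mul_eq_zero.1 h1).resolve_left F.e0
  have hne : ∀ (z : SV K V₀ (m + 1)) (u : SV K V₀ m), LinearIndependent K ![eV K V₀ 0, z] →
      z = z.1 0 • eV K V₀ 0 + jW u → u ≠ 0 := by
    rintro z u hi h rfl
    rw [jW_zero, add_zero] at h
    have h2 := (LinearIndependent.pair_iff.1 hi (z.1 0) (-1) (by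
      nth_rewrite 2 [h]
      module)).2
    simp at h2
  obtain ⟨u, hu⟩ := dec z (h0 z hz)
  obtain ⟨u', hu'⟩ := dec z' (h0 z' hz')
  have hu0 := hne z u hi hu
  have hu0' := hne z' u' hi' hu'
  rw [hu, hu', q_jW, q_jW] at hq
  obtain ⟨h, hh, hhu⟩ := hW K F V₀ S₀ m hm hNd u u' hu0 hu0' hq
  obtain ⟨h', hh', hj, he, -⟩ := hE K F V₀ S₀ m h hh
  obtain ⟨t, ht, hte, htz⟩ := last (S₀ := S₀) hNd u' hu0' (z.1 0) (z'.1 0)
  refine ⟨t * h', mul_mem ht (Sq.D_mono le_top hh'), ?_, ?_⟩
  · rw [LinearEquiv.mul_apply, he, hte]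
  · rw [LinearEquiv.mul_apply, hu, map_add, map_smul, he, hj, hhu]
    rw [htz, ← hu']

theorem pair_map {V : Type} [AddCommGroup V] [Module K V] (g : V ≃ₗ[K] V) {y z : V}
    (h : LinearIndependent K ![y, z]) : LinearIndependent K ![g y, g z] := by
  rw [LinearIndependent.pair_iff] at h ⊢
  intro s t hst
  apply h s t
  apply g.injective
  rw [map_add, map_smul, map_smul, hst, map_zero]

end WT2M

theorem specWT2 (hW : SpecWT1) (hE : SpecEMB) : SpecWT2 := by
  intro K _ F V₀ _ _ S₀ m hm hNd y z y' z' hy hy' hyz hyz' hi hi' hq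
  obtain ⟨m, rfl⟩ : ∃ m0, m = m0 + 1 := ⟨m - 1, by omega⟩
  have key : ∀ y z : SV K V₀ (m + 1), (S₀.std (m + 1)).Sg y → (S₀.std (m + 1)).B y z = 0 →
      LinearIndependent K ![y, z] → ∃ g ∈ (S₀.std (m + 1)).D ⊤, g y = eV K V₀ 0 ∧
      (S₀.std (m + 1)).B (eV K V₀ 0) (g z) = 0 ∧ LinearIndependent K ![eV K V₀ 0, g z] ∧
      (S₀.std (m + 1)).q (g z) - (S₀.std (m + 1)).q z ∈ F.Λ := by
    intro y z hy hyz hi
    have hy0 : y ≠ 0 := hi.ne_zero 0
    obtain ⟨g, hg, hgy⟩ := hW K F V₀ S₀ (m + 1) (by omega) hNd y (eV K V₀ 0) hy0 (WT2M.e_ne 0)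
      (F.Λ.sub_mem hy (WT2M.Sg_e 0))
    refine ⟨g, hg, hgy, ?_, ?_, (Sq.D_le_Iso ⊤ hg).2 z⟩
    · rw [← hgy, (Sq.D_le_Iso ⊤ hg).1, hyz]
    · rw [← hgy]
      exact WT2M.pair_map g hi
  obtain ⟨g, hg, h1, h2, h3, h4⟩ := key y z hy hyz hi
  obtain ⟨g', hg', h1', h2', h3', h4'⟩ := key y' z' hy' hyz' hi'
  have hq' : (S₀.std (m + 1)).q (g z) - (S₀.std (m + 1)).q (g' z') ∈ F.Λ := by
    have := F.Λ.sub_mem (F.Λ.add_mem h4 hq) h4'
    convert this using 1
    ring
  obtain ⟨t, ht, ht1, ht2⟩ := WT2M.core (S₀ := S₀) hW hE (by omega) hNd (g z) (g' z') h2 h2' h3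
    h3' hq'
  refine ⟨g'⁻¹ * (t * g), mul_mem (inv_mem hg') (mul_mem ht hg), ?_, ?_⟩
  · rw [LinearEquiv.mul_apply, LinearEquiv.mul_apply, h1, ht1, ← h1', WT2M.inv_apply]
  · rw [LinearEquiv.mul_apply, LinearEquiv.mul_apply, ht2, WT2M.inv_apply]

end Pool.Agent.Lib.MP66ef6b.CL
end

section
set_option autoImplicit false

/-!
# MP_66ef6b_al, THEOREM L2: WT3, transitivity on hyperbolic pairs
-/

namespace Pool.Agent.Lib.MP66ef6b.CL

namespace WT3M

variable {K : Type} [Field K] {F : FD K} {V₀ : Type} [AddCommGroup V₀] [Module K V₀]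
  {S₀ : Sq F V₀} {m : ℕ}

theorem B_e0 (v : SV K V₀ (m + 1)) : (S₀.std (m + 1)).B (eV K V₀ 0) v = F.σ (v.2.1 0) := by
  rw [std_B]
  simp only [eV, single_dotProduct, one_mul, zero_dotProduct, mul_zero, add_zero, S₀.B_zero_left]

theorem B_f0 (v : SV K V₀ (m + 1)) : (S₀.std (m + 1)).B (fV K V₀ 0) v = F.ε * F.σ (v.1 0) := by
  rw [std_B]
  simp only [fV, single_dotProduct, one_mul, zero_dotProduct, zero_add, add_zero, S₀.B_zero_left]

theorem q_e0 : (S₀.std (m + 1)).q (eV K V₀ 0) = 0 := by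
  rw [std_q]
  simp [eV, S₀.q_zero]

theorem q_f0 : (S₀.std (m + 1)).q (fV K V₀ 0) = 0 := by
  rw [std_q]
  simp [fV, S₀.q_zero]

theorem sg_e0 : (S₀.std (m + 1)).Sg (eV K V₀ 0) := by
  rw [Sq.Sg, q_e0]
  exact F.Λ.zero_mem

theorem e0_ne : (eV K V₀ (0 : Fin (m + 1))) ≠ 0 := by
  intro h
  have := congrFun (congrArg Prod.fst h) 0
  simp [eV] at this

/-- the Siegel transformation which maps `f_0` to `y`. -/
theorem key (y : SV K V₀ (m + 1)) (hy : (S₀.std (m + 1)).Sg y)
    (h1 : (S₀.std (m + 1)).B (eV K V₀ 0) y = 1) :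
    ∃ T ∈ (S₀.std (m + 1)).D ⊤, T (eV K V₀ 0) = eV K V₀ 0 ∧ T (fV K V₀ 0) = y := by
  set S := S₀.std (m + 1) with hS
  set e : SV K V₀ (m + 1) := eV K V₀ 0 with he
  set f : SV K V₀ (m + 1) := fV K V₀ 0 with hf
  have hb' : y.2.1 0 = 1 := by
    rw [hS, he, B_e0] at h1
    have := congrArg F.σ h1
    rwa [F.inv, map_one] at this
  set b : K := y.1 0 with hb
  set w' : SV K V₀ (m + 1) := y - f - b • e with hw'
  have hw1 : w'.1 0 = 0 := by
    simp [hw', hf, he, fV, eV, hb]
  have hw2 : w'.2.1 0 = 0 := by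
    simp [hw', hf, he, fV, eV, hb']
  have hew : S.B e w' = 0 := by
    rw [hS, he, B_e0, hw2, map_zero]
  have hfw : S.B f w' = 0 := by
    rw [hS, hf, B_f0, hw1, map_zero, mul_zero]
  have hfe : S.B f e = F.ε := by
    rw [hS, hf, B_f0, he]
    simp [eV]
  have hef : S.B e f = 1 := by
    rw [hS, he, B_e0, hf]
    simp [fV]
  have hyw : y = (f + b • e) + w' := by
    rw [hw']
    abel
  have hqw : -b - S.q w' ∈ F.Λ := by
    have h2 := S.q_add (f + b • e) w'
    have h3 := S.q_add f (b • e)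
    have h4 : S.q (f + b • e) = b + 0 * 0 := by
      rw [hS, std_q, hf, he]
      simp [eV, fV, S₀.q_zero]
    have h5 : S.B (f + b • e) w' = 0 := by
      rw [S.B_add_left, S.B_smul_left, hfw, hew, mul_zero, add_zero]
    rw [← hyw, h4, h5] at h2
    have h6 := F.Λ.sub_mem h2 hy
    convert h6 using 1
    ring
  have hadm : S.Adm e (F.ε • w') (-b) := by
    refine ⟨sg_e0, ?_, ?_⟩
    · rw [S.B_smul_right, hew, mul_zero]
    · rw [S.q_smul, F.se, F.ee, one_mul]
      exact hqw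
  refine ⟨S.T e (F.ε • w') (-b), Sq.T_mem_G hadm, ?_, ?_⟩
  · rw [Sq.T_apply hadm, (sg_e0 (S₀ := S₀) (m := m)).self, S.B_smul_right, hew]
    simp
  · rw [Sq.T_apply hadm, hfe, S.B_smul_right, hfw, smul_smul, F.ee, hyw]
    have h7 : F.ε * (F.σ F.ε * 0 + -b * F.ε) = -b := by
      linear_combination (-b) * F.ee
    rw [h7]
    module

end WT3M

open WT3M in
theorem specWT3 (hWT1 : SpecWT1) : SpecWT3 := by
  intro K _ F V₀ _ _ S₀ m hm hNd x y hx hy hxy
  have hx0 : x ≠ 0 := by
    rintro rfl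
    rw [Sq.B_zero_left] at hxy
    exact zero_ne_one hxy
  obtain ⟨g, hg, hgx⟩ := hWT1 K F V₀ S₀ (m + 1) hm hNd x (eV K V₀ 0) hx0 e0_ne (by
    rw [q_e0, sub_zero]
    exact hx)
  have hiso := Sq.D_le_Iso ⊤ hg
  have hy1 : (S₀.std (m + 1)).Sg (g y) := by
    have := F.Λ.add_mem (hiso.2 y) hy
    rwa [sub_add_cancel] at this
  obtain ⟨T, hT, hTe, hTf⟩ := key (g y) hy1 (by rw [← hgx, hiso.1, hxy])
  refine ⟨T⁻¹ * g, mul_mem (inv_mem hT) hg, ?_, ?_⟩
  · rw [LinearEquiv.mul_apply, hgx]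
    conv_lhs => rw [← hTe]
    rw [← LinearEquiv.mul_apply, inv_mul_cancel, LinearEquiv.coe_one, id_eq]
  · rw [LinearEquiv.mul_apply, ← hTf, ← LinearEquiv.mul_apply, inv_mul_cancel,
      LinearEquiv.coe_one, id_eq]

end Pool.Agent.Lib.MP66ef6b.CL
end

section
set_option autoImplicit false

/-!
# MP_66ef6b_al, THEOREM L2, module WTN: transitivity on bases of totally singular subspaces
-/

namespace Pool.Agent.Lib.MP66ef6b.CL

open Matrix

namespace WTNM

variable {K : Type} [Field K] {F : FD K} {V₀ : Type} [AddCommGroup V₀] [Module K V₀]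
  (S₀ : Sq F V₀)

theorem B_e0 {m : ℕ} (v : SV K V₀ (m + 1)) :
    (S₀.std (m + 1)).B (eV K V₀ 0) v = F.σ (v.2.1 0) := by
  rw [std_B]
  simp only [eV, single_dotProduct, one_mul, zero_dotProduct, mul_zero, add_zero,
    Sq.B_zero_left]

theorem B_eS {m : ℕ} (i : Fin m) (v : SV K V₀ m) :
    (S₀.std m).B (eV K V₀ i) v = F.σ (v.2.1 i) := by
  rw [std_B]
  simp only [eV, single_dotProduct, one_mul, zero_dotProduct, mul_zero, add_zero,
    Sq.B_zero_left]

theorem q_e {m : ℕ} (i : Fin m) : (S₀.std m).q (eV K V₀ i) = 0 := by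
  rw [std_q]
  simp [eV, Sq.q_zero]

theorem B_jW {m : ℕ} (x y : SV K V₀ m) :
    (S₀.std (m + 1)).B (jW x) (jW y) = (S₀.std m).B x y := by
  rw [std_B, std_B]
  simp only [jW, dotProduct, Fin.sum_univ_succ, Fin.cons_zero, Fin.cons_succ, zero_mul, zero_add]

theorem q_jW {m : ℕ} (x : SV K V₀ m) : (S₀.std (m + 1)).q (jW x) = (S₀.std m).q x := by
  rw [std_q, std_q]
  simp only [jW, dotProduct, Fin.sum_univ_succ, Fin.cons_zero, Fin.cons_succ, zero_mul, zero_add]

/-- the projection to the smaller space -/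
def pj {m : ℕ} (v : SV K V₀ (m + 1)) : SV K V₀ m := (Fin.tail v.1, Fin.tail v.2.1, v.2.2)

theorem jW_pj {m : ℕ} (v : SV K V₀ (m + 1)) (h : v.2.1 0 = 0) :
    jW (pj v) = v - v.1 0 • eV K V₀ 0 := by
  refine Prod.ext ?_ (Prod.ext ?_ ?_)
  · funext i
    refine Fin.cases ?_ (fun j => ?_) i
    · simp [jW, eV]
    · simp [jW, pj, eV, Fin.tail]
  · funext i
    refine Fin.cases ?_ (fun j => ?_) i
    · simp [jW, eV, h]
    · simp [jW, pj, eV, Fin.tail]
  · simp [jW, pj, eV]

theorem jW_eV {m : ℕ} (i : Fin m) : jW (eV K V₀ i) = eV K V₀ i.succ := by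
  refine Prod.ext ?_ (Prod.ext ?_ ?_)
  · funext k
    refine Fin.cases ?_ (fun j => ?_) k
    · simp [jW, eV, Pi.single_apply]
    · simp [jW, eV, Pi.single_apply]
  · funext k
    refine Fin.cases ?_ (fun j => ?_) k
    · simp [jW, eV]
    · simp [jW, eV]
  · simp [jW, eV]

theorem jW_sum_smul {m : ℕ} {r : ℕ} (a : Fin r → K) (x : Fin r → SV K V₀ m) :
    jW (∑ i, a i • x i) = ∑ i, a i • jW (x i) := by
  let J : SV K V₀ m →ₗ[K] SV K V₀ (m + 1) :=
    { toFun := jW
      map_add' := by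
        intro u v
        refine Prod.ext ?_ (Prod.ext ?_ ?_)
        · funext k
          refine Fin.cases ?_ (fun j => ?_) k
          · simp [jW]
          · simp [jW]
        · funext k
          refine Fin.cases ?_ (fun j => ?_) k
          · simp [jW]
          · simp [jW]
        · simp [jW]
      map_smul' := by
        intro c v
        refine Prod.ext ?_ (Prod.ext ?_ ?_)
        · funext k
          refine Fin.cases ?_ (fun j => ?_) k
          · simp [jW]
          · simp [jW]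
        · funext k
          refine Fin.cases ?_ (fun j => ?_) k
          · simp [jW]
          · simp [jW]
        · simp [jW] }
  have h := map_sum J (fun i => a i • x i) Finset.univ
  simp only [map_smul] at h
  exact h

end WTNM

open WTNM

theorem specWTN (hWT1 : SpecWT1) (hEMB : SpecEMB) (hLMD : SpecLMD) : SpecWTN := by
  intro K _ F V₀ _ _ S₀ m r
  induction r generalizing m with
  | zero =>
    intro hr _ u _ _ _
    exact ⟨1, Subgroup.one_mem _, fun i => i.elim0⟩
  | succ r ih =>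
    intro hr hnd u hsg horth hli
    obtain ⟨m', rfl⟩ : ∃ m', m = m' + 1 := ⟨m - 1, by omega⟩
    set S := S₀.std (m' + 1) with hS
    -- step 1
    have hu0 : u 0 ≠ 0 := hli.ne_zero 0
    have he0 : (eV K V₀ (0 : Fin (m' + 1))) ≠ 0 := by
      intro h
      have := congrFun (congrArg Prod.fst h) 0
      simp [eV] at this
    obtain ⟨g1, hg1, hg1u⟩ := hWT1 K F V₀ S₀ (m' + 1) (by omega) hnd (u 0) (eV K V₀ 0) hu0 he0
      (by rw [q_e, sub_zero]; exact hsg 0)
    have hg1I := Sq.D_le_Iso _ hg1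
    let y : Fin r → SV K V₀ (m' + 1) := fun i => g1 (u i.succ)
    have hysg : ∀ i, S.Sg (y i) := by
      intro i
      have h1 := F.Λ.add_mem (hg1I.2 (u i.succ)) (hsg i.succ)
      rwa [sub_add_cancel] at h1
    have hy0 : ∀ i, S.B (eV K V₀ 0) (y i) = 0 := by
      intro i
      rw [← hg1u]
      change S.B (g1 (u 0)) (g1 (u i.succ)) = 0
      rw [hg1I.1]
      exact horth 0 i.succ
    have hyy : ∀ i j, S.B (y i) (y j) = 0 := by
      intro i j
      change S.B (g1 (u i.succ)) (g1 (u j.succ)) = 0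
      rw [hg1I.1]
      exact horth _ _
    have hyc : ∀ i, (y i).2.1 0 = 0 := by
      intro i
      have h1 := hy0 i
      rw [hS, B_e0] at h1
      exact (map_eq_zero F.σ).1 h1
    have hyB0 : ∀ i, S.B (y i) (eV K V₀ 0) = 0 := fun i => S.B_eq_zero_swap (hy0 i)
    have he00 : S.B (eV K V₀ 0) (eV K V₀ 0) = 0 := by
      rw [hS, B_e0]
      simp [eV]
    let c : Fin r → K := fun i => (y i).1 0
    let x : Fin r → SV K V₀ m' := fun i => pj (y i)
    have hjx : ∀ i, jW (x i) = y i - c i • eV K V₀ 0 := fun i => jW_pj (y i) (hyc i)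
    have hxsg : ∀ i, (S₀.std m').Sg (x i) := by
      intro i
      rw [Sq.Sg, ← q_jW, hjx]
      have h1 : S.Sg (-(c i • eV K V₀ (0 : Fin (m' + 1)))) := by
        have h2 : S.Sg (eV K V₀ (0 : Fin (m' + 1))) := by
          rw [Sq.Sg, hS, q_e]
          exact F.Λ.zero_mem
        exact (h2.smul (c i)).neg
      have h3 := (hysg i).add h1 (by rw [S.B_neg_right, S.B_smul_right, hyB0, mul_zero, neg_zero])
      rw [← sub_eq_add_neg] at h3
      exact h3
    have hxx : ∀ i j, (S₀.std m').B (x i) (x j) = 0 := by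
      intro i j
      rw [← B_jW, hjx, hjx, ← hS]
      simp only [S.B_sub_left, S.B_sub_right, S.B_smul_left, S.B_smul_right, hyy, hyB0, hy0, he00,
        mul_zero, sub_zero]
    have hliy : LinearIndependent K (fun i : Fin (r + 1) => g1 (u i)) :=
      hli.map' g1.toLinearMap (LinearEquiv.ker g1)
    have hlix : LinearIndependent K x := by
      rw [Fintype.linearIndependent_iff] at hliy ⊢
      intro a ha i
      have h1 : ∑ i, a i • jW (x i) = 0 := by
        rw [← jW_sum_smul, ha]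
        refine Prod.ext ?_ (Prod.ext ?_ ?_)
        · funext k
          refine Fin.cases ?_ (fun j => ?_) k
          · simp [jW]
          · simp [jW]
        · funext k
          refine Fin.cases ?_ (fun j => ?_) k
          · simp [jW]
          · simp [jW]
        · simp [jW]
      have h2 := hliy (Fin.cons (-∑ i, a i * c i) a) (by
        rw [Fin.sum_univ_succ]
        simp only [Fin.cons_zero, Fin.cons_succ]
        rw [hg1u]
        simp only [hjx, smul_sub, Finset.sum_sub_distrib, smul_smul] at h1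
        rw [neg_smul, Finset.sum_smul]
        rw [sub_eq_zero] at h1
        change -(∑ i, (a i * c i) • eV K V₀ (0 : Fin (m' + 1))) + ∑ i, a i • y i = 0
        rw [h1, neg_add_cancel])
      have h3 := h2 i.succ
      simpa using h3
    obtain ⟨h, hhD, hh⟩ := ih m' (by omega) hnd x hxsg hxx hlix
    obtain ⟨g', hg'D, hg', hg'e, -⟩ := hEMB K F V₀ S₀ m' h hhD
    have hg'D' := Sq.D_mono (S := S) le_top hg'D
    -- step 3
    let d : Fin (m' + 1) → K := Fin.cons 0 (fun i : Fin m' =>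
      if hi : i.val < r then F.σ (F.ε * c ⟨i.val, hi⟩) else 0)
    have hadm : S.Adm (eV K V₀ 0) (0, d, 0) 0 := by
      refine ⟨?_, ?_, ?_⟩
      · rw [Sq.Sg, hS, q_e]
        exact F.Λ.zero_mem
      · rw [hS, B_e0]
        simp [d]
      · rw [hS, std_q]
        simp [Sq.q_zero]
    refine ⟨S.T (eV K V₀ 0) (0, d, 0) 0 * g' * g1,
      Subgroup.mul_mem _ (Subgroup.mul_mem _ (Sq.T_mem_G hadm) hg'D') hg1, ?_⟩
    intro i
    rw [LinearEquiv.mul_apply, LinearEquiv.mul_apply]
    refine Fin.cases ?_ (fun j => ?_) i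
    · rw [hg1u, hg'e, Sq.T_apply hadm, he00]
      have h1 : S.B (eV K V₀ 0) ((0, d, 0) : SV K V₀ (m' + 1)) = 0 := hadm.orth
      rw [h1]
      simp only [zero_smul, add_zero, mul_zero, sub_zero]
      congr 1
    · have h1 : g1 (u j.succ) = jW (x j) + c j • eV K V₀ 0 := by
        rw [hjx]
        simp [y]
      have h2 : g' (g1 (u j.succ)) =
          eV K V₀ (Fin.castLE (by omega : r ≤ m') j).succ + c j • eV K V₀ 0 := by
        rw [h1, map_add, map_smul, hg', hg'e, hh, jW_eV]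
      rw [h2, Sq.T_apply hadm]
      have h3 : S.B (eV K V₀ (Fin.castLE (by omega : r ≤ m') j).succ + c j • eV K V₀ 0)
          (eV K V₀ 0) = 0 := by
        rw [S.B_add_left, S.B_smul_left, he00, mul_zero, add_zero, hS, B_eS]
        simp [eV]
      have h4 : S.B (eV K V₀ (Fin.castLE (by omega : r ≤ m') j).succ + c j • eV K V₀ 0)
          ((0, d, 0) : SV K V₀ (m' + 1)) = F.ε * c j := by
        rw [S.B_add_left, S.B_smul_left, hadm.orth, mul_zero, add_zero, hS, B_eS]
        simp only [d, Fin.cons_succ, Fin.val_castLE, j.isLt, dif_pos, F.inv]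
      rw [h3, h4]
      have h5 : Fin.castLE (by omega : r + 1 ≤ m' + 1) j.succ =
          (Fin.castLE (by omega : r ≤ m') j).succ := rfl
      rw [h5]
      simp only [zero_smul, add_zero, mul_zero]
      rw [← mul_assoc, F.ee, one_mul]
      abel

end Pool.Agent.Lib.MP66ef6b.CL
end

section
set_option autoImplicit false

/-! # Module ZEL. -/

namespace Pool.Agent.Lib.MP66ef6b.CL

namespace ZELM

open Matrix

variable {K : Type} [Field K] {F : FD K} {m : ℕ}

/-- the effect of the transvections on `X` is in `H`. -/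
def PX (F : FD K) (H : AddSubgroup (Matrix (Fin m) (Fin m) K)) (X : Matrix (Fin m) (Fin m) K) :
    Prop :=
  ∀ (i j : Fin m) (c : K), i ≠ j →
    Matrix.single i j c * X + X * Matrix.single j i (F.σ c) +
      Matrix.single i i (c * X j j * F.σ c) ∈ H

theorem tr_eq {i j : Fin m} (hij : i ≠ j) (c : K) (X : Matrix (Fin m) (Fin m) K) :
    (SpecialLinearGroup.transvection hij c : PL.SLn m K).1 * X *
      ((SpecialLinearGroup.transvection hij c : PL.SLn m K).1.map F.σ).transpose =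
    X + (Matrix.single i j c * X + X * Matrix.single j i (F.σ c) +
      Matrix.single i i (c * X j j * F.σ c)) := by
  have h3 : ((SpecialLinearGroup.transvection hij c : PL.SLn m K).1.map F.σ)ᵀ =
        1 + Matrix.single j i (F.σ c) := by
    rw [SpecialLinearGroup.transvection_coe]
    ext a b
    simp only [transpose_apply, map_apply, Matrix.add_apply, map_add, one_apply, single_apply]
    by_cases hab : a = b
    · subst hab
      by_cases hj : j = a
      · subst hj
        by_cases hi : i = j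
        · simp [hi]
        · simp [hi]
      · simp [hj]
    · have hba : b ≠ a := fun h => hab h.symm
      by_cases hj : j = a
      · by_cases hi : i = b
        · simp [hi, hj, hab, hba]
        · simp [hi, hj, hab, hba]
      · simp [hj, hab, hba]
  rw [h3, SpecialLinearGroup.transvection_coe, ← Matrix.single_mul_mul_single]
  simp only [add_mul, mul_add, one_mul, mul_one]
  abel

theorem PX_mem {H : AddSubgroup (Matrix (Fin m) (Fin m) K)}
    (hH : ∀ X ∈ H, ∀ g : PL.SLn m K, g.1 * X * (g.1.map F.σ).transpose ∈ H)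
    {X : Matrix (Fin m) (Fin m) K} (hX : X ∈ H) : PX F H X := by
  intro i j c hij
  have h1 := hH X hX (SpecialLinearGroup.transvection hij c)
  rw [tr_eq hij c X] at h1
  exact (AddSubgroup.add_mem_cancel_left H hX).1 h1

theorem PX_D {H : AddSubgroup (Matrix (Fin m) (Fin m) K)} {D : Matrix (Fin m) (Fin m) K}
    (hH : ∀ g : PL.SLn m K, g.1 * D * (g.1.map F.σ).transpose - D ∈ H) : PX F H D := by
  intro i j c hij
  have h1 := hH (SpecialLinearGroup.transvection hij c)
  rw [tr_eq hij c D, add_sub_cancel_left] at h1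
  exact h1

/-- the elementary skew matrix. -/
def elm (F : FD K) (i j : Fin m) (y : K) : Matrix (Fin m) (Fin m) K :=
  Matrix.single i j y - Matrix.single j i (F.ε * F.σ y)

theorem elm_swap (i j : Fin m) (y : K) : elm F j i (-(F.ε * F.σ y)) = elm F i j y := by
  have h2 : F.ε * F.ε = 1 := F.ee
  have h3 : F.ε * F.σ (-(F.ε * F.σ y)) = -y := by
    rw [map_neg, map_mul, F.se, F.inv]
    linear_combination (-y) * h2
  rw [elm, elm, h3, ← Matrix.single_neg, ← Matrix.single_neg]
  abel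

variable {H : AddSubgroup (Matrix (Fin m) (Fin m) K)}

theorem step (hH : ∀ X ∈ H, PX F H X) {i j k : Fin m} (hij : i ≠ j) (hki : k ≠ i) (hkj : k ≠ j)
    {y : K} (hy : elm F i j y ∈ H) (c : K) : elm F k j (c * y) ∈ H := by
  have h1 := hH _ hy k i c hki
  have h2 : (elm F i j y) i i = 0 := by
    simp [elm, Matrix.single_apply, hij.symm]
  have h3 : Matrix.single k i c * elm F i j y = Matrix.single k j (c * y) := by
    rw [elm, mul_sub, Matrix.single_mul_single_same, Matrix.single_mul_single_of_ne _ _ _ _ hij,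
      sub_zero]
  have h4 : elm F i j y * Matrix.single i k (F.σ c) =
      -Matrix.single j k (F.ε * F.σ (c * y)) := by
    rw [elm, sub_mul, Matrix.single_mul_single_same,
      Matrix.single_mul_single_of_ne _ _ _ _ hij.symm, zero_sub, map_mul]
    congr 2
    ring
  rw [h2, h3, h4] at h1
  simp only [mul_zero, zero_mul, Matrix.single_zero, add_zero] at h1
  rw [elm, sub_eq_add_neg]
  exact h1

theorem getE (hH : ∀ X ∈ H, PX F H X) {X : Matrix (Fin m) (Fin m) K} (hX : PX F H X)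
    {a b k : Fin m} (hab : a ≠ b) (hka : k ≠ a) (hkb : k ≠ b) :
    Matrix.single a k (X b a) + Matrix.single k a (X a b) ∈ H := by
  have h1 := hX k a 1 hka
  have h2 := hH _ h1 a b 1 hab
  have e0 : (Matrix.single k a (1 : K) * X + X * Matrix.single a k (F.σ 1) +
      Matrix.single k k (1 * X a a * F.σ 1)) b b = 0 := by
    rw [Matrix.add_apply, Matrix.add_apply, Matrix.single_mul_apply_of_ne _ _ _ _ _ hkb.symm,
      Matrix.mul_single_apply_of_ne _ _ _ _ _ hkb.symm, Matrix.single_apply_of_ne, add_zero,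
      add_zero]
    rintro ⟨h, -⟩
    exact hkb h
  rw [e0] at h2
  simp only [map_one, mul_add, add_mul, mul_one, one_mul, mul_zero,
    Matrix.single_zero, add_zero, Matrix.single_mul_single_of_ne _ _ _ _ hkb.symm,
    Matrix.single_mul_single_of_ne _ _ _ _ hkb] at h2
  have e1 : Matrix.single a b (1 : K) * (Matrix.single k a 1 * X) = 0 := by
    rw [← mul_assoc, Matrix.single_mul_single_of_ne _ _ _ _ hkb.symm, zero_mul]
  have e2 : Matrix.single a b (1 : K) * (X * Matrix.single a k 1) = Matrix.single a k (X b a) := by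
    rw [← mul_assoc, Matrix.single_mul_mul_single, one_mul, mul_one]
  have e3 : Matrix.single k a (1 : K) * X * Matrix.single b a 1 = Matrix.single k a (X a b) := by
    rw [Matrix.single_mul_mul_single, one_mul, mul_one]
  have e4 : X * Matrix.single a k (1 : K) * Matrix.single b a 1 = 0 := by
    rw [mul_assoc, Matrix.single_mul_single_of_ne _ _ _ _ hkb, mul_zero]
  rw [e1, e2, e3, e4] at h2
  simpa using h2

theorem third (hm : 3 ≤ m) (a b : Fin m) : ∃ k : Fin m, k ≠ a ∧ k ≠ b := by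
  have h1 : ({a, b} : Finset (Fin m)).card < Fintype.card (Fin m) := by
    rw [Fintype.card_fin]
    exact lt_of_le_of_lt Finset.card_le_two (by omega)
  obtain ⟨k, hk⟩ : ∃ k, k ∉ ({a, b} : Finset (Fin m)) := by
    by_contra h
    push Not at h
    have : ({a, b} : Finset (Fin m)) = Finset.univ := Finset.eq_univ_iff_forall.2 h
    rw [this, Finset.card_univ] at h1
    exact lt_irrefl _ h1
  refine ⟨k, ?_, ?_⟩
  · rintro rfl
    exact hk (by simp)
  · rintro rfl
    exact hk (by simp)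

/-- one elementary matrix. -/
theorem getOne (hm : 3 ≤ m) (hH : ∀ X ∈ H, PX F H X) {D : Matrix (Fin m) (Fin m) K}
    (hD : PX F H D) (hD1 : ∀ i j, D i j = -(F.ε * F.σ (D j i))) (hD0 : D ≠ 0) :
    ∃ (i j : Fin m) (y : K), i ≠ j ∧ y ≠ 0 ∧ elm F i j y ∈ H := by
  have h0 : ∃ a b, D a b ≠ 0 := by
    by_contra h
    push Not at h
    apply hD0
    ext a b
    exact h a b
  obtain ⟨a, b, hab0⟩ := h0
  by_cases hab : a = b
  · subst hab
    obtain ⟨k, hk, -⟩ := third hm a a
    obtain ⟨r, hra, hrk⟩ := third hm a k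
    have h1 := hD k a 1 hk
    have h2 := getE hH (hH _ h1) (a := a) (b := k) (k := r) hk.symm hra hrk
    have e1 : (Matrix.single k a (1 : K) * D + D * Matrix.single a k (F.σ 1) +
      Matrix.single k k (1 * D a a * F.σ 1)) k a = D a a := by
      rw [Matrix.add_apply, Matrix.add_apply, Matrix.single_mul_apply_same,
        Matrix.mul_single_apply_of_ne _ _ _ _ _ hk.symm, Matrix.single_apply_of_ne, add_zero,
        add_zero, one_mul]
      rintro ⟨-, h⟩
      exact hk h
    have e2 : (Matrix.single k a (1 : K) * D + D * Matrix.single a k (F.σ 1) +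
      Matrix.single k k (1 * D a a * F.σ 1)) a k = D a a := by
      rw [Matrix.add_apply, Matrix.add_apply, Matrix.single_mul_apply_of_ne _ _ _ _ _ hk.symm,
        Matrix.mul_single_apply_same, Matrix.single_apply_of_ne, add_zero,
        zero_add, map_one, mul_one]
      rintro ⟨h, -⟩
      exact hk h
    rw [e1, e2] at h2
    refine ⟨r, a, D a a, hra, hab0, ?_⟩
    have h3 : elm F r a (D a a) = Matrix.single a r (D a a) + Matrix.single r a (D a a) := by
      have h4 : F.ε * F.σ (D a a) = -D a a := by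
        exact neg_eq_iff_eq_neg.1 (hD1 a a).symm
      rw [elm, h4, ← Matrix.single_neg]
      abel
    rw [h3]
    exact h2
  · obtain ⟨k, hka, hkb⟩ := third hm a b
    have h2 := getE hH hD hab hka hkb
    refine ⟨k, a, D a b, hka, hab0, ?_⟩
    have h3 : elm F k a (D a b) = Matrix.single a k (D b a) + Matrix.single k a (D a b) := by
      rw [elm, hD1 b a, ← Matrix.single_neg]
      abel
    rw [h3]
    exact h2

/-- all elementary matrices. -/
theorem allElm (hm : 3 ≤ m) (hH : ∀ X ∈ H, PX F H X)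
    (h : ∃ (i j : Fin m) (y : K), i ≠ j ∧ y ≠ 0 ∧ elm F i j y ∈ H) :
    ∀ (a b : Fin m) (z : K), a ≠ b → elm F a b z ∈ H := by
  obtain ⟨i, j, y, hij, hy, hE⟩ := h
  have sw : ∀ (a b : Fin m), (∀ z, elm F a b z ∈ H) → ∀ z, elm F b a z ∈ H := by
    intro a b hab z
    rw [← elm_swap]
    exact hab _
  have mv : ∀ (a b c : Fin m), a ≠ b → c ≠ a → c ≠ b → (∀ z, elm F a b z ∈ H) →
      ∀ z, elm F c b z ∈ H := by
    intro a b c hab hca hcb h z
    have := step hH hab hca hcb (h 1) z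
    rwa [mul_one] at this
  obtain ⟨k, hki, hkj⟩ := third hm i j
  have h1 : ∀ z, elm F k j z ∈ H := by
    intro z
    have := step hH hij hki hkj hE (z / y)
    rwa [div_mul_cancel₀ _ hy] at this
  have h2 : ∀ x, x ≠ j → ∀ z, elm F x j z ∈ H := by
    intro x hx
    by_cases hxk : x = k
    · rw [hxk]
      exact h1
    · exact mv k j x hkj hxk hx h1
  intro a b z hab
  by_cases hb : b = j
  · subst hb
    exact h2 a hab z
  · have h3 : ∀ z, elm F j b z ∈ H := sw b j (h2 b hb)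
    by_cases ha : a = j
    · subst ha
      exact h3 z
    · exact mv j b a (fun h => hb h.symm) ha hab h3 z

theorem allDiag (hm : 3 ≤ m) (hH : ∀ X ∈ H, PX F H X)
    (h : ∀ (a b : Fin m) (z : K), a ≠ b → elm F a b z ∈ H) (i : Fin m) (y : K) :
    Matrix.single i i (y - F.ε * F.σ y) ∈ H := by
  obtain ⟨k, hk, -⟩ := third hm i i
  have h1 := hH _ (h k i y hk) i k 1 hk.symm
  have h2 : (elm F k i y) k k = 0 := by
    simp [elm, Matrix.single_apply, hk.symm]
  have h3 : Matrix.single i k (1 : K) * elm F k i y = Matrix.single i i y := by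
    rw [elm, mul_sub, Matrix.single_mul_single_same, Matrix.single_mul_single_of_ne _ _ _ _ hk,
      sub_zero, one_mul]
  have h4 : elm F k i y * Matrix.single k i (F.σ 1) =
      -Matrix.single i i (F.ε * F.σ y) := by
    rw [elm, sub_mul, Matrix.single_mul_single_same,
      Matrix.single_mul_single_of_ne _ _ _ _ hk.symm, zero_sub, map_one, mul_one]
  rw [h2, h3, h4] at h1
  simp only [mul_zero, zero_mul, Matrix.single_zero, add_zero] at h1
  rwa [sub_eq_add_neg, Matrix.single_add, ← Matrix.single_neg]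

end ZELM

open ZELM in
theorem specZEL : SpecZEL := by
  intro K _ _ F m hm D hD hD0 H hH hHD
  have hP : ∀ X ∈ H, PX F H X := fun X hX => PX_mem hH hX
  have hPD : PX F H D := PX_D hHD
  have h1 := allElm hm hP (getOne hm hP hPD hD.1 hD0)
  have h2 := allDiag hm hP h1
  refine ⟨fun i j y hij => ⟨h1 i j y hij, h2 i y⟩, ?_⟩
  intro hs hL ⟨a, ha⟩ X hX
  have he : F.ε = -1 := by
    rcases F.typ with ⟨_, _, h⟩ | ⟨_, h, _⟩ | ⟨⟨b, hb⟩, _, _⟩
    · exfalso
      have : (1 : K) ∈ F.Λ := by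
        rw [hL]
        trivial
      rw [h, AddSubgroup.mem_bot] at this
      exact one_ne_zero this
    · exact h
    · exact absurd (hs b) hb
  refine DMGM.dm_gen F H (fun i j y hij => h1 i j y hij) ?_ X hX
  have key : ∀ (k : Fin m) (l : K), k ≠ a → Matrix.single k k l ∈ H := by
    intro k l hk
    by_cases h20 : (2 : K) = 0
    · have hch : CharP K 2 := CharTwo.of_one_ne_zero_of_two_eq_zero one_ne_zero h20
      obtain ⟨c, hc⟩ : IsSquare (l / D a a) :=
        FiniteField.isSquare_of_char_two (ringChar.eq K 2) _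
      have h3 := hPD k a c hk
      have h4 : c * D a a * F.σ c = l := by
        rw [hs]
        have : l = (l / D a a) * D a a := (div_mul_cancel₀ _ ha).symm
        rw [this, hc]
        ring
      rw [h4, hs] at h3
      have h5 : Matrix.single k a c * D + D * Matrix.single a k c ∈ H := by
        apply DMGM.dm_gen' F H (fun i j y hij => h1 i j y hij)
        · intro i j
          rw [he, hs, neg_one_mul, neg_neg]
          have hsy : ∀ x y, D x y = D y x := by
            intro x y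
            have := hD.1 x y
            rwa [he, hs, neg_one_mul, neg_neg] at this
          have e1 : ∀ x y, (Matrix.single k a c * D) x y = if x = k then c * D a y else 0 := by
            intro x y
            split_ifs with h
            · rw [h, Matrix.single_mul_apply_same]
            · rw [Matrix.single_mul_apply_of_ne _ _ _ _ _ h]
          have e2 : ∀ x y, (D * Matrix.single a k c) x y = if y = k then D x a * c else 0 := by
            intro x y
            split_ifs with h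
            · rw [h, Matrix.mul_single_apply_same]
            · rw [Matrix.mul_single_apply_of_ne _ _ _ _ _ h]
          rw [Matrix.add_apply, Matrix.add_apply, e1, e1, e2, e2, hsy a j, hsy a i,
            mul_comm c (D j a), mul_comm c (D i a)]
          exact add_comm _ _
        · intro i
          have e3 : (Matrix.single k a c * D + D * Matrix.single a k c) i i = 0 := by
            rw [Matrix.add_apply]
            by_cases h : i = k
            · have hsy : D a k = D k a := by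
                have := hD.1 a k
                rwa [he, hs, neg_one_mul, neg_neg] at this
              rw [h, Matrix.single_mul_apply_same, Matrix.mul_single_apply_same, hsy]
              linear_combination (c * D k a) * h20
            · rw [Matrix.single_mul_apply_of_ne _ _ _ _ _ h,
                Matrix.mul_single_apply_of_ne _ _ _ _ _ h, add_zero]
          rw [e3, Matrix.single_zero]
          exact H.zero_mem
      exact (AddSubgroup.add_mem_cancel_left H h5).1 h3
    · have h3 := h2 k (l / 2)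
      rw [he, hs] at h3
      have h4 : l / 2 - -1 * (l / 2) = l := by
        field_simp
        ring
      rwa [h4] at h3
  intro i l _
  by_cases hi : i = a
  · subst hi
    obtain ⟨k, hk, -⟩ := third hm i i
    have h3 := hP _ (key k l hk) i k 1 hk.symm
    rw [Matrix.single_mul_single_same, Matrix.single_mul_single_same, Matrix.single_apply_same,
      map_one, one_mul, mul_one] at h3
    have h4 : Matrix.single i k l + Matrix.single k i l = elm F i k l := by
      rw [elm, he, hs, neg_one_mul, ← Matrix.single_neg]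
      abel
    rw [h4] at h3
    exact (AddSubgroup.add_mem_cancel_left H (h1 i k l hk.symm)).1 h3
  · exact key i l hi

end Pool.Agent.Lib.MP66ef6b.CL
end

section
set_option autoImplicit false

/-!
# MP_66ef6b_al, THEOREM L2: module ZXX (helper90), `e` preserves the centre of `N_x`
-/

namespace Pool.Agent.Lib.MP66ef6b.CL

universe u

namespace ZXXM

section gen

variable {K : Type} [Field K] {F : FD K} {V : Type} [AddCommGroup V] [Module K V] {S : Sq F V}

theorem inv_apply (g : V ≃ₗ[K] V) (v : V) : g (g⁻¹ v) = v := by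
  rw [← LinearEquiv.mul_apply, mul_inv_cancel, LinearEquiv.coe_one, id_eq]

/-- powers on an eigenvector -/
theorem pow_eig (g : V ≃ₗ[K] V) {x : V} {α : K} (h : g x = α • x) (k : ℕ) :
    (g ^ k) x = α ^ k • x := by
  induction k with
  | zero => rw [pow_zero, pow_zero, LinearEquiv.coe_one, id_eq, one_smul]
  | succ k ih => rw [pow_succ, LinearEquiv.mul_apply, h, map_smul, ih, smul_smul, pow_succ, mul_comm]

theorem adm {x w : V} (hx : S.Sg x) (hw : S.Sg w) (h : S.B x w = 0) : S.Adm x w 0 where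
  sg := hx
  orth := h
  par := by
    rw [zero_sub]
    exact F.Λ.neg_mem hw

theorem T_pow {x w : V} (hx : S.Sg x) (hw : S.Sg w) (h : S.B x w = 0) (k : ℕ) :
    (S.T x w 0) ^ k = S.T x ((k : K) • w) 0 := by
  induction k with
  | zero => rw [pow_zero, Nat.cast_zero, zero_smul, Sq.T_zero]
  | succ k ih =>
    have h1 : S.Adm x ((k : K) • w) 0 := adm hx (hw.smul _) (by rw [S.B_smul_right, h, mul_zero])
    rw [pow_succ, ih, Sq.T_mul h1 (adm hx hw h), S.B_smul_right, hw.self, mul_zero, add_zero,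
      add_zero, Nat.cast_succ, add_smul, one_smul]

/-- removing the `x`-component of the parameter -/
theorem T_shift {x w : V} {a c : K} (h : S.Adm x (c • x + w) a) (hw : S.B x w = 0) :
    S.Adm x w (a + F.σ c - F.ε * c) ∧ S.T x (c • x + w) a = S.T x w (a + F.σ c - F.ε * c) := by
  have h1 : S.Adm x w (a + F.σ c - F.ε * c) := by
    refine ⟨h.sg, hw, ?_⟩
    have e1 := h.par
    have e2 := S.q_add (c • x) w
    have e3 := F.tr (F.σ c)
    rw [F.inv] at e3
    rw [S.q_smul, S.B_smul_left, hw, mul_zero, add_zero] at e2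
    have e4 := F.sc h.sg c
    have e5 := F.Λ.add_mem (F.Λ.add_mem (F.Λ.add_mem e1 e2) e4) e3
    convert e5 using 1
    simp only [Sq.q]
    ring
  refine ⟨h1, ?_⟩
  ext v
  rw [Sq.T_apply h, Sq.T_apply h1, S.B_add_right, S.B_smul_right]
  have e1 : (S.B v x * c) • x = (F.ε * (F.ε * (S.B v x * c))) • x := by
    rw [← mul_assoc, F.ee, one_mul]
  rw [smul_add, smul_smul, e1]
  module

end gen

end ZXXM

open ZXXM in
theorem specZXX (hSTB : SpecSTB.{u}) (hWPS : SpecWPS) : SpecZXX.{u} := by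
  intro K _ F V₀ _ _ S₀ m hC P _ π e hπ x y hx hy hxy hNx hNy l hl
  have hfin := hC.finK
  obtain ⟨w1, -, -, w4, w5⟩ := hWPS K F V₀ S₀ m hC.rk hC.nd x y hx hy hxy
  have hx0 : x ≠ 0 := by
    rintro rfl
    exact hxy ((S₀.std m).B_zero_left y)
  have hyx : (S₀.std m).B y x ≠ 0 := fun h => hxy ((S₀.std m).B_eq_zero_swap h)
  obtain ⟨p, hp⟩ := CharP.exists K
  have hpp : p.Prime := CharP.char_is_prime K p
  have hfp : Fact p.Prime := ⟨hpp⟩
  have hl0 : (S₀.std m).Adm x 0 l := ⟨hx, (S₀.std m).B_zero_right x, by rw [(S₀.std m).q_zero, sub_zero]; exact hl⟩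
  obtain ⟨w', a', hA', hM⟩ := hNx 0 l hl0
  obtain ⟨c, b, w, hw, hwe⟩ := w5 w'
  have hwx : (S₀.std m).B x w = 0 := (S₀.std m).B_eq_zero_swap hw.1
  have hb : b = 0 := by
    have h1 : (S₀.std m).B w' x = 0 := hA'.orth'
    rw [hwe, (S₀.std m).B_add_left, (S₀.std m).B_add_left, (S₀.std m).B_smul_left, (S₀.std m).B_smul_left, hx.self, hw.1, mul_zero,
      zero_add, add_zero] at h1
    exact (mul_eq_zero.1 h1).resolve_right hyx
  have hwe' : w' = c • x + w := by
    rw [hwe, hb, zero_smul, add_zero]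
  rw [hwe'] at hA' hM
  obtain ⟨hA, hT⟩ := T_shift hA' hwx
  rw [hT] at hM
  set a := a' + F.σ c - F.ε * c with ha
  -- the main point
  have key : ∀ u v : SV K V₀ m, u ∈ Wp (S₀.std m) x y → v ∈ Wp (S₀.std m) x y → (u, v) ∈ (S₀.std m).TPs → (S₀.std m).B w u = 0 := by
    intro u v hu hv huv
    obtain ⟨su, sv, buv, lin⟩ := huv
    have su' : (S₀.std m).Sg u := su
    have sv' : (S₀.std m).Sg v := sv
    have buv' : (S₀.std m).B u v = 0 := buv
    have hAd : (S₀.std m).Adm u v 0 := adm su' sv' buv'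
    set h : SV K V₀ m ≃ₗ[K] SV K V₀ m := (S₀.std m).T u v 0 with hh
    have hD : h ∈ (S₀.std m).D ⊤ := Sq.T_mem_G hAd
    have hIso : h ∈ (S₀.std m).Iso := Sq.T_mem_Iso hAd
    have xu : (S₀.std m).B x u = 0 := (S₀.std m).B_eq_zero_swap hu.1
    have xv : (S₀.std m).B x v = 0 := (S₀.std m).B_eq_zero_swap hv.1
    have yu : (S₀.std m).B y u = 0 := (S₀.std m).B_eq_zero_swap hu.2
    have yv : (S₀.std m).B y v = 0 := (S₀.std m).B_eq_zero_swap hv.2
    have hhx : h x = x := by
      rw [hh, Sq.T_apply hAd, xu, xv]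
      simp
    have hhy : h y = y := by
      rw [hh, Sq.T_apply hAd, yu, yv]
      simp
    have hhp : h ^ p = 1 := by
      rw [hh, T_pow su' sv' buv', CharP.cast_eq_zero, zero_smul, Sq.T_zero]
    -- the preimage
    obtain ⟨g, hg⟩ := hπ.1 (e.symm (π ⟨h, hD⟩))
    have hg' : e (π g) = π ⟨h, hD⟩ := by rw [hg, MulEquiv.apply_symm_apply]
    have hst := (hSTB K F V₀ S₀ m hC P π e hπ x hx hx0 hNx).2 g.1 h ⟨g.2, hD, hg'⟩
    obtain ⟨α, hα⟩ := hst.2 ⟨1, by rw [hhx, one_smul]⟩
    have hgI : g.1 ∈ (S₀.std m).Iso := Sq.D_le_Iso ⊤ g.2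
    have hgp : π (g ^ p) = 1 := by
      have h1 : e (π (g ^ p)) = 1 := by
        rw [map_pow, map_pow, hg', ← map_pow]
        have h2 : (⟨h, hD⟩ : (S₀.std m).D ⊤) ^ p = 1 := Subtype.ext hhp
        rw [h2, map_one]
      rw [← map_one e] at h1
      exact e.injective h1
    obtain ⟨d, hd⟩ := (hπ.2 (g ^ p)).1 hgp
    have hpw : ∀ v, (g.1 ^ p) v = d • v := fun v => by
      have := hd v
      rwa [SubmonoidClass.coe_pow] at this
    have hαd : α ^ p = d := by
      have h1 := pow_eig g.1 hα p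
      rw [hpw] at h1
      have h2 : (α ^ p - d) • x = 0 := by rw [sub_smul, ← h1, sub_self]
      exact sub_eq_zero.1 ((smul_eq_zero.1 h2).resolve_right hx0)
    have hdd : d * F.σ d = 1 := by
      have h1 := (Subgroup.pow_mem _ hgI p).1 x y
      rw [hpw, hpw, (S₀.std m).B_smul_left, (S₀.std m).B_smul_right, ← mul_assoc] at h1
      exact mul_right_cancel₀ hxy (h1.trans (one_mul _).symm)
    have hαα : α * F.σ α = 1 := by
      have h1 : (α * F.σ α) ^ p = 1 := by
        rw [mul_pow, ← map_pow, hαd, hdd]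
      have h2 : (α * F.σ α - 1) ^ p = 0 := by
        rw [sub_pow_char, h1, one_pow, sub_self]
      exact sub_eq_zero.1 (pow_eq_zero_iff hpp.ne_zero |>.1 h2)
    -- `g` commutes with `T x 0 l`
    have hgT : g.1 * (S₀.std m).T x 0 l * g.1⁻¹ = (S₀.std m).T x 0 l := by
      have h0 : (S₀.std m).Adm (α • x) 0 l := ⟨hx.smul α, (S₀.std m).B_zero_right _, hl0.par⟩
      rw [Sq.T_conj hl0 hgI, map_zero, hα, Sq.T_smul h0 hx ((S₀.std m).B_zero_right x), smul_zero, hαα,
        one_mul]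
    obtain ⟨hD1, hD2, hM'⟩ := hM
    have hcomm : π (⟨h, hD⟩ * ⟨(S₀.std m).T x w a, hD2⟩ * ⟨h, hD⟩⁻¹ * ⟨(S₀.std m).T x w a, hD2⟩⁻¹) = 1 := by
      have h1 : g * ⟨(S₀.std m).T x 0 l, hD1⟩ * g⁻¹ = ⟨(S₀.std m).T x 0 l, hD1⟩ := Subtype.ext hgT
      have h2 := congrArg (fun z => e (π z)) h1
      simp only [map_mul, map_inv, hg', hM'] at h2
      rw [map_mul, map_mul, map_mul, map_inv, map_inv, h2, mul_inv_cancel]
    obtain ⟨c', hc'⟩ := (hπ.2 _).1 hcomm
    have hc2 : ∀ z, (S₀.std m).T x (h w) a z = c' • (S₀.std m).T x w a z := by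
      intro z
      have h1 := hc' ((S₀.std m).T x w a z)
      have h2 : ((⟨h, hD⟩ * ⟨(S₀.std m).T x w a, hD2⟩ * ⟨h, hD⟩⁻¹ * ⟨(S₀.std m).T x w a, hD2⟩⁻¹ : (S₀.std m).D ⊤) :
          SV K V₀ m ≃ₗ[K] SV K V₀ m) = (h * (S₀.std m).T x w a * h⁻¹) * ((S₀.std m).T x w a)⁻¹ := rfl
      rw [h2, Sq.T_conj hA hIso, hhx, LinearEquiv.mul_apply, ← LinearEquiv.mul_apply ((S₀.std m).T x w a)⁻¹,
        inv_mul_cancel, LinearEquiv.coe_one, id_eq] at h1
      exact h1
    have hAh : (S₀.std m).Adm x (h w) a := by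
      have := hA.map hIso
      rwa [hhx] at this
    have hc1 : c' = 1 := by
      have h1 := hc2 x
      rw [Sq.T_apply hAh, Sq.T_apply hA, hx.self, hAh.orth, hA.orth] at h1
      simp only [zero_smul, mul_zero, add_zero, sub_zero] at h1
      have h2 : (1 - c') • x = 0 := by rw [sub_smul, ← h1, one_smul, sub_self]
      exact (sub_eq_zero.1 ((smul_eq_zero.1 h2).resolve_right hx0)).symm
    have yw : (S₀.std m).B y w = 0 := (S₀.std m).B_eq_zero_swap hw.2
    have yhw : (S₀.std m).B y (h w) = 0 := by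
      have := hIso.1 y w
      rwa [hhy, yw] at this
    have hfix : h w = w := by
      have h1 := hc2 y
      rw [hc1, one_smul, Sq.T_apply hAh, Sq.T_apply hA, yw, yhw] at h1
      have h2 : (S₀.std m).B y x • (h w) = (S₀.std m).B y x • w := by
        have h3 := sub_left_inj.1 h1
        exact add_left_cancel h3
      exact smul_right_injective _ hyx h2
    rw [hh, Sq.T_apply hAd] at hfix
    have h3 : (S₀.std m).B w u • v - (F.ε * (S₀.std m).B w v) • u = 0 := by
      have h4 : (S₀.std m).B w u • v - (F.ε * ((S₀.std m).B w v + 0 * (S₀.std m).B w u)) • u = 0 := by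
        have h5 : w + ((S₀.std m).B w u • v - (F.ε * ((S₀.std m).B w v + 0 * (S₀.std m).B w u)) • u) = w + 0 := by
          rw [add_zero, ← add_sub_assoc]
          exact hfix
        exact add_left_cancel h5
      rwa [zero_mul, add_zero] at h4
    have h6 := LinearIndependent.pair_iff.1 lin (-(F.ε * (S₀.std m).B w v)) ((S₀.std m).B w u) (by
      rw [← h3]
      module)
    exact h6.2
  have hw0 : w = 0 := by
    by_contra hne
    obtain ⟨u, hu, su, hwu⟩ := w4 w hw hne
    have hu0 : u ≠ 0 := by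
      rintro rfl
      exact hwu ((S₀.std m).B_zero_right w)
    obtain ⟨v, hv, -, -, huv, -, -⟩ := w1 u hu su hu0
    exact hwu (key u v hu hv huv)
  rw [hw0] at hA hM
  refine ⟨a, ?_, hM⟩
  have := hA.par
  rwa [(S₀.std m).q_zero, sub_zero] at this

end Pool.Agent.Lib.MP66ef6b.CL
end
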