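import Pool.Agent.Lib.MP_66ef6b_al.CL.SpecG
import Pool.Agent.Lib.MP_66ef6b_al.CL.SGY
import Pool.Agent.Lib.MP_66ef6b_al.PL.CBK
import Pool.Agent.Lib.MP_66ef6b_al.CL.SpecE
import Pool.Agent.Lib.MP_66ef6b_al.CL.Y2N
import Pool.Agent.Lib.MP_66ef6b_al.CL.GXY
import Pool.Agent.Lib.MP_66ef6b_al.CL.NOO
import Pool.Agent.Lib.MP_66ef6b_al.CL.SCA
import Pool.Agent.Lib.MP_66ef6b_al.CL.URP
import Pool.Agent.Lib.MP_66ef6b_al.CL.WPS
import Pool.Agent.Lib.MP_66ef6b_al.CL.ZXX
import Pool.Agent.Lib.MP_66ef6b_al.PL.Main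
import Pool.Agent.Lib.MP_66ef6b_al.CL.SJP

section
set_option autoImplicit false

/-! # MP_66ef6b_al, THEOREM L3: module CG5 -/

namespace Pool.Agent.Lib.MP66ef6b.CL

namespace CG5M

variable {K : Type} [Field K] {F : FD K} {V₀ : Type} [AddCommGroup V₀] [Module K V₀]
  {S₀ : Sq F V₀} {m : ℕ}

theorem mem_TPs {i j : Fin m} (hij : i ≠ j) {c : K} (hc : c ≠ 0) :
    ((eV K V₀ i, c • fV K V₀ j) : SV K V₀ m × SV K V₀ m) ∈ (S₀.std m).TPs := by
  refine ⟨LMDM.sg_e i, (LMDM.sg_f j).smul c, ?_, ?_⟩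
  · show (S₀.std m).B (eV K V₀ i) (c • fV K V₀ j) = 0
    rw [LMDM.B_f]
    simp [eV, hij.symm]
  · rw [LinearIndependent.pair_iff]
    intro s t hst
    have h1 := congrArg (fun v : SV K V₀ m => v.1 i) hst
    have h2 := congrArg (fun v : SV K V₀ m => v.2.1 j) hst
    simp [eV, fV] at h1 h2
    refine ⟨h1, ?_⟩
    rcases h2 with h2 | h2
    · exact h2
    · exact absurd h2 hc

end CG5M

open CG5M in
theorem specCG5 (hCG4 : SpecCG4) (hWT2 : SpecWT2) (_ : SpecLMD) : SpecCG5 := by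
  intro K _ F V₀ _ _ S₀ m hC f hf i j hij a h
  by_cases ha : a = 0
  · subst ha
    have h1 : (⟨lam F V₀ m (Matrix.SpecialLinearGroup.transvection hij 0), h⟩ : (S₀.std m).D ⊤) = 1 := by
      apply Subtype.ext
      show lam F V₀ m (Matrix.SpecialLinearGroup.transvection hij 0) = 1
      have h2 : (Matrix.SpecialLinearGroup.transvection hij (0 : K)) = 1 := by
        apply Subtype.ext
        rw [Matrix.SpecialLinearGroup.transvection_coe]
        simp
      rw [h2, map_one]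
    rw [h1]
    exact InW.one f 8
  · obtain ⟨τ, hτ, h', hW⟩ := hCG4 K F V₀ S₀ m hC f hf
    have hc : (-(F.ε * F.σ a)) ≠ 0 := by
      have h1 : F.ε ≠ 0 := F.e0
      have h2 : F.σ a ≠ 0 := (map_ne_zero F.σ).2 ha
      exact neg_ne_zero.2 (mul_ne_zero h1 h2)
    have hT := mem_TPs (S₀ := S₀) hij hc
    obtain ⟨g, hg, hg1, hg2⟩ := hWT2 K F V₀ S₀ m hC.rk hC.nd τ.1 τ.2 (eV K V₀ i)
      ((-(F.ε * F.σ a)) • fV K V₀ j) hτ.1 hT.1 hτ.2.2.1 hT.2.2.1 hτ.2.2.2 hT.2.2.2
      (F.Λ.sub_mem hτ.2.1 hT.2.1)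
    have hadm : (S₀.std m).Adm τ.1 τ.2 0 := ⟨hτ.1, hτ.2.2.1, by
      rw [zero_sub]
      exact F.Λ.neg_mem hτ.2.1⟩
    have h3 := hW.conj ⟨g, hg⟩
    have h4 : (⟨lam F V₀ m (Matrix.SpecialLinearGroup.transvection hij a), h⟩ : (S₀.std m).D ⊤) =
        ⟨g, hg⟩ * ⟨(S₀.std m).T τ.1 τ.2 0, h'⟩ * ⟨g, hg⟩⁻¹ := by
      apply Subtype.ext
      show lam F V₀ m (Matrix.SpecialLinearGroup.transvection hij a) =
        g * (S₀.std m).T τ.1 τ.2 0 * g⁻¹
      rw [Sq.T_conj hadm (Sq.D_le_Iso _ hg), hg1, hg2]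
      exact LMDM.lam_tv hij a
    rw [h4]
    exact h3

end Pool.Agent.Lib.MP66ef6b.CL
end

section
set_option autoImplicit false

/-!
# MP_66ef6b_al, THEOREM L3, module CGB: classical groups over large fields
-/

namespace Pool.Agent.Lib.MP66ef6b.CL

open PL (SLn PSLn fx)

open Matrix.SpecialLinearGroup (transvection)

open Matrix

universe u

namespace CGBM

variable {K : Type} [Field K] {F : FD K} {V₀ : Type} [AddCommGroup V₀] [Module K V₀] {m : ℕ}

/-- `lam s` scalar implies `s` central. -/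
theorem center_of_scalar {s : SLn m K} {d : K} (h : ∀ v, lam F V₀ m s v = d • v) :
    s ∈ Subgroup.center (SLn m K) := by
  have h1 : s.1 = d • (1 : Matrix (Fin m) (Fin m) K) := by
    apply Matrix.toLin'.injective
    refine LinearMap.ext fun v => ?_
    have h2 := h (v, 0, 0)
    rw [lam_apply] at h2
    have h3 : s.1 *ᵥ v = d • v := congrArg Prod.fst h2
    rw [Matrix.toLin'_apply, Matrix.toLin'_apply, h3, smul_mulVec, one_mulVec]
  rw [Subgroup.mem_center_iff]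
  intro g
  apply Subtype.ext
  change g.1 * s.1 = s.1 * g.1
  rw [h1]
  simp

theorem finite_gl [Finite K] [Module.Finite K V₀] : Finite (SV K V₀ m ≃ₗ[K] SV K V₀ m) := by
  have : Finite V₀ := Module.finite_of_finite K
  exact DFunLike.finite _

end CGBM

theorem specCGB (hCG5 : SpecCG5) (hY2N : SpecY2N) (hLMD : SpecLMD) : SpecCGB.{u} := by
  intro c hc
  obtain ⟨q, hq⟩ := hY2N (c ^ 16)
  refine ⟨q, ?_⟩
  intro K _ F V₀ _ _ S₀ m hcl hK P _ π hπ f hf
  have : Finite K := hcl.finK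
  have := hcl.finV
  obtain ⟨i, j, hij, b, hb⟩ := hq m K (by have := hcl.rk; omega) hK
  have : Finite (SV K V₀ m ≃ₗ[K] SV K V₀ m) := CGBM.finite_gl
  have : Finite P := Finite.of_surjective π hπ.1
  obtain ⟨f', rfl⟩ := hπ.1 f
  have hf' : ¬ ∃ c : K, ∀ v, f'.1 v = c • v := fun h => hf ((hπ.2 f').2 h)
  have hmem : ∀ s, lam F V₀ m s ∈ (S₀.std m).D ⊤ := fun s => (hLMD K F V₀ S₀ m).2.1.1 ⟨s, rfl⟩
  let L : SLn m K →* (S₀.std m).D ⊤ := (lam F V₀ m).codRestrict _ hmem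
  have h1 := hCG5 K F V₀ S₀ m hcl f' hf' i j hij 1 (hmem _)
  have h2 := hCG5 K F V₀ S₀ m hcl f' hf' j i hij.symm b (hmem _)
  have h3 := (h1.mul h2).map π
  refine Gro.of_order (k := 16) h3 ?_
  intro l hl1 hl2 hg
  apply hb l hl1 hl2
  have h4 : π (L ((transvection hij 1 * transvection hij.symm b : SLn m K) ^ l)) = 1 := by
    rw [map_pow, map_mul, map_pow]
    exact hg
  obtain ⟨d, hd⟩ := (hπ.2 _).1 h4
  exact CGBM.center_of_scalar (F := F) (V₀ := V₀) (d := d) hd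

end Pool.Agent.Lib.MP66ef6b.CL
end

section
/-! # CL, module LBG: linear groups of large dimension -/
set_option autoImplicit false

namespace Pool.Agent.Lib.MP66ef6b.CL

open PL (SLn PSLn fx)

open Matrix.SpecialLinearGroup (transvection)

namespace LBGM

theorem ne_succ {n : ℕ} (i : Fin n) (h : i.val + 1 < n) : i ≠ ⟨i.val + 1, h⟩ := by
  intro h1
  have h2 := congrArg Fin.val h1
  simp only at h2
  omega

end LBGM

open LBGM in
/-- Large dimension. -/
theorem specLBG (hLT1 : SpecLT1) (hLGU : SpecLGU) : SpecLBG := by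
  intro c hc
  refine ⟨24 * c + 3, ?_⟩
  intro n K _ _ hn f hf
  classical
  obtain ⟨f', rfl⟩ := QuotientGroup.mk_surjective f
  have hf' : f' ∉ Subgroup.center (SLn n K) := fun h => hf ((QuotientGroup.eq_one_iff f').2 h)
  let g : Fin n → PSLn n K := fun i =>
    if h : i.val + 1 < n then
      (QuotientGroup.mk (transvection (ne_succ i h) (1 : K) : SLn n K) : PSLn n K) else 1
  have hg : ∀ i, InW (QuotientGroup.mk f' : PSLn n K) 4 (g i) := by
    intro i
    by_cases h : i.val + 1 < n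
    · have h1 := hLT1 n K (by omega) f' hf' i ⟨i.val + 1, h⟩ (ne_succ i h) (1 : K)
      have h2 := h1.map (QuotientGroup.mk' (Subgroup.center (SLn n K)))
      simp only [g, dif_pos h]
      exact h2
    · simp only [g, dif_neg h]
      exact InW.one _ _
  refine Gro.of_family hg ?_
  refine lt_of_lt_of_le (PL.AFFM.arith c 2 n (4 * n) hc (by omega) (by omega)) ?_
  apply hLGU n K
  intro i j hij hj
  have h1 : i.val + 1 < n := by
    have := j.2
    omega
  have h2 : j = ⟨i.val + 1, h1⟩ := Fin.ext hj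
  subst h2
  refine Subgroup.subset_closure ⟨i, ?_⟩
  simp only [g, dif_pos h1]

end Pool.Agent.Lib.MP66ef6b.CL
end

section
set_option autoImplicit false

/-!
# MP_66ef6b_al, THEOREM L3, module CGA: classical groups of large dimension
-/

namespace Pool.Agent.Lib.MP66ef6b.CL

open PL (SLn PSLn fx)

open Matrix.SpecialLinearGroup (transvection)

open Matrix

universe u

namespace CGAM

/-- The image in `PSL_m(K)` of the preimage of `H` is not larger than `H`. -/
theorem card_le {m : ℕ} {K : Type} [Field K] {P : Type u} [Group P] [Finite P]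
    (ψ : SLn m K →* P) (hψ : ∀ s, ψ s = 1 → s ∈ Subgroup.center (SLn m K)) (H : Subgroup P) :
    Nat.card ((H.comap ψ).map (QuotientGroup.mk' (Subgroup.center (SLn m K)))) ≤ Nat.card H := by
  have h1 : ∀ y : ((H.comap ψ).map (QuotientGroup.mk' (Subgroup.center (SLn m K)))),
      ∃ s : SLn m K, ψ s ∈ H ∧ (QuotientGroup.mk s : PSLn m K) = y.1 := by
    rintro ⟨y, s, hs, rfl⟩
    exact ⟨s, hs, rfl⟩
  choose s hs1 hs2 using h1
  let F : ((H.comap ψ).map (QuotientGroup.mk' (Subgroup.center (SLn m K)))) → H :=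
    fun y => ⟨ψ (s y), hs1 y⟩
  have hF : Function.Injective F := by
    intro y y' hyy
    have h2 : ψ (s y) = ψ (s y') := congrArg Subtype.val hyy
    have h3 : ψ ((s y)⁻¹ * s y') = 1 := by
      rw [map_mul, map_inv, h2, inv_mul_cancel]
    apply Subtype.ext
    rw [← hs2 y, ← hs2 y']
    exact QuotientGroup.eq.2 (hψ _ h3)
  exact Nat.card_le_card_of_injective F hF

end CGAM

open CGAM LBGM in
/-- **CGA.** -/
theorem specCGA (hCG5 : SpecCG5) (hLGU : SpecLGU) (hLMD : SpecLMD) : SpecCGA.{u} := by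
  intro c hc
  refine ⟨48 * c + 3, ?_⟩
  intro K _ F V₀ _ _ S₀ m hcl hm P _ π hπ f hf
  classical
  have : Finite K := hcl.finK
  have := hcl.finV
  have : Finite (SV K V₀ m ≃ₗ[K] SV K V₀ m) := CGBM.finite_gl
  have : Finite P := Finite.of_surjective π hπ.1
  obtain ⟨f', rfl⟩ := hπ.1 f
  have hf' : ¬ ∃ c : K, ∀ v, f'.1 v = c • v := fun h => hf ((hπ.2 f').2 h)
  have hmem : ∀ s, lam F V₀ m s ∈ (S₀.std m).D ⊤ := fun s => (hLMD K F V₀ S₀ m).2.1.1 ⟨s, rfl⟩
  let L : SLn m K →* (S₀.std m).D ⊤ := (lam F V₀ m).codRestrict _ hmem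
  let ψ : SLn m K →* P := π.comp L
  have hψ : ∀ s, ψ s = 1 → s ∈ Subgroup.center (SLn m K) := by
    intro s hs
    obtain ⟨d, hd⟩ := (hπ.2 (L s)).1 hs
    exact CGBM.center_of_scalar (F := F) (V₀ := V₀) (d := d) hd
  let g : Fin m → P := fun i =>
    if h : i.val + 1 < m then ψ (transvection (ne_succ i h) (1 : K)) else 1
  have hg : ∀ i, InW (π f') 8 (g i) := by
    intro i
    by_cases h : i.val + 1 < m
    · have h1 := (hCG5 K F V₀ S₀ m hcl f' hf' i ⟨i.val + 1, h⟩ (ne_succ i h) (1 : K)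
        (hmem _)).map π
      simp only [g, dif_pos h]
      exact h1
    · simp only [g, dif_neg h]
      exact InW.one _ _
  refine Gro.of_family hg ?_
  refine lt_of_lt_of_le (PL.AFFM.arith c 4 m (8 * m) hc (by omega) (by omega)) ?_
  refine le_trans (hLGU m K _ ?_) (card_le ψ hψ (Subgroup.closure (Set.range g)))
  intro i j hij hj
  have h1 : i.val + 1 < m := by
    have := j.2
    omega
  have h2 : j = ⟨i.val + 1, h1⟩ := Fin.ext hj
  subst h2
  refine ⟨transvection hij (1 : K), ?_, rfl⟩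
  refine Subgroup.subset_closure ⟨i, ?_⟩
  simp only [g, dif_pos h1]

end Pool.Agent.Lib.MP66ef6b.CL
end

section
set_option autoImplicit false

/-!
# MP_66ef6b_al, THEOREM L3, module CGC: classical groups (helper66)
-/

namespace Pool.Agent.Lib.MP66ef6b.CL

universe u

theorem specCGC (hCGA : SpecCGA.{u}) (hCGB : SpecCGB.{u}) (hSZS : SpecSZS.{u}) :
    SpecCGC.{u} := by
  intro c hc
  obtain ⟨N, hN⟩ := hCGA c hc
  obtain ⟨q, hq⟩ := hCGB c hc
  refine ⟨(q + 1) ^ ((2 * N + 2) ^ 2), ?_⟩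
  intro P _ hP hB f hf
  obtain ⟨K, _, F, V₀, _, _, S₀, m, π, hC, hs, hk⟩ := hP
  by_cases h1 : N ≤ m
  · exact hN K F V₀ S₀ m hC h1 P π ⟨hs, hk⟩ f hf
  by_cases h2 : q ≤ Nat.card K
  · exact hq K F V₀ S₀ m hC h2 P π ⟨hs, hk⟩ f hf
  exfalso
  have h3 := hSZS.2 K F V₀ S₀ m hC P π hs
  have h4 : Nat.card K ^ ((2 * m + 2) ^ 2) ≤ (q + 1) ^ ((2 * m + 2) ^ 2) :=
    Nat.pow_le_pow_left (by omega) _
  have h5 : (q + 1) ^ ((2 * m + 2) ^ 2) ≤ (q + 1) ^ ((2 * N + 2) ^ 2) :=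
    Nat.pow_le_pow_right (by omega) (Nat.pow_le_pow_left (by omega) 2)
  omega

end Pool.Agent.Lib.MP66ef6b.CL
end

section
set_option autoImplicit false

/-!
# MP_66ef6b_al, THEOREM L3: module FLA (helper45)
-/

namespace Pool.Agent.Lib.MP66ef6b.CL

universe u

namespace FLAM

/-- A simple group which is not commutative has trivial centre. -/
theorem center_bot (T : Type u) [Group T] [IsSimpleGroup T] (h : ∃ x y : T, x * y ≠ y * x) :
    Subgroup.center T = ⊥ := by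
  rcases (inferInstance : (Subgroup.center T).Normal).eq_bot_or_eq_top with h1 | h1
  · exact h1
  · exfalso
    obtain ⟨x, y, hxy⟩ := h
    have h2 : x ∈ Subgroup.center T := by rw [h1]; trivial
    exact hxy (Subgroup.mem_center_iff.1 h2 y).symm

/-- `T → MulAut T` is injective. -/
theorem conj_one {T : Type u} [Group T] [IsSimpleGroup T] (h : ∃ x y : T, x * y ≠ y * x) {t : T}
    (ht : MulAut.conj t = 1) : t = 1 := by
  have h1 : t ∈ Subgroup.center T := by
    rw [Subgroup.mem_center_iff]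
    intro y
    have h2 : MulAut.conj t y = y := by rw [ht]; rfl
    rw [MulAut.conj_apply] at h2
    exact (mul_inv_eq_iff_eq_mul.1 h2).symm
  rw [center_bot T h] at h1
  exact Subgroup.mem_bot.1 h1

/-- a large finite subgroup. -/
theorem large (G : Type u) [Group G] [Infinite G] (hLF : LocFin G) (E₀ : Subgroup G)
    (hE₀ : Finite E₀) (f x y : G) (B : ℕ) :
    ∃ E : Subgroup G, Finite E ∧ E₀ ≤ E ∧ f ∈ E ∧ x ∈ E ∧ y ∈ E ∧ B < Nat.card E := by
  classical
  obtain ⟨s, hs⟩ := Infinite.exists_subset_card_eq G (B + 1)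
  let t : Finset G := ((E₀ : Set G).toFinite.toFinset ∪ {f, x, y}) ∪ s
  have hsub : (t : Set G) ⊆ Subgroup.closure (t : Set G) := Subgroup.subset_closure
  have hfin : Finite (Subgroup.closure (t : Set G)) := hLF t
  refine ⟨Subgroup.closure (t : Set G), hfin, ?_, hsub ?_, hsub ?_, hsub ?_, ?_⟩
  · intro z hz
    apply hsub
    have h1 : z ∈ (E₀ : Set G) := hz
    simp [t, h1]
  · simp [t]
  · simp [t]
  · simp [t]
  · have h1 : (s : Set G) ⊆ (Subgroup.closure (t : Set G) : Set G) := by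
      refine Set.Subset.trans ?_ hsub
      intro z hz
      simp only [t, Finset.coe_union]
      exact Or.inr hz
    have h2 : (s : Set G).ncard ≤ ((Subgroup.closure (t : Set G) : Set G)).ncard :=
      Set.ncard_le_ncard h1 (Set.toFinite _)
    rw [Set.ncard_coe_finset, hs] at h2
    have h3 : ((Subgroup.closure (t : Set G) : Set G)).ncard =
        Nat.card (Subgroup.closure (t : Set G)) := rfl
    omega

end FLAM

open FLAM in
/-- **FLA.** -/
theorem specFLA (hGRO : SpecGRO.{u}) (hKEG : SpecKEG.{u}) (hSPR : PL.SpecSPR.{u}) :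
    SpecFLA.{u} := by
  intro G _ _ _ hLF hAC hFL
  classical
  obtain ⟨p, V, _, _, hp, hpv, hfin, f₀, v₀, hv₀⟩ := hFL
  have hf1 : f₀ ≠ 1 := by
    rintro rfl
    exact hv₀ (one_smul G v₀)
  obtain ⟨c, hc⟩ : ∃ c : ℕ, c = (Set.range fun v : V => f₀ • v - v).ncard := ⟨_, rfl⟩
  have hc1 : 1 ≤ c := by
    rw [hc]
    exact (Set.ncard_pos (hfin f₀)).2 ⟨_, v₀, rfl⟩
  obtain ⟨B, hB⟩ := hGRO c hc1
  obtain ⟨E₀, hE₀, hK₀⟩ := hAC
  obtain ⟨x, y, hxy⟩ := PL.PRFM.noncomm G hLF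
  obtain ⟨E, hEf, hE₀E, hfE, hxE, hyE, hBE⟩ := large G hLF E₀ hE₀ f₀ x y B
  have hEb : E ≠ ⊥ := by
    rintro rfl
    exact hf1 (Subgroup.mem_bot.1 hfE)
  obtain ⟨E', hE'f, hEE', hE'⟩ := hKEG G hLF E hEf hEb
  obtain ⟨K, hKf, hE'K, hKac⟩ := hK₀ E' hE'f
  obtain ⟨A, B', hB'n, hAn, hsim, hEA, hEB⟩ := hE' K hKf hE'K
  -- the embedding of `A`
  obtain ⟨κ, hκ⟩ : ∃ κ : A →* G, κ = K.subtype.comp A.subtype := ⟨_, rfl⟩
  have hκa : ∀ a : A, κ a = ((a : K) : G) := fun a => by rw [hκ]; rfl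
  have hκi : Function.Injective κ := by
    rw [hκ]
    exact K.subtype_injective.comp A.subtype_injective
  have hEr : E ≤ κ.range := by
    intro z hz
    obtain ⟨a, ha⟩ := hEA z hz
    exact ⟨a, (hκa a).trans ha⟩
  obtain ⟨ι, hι⟩ : ∃ ι : E →* A, ∀ z : E, κ (ι z) = (z : G) := by
    refine ⟨((MonoidHom.ofInjective hκi).symm.toMonoidHom).comp (Subgroup.inclusion hEr), ?_⟩
    intro z
    have h1 := MonoidHom.apply_ofInjective_symm hκi (Subgroup.inclusion hEr z)
    exact h1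
  have hιi : Function.Injective ι := by
    intro a b hab
    apply Subtype.ext
    rw [← hι, ← hι, hab]
  obtain ⟨ψ, hψ⟩ : ∃ ψ : E →* A ⧸ B', ψ = (QuotientGroup.mk' B').comp ι := ⟨_, rfl⟩
  have hψi : Function.Injective ψ := by
    rw [injective_iff_map_eq_one]
    intro a ha
    rw [hψ, MonoidHom.comp_apply, QuotientGroup.mk'_apply, QuotientGroup.eq_one_iff] at ha
    have h1 : ((ι a : K) : G) ∈ E := by
      rw [← hκa, hι]
      exact a.2
    have h2 := hEB (ι a) h1 ha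
    exact hιi (h2.trans (map_one ι).symm)
  have hAf : Finite A := inferInstance
  have hTf : Finite (A ⧸ B') := inferInstance
  have hTn : ∃ a b : A ⧸ B', a * b ≠ b * a := by
    refine ⟨ψ ⟨x, hxE⟩, ψ ⟨y, hyE⟩, ?_⟩
    rw [← map_mul, ← map_mul]
    intro h
    have h1 := congrArg Subtype.val (hψi h)
    exact hxy h1
  have hTB : B < Nat.card (A ⧸ B') := hBE.trans_le (Nat.card_le_card_of_injective ψ hψi)
  have hφ : ∃ φ : E₀ →* MulAut (A ⧸ B'), Function.Injective φ := by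
    refine ⟨(MulAut.conj : (A ⧸ B') →* MulAut (A ⧸ B')).comp (ψ.comp (Subgroup.inclusion hE₀E)), ?_⟩
    rw [injective_iff_map_eq_one]
    intro a ha
    have h1 : ψ (Subgroup.inclusion hE₀E a) = 1 := conj_one hTn ha
    have h2 : Subgroup.inclusion hE₀E a = 1 := hψi (h1.trans (map_one ψ).symm)
    exact (Subgroup.inclusion_injective hE₀E) (h2.trans (map_one _).symm)
  have hTac : IsAC (A ⧸ B') := hKac A B' hAn.isSubnormal hsim hTn hφ
  have hψf : ψ ⟨f₀, hfE⟩ ≠ 1 := by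
    intro h
    have h1 : (⟨f₀, hfE⟩ : E) = 1 := hψi (h.trans (map_one ψ).symm)
    exact hf1 (congrArg Subtype.val h1)
  obtain ⟨k, t, ht⟩ := hB (A ⧸ B') hTac hTB (ψ ⟨f₀, hfE⟩) hψf
  choose s hs using fun i : Fin k => QuotientGroup.mk'_surjective B' (t i)
  obtain ⟨a₀, ha₀⟩ : ∃ a₀ : A, a₀ = ι ⟨f₀, hfE⟩ := ⟨_, rfl⟩
  have hκ0 : κ a₀ = f₀ := by rw [ha₀, hι]
  have hψ0 : ψ ⟨f₀, hfE⟩ = QuotientGroup.mk' B' a₀ := by rw [hψ, ha₀]; rfl
  obtain ⟨H, hH⟩ : ∃ H : Subgroup A, H = Subgroup.closure (Set.range fun i => s i * a₀ * (s i)⁻¹) :=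
    ⟨_, rfl⟩
  have hHT : Subgroup.closure (Set.range fun i => t i * ψ ⟨f₀, hfE⟩ * (t i)⁻¹) =
      H.map (QuotientGroup.mk' B') := by
    rw [hH, MonoidHom.map_closure, ← Set.range_comp]
    congr 1
    ext z
    simp [← hs, hψ0]
  have hcT : Nat.card (Subgroup.closure (Set.range fun i => t i * ψ ⟨f₀, hfE⟩ * (t i)⁻¹)) ≤
      Nat.card H := by
    rw [hHT]
    exact Nat.card_le_card_of_surjective _ (MonoidHom.subgroupMap_surjective (QuotientGroup.mk' B') H)
  let g : Fin k → G := fun i => κ (s i * a₀ * (s i)⁻¹)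
  have hcl : Subgroup.closure (Set.range g) = H.map κ := by
    rw [hH, MonoidHom.map_closure, ← Set.range_comp]
    rfl
  have hfinH : Finite (Subgroup.closure (Set.range g)) := by
    rw [hcl]
    exact Set.Finite.to_subtype (Set.Finite.image _ (Set.toFinite _))
  have hcardH : Nat.card (Subgroup.closure (Set.range g)) = Nat.card H := by
    rw [hcl]
    exact Nat.card_congr ((Subgroup.equivMapOfInjective _ _ hκi).toEquiv).symm
  have hdisp : ∀ i, (Set.range fun v : V => g i • v - v).Finite ∧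
      (Set.range fun v : V => g i • v - v).ncard ≤ c := by
    intro i
    have e : g i = κ (s i) * f₀ * (κ (s i))⁻¹ := by
      show κ (s i * a₀ * (s i)⁻¹) = _
      rw [map_mul, map_mul, map_inv, hκ0]
    rw [e, PL.AFFM.range_conj, hc]
    exact ⟨(hfin f₀).image _, Set.ncard_image_le (hfin f₀)⟩
  have hlt : c ^ k < Nat.card (Subgroup.closure (Set.range g)) := by
    rw [hcardH]
    exact ht.trans_le hcT
  refine ⟨p, V, inferInstance, inferInstance, Subgroup.closure (Set.range g), hp, hpv, ?_, hfin,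
    ⟨f₀, v₀, hv₀⟩, hfinH, hSPR G V k c g hfinH hdisp hlt⟩
  intro b
  refine ⟨DistribSMul.toAddMonoidHom V b, fun v w => ?_⟩
  rw [smul_add]
  rfl

end Pool.Agent.Lib.MP66ef6b.CL
end

section
set_option autoImplicit false

/-!
# MP_66ef6b_al, THEOREM L3, module GRO (helper49): growth in alternating, linear and classical groups
-/

namespace Pool.Agent.Lib.MP66ef6b.CL

open PL (SLn PSLn fx)

universe u

namespace GROM

/-- transfer from the other side of an isomorphism. -/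
theorem gro_of_equiv {T : Type u} {S : Type*} [Group T] [Group S] (e : T ≃* S) {c : ℕ} {f : T}
    (h : Gro c (e f)) : Gro c f := by
  have h1 := Gro.equiv e.symm h
  rwa [MulEquiv.symm_apply_apply] at h1

theorem card_alt_le (n : ℕ) : Nat.card (alternatingGroup (Fin n)) ≤ n.factorial := by
  have h1 : Nat.card (alternatingGroup (Fin n)) ≤ Nat.card (Equiv.Perm (Fin n)) :=
    Nat.card_le_card_of_injective _ Subtype.val_injective
  refine h1.trans (le_of_eq ?_)
  rw [Nat.card_eq_fintype_card, Fintype.card_perm, Fintype.card_fin]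

end GROM

open GROM in
theorem specGRO (hLGR : SpecLGR) (hCGC : SpecCGC.{u}) (hAL3 : SpecAL3) : SpecGRO.{u} := by
  intro c hc
  obtain ⟨B₁, h₁⟩ := hLGR c hc
  obtain ⟨B₂, h₂⟩ := hCGC c hc
  obtain ⟨N, h₃⟩ := hAL3 c hc
  refine ⟨max (max B₁ B₂) N.factorial, ?_⟩
  intro T _ _ hT hB f hf
  have hb1 : B₁ < Nat.card T := lt_of_le_of_lt ((le_max_left _ _).trans (le_max_left _ _)) hB
  have hb2 : B₂ < Nat.card T := lt_of_le_of_lt ((le_max_right _ _).trans (le_max_left _ _)) hB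
  have hb3 : N.factorial < Nat.card T := lt_of_le_of_lt (le_max_right _ _) hB
  rcases hT with ⟨n, ⟨e⟩⟩ | hT | hT
  · refine gro_of_equiv e (h₃ n ?_ (e f) ?_)
    · by_contra hn
      have h4 : Nat.card T ≤ n.factorial := by
        rw [Nat.card_congr e.toEquiv]
        exact card_alt_le n
      have h5 : n.factorial ≤ N.factorial := Nat.factorial_le (le_of_lt (not_le.1 hn))
      omega
    · intro h
      exact hf (e.injective (by rw [h, map_one]))
  · obtain ⟨n, K, hK, hfin, ⟨e⟩⟩ := hT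
    refine gro_of_equiv e (h₁ n K ?_ (e f) ?_)
    · rwa [← Nat.card_congr e.toEquiv]
    · intro h
      exact hf (e.injective (by rw [h, map_one]))
  · exact h₂ T hT hb2 f hf

end Pool.Agent.Lib.MP66ef6b.CL
end

section
set_option autoImplicit false

/-!
# MP_66ef6b_al, THEOREM L2, module GRW: few conjugates of `f` generate a large group
-/

namespace Pool.Agent.Lib.MP66ef6b.CL

universe u

namespace GRWM

open Matrix

section ind

variable {K : Type} [Field K] {F : FD K} {V₀ : Type} [AddCommGroup V₀] [Module K V₀]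
  {S₀ : Sq F V₀} {m : ℕ} {Y : Type u} [Group Y] {P : Subgroup Y} {π : (S₀.std m).D ⊤ →* P}

theorem ind_mul {z z' : Y} {A A' : SV K V₀ m ≃ₗ[K] SV K V₀ m} (hA : Ind π z A)
    (hA' : Ind π z' A') : Ind π (z * z') (A * A') := by
  refine ⟨Subgroup.mul_mem _ hA.1 hA'.1, ?_⟩
  intro g h
  have h1 : A' * g.1 * A'⁻¹ ∈ (S₀.std m).D ⊤ := Sq.conj_mem_D hA'.1 g.2
  have h2 : A * (A' * g.1 * A'⁻¹) * A⁻¹ ∈ (S₀.std m).D ⊤ := Sq.conj_mem_D hA.1 h1
  have h3 := hA'.2 g h1
  have h4 := hA.2 ⟨_, h1⟩ h2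
  have h5 : (⟨A * A' * g.1 * (A * A')⁻¹, h⟩ : (S₀.std m).D ⊤) =
      ⟨A * (A' * g.1 * A'⁻¹) * A⁻¹, h2⟩ := by
    apply Subtype.ext
    simp only [_root_.mul_inv_rev, mul_assoc]
  rw [h5, ← h4, ← h3]
  group

theorem ind_inv {z : Y} {A : SV K V₀ m ≃ₗ[K] SV K V₀ m} (hA : Ind π z A) :
    Ind π z⁻¹ A⁻¹ := by
  have hA1 : A⁻¹ ∈ (S₀.std m).Iso := Subgroup.inv_mem _ hA.1
  refine ⟨hA1, ?_⟩
  intro g h
  have h2 : A * (A⁻¹ * g.1 * A⁻¹⁻¹) * A⁻¹ ∈ (S₀.std m).D ⊤ := Sq.conj_mem_D hA.1 h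
  have h3 := hA.2 ⟨A⁻¹ * g.1 * A⁻¹⁻¹, h⟩ h2
  have h5 : (⟨A * (A⁻¹ * g.1 * A⁻¹⁻¹) * A⁻¹, h2⟩ : (S₀.std m).D ⊤) = g := by
    apply Subtype.ext
    show A * (A⁻¹ * g.1 * A⁻¹⁻¹) * A⁻¹ = g.1
    group
  rw [h5] at h3
  rw [← h3]
  group

theorem ind_pi (g : (S₀.std m).D ⊤) : Ind π (π g : Y) g.1 := by
  refine ⟨Sq.D_le_Iso _ g.2, ?_⟩
  intro h hh
  have h5 : (⟨g.1 * h.1 * g.1⁻¹, hh⟩ : (S₀.std m).D ⊤) = g * h * g⁻¹ := rfl
  rw [h5, map_mul, map_mul, map_inv]
  rfl

theorem ind_uniq (hP : IsSocle P) (hs : Function.Surjective π) {z z' : Y}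
    {A : SV K V₀ m ≃ₗ[K] SV K V₀ m} (h : Ind π z A) (h' : Ind π z' A) : z = z' := by
  have h1 : z'⁻¹ * z ∈ Subgroup.centralizer (P : Set Y) := by
    rw [Subgroup.mem_centralizer_iff]
    intro p hp
    obtain ⟨g, hg⟩ := hs ⟨p, hp⟩
    have hm : A * g.1 * A⁻¹ ∈ (S₀.std m).D ⊤ := Sq.conj_mem_D h.1 g.2
    have h2 := (h.2 g hm).trans (h'.2 g hm).symm
    rw [hg] at h2
    have h3 : z * p * z⁻¹ = z' * p * z'⁻¹ := h2
    calc p * (z'⁻¹ * z) = z'⁻¹ * (z' * p * z'⁻¹) * z := by group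
      _ = z'⁻¹ * (z * p * z⁻¹) * z := by rw [h3]
      _ = z'⁻¹ * z * p := by group
  rw [hP.cent, Subgroup.mem_bot] at h1
  exact (inv_mul_eq_one.1 h1).symm

end ind

section vec

variable {K : Type} [Field K] {F : FD K} {V₀ : Type} [AddCommGroup V₀] [Module K V₀]
  {S₀ : Sq F V₀} {m : ℕ}

theorem mem_TPs {i j : Fin m} (hij : i ≠ j) {c : K} (hc : c ≠ 0) :
    ((eV K V₀ i, c • fV K V₀ j) : SV K V₀ m × SV K V₀ m) ∈ (S₀.std m).TPs := by
  refine ⟨LMDM.sg_e i, (LMDM.sg_f j).smul c, ?_, ?_⟩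
  · show (S₀.std m).B (eV K V₀ i) (c • fV K V₀ j) = 0
    rw [LMDM.B_f]
    simp [eV, hij.symm]
  · rw [LinearIndependent.pair_iff]
    intro s t hst
    have h1 := congrArg (fun v : SV K V₀ m => v.1 i) hst
    have h2 := congrArg (fun v : SV K V₀ m => v.2.1 j) hst
    simp [eV, fV] at h1 h2
    refine ⟨h1, ?_⟩
    rcases h2 with h2 | h2
    · exact h2
    · exact absurd h2 hc

theorem mem_center {g : PL.SLn m K} {c : K} (h : ∀ v, lam F V₀ m g v = c • v) :
    g ∈ Subgroup.center (PL.SLn m K) := by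
  have h1 : ∀ w : Fin m → K, g.1 *ᵥ w = c • w := by
    intro w
    have h2 := congrArg Prod.fst (h (w, 0, 0))
    rw [lam_apply] at h2
    exact h2
  have h3 : g.1 = c • (1 : Matrix (Fin m) (Fin m) K) := by
    ext i j
    have h4 := congrFun (h1 (Pi.single j 1)) i
    rw [Matrix.mulVec_single_one] at h4
    have h5 : g.1 i j = c * (Pi.single j (1 : K) : Fin m → K) i := h4
    rw [h5, Matrix.smul_apply, Matrix.one_apply, Pi.single_apply, smul_eq_mul]
  rw [Subgroup.mem_center_iff]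
  intro k
  apply Subtype.ext
  show k.1 * g.1 = g.1 * k.1
  rw [h3]
  simp

end vec

end GRWM

open GRWM in
/-- GRW. -/
theorem specGRW (hTRW : SpecTRW) (hLMD : SpecLMD) (hGNU : PL.SpecGNU) : SpecGRW.{u} := by
  classical
  intro q₀ d
  obtain ⟨N, hN⟩ := hTRW d
  refine ⟨N, ?_⟩
  intro G _ f E m hm hI
  obtain ⟨X, Y, _, ρ, P, x, K, _, F, V₀, _, _, S₀, m', π, A, hXf, hEX, hρ, -, hP, hC, hK, hq, hmm,
    hxf, hx1, hA, hrk⟩ := hI
  have hKf : Finite K := hC.finK
  have hl : lamS F V₀ m' ≤ (S₀.std m').D ⊤ := (hLMD K F V₀ S₀ m').2.1.1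
  let lamD : PL.SLn m' K →* (S₀.std m').D ⊤ :=
    (lam F V₀ m').codRestrict ((S₀.std m').D ⊤) (fun g => hl ⟨g, rfl⟩)
  let φ : PL.SLn m' K →* Y := P.subtype.comp (π.comp lamD)
  have hφ : ∀ g, φ g = (π (lamD g) : Y) := fun g => rfl
  -- `A ≠ 1`
  have hA1 : A ≠ 1 := by
    intro h
    apply hx1
    have h1 : Ind π (1 : Y) (1 : SV K V₀ m' ≃ₗ[K] SV K V₀ m') := by
      have h2 := ind_pi (π := π) (1 : (S₀.std m').D ⊤)
      rw [map_one] at h2
      exact h2
    rw [h] at hA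
    exact ind_uniq hP hK.1 hA h1
  -- the transvections are products of conjugates
  have key : ∀ (i j : Fin m') (hij : i ≠ j) (a : K), ∃ y : Fin 4 → X,
      ρ (y 0 * x * (y 0)⁻¹ * (y 1 * x * (y 1)⁻¹)⁻¹ * (y 2 * x * (y 2)⁻¹) *
        (y 3 * x * (y 3)⁻¹)⁻¹) = φ (Matrix.SpecialLinearGroup.transvection hij a) := by
    intro i j hij a
    by_cases ha : a = 0
    · refine ⟨fun _ => 1, ?_⟩
      have h1 : Matrix.SpecialLinearGroup.transvection hij a = (1 : PL.SLn m' K) := by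
        rw [ha]
        apply Subtype.ext
        rw [Matrix.SpecialLinearGroup.transvection_coe]
        simp
      rw [h1, map_one]
      simp
    · have hc : -(F.ε * F.σ a) ≠ 0 := by
        rw [neg_ne_zero]
        exact mul_ne_zero F.e0 ((map_ne_zero F.σ).2 ha)
      obtain ⟨g₁, h₁, g₂, h₂, g₃, h₃, g₄, h₄, he⟩ := hN K F V₀ S₀ m' hC (by omega) A hA.1 hA1 hrk
        (eV K V₀ i, (-(F.ε * F.σ a)) • fV K V₀ j) (mem_TPs hij hc)
      obtain ⟨y₁, hy₁⟩ := hρ (π ⟨g₁, h₁⟩ : Y)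
      obtain ⟨y₂, hy₂⟩ := hρ (π ⟨g₂, h₂⟩ : Y)
      obtain ⟨y₃, hy₃⟩ := hρ (π ⟨g₃, h₃⟩ : Y)
      obtain ⟨y₄, hy₄⟩ := hρ (π ⟨g₄, h₄⟩ : Y)
      refine ⟨![y₁, y₂, y₃, y₄], ?_⟩
      have hcj : ∀ (y : X) (g : SV K V₀ m' ≃ₗ[K] SV K V₀ m') (hg : g ∈ (S₀.std m').D ⊤),
          ρ y = (π ⟨g, hg⟩ : Y) → Ind π (ρ (y * x * y⁻¹)) (g * A * g⁻¹) := by
        intro y g hg hy
        rw [map_mul, map_mul, map_inv, hy]
        have h5 := ind_pi (π := π) ⟨g, hg⟩
        exact ind_mul (ind_mul h5 hA) (ind_inv h5)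
      have hI1 := hcj y₁ g₁ h₁ hy₁
      have hI2 := hcj y₂ g₂ h₂ hy₂
      have hI3 := hcj y₃ g₃ h₃ hy₃
      have hI4 := hcj y₄ g₄ h₄ hy₄
      have hI := ind_mul (ind_mul (ind_mul hI1 (ind_inv hI2)) hI3) (ind_inv hI4)
      rw [← he] at hI
      have hJ := ind_pi (π := π) (lamD (Matrix.SpecialLinearGroup.transvection hij a))
      have hJ1 : (lamD (Matrix.SpecialLinearGroup.transvection hij a)).1 =
          (S₀.std m').T (eV K V₀ i) ((-(F.ε * F.σ a)) • fV K V₀ j) 0 :=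
        LMDM.lam_tv hij a
      rw [hJ1] at hJ
      have h6 := ind_uniq hP hK.1 hI hJ
      rw [hφ, ← h6]
      simp only [Matrix.cons_val_zero, Matrix.cons_val_one, Matrix.cons_val, map_mul, map_inv]
  choose y hy using key
  have hFK : Fintype K := Fintype.ofFinite K
  let Idx : Type := Fin m' × K × Fin 4
  let xx : Idx → X := fun t =>
    if h : t.1.val + 1 < m' then
      y t.1 ⟨t.1.val + 1, h⟩ (by
        intro h2
        have := congrArg Fin.val h2
        simp at this) t.2.1 t.2.2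
    else 1
  let e : Idx ≃ Fin (Fintype.card Idx) := Fintype.equivFin Idx
  let HX : Subgroup X := Subgroup.closure (Set.range fun t : Idx => xx t * x * (xx t)⁻¹)
  have hcard : Fintype.card Idx ≤ 4 * q₀ * m' := by
    have h1 : Fintype.card Idx = m' * (Fintype.card K * 4) := by
      show Fintype.card (Fin m' × K × Fin 4) = _
      rw [Fintype.card_prod, Fintype.card_prod, Fintype.card_fin, Fintype.card_fin]
    rw [h1]
    have h2 : Fintype.card K < q₀ := by
      rw [← Nat.card_eq_fintype_card]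
      exact hq
    calc m' * (Fintype.card K * 4) ≤ m' * (q₀ * 4) :=
          Nat.mul_le_mul_left _ (Nat.mul_le_mul_right _ h2.le)
      _ = 4 * q₀ * m' := by ring
  have hle : Subgroup.closure (Set.range fun i : Fin (Fintype.card Idx) =>
      ((xx (e.symm i) : X) : G) * f * ((xx (e.symm i) : X) : G)⁻¹) ≤ X := by
    rw [Subgroup.closure_le]
    rintro _ ⟨t, rfl⟩
    have hf : f ∈ X := by
      rw [← hxf]
      exact x.2
    exact X.mul_mem (X.mul_mem (xx (e.symm t)).2 hf) (X.inv_mem (xx (e.symm t)).2)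
  have hfin : Finite (Subgroup.closure (Set.range fun i : Fin (Fintype.card Idx) =>
      ((xx (e.symm i) : X) : G) * f * ((xx (e.symm i) : X) : G)⁻¹)) :=
    Finite.of_injective _ (Subgroup.inclusion_injective hle)
  refine ⟨m', Fintype.card Idx, fun i => ((xx (e.symm i) : X) : G), hmm, hcard, hfin, ?_⟩
  -- the subgroups of `SL` and `PSL`
  let H₁ : Subgroup (PL.SLn m' K) := (HX.map ρ).comap φ
  let H₀ : Subgroup (PL.PSLn m' K) := H₁.map (QuotientGroup.mk' (Subgroup.center (PL.SLn m' K)))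
  have hg : 2 ^ ((m' / 2) ^ 2) ≤ Nat.card H₀ := by
    refine hGNU m' K H₀ ?_
    intro i j hij a hj
    refine ⟨Matrix.SpecialLinearGroup.transvection hij a, ?_, rfl⟩
    show φ (Matrix.SpecialLinearGroup.transvection hij a) ∈ HX.map ρ
    rw [← hy i j hij a]
    refine Subgroup.mem_map_of_mem ρ ?_
    have hlt : i.val + 1 < m' := by
      rw [← hj]
      exact j.2
    have hj2 : j = ⟨i.val + 1, hlt⟩ := Fin.ext hj
    subst hj2
    have hgen : ∀ k : Fin 4, y i ⟨i.val + 1, hlt⟩ hij a k * x *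
        (y i ⟨i.val + 1, hlt⟩ hij a k)⁻¹ ∈ HX := by
      intro k
      refine Subgroup.subset_closure ⟨(i, a, k), ?_⟩
      have h1 : xx (i, a, k) = y i ⟨i.val + 1, hlt⟩ hij a k := by
        show (if h : i.val + 1 < m' then _ else _) = _
        rw [dif_pos hlt]
      show xx (i, a, k) * x * (xx (i, a, k))⁻¹ = _
      rw [h1]
    exact HX.mul_mem (HX.mul_mem (HX.mul_mem (hgen 0) (HX.inv_mem (hgen 1))) (hgen 2))
      (HX.inv_mem (hgen 3))
  -- comparison of the cardinalities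
  have hker : ∀ g g' : PL.SLn m' K, φ g = φ g' →
      (QuotientGroup.mk' (Subgroup.center (PL.SLn m' K)) g) =
        QuotientGroup.mk' (Subgroup.center (PL.SLn m' K)) g' := by
    intro g g' h
    have h1 : φ (g⁻¹ * g') = 1 := by
      rw [map_mul, map_inv, h, inv_mul_cancel]
    have h2 : π (lamD (g⁻¹ * g')) = 1 := by
      apply Subtype.ext
      exact h1
    obtain ⟨c, hc⟩ := (hK.2 _).1 h2
    exact QuotientGroup.eq.2 (mem_center (F := F) (V₀ := V₀) hc)
  have hfX : Finite (HX.map ρ) := by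
    have : Finite HX := inferInstance
    exact Finite.of_surjective (fun h : HX => (⟨ρ h, Subgroup.mem_map_of_mem ρ h.2⟩ : HX.map ρ))
      (by
        rintro ⟨z, w, hw, rfl⟩
        exact ⟨⟨w, hw⟩, rfl⟩)
  have hc1 : Nat.card H₀ ≤ Nat.card (HX.map ρ) := by
    have hrep : ∀ h : H₀, ∃ g : PL.SLn m' K, φ g ∈ HX.map ρ ∧
        QuotientGroup.mk' (Subgroup.center (PL.SLn m' K)) g = h.1 := by
      rintro ⟨_, g, hg', rfl⟩
      exact ⟨g, hg', rfl⟩
    choose r hr1 hr2 using hrep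
    refine Nat.card_le_card_of_injective (fun h : H₀ => (⟨φ (r h), hr1 h⟩ : HX.map ρ)) ?_
    intro h h' hh
    have h9 := congrArg (fun z : HX.map ρ => z.1) hh
    have hh2 : φ (r h) = φ (r h') := h9
    have h3 := hker _ _ hh2
    rw [hr2, hr2] at h3
    exact Subtype.ext h3
  have hc2 : Nat.card (HX.map ρ) ≤ Nat.card HX := by
    refine Nat.card_le_card_of_surjective
      (fun h : HX => (⟨ρ h, Subgroup.mem_map_of_mem ρ h.2⟩ : HX.map ρ)) ?_
    rintro ⟨z, w, hw, rfl⟩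
    exact ⟨⟨w, hw⟩, rfl⟩
  have hsub : ∀ w ∈ HX, (w : G) ∈ Subgroup.closure (Set.range fun i : Fin (Fintype.card Idx) =>
      ((xx (e.symm i) : X) : G) * f * ((xx (e.symm i) : X) : G)⁻¹) := by
    have h1 : HX ≤ (Subgroup.closure (Set.range fun i : Fin (Fintype.card Idx) =>
      ((xx (e.symm i) : X) : G) * f * ((xx (e.symm i) : X) : G)⁻¹)).comap X.subtype := by
      show Subgroup.closure _ ≤ _
      rw [Subgroup.closure_le]
      rintro _ ⟨t, rfl⟩
      refine Subgroup.mem_comap.2 (Subgroup.subset_closure ⟨e t, ?_⟩)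
      show ((xx (e.symm (e t)) : X) : G) * f * ((xx (e.symm (e t)) : X) : G)⁻¹ = _
      rw [Equiv.symm_apply_apply, ← hxf]
      rfl
    intro w hw
    exact h1 hw
  have hc3 : Nat.card HX ≤ Nat.card (Subgroup.closure (Set.range fun i : Fin (Fintype.card Idx) =>
      ((xx (e.symm i) : X) : G) * f * ((xx (e.symm i) : X) : G)⁻¹)) := by
    refine Nat.card_le_card_of_injective (fun w : HX => ⟨((w : X) : G), hsub w w.2⟩) ?_
    intro w w' hh
    have h3 := congrArg Subtype.val hh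
    exact Subtype.ext (Subtype.ext h3)
  exact hg.trans (hc1.trans (hc2.trans hc3))

end Pool.Agent.Lib.MP66ef6b.CL
end

section
set_option autoImplicit false

/-!
# MP_66ef6b_al, THEOREM L3: module L2Q, the groups `PSL_2` over large fields
-/

namespace Pool.Agent.Lib.MP66ef6b.CL

open PL (SLn PSLn)

namespace L2QM

/-- few square roots -/
theorem card_fiber {K : Type} [Field K] [Fintype K] [DecidableEq K] (b : K) :
    (Finset.univ.filter (fun a : K => 2 + a ^ 2 = b)).card ≤ 2 := by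
  by_cases h : ∃ r : K, 2 + r ^ 2 = b
  · obtain ⟨r, hr⟩ := h
    have h1 : Finset.univ.filter (fun a : K => 2 + a ^ 2 = b) ⊆ {r, -r} := by
      intro a ha
      rw [Finset.mem_filter] at ha
      have h2 : a ^ 2 = r ^ 2 := by
        have := ha.2.trans hr.symm
        exact add_left_cancel this
      rw [Finset.mem_insert, Finset.mem_singleton]
      exact sq_eq_sq_iff_eq_or_eq_neg.1 h2
    exact (Finset.card_le_card h1).trans Finset.card_le_two
  · have h1 : Finset.univ.filter (fun a : K => 2 + a ^ 2 = b) = ∅ := by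
      rw [Finset.filter_eq_empty_iff]
      intro a _ ha
      exact h ⟨a, ha⟩
    rw [h1, Finset.card_empty]
    omega

/-- a good parameter -/
theorem exists_good {K : Type} [Field K] [Finite K] (N : ℕ) (B : Finset K) (hB : B.card ≤ N ^ 2)
    (hK : 2 * N ^ 2 + 2 ≤ Nat.card K) : ∃ a : K, a ≠ 0 ∧ 2 + a ^ 2 ∉ B := by
  classical
  have : Fintype K := Fintype.ofFinite K
  by_contra hcon
  push Not at hcon
  have h1 : (Finset.univ : Finset K) ⊆
      insert 0 (Finset.univ.filter (fun a : K => 2 + a ^ 2 ∈ B)) := by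
    intro a _
    rw [Finset.mem_insert, Finset.mem_filter]
    by_cases ha : a = 0
    · exact Or.inl ha
    · exact Or.inr ⟨Finset.mem_univ _, hcon a ha⟩
  have h2 : (Finset.univ.filter (fun a : K => 2 + a ^ 2 ∈ B)).card ≤ 2 * B.card := by
    apply Finset.card_le_mul_card_image_of_maps_to (f := fun a : K => 2 + a ^ 2)
    · intro a ha
      exact (Finset.mem_filter.1 ha).2
    · intro b _
      refine le_trans (Finset.card_le_card ?_) (card_fiber b)
      intro a ha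
      rw [Finset.mem_filter] at ha ⊢
      exact ⟨Finset.mem_univ _, ha.2⟩
  have h3 := (Finset.card_le_card h1).trans (Finset.card_insert_le _ _)
  rw [Finset.card_univ, ← Nat.card_eq_fintype_card] at h3
  omega

end L2QM

theorem specL2Q (hTRC : PL.SpecTRC) (hSJP : SpecSJP) : SpecL2Q := by
  intro c hc
  refine ⟨2 * (c ^ 2) ^ 2 + 2, fun K _ _ hK f hf => ?_⟩
  obtain ⟨g, rfl⟩ := QuotientGroup.mk'_surjective (Subgroup.center (SLn 2 K)) f
  have hg : g ∉ Subgroup.center (SLn 2 K) := by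
    intro h
    exact hf ((QuotientGroup.eq_one_iff g).2 h)
  obtain ⟨t, -, ht⟩ := hTRC K g hg
  obtain ⟨B, hB, hB2⟩ := hSJP K (c ^ 2)
  obtain ⟨a, ha0, haB⟩ := L2QM.exists_good (c ^ 2) B hB hK
  obtain ⟨ht1, ht2⟩ := ht a
  have hcen := ht2 ha0
  set s : SLn 2 K := t (Multiplicative.ofAdd a) with hs
  have hW : InW (QuotientGroup.mk' (Subgroup.center (SLn 2 K)) g) 2
      (QuotientGroup.mk' (Subgroup.center (SLn 2 K)) (g * s * g⁻¹ * s⁻¹)) :=
    (InW.comm g s).map _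
  refine Gro.of_order hW fun j hj1 hj2 hj => ?_
  rw [← map_pow] at hj
  have h1 : (g * s * g⁻¹ * s⁻¹) ^ j ∈ Subgroup.center (SLn 2 K) :=
    (QuotientGroup.eq_one_iff _).1 hj
  have h2 := hB2 _ hcen j hj1 hj2 h1
  rw [ht1] at h2
  exact haB h2

end Pool.Agent.Lib.MP66ef6b.CL
end

section
set_option autoImplicit false

/-!
# MP_66ef6b_al, THEOREM L3: module L3Q (helper67): large fields, dimension at least three
-/

namespace Pool.Agent.Lib.MP66ef6b.CL

open PL (SLn PSLn)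

/-- **L3Q.** -/
theorem specL3Q (hLT1 : SpecLT1) (hY2N : SpecY2N) : SpecL3Q := by
  intro c _
  obtain ⟨q, hq⟩ := hY2N (c ^ 8)
  refine ⟨q, fun n K _ _ hn hqK f hf => ?_⟩
  obtain ⟨f', rfl⟩ := QuotientGroup.mk_surjective f
  have hf' : f' ∉ Subgroup.center (SLn n K) := fun h => hf ((QuotientGroup.eq_one_iff f').2 h)
  obtain ⟨i, j, hij, b, hb⟩ := hq n K (by omega) hqK
  have h1 := hLT1 n K hn f' hf' i j hij 1
  have h2 := hLT1 n K hn f' hf' j i hij.symm b
  have h3 := (h1.mul h2).map (QuotientGroup.mk' (Subgroup.center (SLn n K)))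
  refine Gro.of_order (k := 8) h3 fun l hl hl' h4 => hb l hl hl' ?_
  rw [← map_pow] at h4
  exact (QuotientGroup.eq_one_iff _).1 h4

end Pool.Agent.Lib.MP66ef6b.CL
end

section
set_option autoImplicit false

/-!
# MP_66ef6b_al, THEOREM L3, part G: module LGR (linear groups)
-/

namespace Pool.Agent.Lib.MP66ef6b.CL

open PL (SLn PSLn fx)

namespace LGRM

theorem eq_one_of_le_one {n : ℕ} (hn : n ≤ 1) (K : Type) [Field K] (f : PSLn n K) : f = 1 := by
  have : Subsingleton (Fin n) := by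
    constructor
    intro a b
    apply Fin.ext
    have h1 := a.2
    have h2 := b.2
    omega
  have : Subsingleton (SLn n K) := by
    constructor
    intro a b
    apply Subtype.ext
    rcases isEmpty_or_nonempty (Fin n) with h | h
    · ext i
      exact h.elim i
    · obtain ⟨i₀⟩ := h
      have : Unique (Fin n) := ⟨⟨i₀⟩, fun j => Subsingleton.elim _ _⟩
      have ha : a.1 i₀ i₀ = 1 := by
        have h1 := a.2
        rw [Matrix.det_unique] at h1
        rw [Subsingleton.elim i₀ default]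
        exact h1
      have hb : b.1 i₀ i₀ = 1 := by
        have h1 := b.2
        rw [Matrix.det_unique] at h1
        rw [Subsingleton.elim i₀ default]
        exact h1
      ext i j
      rw [Subsingleton.elim i i₀, Subsingleton.elim j i₀, ha, hb]
  obtain ⟨g, rfl⟩ := QuotientGroup.mk_surjective f
  rw [Subsingleton.elim g 1]
  rfl

end LGRM

theorem specLGR (hLBG : SpecLBG) (hL2Q : SpecL2Q) (hL3Q : SpecL3Q) : SpecLGR := by
  intro c hc
  obtain ⟨N, hN⟩ := hLBG c hc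
  obtain ⟨q₂, hq₂⟩ := hL2Q c hc
  obtain ⟨q₃, hq₃⟩ := hL3Q c hc
  refine ⟨(q₂ + q₃ + 1) ^ (N * N), ?_⟩
  intro n K _ _ hB f hf
  by_cases hnN : N ≤ n
  · exact hN n K hnN f hf
  have hnN' : n ≤ N := by omega
  have hq : q₂ + q₃ + 1 ≤ Nat.card K := by
    by_contra hlt
    have h1 := PL.SUPM.card_PSL_le n K
    have h2 : Nat.card K ^ (n * n) ≤ (q₂ + q₃ + 1) ^ (n * n) :=
      Nat.pow_le_pow_left (by omega) _
    have h3 : (q₂ + q₃ + 1) ^ (n * n) ≤ (q₂ + q₃ + 1) ^ (N * N) :=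
      Nat.pow_le_pow_right (by omega) (Nat.mul_le_mul hnN' hnN')
    omega
  by_cases h3 : 3 ≤ n
  · exact hq₃ n K h3 (by omega) f hf
  by_cases h1 : n ≤ 1
  · exact absurd (LGRM.eq_one_of_le_one h1 K f) hf
  have h2 : n = 2 := by omega
  subst h2
  exact hq₂ K (by omega) f hf

end Pool.Agent.Lib.MP66ef6b.CL
end

section
set_option autoImplicit false

/-!
# MP_66ef6b_al, THEOREM L3, module LT1 (helper94)

Transvections are generated by four conjugates.
-/

namespace Pool.Agent.Lib.MP66ef6b.CL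

open PL (SLn PSLn fx)

open Matrix.SpecialLinearGroup (transvection)

theorem specLT1 (hLTA : SpecLTA) (hLTB : SpecLTB) (hTCJ : PL.SpecTCJ) : SpecLT1 := by
  intro n K _ hn f hf i j hij a
  by_cases ha : a = 0
  · rw [ha, Matrix.SpecialLinearGroup.transvection_coeff_zero]
    exact InW.one f 4
  obtain ⟨s, hs1, hs2⟩ := hLTA n K hn f hf
  obtain ⟨s', v, φ, hv, hφ, hT⟩ := hLTB n K hn _ hs1 hs2
  obtain ⟨h, hh⟩ := (hTCJ n K _ v φ hT hv hφ i j hij).2 hn a ha
  rw [← hh]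
  exact ((InW.comm f s).trans (InW.comm _ s')).conj h

end Pool.Agent.Lib.MP66ef6b.CL
end

section
set_option autoImplicit false

/-!
# MP_66ef6b_al, CL part G: module MN3 (helper24)
-/

namespace Pool.Agent.Lib.MP66ef6b.CL

universe u

/-- THEOREM L3. -/
theorem specMN3 (hMN2 : SpecMN2.{u}) (hFLA : SpecFLA.{u}) (hAFL : SpecAFL.{u}) :
    SpecMN3.{u} := by
  intro G _ _ _ hLF hAC
  rw [hMN2 G hLF hAC]
  constructor
  · rintro (h | h)
    · exact Or.inl (hAFL G hLF h)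
    · exact Or.inr h
  · rintro (h | h)
    · exact Or.inl (hFLA G hLF hAC h)
    · exact Or.inr h

end Pool.Agent.Lib.MP66ef6b.CL
end

section
set_option autoImplicit false

/-! # MP_66ef6b_al, THEOREM L2: assembly -/

namespace Pool.Agent.Lib.MP66ef6b.CL

universe u

theorem plLIN : PL.SpecLIN.{u} := by
  have hSMP : PL.SpecSMP.{u} := PL.specSMP PL.specPRF.{u} PL.oul.{u}
  have hREP : PL.SpecREP.{u} := PL.specREP PL.specLFU PL.specNRM.{u} PL.specULF.{u}
  have hBGF : PL.SpecBGF.{u} := PL.specBGF PL.specTRV PL.specTCJ PL.specGNU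
  have hAFF : PL.SpecAFF.{u} := PL.specAFF hBGF PL.specSPR.{u}
  exact PL.specLIN hSMP (PL.specSUP PL.thA) PL.specCST.{u} hREP hAFF

theorem xLMD : SpecLMD := specLMD

theorem xMAU2 : SpecMAU2 := specMAU2

theorem xZEL : SpecZEL := specZEL

theorem xSZE : SpecSZE := specSZE xMAU2 xZEL xLMD

theorem xNVV : SpecNVV := specNVV xMAU2

theorem xCLE : SpecCLE := specCLE xSZE xNVV

theorem xOREB : SpecOREB := specOREB

theorem xNE1 : SpecNE1 := specNE1

theorem xGENC : SpecGENC := specGENC xOREB xNE1 xLMD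

theorem xCLI : SpecCLI := specCLI xCLE xGENC xLMD

theorem xFXR : SpecFXR := specFXR PL.thA

theorem xBAS : SpecBAS := specBAS xFXR xCLI xLMD

theorem xEMB : SpecEMB := specEMB

theorem xWT1 : SpecWT1 := specWT1 xLMD

theorem xWT2 : SpecWT2 := specWT2 xWT1 xEMB

theorem xWT3 : SpecWT3 := specWT3 xWT1

theorem xWTN : SpecWTN := specWTN xWT1 xEMB xLMD

theorem xSPX : SpecSPX := specSPX xWT1

theorem xSCA : SpecSCA := specSCA

theorem xPRU : SpecPRU := specPRU xWT2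

theorem xPRV : SpecPRV := specPRV xWT1

theorem xNXC : SpecNXC := specNXC xWT1 xWT3

theorem xCWQ : SpecCWQ := specCWQ

theorem xQSZ : SpecQSZ := specQSZ

theorem xSGY : SpecSGY := specSGY xCWQ xQSZ

theorem xPK2 : SpecPK2 := specPK2

theorem xCNJ : SpecCNJ := specCNJ

theorem xTXC : SpecTXC := specTXC

theorem xC0 : SpecC0 := specC0 xBAS xWT2 xLMD xCNJ

theorem xC1 : SpecC1 := specC1 xC0 xPRU xTXC xPK2 xCNJ

theorem xC2 : SpecC2 := specC2 xC1 xPRV xTXC xPK2 xCNJ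

theorem xC3 : SpecC3 := specC3 xC1 xC2 xNXC xSPX xTXC xPK2

theorem xC4 : SpecC4 := specC4 xC3 xSCA xSPX xSGY xTXC xPK2

theorem xAVS : SpecAVS := specAVS

theorem xGRF : SpecGRF := specGRF xAVS xCWQ

theorem xAT2 : SpecAT2 := specAT2 xGRF xWTN xLMD PL.specEXT

theorem xA2F : SpecA2F := specA2F xAT2 xBAS xPK2 xCNJ

theorem xTHC : SpecTHC := specTHC xC4 xA2F

theorem xRKN : SpecRKN := specRKN

theorem xPKU : SpecPKU.{u} := specPKU

theorem xSUA : SpecSUA.{u} := specSUA xTHC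

theorem xSUB : SpecSUB.{u} := specSUB xPKU.{u}

theorem xFIB : SpecFIB.{u} := specFIB

theorem xSZS : SpecSZS.{u} := specSZS

theorem xCRK : SpecCRK.{u} := specCRK xRKN

theorem xSUC : SpecSUC.{u} := specSUC xSUA.{u} xSUB.{u} xFIB.{u} xSZS.{u} xCRK.{u}

theorem xCS2 : SpecCS2.{u} := specCS2

theorem xHEI : SpecHEI := specHEI

theorem xPRS : SpecPRS := specPRS xHEI xLMD

theorem xDEN : SpecDEN := specDEN xPRS xWT2

theorem xNSG : SpecNSG := specNSG xWT1

theorem xGOO : SpecGOO := specGOO xNSG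

theorem xNOO : SpecNOO := specNOO xNSG

theorem xLXK : SpecLXK := specLXK

theorem xRK1 : SpecRK1 := specRK1

theorem xRK2 : SpecRK2 := specRK2

theorem xRK3 : SpecRK3 := specRK3

theorem xRNK : SpecRNK := specRNK xRK1 xRK2 xRK3

theorem xNXG : SpecNXG := specNXG xWT1

theorem xCL0 : SpecCL0.{u} := specCL0 xWT2

theorem xNXX : SpecNXX.{u} := specNXX xCWQ xRNK xNXG

theorem xSTB : SpecSTB.{u} := specSTB xWT1

theorem xWPS : SpecWPS := specWPS xWT1 xWT3 xEMB

theorem xCM0 : SpecCM0 := specCM0 xWT1 xWT3 xSPX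

theorem xCMM : SpecCMM := specCMM xCM0 xWT3 xEMB

theorem xZXX : SpecZXX.{u} := specZXX xSTB.{u} xWPS

theorem xTH1 : SpecTH1.{u} := specTH1 xZXX.{u} xWPS xSTB.{u}

theorem xITW : SpecITW.{u} := specITW xTH1.{u} xSTB.{u}

theorem xTH2 : SpecTH2.{u} := specTH2 xCMM xITW.{u} xSTB.{u}

theorem xINV : SpecINV := specINV xCMM xWPS

theorem xISO : SpecISO.{u} := specISO xINV xTH2.{u} xITW.{u} xSTB.{u} xWPS

theorem xKAP : SpecKAP.{u} := specKAP

theorem xE1M : SpecE1M.{u} := specE1M xITW.{u} xSTB.{u} xWPS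

theorem xE1N : SpecE1N.{u} := specE1N xE1M.{u} xTH1.{u} xWPS

theorem xE1Y : SpecE1Y.{u} := specE1Y xE1M.{u} xE1N.{u} xTH1.{u} xITW.{u} xCMM xWPS

theorem xGXY : SpecGXY := specGXY xWPS

theorem xIN1 : SpecIN1.{u} := specIN1 xTH1.{u} xTH2.{u} xISO.{u} xKAP.{u} xE1N.{u} xE1Y.{u} xGXY

theorem xINA : SpecINA := specINA xDEN xGOO xNOO

theorem xINB : SpecINB := specINB xLXK

theorem xINN : SpecINN.{u} := specINN xINA xINB xCL0.{u} xNXX.{u} xIN1.{u}

theorem xIN2 : SpecIN2.{u} := specIN2 xINN.{u}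

theorem xUNL : SpecUNL.{u} := specUNL xSCA xWT1

theorem xUN2 : SpecUN2.{u} := specUN2 xUNL.{u}

theorem xURP : SpecURP.{u} := specURP PL.specULF.{u}

theorem xRP2 : SpecRP2.{u} := specRP2 xIN2.{u} xUN2.{u} xURP.{u} PL.specNRM.{u}

theorem xTRW : SpecTRW := specTRW xWT2 xPRU xCWQ

theorem xGRW : SpecGRW.{u} := specGRW xTRW xLMD PL.specGNU

theorem xAF2 : SpecAF2.{u} := specAF2 xGRW.{u} PL.specSPR.{u}

theorem xLI2 : SpecLI2.{u} := specLI2 xSUC.{u} xCS2.{u} xRP2.{u} xAF2.{u}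

theorem xMN2 : SpecMN2.{u} := specMN2 xLI2.{u} plLIN.{u}

/-- THEOREM L2. -/
theorem main : SpecMN2.{u} := xMN2.{u}

end Pool.Agent.Lib.MP66ef6b.CL
end

section
set_option autoImplicit false

/-! # MP_66ef6b_al, THEOREM L3: assembly -/

namespace Pool.Agent.Lib.MP66ef6b.CL

universe u

theorem xLTA : SpecLTA := specLTA

theorem xLTB : SpecLTB := specLTB

theorem xLT1 : SpecLT1 := specLT1 xLTA xLTB PL.specTCJ

theorem xLGU : SpecLGU := specLGU

theorem xLBG : SpecLBG := specLBG xLT1 xLGU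

theorem xSJP : SpecSJP := specSJP

theorem xL2Q : SpecL2Q := specL2Q PL.specTRC xSJP

theorem xY2N : SpecY2N := specY2N xSJP

theorem xL3Q : SpecL3Q := specL3Q xLT1 xY2N

theorem xLGR : SpecLGR := specLGR xLBG xL2Q xL3Q

theorem xCG1 : SpecCG1 := specCG1 xPRU

theorem xCG2 : SpecCG2 := specCG2 xCG1 xPRV

theorem xCG3 : SpecCG3 := specCG3 xCG1 xCG2 xNXC xSPX

theorem xCG4 : SpecCG4 := specCG4 xCG3 xSCA xSPX xSGY

theorem xCG5 : SpecCG5 := specCG5 xCG4 xWT2 xLMD

theorem xCGA : SpecCGA.{u} := specCGA xCG5 xLGU xLMD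

theorem xCGB : SpecCGB.{u} := specCGB xCG5 xY2N xLMD

theorem xCGC : SpecCGC.{u} := specCGC xCGA.{u} xCGB.{u} xSZS.{u}

theorem xAL1 : SpecAL1 := specAL1

theorem xAL2 : SpecAL2 := specAL2

theorem xAL3 : SpecAL3 := specAL3 xAL1 xAL2

theorem xGRO : SpecGRO.{u} := specGRO xLGR xCGC.{u} xAL3

theorem xKEG : SpecKEG.{u} := specKEG

theorem xFLA : SpecFLA.{u} := specFLA xGRO.{u} xKEG.{u} PL.specSPR.{u}

theorem xAFL : SpecAFL.{u} := specAFL

theorem xMN3 : SpecMN3.{u} := specMN3 xMN2.{u} xFLA.{u} xAFL.{u}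

/-- THEOREM L3. -/
theorem main3 : SpecMN3.{u} := xMN3.{u}

end Pool.Agent.Lib.MP66ef6b.CL
end
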