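import Pool.Agent.Lib.MP_66ef6b_al.CL.SGY
import Pool.Agent.Lib.MP_66ef6b_al.CL.FinLin

set_option autoImplicit false

/-!
# MP_66ef6b_al, THEOREMS L2 and L3 (helper14): the hypothesis on the composition factors

The definitions used in the statements. They are the definitions of `CL/Std.lean` and
`CL/LocAC.lean`, cut into shorter pieces.
-/

namespace Pool.Agent.Lib.MP66ef6b.CL

universe u

/-- `P` is the quotient of the subgroup `H` of `Γ` by `H ∩ Z`. -/
def QuotBy {Γ : Type} [Group Γ] (H : Subgroup Γ) (Z : Set Γ) (P : Type u) [Group P] : Prop :=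
  ∃ π : H →* P, Function.Surjective π ∧ ∀ g : H, π g = 1 ↔ (g : Γ) ∈ Z

/-- the scalars in `GL(V)`. -/
def Scal (K V : Type) [Field K] [AddCommGroup V] [Module K V] : Set (V ≃ₗ[K] V) :=
  {g | ∃ c : K, ∀ v, g v = c • v}

/-- `P` is the quotient by the scalars of the group generated by the Siegel transformations of the
form space `(V, S)`. -/
def Sq.Quot {K : Type} [Field K] {F : FD K} {V : Type} [AddCommGroup V] [Module K V] (S : Sq F V)
    (P : Type u) [Group P] : Prop :=
  QuotBy (S.D ⊤) (Scal K V) P

/-- `P` is a classical group: the quotient by the scalars of the group generated by the Siegel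
transformations of a symplectic, unitary or orthogonal space over a finite field, the orthogonal
sum of at least three hyperbolic planes and a non-degenerate space of dimension at most two. -/
def IsClassical (P : Type u) [Group P] : Prop :=
  ∃ (K : Type) (_ : Field K) (F : FD K) (V₀ : Type) (_ : AddCommGroup V₀) (_ : Module K V₀)
    (S₀ : Sq F V₀) (m : ℕ), Cls S₀ m ∧ (S₀.std m).Quot P

/-- `T` is an alternating group, a group `PSL_n(q)` or a classical group. -/
def IsAltClassical (T : Type u) [Group T] : Prop :=
  (∃ n : ℕ, Nonempty (T ≃* alternatingGroup (Fin n))) ∨ PL.IsPSL T ∨ IsClassical T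

/-- `T` is a quotient of a subnormal subgroup of `K`. -/
def SubnormalQuot (K T : Type u) [Group K] [Group T] : Prop :=
  ∃ (A : Subgroup K) (π : A →* T), A.IsSubnormal ∧ Function.Surjective π

/-- For some finite subgroup `E₀`, every finite subgroup of `G` is contained in a finite subgroup
`K` such that every non-abelian composition factor `T` of `K` for which `E₀` embeds in `Aut(T)` is
an alternating group, a group `PSL_n(q)` or a classical group. -/
def LocAltClassical (G : Type u) [Group G] : Prop :=
  ∃ E₀ : Subgroup G, Finite E₀ ∧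
    ∀ E : Subgroup G, Finite E → ∃ K : Subgroup G, Finite K ∧ E ≤ K ∧
      ∀ (T : Type u) [Group T] [IsSimpleGroup T], SubnormalQuot K T → (∃ x y : T, x * y ≠ y * x) →
        (∃ φ : E₀ →* MulAut T, Function.Injective φ) → IsAltClassical T

theorem IsClassical.isCl {P : Type u} [Group P] (h : IsClassical P) : IsCl P := by
  obtain ⟨K, iK, F, V₀, i1, i2, S₀, m, hC, π, h1, h2⟩ := h
  exact ⟨K, iK, F, V₀, i1, i2, S₀, m, π, hC, h1, h2⟩

theorem LocAltClassical.locAC {G : Type u} [Group G] (h : LocAltClassical G) : LocAC G := by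
  obtain ⟨E₀, h0, h⟩ := h
  refine ⟨E₀, h0, fun E hE => ?_⟩
  obtain ⟨K, hK, hEK, h⟩ := h E hE
  refine ⟨K, hK, hEK, fun A B _ hA hs hx hφ => ?_⟩
  have := hs
  rcases h (A ⧸ B) ⟨A, QuotientGroup.mk' B, hA, QuotientGroup.mk'_surjective B⟩ hx hφ with
    h | h | h
  · exact Or.inl h
  · exact Or.inr (Or.inl h)
  · exact Or.inr (Or.inr h.isCl)

end Pool.Agent.Lib.MP66ef6b.CL
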